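import Pool.Agent.Work.MP_a8bd83_qk.Interface5

/-! # Block ADK (helper71) -/

set_option autoImplicit false

namespace MPa8bd83

open Module

theorem p_ADK : Stmt_ADK := by
  intro V _ _ _ k ξ hk ζ hζ
  have hfd : FiniteDimensional ℝ (V →L[ℂ] V) := by
    have : FiniteDimensional ℂ (V →L[ℂ] V) := inferInstance
    exact FiniteDimensional.complexToReal _
  have hcV : CompleteSpace V := FiniteDimensional.complete ℂ V
  let l : (V →L[ℂ] V) →L[ℝ] (V →L[ℂ] V) := ContinuousLinearMap.mul ℝ (V →L[ℂ] V) ξ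
  let r : (V →L[ℂ] V) →L[ℝ] (V →L[ℂ] V) := (ContinuousLinearMap.mul ℝ (V →L[ℂ] V)).flip (-ξ)
  have hl : ∀ a, l a = ξ * a := fun _ => rfl
  have hr : ∀ a, r a = a * -ξ := fun _ => rfl
  have hcom : Commute l r := by
    ext1 a
    change l (r a) = r (l a)
    rw [hl, hr, hl, hr, mul_assoc]
  let _ : NormedAlgebra ℚ ((V →L[ℂ] V) →L[ℝ] (V →L[ℂ] V)) :=
    NormedAlgebra.restrictScalars ℚ ℝ _
  have hexp : NormedSpace.exp (l + r) = NormedSpace.exp l * NormedSpace.exp r :=
    NormedSpace.exp_add_of_commute hcom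
  have hat : ∀ (b : (V →L[ℂ] V) →L[ℝ] (V →L[ℂ] V)) (a : V →L[ℂ] V),
      HasSum (fun n : ℕ => ((n.factorial : ℝ)⁻¹) • (b ^ n) a) (NormedSpace.exp b a) := by
    intro b a
    have h1 : HasSum (fun n : ℕ => ((n.factorial : ℝ)⁻¹) • b ^ n) (NormedSpace.exp b) :=
      NormedSpace.exp_series_hasSum_exp' b
    exact h1.mapL (ContinuousLinearMap.apply ℝ (V →L[ℂ] V) a)
  have hser : ∀ x : V →L[ℂ] V, HasSum (fun n : ℕ => ((n.factorial : ℝ)⁻¹) • x ^ n)
      (NormedSpace.exp x) := fun x => NormedSpace.exp_series_hasSum_exp' x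
  have hel : ∀ a, NormedSpace.exp l a = NormedSpace.exp ξ * a := by
    intro a
    have hp : ∀ n : ℕ, (l ^ n) a = ξ ^ n * a := by
      intro n
      induction n with
      | zero => simp
      | succ n ih =>
        rw [pow_succ', pow_succ']
        change l ((l ^ n) a) = _
        rw [ih, hl, mul_assoc]
    have h1 := (hser ξ).mul_right a
    have h2 : (fun n : ℕ => ((n.factorial : ℝ)⁻¹) • (l ^ n) a) =
        fun n : ℕ => (((n.factorial : ℝ)⁻¹) • ξ ^ n) * a := by
      funext n
      rw [hp, smul_mul_assoc]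
    refine (hat l a).unique ?_
    rw [h2]
    exact h1
  have her : ∀ a, NormedSpace.exp r a = a * NormedSpace.exp (-ξ) := by
    intro a
    have hp : ∀ n : ℕ, (r ^ n) a = a * (-ξ) ^ n := by
      intro n
      induction n with
      | zero => simp
      | succ n ih =>
        rw [pow_succ', pow_succ]
        change r ((r ^ n) a) = _
        rw [ih, hr, mul_assoc]
    have h1 := (hser (-ξ)).mul_left a
    have h2 : (fun n : ℕ => ((n.factorial : ℝ)⁻¹) • (r ^ n) a) =
        fun n : ℕ => a * (((n.factorial : ℝ)⁻¹) • (-ξ) ^ n) := by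
      funext n
      rw [hp, mul_smul_comm]
    refine (hat r a).unique ?_
    rw [h2]
    exact h1
  have hmem : ∀ n : ℕ, ((l + r) ^ n) ζ ∈ k := by
    intro n
    induction n with
    | zero => simpa using hζ
    | succ n ih =>
      rw [pow_succ']
      change l (((l + r) ^ n) ζ) + r (((l + r) ^ n) ζ) ∈ k
      rw [hl, hr, mul_neg, ← sub_eq_add_neg]
      exact hk _ ih
  have hcl : IsClosed (k : Set (V →L[ℂ] V)) := k.closed_of_finiteDimensional
  have h1 : NormedSpace.exp (l + r) ζ ∈ k := by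
    refine hcl.mem_of_tendsto (hat (l + r) ζ) (Filter.Eventually.of_forall fun s => ?_)
    exact k.sum_mem fun n _ => k.smul_mem _ (hmem n)
  rw [hexp] at h1
  change NormedSpace.exp l (NormedSpace.exp r ζ) ∈ k at h1
  rw [her, hel, ← mul_assoc] at h1
  exact h1

end MPa8bd83
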