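import Pool.Agent.Work.MP_a8bd83_qk.Interface3

/-! Block AVG: averaging. -/

set_option autoImplicit false

namespace MPa8bd83

open Module

theorem AVG_flip {A : Type} [Fintype A] [DecidableEq A] (m : A → ℤ) (b₀ : A)
    (hb : ¬ Even (m b₀)) (f : A → Bool) :
    Even (∑ b, (if Function.update f b₀ (!f b₀) b then m b else 0)) ↔
      ¬ Even (∑ b, (if f b then m b else 0)) := by
  rw [← Finset.add_sum_erase Finset.univ _ (Finset.mem_univ b₀),
    ← Finset.add_sum_erase Finset.univ (fun b => if f b then m b else 0) (Finset.mem_univ b₀)]
  have h1 : ∑ b ∈ Finset.univ.erase b₀, (if Function.update f b₀ (!f b₀) b then m b else 0) =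
      ∑ b ∈ Finset.univ.erase b₀, (if f b then m b else 0) := by
    refine Finset.sum_congr rfl fun b hb => ?_
    rw [Function.update_of_ne (Finset.ne_of_mem_erase hb)]
  rw [h1, Function.update_self]
  cases f b₀ <;> simp [Int.even_add, hb]

theorem AVG_half {A : Type} [Fintype A] [DecidableEq A] (m : A → ℤ) (b₀ : A)
    (hb : ¬ Even (m b₀)) :
    2 * ((Finset.univ : Finset (A → Bool)).filter
      (fun f => Even (∑ b, (if f b then m b else 0)))).card = 2 ^ Fintype.card A := by
  have h1 : ((Finset.univ : Finset (A → Bool)).filter
      (fun f => Even (∑ b, (if f b then m b else 0)))).card =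
      ((Finset.univ : Finset (A → Bool)).filter
      (fun f => ¬ Even (∑ b, (if f b then m b else 0)))).card := by
    have inv : ∀ f : A → Bool, Function.update (Function.update f b₀ (!f b₀)) b₀
        (!(Function.update f b₀ (!f b₀) b₀)) = f := by
      intro f
      rw [Function.update_self, Bool.not_not, Function.update_idem, Function.update_eq_self]
    refine Finset.card_nbij' (fun f => Function.update f b₀ (!f b₀))
      (fun f => Function.update f b₀ (!f b₀)) ?_ ?_ ?_ ?_
    · intro f hf
      have hf' := (Finset.mem_filter.1 hf).2
      refine Finset.mem_coe.2 (Finset.mem_filter.2 ⟨Finset.mem_univ _, ?_⟩)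
      rw [AVG_flip m b₀ hb, not_not]
      exact hf'
    · intro f hf
      have hf' := (Finset.mem_filter.1 hf).2
      refine Finset.mem_coe.2 (Finset.mem_filter.2 ⟨Finset.mem_univ _, ?_⟩)
      rw [AVG_flip m b₀ hb]
      exact hf'
    · intro f _
      exact inv f
    · intro f _
      exact inv f
  have h2 := Finset.card_filter_add_card_filter_not (s := (Finset.univ : Finset (A → Bool)))
    (fun f => Even (∑ b, (if f b then m b else 0)))
  rw [Finset.card_univ, Fintype.card_fun, Fintype.card_bool] at h2
  omega

theorem p_AVG : Stmt_AVG := by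
  intro A _ _ M
  by_contra hcon
  push Not at hcon
  have hsum : ∑ f : A → Bool, (Fintype.card A +
      (Finset.univ.filter (fun a => ∀ b, Even (M a b))).card) <
      ∑ f : A → Bool, 2 * (Finset.univ.filter (fun a =>
        Even (∑ b, (if f b then M a b else 0)))).card :=
    Finset.sum_lt_sum_of_nonempty Finset.univ_nonempty fun f _ => hcon f
  rw [Finset.sum_const, Finset.card_univ, Fintype.card_fun, Fintype.card_bool, smul_eq_mul,
    ← Finset.mul_sum] at hsum
  -- exchange the sums
  have hex : ∑ f : A → Bool, (Finset.univ.filter (fun a =>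
        Even (∑ b, (if f b then M a b else 0)))).card =
      ∑ a : A, ((Finset.univ : Finset (A → Bool)).filter
        (fun f => Even (∑ b, (if f b then M a b else 0)))).card := by
    simp only [Finset.card_filter]
    exact Finset.sum_comm
  have hone : ∀ a : A, 2 * ((Finset.univ : Finset (A → Bool)).filter
        (fun f => Even (∑ b, (if f b then M a b else 0)))).card =
      2 ^ Fintype.card A + (if ∀ b, Even (M a b) then 2 ^ Fintype.card A else 0) := by
    intro a
    by_cases h : ∀ b, Even (M a b)
    · rw [if_pos h]
      have : (Finset.univ : Finset (A → Bool)).filter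
          (fun f => Even (∑ b, (if f b then M a b else 0))) = Finset.univ := by
        refine Finset.filter_true_of_mem fun f _ => ?_
        refine Finset.even_sum _ fun b _ => ?_
        by_cases hfb : f b = true
        · rw [if_pos hfb]; exact h b
        · rw [if_neg hfb]; exact Even.zero
      rw [this, Finset.card_univ, Fintype.card_fun, Fintype.card_bool]
      ring
    · rw [if_neg h, add_zero]
      push Not at h
      obtain ⟨b₀, hb₀⟩ := h
      exact AVG_half (M a) b₀ (by simpa using hb₀)
  rw [hex, Finset.mul_sum, Finset.sum_congr rfl fun a _ => hone a, Finset.sum_add_distrib,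
    Finset.sum_const, Finset.card_univ, smul_eq_mul, ← Finset.sum_filter, Finset.sum_const,
    smul_eq_mul, mul_add, mul_comm (2 ^ Fintype.card A) (Fintype.card A),
    mul_comm (2 ^ Fintype.card A) (Finset.card _)] at hsum
  exact lt_irrefl _ hsum

end MPa8bd83
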