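import Pool.Agent.Work.MP_a8bd83_qk.Interface

/-! Block BAR: barycentric coordinates are at least 1/2. -/

namespace MPa8bd83

open Module

theorem BAR_exp {V : Type} [NormedAddCommGroup V] [InnerProductSpace ℂ V] [FiniteDimensional ℂ V]
    (hEXP : Stmt_EXP) (t : Submodule ℝ (V →L[ℂ] V)) {ι : Type} [Fintype ι] (w : ι → Dual ℝ t)
    (e : ι → V) (b : ι → ℂ) (he : ∀ i, e i ∈ Wt t (w i)) (ξ : t) (c : ℂ)
    (hc : ∀ i, Complex.exp ((w i ξ : ℂ) * Complex.I) = c) :
    NormedSpace.exp (ξ : V →L[ℂ] V) (∑ i, b i • e i) = c • ∑ i, b i • e i := by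
  rw [map_sum, Finset.smul_sum]
  refine Finset.sum_congr rfl fun i _ => ?_
  rw [map_smul, (hEXP V t).1 ξ (w i) (e i) (he i), hc i, smul_comm]

/-- the statement for one base point -/
theorem BAR_one {V : Type} [NormedAddCommGroup V] [InnerProductSpace ℂ V] [FiniteDimensional ℂ V]
    (J : V → V) (k t : Submodule ℝ (V →L[ℂ] V))
    (hQ : IsQuatStr J) (hL : IsLieSub J k) (hM : MaxAb k t) (hF : FreeOnZeros J k)
    (hWTD : Stmt_WTD) (hEXP : Stmt_EXP) (hLIN : Stmt_LIN)
    (ι : Type) [Fintype ι] (w : ι → Dual ℝ t) (e : ι → V) (c : ι → ℝ)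
    (he : ∀ i, e i ∈ Wt t (w i)) (hne : ∀ i, e i ≠ 0) (hc : ∀ i, 0 < c i) (hsum : ∑ i, c i = 1)
    (hw : ∑ i, c i • w i = 0) (hr : 1 ≤ finrank ℝ t) (hcard : Fintype.card ι ≤ finrank ℝ t + 1)
    (hx0 : ∑ i, ((Real.sqrt (c i) : ℝ) : ℂ) • e i ≠ 0)
    (hx : MomentZero J k (∑ i, ((Real.sqrt (c i) : ℝ) : ℂ) • e i)) (i0 : ι) :
    Fintype.card ι = finrank ℝ t + 1 ∧ ∀ i, i ≠ i0 → 1 / 2 ≤ c i := by
  classical
  have hfin : Module.Finite ℝ t := Module.finite_of_finrank_pos (by omega)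
  -- the differences of the weights
  let Λ : t →ₗ[ℝ] ({i : ι // i ≠ i0} → ℝ) := LinearMap.pi fun i => w i.1 - w i0
  have hΛ : ∀ (η : t) (i : {i : ι // i ≠ i0}), Λ η i = w i.1 η - w i0 η := fun η i => rfl
  have hinj : Function.Injective Λ := by
    rw [injective_iff_map_eq_zero]
    intro η hη
    have h1 : ∀ i, w i η = w i0 η := by
      intro i
      by_cases hi : i = i0
      · rw [hi]
      · have h2 := congrFun hη ⟨i, hi⟩
        rw [hΛ] at h2
        have h3 : w i η - w i0 η = 0 := h2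
        linarith
    refine hLIN V J k t hQ hL hM hF hWTD hEXP _ hx0 hx η fun s =>
      ⟨Complex.exp (((w i0 (s • η) : ℝ) : ℂ) * Complex.I), ?_⟩
    refine BAR_exp hEXP t w e _ he (s • η) _ fun i => ?_
    rw [map_smul, map_smul, h1 i]
  have hcardS : Fintype.card {i : ι // i ≠ i0} + 1 = Fintype.card ι := by
    have h1 : Fintype.card {i : ι // i ≠ i0} = Fintype.card ι - 1 := by
      rw [Fintype.card_subtype_compl, Fintype.card_subtype_eq]
    have h2 : 0 < Fintype.card ι := Fintype.card_pos_iff.mpr ⟨i0⟩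
    omega
  have hle := LinearMap.finrank_le_finrank_of_injective hinj
  rw [finrank_pi] at hle
  have hcard' : Fintype.card ι = finrank ℝ t + 1 := by omega
  have hsurj : Function.Surjective Λ := by
    refine (LinearMap.injective_iff_surjective_of_finrank_eq_finrank ?_).mp hinj
    rw [finrank_pi]
    omega
  refine ⟨hcard', fun i hi => ?_⟩
  obtain ⟨ξ, hξ⟩ := hsurj (Pi.single ⟨i, hi⟩ (2 * Real.pi))
  have h1 : w i ξ = w i0 ξ + 2 * Real.pi := by
    have h2 := congrFun hξ ⟨i, hi⟩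
    rw [hΛ, Pi.single_eq_same] at h2
    linarith
  have h2 : ∀ j, j ≠ i → w j ξ = w i0 ξ := by
    intro j hj
    by_cases hj0 : j = i0
    · rw [hj0]
    · have h3 := congrFun hξ ⟨j, hj0⟩
      rw [hΛ, Pi.single_eq_of_ne (fun h => hj (congrArg Subtype.val h))] at h3
      linarith
  have h3 := BAR_exp hEXP t w e (fun i => ((Real.sqrt (c i) : ℝ) : ℂ)) he ξ
    (Complex.exp ((w i0 ξ : ℂ) * Complex.I)) (fun j => by
      by_cases hj : j = i
      · rw [hj, h1]
        push_cast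
        rw [add_mul, Complex.exp_add, Complex.exp_two_pi_mul_I, mul_one]
      · rw [h2 j hj])
  have h4 := hF _ hx0 hx (ξ : V →L[ℂ] V) (hM.le ξ.2) (by
    rw [h3]
    exact Submodule.smul_mem _ _ (Submodule.subset_span (Set.mem_insert _ _)))
  obtain ⟨n, hn⟩ := (hEXP V t).2 ξ h4 (w i0) (by
    intro hbot
    have h5 := he i0
    rw [hbot, Submodule.mem_bot] at h5
    exact hne i0 h5)
  have h5 : ∑ j, c j * w j ξ = 0 := by
    have h6 := LinearMap.congr_fun hw ξ
    rw [LinearMap.sum_apply, LinearMap.zero_apply] at h6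
    rw [← h6]
    rfl
  have h6 : ∑ j, c j * w j ξ = w i0 ξ + 2 * Real.pi * c i := by
    have h7 : ∀ j, c j * w j ξ = c j * w i0 ξ + if j = i then 2 * Real.pi * c i else 0 := by
      intro j
      by_cases hj : j = i
      · rw [if_pos hj, hj, h1]
        ring
      · rw [if_neg hj, h2 j hj, add_zero]
    rw [Finset.sum_congr rfl fun j _ => h7 j, Finset.sum_add_distrib, ← Finset.sum_mul, hsum,
      one_mul, Finset.sum_ite_eq' Finset.univ i, if_pos (Finset.mem_univ i)]
  have h8 : (n : ℝ) + 2 * c i = 0 := by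
    have h9 : Real.pi * ((n : ℝ) + 2 * c i) = 0 := by
      rw [← h5, h6, hn]
      ring
    rcases mul_eq_zero.mp h9 with h | h
    · exact absurd h Real.pi_ne_zero
    · exact h
  have h9 : n < 0 := by
    have : (n : ℝ) < 0 := by linarith [hc i]
    exact_mod_cast this
  have h10 : (n : ℝ) ≤ -1 := by
    have : n ≤ -1 := by omega
    exact_mod_cast this
  linarith

theorem BAR : Stmt_BAR := by
  intro V _ _ _ J k t hQ hL hM hF hWTD hEXP hLIN ι _ w e c he hne hc hsum hw hr hcard hx0 hx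
  have key := BAR_one J k t hQ hL hM hF hWTD hEXP hLIN ι w e c he hne hc hsum hw hr hcard hx0 hx
  have hne' : Nonempty ι := by
    by_contra h
    rw [not_nonempty_iff] at h
    simp at hsum
  obtain ⟨i0⟩ := hne'
  refine ⟨(key i0).1, fun i => ?_⟩
  have h1 : 1 < Fintype.card ι := by
    rw [(key i0).1]
    omega
  obtain ⟨j, hj⟩ := Fintype.exists_ne_of_one_lt_card h1 i
  exact (key j).2 i hj.symm

end MPa8bd83

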