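import Pool.Agent.Work.MP_a8bd83_qk.Interface6

set_option autoImplicit false

namespace MPa8bd83

theorem CB1_abs {n : ℕ} {m : (Fin n → ℤ) → ℕ} (h : WtSys n m) (w : Fin n → ℤ) :
    m (fun i => |w i|) = m w := by
  classical
  have key : ∀ s : Finset (Fin n), m (fun i => if i ∈ s then |w i| else w i) = m w := by
    intro s
    induction s using Finset.induction_on with
    | empty => simp
    | insert a s ha ih =>
      set f : Fin n → ℤ := fun i => if i ∈ s then |w i| else w i with hf
      have hfa : f a = w a := by rw [hf]; exact if_neg ha
      rcases le_or_gt 0 (w a) with h0 | h0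
      · have h1 : (fun i => if i ∈ insert a s then |w i| else w i) = f := by
          funext i
          by_cases hi : i = a
          · subst hi
            rw [if_pos (Finset.mem_insert_self i s), hfa, abs_of_nonneg h0]
          · rw [hf]
            by_cases his : i ∈ s
            · rw [if_pos (Finset.mem_insert_of_mem his)]
              exact (if_pos his).symm
            · rw [if_neg (fun h' => (Finset.mem_insert.1 h').elim hi his)]
              exact (if_neg his).symm
        rw [h1]
        exact ih
      · have h1 : (fun i => if i ∈ insert a s then |w i| else w i) =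
            Function.update f a (-(f a)) := by
          funext i
          by_cases hi : i = a
          · subst hi
            rw [if_pos (Finset.mem_insert_self i s), Function.update_self, hfa, abs_of_neg h0]
          · rw [Function.update_of_ne hi, hf]
            by_cases his : i ∈ s
            · rw [if_pos (Finset.mem_insert_of_mem his)]
              exact (if_pos his).symm
            · rw [if_neg (fun h' => (Finset.mem_insert.1 h').elim hi his)]
              exact (if_neg his).symm
        rw [h1, h.sgn]
        exact ih
  have h2 := key Finset.univ
  simpa using h2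

theorem CB1_nonneg {n : ℕ} {m : (Fin n → ℤ) → ℕ} (h : WtSys n m) :
    ∀ (N : ℕ) (v : Fin n → ℤ), (∀ i, 0 ≤ v i) → ∑ i, v i = (N : ℤ) → m v ≠ 0 →
      ¬ Even (∑ i, v i) := by
  intro N
  induction N using Nat.strong_induction_on with
  | _ N ih =>
    intro v hv hN hm hev
    by_cases h2 : ∃ i, 2 ≤ v i
    · obtain ⟨i, hi⟩ := h2
      have h3 := h.dec2 v i (by omega)
      have hs : ∑ l, (v - Pi.single i 2 : Fin n → ℤ) l = ∑ l, v l - 2 := by
        simp [Finset.sum_sub_distrib]
      have hN2 : (2 : ℤ) ≤ N := by
        rw [← hN]
        exact hi.trans (Finset.single_le_sum (fun l _ => hv l) (Finset.mem_univ i))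
      refine ih (N - 2) (by omega) (v - Pi.single i 2) ?_ ?_ (by omega) ?_
      · intro l
        by_cases hl : l = i
        · subst hl
          rw [Pi.sub_apply, Pi.single_eq_same]
          omega
        · rw [Pi.sub_apply, Pi.single_eq_of_ne hl, sub_zero]
          exact hv l
      · rw [hs, hN]
        have : ((N - 2 : ℕ) : ℤ) = (N : ℤ) - 2 := by
          rw [Nat.cast_sub (by omega)]
          rfl
        rw [this]
      · rw [hs]
        exact hev.sub (by decide)
    · push Not at h2
      have h01 : ∀ i, v i = 0 ∨ v i = 1 := by
        intro i
        have h4 := hv i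
        have h5 := h2 i
        omega
      by_cases h1 : ∃ i, v i = 1
      · obtain ⟨i, hi⟩ := h1
        by_cases hj : ∃ j, j ≠ i ∧ v j = 1
        · obtain ⟨j, hji, hj⟩ := hj
          have h3 := h.decp v i j hji.symm (by omega)
          have hs : ∑ l, (v - (Pi.single i 1 + Pi.single j 1) : Fin n → ℤ) l = ∑ l, v l - 2 := by
            simp only [Pi.sub_apply, Pi.add_apply, Finset.sum_sub_distrib,
              Finset.sum_add_distrib, Finset.sum_pi_single', Finset.mem_univ, if_true]
            ring
          have hN2 : (2 : ℤ) ≤ N := by
            rw [← hN]
            have h6 : ∑ l ∈ ({i, j} : Finset (Fin n)), v l ≤ ∑ l, v l :=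
              Finset.sum_le_sum_of_subset_of_nonneg (Finset.subset_univ _) fun l _ _ => hv l
            rw [Finset.sum_pair hji.symm, hi, hj] at h6
            linarith
          refine ih (N - 2) (by omega) (v - (Pi.single i 1 + Pi.single j 1)) ?_ ?_ (by omega) ?_
          · intro l
            rw [Pi.sub_apply, Pi.add_apply]
            by_cases hl : l = i
            · subst hl
              rw [Pi.single_eq_same, Pi.single_eq_of_ne hji.symm]
              omega
            · rw [Pi.single_eq_of_ne hl]
              by_cases hl' : l = j
              · subst hl'
                rw [Pi.single_eq_same]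
                omega
              · rw [Pi.single_eq_of_ne hl']
                have := hv l
                omega
          · rw [hs, hN]
            have : ((N - 2 : ℕ) : ℤ) = (N : ℤ) - 2 := by
              rw [Nat.cast_sub (by omega)]
              rfl
            rw [this]
          · rw [hs]
            exact hev.sub (by decide)
        · push Not at hj
          have hs : ∑ l, v l = 1 := by
            rw [Finset.sum_eq_single i]
            · exact hi
            · intro l _ hl
              exact (h01 l).resolve_right (hj l hl)
            · intro h'
              exact absurd (Finset.mem_univ i) h'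
          rw [hs] at hev
          exact absurd hev (by decide)
      · push Not at h1
        have hv0 : v = 0 := by
          funext i
          exact (h01 i).resolve_right (h1 i)
        exact hm (by rw [hv0]; exact h.zero)

theorem p_CB1 : Stmt_CB1 := by
  intro n m h w hm hev
  have h1 : m (fun i => |w i|) ≠ 0 := by
    rw [CB1_abs h w]
    exact hm
  have hnn : 0 ≤ ∑ i, |w i| := Finset.sum_nonneg fun i _ => abs_nonneg _
  refine CB1_nonneg h (∑ i, |w i|).toNat (fun i => |w i|) (fun i => abs_nonneg _)
    (Int.toNat_of_nonneg hnn).symm h1 ?_
  have h2 : Even (∑ i, |w i| - ∑ i, w i) := by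
    rw [← Finset.sum_sub_distrib]
    refine Finset.even_sum _ fun i _ => ?_
    rcases le_or_gt 0 (w i) with h0 | h0
    · rw [abs_of_nonneg h0, sub_self]
      exact Even.zero
    · rw [abs_of_neg h0]
      exact ⟨-(w i), by ring⟩
  have h3 := h2.add hev
  rwa [sub_add_cancel] at h3

end MPa8bd83
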