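import Pool.Agent.Work.MP_a8bd83_qk.Interface4

/-! # Block IN2 (helper71) -/

set_option autoImplicit false

namespace MPa8bd83

open Module

/-- The eigenspace of `g` at `ε`. -/
def IN2_Q {V : Type} [NormedAddCommGroup V] [InnerProductSpace ℂ V] (g : V →L[ℂ] V) (ε : ℂ) :
    Submodule ℂ V where
  carrier := {x | g x = ε • x}
  add_mem' := by
    rintro x y (hx : g x = ε • x) (hy : g y = ε • y)
    change g (x + y) = ε • (x + y)
    rw [map_add, hx, hy, smul_add]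
  zero_mem' := by
    change g 0 = ε • 0
    rw [map_zero, smul_zero]
  smul_mem' := by
    rintro c x (hx : g x = ε • x)
    change g (c • x) = ε • (c • x)
    rw [map_smul, hx, smul_comm]

theorem IN2_core (hRES : Stmt_RES) (hJXP : Stmt_JXP) (V : Type) [NormedAddCommGroup V]
    [InnerProductSpace ℂ V] [FiniteDimensional ℂ V]
    (J : V → V) (k L : Submodule ℝ (V →L[ℂ] V)) (hJ : IsQuatStr J) (hk : ∀ ξ ∈ k, IsSp J ξ)
    (hL : L ≤ k) (hfree : FreeOnZeros J k) (ξ₀ : V →L[ℂ] V) (hξ₀ : ξ₀ ∈ k)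
    (hgg : NormedSpace.exp ξ₀ * NormedSpace.exp ξ₀ = 1)
    (hg1 : NormedSpace.exp ξ₀ ≠ 1) (hg2 : NormedSpace.exp ξ₀ ≠ -1)
    (hcomm : ∀ ζ ∈ L, ζ * NormedSpace.exp ξ₀ = NormedSpace.exp ξ₀ * ζ)
    (hdec : ∀ ζ ∈ k, ∃ a ∈ L, ∃ b : V →L[ℂ] V, ζ = a + b ∧
      b * NormedSpace.exp ξ₀ = -(NormedSpace.exp ξ₀ * b)) (ε : ℂ) (hε : ε = 1 ∨ ε = -1)
    (hdim : 2 * finrank ℝ L < finrank ℂ (IN2_Q (NormedSpace.exp ξ₀) ε)) : False := by
  obtain ⟨hcJ, hadj⟩ := hJXP V J ξ₀ hJ (hk ξ₀ hξ₀)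
  have hinv : NormedSpace.exp (-ξ₀) = NormedSpace.exp ξ₀ := by
    have : CompleteSpace V := FiniteDimensional.complete ℂ V
    letI : NormedAlgebra ℚ (V →L[ℂ] V) := NormedAlgebra.restrictScalars ℚ ℂ (V →L[ℂ] V)
    have h1 : NormedSpace.exp (-ξ₀) * NormedSpace.exp ξ₀ = 1 := by
      rw [← NormedSpace.exp_add_of_commute (Commute.neg_left (Commute.refl ξ₀)), neg_add_cancel,
        NormedSpace.exp_zero]
    calc NormedSpace.exp (-ξ₀) = NormedSpace.exp (-ξ₀) * (NormedSpace.exp ξ₀ *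
        NormedSpace.exp ξ₀) := by rw [hgg, mul_one]
      _ = NormedSpace.exp ξ₀ := by rw [← mul_assoc, h1, one_mul]
  rw [hinv] at hadj
  have hfin := fun x hx0 hmz => hfree x hx0 hmz ξ₀ hξ₀
  generalize NormedSpace.exp ξ₀ = g at *
  have hεc : (starRingEnd ℂ) ε = ε := by
    rcases hε with h | h
    · rw [h, map_one]
    · rw [h, map_neg, map_one]
  have hε0 : ε ≠ 0 := by
    rcases hε with h | h
    · rw [h]
      exact one_ne_zero
    · rw [h]
      exact neg_ne_zero.2 one_ne_zero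
  have hQJ : ∀ x ∈ IN2_Q g ε, J x ∈ IN2_Q g ε := by
    intro x hx
    have hx' : g x = ε • x := hx
    change g (J x) = ε • J x
    rw [hcJ, hx', hJ.smul, hεc]
  obtain ⟨x, hxQ, hx0, hxL⟩ := hRES V J hJ (IN2_Q g ε) L hQJ (by
    intro ξ hξ
    refine ⟨hk ξ (hL hξ), fun x hx => ?_⟩
    have hx' : g x = ε • x := hx
    have h1 := congrArg (fun A : V →L[ℂ] V => A x) (hcomm ξ hξ)
    have h2 : ξ (g x) = g (ξ x) := h1
    change g (ξ x) = ε • ξ x
    rw [← h2, hx', map_smul]) hdim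
  have hx' : g x = ε • x := hxQ
  have horth : ∀ (y : V), g y = ε • y → ∀ b : V →L[ℂ] V, b * g = -(g * b) →
      inner ℂ y (b x) = 0 := by
    intro y hy b hb
    have h1 : b (g x) = -(g (b x)) := congrArg (fun A : V →L[ℂ] V => A x) hb
    rw [hx', map_smul] at h1
    have h2 : g (b x) = -(ε • b x) := by
      rw [h1, neg_neg]
    have h3 := hadj y (b x)
    rw [hy, h2, inner_smul_left, inner_neg_right, inner_smul_right, hεc] at h3
    have h4 : 2 * ε * inner ℂ y (b x) = 0 := by linear_combination h3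
    rcases mul_eq_zero.1 h4 with h5 | h5
    · exact absurd h5 (mul_ne_zero two_ne_zero hε0)
    · exact h5
  have hmz : MomentZero J k x := by
    intro ζ hζ
    obtain ⟨a, ha, b, hab, hb⟩ := hdec ζ hζ
    obtain ⟨h1, h2⟩ := hxL a ha
    have h3 := horth x hx' b hb
    have h4 := horth (J x) (hQJ x hxQ) b hb
    have h5 : ζ x = a x + b x := by
      rw [hab]
      rfl
    rw [h5, inner_add_right, inner_add_right, h1, h2, h3, h4, add_zero]
    exact ⟨rfl, rfl⟩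
  rcases hfin x hx0 hmz (by
    rw [hx']
    exact Submodule.smul_mem _ _ (Submodule.subset_span (Set.mem_insert x _))) with h | h
  · exact hg1 h
  · exact hg2 h

theorem p_IN2 (hRES : Stmt_RES) (hJXP : Stmt_JXP) : Stmt_IN2 := by
  intro V _ _ _ J k L hJ hk hL hfree ξ₀ hξ₀ hgg hg1 hg2 hcomm hdec
  by_contra hcon
  push Not at hcon
  have h1 := IN2_core hRES hJXP V J k L hJ hk hL hfree ξ₀ hξ₀ hgg hg1 hg2 hcomm hdec 1 (Or.inl rfl)
  have h2 := IN2_core hRES hJXP V J k L hJ hk hL hfree ξ₀ hξ₀ hgg hg1 hg2 hcomm hdec (-1)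
    (Or.inr rfl)
  have h3 : IN2_Q (NormedSpace.exp ξ₀) 1 ⊔ IN2_Q (NormedSpace.exp ξ₀) (-1) = ⊤ := by
    rw [eq_top_iff]
    intro x _
    rw [Submodule.mem_sup]
    have hggx : NormedSpace.exp ξ₀ (NormedSpace.exp ξ₀ x) = x :=
      congrArg (fun A : V →L[ℂ] V => A x) hgg
    refine ⟨(2 : ℂ)⁻¹ • (x + NormedSpace.exp ξ₀ x), ?_, (2 : ℂ)⁻¹ • (x - NormedSpace.exp ξ₀ x),
      ?_, ?_⟩
    · change NormedSpace.exp ξ₀ _ = (1 : ℂ) • _
      rw [map_smul, map_add, hggx, one_smul, add_comm]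
    · change NormedSpace.exp ξ₀ _ = (-1 : ℂ) • _
      rw [map_smul, map_sub, hggx, neg_one_smul, ← smul_neg, neg_sub]
    · rw [← smul_add, add_add_sub_cancel, ← two_smul ℂ x, smul_smul, inv_mul_cancel₀ two_ne_zero,
        one_smul]
  have h4 := Submodule.finrank_add_le_finrank_add_finrank (IN2_Q (NormedSpace.exp ξ₀) 1)
    (IN2_Q (NormedSpace.exp ξ₀) (-1))
  rw [h3, finrank_top] at h4
  by_cases h5 : 2 * finrank ℝ L < finrank ℂ (IN2_Q (NormedSpace.exp ξ₀) 1)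
  · exact h1 h5
  · exact h2 (by omega)

end MPa8bd83
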