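/-
MP_a8bd83_gt (LeBrun-Salamon), smooth quaternionic Kaehler quotients of HP^(N-1): PART 5.
The involution inequality for all groups, all representations of Spin(m) and Sp(n) (helper77).
Table qk2_blocks (part 5).

RULES.  One block = one file B_XXX.lean in this folder, `import Pool.Agent.Work.MP_a8bd83_qk.Interface5`,
`namespace MPa8bd83`, `theorem p_XXX (hA : Stmt_A) .. : Stmt_XXX` with exactly the blocks named after
`uses` as hypotheses, in that order.  Auxiliary lemmas get the prefix XXX_.  No straight double quotes.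
-/
import Pool.Agent.Work.MP_a8bd83_qk.B_IN2

set_option autoImplicit false

namespace MPa8bd83

open Module

/-! ## The involution inequality -/

/-- **ADK** (100).  `exp ξ ζ exp (-ξ) = exp (ad ξ) ζ`, a limit of elements of the closed (finite dimensional) subspace `k`.  In the Banach algebra `(V →L[ℂ] V) →L[ℝ] (V →L[ℂ] V)` the operators `l` = left multiplication by `ξ` and `r` = right multiplication by
`- ξ` commute, `exp (l + r) = exp l * exp r` (`NormedSpace.exp_add_of_commute`), `exp l a = exp ξ * a`, `exp r a = a * exp (-ξ)` (evaluate the series), and `exp (l + r) ζ = ∑ (l + r) ^ n ζ / n!` with all `(l + r) ^ n ζ ∈ k`. -/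
def Stmt_ADK : Prop :=
  ∀ (V : Type) [NormedAddCommGroup V] [InnerProductSpace ℂ V] [FiniteDimensional ℂ V]
    (k : Submodule ℝ (V →L[ℂ] V)) (ξ : V →L[ℂ] V), (∀ ζ ∈ k, ξ * ζ - ζ * ξ ∈ k) →
    ∀ ζ ∈ k, NormedSpace.exp ξ * ζ * NormedSpace.exp (-ξ) ∈ k

/-- The centraliser of `g` in `k`. -/
def Cz {V : Type} [NormedAddCommGroup V] [InnerProductSpace ℂ V]
    (k : Submodule ℝ (V →L[ℂ] V)) (g : V →L[ℂ] V) : Submodule ℝ (V →L[ℂ] V) where
  carrier := {ζ | ζ ∈ k ∧ ζ * g = g * ζ}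
  add_mem' := by
    rintro a b ⟨h1, h2⟩ ⟨h3, h4⟩
    exact ⟨k.add_mem h1 h3, by rw [add_mul, mul_add, h2, h4]⟩
  zero_mem' := ⟨k.zero_mem, by rw [zero_mul, mul_zero]⟩
  smul_mem' := by
    rintro c a ⟨h1, h2⟩
    exact ⟨k.smul_mem c h1, by rw [smul_mul_assoc, mul_smul_comm, h2]⟩

/-- **INC** (100), uses RES JXP ADK.  `IN2_core` and `p_IN2` (file B_IN2.lean, imported) with `L = Cz k g`, `g = exp ξ₀`: `ζ = (ζ + g ζ g) / 2 + (ζ - g ζ g) / 2`; `exp (-ξ₀) = g` because `g g = 1`, so `g ζ g ∈ k` by ADK.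
`IN2_Q g ε` and `Module.End.eigenspace (g : V →ₗ[ℂ] V) ε` have the same elements. -/
def Stmt_INC : Prop :=
  ∀ (V : Type) [NormedAddCommGroup V] [InnerProductSpace ℂ V] [FiniteDimensional ℂ V]
    (J : V → V) (k : Submodule ℝ (V →L[ℂ] V)), IsQuatStr J → IsLieSub J k → FreeOnZeros J k →
    ∀ g : V →L[ℂ] V, (∃ ξ ∈ k, g = NormedSpace.exp ξ) → g * g = 1 → g ≠ 1 → g ≠ -1 →
      finrank ℂ (Module.End.eigenspace (g : V →ₗ[ℂ] V) 1) ≤ 2 * finrank ℝ (Cz k g) ∧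
      finrank ℂ (Module.End.eigenspace (g : V →ₗ[ℂ] V) (-1)) ≤ 2 * finrank ℝ (Cz k g)

/-! ## Representations of matrix Lie algebras -/

/-- `ρ` is a representation of the real Lie algebra `g ≤ A` by skew-adjoint operators commuting
with `J`. -/
structure IsLRep {V : Type} [NormedAddCommGroup V] [InnerProductSpace ℂ V] (J : V → V)
    {A : Type} [Ring A] [Algebra ℝ A] (g : Submodule ℝ A) (ρ : g →ₗ[ℝ] (V →L[ℂ] V)) : Prop where
  lie : ∀ X Y Z : g, (Z : A) = X * Y - Y * X → ρ Z = ρ X * ρ Y - ρ Y * ρ X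
  sp : ∀ X : g, IsSp J (ρ X)

/-- The commutation relations of the quaternion units. -/
structure QTrip {A : Type} [Ring A] [Algebra ℝ A] (x y z : A) : Prop where
  xy : x * y - y * x = (2 : ℝ) • z
  yz : y * z - z * y = (2 : ℝ) • x
  zx : z * x - x * z = (2 : ℝ) • y

/-- **SE2** (60), uses SEC.  `B = [A, X]`, `[A, B] = - X`.  `Y = X - i B`, `Z = X + i B`: `[A, Y] = B + i X = i Y`, `[A, Z] = B - i X = - i Z`, `X = (Y + Z) / 2`; SEC with `π A`, `μ = ± i π`. -/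
def Stmt_SE2 : Prop :=
  ∀ (V : Type) [NormedAddCommGroup V] [InnerProductSpace ℂ V] [FiniteDimensional ℂ V]
    (A X : V →L[ℂ] V), A * (A * X - X * A) - (A * X - X * A) * A = -X →
    NormedSpace.exp (Real.pi • A) * X = -(X * NormedSpace.exp (Real.pi • A))

/-- **SE3** (80), uses SEC.  `B = [A, X]`, `C = [A, B]`, `[A, C] = - 4 B`.  `X + C / 4` commutes with `A`; `Y = C - 2 i B`: `[A, Y] = - 4 B - 2 i C = - 2 i Y`; `Z = C + 2 i B`: `[A, Z] = - 4 B + 2 i C = 2 i Z`; `X = (X + C / 4) - (Y + Z) / 8`; SEC with `π A`, `μ = 0, ∓ 2 π i`. -/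
def Stmt_SE3 : Prop :=
  ∀ (V : Type) [NormedAddCommGroup V] [InnerProductSpace ℂ V] [FiniteDimensional ℂ V]
    (A X B C : V →L[ℂ] V), A * X - X * A = B → A * B - B * A = C → A * C - C * A = -((4 : ℂ) • B) →
    NormedSpace.exp (Real.pi • A) * X = X * NormedSpace.exp (Real.pi • A)

/-- **QUT** (50), uses INT.  `E = (D₂ - i D₃) / 2`, `F = - (D₂ + i D₃) / 2`, `D = D₁`: `[E, F] = - (1/4) (2 i [D₂, D₃]) = - i D₁`, `[D₁, E] = (2 D₃ + 2 i D₂) / 2 = 2 i E`, `[D₁, F] = - (2 D₃ - 2 i D₂) / 2 = - 2 i F`. -/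
def Stmt_QUT : Prop :=
  ∀ (V : Type) [NormedAddCommGroup V] [InnerProductSpace ℂ V] [FiniteDimensional ℂ V]
    (J : V → V) (D₁ D₂ D₃ : V →L[ℂ] V), IsQuatStr J → IsSp J D₁ →
    QTrip D₁ D₂ D₃ → NormedSpace.exp ((2 * Real.pi) • D₁) = 1

/-- **IV4** (250), uses RES JXP SE2 SE3 QUT.  The criterion for representations.  `G = exp ξ₀`, `ξ₀ = π ρ(D) ∈ k = range ρ`.  (a) `G G = exp (2 π ρ D) = ∏ exp (2 π ρ (D₁ i)) = 1` (QUT; the `ρ (D₁ i)` commute; `NormedSpace.exp_sum_of_commute` or induction).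
(b) `X ∈ L` commutes with `D²`: `B = [D, X]`, `C = [D, B] = D² X - 2 D X D + X D²`, `[D, C] = D³ X - 3 D² X D + 3 D X D² - X D³ = - D X + 3 X D - 3 D X + X D = - 4 B` (`D³ = - D`, `D² X D = X D³`, `D X D² = D³ X`), all in `g`; apply `ρ` and SE3: `ρ X` commutes with `G`.
(c) `Z` with `D Z D = 0`, `D² Z + Z D² = - Z`: `[D, [D, Z]] = D² Z - 2 D Z D + Z D² = - Z`; SE2: `ρ Z` anticommutes with `G`.  So `G ≠ ± 1` (`ρ Z ≠ 0`).  (d) `IN2_core` and `p_IN2` of B_IN2.lean with `L' = ρ(L)` (`Submodule.map` of the part of `L` in `g`), `finrank L' ≤ finrank L`. -/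
def Stmt_IV4 : Prop :=
  ∀ (V : Type) [NormedAddCommGroup V] [InnerProductSpace ℂ V] [FiniteDimensional ℂ V]
    (J : V → V) (A : Type) [Ring A] [Algebra ℝ A] [FiniteDimensional ℝ A] (g L : Submodule ℝ A)
    (ρ : g →ₗ[ℝ] (V →L[ℂ] V)) (ι : Type) [Fintype ι] (D₁ D₂ D₃ : ι → g) (D : g),
    IsQuatStr J → (∀ X ∈ g, ∀ Y ∈ g, X * Y - Y * X ∈ g) → IsLRep J g ρ →
    FreeOnZeros J (LinearMap.range ρ) →
    (∀ i, QTrip (D₁ i : A) (D₂ i : A) (D₃ i : A)) →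
    (∀ i j, (D₁ i : A) * D₁ j = D₁ j * D₁ i) → D = ∑ i, D₁ i → (D : A) * D * D = -D →
    L ≤ g → (∀ X ∈ L, X * ((D : A) * D) = (D : A) * D * X) →
    (∀ X ∈ g, ∃ Y ∈ L, ∃ Z ∈ g, X = Y + Z ∧ (D : A) * Z * D = 0 ∧
      (D : A) * D * Z + Z * ((D : A) * D) = -Z) →
    (∃ Z : g, ρ Z ≠ 0 ∧ (D : A) * Z * D = 0 ∧ (D : A) * D * Z + Z * ((D : A) * D) = -(Z : A)) →
    (∀ ε : ℂ, (ε = 1 ∨ ε = -1) →
      finrank ℂ (IN2_Q (NormedSpace.exp (Real.pi • ρ D)) ε) ≤ 2 * finrank ℝ L) ∧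
    finrank ℂ V ≤ 4 * finrank ℝ L

/-- **CNP** (80).  Pairs `j < k` in the same block: `C(|I|, 2) + C(n - |I|, 2)` (split into the two blocks, `Finset.card_powersetCard` or `Sym2`; or induction on `n`; or twice the number of pairs is `|I| (|I| - 1) + ..`). -/
def Stmt_CNP : Prop :=
  ∀ (n : ℕ) (I : Finset (Fin n)),
    (Finset.univ.filter (fun p : Fin n × Fin n => p.1 < p.2 ∧ (p.1 ∈ I ↔ p.2 ∈ I))).card
      = I.card.choose 2 + (n - I.card).choose 2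

/-! ## Spin(m) -/

/-- The Lie algebra `so(m)`: skew-symmetric real matrices. -/
def so (m : ℕ) : Submodule ℝ (Matrix (Fin m) (Fin m) ℝ) where
  carrier := {X | X.transpose = -X}
  add_mem' := by
    intro X Y h1 h2
    change (X + Y).transpose = -(X + Y)
    rw [Matrix.transpose_add, h1, h2, neg_add]
  zero_mem' := by simp
  smul_mem' := by
    intro c X h1
    change (c • X).transpose = -(c • X)
    rw [Matrix.transpose_smul, h1, smul_neg]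

/-- The block diagonal part of `so(m)`. -/
def soE (m : ℕ) (I : Finset (Fin m)) : Submodule ℝ (Matrix (Fin m) (Fin m) ℝ) where
  carrier := {X | X ∈ so m ∧ ∀ j k : Fin m, ¬ (j ∈ I ↔ k ∈ I) → X j k = 0}
  add_mem' := by
    rintro X Y ⟨h1, h2⟩ ⟨h3, h4⟩
    refine ⟨(so m).add_mem h1 h3, fun j k h => ?_⟩
    rw [Matrix.add_apply, h2 j k h, h4 j k h, add_zero]
  zero_mem' := ⟨(so m).zero_mem, fun _ _ _ => rfl⟩
  smul_mem' := by
    rintro c X ⟨h1, h2⟩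
    refine ⟨(so m).smul_mem c h1, fun j k h => ?_⟩
    rw [Matrix.smul_apply, h2 j k h, smul_zero]

/-- **SOD** (80), uses CNP.  `X ↦ (X j k)` over the pairs `j < k` of the same block is injective on `soE`. -/
def Stmt_SOD : Prop :=
  ∀ (m : ℕ) (I : Finset (Fin m)),
    finrank ℝ (soE m I) ≤ I.card.choose 2 + (m - I.card).choose 2

/-- **SOS** (80).  `R_jk = E_jk - E_kj`.  `[R_jk, R_kl] = R_jl` for different `j, k, l`, and `[R_jk, R_kl] = 0` gives nothing else: if `ρ R_pq = 0` for one pair then `ρ R_pl = 0` (`l ≠ p`), `ρ R_jl = 0` for all `j ≠ l`, and these span `so(m)`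
(`X = ∑_{j<k} X j k R_jk`), so `ρ = 0`. -/
def Stmt_SOS : Prop :=
  ∀ (V : Type) [NormedAddCommGroup V] [InnerProductSpace ℂ V] [FiniteDimensional ℂ V]
    (J : V → V) (m : ℕ) (ρ : so m →ₗ[ℝ] (V →L[ℂ] V)), IsLRep J (so m) ρ → ρ ≠ 0 →
    ∀ (p q : Fin m) (X : so m), p ≠ q →
      (X : Matrix (Fin m) (Fin m) ℝ) = Matrix.single p q 1 - Matrix.single q p 1 → ρ X ≠ 0

/-- **SOQ** (150).  Quaternion units on the blocks of four coordinates.  `E_l` = the `m × 4` matrix with `E_l j p = 1` if `j = 4 l + p`, else `0` (`l < b`): `E_lᵀ E_l = 1`, `E_lᵀ E_l' = 0` (`l ≠ l'`), `∑ E_l E_lᵀ = P` (diagonal, `1` for `j < 4 b`).  `L₁, L₂, L₃` = the `4 × 4` matrices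
of the left multiplication by `i, j, k` on `ℍ = ℝ^4`: `L₁ = !![0,-1,0,0; 1,0,0,0; 0,0,0,-1; 0,0,1,0]`, `L₂ = !![0,0,-1,0; 0,0,0,1; 1,0,0,0; 0,-1,0,0]`, `L₃ = L₁ L₂ = !![0,0,0,-1; 0,0,-1,0; 0,1,0,0; 1,0,0,0]`, skew-symmetric, `L_i² = -1`, `L₂ L₁ = - L₃` etc.  `D_i l = E_l L_i E_lᵀ`;
`D = ∑_l D₁ l`, `D D = ∑ E_l L₁² E_lᵀ = - P`, `D D D = ∑ E_l L₁³ E_lᵀ = - D`. -/
def Stmt_SOQ : Prop :=
  ∀ (m b : ℕ), 4 * b ≤ m → ∃ (D₁ D₂ D₃ : Fin b → so m) (D : so m),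
    (∀ i, QTrip (D₁ i : Matrix (Fin m) (Fin m) ℝ) (D₂ i : Matrix (Fin m) (Fin m) ℝ)
      (D₃ i : Matrix (Fin m) (Fin m) ℝ)) ∧
    (∀ i j, (D₁ i : Matrix (Fin m) (Fin m) ℝ) * (D₁ j : Matrix (Fin m) (Fin m) ℝ)
      = (D₁ j : Matrix (Fin m) (Fin m) ℝ) * (D₁ i : Matrix (Fin m) (Fin m) ℝ)) ∧
    D = ∑ i, D₁ i ∧
    (D : Matrix (Fin m) (Fin m) ℝ) * (D : Matrix (Fin m) (Fin m) ℝ)
      = -Matrix.diagonal (fun j : Fin m => if (j : ℕ) < 4 * b then (1 : ℝ) else 0) ∧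
    (D : Matrix (Fin m) (Fin m) ℝ) * (D : Matrix (Fin m) (Fin m) ℝ) *
      (D : Matrix (Fin m) (Fin m) ℝ) = -(D : Matrix (Fin m) (Fin m) ℝ)

/-- **SOB** (150), uses IV4 SOD SOS SOQ.  IV4 with `A` = matrices, `g = so m`, `L = soE m I`, `I = {j | j < 4 b}`, `D² = - P`, `D³ = - D`, so `D = P D = D P`.
`X = (P X P + Q X Q) + (P X Q + Q X P)`, `Q = 1 - P`, and `D (P X Q) D = D X Q D = 0`.  `Z = R_{0, m-1}` for the last hypothesis.  `C(4b, 2) + C(m - 4b, 2)`. -/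
def Stmt_SOB : Prop :=
  ∀ (V : Type) [NormedAddCommGroup V] [InnerProductSpace ℂ V] [FiniteDimensional ℂ V]
    (J : V → V) (m b : ℕ) (ρ : so m →ₗ[ℝ] (V →L[ℂ] V)), IsQuatStr J → IsLRep J (so m) ρ → ρ ≠ 0 →
    FreeOnZeros J (LinearMap.range ρ) → 1 ≤ b → 4 * b < m →
    finrank ℂ V ≤ 4 * ((4 * b).choose 2 + (m - 4 * b).choose 2)

/-- **SPI** (100), uses SOB.  `2 (C(a,2) + C(m-a,2)) = a ^ 2 + (m - a) ^ 2 - m = m ^ 2 / 2 - m + 2 (a - m / 2) ^ 2`, `a = 4 b`, compared with `m (m - 1) / 2`: choose `b` = `m / 8` rounded to the nearest integer, `|a - m / 2| ≤ 2`, so `2 (C(a,2) + C(m-a,2)) ≤ m (m - 1) / 2 - m / 2 + 8`, which is enough for `m ≥ 16`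
(for `m = 8 q + s`: `b = q` if `s ≤ 4`, `b = q + 1` if `s ≥ 5`; `b ≥ 1` because `m ≥ 7`); `7 ≤ m ≤ 15`: `b = 1` for `m ≤ 12` and `b = 2` for `m = 13, 14, 15`, by computation: `m = 12` gives `68`, the others at most `m (m - 1) / 2`. -/
def Stmt_SPI : Prop :=
  ∀ (V : Type) [NormedAddCommGroup V] [InnerProductSpace ℂ V] [FiniteDimensional ℂ V]
    (J : V → V) (m N : ℕ) (ρ : so m →ₗ[ℝ] (V →L[ℂ] V)), IsQuatStr J → 7 ≤ m →
    finrank ℂ V = 2 * N → IsLRep J (so m) ρ → ρ ≠ 0 → FreeOnZeros J (LinearMap.range ρ) →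
    N ≤ m.choose 2 ∨ (m = 12 ∧ N ≤ 68)

end MPa8bd83
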