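/-
MP_a8bd83_gt (LeBrun-Salamon), smooth quaternionic Kaehler quotients of HP^(N-1): PART 6.
All representations of Sp(n), n ≥ 2 (helper77).  Table qk2_blocks (part 6).

RULES.  One block = one file B_XXX.lean in this folder, `import Pool.Agent.Work.MP_a8bd83_qk.Interface6`,
`namespace MPa8bd83`, `theorem p_XXX (hA : Stmt_A) .. : Stmt_XXX` with exactly the blocks named after
`uses` as hypotheses, in that order.  Auxiliary lemmas get the prefix XXX_.  No straight double quotes.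
-/
import Pool.Agent.Work.MP_a8bd83_qk.Interface5

set_option autoImplicit false

namespace MPa8bd83

open Module

/-! ## The Lie algebra sp(n) -/

/-- Quaternionic matrices. -/
abbrev HM (n : ℕ) : Type := Matrix (Fin n) (Fin n) (Quaternion ℝ)

/-- The Lie algebra `sp(n)`: skew-Hermitian quaternionic matrices. -/
def spn (n : ℕ) : Submodule ℝ (HM n) where
  carrier := {X | X.conjTranspose = -X}
  add_mem' := by
    intro X Y h1 h2
    change (X + Y).conjTranspose = -(X + Y)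
    rw [Matrix.conjTranspose_add, h1, h2, neg_add]
  zero_mem' := by simp
  smul_mem' := by
    intro c X h1
    change (c • X).conjTranspose = -(c • X)
    rw [← smul_neg, ← (show X.conjTranspose = -X from h1)]
    refine Matrix.ext fun j k => ?_
    rw [Matrix.conjTranspose_apply, Matrix.smul_apply, Matrix.smul_apply,
      Matrix.conjTranspose_apply]
    exact Quaternion.star_smul c (X k j)

/-- The block diagonal part of `sp(n)`. -/
def spE (n : ℕ) (I : Finset (Fin n)) : Submodule ℝ (HM n) where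
  carrier := {X | X ∈ spn n ∧ ∀ j k : Fin n, ¬ (j ∈ I ↔ k ∈ I) → X j k = 0}
  add_mem' := by
    rintro X Y ⟨h1, h2⟩ ⟨h3, h4⟩
    refine ⟨(spn n).add_mem h1 h3, fun j k h => ?_⟩
    rw [Matrix.add_apply, h2 j k h, h4 j k h, add_zero]
  zero_mem' := ⟨(spn n).zero_mem, fun _ _ _ => rfl⟩
  smul_mem' := by
    rintro c X ⟨h1, h2⟩
    refine ⟨(spn n).smul_mem c h1, fun j k h => ?_⟩
    rw [Matrix.smul_apply, h2 j k h, smul_zero]

/-- The quaternion `i`. -/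
def qi : Quaternion ℝ := ⟨0, 1, 0, 0⟩
/-- The quaternion `j`. -/
def qj : Quaternion ℝ := ⟨0, 0, 1, 0⟩
/-- The quaternion `k`. -/
def qk : Quaternion ℝ := ⟨0, 0, 0, 1⟩

/-- The element `i E_ll`. -/
noncomputable def hq (n : ℕ) (l : Fin n) : spn n :=
  ⟨Matrix.single l l qi, by
    change (Matrix.single l l qi).conjTranspose = -Matrix.single l l qi
    rw [Matrix.conjTranspose_single]
    have : star qi = -qi := by
      apply Quaternion.ext <;> simp [qi]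
    rw [this]
    refine Matrix.ext fun a b => ?_
    rw [Matrix.neg_apply, Matrix.single_apply, Matrix.single_apply]
    split_ifs
    · rfl
    · rw [neg_zero]⟩

/-- **SPD** (100), uses CNP.  `X ↦` (the three imaginary parts of `X j j`, all `j`; the four real coordinates of `X j k` for the pairs `j < k` in the same block) is injective on `spE n I`. -/
def Stmt_SPD : Prop :=
  ∀ (n : ℕ) (I : Finset (Fin n)),
    finrank ℝ (spE n I) ≤ 3 * n + 4 * (I.card.choose 2 + (n - I.card).choose 2)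

/-- **SPS** (150).  `X₁ = E_pq - E_qp`.  Suppose `ρ X₁ = 0`.  `[i E_pp, X₁] = i (E_pq + E_qp) = X₂`, same with `j, k`: `X₃, X₄`; `[X₂, X₃] = 2 k (E_pp + E_qq)` etc., `[X₁, X₂] = 2 i (E_pp - E_qq)` etc.: `ρ` is zero on all `c E_pp`, `c E_qq` (`c` imaginary) and `X₁, .., X₄`.
`[E_pq - E_qp, E_qr - E_rq] = E_pr - E_rp`: `ρ (E_pr - E_rp) = 0` for all `r ≠ p`, then for all pairs; these and their companions span `sp(n)`, so `ρ = 0`.  Second part: `[i E_pp, i (E_pq + E_qp)] = - (E_pq - E_qp)`, so `ρ (hq n p) = 0` would give `ρ X₁ = 0`. -/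
def Stmt_SPS : Prop :=
  ∀ (V : Type) [NormedAddCommGroup V] [InnerProductSpace ℂ V] [FiniteDimensional ℂ V]
    (J : V → V) (n : ℕ) (ρ : spn n →ₗ[ℝ] (V →L[ℂ] V)), IsLRep J (spn n) ρ → ρ ≠ 0 →
    ∀ (p q : Fin n), p ≠ q →
      (∀ X : spn n, (X : HM n) = Matrix.single p q 1 - Matrix.single q p 1 → ρ X ≠ 0) ∧
      ρ (hq n p) ≠ 0

/-- **SPB** (150), uses IV4 SPD SPS.  IV4 with `A = HM n`, `g = spn n`, `L = spE n I`, `ι = I`, `D₁ l = i E_ll`, `D₂ l = j E_ll`, `D₃ l = k E_ll`, `D = ∑ D₁`, `D² = - P` (`P` = the diagonal projection to `I`), `D = P D = D P`; `X = (P X P + Q X Q) + (P X Q + Q X P)`, `Q = 1 - P`;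
`Z = E_pq - E_qp`, `p ∈ I`, `q ∉ I`, for the last hypothesis. -/
def Stmt_SPB : Prop :=
  ∀ (V : Type) [NormedAddCommGroup V] [InnerProductSpace ℂ V] [FiniteDimensional ℂ V]
    (J : V → V) (n : ℕ) (ρ : spn n →ₗ[ℝ] (V →L[ℂ] V)), IsQuatStr J → IsLRep J (spn n) ρ → ρ ≠ 0 →
    FreeOnZeros J (LinearMap.range ρ) → ∀ I : Finset (Fin n), I.Nonempty → I ≠ Finset.univ →
    (∀ ε : ℂ, (ε = 1 ∨ ε = -1) →
      finrank ℂ (IN2_Q (NormedSpace.exp (Real.pi • ρ (∑ l ∈ I, hq n l))) ε) ≤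
        2 * (3 * n + 4 * (I.card.choose 2 + (n - I.card).choose 2))) ∧
    finrank ℂ V ≤ 4 * (3 * n + 4 * (I.card.choose 2 + (n - I.card).choose 2))

/-! ## Weights -/

/-- The weight space of `w` for the operators `H l`. -/
def Vw {V : Type} [NormedAddCommGroup V] [InnerProductSpace ℂ V] {n : ℕ}
    (H : Fin n → (V →L[ℂ] V)) (w : Fin n → ℤ) : Submodule ℂ V where
  carrier := {v | ∀ l, H l v = ((w l : ℂ) * Complex.I) • v}
  add_mem' := by
    intro a b ha hb l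
    rw [map_add, ha l, hb l, smul_add]
  zero_mem' := by
    intro l
    simp
  smul_mem' := by
    intro c x hx l
    rw [map_smul, hx l, smul_comm]

/-- Commuting elements of `sp(V)` with `exp (2 π H) = 1`. -/
structure TorSys {V : Type} [NormedAddCommGroup V] [InnerProductSpace ℂ V] (J : V → V) {n : ℕ}
    (H : Fin n → (V →L[ℂ] V)) : Prop where
  sp : ∀ l, IsSp J (H l)
  comm : ∀ l l', H l * H l' = H l' * H l
  per : ∀ l, NormedSpace.exp ((2 * Real.pi) • H l) = 1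

/-- A root `α` with coroot `∑ c_l H_l` and the two real root operators `P`, `Q`. -/
structure RtTrip {V : Type} [NormedAddCommGroup V] [InnerProductSpace ℂ V] (J : V → V) {n : ℕ}
    (H : Fin n → (V →L[ℂ] V)) (α c : Fin n → ℤ) (P Q : V →L[ℂ] V) : Prop where
  spP : IsSp J P
  spQ : IsSp J Q
  hP : ∀ l, H l * P - P * H l = (α l : ℝ) • Q
  hQ : ∀ l, H l * Q - Q * H l = -((α l : ℝ) • P)
  pq : P * Q - Q * P = (2 : ℝ) • ∑ l, (c l : ℝ) • H l
  pair : ∑ l, α l * c l = 2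

/-- **WT1** (200), uses EV1.  Joint eigenspaces.  The `H l` are skew-adjoint and commute: `- i H l` are commuting symmetric operators, so the joint eigenspaces span `V` and are independent (`LinearMap.IsSymmetric.iSup_iInf_eq_top_of_commute` and the independence statement next to it, or induction on `n`).
The eigenvalues are `i a`, `a` real, and `exp (2 π H l) v = e^{2 π i a} v = v` (EV1 (4)), so `a` is an integer.  (1) finitely many nonzero ones; `finrank V` is the sum.  (2) independent subspaces of `Q`. -/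
def Stmt_WT1 : Prop :=
  ∀ (V : Type) [NormedAddCommGroup V] [InnerProductSpace ℂ V] [FiniteDimensional ℂ V]
    (J : V → V) (n : ℕ) (H : Fin n → (V →L[ℂ] V)), IsQuatStr J → TorSys J H →
    (∃ S : Finset (Fin n → ℤ), (∀ w, Vw H w ≠ ⊥ → w ∈ S) ∧
      ∑ w ∈ S, finrank ℂ (Vw H w) = finrank ℂ V) ∧
    ∀ (Q : Submodule ℂ V) (T : Finset (Fin n → ℤ)), (∀ w ∈ T, Vw H w ≤ Q) →
      ∑ w ∈ T, finrank ℂ (Vw H w) ≤ finrank ℂ Q

/-- **WT2** (100).  `F = P + i Q`, `E = P - i Q`: `[H l, F] = - i α_l F`, so `F` maps `V_w` to `V_(w - α)`.  For `v ∈ V_w`: `‖F v‖² - ‖E v‖² = - ⟨v, [E, F] v⟩`, `[E, F] = 2 i [P, Q] = 4 i ∑ c_l H_l`, so it is `4 (∑ c_l w_l) ‖v‖²`: `F` is injective on `V_w`. -/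
def Stmt_WT2 : Prop :=
  ∀ (V : Type) [NormedAddCommGroup V] [InnerProductSpace ℂ V] [FiniteDimensional ℂ V]
    (J : V → V) (n : ℕ) (H : Fin n → (V →L[ℂ] V)) (α c w : Fin n → ℤ) (P Q : V →L[ℂ] V),
    IsQuatStr J → RtTrip J H α c P Q → 1 ≤ ∑ l, c l * w l →
    finrank ℂ (Vw H w) ≤ finrank ℂ (Vw H (w - α))

/-- **WT3** (100), uses SE2.  The reflection.  `D = ∑ c_l H_l`: `[D, P] = 2 Q`, `[D, Q] = - 2 P`, `[P, Q] = 2 D`.  `A = P / 2`: `[A, [A, D]] = - D`, so `g = exp (π A)` anticommutes with `D` (SE2); `X_l = H_l - (α_l / 2) D` commutes with `P`, so with `g`.  Hence `g (H_l - α_l D) = H_l g` and `g` maps `V_w` injectively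
(`exp` is invertible) to `V_(w - (∑ c_l w_l) α)`. -/
def Stmt_WT3 : Prop :=
  ∀ (V : Type) [NormedAddCommGroup V] [InnerProductSpace ℂ V] [FiniteDimensional ℂ V]
    (J : V → V) (n : ℕ) (H : Fin n → (V →L[ℂ] V)) (α c w : Fin n → ℤ) (P Q : V →L[ℂ] V),
    IsQuatStr J → RtTrip J H α c P Q →
    finrank ℂ (Vw H w) ≤ finrank ℂ (Vw H (fun l => w l - (∑ l', c l' * w l') * α l))

/-- **WT5** (80), uses EV1.  `η = ∑_{l ∈ I} H l` is in `sp(V)` and `η v = i (∑_{l ∈ I} w_l) v`; EV1 (4) with `s = π`: `exp (π η) v = (-1) ^ (∑ w_l) v`. -/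
def Stmt_WT5 : Prop :=
  ∀ (V : Type) [NormedAddCommGroup V] [InnerProductSpace ℂ V] [FiniteDimensional ℂ V]
    (J : V → V) (n : ℕ) (H : Fin n → (V →L[ℂ] V)) (I : Finset (Fin n)) (w : Fin n → ℤ),
    IsQuatStr J → TorSys J H →
    (Even (∑ l ∈ I, w l) → Vw H w ≤ IN2_Q (NormedSpace.exp (Real.pi • ∑ l ∈ I, H l)) 1) ∧
    (¬ Even (∑ l ∈ I, w l) → Vw H w ≤ IN2_Q (NormedSpace.exp (Real.pi • ∑ l ∈ I, H l)) (-1))

/-- A root of `sp(n)` with the root matrices `P`, `Q`. -/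
structure SpTrip (n : ℕ) (α c : Fin n → ℤ) (P Q : spn n) : Prop where
  hP : ∀ l, (hq n l : HM n) * (P : HM n) - (P : HM n) * (hq n l : HM n) = (α l : ℝ) • (Q : HM n)
  hQ : ∀ l, (hq n l : HM n) * (Q : HM n) - (Q : HM n) * (hq n l : HM n) = -((α l : ℝ) • (P : HM n))
  pq : (P : HM n) * (Q : HM n) - (Q : HM n) * (P : HM n) = (2 : ℝ) • ∑ l, (c l : ℝ) • (hq n l : HM n)
  pair : ∑ l, α l * c l = 2

/-- **SPT** (150).  Direct computation with `single`: `(qi qj = qk` etc.).  `2 e_i`: `P = j E_ii`, `Q = k E_ii`.  `e_i + e_j`: `P = j (E_ij + E_ji)`, `Q = k (E_ij + E_ji)` (the quaternions `j`, `k`).  `e_i - e_j`: `P = E_ij - E_ji`, `Q = i (E_ij + E_ji)`. -/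
def Stmt_SPT : Prop :=
  ∀ n : ℕ,
    (∀ (i : Fin n) (P Q : spn n), (P : HM n) = Matrix.single i i qj →
      (Q : HM n) = Matrix.single i i qk → SpTrip n (Pi.single i 2) (Pi.single i 1) P Q) ∧
    (∀ i j : Fin n, i ≠ j → ∀ P Q : spn n,
      (P : HM n) = Matrix.single i j qj + Matrix.single j i qj →
      (Q : HM n) = Matrix.single i j qk + Matrix.single j i qk →
      SpTrip n (Pi.single i 1 + Pi.single j 1) (Pi.single i 1 + Pi.single j 1) P Q) ∧
    (∀ i j : Fin n, i ≠ j → ∀ P Q : spn n,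
      (P : HM n) = Matrix.single i j 1 - Matrix.single j i 1 →
      (Q : HM n) = Matrix.single i j qi + Matrix.single j i qi →
      SpTrip n (Pi.single i 1 - Pi.single j 1) (Pi.single i 1 - Pi.single j 1) P Q)

/-- **SPG** (120), uses SPT.  The matrices `P`, `Q` of SPT (they are in `spn n`) and the `hq n l` they span `sp(n)`: `X = ∑_i (x_i i + y_i j + z_i k) E_ii + ∑_{i<j} (c_ij E_ij - conj c_ij E_ji)`, and `c E_ij - conj c E_ji` with `c = a + b i + ..` is `a (E_ij - E_ji) + b i (E_ij + E_ji) + ..`. -/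
def Stmt_SPG : Prop :=
  ∀ (n : ℕ) (U : Submodule ℝ (spn n)), (∀ l, hq n l ∈ U) →
    (∀ (α c : Fin n → ℤ) (P Q : spn n), SpTrip n α c P Q → P ∈ U ∧ Q ∈ U) → U = ⊤

/-- **WT4** (150), uses EV1 SPS SPG.  Zero is not a weight.  Let `0 ≠ x ∈ V_0`: `H_l x = 0 = H_l (J x)`, `H_l = ρ (hq n l)`.  The `X ∈ sp(n)` with `⟨x, ρ X x⟩ = 0 = ⟨J x, ρ X x⟩` form a subspace which contains `hq n l`, and `Q` for an SpTrip: choose `l` with `α_l ≠ 0` (`pair`), `α_l ρ Q = [H_l, ρ P]`,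
`⟨x, H_l ρ(P) x⟩ = - ⟨H_l x, ρ(P) x⟩ = 0`; same for `P`.  SPG: `x` is a zero.  `exp (s H_l) x = x`, so `exp (s H_l) = ± 1` for all real `s`, and by EV1 (5) `s a ∈ π ℤ` for all `s` and all eigenvalues `i a` of `H_l`: `a = 0`, `H_l = 0` (EV1 (1)), a contradiction to SPS. -/
def Stmt_WT4 : Prop :=
  ∀ (V : Type) [NormedAddCommGroup V] [InnerProductSpace ℂ V] [FiniteDimensional ℂ V]
    (J : V → V) (n : ℕ) (ρ : spn n →ₗ[ℝ] (V →L[ℂ] V)), IsQuatStr J → IsLRep J (spn n) ρ → ρ ≠ 0 →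
    2 ≤ n → FreeOnZeros J (LinearMap.range ρ) → Vw (fun l => ρ (hq n l)) 0 = ⊥

/-! ## Combinatorics of the weights -/

/-- The multiplicities of the weights of a representation of `Sp(n)` without the weight zero. -/
structure WtSys (n : ℕ) (m : (Fin n → ℤ) → ℕ) : Prop where
  zero : m 0 = 0
  sgn : ∀ w i, m (Function.update w i (-(w i))) = m w
  perm : ∀ (w : Fin n → ℤ) (i j : Fin n), m (w ∘ Equiv.swap i j) = m w
  dec2 : ∀ (w : Fin n → ℤ) (i : Fin n), 1 ≤ w i → m w ≤ m (w - Pi.single i 2)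
  decp : ∀ (w : Fin n → ℤ) (i j : Fin n), i ≠ j → 1 ≤ w i + w j →
    m w ≤ m (w - (Pi.single i 1 + Pi.single j 1))
  decm : ∀ (w : Fin n → ℤ) (i j : Fin n), i ≠ j → 1 ≤ w i - w j →
    m w ≤ m (w - (Pi.single i 1 - Pi.single j 1))

/-- The bounds from the involutions. -/
structure WtBd (n : ℕ) (m : (Fin n → ℤ) → ℕ) (S : Finset (Fin n → ℤ)) : Prop where
  supp : ∀ w, m w ≠ 0 → w ∈ S
  even : ∀ I : Finset (Fin n), I.Nonempty → I ≠ Finset.univ →
    ∑ w ∈ S with Even (∑ l ∈ I, w l), m w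
      ≤ 2 * (3 * n + 4 * (I.card.choose 2 + (n - I.card).choose 2))
  odd : ∀ I : Finset (Fin n), I.Nonempty → I ≠ Finset.univ →
    ∑ w ∈ S with ¬ Even (∑ l ∈ I, w l), m w
      ≤ 2 * (3 * n + 4 * (I.card.choose 2 + (n - I.card).choose 2))

/-- **WTA** (150), uses QUT SPB WT1 WT2 WT3 WT5 SPT WT4.  `H l = ρ (hq n l)`, a `TorSys` (QUT with `j E_ll`, `k E_ll`), `m w = finrank (Vw H w)`, `S` from WT1 (1).  An `SpTrip` maps to an `RtTrip` by `ρ`.  `sgn`, `perm`: WT3 for `2 e_i`, `e_i - e_j` in both directions (for `i = j` `perm` is trivial); `dec`: WT2;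
`zero`: WT4; bounds: WT5, WT1 (2) and SPB. -/
def Stmt_WTA : Prop :=
  ∀ (V : Type) [NormedAddCommGroup V] [InnerProductSpace ℂ V] [FiniteDimensional ℂ V]
    (J : V → V) (n : ℕ) (ρ : spn n →ₗ[ℝ] (V →L[ℂ] V)), IsQuatStr J → IsLRep J (spn n) ρ → ρ ≠ 0 →
    2 ≤ n → FreeOnZeros J (LinearMap.range ρ) →
    ∃ (m : (Fin n → ℤ) → ℕ) (S : Finset (Fin n → ℤ)), WtSys n m ∧ WtBd n m S ∧
      ∑ w ∈ S, m w = finrank ℂ V

/-- **CB1** (120).  Induction on `∑ |w_i|` (a natural number, `Int.natAbs`).  Let `m w ≠ 0` and `∑ w_i` even.  By `sgn` we may suppose `w_i ≥ 0`.  If `w = 0`: `zero`.  If some `w_i ≥ 2`: `dec2`.  Otherwise all `w_i ∈ {0, 1}`, at least two are `1`: `decp`. -/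
def Stmt_CB1 : Prop :=
  ∀ (n : ℕ) (m : (Fin n → ℤ) → ℕ), WtSys n m → ∀ w, m w ≠ 0 → ¬ Even (∑ l, w l)

/-- **CB2** (150), uses CB1.  Induction on `s = ∑ |w_i|`, which is odd by CB1; `w ≠ ± e_i` means `s ≥ 3` (`s = 1` gives `± e_i`).  Suppose `w_i ≥ 0` (`sgn`).  `s ≥ 5`: `dec2` (some `w_i ≥ 2`) or `decp` (two `w_i = 1`) gives `s - 2 ≥ 3`.  `s = 3`: `w = e_a + e_b + e_c`, or `w = 2 e_a + e_b`: `decm` with `a` and a
third index `c`; or `w = 3 e_a`: `decm` with `a`, `b`, then `2 e_a + e_b`.  So `m ≠ 0` at one `e_a + e_b + e_c` with different `a, b, c`, and at all by `perm`. -/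
def Stmt_CB2 : Prop :=
  ∀ (n : ℕ) (m : (Fin n → ℤ) → ℕ), WtSys n m → 3 ≤ n → ∀ w, m w ≠ 0 →
    (∑ l, (w l).natAbs) ≠ 1 → ∀ i j k : Fin n, i ≠ j → i ≠ k → j ≠ k →
      m (Pi.single i 1 + Pi.single j 1 + Pi.single k 1) ≠ 0

/-- **CNW** (100).  Choose the support (`Finset.powersetCard k`), then the signs. -/
def Stmt_CNW : Prop :=
  ∀ (n k : ℕ),
    ((Fintype.piFinset (fun _ : Fin n => ({-1, 0, 1} : Finset ℤ))).filter
      (fun w => (Finset.univ.filter (fun i => w i ≠ 0)).card = k)).card = n.choose k * 2 ^ k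

/-- **CB3** (120), uses CNW.  All `w` with entries `-1, 0, 1` and one or three nonzero entries have `m w ≥ 1`: three: `sgn`; one: `decp` from `e_i + e_j + e_k` to `e_i`, then `sgn`.  There are `8 C(n,3) + 2 n` of them. -/
def Stmt_CB3 : Prop :=
  ∀ (n : ℕ) (m : (Fin n → ℤ) → ℕ) (S : Finset (Fin n → ℤ)), WtSys n m → WtBd n m S → 3 ≤ n →
    (∀ i j k : Fin n, i ≠ j → i ≠ k → j ≠ k →
      m (Pi.single i 1 + Pi.single j 1 + Pi.single k 1) ≠ 0) →
    8 * n.choose 3 + 2 * n ≤ ∑ w ∈ S, m w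

/-- **CB4** (120).  All weights are `± e_i`, with the same multiplicity `μ` (`sgn`, `perm`).  The weights `± e_i`, `i ≠ 0`, are even for `I = {0}`: `2 (n - 1) μ ≤ 2 (3 n + 4 C(n-1, 2)) = 2 ((n - 1) (2 n - 1) + 3)`, so `μ ≤ 2 n - 1` (`n ≥ 5`), and the sum is `2 n μ`. -/
def Stmt_CB4 : Prop :=
  ∀ (n : ℕ) (m : (Fin n → ℤ) → ℕ) (S : Finset (Fin n → ℤ)), WtSys n m → WtBd n m S → 5 ≤ n →
    (∀ w, m w ≠ 0 → (∑ l, (w l).natAbs) = 1) → ∑ w ∈ S, m w ≤ 2 * (n * (2 * n - 1))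

/-- **CB6** (150).  (The third hypothesis is CB1.)  Let `|w_i| ≥ 2`, `m w ≠ 0`.  Induction on the odd number `s = ∑ |w_l|` (CB1), `w ≥ 0` by `sgn`: there is `w'` with `m w' ≠ 0`, `s = 3` and an entry `≥ 2`: if `s ≥ 5` and the other entries have sum `≥ 2`, use `dec2` or `decp` on the others; if their sum is `≤ 1`, then `w_i ≥ 4`, `dec2` at `i`.
Then `w' = 2 e_a + e_b` or `3 e_a`, and `decm` gives `2 e_a + e_b`; all by `perm`. -/
def Stmt_CB6 : Prop :=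
  ∀ (n : ℕ) (m : (Fin n → ℤ) → ℕ), WtSys n m → 2 ≤ n → ∀ w, m w ≠ 0 → (∃ i, 2 ≤ (w i).natAbs) →
    (∀ w, m w ≠ 0 → ¬ Even (∑ l, w l)) → ∀ i j : Fin n, i ≠ j →
      m (Pi.single i 2 + Pi.single j 1) ≠ 0

/-- **CB5** (250), uses CB1 CB6.  `n = 5`; the bounds for `I = {0, 1}` are `62` (even and odd).  All `80` weights `± e_i ± e_j ± e_k` and (`decp`) all `10` weights `± e_i` occur.  (a) An entry `≥ 2`: by CB6 and `sgn` all `80` weights `± 2 e_i ± e_j` occur: sum `≥ 170 > 124`.  So all entries are in `{-1, 0, 1}`, with one, three or five nonzero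
entries (CB1).  (b) Five: all `32` sign vectors occur (`sgn`); the even part contains `32` of them, `32` of three entries and `6` of one entry: `70 > 62`.  (c) So the sum is `10 μ₁ + 80 μ₃` (`sgn`, `perm`), the odd part is `4 μ₁ + 48 μ₃ ≤ 62`, `μ₃ ≥ 1`: `μ₃ = 1`, `μ₁ ≤ 3`, sum `≤ 110`.
(The sets of vectors are subsets of `Fintype.piFinset (fun _ : Fin 5 => {-1, 0, 1})`, `243` elements: `decide` / `rfl`.) -/
def Stmt_CB5 : Prop :=
  ∀ (m : (Fin 5 → ℤ) → ℕ) (S : Finset (Fin 5 → ℤ)), WtSys 5 m → WtBd 5 m S →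
    (∀ i j k : Fin 5, i ≠ j → i ≠ k → j ≠ k →
      m (Pi.single i 1 + Pi.single j 1 + Pi.single k 1) ≠ 0) → ∑ w ∈ S, m w ≤ 110

/-- **CBF** (120), uses CB2 CB3 CB4 CB5.  If all weights have `∑ |w_l| = 1`: CB4.  Otherwise CB2; `n = 5`: CB5 (`110 = 2 * 5 * 11`).  `n ≥ 6`: CB3, and with `|I| = n / 2` the sum is at most `4 (3 n + 4 (C(i,2) + C(n-i,2))) ≤ 4 n ^ 2 + 4 n + 4` (`4 n ^ 2 + 4 n` for even `n`) `< 8 C(n,3) + 2 n` (`n = 6`: `168 < 172`). -/
def Stmt_CBF : Prop :=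
  ∀ (n : ℕ) (m : (Fin n → ℤ) → ℕ) (S : Finset (Fin n → ℤ)), WtSys n m → WtBd n m S → 5 ≤ n →
    ∑ w ∈ S, m w ≤ 2 * (n * (2 * n + 1))

/-- **SPF** (80), uses SPB WTA CBF.  `n ≥ 5`: WTA and CBF.  `n = 2, 3, 4`: SPB with `|I| = 1, 1, 2`: `finrank V ≤ 24, 52, 80`, `N ≤ 12, 26, 40`. -/
def Stmt_SPF : Prop :=
  ∀ (V : Type) [NormedAddCommGroup V] [InnerProductSpace ℂ V] [FiniteDimensional ℂ V]
    (J : V → V) (n N : ℕ) (ρ : spn n →ₗ[ℝ] (V →L[ℂ] V)), IsQuatStr J → 2 ≤ n →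
    finrank ℂ V = 2 * N → IsLRep J (spn n) ρ → ρ ≠ 0 → FreeOnZeros J (LinearMap.range ρ) →
    N ≤ n * (2 * n + 1) ∨ (n ≤ 4 ∧ N ≤ n * (2 * n + 1) + 5)

end MPa8bd83
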