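/-
MP_a8bd83_gt, THEOREM QR, part 6, block CB2: a weight different from the `± e_i` gives the weights
`e_i + e_j + e_k`.
-/
import Pool.Agent.Work.MP_a8bd83_qk.Interface6

set_option autoImplicit false

namespace MPa8bd83

open Module

theorem CB2_abs {n : ℕ} {m : (Fin n → ℤ) → ℕ} (h : WtSys n m) (w : Fin n → ℤ)
    (T : Finset (Fin n)) : m (fun l => if l ∈ T then |w l| else w l) = m w := by
  classical
  induction T using Finset.induction_on with
  | empty => simp
  | insert a T ha ih =>
    rw [← ih]
    by_cases hw : 0 ≤ w a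
    · congr 1
      funext l
      by_cases hl : l = a
      · subst hl
        simp [ha, abs_of_nonneg hw]
      · simp [hl]
    · rw [← h.sgn (fun l => if l ∈ T then |w l| else w l) a]
      congr 1
      funext l
      by_cases hl : l = a
      · subst hl
        simp [ha, abs_of_neg (not_le.1 hw)]
      · rw [Function.update_of_ne hl]
        simp [hl]

theorem CB2_perm {n : ℕ} {m : (Fin n → ℤ) → ℕ} (h : WtSys n m) (σ : Equiv.Perm (Fin n)) :
    ∀ w : Fin n → ℤ, m (w ∘ σ) = m w := by
  induction σ using Equiv.Perm.swap_induction_on with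
  | one => intro w; rfl
  | swap_mul f x y _ ih =>
    intro w
    have h1 : w ∘ ⇑(Equiv.swap x y * f) = (w ∘ Equiv.swap x y) ∘ f := rfl
    rw [h1, ih, h.perm]

theorem CB2_sum {n : ℕ} (a : Fin n) (v : ℤ) : ∑ l, (Pi.single a v : Fin n → ℤ) l = v := by
  simp

theorem CB2_key {n : ℕ} {m : (Fin n → ℤ) → ℕ} (h : WtSys n m)
    (hodd : ∀ w, m w ≠ 0 → ¬ Even (∑ l, w l)) (hn : 3 ≤ n) :
    ∀ (N : ℕ) (w : Fin n → ℤ), (∀ l, 0 ≤ w l) → ∑ l, w l ^ 2 = (N : ℤ) → 3 ≤ ∑ l, w l →
      m w ≠ 0 → ∃ T : Finset (Fin n), T.card = 3 ∧ m (fun l => if l ∈ T then 1 else 0) ≠ 0 := by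
  classical
  intro N
  induction N using Nat.strong_induction_on with
  | _ N ih =>
  intro w h0 hN hs hm
  have hIH : ∀ w' : Fin n → ℤ, (∀ l, 0 ≤ w' l) → ∑ l, w' l ^ 2 < ∑ l, w l ^ 2 →
      3 ≤ ∑ l, w' l → m w' ≠ 0 →
      ∃ T : Finset (Fin n), T.card = 3 ∧ m (fun l => if l ∈ T then 1 else 0) ≠ 0 := by
    intro w' h1 h2 h3 h4
    have h5 : 0 ≤ ∑ l, w' l ^ 2 := Finset.sum_nonneg fun l _ => sq_nonneg _
    have h6 : (((∑ l, w' l ^ 2).toNat : ℕ) : ℤ) = ∑ l, w' l ^ 2 := Int.toNat_of_nonneg h5
    exact ih (∑ l, w' l ^ 2).toNat (by omega) w' h1 h6.symm h3 h4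
  by_cases hA : ∃ a, 2 ≤ w a
  · obtain ⟨a, ha⟩ := hA
    by_cases h5 : 5 ≤ ∑ l, w l
    · have h1 := h.dec2 w a (by linarith)
      have hval : ∀ l, (w - Pi.single a 2 : Fin n → ℤ) l = if l = a then w a - 2 else w l := by
        intro l
        by_cases hl : l = a
        · subst hl
          simp
        · simp [hl]
      refine hIH (w - Pi.single a 2) ?_ ?_ ?_ (by omega)
      · intro l
        rw [hval]
        split_ifs
        · linarith
        · exact h0 l
      · apply Finset.sum_lt_sum
        · intro l _
          rw [hval]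
          split_ifs with hl
          · rw [hl]
            nlinarith
          · exact le_refl _
        · refine ⟨a, Finset.mem_univ _, ?_⟩
          rw [hval, if_pos rfl]
          nlinarith
      · simp only [Pi.sub_apply, Finset.sum_sub_distrib, CB2_sum]
        linarith
    · have h3 : ∑ l, w l = 3 := by
        have h4 : ∑ l, w l ≠ 4 := by
          intro h4
          apply hodd w hm
          rw [h4]
          decide
        omega
      obtain ⟨c, hc⟩ : ∃ c, w c = 0 := by
        by_contra hne
        push Not at hne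
        have h6 : (((Finset.univ.erase a).card : ℕ) : ℤ) ≤ ∑ l ∈ Finset.univ.erase a, w l := by
          have h7 := Finset.card_nsmul_le_sum (Finset.univ.erase a) w 1 (fun l _ => by
            have h8 := h0 l
            have h9 := hne l
            omega)
          simpa using h7
        rw [Finset.card_erase_of_mem (Finset.mem_univ a), Finset.card_univ,
          Fintype.card_fin] at h6
        have h7 := Finset.add_sum_erase Finset.univ w (Finset.mem_univ a)
        have h8 : ((n - 1 : ℕ) : ℤ) = n - 1 := by
          rw [Nat.cast_sub (by omega)]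
          simp
        have h9 : (3 : ℤ) ≤ n := by exact_mod_cast hn
        linarith
      have hca : a ≠ c := by
        intro h6
        rw [← h6] at hc
        omega
      have h1 := h.decm w a c hca (by rw [hc]; linarith)
      have hval : ∀ l, (w - (Pi.single a 1 - Pi.single c 1) : Fin n → ℤ) l
          = if l = a then w a - 1 else if l = c then 1 else w l := by
        intro l
        by_cases hl : l = a
        · subst hl
          simp [Pi.single_eq_of_ne hca]
        · by_cases hl' : l = c
          · subst hl'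
            simp [hl, hc]
          · simp [hl, hl']
      refine hIH (w - (Pi.single a 1 - Pi.single c 1)) ?_ ?_ ?_ (by omega)
      · intro l
        rw [hval]
        split_ifs
        · linarith
        · norm_num
        · exact h0 l
      · have h6 : ∀ l, (w - (Pi.single a 1 - Pi.single c 1) : Fin n → ℤ) l ^ 2 = w l ^ 2 +
            ((Pi.single a (1 - 2 * w a) : Fin n → ℤ) l + (Pi.single c 1 : Fin n → ℤ) l) := by
          intro l
          rw [hval]
          by_cases hl : l = a
          · subst hl
            rw [if_pos rfl, Pi.single_eq_same, Pi.single_eq_of_ne hca]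
            ring
          · rw [if_neg hl, Pi.single_eq_of_ne hl]
            by_cases hl' : l = c
            · subst hl'
              rw [if_pos rfl, Pi.single_eq_same, hc]
              ring
            · rw [if_neg hl', Pi.single_eq_of_ne hl']
              ring
        rw [Finset.sum_congr rfl fun l _ => h6 l, Finset.sum_add_distrib,
          Finset.sum_add_distrib, CB2_sum, CB2_sum]
        linarith
      · simp only [Pi.sub_apply, Finset.sum_sub_distrib, CB2_sum]
        linarith
  · push Not at hA
    have h01 : ∀ l, w l = 0 ∨ w l = 1 := by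
      intro l
      have h1 := h0 l
      have h2 := hA l
      omega
    obtain ⟨T, hT⟩ : ∃ T : Finset (Fin n), T = Finset.univ.filter (fun l => w l = 1) :=
      ⟨_, rfl⟩
    have hmem : ∀ l, l ∈ T ↔ w l = 1 := by
      intro l
      rw [hT]
      simp
    have hw : w = fun l => if l ∈ T then 1 else 0 := by
      funext l
      rcases h01 l with h1 | h1
      · rw [if_neg (by rw [hmem, h1]; norm_num), h1]
      · rw [if_pos ((hmem l).2 h1), h1]
    have hcard : ∑ l, w l = (T.card : ℤ) := by
      rw [hw]
      simp
    by_cases h5 : 5 ≤ ∑ l, w l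
    · rw [hcard] at h5
      obtain ⟨a, ha, b, hb, -, -, hab, -, -⟩ := Finset.two_lt_card.1
        (show 2 < T.card by omega)
      rw [hmem] at ha hb
      have h1 := h.decp w a b hab (by rw [ha, hb]; norm_num)
      have hval : ∀ l, (w - (Pi.single a 1 + Pi.single b 1) : Fin n → ℤ) l
          = if l = a then 0 else if l = b then 0 else w l := by
        intro l
        by_cases hl : l = a
        · subst hl
          simp [Pi.single_eq_of_ne hab, ha]
        · by_cases hl' : l = b
          · subst hl'
            simp [hl, hb]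
          · simp [hl, hl']
      refine hIH (w - (Pi.single a 1 + Pi.single b 1)) ?_ ?_ ?_ (by omega)
      · intro l
        rw [hval]
        split_ifs
        · exact le_refl _
        · exact le_refl _
        · exact h0 l
      · apply Finset.sum_lt_sum
        · intro l _
          rw [hval]
          split_ifs
          · positivity
          · positivity
          · exact le_refl _
        · refine ⟨a, Finset.mem_univ _, ?_⟩
          rw [hval, if_pos rfl, ha]
          norm_num
      · simp only [Pi.sub_apply, Pi.add_apply, Finset.sum_sub_distrib, Finset.sum_add_distrib,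
          CB2_sum]
        linarith
    · have h3 : T.card = 3 := by
        have h4 : ∑ l, w l ≠ 4 := by
          intro h4
          apply hodd w hm
          rw [h4]
          decide
        omega
      refine ⟨T, h3, ?_⟩
      rw [← hw]
      exact hm

theorem p_CB2 (hCB1 : Stmt_CB1) : Stmt_CB2 := by
  classical
  intro n m h hn w hm hs i j k hij hik hjk
  have hodd := hCB1 n m h
  obtain ⟨w₁, hw₁⟩ : ∃ w₁ : Fin n → ℤ, ∀ l, w₁ l = |w l| := ⟨_, fun _ => rfl⟩
  have hm1 : m w₁ ≠ 0 := by
    have h1 := CB2_abs h w Finset.univ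
    have h2 : (fun l => if l ∈ (Finset.univ : Finset (Fin n)) then |w l| else w l) = w₁ := by
      funext l
      rw [if_pos (Finset.mem_univ _), hw₁]
    rw [h2] at h1
    rw [h1]
    exact hm
  have h0 : ∀ l, 0 ≤ w₁ l := fun l => by
    rw [hw₁]
    exact abs_nonneg _
  have hsum : ∑ l, w₁ l = ((∑ l, (w l).natAbs : ℕ) : ℤ) := by
    rw [Nat.cast_sum]
    refine Finset.sum_congr rfl fun l _ => ?_
    rw [hw₁, Int.natCast_natAbs]
  have h3 : 3 ≤ ∑ l, w₁ l := by
    have h4 := hodd w₁ hm1
    rw [hsum] at h4 ⊢
    have h5 : ((∑ l, (w l).natAbs : ℕ) : ℤ) ≠ 0 := by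
      intro h5
      rw [h5] at h4
      exact h4 ⟨0, rfl⟩
    have h6 : ((∑ l, (w l).natAbs : ℕ) : ℤ) ≠ 2 := by
      intro h6
      rw [h6] at h4
      exact h4 ⟨1, rfl⟩
    omega
  have hq : 0 ≤ ∑ l, w₁ l ^ 2 := Finset.sum_nonneg fun l _ => sq_nonneg _
  obtain ⟨T, hT, hmT⟩ := CB2_key h hodd hn (∑ l, w₁ l ^ 2).toNat w₁ h0
    (Int.toNat_of_nonneg hq).symm h3 hm1
  obtain ⟨T', hT'⟩ : ∃ T' : Finset (Fin n), T' = {i, j, k} := ⟨_, rfl⟩
  have hT3 : T'.card = 3 := by
    rw [hT']
    exact Finset.card_eq_three.2 ⟨i, j, k, hij, hik, hjk, rfl⟩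
  have e : {l // l ∈ T'} ≃ {l // l ∈ T} := Finset.equivOfCardEq (hT3.trans hT.symm)
  have hσ : ∀ l, e.extendSubtype l ∈ T ↔ l ∈ T' := by
    intro l
    constructor
    · intro h1
      by_contra h2
      exact e.extendSubtype_not_mem l h2 h1
    · intro h1
      exact e.extendSubtype_mem l h1
  have h7 := CB2_perm h e.extendSubtype (fun l => if l ∈ T then 1 else 0)
  have h8 : (fun l => if l ∈ T then (1 : ℤ) else 0) ∘ ⇑e.extendSubtype
      = Pi.single i 1 + Pi.single j 1 + Pi.single k 1 := by
    funext l
    show (if e.extendSubtype l ∈ T then (1 : ℤ) else 0) = _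
    rw [if_congr (hσ l) rfl rfl, hT']
    by_cases h1 : l = i
    · subst h1
      simp [Pi.single_eq_of_ne hij, Pi.single_eq_of_ne hik]
    · by_cases h2 : l = j
      · subst h2
        simp [h1, Pi.single_eq_of_ne hjk]
      · by_cases h3 : l = k
        · subst h3
          simp [h1, h2]
        · simp [h1, h2, h3]
  rw [h8] at h7
  rw [h7]
  exact hmT

end MPa8bd83
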