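import Pool.Agent.Work.MP_a8bd83_qk.Interface6

set_option autoImplicit false

namespace MPa8bd83

open Module

theorem CB3_abs0 {n : ℕ} {m : (Fin n → ℤ) → ℕ} (h : WtSys n m) (w : Fin n → ℤ)
    (T : Finset (Fin n)) : m (fun l => if l ∈ T then |w l| else w l) = m w := by
  induction T using Finset.induction_on with
  | empty => simp
  | insert a T ha ih =>
    rw [← ih]
    rcases le_or_gt 0 (w a) with h0 | h0
    · congr 1
      funext l
      by_cases hl : l = a
      · subst hl
        simp [ha, abs_of_nonneg h0]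
      · simp [hl]
    · rw [← h.sgn (fun l => if l ∈ T then |w l| else w l) a]
      congr 1
      funext l
      by_cases hl : l = a
      · subst hl
        simp [ha, abs_of_neg h0]
      · rw [Function.update_of_ne hl]
        simp [hl]

theorem CB3_abs {n : ℕ} {m : (Fin n → ℤ) → ℕ} (h : WtSys n m) (w : Fin n → ℤ) :
    m (fun l => |w l|) = m w := by
  have := CB3_abs0 h w Finset.univ
  simpa using this

/-- the set of the weights with entries `0, ± 1` and `k` entries `± 1` -/
def CB3_A (n k : ℕ) : Finset (Fin n → ℤ) :=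
  (Fintype.piFinset (fun _ : Fin n => ({-1, 0, 1} : Finset ℤ))).filter
      (fun w => (Finset.univ.filter (fun i => w i ≠ 0)).card = k)

theorem CB3_mem {n k : ℕ} {w : Fin n → ℤ} (h : w ∈ CB3_A n k) :
    (∀ i, |w i| = if w i = 0 then 0 else 1) ∧
      (Finset.univ.filter (fun i => w i ≠ 0)).card = k := by
  rw [CB3_A, Finset.mem_filter, Fintype.mem_piFinset] at h
  refine ⟨fun i => ?_, h.2⟩
  have := h.1 i
  simp only [Finset.mem_insert, Finset.mem_singleton] at this
  rcases this with h1 | h1 | h1 <;> simp [h1]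

theorem p_CB3 (hC : Stmt_CNW) : Stmt_CB3 := by
  intro n m S hW hB hn hm
  have h3 : ∀ w ∈ CB3_A n 3, 1 ≤ m w := by
    intro w hw
    obtain ⟨h1, h2⟩ := CB3_mem hw
    obtain ⟨x, y, z, hxy, hxz, hyz, hs⟩ := Finset.card_eq_three.1 h2
    have hh := hm x y z hxy hxz hyz
    have he : (fun l => |w l|) =
        (Pi.single x 1 + Pi.single y 1 + Pi.single z 1 : Fin n → ℤ) := by
      funext l
      have hl : (w l ≠ 0) ↔ (l = x ∨ l = y ∨ l = z) := by
        have : l ∈ Finset.univ.filter (fun i => w i ≠ 0) ↔ l ∈ ({x, y, z} : Finset (Fin n)) := by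
          rw [hs]
        simpa using this
      rw [h1 l]
      simp only [Pi.add_apply, Pi.single_apply]
      by_cases hlx : l = x
      · subst hlx
        simp [hl.2 (Or.inl rfl), hxy, hxz]
      by_cases hly : l = y
      · subst hly
        simp [hl.2 (Or.inr (Or.inl rfl)), hlx, hyz]
      by_cases hlz : l = z
      · subst hlz
        simp [hl.2 (Or.inr (Or.inr rfl)), hlx, hly]
      have : w l = 0 := by
        by_contra hne
        rcases hl.1 hne with h | h | h
        · exact hlx h
        · exact hly h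
        · exact hlz h
      simp [this, hlx, hly, hlz]
    rw [← CB3_abs hW w, he]
    exact Nat.one_le_iff_ne_zero.2 hh
  have h4 : ∀ w ∈ CB3_A n 1, 1 ≤ m w := by
    intro w hw
    obtain ⟨h1, h2⟩ := CB3_mem hw
    obtain ⟨x, hs⟩ := Finset.card_eq_one.1 h2
    have hc : 1 < (Finset.univ.erase x : Finset (Fin n)).card := by
      rw [Finset.card_erase_of_mem (Finset.mem_univ x), Finset.card_univ, Fintype.card_fin]
      omega
    obtain ⟨y, hy, z, hz, hyz⟩ := Finset.one_lt_card.1 hc
    have hyx : y ≠ x := (Finset.mem_erase.1 hy).1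
    have hzx : z ≠ x := (Finset.mem_erase.1 hz).1
    have hh := hm x y z hyx.symm hzx.symm hyz
    have hd := hW.decp (Pi.single x 1 + Pi.single y 1 + Pi.single z 1) y z hyz (by
      simp [Pi.single_apply, hyx, hzx, hyz, hyz.symm])
    have he : (Pi.single x 1 + Pi.single y 1 + Pi.single z 1 -
        (Pi.single y 1 + Pi.single z 1) : Fin n → ℤ) = Pi.single x 1 := by
      abel
    rw [he] at hd
    have he2 : (fun l => |w l|) = (Pi.single x 1 : Fin n → ℤ) := by
      funext l
      have hl : (w l ≠ 0) ↔ l = x := by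
        have : l ∈ Finset.univ.filter (fun i => w i ≠ 0) ↔ l ∈ ({x} : Finset (Fin n)) := by
          rw [hs]
        simpa using this
      rw [h1 l, Pi.single_apply]
      by_cases hlx : l = x
      · subst hlx
        simp [hl.2 rfl]
      · have : w l = 0 := by
          by_contra hne
          exact hlx (hl.1 hne)
        simp [this, hlx]
    rw [← CB3_abs hW w, he2]
    exact le_trans (Nat.one_le_iff_ne_zero.2 hh) hd
  have hdis : Disjoint (CB3_A n 3) (CB3_A n 1) := by
    rw [Finset.disjoint_left]
    intro w hw hw'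
    have := (CB3_mem hw).2
    have h' := (CB3_mem hw').2
    omega
  have hsub : CB3_A n 3 ∪ CB3_A n 1 ⊆ S := by
    intro w hw
    apply hB.supp
    rcases Finset.mem_union.1 hw with h | h
    · have := h3 w h
      omega
    · have := h4 w h
      omega
  have hcard : (CB3_A n 3 ∪ CB3_A n 1).card = 8 * n.choose 3 + 2 * n := by
    rw [Finset.card_union_of_disjoint hdis]
    have e3 : (CB3_A n 3).card = n.choose 3 * 2 ^ 3 := hC n 3
    have e1 : (CB3_A n 1).card = n.choose 1 * 2 ^ 1 := hC n 1
    rw [e3, e1, Nat.choose_one_right]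
    ring
  calc 8 * n.choose 3 + 2 * n = ∑ w ∈ CB3_A n 3 ∪ CB3_A n 1, 1 := by
        rw [Finset.sum_const, smul_eq_mul, mul_one, hcard]
    _ ≤ ∑ w ∈ CB3_A n 3 ∪ CB3_A n 1, m w := by
        apply Finset.sum_le_sum
        intro w hw
        rcases Finset.mem_union.1 hw with h | h
        · exact h3 w h
        · exact h4 w h
    _ ≤ ∑ w ∈ S, m w := Finset.sum_le_sum_of_subset hsub

end MPa8bd83
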