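import Pool.Agent.Work.MP_a8bd83_qk.Interface6

namespace MPa8bd83

open Finset

def CB4_f {n : ℕ} (p : Fin n × Bool) : Fin n → ℤ := Pi.single p.1 (if p.2 then 1 else -1)

lemma CB4_f_inj {n : ℕ} : Function.Injective (CB4_f (n := n)) := by
  rintro ⟨i, b⟩ ⟨j, c⟩ h
  have h1 := congrFun h i
  have h2 : i = j := by
    by_contra hne
    simp only [CB4_f, Pi.single_eq_same] at h1
    rw [Pi.single_eq_of_ne hne] at h1
    cases b <;> simp at h1
  subst h2
  simp only [CB4_f, Pi.single_eq_same] at h1
  have : b = c := by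
    cases b <;> cases c <;> simp at h1 ⊢
  rw [this]

lemma CB4_mem {n : ℕ} (w : Fin n → ℤ) (h : ∑ l, (w l).natAbs = 1) : ∃ p, CB4_f p = w := by
  obtain ⟨i, hi⟩ : ∃ i, w i ≠ 0 := by
    by_contra hc
    push Not at hc
    simp [hc] at h
  have h0 : ∀ j, j ≠ i → w j = 0 := by
    intro j hj
    by_contra hne
    have h1 : ∑ l ∈ {i, j}, (w l).natAbs ≤ ∑ l, (w l).natAbs :=
      Finset.sum_le_sum_of_subset (Finset.subset_univ _)
    rw [Finset.sum_pair (Ne.symm hj)] at h1
    have := Int.natAbs_pos.2 hi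
    have := Int.natAbs_pos.2 hne
    omega
  have h1 : (w i).natAbs = 1 := by
    rw [← h]
    symm
    apply Finset.sum_eq_single i
    · intro j _ hj
      simp [h0 j hj]
    · simp
  refine ⟨(i, decide (w i = 1)), ?_⟩
  funext j
  by_cases hj : j = i
  · subst hj
    simp only [CB4_f, Pi.single_eq_same, decide_eq_true_eq]
    split_ifs with h2
    · exact h2.symm
    · omega
  · simp only [CB4_f, Pi.single_eq_of_ne hj, h0 j hj]

lemma CB4_sum {n : ℕ} (m : (Fin n → ℤ) → ℕ) (S : Finset (Fin n → ℤ)) (μ : ℕ)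
    (hS : ∀ w, m w ≠ 0 → w ∈ S) (h1 : ∀ w, m w ≠ 0 → (∑ l, (w l).natAbs) = 1)
    (hμ : ∀ p, m (CB4_f p) = μ) (q : (Fin n → ℤ) → Prop) [DecidablePred q] :
    ∑ w ∈ S with q w, m w = (univ.filter (fun p : Fin n × Bool => q (CB4_f p))).card * μ := by
  classical
  have h2 : ∑ w ∈ (univ.filter (fun p : Fin n × Bool => q (CB4_f p))).image CB4_f, m w
      = (univ.filter (fun p : Fin n × Bool => q (CB4_f p))).card * μ := by
    rw [Finset.sum_image (fun a _ b _ hab => CB4_f_inj hab)]
    rw [Finset.sum_congr rfl (fun p _ => hμ p), Finset.sum_const, smul_eq_mul]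
  rw [← h2]
  apply Finset.sum_congr_of_eq_on_inter
  · intro w hw hn
    by_contra hne
    apply hn
    obtain ⟨p, hp⟩ := CB4_mem w (h1 w hne)
    simp only [mem_image, mem_filter, mem_univ, true_and] at hw ⊢
    exact ⟨p, by rw [hp]; exact hw.2, hp⟩
  · intro w hw hn
    by_contra hne
    apply hn
    simp only [mem_image, mem_filter, mem_univ, true_and] at hw ⊢
    obtain ⟨p, hp, rfl⟩ := hw
    exact ⟨hS _ hne, hp⟩
  · intro w _ _
    rfl

lemma CB4_card (n : ℕ) (i : Fin n) :
    (univ.filter (fun p : Fin n × Bool => Even (∑ l ∈ ({i} : Finset (Fin n)), CB4_f p l))).card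
      = 2 * (n - 1) := by
  classical
  have h : (univ.filter (fun p : Fin n × Bool => Even (∑ l ∈ ({i} : Finset (Fin n)), CB4_f p l)))
      = (univ.erase i) ×ˢ (univ : Finset Bool) := by
    ext ⟨j, b⟩
    simp only [sum_singleton, mem_filter, mem_univ, true_and, mem_product, mem_erase, and_true,
      ne_eq]
    constructor
    · intro h hj
      subst hj
      simp only [CB4_f, Pi.single_eq_same] at h
      cases b <;> simp at h
    · intro h
      have h2 : i ≠ j := fun h3 => h h3.symm
      simp only [CB4_f, Pi.single_eq_of_ne h2]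
      exact Even.zero
  rw [h, card_product, card_erase_of_mem (mem_univ i), card_univ, card_univ, Fintype.card_fin,
    Fintype.card_bool, mul_comm]

theorem p_CB4 : Stmt_CB4 := by
  classical
  intro n m S hW hB hn h1
  set z : Fin n := ⟨0, by omega⟩ with hz
  set μ : ℕ := m (Pi.single z 1) with hμ
  have hpos : ∀ i : Fin n, m (Pi.single i 1) = μ := by
    intro i
    have h := hW.perm (Pi.single z 1) z i
    rw [hμ, ← h]
    congr 1
    funext j
    simp only [Function.comp_apply, Pi.single_apply]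
    by_cases hj : j = i
    · subst hj
      simp
    · by_cases hj2 : j = z
      · subst hj2
        have hne : i ≠ z := fun h3 => hj h3.symm
        simp [hne, hj]
      · rw [Equiv.swap_apply_of_ne_of_ne hj2 hj]
        simp [hj, hj2]
  have hall : ∀ p : Fin n × Bool, m (CB4_f p) = μ := by
    rintro ⟨i, b⟩
    cases b
    · have h := hW.sgn (Pi.single i 1) i
      rw [hpos i] at h
      rw [← h]
      congr 1
      funext j
      by_cases hj : j = i
      · subst hj
        simp [CB4_f]
      · simp [CB4_f, hj]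
    · simpa [CB4_f] using hpos i
  have hsum : ∑ w ∈ S, m w = (2 * n) * μ := by
    have h := CB4_sum m S μ hB.supp h1 hall (fun _ => True)
    simp only [filter_true] at h
    rw [h, card_univ, Fintype.card_prod, Fintype.card_fin, Fintype.card_bool, mul_comm n 2]
  have hne : ({z} : Finset (Fin n)) ≠ Finset.univ := by
    intro h
    have h2 := congrArg Finset.card h
    rw [card_singleton, card_univ, Fintype.card_fin] at h2
    omega
  have hb := hB.even {z} (singleton_nonempty z) hne
  rw [CB4_sum m S μ hB.supp h1 hall (fun w => Even (∑ l ∈ ({z} : Finset (Fin n)), w l)),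
    CB4_card, card_singleton] at hb
  obtain ⟨k, rfl⟩ : ∃ k, n = k + 5 := ⟨n - 5, by omega⟩
  have hc : (k + 5 - 1).choose 2 * 2 = (k + 4) * (k + 3) := by
    have := Nat.choose_two_right (k + 5 - 1)
    have h2 : Even ((k + 4) * (k + 3)) := by
      rw [mul_comm]
      exact Nat.even_mul_succ_self (k + 3)
    rw [this]
    have h3 : (k + 5 - 1) * (k + 5 - 1 - 1) = (k + 4) * (k + 3) := by
      congr 1
    rw [h3]
    exact Nat.div_mul_cancel h2.two_dvd
  have hc1 : Nat.choose 1 2 = 0 := by decide
  rw [hc1, zero_add] at hb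
  have h5 : k + 5 - 1 = k + 4 := by omega
  rw [h5] at hb hc
  rw [hsum]
  have hmu : μ ≤ 2 * k + 9 := by
    by_contra hcon
    push Not at hcon
    have h6 : 2 * (k + 4) * (2 * k + 10) ≤ 2 * (k + 4) * μ := Nat.mul_le_mul_left _ hcon
    nlinarith
  have h7 : 2 * (k + 5) - 1 = 2 * k + 9 := by omega
  rw [h7]
  calc 2 * (k + 5) * μ ≤ 2 * (k + 5) * (2 * k + 9) := Nat.mul_le_mul_left _ hmu
    _ = 2 * ((k + 5) * (2 * k + 9)) := by ring

end MPa8bd83
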