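import Pool.Agent.Work.MP_a8bd83_qk.Interface6

/-!
# MP_a8bd83_gt, block CB5 (typed by helper21): the weights of a representation of `Sp(5)`
-/

set_option autoImplicit false

open scoped BigOperators
open Finset

namespace MPa8bd83

/-- the vectors with entries `-1, 0, 1` -/
abbrev CB5_T : Finset (Fin 5 → ℤ) := Fintype.piFinset (fun _ : Fin 5 => ({-1, 0, 1} : Finset ℤ))

/-- the number of nonzero entries -/
def CB5_c (w : Fin 5 → ℤ) : ℕ := (Finset.univ.filter (fun i => w i ≠ 0)).card

/-- the vectors with entries `-1, 0, 1` and `k` nonzero entries -/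
abbrev CB5_A (k : ℕ) : Finset (Fin 5 → ℤ) := CB5_T.filter fun w => CB5_c w = k

theorem CB5_k1 : (CB5_A 1).card = 10 := by decide +kernel

theorem CB5_k3 : (CB5_A 3).card = 80 := by decide +kernel

theorem CB5_o1 : ((CB5_A 1).filter fun w => ¬ Even (∑ l ∈ ({0, 1} : Finset (Fin 5)), w l)).card =
    4 := by decide +kernel

theorem CB5_o3 : ((CB5_A 3).filter fun w => ¬ Even (∑ l ∈ ({0, 1} : Finset (Fin 5)), w l)).card =
    48 := by decide +kernel

theorem CB5_e : ((CB5_A 1 ∪ CB5_A 3 ∪ CB5_A 5).filter fun w =>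
    Even (∑ l ∈ ({0, 1} : Finset (Fin 5)), w l)).card = 70 := by decide +kernel

theorem CB5_par : ∀ w ∈ CB5_T, ¬ Even (∑ l, w l) → CB5_c w = 1 ∨ CB5_c w = 3 ∨ CB5_c w = 5 := by
  decide +kernel

/-- the vectors `2 e_i ± e_j` -/
abbrev CB5_B : Finset (Fin 5 → ℤ) :=
  ((Finset.univ : Finset (Fin 5 × Fin 5 × Bool)).filter fun p => p.1 ≠ p.2.1).image
    fun p => Pi.single p.1 2 + Pi.single p.2.1 (if p.2.2 then (1 : ℤ) else -1)

theorem CB5_kB : CB5_B.card = 40 := by decide +kernel

theorem CB5_dis : ∀ w ∈ CB5_B, ∃ i, w i = 2 := by decide +kernel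

/-- the multiplicities depend only on the absolute values -/
theorem CB5_abs (n : ℕ) (m : (Fin n → ℤ) → ℕ) (h : WtSys n m) (s : Finset (Fin n)) :
    ∀ w w' : Fin n → ℤ, (∀ i, i ∉ s → w i = w' i) → (∀ i, w i = w' i ∨ w i = -(w' i)) →
      m w = m w' := by
  induction s using Finset.induction_on with
  | empty =>
    intro w w' h1 _
    have h3 : w = w' := funext fun i => h1 i (Finset.notMem_empty i)
    rw [h3]
  | insert a s ha ih =>
    intro w w' h1 h2
    have h3 : m (Function.update w a (w' a)) = m w := by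
      rcases h2 a with h4 | h4
      · rw [← h4, Function.update_eq_self]
      · rw [show w' a = -(w a) by rw [h4, neg_neg]]
        exact h.sgn w a
    rw [← h3]
    refine ih _ _ ?_ ?_
    · intro i hi
      by_cases hia : i = a
      · subst hia
        rw [Function.update_self]
      · rw [Function.update_of_ne hia]
        refine h1 i ?_
        rw [Finset.mem_insert, not_or]
        exact ⟨hia, hi⟩
    · intro i
      by_cases hia : i = a
      · subst hia
        rw [Function.update_self]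
        exact Or.inl rfl
      · rw [Function.update_of_ne hia]
        exact h2 i

/-- the multiplicities of vectors with entries `0, 1` depend only on the number of ones -/
theorem CB5_ex (n : ℕ) (m : (Fin n → ℤ) → ℕ) (h : WtSys n m) (g : Fin n → ℤ)
    (hg : ∀ i, g i = 0 ∨ g i = 1) (d : ℕ) :
    ∀ f : Fin n → ℤ, (∀ i, f i = 0 ∨ f i = 1) →
      (Finset.univ.filter fun i => f i ≠ 0).card = (Finset.univ.filter fun i => g i ≠ 0).card →
      (Finset.univ.filter fun i => f i ≠ g i).card ≤ d → m f = m g := by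
  induction d with
  | zero =>
    intro f _ _ h3
    have h4 : f = g := by
      funext i
      by_contra h5
      have h6 := Finset.card_eq_zero.1 (Nat.le_zero.1 h3)
      have h7 : i ∈ Finset.univ.filter fun i => f i ≠ g i :=
        Finset.mem_filter.2 ⟨Finset.mem_univ _, h5⟩
      rw [h6] at h7
      exact Finset.notMem_empty _ h7
    rw [h4]
  | succ d ih =>
    intro f hf hc hd
    by_cases hfg : f = g
    · rw [hfg]
    obtain ⟨a, ha1, ha2⟩ : ∃ a, f a = 1 ∧ g a = 0 := by
      by_contra hno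
      push Not at hno
      apply hfg
      have h1 : (Finset.univ.filter fun i => f i ≠ 0) ⊆ Finset.univ.filter fun i => g i ≠ 0 := by
        intro i hi
        rw [Finset.mem_filter] at hi ⊢
        rcases hf i with h2 | h2
        · exact absurd h2 hi.2
        · exact ⟨hi.1, hno i h2⟩
      have h2 := Finset.eq_of_subset_of_card_le h1 hc.ge
      funext i
      have h3 : i ∈ (Finset.univ.filter fun i => f i ≠ 0) ↔
          i ∈ Finset.univ.filter fun i => g i ≠ 0 := by rw [h2]
      simp only [Finset.mem_filter, Finset.mem_univ, true_and] at h3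
      rcases hf i with h4 | h4 <;> rcases hg i with h5 | h5 <;> rw [h4, h5] at h3 ⊢ <;> simp at h3
    obtain ⟨b, hb1, hb2⟩ : ∃ b, f b = 0 ∧ g b = 1 := by
      by_contra hno
      push Not at hno
      apply hfg
      have h1 : (Finset.univ.filter fun i => g i ≠ 0) ⊆ Finset.univ.filter fun i => f i ≠ 0 := by
        intro i hi
        rw [Finset.mem_filter] at hi ⊢
        rcases hg i with h2 | h2
        · exact absurd h2 hi.2
        · exact ⟨hi.1, fun h3 => hno i h3 h2⟩
      have h2 := Finset.eq_of_subset_of_card_le h1 hc.le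
      funext i
      have h3 : i ∈ (Finset.univ.filter fun i => g i ≠ 0) ↔
          i ∈ Finset.univ.filter fun i => f i ≠ 0 := by rw [h2]
      simp only [Finset.mem_filter, Finset.mem_univ, true_and] at h3
      rcases hf i with h4 | h4 <;> rcases hg i with h5 | h5 <;> rw [h4, h5] at h3 ⊢ <;> simp at h3
    have hab : a ≠ b := by
      intro h1
      rw [h1, hb1] at ha1
      exact absurd ha1 (by norm_num)
    rw [← h.perm f a b]
    refine ih _ ?_ ?_ ?_
    · intro i
      exact hf _
    · rw [← hc]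
      refine Finset.card_bijective (Equiv.swap a b) (Equiv.bijective _) fun i => ?_
      simp only [Finset.mem_filter, Finset.mem_univ, true_and, Function.comp]
    · have h1 : (Finset.univ.filter fun i => (f ∘ Equiv.swap a b) i ≠ g i) ⊂
          Finset.univ.filter fun i => f i ≠ g i := by
        rw [Finset.ssubset_iff_of_subset]
        · refine ⟨a, ?_, ?_⟩
          · rw [Finset.mem_filter, ha1, ha2]
            exact ⟨Finset.mem_univ _, by norm_num⟩
          · rw [Finset.mem_filter, Function.comp, Equiv.swap_apply_left, hb1, ha2]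
            rintro ⟨-, h2⟩
            exact h2 rfl
        · intro i hi
          rw [Finset.mem_filter] at hi ⊢
          refine ⟨hi.1, ?_⟩
          have h2 := hi.2
          by_cases hia : i = a
          · subst hia
            rw [ha1, ha2]
            norm_num
          · by_cases hib : i = b
            · subst hib
              rw [hb1, hb2]
              norm_num
            · rw [Function.comp, Equiv.swap_apply_of_ne_of_ne hia hib] at h2
              exact h2
      have h2 := Finset.card_lt_card h1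
      omega

theorem CB5_memT {w : Fin 5 → ℤ} : w ∈ CB5_T ↔ ∀ i, w i = -1 ∨ w i = 0 ∨ w i = 1 := by
  simp only [Fintype.mem_piFinset, Finset.mem_insert, Finset.mem_singleton]

theorem CB5_eq (m : (Fin 5 → ℤ) → ℕ) (h : WtSys 5 m) (w w' : Fin 5 → ℤ) (hw : w ∈ CB5_T)
    (hw' : w' ∈ CB5_T) (hc : CB5_c w = CB5_c w') : m w = m w' := by
  rw [CB5_memT] at hw hw'
  have key : ∀ v : Fin 5 → ℤ, (∀ i, v i = -1 ∨ v i = 0 ∨ v i = 1) →
      m v = m (fun i => |v i|) ∧ (∀ i, |v i| = 0 ∨ |v i| = 1) ∧
      (Finset.univ.filter fun i => |v i| ≠ 0).card = CB5_c v := by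
    intro v hv
    refine ⟨CB5_abs 5 m h Finset.univ v _ (fun i hi => absurd (Finset.mem_univ i) hi) ?_, ?_, ?_⟩
    · intro i
      rcases hv i with h1 | h1 | h1 <;> simp [h1]
    · intro i
      rcases hv i with h1 | h1 | h1 <;> simp [h1]
    · unfold CB5_c
      congr 1
      ext i
      simp
  obtain ⟨h1, h2, h3⟩ := key w hw
  obtain ⟨h1', h2', h3'⟩ := key w' hw'
  rw [h1, h1']
  exact CB5_ex 5 m h _ h2' _ _ h2 (by rw [h3, h3', hc]) le_rfl

/-- lower bounds for sums -/
theorem CB5_low (m : (Fin 5 → ℤ) → ℕ) (S U : Finset (Fin 5 → ℤ)) (h : ∀ w, m w ≠ 0 → w ∈ S)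
    (P : (Fin 5 → ℤ) → Prop) [DecidablePred P] (hU : ∀ w ∈ U, P w) :
    ∑ w ∈ U, m w ≤ ∑ w ∈ S with P w, m w := by
  have h1 : ∑ w ∈ U, m w = ∑ w ∈ U.filter (fun w => m w ≠ 0), m w := by
    rw [Finset.sum_filter_ne_zero]
  rw [h1]
  refine Finset.sum_le_sum_of_subset ?_
  intro w hw
  rw [Finset.mem_filter] at hw ⊢
  exact ⟨h w hw.2, hU w hw.1⟩

theorem CB5_card (m : (Fin 5 → ℤ) → ℕ) (U : Finset (Fin 5 → ℤ)) (h : ∀ w ∈ U, m w ≠ 0) :
    U.card ≤ ∑ w ∈ U, m w := by
  rw [Finset.card_eq_sum_ones]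
  exact Finset.sum_le_sum fun w hw => Nat.one_le_iff_ne_zero.2 (h w hw)

theorem CB5_I1 : ({0, 1} : Finset (Fin 5)).Nonempty := ⟨0, by simp⟩

theorem CB5_I2 : ({0, 1} : Finset (Fin 5)) ≠ Finset.univ := by decide

theorem CB5_I3 : ({0, 1} : Finset (Fin 5)).card = 2 := by decide

theorem p_CB5 (h1 : Stmt_CB1) (h6 : Stmt_CB6) : Stmt_CB5 := by
  intro m S h hS hm3
  have heven : ∑ w ∈ S with Even (∑ l ∈ ({0, 1} : Finset (Fin 5)), w l), m w ≤ 62 := by
    have := hS.even {0, 1} CB5_I1 CB5_I2
    rw [CB5_I3] at this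
    exact this.trans (by decide)
  have hodd : ∑ w ∈ S with ¬ Even (∑ l ∈ ({0, 1} : Finset (Fin 5)), w l), m w ≤ 62 := by
    have := hS.odd {0, 1} CB5_I1 CB5_I2
    rw [CB5_I3] at this
    exact this.trans (by decide)
  have htot := Finset.sum_filter_add_sum_filter_not S
    (fun w => Even (∑ l ∈ ({0, 1} : Finset (Fin 5)), w l)) m
  -- the multiplicities of three and one entries
  obtain ⟨w3, hw3⟩ : ∃ w3 : Fin 5 → ℤ, w3 = Pi.single 0 1 + Pi.single 1 1 + Pi.single 2 1 := ⟨_, rfl⟩
  obtain ⟨w1, hw1⟩ : ∃ w1 : Fin 5 → ℤ, w1 = Pi.single 0 1 := ⟨_, rfl⟩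
  have hm3' : m w3 ≠ 0 := by
    rw [hw3]
    exact hm3 0 1 2 (by decide) (by decide) (by decide)
  have hw3A : w3 ∈ CB5_A 3 := by rw [hw3]; decide +kernel
  have hw1A : w1 ∈ CB5_A 1 := by rw [hw1]; decide +kernel
  have hm1' : m w1 ≠ 0 := by
    have h2 := h.decp w3 1 2 (by decide) (by rw [hw3]; decide)
    have h3 : w3 - (Pi.single 1 1 + Pi.single 2 1) = w1 := by
      rw [hw3, hw1]
      abel
    rw [h3] at h2
    omega
  have hA3 : ∀ w ∈ CB5_A 3, m w = m w3 := by
    intro w hw
    rw [Finset.mem_filter] at hw hw3A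
    exact CB5_eq m h w w3 hw.1 hw3A.1 (hw.2.trans hw3A.2.symm)
  have hA1 : ∀ w ∈ CB5_A 1, m w = m w1 := by
    intro w hw
    rw [Finset.mem_filter] at hw hw1A
    exact CB5_eq m h w w1 hw.1 hw1A.1 (hw.2.trans hw1A.2.symm)
  -- (a) no entry of absolute value two or more
  have ha : ∀ w, m w ≠ 0 → ∀ i, (w i).natAbs < 2 := by
    intro w hw
    by_contra hno
    push Not at hno
    have hB : ∀ v ∈ CB5_B, m v ≠ 0 := by
      intro v hv
      rw [Finset.mem_image] at hv
      obtain ⟨⟨i, j, s⟩, hp, rfl⟩ := hv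
      rw [Finset.mem_filter] at hp
      have hij : i ≠ j := hp.2
      have h2 := h6 5 m h (by norm_num) w hw hno (h1 5 m h) i j hij
      have h3 : m (Pi.single i 2 + Pi.single j (if s then (1 : ℤ) else -1)) =
          m (Pi.single i 2 + Pi.single j 1) := by
        refine CB5_abs 5 m h Finset.univ _ _ (fun i hi => absurd (Finset.mem_univ i) hi) ?_
        intro l
        by_cases hlj : l = j
        · subst hlj
          cases s <;> simp [Pi.single_eq_of_ne hij.symm]
        · left
          simp [Pi.single_eq_of_ne hlj]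
      show m (Pi.single i 2 + Pi.single j (if s then (1 : ℤ) else -1)) ≠ 0
      rw [h3]
      exact h2
    have hd1 : Disjoint (CB5_A 1) (CB5_A 3) := by
      rw [Finset.disjoint_left]
      intro v hv hv'
      rw [Finset.mem_filter] at hv hv'
      omega
    have hd2 : Disjoint (CB5_A 1 ∪ CB5_A 3) CB5_B := by
      rw [Finset.disjoint_left]
      intro v hv hv'
      obtain ⟨i, hi⟩ := CB5_dis v hv'
      have hvT : v ∈ CB5_T := by
        rw [Finset.mem_union, Finset.mem_filter, Finset.mem_filter] at hv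
        rcases hv with hv | hv
        · exact hv.1
        · exact hv.1
      rw [CB5_memT] at hvT
      have := hvT i
      omega
    have h2 : (CB5_A 1 ∪ CB5_A 3 ∪ CB5_B).card = 130 := by
      rw [Finset.card_union_of_disjoint hd2, Finset.card_union_of_disjoint hd1, CB5_k1, CB5_k3,
        CB5_kB]
    have h3 := CB5_card m (CB5_A 1 ∪ CB5_A 3 ∪ CB5_B) (by
      intro v hv
      rw [Finset.mem_union, Finset.mem_union] at hv
      rcases hv with (hv | hv) | hv
      · rw [hA1 v hv]
        exact hm1'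
      · rw [hA3 v hv]
        exact hm3'
      · exact hB v hv)
    have h4 := CB5_low m S (CB5_A 1 ∪ CB5_A 3 ∪ CB5_B) hS.supp (fun _ => True) fun _ _ => trivial
    rw [Finset.filter_true] at h4
    omega
  have hT : ∀ w, m w ≠ 0 → w ∈ CB5_T := by
    intro w hw
    rw [CB5_memT]
    intro i
    have := ha w hw i
    omega
  -- (b) no five entries
  have hb : ∀ w, m w ≠ 0 → w ∈ CB5_A 1 ∪ CB5_A 3 := by
    intro w hw
    have hwT := hT w hw
    rcases CB5_par w hwT (h1 5 m h w hw) with hc | hc | hc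
    · exact Finset.mem_union_left _ (Finset.mem_filter.2 ⟨hwT, hc⟩)
    · exact Finset.mem_union_right _ (Finset.mem_filter.2 ⟨hwT, hc⟩)
    · exfalso
      have hA5 : ∀ v ∈ CB5_A 5, m v ≠ 0 := by
        intro v hv
        rw [Finset.mem_filter] at hv
        rw [CB5_eq m h v w hv.1 hwT (hv.2.trans hc.symm)]
        exact hw
      have h3 := CB5_card m ((CB5_A 1 ∪ CB5_A 3 ∪ CB5_A 5).filter fun w =>
        Even (∑ l ∈ ({0, 1} : Finset (Fin 5)), w l)) (by
        intro v hv
        rw [Finset.mem_filter, Finset.mem_union, Finset.mem_union] at hv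
        rcases hv.1 with (hv | hv) | hv
        · rw [hA1 v hv]
          exact hm1'
        · rw [hA3 v hv]
          exact hm3'
        · exact hA5 v hv)
      have h4 := CB5_low m S ((CB5_A 1 ∪ CB5_A 3 ∪ CB5_A 5).filter fun w =>
        Even (∑ l ∈ ({0, 1} : Finset (Fin 5)), w l)) hS.supp
        (fun w => Even (∑ l ∈ ({0, 1} : Finset (Fin 5)), w l)) fun v hv =>
          (Finset.mem_filter.1 hv).2
      rw [CB5_e] at h3
      omega
  -- (c)
  have hsum : ∀ U : Finset (Fin 5 → ℤ), (∀ w ∈ U, m w = m w1) → ∑ w ∈ U, m w = U.card * m w1 := by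
    intro U hU
    rw [Finset.sum_congr rfl hU, Finset.sum_const, smul_eq_mul]
  have hsum3 : ∀ U : Finset (Fin 5 → ℤ), (∀ w ∈ U, m w = m w3) →
      ∑ w ∈ U, m w = U.card * m w3 := by
    intro U hU
    rw [Finset.sum_congr rfl hU, Finset.sum_const, smul_eq_mul]
  have hd1 : Disjoint (CB5_A 1) (CB5_A 3) := by
    rw [Finset.disjoint_left]
    intro v hv hv'
    rw [Finset.mem_filter] at hv hv'
    omega
  have hup : ∑ w ∈ S, m w ≤ 10 * m w1 + 80 * m w3 := by
    rw [← Finset.sum_filter_ne_zero]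
    have h2 : S.filter (fun w => m w ≠ 0) ⊆ CB5_A 1 ∪ CB5_A 3 := by
      intro w hw
      exact hb w (Finset.mem_filter.1 hw).2
    refine (Finset.sum_le_sum_of_subset h2).trans ?_
    rw [Finset.sum_union hd1, hsum _ hA1, hsum3 _ hA3, CB5_k1, CB5_k3]
  have hlow : 4 * m w1 + 48 * m w3 ≤ 62 := by
    refine le_trans ?_ hodd
    refine le_trans ?_ (CB5_low m S
      (((CB5_A 1).filter fun w => ¬ Even (∑ l ∈ ({0, 1} : Finset (Fin 5)), w l)) ∪
        ((CB5_A 3).filter fun w => ¬ Even (∑ l ∈ ({0, 1} : Finset (Fin 5)), w l))) hS.supp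
      (fun w => ¬ Even (∑ l ∈ ({0, 1} : Finset (Fin 5)), w l)) fun v hv => ?_)
    · rw [Finset.sum_union (hd1.mono (Finset.filter_subset _ _) (Finset.filter_subset _ _)),
        hsum _ fun w hw => hA1 w (Finset.mem_filter.1 hw).1,
        hsum3 _ fun w hw => hA3 w (Finset.mem_filter.1 hw).1, CB5_o1, CB5_o3]
    · rw [Finset.mem_union] at hv
      rcases hv with hv | hv
      · exact (Finset.mem_filter.1 hv).2
      · exact (Finset.mem_filter.1 hv).2
  omega

end MPa8bd83
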