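import Pool.Agent.Work.MP_a8bd83_qk.Interface6

/-!
# Block CB6 of MP_a8bd83_qk
-/

set_option autoImplicit false

namespace MPa8bd83

open Finset

theorem CB6_abs {n : ℕ} {m : (Fin n → ℤ) → ℕ} (h : WtSys n m) (w : Fin n → ℤ) :
    m (fun l => |w l|) = m w := by
  classical
  have key : ∀ T : Finset (Fin n), m (fun l => if l ∈ T then |w l| else w l) = m w := by
    intro T
    induction T using Finset.induction_on with
    | empty => simp
    | insert a T ha ih =>
      rcases le_or_gt 0 (w a) with h0 | h0
      · rw [← ih]
        congr 1
        funext l
        by_cases hl : l = a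
        · subst hl
          rw [if_pos (Finset.mem_insert_self _ _), if_neg ha, abs_of_nonneg h0]
        · by_cases hT : l ∈ T
          · rw [if_pos (Finset.mem_insert_of_mem hT), if_pos hT]
          · rw [if_neg (by simp [hl, hT]), if_neg hT]
      · rw [← ih, ← h.sgn (fun l => if l ∈ T then |w l| else w l) a]
        congr 1
        funext l
        by_cases hl : l = a
        · subst hl
          rw [if_pos (Finset.mem_insert_self _ _), Function.update_self, if_neg ha,
            abs_of_neg h0]
        · rw [Function.update_of_ne hl]
          by_cases hT : l ∈ T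
          · rw [if_pos (Finset.mem_insert_of_mem hT), if_pos hT]
          · rw [if_neg (by simp [hl, hT]), if_neg hT]
  have := key Finset.univ
  simpa using this

theorem CB6_mu {n : ℕ} (v : Fin n → ℤ) (hv : ∀ l, 0 ≤ v l) :
    ((∑ l, (v l).natAbs : ℕ) : ℤ) = ∑ l, v l := by
  push_cast
  exact Finset.sum_congr rfl fun l _ => abs_of_nonneg (hv l)

theorem CB6_ex {n : ℕ} {m : (Fin n → ℤ) → ℕ} (h : WtSys n m) (hn : 2 ≤ n)
    (hodd : ∀ w, m w ≠ 0 → ¬ Even (∑ l, w l)) :
    ∀ (s : ℕ) (w : Fin n → ℤ), m w ≠ 0 → (∃ i, 2 ≤ (w i).natAbs) → (∑ l, (w l).natAbs) = s →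
      ∃ a b : Fin n, a ≠ b ∧ m (Pi.single a 2 + Pi.single b 1) ≠ 0 := by
  intro s
  induction s using Nat.strong_induction_on with
  | _ s ih =>
    intro w hw hi hs
    obtain ⟨i, hi⟩ := hi
    -- pass to the absolute values
    obtain ⟨v, hv0, hvm, hvi, hvs⟩ : ∃ v : Fin n → ℤ, (∀ l, 0 ≤ v l) ∧ m v ≠ 0 ∧ 2 ≤ v i ∧
        (∑ l, (v l).natAbs) = s := by
      refine ⟨fun l => |w l|, fun l => abs_nonneg _, ?_, ?_, ?_⟩
      · rwa [CB6_abs h w]
      · show 2 ≤ |w i|
        rw [Int.abs_eq_natAbs]
        omega
      · rw [← hs]
        exact Finset.sum_congr rfl fun l _ => Int.natAbs_abs _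
    have hsum : (s : ℤ) = ∑ l, v l := by rw [← hvs]; exact CB6_mu v hv0
    by_cases hA : ∃ l, l ≠ i ∧ 2 ≤ v l
    · obtain ⟨l, hl, hl2⟩ := hA
      have h1 := h.dec2 v l (by omega)
      have hnn : ∀ k, 0 ≤ (v - Pi.single l 2 : Fin n → ℤ) k := by
        intro k
        by_cases hk : k = l
        · subst hk
          simp only [Pi.sub_apply, Pi.single_eq_same]
          omega
        · simp only [Pi.sub_apply, Pi.single_eq_of_ne hk]
          have := hv0 k
          omega
      have hmu := CB6_mu (v - Pi.single l 2) hnn
      have h2 : ∑ k, (v - Pi.single l 2 : Fin n → ℤ) k = ∑ k, v k - 2 := by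
        simp [Finset.sum_sub_distrib, Finset.sum_pi_single']
      refine ih (∑ k, ((v - Pi.single l 2 : Fin n → ℤ) k).natAbs) (by omega) (v - Pi.single l 2) (by omega)
        ⟨i, ?_⟩ rfl
      simp only [Pi.sub_apply, Pi.single_eq_of_ne hl.symm]
      omega
    · push Not at hA
      by_cases hB : ∃ l l', l ≠ l' ∧ l ≠ i ∧ l' ≠ i ∧ v l = 1 ∧ v l' = 1
      · obtain ⟨l, l', hll, hl, hl', hl1, hl1'⟩ := hB
        have h1 := h.decp v l l' hll (by omega)
        have hnn : ∀ k, 0 ≤ (v - (Pi.single l 1 + Pi.single l' 1) : Fin n → ℤ) k := by
          intro k
          by_cases hk : k = l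
          · subst hk
            simp only [Pi.sub_apply, Pi.add_apply, Pi.single_eq_same, Pi.single_eq_of_ne hll]
            omega
          · by_cases hk' : k = l'
            · subst hk'
              simp only [Pi.sub_apply, Pi.add_apply, Pi.single_eq_same, Pi.single_eq_of_ne hk]
              omega
            · simp only [Pi.sub_apply, Pi.add_apply, Pi.single_eq_of_ne hk,
                Pi.single_eq_of_ne hk']
              have := hv0 k
              omega
        have hmu := CB6_mu (v - (Pi.single l 1 + Pi.single l' 1)) hnn
        have h2 : ∑ k, (v - (Pi.single l 1 + Pi.single l' 1) : Fin n → ℤ) k = ∑ k, v k - 2 := by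
          simp [Finset.sum_sub_distrib, Finset.sum_add_distrib, Finset.sum_pi_single']
        refine ih (∑ k, ((v - (Pi.single l 1 + Pi.single l' 1) : Fin n → ℤ) k).natAbs) (by omega)
          (v - (Pi.single l 1 + Pi.single l' 1)) (by omega) ⟨i, ?_⟩ rfl
        simp only [Pi.sub_apply, Pi.add_apply, Pi.single_eq_of_ne hl.symm,
          Pi.single_eq_of_ne hl'.symm]
        omega
      · push Not at hB
        by_cases hC : 4 ≤ v i
        · have h1 := h.dec2 v i (by omega)
          have hnn : ∀ k, 0 ≤ (v - Pi.single i 2 : Fin n → ℤ) k := by
            intro k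
            by_cases hk : k = i
            · subst hk
              simp only [Pi.sub_apply, Pi.single_eq_same]
              omega
            · simp only [Pi.sub_apply, Pi.single_eq_of_ne hk]
              have := hv0 k
              omega
          have hmu := CB6_mu (v - Pi.single i 2) hnn
          have h2 : ∑ k, (v - Pi.single i 2 : Fin n → ℤ) k = ∑ k, v k - 2 := by
            simp [Finset.sum_sub_distrib, Finset.sum_pi_single']
          refine ih (∑ k, ((v - Pi.single i 2 : Fin n → ℤ) k).natAbs) (by omega) (v - Pi.single i 2)
            (by omega) ⟨i, ?_⟩ rfl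
          simp only [Pi.sub_apply, Pi.single_eq_same]
          omega
        · by_cases hD : ∃ l, l ≠ i ∧ v l = 1
          · obtain ⟨l, hl, hl1⟩ := hD
            have hrest : ∀ k, k ≠ i → k ≠ l → v k = 0 := by
              intro k hk hk'
              have h3 := hA k hk
              have h4 := hv0 k
              have h5 := hB k l hk' hk hl
              by_contra h6
              have h7 : v k = 1 := by omega
              exact h5 h7 hl1
            have hveq : v = Pi.single i (v i) + Pi.single l 1 := by
              funext k
              by_cases hk : k = i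
              · subst hk
                simp [Pi.single_eq_of_ne hl.symm]
              · by_cases hk' : k = l
                · subst hk'
                  simp [Pi.single_eq_of_ne hk, hl1]
                · simp [Pi.single_eq_of_ne hk, Pi.single_eq_of_ne hk', hrest k hk hk']
            have hsv : ∑ k, v k = v i + 1 := by
              rw [hveq]
              simp [Finset.sum_add_distrib, Finset.sum_pi_single', Pi.single_eq_of_ne hl.symm]
            have ho := hodd v hvm
            rw [hsv] at ho
            have hvi2 : v i = 2 := by
              have h3 : v i = 2 ∨ v i = 3 := by omega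
              rcases h3 with h3 | h3
              · exact h3
              · exact absurd (by rw [h3]; decide) ho
            refine ⟨i, l, hl.symm, ?_⟩
            rw [hvi2] at hveq
            rw [← hveq]
            exact hvm
          · push Not at hD
            have hrest : ∀ k, k ≠ i → v k = 0 := by
              intro k hk
              have h3 := hA k hk
              have h4 := hv0 k
              have h5 := hD k hk
              omega
            have hveq : v = Pi.single i (v i) := by
              funext k
              by_cases hk : k = i
              · subst hk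
                simp
              · simp [Pi.single_eq_of_ne hk, hrest k hk]
            have hsv : ∑ k, v k = v i := by
              rw [hveq]
              simp [Finset.sum_pi_single']
            have ho := hodd v hvm
            rw [hsv] at ho
            have hvi3 : v i = 3 := by
              have h3 : v i = 2 ∨ v i = 3 := by omega
              rcases h3 with h3 | h3
              · exact absurd (by rw [h3]; decide) ho
              · exact h3
            obtain ⟨l, hl⟩ : ∃ l : Fin n, l ≠ i := by
              have : Nontrivial (Fin n) := Fin.nontrivial_iff_two_le.mpr hn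
              exact exists_ne i
            have h1 := h.decm v i l hl.symm (by rw [hvi3, hrest l hl]; norm_num)
            refine ⟨i, l, hl.symm, ?_⟩
            have h2 : v - (Pi.single i 1 - Pi.single l 1) = Pi.single i 2 + Pi.single l 1 := by
              funext k
              by_cases hk : k = i
              · subst hk
                simp [Pi.single_eq_of_ne hl.symm, hvi3]
              · by_cases hk' : k = l
                · subst hk'
                  simp [Pi.single_eq_of_ne hk, hrest k hk]
                · simp [Pi.single_eq_of_ne hk, Pi.single_eq_of_ne hk', hrest k hk]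
            rw [h2] at h1
            omega

theorem p_CB6 : Stmt_CB6 := by
  intro n m h hn w hw hi hodd i j hij
  obtain ⟨a, b, hab, hm⟩ := CB6_ex h hn hodd _ w hw hi rfl
  -- first swap `a` and `i`
  have h1 := h.perm (Pi.single a 2 + Pi.single b 1) a i
  set b' := Equiv.swap a i b with hb'
  have hb'i : b' ≠ i := by
    intro hc
    have h2 : Equiv.swap a i b = Equiv.swap a i a := by
      rw [Equiv.swap_apply_left, ← hb', hc]
    exact hab ((Equiv.swap a i).injective h2).symm
  have e1 : (Pi.single a 2 + Pi.single b 1 : Fin n → ℤ) ∘ Equiv.swap a i =
      Pi.single i 2 + Pi.single b' 1 := by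
    funext k
    simp only [Function.comp_apply, Pi.add_apply, Pi.single_apply]
    congr 1
    · have : (Equiv.swap a i k = a) ↔ k = i := by
        rw [Equiv.swap_apply_eq_iff, Equiv.swap_apply_left]
      simp only [this]
    · have : (Equiv.swap a i k = b) ↔ k = b' := by
        rw [Equiv.swap_apply_eq_iff]
      simp only [this]
  rw [e1] at h1
  have h2 := h.perm (Pi.single i 2 + Pi.single b' 1) b' j
  have e2 : (Pi.single i 2 + Pi.single b' 1 : Fin n → ℤ) ∘ Equiv.swap b' j =
      Pi.single i 2 + Pi.single j 1 := by
    funext k
    simp only [Function.comp_apply, Pi.add_apply, Pi.single_apply]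
    congr 1
    · have : (Equiv.swap b' j k = i) ↔ k = i := by
        rw [Equiv.swap_apply_eq_iff, Equiv.swap_apply_of_ne_of_ne hb'i.symm hij]
      simp only [this]
    · have : (Equiv.swap b' j k = b') ↔ k = j := by
        rw [Equiv.swap_apply_eq_iff, Equiv.swap_apply_left]
      simp only [this]
  rw [e2, h1] at h2
  rw [h2]
  exact hm

end MPa8bd83
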