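import Pool.Agent.Work.MP_a8bd83_qk.Interface9

/-! Block CB7 (helper98): the combinatorics of the weights for `n = 3`. -/

set_option autoImplicit false

namespace MPa8bd83

open Module

/-- The multiplicity at a nonnegative weight. -/
def CB7_N (m : (Fin 3 → ℤ) → ℕ) (x y z : ℕ) : ℕ := m ![(x : ℤ), (y : ℤ), (z : ℤ)]

section

variable {m : (Fin 3 → ℤ) → ℕ}

theorem CB7_s0 (h : WtSys 3 m) (x y z : ℤ) : m ![-x, y, z] = m ![x, y, z] := by
  have h1 := h.sgn ![x, y, z] 0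
  have h2 : Function.update ![x, y, z] 0 (-(![x, y, z] 0)) = ![-x, y, z] := by
    ext i
    fin_cases i <;> simp [Function.update]
  rw [h2] at h1
  exact h1

theorem CB7_s1 (h : WtSys 3 m) (x y z : ℤ) : m ![x, -y, z] = m ![x, y, z] := by
  have h1 := h.sgn ![x, y, z] 1
  have h2 : Function.update ![x, y, z] 1 (-(![x, y, z] 1)) = ![x, -y, z] := by
    ext i
    fin_cases i <;> simp [Function.update]
  rw [h2] at h1
  exact h1

theorem CB7_s2 (h : WtSys 3 m) (x y z : ℤ) : m ![x, y, -z] = m ![x, y, z] := by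
  have h1 := h.sgn ![x, y, z] 2
  have h2 : Function.update ![x, y, z] 2 (-(![x, y, z] 2)) = ![x, y, -z] := by
    ext i
    fin_cases i <;> simp [Function.update]
  rw [h2] at h1
  exact h1

theorem CB7_abs' (h : WtSys 3 m) (x y z : ℤ) :
    m ![x, y, z] = CB7_N m x.natAbs y.natAbs z.natAbs := by
  obtain ⟨a, ha⟩ := Int.eq_nat_or_neg x
  obtain ⟨b, hb⟩ := Int.eq_nat_or_neg y
  obtain ⟨c, hc⟩ := Int.eq_nat_or_neg z
  have ea : x.natAbs = a := by rcases ha with rfl | rfl <;> simp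
  have eb : y.natAbs = b := by rcases hb with rfl | rfl <;> simp
  have ec : z.natAbs = c := by rcases hc with rfl | rfl <;> simp
  rw [ea, eb, ec]
  unfold CB7_N
  have h1 : m ![x, y, z] = m ![(a : ℤ), y, z] := by
    rcases ha with rfl | rfl
    · rfl
    · exact CB7_s0 h _ _ _
  have h2 : m ![(a : ℤ), y, z] = m ![(a : ℤ), (b : ℤ), z] := by
    rcases hb with rfl | rfl
    · rfl
    · exact CB7_s1 h _ _ _
  have h3 : m ![(a : ℤ), (b : ℤ), z] = m ![(a : ℤ), (b : ℤ), (c : ℤ)] := by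
    rcases hc with rfl | rfl
    · rfl
    · exact CB7_s2 h _ _ _
  rw [h1, h2, h3]

theorem CB7_abs (h : WtSys 3 m) (w : Fin 3 → ℤ) :
    m w = CB7_N m (w 0).natAbs (w 1).natAbs (w 2).natAbs := by
  have e : w = ![w 0, w 1, w 2] := by
    ext i
    fin_cases i <;> rfl
  have h1 := CB7_abs' h (w 0) (w 1) (w 2)
  rw [← e] at h1
  exact h1

theorem CB7_p (h : WtSys 3 m) (x y z : ℕ) : CB7_N m x y z = CB7_N m y x z := by
  have h1 := h.perm ![(y : ℤ), (x : ℤ), (z : ℤ)] 0 1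
  have h2 : ![(y : ℤ), (x : ℤ), (z : ℤ)] ∘ Equiv.swap 0 1 = ![(x : ℤ), (y : ℤ), (z : ℤ)] := by
    ext i
    fin_cases i <;> rfl
  rw [h2] at h1
  exact h1

theorem CB7_q (h : WtSys 3 m) (x y z : ℕ) : CB7_N m x y z = CB7_N m x z y := by
  have h1 := h.perm ![(x : ℤ), (z : ℤ), (y : ℤ)] 1 2
  have h2 : ![(x : ℤ), (z : ℤ), (y : ℤ)] ∘ Equiv.swap 1 2 = ![(x : ℤ), (y : ℤ), (z : ℤ)] := by
    ext i
    fin_cases i <;> rfl
  rw [h2] at h1
  exact h1

theorem CB7_d2 (h : WtSys 3 m) (x y z : ℕ) : CB7_N m (x + 2) y z ≤ CB7_N m x y z := by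
  have h1 := h.dec2 ![((x + 2 : ℕ) : ℤ), (y : ℤ), (z : ℤ)] 0
    (by show (1 : ℤ) ≤ ((x + 2 : ℕ) : ℤ); omega)
  have h2 : ![((x + 2 : ℕ) : ℤ), (y : ℤ), (z : ℤ)] - Pi.single 0 2 =
      ![(x : ℤ), (y : ℤ), (z : ℤ)] := by
    ext i
    fin_cases i <;> simp
  rw [h2] at h1
  exact h1

theorem CB7_dp (h : WtSys 3 m) (x y z : ℕ) :
    CB7_N m (x + 1) (y + 1) z ≤ CB7_N m x y z := by
  have h1 := h.decp ![((x + 1 : ℕ) : ℤ), ((y + 1 : ℕ) : ℤ), (z : ℤ)] 0 1 (by decide)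
    (by show (1 : ℤ) ≤ ((x + 1 : ℕ) : ℤ) + ((y + 1 : ℕ) : ℤ); omega)
  have h2 : ![((x + 1 : ℕ) : ℤ), ((y + 1 : ℕ) : ℤ), (z : ℤ)] -
      (Pi.single 0 1 + Pi.single 1 1) = ![(x : ℤ), (y : ℤ), (z : ℤ)] := by
    ext i
    fin_cases i <;> simp
  rw [h2] at h1
  exact h1

theorem CB7_dm (h : WtSys 3 m) (x y z : ℕ) (hxy : y ≤ x) :
    CB7_N m (x + 1) y z ≤ CB7_N m x (y + 1) z := by
  have h1 := h.decm ![((x + 1 : ℕ) : ℤ), (y : ℤ), (z : ℤ)] 0 1 (by decide)
    (by show (1 : ℤ) ≤ ((x + 1 : ℕ) : ℤ) - (y : ℤ); omega)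
  have h2 : ![((x + 1 : ℕ) : ℤ), (y : ℤ), (z : ℤ)] -
      (Pi.single 0 1 - Pi.single 1 1) = ![(x : ℤ), ((y + 1 : ℕ) : ℤ), (z : ℤ)] := by
    ext i
    fin_cases i <;> simp
  rw [h2] at h1
  exact h1

theorem CB7_sort (P : ℕ → ℕ → ℕ → Prop) (hp : ∀ x y z, P x y z → P y x z)
    (hq : ∀ x y z, P x y z → P x z y) (h : ∀ x y z, y ≤ x → z ≤ y → P x y z) :
    ∀ x y z, P x y z := by
  intro x y z
  rcases Nat.le_total x y with h1 | h1 <;> rcases Nat.le_total y z with h2 | h2 <;>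
    rcases Nat.le_total x z with h3 | h3
  · exact hp _ _ _ (hq _ _ _ (hp _ _ _ (h z y x h2 h1)))
  · exact hp _ _ _ (hq _ _ _ (hp _ _ _ (h z y x h2 h1)))
  · exact hp _ _ _ (hq _ _ _ (h y z x h2 h3))
  · exact hp _ _ _ (h y x z h1 h3)
  · exact hq _ _ _ (hp _ _ _ (h z x y h3 h1))
  · exact hq _ _ _ (h x z y h3 h2)
  · exact h x y z h1 h2
  · exact h x y z h1 h2

/-- The sum of the absolute values. -/
def CB7_a (w : Fin 3 → ℤ) : ℕ := (w 0).natAbs + (w 1).natAbs + (w 2).natAbs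

/-- The sum of the squares. -/
def CB7_b (w : Fin 3 → ℤ) : ℕ := (w 0).natAbs ^ 2 + (w 1).natAbs ^ 2 + (w 2).natAbs ^ 2

/-- The vectors with entries at most `r`. -/
noncomputable def CB7_box (r : ℕ) : Finset (Fin 3 → ℤ) := Fintype.piFinset fun _ => Finset.Icc (-(r : ℤ)) r

theorem CB7_c17 : ((CB7_box 4).filter (fun w => (CB7_a w = 5 ∧ CB7_b w = 17) ∨
    (CB7_a w = 3 ∧ CB7_b w = 5) ∨ (CB7_a w = 3 ∧ CB7_b w = 3))).card = 56 := by
  decide +kernel

theorem CB7_c13 : ((CB7_box 4).filter (fun w => (CB7_a w = 5 ∧ CB7_b w = 13) ∨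
    (CB7_a w = 3 ∧ CB7_b w = 5) ∨ (CB7_a w = 3 ∧ CB7_b w = 3))).card = 56 := by
  decide +kernel

theorem CB7_c11 : ((CB7_box 4).filter (fun w => (CB7_a w = 5 ∧ CB7_b w = 11) ∨
    (CB7_a w = 3 ∧ CB7_b w = 5) ∨ (CB7_a w = 3 ∧ CB7_b w = 3))).card = 56 := by
  decide +kernel

theorem CB7_c9 : ((CB7_box 4).filter (fun w => (CB7_a w = 5 ∧ CB7_b w = 9) ∨
    (CB7_a w = 3 ∧ CB7_b w = 5) ∨ (CB7_a w = 3 ∧ CB7_b w = 3))).card = 56 := by
  decide +kernel

/-- All vectors with the same type. -/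
theorem CB7_type (h : WtSys 3 m) (a b x₀ y₀ z₀ : ℕ)
    (hu : ∀ x y z : ℕ, y ≤ x → z ≤ y → x + y + z = a → x ^ 2 + y ^ 2 + z ^ 2 = b →
      x = x₀ ∧ y = y₀ ∧ z = z₀) (w : Fin 3 → ℤ) (h1 : CB7_a w = a) (h2 : CB7_b w = b) :
    m w = CB7_N m x₀ y₀ z₀ := by
  have key : ∀ x y z : ℕ, x + y + z = a → x ^ 2 + y ^ 2 + z ^ 2 = b →
      CB7_N m x y z = CB7_N m x₀ y₀ z₀ := by
    refine CB7_sort _ ?_ ?_ ?_
    · intro x y z hP h3 h4
      rw [← hP (by omega) (by omega), CB7_p h]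
    · intro x y z hP h3 h4
      rw [← hP (by omega) (by omega), CB7_q h]
    · intro x y z h3 h4 h5 h6
      obtain ⟨e1, e2, e3⟩ := hu x y z h3 h4 h5 h6
      rw [e1, e2, e3]
  rw [CB7_abs h]
  exact key _ _ _ h1 h2

/-! ### The bounds -/

theorem CB7_ev {S : Finset (Fin 3 → ℤ)} (hB : WtBd 3 m S) :
    ∑ w ∈ S with Even (w 0), m w ≤ 26 := by
  have h1 := hB.even {0} (Finset.singleton_nonempty _) (by decide)
  have h2 : S.filter (fun w => Even (∑ l ∈ ({0} : Finset (Fin 3)), w l)) =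
      S.filter (fun w => Even (w 0)) := by
    ext w
    rw [Finset.mem_filter, Finset.mem_filter, Finset.sum_singleton]
  rw [h2] at h1
  have h3 : 2 * (3 * 3 + 4 * ((({0} : Finset (Fin 3)).card).choose 2 +
      (3 - ({0} : Finset (Fin 3)).card).choose 2)) = 26 := by decide
  rw [h3] at h1
  exact h1

theorem CB7_od {S : Finset (Fin 3 → ℤ)} (hB : WtBd 3 m S) :
    ∑ w ∈ S with ¬ Even (w 0), m w ≤ 26 := by
  have h1 := hB.odd {0} (Finset.singleton_nonempty _) (by decide)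
  have h2 : S.filter (fun w => ¬ Even (∑ l ∈ ({0} : Finset (Fin 3)), w l)) =
      S.filter (fun w => ¬ Even (w 0)) := by
    ext w
    rw [Finset.mem_filter, Finset.mem_filter, Finset.sum_singleton]
  rw [h2] at h1
  have h3 : 2 * (3 * 3 + 4 * ((({0} : Finset (Fin 3)).card).choose 2 +
      (3 - ({0} : Finset (Fin 3)).card).choose 2)) = 26 := by decide
  rw [h3] at h1
  exact h1

theorem CB7_tot {S : Finset (Fin 3 → ℤ)} (hB : WtBd 3 m S) : ∑ w ∈ S, m w ≤ 52 := by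
  have h1 := Finset.sum_filter_add_sum_filter_not S (fun w : Fin 3 → ℤ => Even (w 0)) m
  have h2 := CB7_ev hB
  have h3 := CB7_od hB
  omega

theorem CB7_no {S : Finset (Fin 3 → ℤ)} (hB : WtBd 3 m S) (c : ℕ)
    (hc : ((CB7_box 4).filter (fun w => (CB7_a w = 5 ∧ CB7_b w = c) ∨
      (CB7_a w = 3 ∧ CB7_b w = 5) ∨ (CB7_a w = 3 ∧ CB7_b w = 3))).card = 56)
    (h5 : ∀ w, CB7_a w = 5 → CB7_b w = c → m w ≠ 0)
    (h3 : ∀ w, CB7_a w = 3 → CB7_b w = 5 → m w ≠ 0)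
    (h3' : ∀ w, CB7_a w = 3 → CB7_b w = 3 → m w ≠ 0) : False := by
  have hne : ∀ w ∈ (CB7_box 4).filter (fun w => (CB7_a w = 5 ∧ CB7_b w = c) ∨
      (CB7_a w = 3 ∧ CB7_b w = 5) ∨ (CB7_a w = 3 ∧ CB7_b w = 3)), m w ≠ 0 := by
    intro w hw
    rw [Finset.mem_filter] at hw
    rcases hw.2 with h | h | h
    · exact h5 w h.1 h.2
    · exact h3 w h.1 h.2
    · exact h3' w h.1 h.2
  have h1 : 56 ≤ ∑ w ∈ (CB7_box 4).filter (fun w => (CB7_a w = 5 ∧ CB7_b w = c) ∨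
      (CB7_a w = 3 ∧ CB7_b w = 5) ∨ (CB7_a w = 3 ∧ CB7_b w = 3)), m w := by
    rw [← hc, Finset.card_eq_sum_ones]
    exact Finset.sum_le_sum fun w hw => Nat.one_le_iff_ne_zero.2 (hne w hw)
  have h2 := Finset.sum_le_sum_of_subset (f := m) (fun w hw => hB.supp w (hne w hw) :
    (CB7_box 4).filter (fun w => (CB7_a w = 5 ∧ CB7_b w = c) ∨
      (CB7_a w = 3 ∧ CB7_b w = 5) ∨ (CB7_a w = 3 ∧ CB7_b w = 3)) ⊆ S)
  have h4 := CB7_tot hB
  omega

theorem CB7_five (h : WtSys 3 m) {S : Finset (Fin 3 → ℤ)} (hB : WtBd 3 m S) :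
    ∀ x y z : ℕ, x + y + z = 5 → CB7_N m x y z = 0 := by
  have t3 : CB7_N m 2 1 0 ≠ 0 → (∀ w, CB7_a w = 3 → CB7_b w = 5 → m w ≠ 0) ∧
      ∀ w, CB7_a w = 3 → CB7_b w = 3 → m w ≠ 0 := by
    intro h1
    have h2 : CB7_N m 1 1 1 ≠ 0 := by
      have h3 : CB7_N m 2 0 1 ≤ CB7_N m 1 1 1 := CB7_dm h 1 0 1 (by norm_num)
      rw [← CB7_q h 2 1 0] at h3
      omega
    refine ⟨fun w ha hb => ?_, fun w ha hb => ?_⟩
    · rw [CB7_type h 3 5 2 1 0 ?_ w ha hb]
      · exact h1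
      · intro x y z e1 e2 e3 e4
        have : x ≤ 3 := by omega
        have hz : z = 3 - x - y := by omega
        subst hz
        interval_cases x <;> interval_cases y <;> simp_all
    · rw [CB7_type h 3 3 1 1 1 ?_ w ha hb]
      · exact h2
      · intro x y z e1 e2 e3 e4
        have : x ≤ 3 := by omega
        have hz : z = 3 - x - y := by omega
        subst hz
        interval_cases x <;> interval_cases y <;> simp_all
  have k41 : CB7_N m 4 1 0 = 0 := by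
    by_contra hcon
    have h1 : CB7_N m 4 1 0 ≤ CB7_N m 2 1 0 := CB7_d2 h 2 1 0
    obtain ⟨g1, g2⟩ := t3 (by omega)
    refine CB7_no hB 17 CB7_c17 (fun w ha hb => ?_) g1 g2
    rw [CB7_type h 5 17 4 1 0 ?_ w ha hb]
    · exact hcon
    · intro x y z e1 e2 e3 e4
      have : x ≤ 5 := by omega
      have hz : z = 5 - x - y := by omega
      subst hz
      interval_cases x <;> interval_cases y <;> simp_all
  have k32 : CB7_N m 3 2 0 = 0 := by
    by_contra hcon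
    have h1 : CB7_N m 3 2 0 ≤ CB7_N m 1 2 0 := CB7_d2 h 1 2 0
    rw [CB7_p h 1 2 0] at h1
    obtain ⟨g1, g2⟩ := t3 (by omega)
    refine CB7_no hB 13 CB7_c13 (fun w ha hb => ?_) g1 g2
    rw [CB7_type h 5 13 3 2 0 ?_ w ha hb]
    · exact hcon
    · intro x y z e1 e2 e3 e4
      have : x ≤ 5 := by omega
      have hz : z = 5 - x - y := by omega
      subst hz
      interval_cases x <;> interval_cases y <;> simp_all
  have k31 : CB7_N m 3 1 1 = 0 := by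
    by_contra hcon
    have h1 : CB7_N m 3 1 1 ≤ CB7_N m 2 0 1 := CB7_dp h 2 0 1
    rw [CB7_q h 2 0 1] at h1
    obtain ⟨g1, g2⟩ := t3 (by omega)
    refine CB7_no hB 11 CB7_c11 (fun w ha hb => ?_) g1 g2
    rw [CB7_type h 5 11 3 1 1 ?_ w ha hb]
    · exact hcon
    · intro x y z e1 e2 e3 e4
      have : x ≤ 5 := by omega
      have hz : z = 5 - x - y := by omega
      subst hz
      interval_cases x <;> interval_cases y <;> simp_all
  have k22 : CB7_N m 2 2 1 = 0 := by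
    by_contra hcon
    have h1 : CB7_N m 2 2 1 ≤ CB7_N m 0 2 1 := CB7_d2 h 0 2 1
    rw [CB7_p h 0 2 1, CB7_q h 2 0 1] at h1
    obtain ⟨g1, g2⟩ := t3 (by omega)
    refine CB7_no hB 9 CB7_c9 (fun w ha hb => ?_) g1 g2
    rw [CB7_type h 5 9 2 2 1 ?_ w ha hb]
    · exact hcon
    · intro x y z e1 e2 e3 e4
      have : x ≤ 5 := by omega
      have hz : z = 5 - x - y := by omega
      subst hz
      interval_cases x <;> interval_cases y <;> simp_all
  have k50 : CB7_N m 5 0 0 = 0 := by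
    have h1 : CB7_N m 5 0 0 ≤ CB7_N m 4 1 0 := CB7_dm h 4 0 0 (by norm_num)
    omega
  refine CB7_sort _ ?_ ?_ ?_
  · intro x y z hP h3
    rw [← hP (by omega), CB7_p h]
  · intro x y z hP h3
    rw [← hP (by omega), CB7_q h]
  · intro x y z h3 h4 h5
    have : x ≤ 5 := by omega
    have hz : z = 5 - x - y := by omega
    subst hz
    interval_cases x <;> interval_cases y <;> omega

theorem CB7_odd (hCB1 : Stmt_CB1) (h : WtSys 3 m) (x y z : ℕ) (he : (x + y + z) % 2 = 0) :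
    CB7_N m x y z = 0 := by
  by_contra hcon
  refine hCB1 3 m h _ hcon ?_
  rw [Fin.sum_univ_three]
  show Even ((x : ℤ) + (y : ℤ) + (z : ℤ))
  rw [Int.even_iff]
  omega

theorem CB7_big (hCB1 : Stmt_CB1) (h : WtSys 3 m) {S : Finset (Fin 3 → ℤ)}
    (hB : WtBd 3 m S) : ∀ n x y z : ℕ, x + y + z ≤ 5 + n → 5 ≤ x + y + z →
      CB7_N m x y z = 0 := by
  intro n
  induction n with
  | zero =>
    intro x y z h1 h2
    exact CB7_five h hB x y z (by omega)
  | succ n ih =>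
    refine CB7_sort _ ?_ ?_ ?_
    · intro x y z hP h3 h4
      rw [← hP (by omega) (by omega), CB7_p h]
    · intro x y z hP h3 h4
      rw [← hP (by omega) (by omega), CB7_q h]
    · intro x y z h3 h4 h5 h6
      rcases Nat.lt_or_ge (x + y + z) 6 with h7 | h7
      · exact CB7_five h hB x y z (by omega)
      · rcases Nat.even_or_odd (x + y + z) with h8 | h8
        · exact CB7_odd hCB1 h x y z (Nat.even_iff.1 h8)
        · have h9 := Nat.odd_iff.1 h8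
          obtain ⟨x', rfl⟩ : ∃ x', x = x' + 2 := ⟨x - 2, by omega⟩
          have h10 := ih x' y z (by omega) (by omega)
          have h11 := CB7_d2 h x' y z
          omega

/-- The possible weights. -/
noncomputable def CB7_T : Finset (Fin 3 → ℤ) :=
  (CB7_box 3).filter (fun w => CB7_a w = 1 ∨ CB7_a w = 3)

theorem CB7_memT (hCB1 : Stmt_CB1) (h : WtSys 3 m) {S : Finset (Fin 3 → ℤ)}
    (hB : WtBd 3 m S) (w : Fin 3 → ℤ) (hw : m w ≠ 0) : w ∈ CB7_T := by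
  rw [CB7_abs h] at hw
  have h1 : ¬ 5 ≤ CB7_a w := fun h2 =>
    hw (CB7_big hCB1 h hB (CB7_a w) _ _ _ (by unfold CB7_a; omega) h2)
  have h2 : ¬ CB7_a w % 2 = 0 := fun h3 => hw (CB7_odd hCB1 h _ _ _ h3)
  have h3 : CB7_a w = 1 ∨ CB7_a w = 3 := by omega
  unfold CB7_T CB7_box
  rw [Finset.mem_filter, Fintype.mem_piFinset]
  refine ⟨?_, h3⟩
  have h4 : CB7_a w = (w 0).natAbs + (w 1).natAbs + (w 2).natAbs := rfl
  intro i
  rw [Finset.mem_Icc]
  fin_cases i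
  · show -((3 : ℕ) : ℤ) ≤ w 0 ∧ w 0 ≤ ((3 : ℕ) : ℤ)
    omega
  · show -((3 : ℕ) : ℤ) ≤ w 1 ∧ w 1 ≤ ((3 : ℕ) : ℤ)
    omega
  · show -((3 : ℕ) : ℤ) ≤ w 2 ∧ w 2 ≤ ((3 : ℕ) : ℤ)
    omega

/-- The indicator functions of the four types. -/
def CB7_i (a b : ℕ) (w : Fin 3 → ℤ) : ℕ := if CB7_a w = a ∧ CB7_b w = b then 1 else 0

theorem CB7_bval (w : Fin 3 → ℤ) : (CB7_a w = 1 → CB7_b w = 1) ∧
    (CB7_a w = 3 → CB7_b w = 3 ∨ CB7_b w = 5 ∨ CB7_b w = 9) := by
  unfold CB7_a CB7_b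
  generalize (w 0).natAbs = x
  generalize (w 1).natAbs = y
  generalize (w 2).natAbs = z
  constructor
  · intro h
    have h1 : x ≤ 1 := by omega
    have h2 : y ≤ 1 := by omega
    have hz : z = 1 - x - y := by omega
    subst hz
    interval_cases x <;> interval_cases y <;> simp_all
  · intro h
    have h1 : x ≤ 3 := by omega
    have h2 : y ≤ 3 := by omega
    have hz : z = 3 - x - y := by omega
    subst hz
    interval_cases x <;> interval_cases y <;> simp_all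

theorem CB7_val (h : WtSys 3 m) (w : Fin 3 → ℤ) (hw : w ∈ CB7_T) :
    m w = CB7_i 1 1 w * CB7_N m 1 0 0 + CB7_i 3 3 w * CB7_N m 1 1 1 +
      CB7_i 3 5 w * CB7_N m 2 1 0 + CB7_i 3 9 w * CB7_N m 3 0 0 := by
  unfold CB7_T at hw
  rw [Finset.mem_filter] at hw
  obtain ⟨g1, g2⟩ := CB7_bval w
  rcases hw.2 with ha | ha
  · have hb := g1 ha
    rw [CB7_type h 1 1 1 0 0 ?_ w ha hb]
    · simp [CB7_i, ha, hb]
    · intro x y z e1 e2 e3 e4
      omega
  · rcases g2 ha with hb | hb | hb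
    · rw [CB7_type h 3 3 1 1 1 ?_ w ha hb]
      · simp [CB7_i, ha, hb]
      · intro x y z e1 e2 e3 e4
        have : x ≤ 3 := by omega
        have hz : z = 3 - x - y := by omega
        subst hz
        interval_cases x <;> interval_cases y <;> simp_all
    · rw [CB7_type h 3 5 2 1 0 ?_ w ha hb]
      · simp [CB7_i, ha, hb]
      · intro x y z e1 e2 e3 e4
        have : x ≤ 3 := by omega
        have hz : z = 3 - x - y := by omega
        subst hz
        interval_cases x <;> interval_cases y <;> simp_all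
    · rw [CB7_type h 3 9 3 0 0 ?_ w ha hb]
      · simp [CB7_i, ha, hb]
      · intro x y z e1 e2 e3 e4
        have : x ≤ 3 := by omega
        have hz : z = 3 - x - y := by omega
        subst hz
        interval_cases x <;> interval_cases y <;> simp_all

theorem CB7_sum (h : WtSys 3 m) (F : Finset (Fin 3 → ℤ)) (hF : F ⊆ CB7_T)
    (n₁ n₂ n₃ n₄ : ℕ) (h1 : ∑ w ∈ F, CB7_i 1 1 w = n₁) (h2 : ∑ w ∈ F, CB7_i 3 3 w = n₂)
    (h3 : ∑ w ∈ F, CB7_i 3 5 w = n₃) (h4 : ∑ w ∈ F, CB7_i 3 9 w = n₄) :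
    ∑ w ∈ F, m w = n₁ * CB7_N m 1 0 0 + n₂ * CB7_N m 1 1 1 + n₃ * CB7_N m 2 1 0 +
      n₄ * CB7_N m 3 0 0 := by
  rw [Finset.sum_congr rfl fun w hw => CB7_val h w (hF hw), Finset.sum_add_distrib,
    Finset.sum_add_distrib, Finset.sum_add_distrib, ← Finset.sum_mul, ← Finset.sum_mul,
    ← Finset.sum_mul, ← Finset.sum_mul, h1, h2, h3, h4]

theorem CB7_eqT (hCB1 : Stmt_CB1) (h : WtSys 3 m) {S : Finset (Fin 3 → ℤ)}
    (hB : WtBd 3 m S) (p : (Fin 3 → ℤ) → Prop) [DecidablePred p] :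
    ∑ w ∈ S with p w, m w = ∑ w ∈ CB7_T with p w, m w := by
  classical
  have h1 : ∑ w ∈ S with p w, m w = ∑ w ∈ S ∪ CB7_T with p w, m w := by
    refine Finset.sum_subset (Finset.filter_subset_filter _ Finset.subset_union_left) ?_
    intro w hw hn
    rw [Finset.mem_filter] at hw hn
    by_contra hcon
    exact hn ⟨hB.supp w hcon, hw.2⟩
  have h2 : ∑ w ∈ CB7_T with p w, m w = ∑ w ∈ S ∪ CB7_T with p w, m w := by
    refine Finset.sum_subset (Finset.filter_subset_filter _ Finset.subset_union_right) ?_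
    intro w hw hn
    rw [Finset.mem_filter] at hw hn
    by_contra hcon
    exact hn ⟨CB7_memT hCB1 h hB w hcon, hw.2⟩
  rw [h1, h2]

end

theorem p_CB7 (hCB1 : Stmt_CB1) : Stmt_CB7 := by
  intro m S h hB
  have h1 := CB7_ev hB
  have h2 := CB7_od hB
  have h3 := Finset.sum_filter_add_sum_filter_not S (fun w : Fin 3 → ℤ => Even (w 0)) m
  rw [CB7_eqT hCB1 h hB] at h1 h2
  rw [CB7_eqT hCB1 h hB (fun w : Fin 3 → ℤ => Even (w 0)),
    CB7_eqT hCB1 h hB (fun w : Fin 3 → ℤ => ¬ Even (w 0))] at h3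
  have h4 := CB7_sum h (CB7_T.filter (fun w : Fin 3 → ℤ => Even (w 0)))
    (Finset.filter_subset _ _) 4 0 16 4 (by decide +kernel) (by decide +kernel)
    (by decide +kernel) (by decide +kernel)
  have h5 := CB7_sum h (CB7_T.filter (fun w : Fin 3 → ℤ => ¬ Even (w 0)))
    (Finset.filter_subset _ _) 2 8 8 2 (by decide +kernel) (by decide +kernel)
    (by decide +kernel) (by decide +kernel)
  rw [h4] at h1 h3
  rw [h5] at h2 h3
  generalize CB7_N m 1 0 0 = a at *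
  generalize CB7_N m 1 1 1 = b at *
  generalize CB7_N m 2 1 0 = c at *
  generalize CB7_N m 3 0 0 = e at *
  omega

end MPa8bd83
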