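/-
MP_a8bd83_gt, part 6, block CBF: assembly of the combinatorics of the weights.
Typed by helper96.
-/
import Pool.Agent.Work.MP_a8bd83_qk.Interface6

set_option autoImplicit false

namespace MPa8bd83

open Module

theorem CBF_two (k : ℕ) : 2 * (k + 1).choose 2 = (k + 1) * k := by
  induction k with
  | zero => rfl
  | succ k ih =>
    have h : (k + 1 + 1).choose 2 = (k + 1).choose 1 + (k + 1).choose 2 :=
      Nat.choose_succ_succ (k + 1) 1
    rw [h, mul_add, ih, Nat.choose_one_right]
    ring

theorem CBF_three (k : ℕ) : 6 * (k + 2).choose 3 = (k + 2) * (k + 1) * k := by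
  induction k with
  | zero => rfl
  | succ k ih =>
    have h : (k + 1 + 2).choose 3 = (k + 2).choose 2 + (k + 2).choose 3 :=
      Nat.choose_succ_succ (k + 2) 2
    have h2 := CBF_two (k + 1)
    have h3 : (k + 1 + 1) = k + 2 := rfl
    rw [h3] at h2
    rw [h, mul_add, ih]
    have h4 : 6 * (k + 2).choose 2 = 3 * (2 * (k + 2).choose 2) := by ring
    rw [h4, h2]
    ring

theorem CBF_even (k : ℕ) (hk : 3 ≤ k) :
    4 * (3 * (2 * k) + 4 * (k.choose 2 + (2 * k - k).choose 2)) <
      8 * (2 * k).choose 3 + 2 * (2 * k) := by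
  obtain ⟨j, rfl⟩ := Nat.exists_eq_add_of_le hk
  have h1 : 2 * (3 + j) - (3 + j) = 3 + j := by omega
  have h2 : 2 * (3 + j).choose 2 = (3 + j) * (2 + j) := by
    have := CBF_two (2 + j)
    rw [show 2 + j + 1 = 3 + j by ring] at this
    exact this
  have h3 : 6 * (2 * (3 + j)).choose 3 = (2 * j + 6) * (2 * j + 5) * (2 * j + 4) := by
    have := CBF_three (2 * j + 4)
    rw [show 2 * j + 4 + 2 = 2 * (3 + j) by ring] at this
    rw [this]
    ring
  rw [h1]
  nlinarith [h2, h3, Nat.zero_le (j * j), Nat.zero_le (j * j * j), Nat.zero_le j]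

theorem CBF_odd (k : ℕ) (hk : 3 ≤ k) :
    4 * (3 * (2 * k + 1) + 4 * (k.choose 2 + (2 * k + 1 - k).choose 2)) <
      8 * (2 * k + 1).choose 3 + 2 * (2 * k + 1) := by
  obtain ⟨j, rfl⟩ := Nat.exists_eq_add_of_le hk
  have h1 : 2 * (3 + j) + 1 - (3 + j) = 4 + j := by omega
  have h2 : 2 * (3 + j).choose 2 = (3 + j) * (2 + j) := by
    have := CBF_two (2 + j)
    rw [show 2 + j + 1 = 3 + j by ring] at this
    exact this
  have h2' : 2 * (4 + j).choose 2 = (4 + j) * (3 + j) := by
    have := CBF_two (3 + j)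
    rw [show 3 + j + 1 = 4 + j by ring] at this
    exact this
  have h3 : 6 * (2 * (3 + j) + 1).choose 3 = (2 * j + 7) * (2 * j + 6) * (2 * j + 5) := by
    have := CBF_three (2 * j + 5)
    rw [show 2 * j + 5 + 2 = 2 * (3 + j) + 1 by ring] at this
    rw [this]
    ring
  rw [h1]
  nlinarith [h2, h2', h3, Nat.zero_le (j * j), Nat.zero_le (j * j * j), Nat.zero_le j]

theorem CBF_all (n : ℕ) (hn : 6 ≤ n) :
    4 * (3 * n + 4 * ((n / 2).choose 2 + (n - n / 2).choose 2)) <
      8 * n.choose 3 + 2 * n := by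
  rcases Nat.even_or_odd' n with ⟨k, hk | hk⟩
  · have h1 : n / 2 = k := by omega
    rw [h1, hk]
    exact CBF_even k (by omega)
  · have h1 : n / 2 = k := by omega
    rw [h1, hk]
    exact CBF_odd k (by omega)

theorem p_CBF (hCB2 : Stmt_CB2) (hCB3 : Stmt_CB3) (hCB4 : Stmt_CB4) (hCB5 : Stmt_CB5) :
    Stmt_CBF := by
  intro n m S hW hB hn
  by_cases hall : ∀ w, m w ≠ 0 → (∑ l, (w l).natAbs) = 1
  · refine (hCB4 n m S hW hB hn hall).trans ?_
    refine Nat.mul_le_mul_left 2 (Nat.mul_le_mul_left n ?_)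
    omega
  · obtain ⟨w, hw0, hw1⟩ : ∃ w, m w ≠ 0 ∧ (∑ l, (w l).natAbs) ≠ 1 := by
      by_contra hne
      exact hall fun w hw => by
        by_contra h
        exact hne ⟨w, hw, h⟩
    have htri := hCB2 n m hW (by omega) w hw0 hw1
    rcases Nat.lt_or_ge n 6 with h5 | h6
    · have h5' : n = 5 := by omega
      subst h5'
      exact (hCB5 m S hW hB htri).trans (by norm_num)
    · exfalso
      have hlow := hCB3 n m S hW hB (by omega) htri
      obtain ⟨I, -, hIc⟩ := Finset.exists_subset_card_eq
        (s := (Finset.univ : Finset (Fin n))) (n := n / 2)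
        (by rw [Finset.card_univ, Fintype.card_fin]; omega)
      have hIne : I.Nonempty := by
        rw [← Finset.card_pos, hIc]
        omega
      have hIun : I ≠ Finset.univ := by
        intro h
        rw [h, Finset.card_univ, Fintype.card_fin] at hIc
        omega
      have he := hB.even I hIne hIun
      have ho := hB.odd I hIne hIun
      rw [hIc] at he ho
      have hs := Finset.sum_filter_add_sum_filter_not S (fun w => Even (∑ l ∈ I, w l)) m
      have hlt := CBF_all n h6
      omega

end MPa8bd83
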