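/-
MP_a8bd83_gt (LeBrun-Salamon): smooth quaternionic Kaehler quotients of HP^(N-1).
Definitions (helper41, helper77).

V is a finite dimensional complex inner product space with a quaternionic structure J
(antilinear, J J = -1, <Jx, Jy> = <y, x>), i.e. V = H^N; the quaternionic line of x is
span_C (x, J x).  sp(V) = skew-adjoint operators commuting with J.
Mathlib's inner product is antilinear in the first variable.
-/
import Mathlib

namespace MPa8bd83

open Module

/-- `J` is a quaternionic structure on the complex inner product space `V`. -/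
structure IsQuatStr {V : Type} [NormedAddCommGroup V] [InnerProductSpace ℂ V] (J : V → V) :
    Prop where
  add : ∀ x y, J (x + y) = J x + J y
  smul : ∀ (c : ℂ) (x : V), J (c • x) = (starRingEnd ℂ c) • J x
  sq : ∀ x, J (J x) = -x
  inner : ∀ x y, inner ℂ (J x) (J y) = inner ℂ y x

/-- `ξ` belongs to the Lie algebra `sp(V)`: skew-adjoint and commuting with `J`. -/
structure IsSp {V : Type} [NormedAddCommGroup V] [InnerProductSpace ℂ V] (J : V → V)
    (ξ : V →L[ℂ] V) : Prop where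
  skew : ∀ x y, inner ℂ (ξ x) y = - inner ℂ x (ξ y)
  comm : ∀ x, ξ (J x) = J (ξ x)

/-- `k` is a real Lie subalgebra of `sp(V)`. -/
structure IsLieSub {V : Type} [NormedAddCommGroup V] [InnerProductSpace ℂ V] (J : V → V)
    (k : Submodule ℝ (V →L[ℂ] V)) : Prop where
  sp : ∀ ξ ∈ k, IsSp J ξ
  lie : ∀ ξ ∈ k, ∀ η ∈ k, ξ * η - η * ξ ∈ k

/-- `x` is a zero of the quaternionic (hyperkaehler) moment map of `k`: the quaternion
`x* ξ x`, whose components are `<x, ξ x>` and `<J x, ξ x>`, vanishes for all `ξ` in `k`. -/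
def MomentZero {V : Type} [NormedAddCommGroup V] [InnerProductSpace ℂ V] (J : V → V)
    (k : Submodule ℝ (V →L[ℂ] V)) (x : V) : Prop :=
  ∀ ξ ∈ k, inner ℂ x (ξ x) = 0 ∧ inner ℂ (J x) (ξ x) = 0

/-- The group `exp k`, modulo `±1`, acts freely on the set of the quaternionic lines spanned
by the zeros of the moment map. -/
def FreeOnZeros {V : Type} [NormedAddCommGroup V] [InnerProductSpace ℂ V] (J : V → V)
    (k : Submodule ℝ (V →L[ℂ] V)) : Prop :=
  ∀ x : V, x ≠ 0 → MomentZero J k x → ∀ ξ ∈ k,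
    NormedSpace.exp ξ x ∈ Submodule.span ℂ {x, J x} →
      NormedSpace.exp ξ = 1 ∨ NormedSpace.exp ξ = -1

/-- `k` acts by quaternionic scalars: in a quaternionic orthonormal basis `e` (that is,
`e` together with `J e` is orthonormal) every `ξ` of `k` has the same quaternion on the
diagonal. -/
def ActsByScalars {V : Type} [NormedAddCommGroup V] [InnerProductSpace ℂ V] (N : ℕ)
    (J : V → V) (k : Submodule ℝ (V →L[ℂ] V)) : Prop :=
  ∃ e : Fin N → V, Orthonormal ℂ (Sum.elim e (fun n => J (e n))) ∧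
    ∃ (a : (V →L[ℂ] V) → ℝ) (b : (V →L[ℂ] V) → ℂ), ∀ ξ ∈ k, ∀ n,
      ξ (e n) = ((a ξ : ℂ) * Complex.I) • e n + b ξ • J (e n)

/-- `t` is a maximal abelian subalgebra of `k`. -/
structure MaxAb {V : Type} [NormedAddCommGroup V] [InnerProductSpace ℂ V]
    (k t : Submodule ℝ (V →L[ℂ] V)) : Prop where
  le : t ≤ k
  comm : ∀ ξ ∈ t, ∀ η ∈ t, ξ * η = η * ξ
  max : ∀ η ∈ k, (∀ ξ ∈ t, ξ * η = η * ξ) → η ∈ t

/-- The weight space `V_w = {v : ξ v = i w(ξ) v for all ξ in t}`. -/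
def Wt {V : Type} [NormedAddCommGroup V] [InnerProductSpace ℂ V]
    (t : Submodule ℝ (V →L[ℂ] V)) (w : Dual ℝ t) : Submodule ℂ V where
  carrier := {v | ∀ ξ : t, (ξ : V →L[ℂ] V) v = ((w ξ : ℂ) * Complex.I) • v}
  add_mem' := by
    intro a b ha hb ξ
    rw [map_add, ha ξ, hb ξ, smul_add]
  zero_mem' := by
    intro ξ
    simp
  smul_mem' := by
    intro c x hx ξ
    rw [map_smul, hx ξ, smul_comm]

/-- The complexification `k + i k`. -/
def kC {V : Type} [NormedAddCommGroup V] [InnerProductSpace ℂ V]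
    (k : Submodule ℝ (V →L[ℂ] V)) : Submodule ℂ (V →L[ℂ] V) :=
  Submodule.span ℂ (k : Set (V →L[ℂ] V))

/-- The root space `k_α = {E in k_C : [ξ, E] = i α(ξ) E for all ξ in t}` (`α = 0` allowed). -/
def Rt {V : Type} [NormedAddCommGroup V] [InnerProductSpace ℂ V]
    (k t : Submodule ℝ (V →L[ℂ] V)) (α : Dual ℝ t) : Submodule ℂ (V →L[ℂ] V) where
  carrier := {E | E ∈ kC k ∧ ∀ ξ : t, (ξ : V →L[ℂ] V) * E - E * (ξ : V →L[ℂ] V)
    = ((α ξ : ℂ) * Complex.I) • E}
  add_mem' := by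
    rintro a b ⟨ha, ha'⟩ ⟨hb, hb'⟩
    refine ⟨add_mem ha hb, fun ξ => ?_⟩
    rw [smul_add, ← ha' ξ, ← hb' ξ, mul_add, add_mul]
    abel
  zero_mem' := ⟨zero_mem _, fun ξ => by simp⟩
  smul_mem' := by
    rintro c x ⟨hx, hx'⟩
    refine ⟨Submodule.smul_mem _ _ hx, fun ξ => ?_⟩
    rw [smul_comm, ← hx' ξ, smul_sub, mul_smul_comm, smul_mul_assoc]

/-- `α` is a root. -/
def IsRoot {V : Type} [NormedAddCommGroup V] [InnerProductSpace ℂ V]
    (k t : Submodule ℝ (V →L[ℂ] V)) (α : Dual ℝ t) : Prop :=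
  α ≠ 0 ∧ Rt k t α ≠ ⊥

/-- `w` is a weight of `V`. -/
def IsWt {V : Type} [NormedAddCommGroup V] [InnerProductSpace ℂ V]
    (t : Submodule ℝ (V →L[ℂ] V)) (w : Dual ℝ t) : Prop :=
  Wt t w ≠ ⊥

/-- A family of unit weight vectors on which no element of a root space (including
`k_0 = t_C`) has a nonzero matrix coefficient, except the diagonal ones of `t_C`.
Every combination `∑ √c_i e_i` with `∑ c_i w_i = 0` is then a zero of the moment map. -/
structure Admissible {V : Type} [NormedAddCommGroup V] [InnerProductSpace ℂ V] (J : V → V)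
    (k t : Submodule ℝ (V →L[ℂ] V)) {ι : Type} (w : ι → Dual ℝ t) (e : ι → V) : Prop where
  mem : ∀ i, e i ∈ Wt t (w i)
  norm : ∀ i, ‖e i‖ = 1
  diff : ∀ i j, i ≠ j → ∀ X ∈ Rt k t (w i - w j), inner ℂ (e i) (X (e j)) = 0
  sum : ∀ i j, ∀ X ∈ Rt k t (-(w i + w j)), inner ℂ (J (e i)) (X (e j)) = 0

/-- `V` in coordinates: `H^N = C^N ⊕ C^N`. -/
abbrev HSp (N : ℕ) : Type := EuclideanSpace ℂ (Fin N ⊕ Fin N)

/-- The quaternionic structure of `H^N`: `J (a, b) = (- conj b, conj a)`. -/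
noncomputable def Jq {N : ℕ} (x : HSp N) : HSp N :=
  WithLp.toLp 2 (Sum.elim (fun n => - (starRingEnd ℂ (x (Sum.inr n))))
    (fun n => starRingEnd ℂ (x (Sum.inl n))))

end MPa8bd83
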