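/-
MP_a8bd83_gt (LeBrun-Salamon), smooth quaternionic Kaehler quotients of HP^(N-1): CORE.
Statements with complete proofs (helper41; the theorem is by helper41 and helper77).
One block = one file `B_XXX.lean` proving `Stmt_XXX` (theorem `XXX : Stmt_XXX`), importing only
this file.  A block may use the Stmt of another block as a hypothesis ONLY where it is written
in the statement.  Notation: t in k maximal abelian, r = finrank t, V_w = Wt t w,
k_α = Rt k t α, k_C = kC k.  Mathlib's inner product is linear in the SECOND variable.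
-/
import Pool.Agent.Work.MP_a8bd83_qk.Defs

namespace MPa8bd83

open Module

/-- MXA.  Maximal abelian subalgebras exist.
Proof: V →L[ℂ] V is finite dimensional over ℝ.  Among the subspaces t ≤ k whose elements
commute pairwise (⊥ is one) choose one of maximal finrank.  If η in k commutes with t then
t ⊔ span η is again commutative and ≤ k, so its finrank is ≤ that of t, hence η ∈ t. -/
def Stmt_MXA : Prop :=
  ∀ (V : Type) [NormedAddCommGroup V] [InnerProductSpace ℂ V] [FiniteDimensional ℂ V]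
    (k : Submodule ℝ (V →L[ℂ] V)), ∃ t, MaxAb k t

/-- WTD.  Weight decomposition.  t is a commuting real space of skew-adjoint operators.
Proof: T ξ = - i ξ (ξ : t) are pairwise commuting symmetric operators, so
`LinearMap.IsSymmetric.iSup_iInf_eq_top_of_commute` (ι = t) gives ⨆ over χ : t → ℂ of the joint
eigenspaces = ⊤.  If the joint eigenspace of χ is nonzero then χ is real valued and real linear
(apply both sides to a nonzero vector), so it is `Wt t w` with w = χ.  Finiteness: nonzero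
pairwise orthogonal subspaces of a finite dimensional space are finite in number
(`OrthogonalFamily.independent`, `iSupIndep` + finite dimension).  Last part: dimension of an
internal direct sum indexed by the finset s (the other summands are ⊥). -/
def Stmt_WTD : Prop :=
  ∀ (V : Type) [NormedAddCommGroup V] [InnerProductSpace ℂ V] [FiniteDimensional ℂ V]
    (t : Submodule ℝ (V →L[ℂ] V)),
    (∀ ξ ∈ t, ∀ x y : V, inner ℂ (ξ x) y = - inner ℂ x (ξ y)) →
    (∀ ξ ∈ t, ∀ η ∈ t, ξ * η = η * ξ) →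
    (⨆ w, Wt t w = ⊤) ∧ {w : Dual ℝ t | IsWt t w}.Finite ∧
      ∀ s : Finset (Dual ℝ t), (∀ w, IsWt t w → w ∈ s) →
        finrank ℂ V = ∑ w ∈ s, finrank ℂ (Wt t w)

/-- WTO.  Elementary facts on weight spaces.  Proofs: (1) for ξ with w ξ ≠ w' ξ compute
⟨ξ u, v⟩ = -⟨u, ξ v⟩: conj(i w ξ)⟨u,v⟩ = - i w' ξ ⟨u,v⟩, so (w ξ - w' ξ)⟨u,v⟩ = 0 (w ξ, w' ξ are
real).  (2) ξ J v = J ξ v = J (i w v) = - i w J v.  (3) from (2) and J J = -1: J is an
antilinear bijection V_w → V_(-w), it maps a ℂ-basis to a ℂ-basis.  (4) ξ X v = X ξ v + i α X v. -/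
def Stmt_WTO : Prop :=
  ∀ (V : Type) [NormedAddCommGroup V] [InnerProductSpace ℂ V] [FiniteDimensional ℂ V]
    (J : V → V) (k t : Submodule ℝ (V →L[ℂ] V)),
    IsQuatStr J → (∀ ξ ∈ t, IsSp J ξ) →
    (∀ w w' : Dual ℝ t, w ≠ w' → ∀ u ∈ Wt t w, ∀ v ∈ Wt t w', inner ℂ u v = 0) ∧
    (∀ w : Dual ℝ t, ∀ v ∈ Wt t w, J v ∈ Wt t (-w)) ∧
    (∀ w : Dual ℝ t, finrank ℂ (Wt t (-w)) = finrank ℂ (Wt t w)) ∧
    (∀ w α : Dual ℝ t, ∀ X ∈ Rt k t α, ∀ v ∈ Wt t w, X v ∈ Wt t (w + α))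

/-- RTD.  Root decomposition of k_C.
Proof: for ξ in t the operator ad ξ : X ↦ ξ X - X ξ maps kC k into itself (on k because k is a
Lie algebra and t ≤ k, then by ℂ-linearity).  The ad ξ commute pairwise.  ad ξ is semisimple
on V →L V with eigenvalues in iℝ: V is the sum of the V_w (Stmt_WTD), and for the orthogonal
projections P_w (or a basis of weight vectors) the operators P_w' X P_w are eigenvectors of
ad ξ with eigenvalue i (w'-w) ξ, and X is their sum.  So the eigenspaces of ad ξ restricted to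
the invariant finite dimensional subspace kC k span it (`Submodule.eq_iSup_inf_genEigenspace`
or restriction of a semisimple operator), and by commutation the joint eigenspaces on kC k
span it (`Module.End.iSup_iInf_maxGenEigenspace_eq_top_of_iSup_maxGenEigenspace_eq_top_of_commute`).
A nonzero joint eigenspace has an eigenvalue function of the form i α, α in Dual ℝ t.
ALTERNATIVE: ad ξ is skew-adjoint for the inner product tr(A* B); or use a single ξ_0 in t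
which separates the finitely many differences w'-w: E_α := sum of P_w' X P_w over w'-w = α is a
polynomial in ad ξ_0 applied to X, so it lies in kC k. -/
def Stmt_RTD : Prop :=
  ∀ (V : Type) [NormedAddCommGroup V] [InnerProductSpace ℂ V] [FiniteDimensional ℂ V]
    (J : V → V) (k t : Submodule ℝ (V →L[ℂ] V)),
    IsQuatStr J → IsLieSub J k → MaxAb k t → Stmt_WTD → kC k = ⨆ α, Rt k t α

/-- RTZ.  k_0 = t_C, and real and imaginary parts: every X in kC k is ξ + i η with ξ, η in k,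
uniquely (k ∩ ik = 0 since an operator which is skew-adjoint and i times skew-adjoint is 0).
Proof of k_0 ≤ t_C: X = ξ + i η in k_0 commutes with every τ in t:
[τ,ξ] + i [τ,η] = 0 with [τ,ξ], [τ,η] in k (skew-adjoint), so both vanish (unique
decomposition) and ξ, η in t by maximality.  Conversely t_C ≤ kC k commutes with t. -/
def Stmt_RTZ : Prop :=
  ∀ (V : Type) [NormedAddCommGroup V] [InnerProductSpace ℂ V] [FiniteDimensional ℂ V]
    (J : V → V) (k t : Submodule ℝ (V →L[ℂ] V)),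
    IsQuatStr J → IsLieSub J k → MaxAb k t →
    Rt k t 0 = kC t ∧
    (∀ X ∈ kC k, ∃ ξ ∈ k, ∃ η ∈ k, X = ξ + Complex.I • η) ∧
    (∀ ξ ∈ k, ∀ η ∈ k, ξ + Complex.I • η = 0 → ξ = 0 ∧ η = 0)

/-- RTF.  Number of roots.  Proof: the Rt k t α, α distinct, are independent (eigenspaces of the
ad ξ), so {α : Rt ≠ ⊥} is finite and finrank ℂ (kC k) ≥ finrank ℂ (Rt k t 0) + s.card; by RTZ
(hypothesis) finrank ℂ (kC k) = finrank ℝ k (a real basis of k is a complex basis of kC k) and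
finrank ℂ (Rt k t 0) = finrank ℂ (kC t) = finrank ℝ t. -/
def Stmt_RTF : Prop :=
  ∀ (V : Type) [NormedAddCommGroup V] [InnerProductSpace ℂ V] [FiniteDimensional ℂ V]
    (J : V → V) (k t : Submodule ℝ (V →L[ℂ] V)),
    IsQuatStr J → IsLieSub J k → MaxAb k t → Stmt_RTZ →
    {α : Dual ℝ t | IsRoot k t α}.Finite ∧
      ∀ s : Finset (Dual ℝ t), (∀ α ∈ s, IsRoot k t α) → finrank ℝ t + s.card ≤ finrank ℝ k

/-- RSY.  Adjoints and the symmetric form B_X(u,v) = ⟨J u, X v⟩.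
Proofs: all three statements are (anti)linear in X, and true for X in k: adjoint ξ = - ξ.
(1) X in Rt α: adjoint X is in kC k, and taking adjoints of [ξ,X] = i α X gives
[X*, -ξ] = - i α X*, i.e. [ξ, X*] = ... = - i α(ξ) X*.
(2) ⟨J u, ξ v⟩ = -⟨ξ J u, v⟩ = -⟨J ξ u, v⟩ = ⟨J ξ u, J J v⟩ = ⟨J v, ξ u⟩; both sides are
ℂ-linear in X.
(3) ξ in k: J ξ v = ξ J v = -(adjoint ξ) J v; both sides are antilinear in X. -/
def Stmt_RSY : Prop :=
  ∀ (V : Type) [NormedAddCommGroup V] [InnerProductSpace ℂ V] [FiniteDimensional ℂ V]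
    [CompleteSpace V] (J : V → V) (k t : Submodule ℝ (V →L[ℂ] V)),
    IsQuatStr J → IsLieSub J k → t ≤ k →
    (∀ X ∈ kC k, ContinuousLinearMap.adjoint X ∈ kC k) ∧
    (∀ α : Dual ℝ t, ∀ X ∈ Rt k t α, ContinuousLinearMap.adjoint X ∈ Rt k t (-α)) ∧
    (∀ X ∈ kC k, ∀ u v : V, inner ℂ (J u) (X v) = inner ℂ (J v) (X u)) ∧
    (∀ X ∈ kC k, ∀ v : V, J (X v) = - (ContinuousLinearMap.adjoint X) (J v)) ∧
    (∀ α : Dual ℝ t, IsRoot k t α → IsRoot k t (-α))

/-- HEI.  The coroot direction of a root vector.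
Proof: write E' = adjoint E.  H = E E' - E' E is in kC k (kC k is closed under brackets, by
bilinearity), in Rt 0 = kC t (RTZ), and self-adjoint, so H = ξ + i η with ξ, η in t, ξ = 0
(self-adjoint part), H = - i η_0 with η_0 = - η.  For τ in t: tr(H τ) = tr(E E' τ - E' E τ)
= tr(E' τ E - E' E τ) = tr(E' [τ,E]) = i α(τ) tr(E' E), and tr(E'E) > 0 (E ≠ 0).
Take τ = η_0 = i H: i tr(H H) = i α(η_0) tr(E'E); H ≠ 0 because there is τ with α(τ) ≠ 0,
so tr(H H) = tr(H* H) > 0 and α(η_0) > 0. -/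
def Stmt_HEI : Prop :=
  ∀ (V : Type) [NormedAddCommGroup V] [InnerProductSpace ℂ V] [FiniteDimensional ℂ V]
    [CompleteSpace V] (J : V → V) (k t : Submodule ℝ (V →L[ℂ] V)),
    IsQuatStr J → IsLieSub J k → MaxAb k t → Stmt_RTZ → Stmt_RSY →
    ∀ (α : Dual ℝ t) (E : V →L[ℂ] V), α ≠ 0 → E ∈ Rt k t α → E ≠ 0 →
      ∃ η : t, E * ContinuousLinearMap.adjoint E - ContinuousLinearMap.adjoint E * E
          = - (Complex.I • (η : V →L[ℂ] V)) ∧ 0 < α η

/-- ONE.  Root spaces are one dimensional.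
Proof: replace F by F - c E with tr(E' F) = 0 (E' = adjoint E, c = tr(E'F)/tr(E'E)); show F = 0.
[F, E'] is in Rt 0 = kC t; for T in kC t, tr([F,E'] T) = tr(E' [T,F]) and [T,F] is a multiple of
F, so it is 0; take T = adjoint [F,E'] (in kC t): [F,E'] = 0.  Let G = [E,F] = EF - FE.  Then
tr(G* G) = tr of G* (EF - FE) = ... = ⟨F, [E', G]⟩ (trace form) and
[E',[E,F]] = [[E',E],F] + [E,[E',F]] = -[H,F] = -α(η) F with H = [E,E'] = - i η as in HEI,
so tr(G*G) = - α(η) tr(F*F) with α(η) > 0: F = 0. -/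
def Stmt_ONE : Prop :=
  ∀ (V : Type) [NormedAddCommGroup V] [InnerProductSpace ℂ V] [FiniteDimensional ℂ V]
    [CompleteSpace V] (J : V → V) (k t : Submodule ℝ (V →L[ℂ] V)),
    IsQuatStr J → IsLieSub J k → MaxAb k t → Stmt_RTZ → Stmt_RSY → Stmt_HEI →
    ∀ (α : Dual ℝ t) (E F : V →L[ℂ] V), α ≠ 0 → E ∈ Rt k t α → E ≠ 0 → F ∈ Rt k t α →
      ∃ c : ℂ, F = c • E

/-- ZER.  Admissible families give zeros of the moment map.
Proof: x = ∑ √c_i e_i.  By RTD it is enough to show ⟨x, X x⟩ = 0 = ⟨J x, X x⟩ for X in Rt α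
(both are ℂ-linear in X, k ≤ kC k).  X e_j ∈ V_(w_j + α) (WTO (4)).  ⟨e_i, X e_j⟩ = 0 unless
w_i = w_j + α; if this holds and i ≠ j it is 0 by `diff`; if i = j then α = 0 and X is in
Rt 0 = kC t.  So ⟨x, X x⟩ = 0 for α ≠ 0, and for α = 0 it is ∑ c_i ⟨e_i, X e_i⟩, ℂ-linear in X,
equal to i ∑ c_i w_i(ξ) = 0 for X = ξ in t.  J e_i ∈ V_(-w_i): ⟨J e_i, X e_j⟩ = 0 unless
-w_i = w_j + α, and then it is 0 by `sum`. -/
def Stmt_ZER : Prop :=
  ∀ (V : Type) [NormedAddCommGroup V] [InnerProductSpace ℂ V] [FiniteDimensional ℂ V]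
    (J : V → V) (k t : Submodule ℝ (V →L[ℂ] V)),
    IsQuatStr J → IsLieSub J k → MaxAb k t → Stmt_WTD → Stmt_WTO → Stmt_RTD → Stmt_RTZ →
    ∀ (ι : Type) [Fintype ι] (w : ι → Dual ℝ t) (e : ι → V) (c : ι → ℝ),
      Admissible J k t w e → (∀ i, 0 < c i) → ∑ i, c i • w i = 0 →
      MomentZero J k (∑ i, ((Real.sqrt (c i) : ℝ) : ℂ) • e i)

/-- EXP.  Exponentials on weight vectors.
Proof: (1) on an eigenvector exp ξ v = exp(eigenvalue) v (`NormedSpace.exp` series, or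
`NormedSpace.exp` of a continuous linear map applied to an eigenvector).
(2) choose v ≠ 0 in V_w: exp(i w ξ) = ±1, so w ξ ∈ π ℤ. -/
def Stmt_EXP : Prop :=
  ∀ (V : Type) [NormedAddCommGroup V] [InnerProductSpace ℂ V] [FiniteDimensional ℂ V]
    (t : Submodule ℝ (V →L[ℂ] V)),
    (∀ (ξ : t) (w : Dual ℝ t), ∀ v ∈ Wt t w,
      NormedSpace.exp (ξ : V →L[ℂ] V) v = Complex.exp ((w ξ : ℂ) * Complex.I) • v) ∧
    (∀ ξ : t, (NormedSpace.exp (ξ : V →L[ℂ] V) = 1 ∨ NormedSpace.exp (ξ : V →L[ℂ] V) = -1) →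
      ∀ w : Dual ℝ t, IsWt t w → ∃ n : ℤ, w ξ = n * Real.pi)

/-- LIN.  No line of t fixes the class of a zero.
Proof: for all real s, exp(s η) = ±1 (FreeOnZeros; s η ∈ k), so by EXP (2) s w(η) ∈ πℤ for all s
and all weights w; hence w(η) = 0 for all weights w, η kills every V_w, η = 0 by WTD. -/
def Stmt_LIN : Prop :=
  ∀ (V : Type) [NormedAddCommGroup V] [InnerProductSpace ℂ V] [FiniteDimensional ℂ V]
    (J : V → V) (k t : Submodule ℝ (V →L[ℂ] V)),
    IsQuatStr J → IsLieSub J k → MaxAb k t → FreeOnZeros J k → Stmt_WTD → Stmt_EXP →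
    ∀ (x : V), x ≠ 0 → MomentZero J k x → ∀ η : t,
      (∀ s : ℝ, ∃ c : ℂ, NormedSpace.exp ((s • η : t) : V →L[ℂ] V) x = c • x) → η = 0

/-- BAR.  Barycentric coordinates are ≥ 1/2.
Proof: x = ∑ √c_i e_i is a zero (hypothesis), x ≠ 0 (the e_i are orthogonal? not needed: if
x = 0 use hypothesis `x ≠ 0`).  Fix i0.  (a) The differences w_i - w_i0 span Dual ℝ t:
otherwise there is η ≠ 0 in t with (w_i - w_i0) η = 0 for all i (dual coannihilator), and
exp(s η) x = exp(i s w_i0(η)) x for all s, contradiction with LIN.  So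
finrank t ≤ card ι - 1, with card ι ≤ finrank t + 1 equality, and the w_i - w_i0 (i ≠ i0) are a
basis.  (b) Let i ≠ i0 (exists if finrank t ≥ 1) and take ξ in t with (w_j - w_i0) ξ = 2π if
j = i and 0 for j ≠ i (dual basis).  Then exp ξ x = exp(i w_i0 ξ) x (exp(2πi) = 1), so
exp ξ = ±1 and w_i0 ξ ∈ πℤ (e_i0 ≠ 0, so w_i0 is a weight).  Evaluate ∑ c_j w_j = 0 at ξ:
w_i0 ξ + 2π c_i = 0 (∑ c_j = 1).  So 2 c_i is a positive integer, c_i ≥ 1/2.  Since i0 ≠ i was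
arbitrary this holds for every i. -/
def Stmt_BAR : Prop :=
  ∀ (V : Type) [NormedAddCommGroup V] [InnerProductSpace ℂ V] [FiniteDimensional ℂ V]
    (J : V → V) (k t : Submodule ℝ (V →L[ℂ] V)),
    IsQuatStr J → IsLieSub J k → MaxAb k t → FreeOnZeros J k → Stmt_WTD → Stmt_EXP → Stmt_LIN →
    ∀ (ι : Type) [Fintype ι] (w : ι → Dual ℝ t) (e : ι → V) (c : ι → ℝ),
      (∀ i, e i ∈ Wt t (w i)) → (∀ i, e i ≠ 0) → (∀ i, 0 < c i) → ∑ i, c i = 1 →
      ∑ i, c i • w i = 0 → 1 ≤ finrank ℝ t → Fintype.card ι ≤ finrank ℝ t + 1 →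
      ∑ i, ((Real.sqrt (c i) : ℝ) : ℂ) • e i ≠ 0 →
      MomentZero J k (∑ i, ((Real.sqrt (c i) : ℝ) : ℂ) • e i) →
      Fintype.card ι = finrank ℝ t + 1 ∧ ∀ i, 1 / 2 ≤ c i

/-- FLP.  An admissible family stays admissible when some (w_i, e_i) are replaced by
(-w_i, J e_i).  Proof: ‖J e‖ = ‖e‖, J V_w = V_(-w) (WTO).  Conditions for the new family, by
cases on the signs of i and j, using (RSY) ⟨J u, X v⟩ = ⟨J v, X u⟩, J J = -1 and
⟨u, X v⟩ = conj ⟨v, X* u⟩, X* ∈ Rt(-α):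
diff, i ≠ j: (+,+) old diff; (-,+): X ∈ Rt(-w_i-w_j), ⟨J e_i, X e_j⟩ old sum;
(+,-): X ∈ Rt(w_i+w_j), ⟨e_i, X J e_j⟩ = conj ⟨J e_j, X* e_i⟩, X* ∈ Rt(-(w_j+w_i)) old sum;
(-,-): X ∈ Rt(w_j-w_i), ⟨J e_i, X J e_j⟩ = ⟨J J e_j, X e_i⟩ = -⟨e_j, X e_i⟩ old diff.
sum: (+,+) old; (-,+): X ∈ Rt(w_i-w_j), ⟨J J e_i, X e_j⟩ = -⟨e_i, X e_j⟩ (i ≠ j here) old diff;
(+,-): X ∈ Rt(-w_i+w_j), ⟨J e_i, X J e_j⟩ = -⟨e_j, X e_i⟩ (i ≠ j) old diff;
(-,-): X ∈ Rt(w_i+w_j), ⟨J J e_i, X J e_j⟩ = -conj ⟨J e_j, X* e_i⟩ old sum (i = j allowed). -/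
def Stmt_FLP : Prop :=
  ∀ (V : Type) [NormedAddCommGroup V] [InnerProductSpace ℂ V] [FiniteDimensional ℂ V]
    [CompleteSpace V] (J : V → V) (k t : Submodule ℝ (V →L[ℂ] V)),
    IsQuatStr J → IsLieSub J k → MaxAb k t → Stmt_WTO → Stmt_RSY →
    ∀ (ι : Type) (w : ι → Dual ℝ t) (e : ι → V) (σ : ι → Bool),
      Admissible J k t w e →
      Admissible J k t (fun i => if σ i then w i else - w i)
        (fun i => if σ i then e i else J (e i))

/-- COC.  In rank ≥ 2 an admissible family has at most r members.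
Proof: suppose card ι = r + 1.  The r + 1 vectors w_i of the r-dimensional space Dual ℝ t are
linearly dependent: ∑ g_i w_i = 0, not all g_i zero.  ι' = {i : g_i ≠ 0}; flip the signs of those
with g_i < 0 (FLP, restricted to the subtype ι'; a subfamily of an admissible family is
admissible): c_i = |g_i| / ∑ |g| > 0, ∑ c_i = 1, ∑ c_i w'_i = 0.  By ZER the vector
x = ∑ √c_i e'_i is a zero; x ≠ 0: its inner product with e'_i0 is √c_i0 (for i ≠ j,
⟨e'_i, e'_j⟩ = 0: if w'_i ≠ w'_j by WTO, if w'_i = w'_j then either some ξ in t has w'_i ξ ≠ 0 and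
`diff` with X = ξ ∈ Rt 0 gives i w'_i(ξ)⟨e'_i,e'_j⟩ = 0, or w'_i = 0, and then V_0 ≠ 0, which
Stmt_VZE excludes).  BAR: card ι' = r + 1 and all c_i ≥ 1/2, so ∑ c_i ≥ (r+1)/2 > 1. -/
def Stmt_COC : Prop :=
  ∀ (V : Type) [NormedAddCommGroup V] [InnerProductSpace ℂ V] [FiniteDimensional ℂ V]
    [CompleteSpace V] (J : V → V) (k t : Submodule ℝ (V →L[ℂ] V)),
    IsQuatStr J → IsLieSub J k → MaxAb k t → FreeOnZeros J k →
    (∀ w : Dual ℝ t, IsWt t w → w ≠ 0) →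
    Stmt_WTD → Stmt_WTO → Stmt_RTD → Stmt_RTZ → Stmt_RSY → Stmt_ZER → Stmt_EXP → Stmt_LIN →
    Stmt_BAR → Stmt_FLP → 2 ≤ finrank ℝ t →
    ∀ (ι : Type) [Fintype ι] (w : ι → Dual ℝ t) (e : ι → V),
      Admissible J k t w e → Fintype.card ι ≤ finrank ℝ t

/-- VZE.  0 is not a weight (r ≥ 1).
Proof: a unit vector e in V_0 is a zero: by RTD, ⟨e, X e⟩ and ⟨J e, X e⟩ vanish for X in Rt α,
α ≠ 0 (X e ∈ V_α, e, J e ∈ V_0) and for X in Rt 0 = kC t (X e = 0).  exp ξ e = e for all ξ in t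
(EXP with w = 0), so every η in t satisfies the hypothesis of LIN: t = 0. -/
def Stmt_VZE : Prop :=
  ∀ (V : Type) [NormedAddCommGroup V] [InnerProductSpace ℂ V] [FiniteDimensional ℂ V]
    (J : V → V) (k t : Submodule ℝ (V →L[ℂ] V)),
    IsQuatStr J → IsLieSub J k → MaxAb k t → FreeOnZeros J k →
    Stmt_WTD → Stmt_WTO → Stmt_RTD → Stmt_RTZ → Stmt_EXP → Stmt_LIN → 1 ≤ finrank ℝ t →
    ∀ w : Dual ℝ t, IsWt t w → w ≠ 0

/-- PRZ.  Pairs in one weight space.  u, v orthonormal in V_w with B_X(u,u) = B_X(u,v) =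
B_X(v,v) = 0 for X in k_(-2w): then r ≤ 1.
Proof: x = u + J v ≠ 0 (w ≠ 0, so V_w and V_(-w) are orthogonal).  J x = J u - v.
x is a zero: by RTD take X in Rt α.  α = 0: X in kC t, for ξ in t: ⟨x, ξ x⟩ =
i w(ξ)(⟨u,u⟩ - ⟨Jv,Jv⟩) = 0 and ⟨J x, ξ x⟩ = ⟨J u - v, i w(ξ)(u - J v)⟩
= - i w(ξ)(⟨J u, J v⟩ + ⟨v, u⟩) = - 2 i w(ξ) ⟨v,u⟩ = 0.  α ≠ 0: X u ∈ V_(w+α), X J v ∈ V_(-w+α),
x, J x ∈ V_w + V_(-w), so only α = -2w and α = 2w matter (and not both, w ≠ 0).
α = -2w: ⟨x, X x⟩ = ⟨J v, X u⟩ = 0, ⟨J x, X x⟩ = ⟨J u, X u⟩ = 0.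
α = 2w: X* ∈ k_(-2w); ⟨x, X x⟩ = ⟨u, X J v⟩ = conj ⟨J v, X* u⟩ = 0,
⟨J x, X x⟩ = -⟨v, X J v⟩ = - conj ⟨J v, X* v⟩ = 0.
If r ≥ 2 there is η ≠ 0 in t with w(η) = 0, and exp(s η) x = x: contradiction with LIN. -/
def Stmt_PRZ : Prop :=
  ∀ (V : Type) [NormedAddCommGroup V] [InnerProductSpace ℂ V] [FiniteDimensional ℂ V]
    [CompleteSpace V] (J : V → V) (k t : Submodule ℝ (V →L[ℂ] V)),
    IsQuatStr J → IsLieSub J k → MaxAb k t → FreeOnZeros J k →
    Stmt_WTD → Stmt_WTO → Stmt_RTD → Stmt_RTZ → Stmt_RSY → Stmt_EXP → Stmt_LIN →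
    ∀ (w : Dual ℝ t) (u v : V), w ≠ 0 → u ∈ Wt t w → v ∈ Wt t w → ‖u‖ = 1 → ‖v‖ = 1 →
      inner ℂ u v = 0 →
      (∀ X ∈ Rt k t (-(w + w)), inner ℂ (J u) (X u) = 0 ∧ inner ℂ (J v) (X u) = 0 ∧
        inner ℂ (J v) (X v) = 0) →
      finrank ℝ t ≤ 1

/-- ISP.  Isotropic vectors and planes of one symmetric form (pure linear algebra).
Proof: (1) U of dimension ≥ 2, a, b independent: if B(a,a) = 0 take a, otherwise
B(b + z a, b + z a) = B(b,b) + 2 z B(a,b) + z^2 B(a,a) has a root z; b + z a ≠ 0; normalise.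
(2) U of dimension ≥ 4: u a unit isotropic vector of U (1); U' = {v ∈ U : B(u,v) = 0, ⟨u,v⟩ = 0}
has dimension ≥ 2; v a unit isotropic vector of U' (1).
(3) U of dimension ≥ 3 and a linear form φ: kernel in U has dimension ≥ 2, apply (1). -/
def Stmt_ISP : Prop :=
  ∀ (V : Type) [NormedAddCommGroup V] [InnerProductSpace ℂ V] [FiniteDimensional ℂ V]
    (B : V → V → ℂ), (∀ u v, B u v = B v u) → (∀ u v v', B u (v + v') = B u v + B u v') →
    (∀ (c : ℂ) (u v : V), B u (c • v) = c * B u v) →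
    (∀ U : Submodule ℂ V, 2 ≤ finrank ℂ U → ∃ u ∈ U, ‖u‖ = 1 ∧ B u u = 0) ∧
    (∀ U : Submodule ℂ V, 4 ≤ finrank ℂ U → ∃ u ∈ U, ∃ v ∈ U, ‖u‖ = 1 ∧ ‖v‖ = 1 ∧
      inner ℂ u v = 0 ∧ B u u = 0 ∧ B u v = 0 ∧ B v v = 0) ∧
    (∀ (U : Submodule ℂ V) (φ : V →ₗ[ℂ] ℂ), 3 ≤ finrank ℂ U →
      ∃ u ∈ U, ‖u‖ = 1 ∧ φ u = 0 ∧ B u u = 0)

/-- HLF.  In rank ≥ 2: dim V_w ≤ 3, and ≤ 1 if 2w is not a root.
Proof: w ≠ 0 if w is a weight (hypothesis).  If 2w is not a root, Rt(-(w+w)) = ⊥ (RSY) and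
two orthonormal vectors of V_w would contradict PRZ.  If 2w is a root, Rt(-(w+w)) is spanned by
one X_0 (ONE), B(u,v) = ⟨J u, X_0 v⟩ is a symmetric bilinear form on V (RSY; linear in the
second variable, hence in both); ISP (2) on V_w if its dimension is ≥ 4, then PRZ. -/
def Stmt_HLF : Prop :=
  ∀ (V : Type) [NormedAddCommGroup V] [InnerProductSpace ℂ V] [FiniteDimensional ℂ V]
    [CompleteSpace V] (J : V → V) (k t : Submodule ℝ (V →L[ℂ] V)),
    IsQuatStr J → IsLieSub J k → MaxAb k t → FreeOnZeros J k →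
    (∀ w : Dual ℝ t, IsWt t w → w ≠ 0) →
    Stmt_WTD → Stmt_WTO → Stmt_RTD → Stmt_RTZ → Stmt_RSY → Stmt_HEI → Stmt_ONE → Stmt_EXP →
    Stmt_LIN → Stmt_PRZ → Stmt_ISP → 2 ≤ finrank ℝ t →
    ∀ w : Dual ℝ t, finrank ℂ (Wt t w) ≤ 3 ∧
      (¬ IsRoot k t (w + w) → finrank ℂ (Wt t w) ≤ 1)

/-- USE.  Usable weights: 2w not a root, or dim V_w ≥ 2.
Proof: w a weight, w ≠ 0.  If 2w is not a root then Rt(-(w+w)) = ⊥ (RSY) and any unit vector
works.  If 2w is a root and dim V_w ≥ 2: Rt(-(w+w)) is spanned by one X_0 (ONE); ISP (1). -/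
def Stmt_USE : Prop :=
  ∀ (V : Type) [NormedAddCommGroup V] [InnerProductSpace ℂ V] [FiniteDimensional ℂ V]
    [CompleteSpace V] (J : V → V) (k t : Submodule ℝ (V →L[ℂ] V)),
    IsQuatStr J → IsLieSub J k → MaxAb k t → Stmt_RTZ → Stmt_RSY → Stmt_HEI → Stmt_ONE →
    Stmt_ISP → ∀ w : Dual ℝ t, w ≠ 0 → IsWt t w →
      (¬ IsRoot k t (w + w) ∨ 2 ≤ finrank ℂ (Wt t w)) →
      ∃ e ∈ Wt t w, ‖e‖ = 1 ∧ ∀ X ∈ Rt k t (-(w + w)), inner ℂ (J e) (X e) = 0

/-- GRE.  Greedy choice (pure combinatorics).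
Proof: induction on m.  m = 0: S is nonempty, take one element.  Step: choose x in S with f x
maximal; remove x and its neighbours in S, at most p + 1 elements (all remaining elements have
f ≤ f x); the rest has more than (p+1) m elements, take T' of card m + 1 in it and add x. -/
def Stmt_GRE : Prop :=
  ∀ (X : Type) [DecidableEq X] (f : X → ℝ) (adj : X → X → Prop) (p : ℕ),
    (∀ x y, adj x y → adj y x) →
    ∀ (m : ℕ) (S : Finset X),
      (∀ x ∈ S, ∀ T : Finset X, T ⊆ S → (∀ y ∈ T, y ≠ x ∧ adj x y ∧ f y ≤ f x) → T.card ≤ p) →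
      (p + 1) * m < S.card →
      ∃ T ⊆ S, T.card = m + 1 ∧ ∀ x ∈ T, ∀ y ∈ T, x ≠ y → ¬ adj x y

/-- GEN.  A generic direction.
Proof: a real vector space is not a finite union of proper subspaces (kernels of the φ in s),
e.g. `Module.Dual.exists_forall_mem_ne_zero_of_forall_exists` or
`Subspace.biUnion_ne_univ_of_top_notMem`. -/
def Stmt_GEN : Prop :=
  ∀ (W : Type) [AddCommGroup W] [Module ℝ W] [FiniteDimensional ℝ W]
    (s : Finset (Dual ℝ W)), (∀ φ ∈ s, φ ≠ 0) → ∃ x : W, ∀ φ ∈ s, φ x ≠ 0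

/-- USC.  The number of usable positive weights is at most r (p + 1), p = number of positive
roots.  Here h is a generic element of t.
Proof: let S be a finset of usable weights, positive at h.  adj w w' := w - w' or w' - w or
w + w' is a root.  Neighbours w' of w in S with w' h ≤ w h: if w' - w = β is a root then
β h < 0 (≤ 0 and ≠ 0), w' = w + β; if w + w' = β is a root, it is positive and
w' = -(w + (-β)).  So with α = β resp. -β, a root with α h < 0, w' is w + α or -(w + α), only one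
of which is positive at h: w' is determined by α and the number of neighbours is at most the
number of roots negative at h, = p (RSY).  If S.card > r (p+1), GRE gives r + 1 pairwise
nonadjacent usable weights of S, choose unit vectors e_w (usable); the family is admissible:
diff: w ≠ w', w - w' ≠ 0 not a root, Rt = ⊥; sum: w ≠ w' : w + w' ≠ 0 (positive at h) not a
root, so Rt(-(w+w')) = ⊥; w = w': usable.  Contradiction with COC. -/
def Stmt_USC : Prop :=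
  ∀ (V : Type) [NormedAddCommGroup V] [InnerProductSpace ℂ V] [FiniteDimensional ℂ V]
    [CompleteSpace V] (J : V → V) (k t : Submodule ℝ (V →L[ℂ] V)),
    IsQuatStr J → IsLieSub J k → MaxAb k t → FreeOnZeros J k →
    (∀ w : Dual ℝ t, IsWt t w → w ≠ 0) →
    Stmt_RSY → Stmt_GRE →
    (∀ (ι : Type) [Fintype ι] (w : ι → Dual ℝ t) (e : ι → V),
      Admissible J k t w e → Fintype.card ι ≤ finrank ℝ t) →
    ∀ (h : t) (p : ℕ), (∀ α : Dual ℝ t, IsRoot k t α → α h ≠ 0) →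
      (∀ s : Finset (Dual ℝ t), (∀ α ∈ s, IsRoot k t α ∧ 0 < α h) → s.card ≤ p) →
      ∀ S : Finset (Dual ℝ t), (∀ w ∈ S, 0 < w h ∧ ∃ e ∈ Wt t w, ‖e‖ = 1 ∧
        ∀ X ∈ Rt k t (-(w + w)), inner ℂ (J e) (X e) = 0) →
      S.card ≤ finrank ℝ t * (p + 1)

/-! ### Rank one -/

/-- `k = ℝ η`. -/
def U1Data {V : Type} [NormedAddCommGroup V] [InnerProductSpace ℂ V] (J : V → V)
    (k : Submodule ℝ (V →L[ℂ] V)) (η : V →L[ℂ] V) : Prop :=
  η ∈ k ∧ IsSp J η ∧ η ≠ 0 ∧ ∀ ξ ∈ k, ∃ a : ℝ, ξ = a • η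

/-- `k_C` is spanned by the `sl_2`-triple `(- i η, E, E*)`, `η ∈ k`. -/
def SU2Data {V : Type} [NormedAddCommGroup V] [InnerProductSpace ℂ V] [CompleteSpace V]
    (J : V → V) (k : Submodule ℝ (V →L[ℂ] V)) (η E : V →L[ℂ] V) : Prop :=
  η ∈ k ∧ IsSp J η ∧ E ∈ kC k ∧ E ≠ 0 ∧ η * E - E * η = (2 * Complex.I) • E ∧
    E * ContinuousLinearMap.adjoint E - ContinuousLinearMap.adjoint E * E
      = - (Complex.I • η) ∧
    (∀ u v : V, inner ℂ (J u) (E v) = inner ℂ (J v) (E u)) ∧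
    (∀ v : V, J (E v) = - (ContinuousLinearMap.adjoint E) (J v)) ∧
    ∀ ξ ∈ k, ∃ (a : ℝ) (b c : ℂ), ξ = a • η + b • E + c • ContinuousLinearMap.adjoint E

/-- RK1.  Rank one algebras.  finrank t = 1 ⟹ U1Data or SU2Data.
Proof: Dual ℝ t is one dimensional.  (A) No roots: kC k = Rt 0 = kC t (RTD, RTZ), every ξ in k
commutes with t, so k = t = ℝ η.  (B) There are roots: RTF (finite); fix h ∈ t with α h ≠ 0;
functionals are determined by their value at h; let α be the root with α h maximal (> 0),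
E ∈ Rt α nonzero, E' = adjoint E, η_E from HEI: H = [E,E'] = - i η_E, α(η_E) > 0; then
[H, F] = β(η_E) F for F ∈ Rt β, and β(η_E) has the sign of β h.
Norm identity: ‖[E,F]‖² - ‖[E',F]‖² = - β(η_E) ‖F‖² for F ∈ Rt β (‖·‖² = tr(X* X);
[E',[E,F]] - [E,[E',F]] = -[H,F]).
Let F ≠ 0 in Rt β, β h > 0, β ≠ α.  [E,F] ∈ Rt(α+β) = ⊥ (α maximal).  So G = [E',F] has
‖G‖² = β(η_E)‖F‖² > 0, G ∈ Rt(β-α), β - α is a root, negative.  [E',G] ∈ Rt(β-2α) = ⊥ (its value
at h is < -α h).  So ‖[E,G]‖² = (α-β)(η_E) ‖G‖².  And [E,G] = [E,[E',F]] = [H,F] + [E',[E,F]]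
= β(η_E) F.  Hence β(η_E)² = (α-β)(η_E) β(η_E), β(η_E) = (α-β)(η_E), so α = 2β.
Then with F in the role of E: η_F, H_F = [F,F'], α(η_F) > 0, [F,E] ∈ Rt(α+β) = ⊥,
G' = [F',E] ∈ Rt(α-β) = Rt β, so G' = μ F (ONE) and 0 = [F,G'] = [[F,F'],E] + [F',[F,E]]
= [H_F,E] = α(η_F) E ≠ 0, a contradiction.  So the roots are ±α.  Scale E by a positive real
such that α(η_E) = 2 (H scales by the square): η = η_E.  kC k = kC t + Rt α + Rt(-α)
(RTD, RTZ), t = ℝ η, Rt α = ℂ E, Rt(-α) = ℂ E' (ONE).  For ξ in k: ξ = z η + b E + c E', z ∈ ℂ;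
z is real: adjoint ξ = -ξ gives z real by independence of η, E, E' (different root spaces). -/
def Stmt_RK1 : Prop :=
  ∀ (V : Type) [NormedAddCommGroup V] [InnerProductSpace ℂ V] [FiniteDimensional ℂ V]
    [CompleteSpace V] (J : V → V) (k t : Submodule ℝ (V →L[ℂ] V)),
    IsQuatStr J → IsLieSub J k → MaxAb k t →
    Stmt_WTD → Stmt_RTD → Stmt_RTZ → Stmt_RTF → Stmt_RSY → Stmt_HEI → Stmt_ONE →
    finrank ℝ t = 1 →
    (∃ η, U1Data J k η) ∨ (∃ η E, SU2Data J k η E)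

/-- EV1.  Eigenvalues of one skew-adjoint η commuting with J (rank one; no t here).
The eigenspaces {v : η v = i a v}, a real, span V, are pairwise orthogonal, J maps that of a to
that of -a; exp on an eigenvector; if exp(s η) = ±1 then s a ∈ πℤ for every eigenvalue a.
Proofs as in WTD, WTO, EXP (finite dimensional spectral theorem for the symmetric - i η). -/
def Stmt_EV1 : Prop :=
  ∀ (V : Type) [NormedAddCommGroup V] [InnerProductSpace ℂ V] [FiniteDimensional ℂ V]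
    (J : V → V) (η : V →L[ℂ] V), IsQuatStr J → IsSp J η →
    (∀ x : V, x ∈ Submodule.span ℂ {v : V | ∃ a : ℝ, η v = ((a : ℂ) * Complex.I) • v}) ∧
    (∀ (a b : ℝ) (u v : V), a ≠ b → η u = ((a : ℂ) * Complex.I) • u →
      η v = ((b : ℂ) * Complex.I) • v → inner ℂ u v = 0) ∧
    (∀ (a : ℝ) (v : V), η v = ((a : ℂ) * Complex.I) • v →
      η (J v) = (((-a : ℝ) : ℂ) * Complex.I) • J v) ∧
    (∀ (a s : ℝ) (v : V), η v = ((a : ℂ) * Complex.I) • v →
      NormedSpace.exp (s • η) v = Complex.exp (((s * a : ℝ) : ℂ) * Complex.I) • v) ∧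
    (∀ s : ℝ, (NormedSpace.exp (s • η) = 1 ∨ NormedSpace.exp (s • η) = -1) →
      ∀ (a : ℝ) (v : V), v ≠ 0 → η v = ((a : ℂ) * Complex.I) • v → ∃ n : ℤ, s * a = n * Real.pi)

/-- U1W.  k = ℝ η free: all eigenvalues of η are ± a, a > 0.
Proof: 0 is not an eigenvalue: a unit e with η e = 0 is a zero (⟨e, η e⟩ = 0 = ⟨Je, η e⟩) and
exp(s η) e = e for all s, so exp(s η) = ±1, s a ∈ πℤ for all s and all eigenvalues a, all
eigenvalues are 0 and η = 0.  Let a ≠ b be positive eigenvalues (J makes them positive), e, f unit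
eigenvectors; x = √b e + √a J f is a zero: ⟨x, η x⟩ = i (b a - a b) = 0 (e ⟂ J f), J x = √b J e
- √a f, η x = i (a √b e - b √a J f), ⟨J e, e⟩ = 0 (a ≠ -a), ⟨J e, J f⟩ = ⟨f, e⟩ = 0, ⟨f, e⟩ = 0,
⟨f, J f⟩ = 0.  With s = 2π/(a+b): exp(s η) x = exp(i s a) x (s a = 2π - s b), so
s a = nπ, 2a/(a+b) = n, 0 < 2a/(a+b) < 2, n = 1, a = b. -/
def Stmt_U1W : Prop :=
  ∀ (V : Type) [NormedAddCommGroup V] [InnerProductSpace ℂ V] [FiniteDimensional ℂ V]
    (J : V → V) (k : Submodule ℝ (V →L[ℂ] V)) (η : V →L[ℂ] V),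
    IsQuatStr J → U1Data J k η → FreeOnZeros J k → Stmt_EV1 →
    ∃ a : ℝ, 0 < a ∧ ∀ (b : ℝ) (v : V), v ≠ 0 → η v = ((b : ℂ) * Complex.I) • v →
      b = a ∨ b = -a

/-- SLZ.  Eigenvalues of η in SU2Data: integers; and the basic strings.
Proof: H = - i η = [E, E'], [H,E] = 2E, [H,E'] = -2E' (E' = adjoint E).  `H v = a v`.
(1) E v has eigenvalue a + 2, E' v has eigenvalue a - 2.
(2) norm identity ‖E' v‖² = ‖E v‖² + a ‖v‖² (from ⟨H v, v⟩ = a ‖v‖²), so for a > 0 and v ≠ 0,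
E' v ≠ 0.
(3) integrality: apply E to v until it dies (eigenvalues are finite in number): highest vector
of eigenvalue m = a + 2j; then E E'^(n+1) v0 = (n+1)(m - n) E'^n v0, E'^n v0 must vanish for
some n, so m is a natural number (or `IsSl2Triple.HasPrimitiveVectorWith.exists_nat`). -/
def Stmt_SLZ : Prop :=
  ∀ (V : Type) [NormedAddCommGroup V] [InnerProductSpace ℂ V] [FiniteDimensional ℂ V]
    [CompleteSpace V] (J : V → V) (k : Submodule ℝ (V →L[ℂ] V)) (η E : V →L[ℂ] V),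
    IsQuatStr J → SU2Data J k η E →
    ∀ (a : ℝ) (v : V), v ≠ 0 → η v = ((a : ℂ) * Complex.I) • v →
      (∃ n : ℤ, a = n) ∧
      η (E v) = (((a + 2 : ℝ) : ℂ) * Complex.I) • E v ∧
      η ((ContinuousLinearMap.adjoint E) v)
        = (((a - 2 : ℝ) : ℂ) * Complex.I) • (ContinuousLinearMap.adjoint E) v ∧
      (0 < a → (ContinuousLinearMap.adjoint E) v ≠ 0)

/-- SZC.  Zero criterion in SU2Data.  Proof: ξ = a η + b E + c E' and linearity; for E' use
⟨x, E' x⟩ = conj ⟨x, E x⟩ (adjoint). -/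
def Stmt_SZC : Prop :=
  ∀ (V : Type) [NormedAddCommGroup V] [InnerProductSpace ℂ V] [FiniteDimensional ℂ V]
    [CompleteSpace V] (J : V → V) (k : Submodule ℝ (V →L[ℂ] V)) (η E : V →L[ℂ] V),
    IsQuatStr J → SU2Data J k η E → ∀ x : V,
      inner ℂ x (η x) = 0 → inner ℂ (J x) (η x) = 0 → inner ℂ x (E x) = 0 →
      inner ℂ (J x) (E x) = 0 → inner ℂ (J x) ((ContinuousLinearMap.adjoint E) x) = 0 →
      MomentZero J k x

/-- SU2W.  SU2Data, free, finrank V = 2N with N ≥ 5: all eigenvalues of η are ±1.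
Proof.  (a) 0 is not an eigenvalue: a unit e in the kernel of η is a zero (E e, E' e have
eigenvalues ±2, η e = 0; SZC) fixed by exp(s η); then exp(s η) = ±1 for all s, all eigenvalues
are 0, η = 0, so E = 0 (2iE = [η,E]), contradiction.  (b) all eigenvalues are odd integers: for an
even eigenvalue n > 0 (J: sign) E' moves it down to n-2, ..., 0 (SLZ), contradiction to (a).
(c) dim V_n ≤ 1 for n ≥ 3 (V_n the eigenspace): e, e' orthonormal in V_n, x = e + J e' is a zero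
(eigenvalues n, -n; E shifts by 2, 2n ≥ 6, so all E, E' terms vanish; η-terms as in PRZ);
exp((π/n) η) x = - x, so exp((π/n) η) = ±1, but 1 is an eigenvalue (n odd, go down by E') and
(π/n) · 1 ∉ πℤ.  (d) 7 is not an eigenvalue (then no n ≥ 7, going down): otherwise 3 is one too;
e ∈ V_7, f ∈ V_3 unit, x = √3 e + √7 J f: ⟨x, η x⟩ = i (3·7 - 7·3) = 0; J x = √3 J e - √7 f;
eigenvalues of x: 7, -3, of J x: -7, 3; E, E' shift by ±2 and no two of 7, -3 differ by 2,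
no element of {7,-3} ± 2 lies in {-7, 3}: all terms vanish.  exp((2π/10) η) x = exp(7·2πi/10) x,
so exp((π/5)η) = ±1, but (π/5)·1 ∉ πℤ.  (e) so the positive eigenvalues are in {1,3,5},
2N = 2 (dim V_1 + dim V_3 + dim V_5), dim V_1 ≥ N - 2 ≥ 3.  (f) suppose 3 is an eigenvalue; e a
unit vector with eigenvalue -3.  ISP (3) for V_1, the form B(u,v) = ⟨J u, E' v⟩ (symmetric) and the
linear form φ(u) = ⟨J u, E e⟩ (= ⟨J e, E u⟩, linear in u): a unit u in V_1 with φ(u) = 0,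
B(u,u) = 0.  x = e + √3 u: ⟨x, η x⟩ = i(-3 + 3) = 0; J x = J e + √3 J u (eigenvalues 3, -1), η x
(-3, 1): orthogonal; E x = E e + √3 E u (eigenvalues -1, 3), x (-3, 1): ⟨x, E x⟩ = 0;
⟨J x, E x⟩ = √3 (⟨J u, E e⟩ + ⟨J e, E u⟩) = 0; E' x = E' e + √3 E' u (-5, -1):
⟨J x, E' x⟩ = 3 ⟨J u, E' u⟩ = 0.  So x is a zero (SZC), exp((π/2) η) x = i x (exp(-3πi/2) = i), so
exp((π/2)η) = ±1 and (π/2)·1 ∈ πℤ, contradiction.  So 3 is not an eigenvalue, hence (going down)
no n ≥ 3, and all eigenvalues are ±1. -/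
def Stmt_SU2W : Prop :=
  ∀ (V : Type) [NormedAddCommGroup V] [InnerProductSpace ℂ V] [FiniteDimensional ℂ V]
    [CompleteSpace V] (J : V → V) (k : Submodule ℝ (V →L[ℂ] V)) (η E : V →L[ℂ] V) (N : ℕ),
    IsQuatStr J → SU2Data J k η E → FreeOnZeros J k → finrank ℂ V = 2 * N → 5 ≤ N →
    Stmt_EV1 → Stmt_SLZ → Stmt_SZC → Stmt_ISP →
    ∀ (b : ℝ) (v : V), v ≠ 0 → η v = ((b : ℂ) * Complex.I) • v → b = 1 ∨ b = -1

/-- QBS.  V has a quaternionic orthonormal basis (used for k = 0).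
Proof: induction on N; pick a unit e, U = orthogonal complement of span {e, J e} is stable under
J (⟨e, J u⟩ = ... = -⟨J e, u⟩-type identities: ⟨J x, y⟩ = ⟨J y, JJx⟩ ... ), of dimension 2(N-1);
⟨e, J e⟩ = 0 since ⟨e, J e⟩ = ⟨J J e, J e⟩ = -⟨e, J e⟩. -/
def Stmt_QBS : Prop :=
  ∀ (N : ℕ) (V : Type) [NormedAddCommGroup V] [InnerProductSpace ℂ V] [FiniteDimensional ℂ V]
    (J : V → V), IsQuatStr J → finrank ℂ V = 2 * N →
    ∃ e : Fin N → V, Orthonormal ℂ (Sum.elim e (fun n => J (e n)))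

/-- NR1.  Normal form, k = ℝ η with eigenvalues ± a.
Proof: V_a = {η v = i a v}, V = V_a ⊕ V_(-a), J V_a = V_(-a), so dim V_a = N.  An orthonormal
basis e of V_a: ⟨e_m, J e_n⟩ = 0, ⟨J e_m, J e_n⟩ = ⟨e_n, e_m⟩.  ξ = c η: ξ e_n = i c a e_n. -/
def Stmt_NR1 : Prop :=
  ∀ (V : Type) [NormedAddCommGroup V] [InnerProductSpace ℂ V] [FiniteDimensional ℂ V]
    (J : V → V) (k : Submodule ℝ (V →L[ℂ] V)) (η : V →L[ℂ] V) (N : ℕ) (a : ℝ),
    IsQuatStr J → U1Data J k η → finrank ℂ V = 2 * N → 0 < a → Stmt_EV1 →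
    (∀ (b : ℝ) (v : V), v ≠ 0 → η v = ((b : ℂ) * Complex.I) • v → b = a ∨ b = -a) →
    ActsByScalars N J k

/-- NR2.  Normal form, SU2Data with eigenvalues ± 1.
Proof: V_+ = {η v = i v}, V_- = J V_+, dim V_+ = N; E V_+ = 0 (eigenvalue 3), E' V_+ ⊂ V_-,
E' E - E E' = - H gives on V_+: E E' v = v; so E' : V_+ → V_- is isometric.
τ v = J (E' v) maps V_+ → V_+ (antilinear), τ τ v = J E' J E' v; from J E v = - E' J v one gets
J E' v = - E J v, hence J E' (J E' v) = - E J J E' v = E E' v = v: τ is an antilinear isometric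
involution of V_+ (⟨τ u, τ v⟩ = ⟨E' v, E' u⟩ = ⟨v, u⟩).  So V_+ has an orthonormal basis e_n with
τ e_n = e_n (the real points V_+^τ with the real inner product have real dimension N; or:
induction as in QBS, choosing v + τ v or i (v - τ v)).  Then E' e_n = - J J E' e_n = - J e_n, and
E e_n = 0.  ξ = a η + b E + c E': ξ e_n = i a e_n - c J e_n.  (e, J e) is orthonormal as in NR1. -/
def Stmt_NR2 : Prop :=
  ∀ (V : Type) [NormedAddCommGroup V] [InnerProductSpace ℂ V] [FiniteDimensional ℂ V]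
    [CompleteSpace V] (J : V → V) (k : Submodule ℝ (V →L[ℂ] V)) (η E : V →L[ℂ] V) (N : ℕ),
    IsQuatStr J → SU2Data J k η E → finrank ℂ V = 2 * N → Stmt_EV1 → Stmt_SLZ →
    (∀ (b : ℝ) (v : V), v ≠ 0 → η v = ((b : ℂ) * Complex.I) • v → b = 1 ∨ b = -1) →
    ActsByScalars N J k

/-- JQS.  The coordinate model is a quaternionic structure on ℂ^(2N).  Proof: direct. -/
def Stmt_JQS : Prop :=
  ∀ N : ℕ, IsQuatStr (Jq (N := N)) ∧ finrank ℂ (HSp N) = 2 * N

end MPa8bd83
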