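/-
MP_a8bd83_gt (LeBrun-Salamon), smooth quaternionic Kaehler quotients of HP^(N-1): PART 2.
Coroots, strings, half-root weights, the count, RANK TWO COMPLETE (helper77; the theorem is by
helper41 and helper77).  Table qk2_blocks.

RULES.  One block = one file B_XXX.lean in this folder, `import Pool.Agent.Work.MP_a8bd83_qk.Interface2`,
`namespace MPa8bd83`, `theorem p_XXX (hA : Stmt_A) .. : Stmt_XXX` with exactly the blocks named after
`uses` as hypotheses, in that order.  Auxiliary lemmas get the prefix XXX_.  No straight double quotes.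

NOTATION.  V_w = Wt t w, k_α = Rt k t α, r = finrank t, d = finrank k.  `inner ℂ x y` is linear in y.
(x, y) stands for the functional pt α β x y = (x/2) α + (y/2) β.  In a Lie computation [X, Y] = X * Y - Y * X.
-/
import Pool.Agent.Work.MP_a8bd83_qk.Interface

set_option autoImplicit false

namespace MPa8bd83

open Module

/-! ## Notions -/

/-- General facts, no freeness (all of them are results of the core). -/
structure Fac {V : Type} [NormedAddCommGroup V] [InnerProductSpace ℂ V] (J : V → V)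
    (k t : Submodule ℝ (V →L[ℂ] V)) : Prop where
  quat : IsQuatStr J
  lie : IsLieSub J k
  mab : MaxAb k t
  top : ⨆ w, Wt t w = ⊤
  wfin : {w : Dual ℝ t | IsWt t w}.Finite
  dim : ∀ s : Finset (Dual ℝ t), (∀ w, IsWt t w → w ∈ s) →
    finrank ℂ V = ∑ w ∈ s, finrank ℂ (Wt t w)
  orth : ∀ w w' : Dual ℝ t, w ≠ w' → ∀ u ∈ Wt t w, ∀ v ∈ Wt t w', inner ℂ u v = 0
  jw : ∀ w : Dual ℝ t, ∀ v ∈ Wt t w, J v ∈ Wt t (-w)
  jdim : ∀ w : Dual ℝ t, finrank ℂ (Wt t (-w)) = finrank ℂ (Wt t w)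
  act : ∀ w α : Dual ℝ t, ∀ X ∈ Rt k t α, ∀ v ∈ Wt t w, X v ∈ Wt t (w + α)
  brk : ∀ α β : Dual ℝ t, ∀ X ∈ Rt k t α, ∀ Y ∈ Rt k t β, X * Y - Y * X ∈ Rt k t (α + β)
  rfin : {α : Dual ℝ t | IsRoot k t α}.Finite
  rcard : ∀ s : Finset (Dual ℝ t), (∀ α ∈ s, IsRoot k t α) → finrank ℝ t + s.card ≤ finrank ℝ k
  rneg : ∀ α : Dual ℝ t, IsRoot k t α → IsRoot k t (-α)
  adj : ∀ α : Dual ℝ t, ∀ X ∈ Rt k t α, ∃ X' ∈ Rt k t (-α),
    (∀ x y : V, inner ℂ (X x) y = inner ℂ x (X' y)) ∧ ∀ v : V, J (X v) = - X' (J v)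
  sym : ∀ α : Dual ℝ t, ∀ X ∈ Rt k t α, ∀ u v : V, inner ℂ (J u) (X v) = inner ℂ (J v) (X u)
  hei : ∀ α : Dual ℝ t, α ≠ 0 → ∀ E ∈ Rt k t α, E ≠ 0 → ∃ F ∈ Rt k t (-α), ∃ η : t,
    (∀ x y : V, inner ℂ (E x) y = inner ℂ x (F y)) ∧
      E * F - F * E = -(Complex.I • (η : V →L[ℂ] V)) ∧ 0 < α η
  one : ∀ α : Dual ℝ t, α ≠ 0 → ∀ E ∈ Rt k t α, E ≠ 0 → ∀ F ∈ Rt k t α, ∃ c : ℂ, F = c • E

/-- The weight `w` is usable: `V_w` contains a unit vector `e` with `⟨J e, X e⟩ = 0` for `X ∈ k_{-2w}`. -/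
def Usable {V : Type} [NormedAddCommGroup V] [InnerProductSpace ℂ V] (J : V → V)
    (k t : Submodule ℝ (V →L[ℂ] V)) (w : Dual ℝ t) : Prop :=
  ∃ e ∈ Wt t w, ‖e‖ = 1 ∧ ∀ X ∈ Rt k t (-(w + w)), inner ℂ (J e) (X e) = 0

/-- Facts for a free action, rank `≥ 2`. -/
structure Fre {V : Type} [NormedAddCommGroup V] [InnerProductSpace ℂ V] (J : V → V)
    (k t : Submodule ℝ (V →L[ℂ] V)) : Prop where
  fac : Fac J k t
  rk : 2 ≤ finrank ℝ t
  vze : ∀ w : Dual ℝ t, IsWt t w → w ≠ 0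
  lid : ∀ (ι : Type) [Fintype ι] (w : ι → Dual ℝ t) (e : ι → V),
    Admissible J k t w e → LinearIndependent ℝ w
  hlf : ∀ w : Dual ℝ t, finrank ℂ (Wt t w) ≤ 3 ∧
    (¬ IsRoot k t (w + w) → finrank ℂ (Wt t w) ≤ 1)
  use : ∀ w : Dual ℝ t, IsWt t w → (¬ IsRoot k t (w + w) ∨ 2 ≤ finrank ℂ (Wt t w)) →
    Usable J k t w
  usc : ∀ (h : t) (p : ℕ), (∀ α : Dual ℝ t, IsRoot k t α → α h ≠ 0) →
    (∀ s : Finset (Dual ℝ t), (∀ α ∈ s, IsRoot k t α ∧ 0 < α h) → s.card ≤ p) →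
    ∀ S : Finset (Dual ℝ t), (∀ w ∈ S, 0 < w h ∧ Usable J k t w) →
      S.card ≤ finrank ℝ t * (p + 1)

/-- The `sl_2`-triple of a root `α`: `E ∈ k_α`, `F = E* ∈ k_{-α}`, `E F - F E = - i τ` with the coroot `τ ∈ t`, `α τ = 2`.
On `V_w` the operator `H = E F - F E` is the real scalar `w τ`. -/
structure Cor {V : Type} [NormedAddCommGroup V] [InnerProductSpace ℂ V]
    (k t : Submodule ℝ (V →L[ℂ] V)) (α : Dual ℝ t) (τ : t) (E F : V →L[ℂ] V) : Prop where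
  memE : E ∈ Rt k t α
  memF : F ∈ Rt k t (-α)
  adj : ∀ x y, inner ℂ (E x) y = inner ℂ x (F y)
  br : E * F - F * E = -(Complex.I • (τ : V →L[ℂ] V))
  two : α τ = 2

/-- Rank two: two roots `α`, `β` with coroots `τ`, `σ`, orthogonal, such that `α/2`, `β/2` are weights. -/
structure Pair2 {V : Type} [NormedAddCommGroup V] [InnerProductSpace ℂ V]
    (k t : Submodule ℝ (V →L[ℂ] V)) (α β : Dual ℝ t) (τ σ : t) : Prop where
  rk : finrank ℝ t = 2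
  ca : ∃ E F, Cor k t α τ E F
  cb : ∃ E F, Cor k t β σ E F
  wa : IsWt t ((1 / 2 : ℝ) • α)
  wb : IsWt t ((1 / 2 : ℝ) • β)
  ab : α σ = 0
  ba : β τ = 0

/-- `(x, y) = (x/2) α + (y/2) β`. -/
noncomputable def pt {W : Type} [AddCommGroup W] [Module ℝ W] (α β : W) (x y : ℤ) : W :=
  ((x : ℝ) / 2) • α + ((y : ℝ) / 2) • β

/-- The roots of `A_1 × A_1` in these coordinates. -/
def RA (x y : ℤ) : Prop := (x = 2 ∨ x = -2) ∧ y = 0 ∨ x = 0 ∧ (y = 2 ∨ y = -2)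

/-- The roots of `C_2` in these coordinates. -/
def RC (x y : ℤ) : Prop := RA x y ∨ (x = 1 ∨ x = -1) ∧ (y = 1 ∨ y = -1)

/-- `(x, y)` and `(x', y')` are different up to sign and nonadjacent. -/
def NA (R : ℤ → ℤ → Prop) (x y x' y' : ℤ) : Prop :=
  (x ≠ x' ∨ y ≠ y') ∧ (x ≠ -x' ∨ y ≠ -y') ∧ ¬ R (x - x') (y - y') ∧ ¬ R (x + x') (y + y')

/-- The combinatorial picture in rank two: `D x y = dim V_(x,y)`, `U x y`: `(x, y)` is usable. -/
structure Pic (R : ℤ → ℤ → Prop) (D : ℤ → ℤ → ℕ) (U : ℤ → ℤ → Prop) : Prop where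
  bdd : ∃ M : ℤ, ∀ x y, D x y ≠ 0 → |x| ≤ M ∧ |y| ≤ M
  neg : ∀ x y, D (-x) (-y) = D x y
  zero : D 0 0 = 0
  le3 : ∀ x y, D x y ≤ 3
  le1 : ∀ x y, ¬ R (2 * x) (2 * y) → D x y ≤ 1
  usw : ∀ x y, U x y → D x y ≠ 0
  us1 : ∀ x y, D x y ≠ 0 → ¬ R (2 * x) (2 * y) → U x y
  us2 : ∀ x y, 2 ≤ D x y → U x y
  strx : ∀ x y x', D x y ≠ 0 → |x'| ≤ |x| → 2 ∣ x - x' → D x' y ≠ 0
  stry : ∀ x y y', D x y ≠ 0 → |y'| ≤ |y| → 2 ∣ y - y' → D x y' ≠ 0
  two : ∀ x y x' y', U x y → U x' y' → NA R x y x' y' → x * y' ≠ y * x'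
  three : ∀ x y x' y' x'' y'', U x y → U x' y' → U x'' y'' → NA R x y x' y' →
    NA R x y x'' y'' → NA R x' y' x'' y'' → False

/-! ## Linear independence -/

/-- **LID** (150).  Strengthening of COC: an admissible family is linearly independent (rank `≥ 2`).
Suppose not.  Among the nonempty finite sets `S ⊆ ι` with a relation `∑_{i ∈ S} g_i w_i = 0`, all `g_i ≠ 0` (`i ∈ S`), take one of
least cardinality.  Then `S.card ≤ r + 1` (if one element is removed the rest is independent: a relation on it has a smaller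
support), take `ι' = S` (a subtype; a subfamily of an admissible family is admissible).  Flip the signs of those with `g_i < 0`
(`Stmt_FLP` with `σ i = decide (0 < g i)`): `c_i = |g_i| / ∑ |g| > 0`, `∑ c_i = 1`, `∑ c_i w'_i = 0`.  `Stmt_ZER`: `x = ∑ √c_i e'_i` is a zero of the moment map;
`x ≠ 0`: its inner product with `e'_{i0}` is `√c_{i0}` since the `e'_i` are pairwise orthogonal (`w'_i ≠ w'_j`: WTO; `w'_i = w'_j ≠ 0`, `i ≠ j`: take `ξ ∈ t` with `w'_i ξ ≠ 0`;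
`ξ ∈ Rt 0`, because `ξ ∈ t ≤ k` and `t` is abelian, and `diff` gives `i w'_i(ξ) ⟨e'_i, e'_j⟩ = 0`).  `Stmt_BAR`: `card ι' = r + 1` and all `c_i ≥ 1/2`, so `1 = ∑ c_i ≥ (r + 1)/2 > 1`. -/
def Stmt_LID : Prop :=
  ∀ (V : Type) [NormedAddCommGroup V] [InnerProductSpace ℂ V] [FiniteDimensional ℂ V]
    [CompleteSpace V] (J : V → V) (k t : Submodule ℝ (V →L[ℂ] V)),
    IsQuatStr J → IsLieSub J k → MaxAb k t → FreeOnZeros J k →
    (∀ w : Dual ℝ t, IsWt t w → w ≠ 0) →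
    Stmt_WTD → Stmt_WTO → Stmt_RTD → Stmt_RTZ → Stmt_RSY → Stmt_ZER → Stmt_EXP → Stmt_LIN →
    Stmt_BAR → Stmt_FLP → 2 ≤ finrank ℝ t →
    ∀ (ι : Type) [Fintype ι] (w : ι → Dual ℝ t) (e : ι → V),
      Admissible J k t w e → LinearIndependent ℝ w

/-! ## Coroots and strings -/

/-- **SL2** (120).  `E ^ i u` has `H`-eigenvalue `c + 2 i`; nonzero eigenvectors with different eigenvalues are independent, so some `v = E ^ i u ≠ 0` has `E v = 0`,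
`H v = l v`, `l = c + 2 i`.  `E (F ^ (j + 1) v) = (j + 1) (l - j) F ^ j v` (induction; or `IsSl2Triple.HasPrimitiveVectorWith.lie_e_pow_succ_toEnd_f`).  Some `j` has
`F ^ j v ≠ 0`, `F ^ (j + 1) v = 0`, so `l = j` is a natural number, and `F ^ j v ≠ 0` for all `j ≤ l`.  So `c = l - 2 i` is an integer; if `j ≤ c`, then `i + j ≤ l`.
The last statement: exchange `E` and `F` (`H` becomes `-H`). -/
def Stmt_SL2 : Prop :=
  ∀ (U : Type) [AddCommGroup U] [Module ℂ U] [FiniteDimensional ℂ U] (E F H : Module.End ℂ U),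
    E * F - F * E = H → H * E - E * H = (2 : ℂ) • E → H * F - F * H = -((2 : ℂ) • F) →
    ∀ (u : U) (c : ℂ), u ≠ 0 → H u = c • u →
      ∃ n : ℤ, c = (n : ℂ) ∧
        (∀ j : ℕ, (j : ℤ) ≤ n → ∃ i : ℕ, (F ^ (i + j)) ((E ^ i) u) ≠ 0) ∧
        (∀ j : ℕ, (j : ℤ) ≤ -n → ∃ i : ℕ, (E ^ (i + j)) ((F ^ i) u) ≠ 0)

/-- **COR** (40).  `0 ≠ X ∈ k_α` and `hei`: `X'`, `η` with `[X, X'] = - i η`, `α η > 0`.  Scale: `E = s X`, `F = s X'`, `s ^ 2 = 2 / α η`, `s > 0` real, `τ = s ^ 2 η`. -/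
def Stmt_COR : Prop :=
  ∀ (V : Type) [NormedAddCommGroup V] [InnerProductSpace ℂ V] [FiniteDimensional ℂ V]
    (J : V → V) (k t : Submodule ℝ (V →L[ℂ] V)), Fac J k t →
    ∀ α : Dual ℝ t, IsRoot k t α → ∃ (τ : t) (E F : V →L[ℂ] V), Cor k t α τ E F

/-- **FRM** (100).  The trace form `φ a b = - Re tr (a b)` (`LinearMap.trace ℂ V`).  Symmetric; `- tr (a a) = ∑ ‖a e_i‖ ^ 2` for an orthonormal basis (`a` is
skew-adjoint, `LinearMap.trace_eq_sum_inner`), so positive.  For `Cor k t α τ E F`, `b ∈ t`: `- i tr (τ b) = tr (E F b) - tr (F E b) = tr (E (F b - b F)) = i α(b) tr (E F)`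
(`b F - F b = - i α(b) F`), so `- tr (τ b) = α(b) tr (E F)` and `c = tr (E F) = ∑ ‖F e_i‖ ^ 2 > 0` (`F ≠ 0`, because `τ ≠ 0`). -/
def Stmt_FRM : Prop :=
  ∀ (V : Type) [NormedAddCommGroup V] [InnerProductSpace ℂ V] [FiniteDimensional ℂ V]
    (J : V → V) (k t : Submodule ℝ (V →L[ℂ] V)), Fac J k t →
    ∃ φ : t →ₗ[ℝ] t →ₗ[ℝ] ℝ, (∀ a b, φ a b = φ b a) ∧ (∀ a, a ≠ 0 → 0 < φ a a) ∧
      ∀ (α : Dual ℝ t) (τ : t) (E F : V →L[ℂ] V), Cor k t α τ E F →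
        ∃ c : ℝ, 0 < c ∧ ∀ b, φ τ b = c * α b

/-- **STV** (80), uses SL2.  `U = V`, `E`, `F`, `H = - i τ` (as elements of `Module.End ℂ V`): `[H, E] = - i (i α(τ)) E = 2 E`, `[H, F] = - 2 F`, `H u = w(τ) u` for `0 ≠ u ∈ V_w`.
`F ^ (i + j) E ^ i u ∈ V_(w - j α)` (`act`, induction). -/
def Stmt_STV : Prop :=
  ∀ (V : Type) [NormedAddCommGroup V] [InnerProductSpace ℂ V] [FiniteDimensional ℂ V]
    (J : V → V) (k t : Submodule ℝ (V →L[ℂ] V)), Fac J k t →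
    ∀ (α : Dual ℝ t) (τ : t) (E F : V →L[ℂ] V), Cor k t α τ E F → ∀ w : Dual ℝ t, IsWt t w →
      ∃ n : ℤ, w τ = (n : ℝ) ∧ (∀ j : ℕ, (j : ℤ) ≤ n → IsWt t (w - (j : ℝ) • α)) ∧
        (∀ j : ℕ, (j : ℤ) ≤ -n → IsWt t (w + (j : ℝ) • α))

/-- **STA** (100), uses SL2.  The same for `U = V →L[ℂ] V`, with the operators `X ↦ E * X - X * E`, etc. (`FiniteDimensional ℂ (V →L[ℂ] V)` from
`LinearMap.toContinuousLinearMap`; a vector of `U` is in `k_γ`: use `brk`). -/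
def Stmt_STA : Prop :=
  ∀ (V : Type) [NormedAddCommGroup V] [InnerProductSpace ℂ V] [FiniteDimensional ℂ V]
    (J : V → V) (k t : Submodule ℝ (V →L[ℂ] V)), Fac J k t →
    ∀ (α : Dual ℝ t) (τ : t) (E F : V →L[ℂ] V), Cor k t α τ E F →
    ∀ β : Dual ℝ t, Rt k t β ≠ ⊥ →
      ∃ n : ℤ, β τ = (n : ℝ) ∧ (∀ j : ℕ, (j : ℤ) ≤ n → Rt k t (β - (j : ℝ) • α) ≠ ⊥) ∧
        (∀ j : ℕ, (j : ℤ) ≤ -n → Rt k t (β + (j : ℝ) • α) ≠ ⊥)

/-- **RDM** (150).  The only positive multiple of a root which is a root is itself.  Let `m` be the largest `c > 0` with `c α` a root (`rfin`), replace `α` by `m α`: now `c α` is not a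
root for `c > 1`.  Let `β = c α` be a root, `0 < c < 1`; `0 ≠ E ∈ k_α` with `E' ∈ k_{-α}`, `η` from `hei`, `0 ≠ F ∈ k_β`.  `[E, F] ∈ k_((1 + c) α) = 0`.  `G = [E', F] ∈ k_((c - 1) α)`:
`[E, G] = [[E, E'], F] + [E', [E, F]] = [- i η, F] = β(η) F ≠ 0`, so `G ≠ 0`.  `[E', G] ∈ k_((c - 2) α) = 0` (`rneg`, `2 - c > 1`), so
`β(η) G = [E', β(η) F] = [E', [E, G]] = [[E', E], G] + [E, [E', G]] = [i η, G] = (α - β)(η) G`: `c = 1 - c`, `c = 1/2`.  Now take `F'`, `η'` for `F` (`hei`): `[F, E] ∈ k_(3 α / 2) = 0`,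
`[F', E] ∈ k_(α / 2)`, so `[F', E] = μ F` (`one`), `0 = [F, [F', E]] = [[F, F'], E] + [F', [F, E]] = [- i η', E] = α(η') E ≠ 0`, a contradiction.  So in the original
notation `m = 1` (apply the result to `c = 1 / m`) and `c = 1`. -/
def Stmt_RDM : Prop :=
  ∀ (V : Type) [NormedAddCommGroup V] [InnerProductSpace ℂ V] [FiniteDimensional ℂ V]
    (J : V → V) (k t : Submodule ℝ (V →L[ℂ] V)), Fac J k t →
    ∀ (α : Dual ℝ t) (c : ℝ), IsRoot k t α → IsRoot k t (c • α) → 0 < c → c = 1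

/-! ## Half-root weights and the count -/

/-- **HAL** (100), uses FRM STV RDM.  `α τ' = 2 m`, `β τ = 2 n` with integers `m`, `n` (STV for the weights `α/2`, `β/2`).  `φ τ τ' = c (2 m)`, `φ τ' τ = c' (2 n)`, `φ τ τ = 2 c`,
`φ τ' τ' = 2 c'`; so `m`, `n` have the same sign, and Cauchy-Schwarz for `φ` (`φ(v, v) ≥ 0` for `v = τ' - (m c / c) ..`, i.e. `v = φ(τ,τ) τ' - φ(τ,τ') τ`) gives `m n ≤ 1` with equality
only if `v = 0`.  If `m ≠ 0`: `m n = 1`, `v = 0`, `τ' = m τ`, so `c' β = φ τ' · = m φ τ · = m c α`, `β = ± (positive) α` and by RDM (`rneg`) `β = ± α` (a `Cor` gives a root: `α τ = 2`,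
`E ≠ 0` since `τ ≠ 0`), contradiction.  So `m = n = 0`. -/
def Stmt_HAL : Prop :=
  ∀ (V : Type) [NormedAddCommGroup V] [InnerProductSpace ℂ V] [FiniteDimensional ℂ V]
    (J : V → V) (k t : Submodule ℝ (V →L[ℂ] V)), Fac J k t →
    ∀ (α β : Dual ℝ t) (τ τ' : t) (E F E' F' : V →L[ℂ] V), Cor k t α τ E F →
      Cor k t β τ' E' F' → IsWt t ((1 / 2 : ℝ) • α) → IsWt t ((1 / 2 : ℝ) • β) → α ≠ β →
      α ≠ -β → α τ' = 0 ∧ β τ = 0

/-- **HRN** (80), uses COR HAL.  Half-root weights.  For `w ∈ H` let `τ_w` be a coroot of `2 w` (COR).  By HAL `w' (τ_w) = 0` for `w ≠ w'` in `H`, `w (τ_w) = 1`: the elements of `H` are linearly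
independent, so `H.card ≤ finrank (Dual ℝ t) = finrank t`.  `w ↦ 2 w` and `w ↦ - 2 w` have disjoint images in `s` and are injective: `2 H.card ≤ s.card`. -/
def Stmt_HRN : Prop :=
  ∀ (V : Type) [NormedAddCommGroup V] [InnerProductSpace ℂ V] [FiniteDimensional ℂ V]
    (J : V → V) (k t : Submodule ℝ (V →L[ℂ] V)), Fac J k t →
    ∀ H s : Finset (Dual ℝ t), (∀ w ∈ H, IsWt t w ∧ IsRoot k t (w + w)) →
      (∀ w ∈ H, ∀ w' ∈ H, w ≠ w' → w ≠ -w') → (∀ α, α ∈ s ↔ IsRoot k t α) →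
      H.card ≤ finrank ℝ t ∧ 2 * H.card ≤ s.card

/-- **CN1** (150), uses GEN (of the core).  `s` = the finite set of the roots (`rfin`).  `GEN`: `h ∈ t` with `w h ≠ 0` for all weights (they are nonzero, `vze`) and all roots.  `P` = the weights with
`w h > 0`.  `dim` and `jdim`: `finrank V = 2 ∑_{w ∈ P} dim V_w`.  `p` = the number of the roots with `α h > 0`, `2 p = s.card` (`rneg`).  `A` = the usable elements of `P`: `A.card ≤ r (p + 1)` (`usc`);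
`B` = those of `A` with `2 w` a root, `C` = the nonusable elements of `P`: by `use` for them `2 w` is a root and `dim V_w ≤ 1`.  By `hlf`: `∑_{w ∈ P} dim V_w ≤ A.card + 2 B.card + C.card`.
`H = B ∪ C` (disjoint); `w ≠ -w'` because both are positive at `h`. -/
def Stmt_CN1 : Prop :=
  ∀ (V : Type) [NormedAddCommGroup V] [InnerProductSpace ℂ V] [FiniteDimensional ℂ V]
    (J : V → V) (k t : Submodule ℝ (V →L[ℂ] V)), Fre J k t →
    ∃ (a b c : ℕ) (H s : Finset (Dual ℝ t)), (∀ α, α ∈ s ↔ IsRoot k t α) ∧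
      finrank ℂ V ≤ 2 * (a + 2 * b + c) ∧ 2 * a ≤ finrank ℝ t * (s.card + 2) ∧
      H.card = b + c ∧ (∀ w ∈ H, IsWt t w ∧ IsRoot k t (w + w)) ∧
      (∀ w ∈ H, ∀ w' ∈ H, w ≠ w' → w ≠ -w')

/-- **CNT** (40), uses HRN CN1.  `finrank V ≤ 2 a + 4 b + 2 c ≤ r (#s + 2) + 4 (b + c)`, `b + c ≤ r`, `2 (b + c) ≤ #s`, `#s ≤ d - r` (`rcard`). -/
def Stmt_CNT : Prop :=
  ∀ (V : Type) [NormedAddCommGroup V] [InnerProductSpace ℂ V] [FiniteDimensional ℂ V]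
    (J : V → V) (k t : Submodule ℝ (V →L[ℂ] V)), Fre J k t →
    finrank ℂ V ≤ finrank ℝ t * (finrank ℝ k - finrank ℝ t + 2)
      + min (4 * finrank ℝ t) (2 * (finrank ℝ k - finrank ℝ t))

/-! ## Rank two -/

/-- **PAI** (80), uses COR HAL HRN CN1.  `#s + 2 ≤ d` (`rcard`), `2 a ≤ 2 (#s + 2)`; so `#s + 5 ≤ a + 2 b + c`, `2 b + c ≥ 3` and `b + c ≤ 2` (HRN), hence `b + c = 2`:
`H = {w, w'}`, `α = 2 w`, `β = 2 w'` with COR; `α σ = 0`, `β τ = 0` by HAL. -/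
def Stmt_PAI : Prop :=
  ∀ (V : Type) [NormedAddCommGroup V] [InnerProductSpace ℂ V] [FiniteDimensional ℂ V]
    (J : V → V) (k t : Submodule ℝ (V →L[ℂ] V)), Fre J k t → finrank ℝ t = 2 →
    2 * (finrank ℝ k + 3) ≤ finrank ℂ V → ∃ (α β : Dual ℝ t) (τ σ : t), Pair2 k t α β τ σ

/-- **CRD** (80), uses STV STA.  `α τ = 2`, `α σ = 0`, `β τ = 0`, `β σ = 2`: `τ`, `σ` are independent, a basis of `t`, and a functional is determined by its values on them.  The values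
of weights and of roots are integers (STV, STA). -/
def Stmt_CRD : Prop :=
  ∀ (V : Type) [NormedAddCommGroup V] [InnerProductSpace ℂ V] [FiniteDimensional ℂ V]
    (J : V → V) (k t : Submodule ℝ (V →L[ℂ] V)), Fac J k t →
    ∀ (α β : Dual ℝ t) (τ σ : t), Pair2 k t α β τ σ →
      (∀ x y : ℤ, pt α β x y τ = (x : ℝ) ∧ pt α β x y σ = (y : ℝ)) ∧
      (∀ w : Dual ℝ t, w = ((w τ) / 2) • α + ((w σ) / 2) • β) ∧
      (∀ w : Dual ℝ t, IsWt t w → ∃ x y : ℤ, w = pt α β x y) ∧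
      (∀ γ : Dual ℝ t, Rt k t γ ≠ ⊥ → ∃ x y : ℤ, γ = pt α β x y)

/-- **STX** (80), uses STV CRD.  Strings for `α` and `β` in coordinates: `(x, y) - j α = (x - 2 j, y)`, `j = (x - x') / 2 ∈ [0, x]` for `x ≥ 0`; `+ j α`, `j = (x' - x) / 2` for `x < 0`. -/
def Stmt_STX : Prop :=
  ∀ (V : Type) [NormedAddCommGroup V] [InnerProductSpace ℂ V] [FiniteDimensional ℂ V]
    (J : V → V) (k t : Submodule ℝ (V →L[ℂ] V)), Fac J k t →
    ∀ (α β : Dual ℝ t) (τ σ : t), Pair2 k t α β τ σ → ∀ x y : ℤ, IsWt t (pt α β x y) →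
      (∀ x' : ℤ, |x'| ≤ |x| → 2 ∣ x - x' → IsWt t (pt α β x' y)) ∧
      (∀ y' : ℤ, |y'| ≤ |y| → 2 ∣ y - y' → IsWt t (pt α β x y'))

/-- **RS2** (200), uses COR FRM STV STA RDM CRD.  (1) Let `γ = (x, y)` be a root with coroot `τ'` (COR); `s = (α/2)(τ')`, `u = (β/2)(τ')` are integers (STV for the weights `α/2`, `β/2`),
`x s + y u = γ(τ') = 2`.  FRM: `φ τ τ' = c (2 s)`, `φ τ' τ = c' γ(τ) = c' x`, so `x` and `s` have the same sign (and vanish together); also `y` and `u`.  `x, y ≠ 0`: `x s = y u = 1`, so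
`x = s = ± 1`, `y = u = ± 1`, and `w(τ') = x w(τ) + y w(σ)` for all `w` (CRD).  `y = 0`: `γ = (x/2) α`, `x = ± 2` by RDM (and `rneg`); `x = 0`: `y = ± 2`.  So roots satisfy `RC`.  (2) `± α = (± 2, 0)`, `± β = (0, ± 2)` are roots.
(3) If there is no root `(± 1, ± 1)`: first alternative.  Otherwise let `γ = (ε, δ)` be one; STA for `α` (`γ τ = ε`, `j = 1`): `(-ε, δ)` is a root; with `rneg` all four are, so `IsRoot ↔ RC`.  Strings:
STV for the root `(1, 1)` (whose coroot `τ'` has `w(τ') = w(τ) + w(σ)`), and `(1, -1)`: `(x, y) - j (1, 1) = (x - j, y - j)` for `0 ≤ j ≤ x + y`, `+ |j| (1, 1)` for `x + y ≤ j ≤ 0`. -/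
def Stmt_RS2 : Prop :=
  ∀ (V : Type) [NormedAddCommGroup V] [InnerProductSpace ℂ V] [FiniteDimensional ℂ V]
    (J : V → V) (k t : Submodule ℝ (V →L[ℂ] V)), Fac J k t →
    ∀ (α β : Dual ℝ t) (τ σ : t), Pair2 k t α β τ σ →
      (∀ x y : ℤ, IsRoot k t (pt α β x y) ↔ RA x y) ∨
      ((∀ x y : ℤ, IsRoot k t (pt α β x y) ↔ RC x y) ∧
        (∀ x y j : ℤ, IsWt t (pt α β x y) → (0 ≤ j ∧ j ≤ x + y ∨ x + y ≤ j ∧ j ≤ 0) →
          IsWt t (pt α β (x - j) (y - j))) ∧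
        (∀ x y j : ℤ, IsWt t (pt α β x y) → (0 ≤ j ∧ j ≤ x - y ∨ x - y ≤ j ∧ j ≤ 0) →
          IsWt t (pt α β (x - j) (y + j))))

/-- **PIC** (150), uses CRD STX.  `D x y ≠ 0` iff `(x, y)` is a weight.  `bdd`: `wfin`.  `neg`: `jdim`.  `zero`: `vze`.  `le3`, `le1`: `hlf` (`(x,y) + (x,y) = (2x, 2y)`).  `usw`: a unit vector is not zero.  `us1`, `us2`: `use`.
`strx`, `stry`: STX.  `two`: unit vectors `e`, `e'` as in `Usable`; the family `((x,y), e)`, `((x',y'), e')` indexed by `Fin 2` is admissible: `diff`: `± ((x,y) - (x',y'))` is `≠ 0` and not a root, so `Rt = ⊥`; `sum`, `i ≠ j`: `-((x,y) + (x',y'))` is `≠ 0`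
and not a root; `i = j`: usable.  By `lid` the two weights are independent, so `x y' ≠ y x'`.  `three`: the same for `Fin 3`, three independent vectors in `Dual ℝ t` of dimension two.  (`IsRoot k t (-γ) ↔ IsRoot k t γ` by `rneg`.) -/
def Stmt_PIC : Prop :=
  ∀ (V : Type) [NormedAddCommGroup V] [InnerProductSpace ℂ V] [FiniteDimensional ℂ V]
    (J : V → V) (k t : Submodule ℝ (V →L[ℂ] V)), Fre J k t →
    ∀ (α β : Dual ℝ t) (τ σ : t), Pair2 k t α β τ σ →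
    ∀ R : ℤ → ℤ → Prop, (∀ x y : ℤ, IsRoot k t (pt α β x y) ↔ R x y) →
      Pic R (fun x y => finrank ℂ (Wt t (pt α β x y))) (fun x y => Usable J k t (pt α β x y))

/-- **TOT** (60), uses CRD.  `S` = the pairs `(x, y)` such that `(x, y)` is a weight: finite, and in bijection with the weights (CRD); `dim`. -/
def Stmt_TOT : Prop :=
  ∀ (V : Type) [NormedAddCommGroup V] [InnerProductSpace ℂ V] [FiniteDimensional ℂ V]
    (J : V → V) (k t : Submodule ℝ (V →L[ℂ] V)), Fac J k t →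
    ∀ (α β : Dual ℝ t) (τ σ : t), Pair2 k t α β τ σ →
      ∃ S : Finset (ℤ × ℤ), finrank ℂ V = ∑ q ∈ S, finrank ℂ (Wt t (pt α β q.1 q.2))

/-- **SIG** (150), uses CRD STX.  No weights (odd, odd) for `A_1 × A_1`.  Otherwise `(1, 1)` is a weight (STX), and `dim V_(1,1) ≤ 1` because `(2, 2)` is not a root (`hlf`); let `0 ≠ v ∈ V_(1,1)`.  `E_1, F_1` for `α` and `E_2, F_2` for `β`:
`[F_1, F_2] ∈ k_(-2,-2) = 0`.  `‖F_1 u‖ ^ 2 = ⟨u, E_1 F_1 u⟩ = ⟨u, F_1 E_1 u⟩ + w(τ) ‖u‖ ^ 2 = ‖E_1 u‖ ^ 2 + w(τ) ‖u‖ ^ 2` for `u ∈ V_w` (`Cor.br`, `Cor.adj`), so `F_1 u ≠ 0` if `w(τ) > 0`, `u ≠ 0`; same for `F_2`, `σ`.  So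
`z = F_1 F_2 v ≠ 0` (`F_2 v ∈ V_(1,-1)`).  `J z ∈ V_(1,1)`, so `J z = c v`.  `J (F_i u) = - E_i (J u)` (from `adj` for `E_i`: `J (E_i u) = - X' J u` with `X' = F_i` because both are the adjoint of `E_i`; put `J u` for `u` and use `J J = -1`).
`J (F_1 F_2 (c v)) = J (F_1 F_2 (J z)) = E_1 E_2 J J z = - E_1 E_2 z`, and it is `conj c J z = conj c c v`.  So
`|c| ^ 2 ‖v‖ ^ 2 = - ⟨v, E_1 E_2 z⟩ = - ⟨F_2 F_1 v, z⟩ = - ‖z‖ ^ 2 < 0`, a contradiction. -/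
def Stmt_SIG : Prop :=
  ∀ (V : Type) [NormedAddCommGroup V] [InnerProductSpace ℂ V] [FiniteDimensional ℂ V]
    (J : V → V) (k t : Submodule ℝ (V →L[ℂ] V)), Fre J k t →
    ∀ (α β : Dual ℝ t) (τ σ : t), Pair2 k t α β τ σ →
      (∀ x y : ℤ, IsRoot k t (pt α β x y) ↔ RA x y) →
      ∀ x y : ℤ, IsWt t (pt α β x y) → ¬ (Odd x ∧ Odd y)

/-- **SPC** (150), uses CRD ISP (of the core).  The circuit `(1,0) + (-1,-2) + 2 (0,1) = 0`.  `b` = a unit vector of `V_(-1,-2)` (`jdim`), `0 ≠ X_β ∈ k_β`, `0 ≠ X ∈ k_{-α}` (both spaces are one-dimensional, `one`).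
ISP (3) for `U = V_(1,0)`, `B(u, v) = ⟨J u, X v⟩` (`sym`), `φ(u) = ⟨J b, X_β u⟩`: a unit vector `u ∈ V_(1,0)` with `⟨J u, X u⟩ = 0` and `⟨J b, X_β u⟩ = 0 = ⟨J u, X_β b⟩` (`sym`).  `v ∈ V_(0,1)` a unit vector
as in `Usable` (`use`, `dim ≥ 2`).  The family `(1,0), u; (-1,-2), b; (0,1), v` (`Fin 3`) is admissible: `diff`: the differences `± (2,2)`, `± (1,-1)`, `± (1,3)` are not roots (`RA`), nor zero; `sum`: `-((1,0)+(1,0)) = -α`: `⟨J u, X u⟩ = 0`;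
`(2,4)` is not a root; `-((0,1)+(0,1))`: usable; `-((1,0)+(-1,-2)) = (0,2) = β`: `⟨J u, X_β b⟩ = 0`, `⟨J b, X_β u⟩ = 0`; `± (1,1)` is not a root.  By `lid` three vectors of the two-dimensional `Dual ℝ t` are independent: contradiction. -/
def Stmt_SPC : Prop :=
  ∀ (V : Type) [NormedAddCommGroup V] [InnerProductSpace ℂ V] [FiniteDimensional ℂ V]
    (J : V → V) (k t : Submodule ℝ (V →L[ℂ] V)), Fre J k t →
    ∀ (α β : Dual ℝ t) (τ σ : t), Pair2 k t α β τ σ →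
      (∀ x y : ℤ, IsRoot k t (pt α β x y) ↔ RA x y) →
      ¬ (3 ≤ finrank ℂ (Wt t (pt α β 1 0)) ∧ IsWt t (pt α β 1 2) ∧
        2 ≤ finrank ℂ (Wt t (pt α β 0 1)))

/-- **CMA** (200).  Pure combinatorics, one side.  The points with `D ≠ 0` are (odd, even).  (Checked by computer.)  `RA (2x) (2y)` only for `(± 1, 0)` [(0, ± 1) is not (odd, even)], so every other point with `D ≠ 0` is usable and has `D = 1`.
(a) `D 7 0 = 0`: else `(7,0)`, `(3,0)` (string) are usable, nonadjacent, proportional (`two`).  So `|x| ≤ 5` (strings: `(x, y)` gives `(x, 0)` and `(7, 0)`).  (b) If `D 5 0 ≠ 0` then `(1,0)` is not usable, so `D 1 0 ≤ 1` (`two` for `(5,0)`, `(1,0)`).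
(c) Suppose `D 3 2 ≠ 0`; then `(3,-2)`, `(1,2)`, `(1,-2)`, `(3,0)`, `(1,0)` have `D ≠ 0`.  `(1,0)` is not usable (`three`: `(3,2)`, `(3,-2)`, `(1,0)`), so `D 1 0 ≤ 1`; `D 5 0 = 0` (`(5,0)`, `(3,2)`, `(3,-2)`); `D 1 4 = 0` (`(1,4)`, `(3,2)`, `(3,-2)`).  So all points are
in `{(± 1, 0), (± 1, ± 2), (± 3, 0), (± 3, ± 2)}`, the sum is `≤ 12`.  (d) `D 3 2 = 0`: every point has `y = 0` or `x = ± 1` (strings).  `D 3 0` and `D 1 4` are not both `≠ 0` (`three`: `(3,0)`, `(1,4)`, `(1,-2)`).  `D 1 6 = 0` (`(1,6)`, `(1,2)`, `(1,-4)`).  So the points are in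
`{(± 1,0), (± 1,± 2), (± 3,0), (± 5,0)}` (sum `≤ 6 + 4 + 2 = 12`, resp. with `(5,0)` `≤ 2 + 4 + 2 + 2`), or in `{(± 1,0), (± 1,± 2), (± 1,± 4)}` (sum `≤ 6 + 4 + 4 = 14`).
Second part (any two usable points are adjacent or equal up to sign): `(3,0)` and `(1,2)` are nonadjacent, so not both; `(1,4)`, `(1,-2)` are nonadjacent, so `D 1 4 = 0`; `D 3 2 = 0`.  So the points are in `{(± 1,0), (± 1,± 2)}` (sum `≤ 2 D 1 0 + 4`), or in
`{(± 1,0), (± 3,0), (± 5,0)}` with `D 5 0 ≠ 0` only if `D 1 0 ≤ 1` (sum `≤ 8`, and `≤ 6` if `D 1 0 ≤ 1`). -/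
def Stmt_CMA : Prop :=
  ∀ (D : ℤ → ℤ → ℕ) (U : ℤ → ℤ → Prop), Pic RA D U → (∀ x y, D x y ≠ 0 → Odd x ∧ Even y) →
    (∀ S : Finset (ℤ × ℤ), ∑ q ∈ S, D q.1 q.2 ≤ 14) ∧
    ((∀ x y x' y', U x y → U x' y' → ¬ NA RA x y x' y') →
      (∀ S : Finset (ℤ × ℤ), ∑ q ∈ S, D q.1 q.2 ≤ 10) ∧
      ((D 1 0 = 3 ∧ D 1 2 ≠ 0) ∨ ∀ S : Finset (ℤ × ℤ), ∑ q ∈ S, D q.1 q.2 ≤ 8) ∧
      (D 1 0 ≤ 1 → ∀ S : Finset (ℤ × ℤ), ∑ q ∈ S, D q.1 q.2 ≤ 6))

/-- **CMB** (150), uses CMA.  Pure combinatorics for `A_1 × A_1`.  (even, even) points would give `D 0 0 ≠ 0` (strings).  So the points are `P` = (odd, even) or `Q` = (even, odd).  `D_P x y = if Odd x ∧ Even y then D x y else 0`, `U_P x y = U x y ∧ Odd x ∧ Even y`;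
`D_Q x y = if Odd x ∧ Even y then D y x else 0`, `U_Q x y = U y x ∧ Odd x ∧ Even y`: both satisfy `Pic RA`, and CMA applies.  A point of `P` and one of `Q` are never adjacent (the difference and the sum are (odd, odd)).  Case 1: there are usable points in `P` and in `Q`.  Then two usable points
of `P` are never `NA` (`three` with a usable point of `Q`), same for `Q`, so both sums are `≤ 10`.  If the total is `≥ 17`, one of them, say `P`, is `≥ 9`, so `D 1 0 = 3` and `D 1 2 ≠ 0`, and the other one is `≥ 7`, so `2 ≤ D 0 1`: excluded; the other case by the other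
hypothesis.  Case 2: no usable point in `Q`: then only `(0, ± 1)` can have `D ≠ 0` (`us1`), and `D ≤ 1` (`us2`): the sum over `Q` is `≤ 2`, over `P` `≤ 14`.  Same if there is none in `P`. -/
def Stmt_CMB : Prop :=
  ∀ (D : ℤ → ℤ → ℕ) (U : ℤ → ℤ → Prop), Pic RA D U → (∀ x y, D x y ≠ 0 → ¬ (Odd x ∧ Odd y)) →
    ¬ (3 ≤ D 1 0 ∧ D 1 2 ≠ 0 ∧ 2 ≤ D 0 1) → ¬ (3 ≤ D 0 1 ∧ D 2 1 ≠ 0 ∧ 2 ≤ D 1 0) →
    ∀ S : Finset (ℤ × ℤ), ∑ q ∈ S, D q.1 q.2 ≤ 16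

/-- **CMC** (200).  Pure combinatorics for `C_2`.  (1) `D x y ≠ 0` implies `x + y` odd: both even gives `D 0 0 ≠ 0` (`strx`, `stry`); both odd gives `D 1 1 ≠ 0`, and the string of `(1,1)` with `j = 1` gives `D 0 0 ≠ 0`.  (2) `D 3 2 = 0`: otherwise `D 3 (-2) ≠ 0` (`stry`), `D 2 3 ≠ 0` (second
string, `x - y = 1`, `j = 1`), `D 0 3 ≠ 0` (`strx`); `(3,2)`, `(3,-2)`, `(0,3)` are usable (`us1`) and pairwise `NA`: `three`.  (3) all images of `(3,2)` under sign changes and exchange have `D = 0` (strings); in general `D (± x) (± y) ≠ 0` if one is (`strx`, `stry`), and `D y x ≠ 0` if `D x y ≠ 0` (second string with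
`j = x - y`).  (4) Let `D x y ≠ 0`, `x > y ≥ 0` (after sign changes and exchange; `x ≠ y` by (1)).  `y ≥ 2`: if `y` is even, `(x, 2)`, `(3, 2)` by strings; if `y` is odd, `(x, 3)`, `(4, 3)`, and the `(1,1)`-string gives `(3, 2)`.  `y = 1`: `x` is even; `x ≥ 4` gives `(4, 1)` and the second
string (`x - y = 3`, `j = 1`) `(3, 2)`.  `y = 0`: `x` odd; `x ≥ 5` gives `(5, 0)`, `(4, 1)` (second string), `(3, 2)`.  So `(x, y)` is `(1,0)`, `(2,1)` or `(3,0)`.  (5) The points are `(± 1,0)`, `(0,± 1)` with `D ≤ 3` and `(± 2,± 1)`, `(± 1,± 2)`, `(± 3,0)`, `(0,± 3)` with `D ≤ 1`: sum `≤ 12 + 12`. -/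
def Stmt_CMC : Prop :=
  ∀ (D : ℤ → ℤ → ℕ) (U : ℤ → ℤ → Prop), Pic RC D U →
    (∀ x y j : ℤ, D x y ≠ 0 → (0 ≤ j ∧ j ≤ x + y ∨ x + y ≤ j ∧ j ≤ 0) →
      D (x - j) (y - j) ≠ 0) →
    (∀ x y j : ℤ, D x y ≠ 0 → (0 ≤ j ∧ j ≤ x - y ∨ x - y ≤ j ∧ j ≤ 0) →
      D (x - j) (y + j) ≠ 0) →
    ∀ S : Finset (ℤ × ℤ), ∑ q ∈ S, D q.1 q.2 ≤ 24

/-- **R2F** (120), uses PAI CRD RS2 PIC TOT SIG SPC CMB CMC.  PAI gives a pair.  RS2, first alternative: the four roots give `2 + 4 ≤ d` (`rcard`, CRD: they are different), so `finrank V ≥ 18`; but TOT and CMB (with PIC, SIG, SPC and SPC for the exchanged pair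
`Pair2 k t β α σ τ`, `pt β α x y = pt α β y x`) give `finrank V ≤ 16`.  Second alternative: eight roots, `d ≥ 10`, `finrank V ≥ 26`, but TOT, CMC give `≤ 24`. -/
def Stmt_R2F : Prop :=
  ∀ (V : Type) [NormedAddCommGroup V] [InnerProductSpace ℂ V] [FiniteDimensional ℂ V]
    (J : V → V) (k t : Submodule ℝ (V →L[ℂ] V)), Fre J k t → finrank ℝ t = 2 →
    2 * (finrank ℝ k + 3) ≤ finrank ℂ V → False

/-- **FAC** (100).  The general facts from the core (`CompleteSpace V` from `FiniteDimensional.complete ℂ V`).  `brk`: `kC k` is closed under brackets (bilinearity, `Submodule.span_induction` twice) and the Jacobi identity. -/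
def Stmt_FAC : Prop :=
  Stmt_WTD → Stmt_WTO → Stmt_RTZ → Stmt_RTF → Stmt_RSY → Stmt_HEI → Stmt_ONE →
  ∀ (V : Type) [NormedAddCommGroup V] [InnerProductSpace ℂ V] [FiniteDimensional ℂ V]
    (J : V → V) (k t : Submodule ℝ (V →L[ℂ] V)),
    IsQuatStr J → IsLieSub J k → MaxAb k t → Fac J k t

end MPa8bd83
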