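/- MP_a8bd83_gt, block CMA: pure combinatorics, one side (typed by helper37). -/
import Pool.Agent.Work.MP_a8bd83_qk.Interface2

set_option autoImplicit false

namespace MPa8bd83

section

variable {D : ℤ → ℤ → ℕ} {U : ℤ → ℤ → Prop} (h : Pic RA D U)
  (hp : ∀ x y, D x y ≠ 0 → Odd x ∧ Even y)

include h in
theorem CMA_sx (x y x' : ℤ) (h1 : D x y ≠ 0) (h2 : 0 ≤ x) (h3 : 0 ≤ x') (h4 : x' ≤ x)
    (h5 : 2 ∣ x - x') : D x' y ≠ 0 :=
  h.strx x y x' h1 (by rw [abs_of_nonneg h2, abs_of_nonneg h3]; exact h4) h5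

include h in
theorem CMA_sy (x y y' : ℤ) (h1 : D x y ≠ 0) (h2 : 0 ≤ y) (h3 : 0 ≤ y') (h4 : y' ≤ y)
    (h5 : 2 ∣ y - y') : D x y' ≠ 0 :=
  h.stry x y y' h1 (by rw [abs_of_nonneg h2, abs_of_nonneg h3]; exact h4) h5

include h in
theorem CMA_ny (x y : ℤ) (h1 : D x y ≠ 0) : D x (-y) ≠ 0 :=
  h.stry x y (-y) h1 (by rw [abs_neg]) (by omega)

include h in
theorem CMA_abs (x y : ℤ) (h0 : D x y ≠ 0) : D |x| |y| ≠ 0 := by
  have h1 : D |x| y ≠ 0 := h.strx x y |x| h0 (by rw [abs_abs]) (by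
    rcases abs_choice x with hx | hx <;> rw [hx] <;> omega)
  exact h.stry |x| y |y| h1 (by rw [abs_abs]) (by
    rcases abs_choice y with hx | hx <;> rw [hx] <;> omega)

include h in
theorem CMA_70 : D 7 0 = 0 := by
  by_contra h0
  have h1 : D 3 0 ≠ 0 := CMA_sx h 7 0 3 h0 (by norm_num) (by norm_num) (by norm_num) (by norm_num)
  refine h.two 7 0 3 0 (h.us1 _ _ h0 ?_) (h.us1 _ _ h1 ?_) ?_ (by norm_num)
  · unfold RA; omega
  · unfold RA; omega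
  · unfold NA RA; omega

include h in
theorem CMA_50 (h5 : D 5 0 ≠ 0) : D 1 0 ≤ 1 := by
  by_contra h1
  refine h.two 5 0 1 0 (h.us1 _ _ h5 ?_) (h.us2 _ _ (by omega)) ?_ (by norm_num)
  · unfold RA; omega
  · unfold NA RA; omega

include h in
theorem CMA_32a (h0 : D 3 2 ≠ 0) : D 1 0 ≤ 1 ∧ D 5 0 = 0 ∧ D 1 4 = 0 := by
  have h1 : D 3 (-2) ≠ 0 := CMA_ny h 3 2 h0
  have u0 : U 3 2 := h.us1 _ _ h0 (by unfold RA; omega)
  have u1 : U 3 (-2) := h.us1 _ _ h1 (by unfold RA; omega)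
  refine ⟨?_, ?_, ?_⟩
  · by_contra h2
    refine h.three 3 2 3 (-2) 1 0 u0 u1 (h.us2 _ _ (by omega)) ?_ ?_ ?_
    · unfold NA RA; omega
    · unfold NA RA; omega
    · unfold NA RA; omega
  · by_contra h2
    refine h.three 3 2 3 (-2) 5 0 u0 u1 (h.us1 _ _ h2 (by unfold RA; omega)) ?_ ?_ ?_
    · unfold NA RA; omega
    · unfold NA RA; omega
    · unfold NA RA; omega
  · by_contra h2
    refine h.three 3 2 3 (-2) 1 4 u0 u1 (h.us1 _ _ h2 (by unfold RA; omega)) ?_ ?_ ?_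
    · unfold NA RA; omega
    · unfold NA RA; omega
    · unfold NA RA; omega

include h in
theorem CMA_16 : D 1 6 = 0 := by
  by_contra h0
  have h1 : D 1 2 ≠ 0 := CMA_sy h 1 6 2 h0 (by norm_num) (by norm_num) (by norm_num) (by norm_num)
  have h2 : D 1 (-4) ≠ 0 := CMA_ny h 1 4
    (CMA_sy h 1 6 4 h0 (by norm_num) (by norm_num) (by norm_num) (by norm_num))
  refine h.three 1 6 1 2 1 (-4) (h.us1 _ _ h0 (by unfold RA; omega))
    (h.us1 _ _ h1 (by unfold RA; omega)) (h.us1 _ _ h2 (by unfold RA; omega)) ?_ ?_ ?_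
  · unfold NA RA; omega
  · unfold NA RA; omega
  · unfold NA RA; omega

include h in
theorem CMA_3014 (h0 : D 3 0 ≠ 0) : D 1 4 = 0 := by
  by_contra h1
  have h2 : D 1 (-2) ≠ 0 := CMA_ny h 1 2
    (CMA_sy h 1 4 2 h1 (by norm_num) (by norm_num) (by norm_num) (by norm_num))
  refine h.three 3 0 1 4 1 (-2) (h.us1 _ _ h0 (by unfold RA; omega))
    (h.us1 _ _ h1 (by unfold RA; omega)) (h.us1 _ _ h2 (by unfold RA; omega)) ?_ ?_ ?_
  · unfold NA RA; omega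
  · unfold NA RA; omega
  · unfold NA RA; omega

include h hp in
/-- the possible points up to signs -/
theorem CMA_cone (a b : ℤ) (ha : 0 ≤ a) (hb : 0 ≤ b) (h0 : D a b ≠ 0) :
    (a = 1 ∧ b = 0) ∨ (a = 1 ∧ b = 2) ∨ (a = 3 ∧ b = 0 ∧ D 3 0 ≠ 0) ∨
      (a = 3 ∧ b = 2 ∧ D 3 2 ≠ 0) ∨ (a = 5 ∧ b = 0 ∧ D 5 0 ≠ 0) ∨
      (a = 1 ∧ b = 4 ∧ D 1 4 ≠ 0) := by
  obtain ⟨⟨a', ha'⟩, ⟨b', hb'⟩⟩ := hp a b h0
  have n70 := CMA_70 h
  have n16 := CMA_16 h
  have n3014 := CMA_3014 h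
  have n32 := CMA_32a h
  have c7 : a ≤ 5 := by
    by_contra hc
    exact CMA_sx h a 0 7 (CMA_sy h a b 0 h0 hb le_rfl hb (by omega)) ha (by norm_num) (by omega)
      (by omega) n70
  have c6 : b ≤ 4 := by
    by_contra hc
    exact CMA_sy h 1 b 6 (CMA_sx h a b 1 h0 ha (by norm_num) (by omega) (by omega)) hb
      (by norm_num) (by omega) (by omega) n16
  have ca : a = 1 ∨ a = 3 ∨ a = 5 := by omega
  have cb : b = 0 ∨ b = 2 ∨ b = 4 := by omega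
  have g30 : 3 ≤ a → D 3 0 ≠ 0 := fun h3 =>
    CMA_sx h a 0 3 (CMA_sy h a b 0 h0 hb le_rfl hb (by omega)) ha (by norm_num) h3 (by omega)
  have g32 : 3 ≤ a → 2 ≤ b → D 3 2 ≠ 0 := fun h3 h2 =>
    CMA_sx h a 2 3 (CMA_sy h a b 2 h0 hb (by norm_num) h2 (by omega)) ha (by norm_num) h3
      (by omega)
  have g14 : 4 ≤ b → D 1 4 ≠ 0 := fun h4 =>
    CMA_sy h 1 b 4 (CMA_sx h a b 1 h0 ha (by norm_num) (by omega) (by omega)) hb (by norm_num) h4
      (by omega)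
  have g50 : 5 ≤ a → D 5 0 ≠ 0 := fun h3 =>
    CMA_sx h a 0 5 (CMA_sy h a b 0 h0 hb le_rfl hb (by omega)) ha (by norm_num) h3 (by omega)
  rcases ca with rfl | rfl | rfl <;> rcases cb with rfl | rfl | rfl
  · left; exact ⟨rfl, rfl⟩
  · right; left; exact ⟨rfl, rfl⟩
  · right; right; right; right; right; exact ⟨rfl, rfl, h0⟩
  · right; right; left; exact ⟨rfl, rfl, h0⟩
  · right; right; right; left; exact ⟨rfl, rfl, h0⟩
  · exact absurd (n3014 (g30 le_rfl)) (g14 le_rfl)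
  · right; right; right; right; left; exact ⟨rfl, rfl, h0⟩
  · exact absurd (n32 (g32 (by norm_num) le_rfl)).2.1 (g50 le_rfl)
  · exact absurd (n3014 (g30 (by norm_num))) (g14 le_rfl)

/-- the bound for a sum with the support in a finite set -/
theorem CMA_bd (T : Finset (ℤ × ℤ)) (hT : ∀ x y, D x y ≠ 0 → (x, y) ∈ T) (S : Finset (ℤ × ℤ)) :
    ∑ q ∈ S, D q.1 q.2 ≤ ∑ q ∈ T, D q.1 q.2 :=
  Finset.sum_le_sum_of_ne_zero fun q _ hq => hT q.1 q.2 hq

/-- all the possible points -/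
def CMA_T : Finset (ℤ × ℤ) :=
  {(1, 0), (-1, 0), (1, 2), (-1, 2), (1, -2), (-1, -2), (1, 4), (-1, 4), (1, -4), (-1, -4),
    (3, 0), (-3, 0), (3, 2), (-3, 2), (3, -2), (-3, -2), (5, 0), (-5, 0)}

theorem CMA_exp : ∑ q ∈ CMA_T, D q.1 q.2 = D 1 0 + (D (-1) 0 + (D 1 2 + (D (-1) 2 + (D 1 (-2) +
    (D (-1) (-2) + (D 1 4 + (D (-1) 4 + (D 1 (-4) + (D (-1) (-4) + (D 3 0 + (D (-3) 0 + (D 3 2 +
    (D (-3) 2 + (D 3 (-2) + (D (-3) (-2) + (D 5 0 + D (-5) 0)))))))))))))))) := by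
  rw [CMA_T, Finset.sum_insert (by decide), Finset.sum_insert (by decide),
    Finset.sum_insert (by decide), Finset.sum_insert (by decide), Finset.sum_insert (by decide),
    Finset.sum_insert (by decide), Finset.sum_insert (by decide), Finset.sum_insert (by decide),
    Finset.sum_insert (by decide), Finset.sum_insert (by decide), Finset.sum_insert (by decide),
    Finset.sum_insert (by decide), Finset.sum_insert (by decide), Finset.sum_insert (by decide),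
    Finset.sum_insert (by decide), Finset.sum_insert (by decide), Finset.sum_insert (by decide),
    Finset.sum_singleton]

include h hp in
theorem CMA_mem (x y : ℤ) (h0 : D x y ≠ 0) : (x, y) ∈ CMA_T := by
  have key : ∀ a b : ℤ, |x| = a → |y| = b → (a, b) ∈ CMA_T → (-a, b) ∈ CMA_T → (a, -b) ∈ CMA_T →
      (-a, -b) ∈ CMA_T → (x, y) ∈ CMA_T := by
    intro a b ha hb m1 m2 m3 m4
    have hxa : x = a ∨ x = -a := by
      rcases abs_choice x with hc | hc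
      · left; rw [← hc, ha]
      · right; rw [← ha, hc, neg_neg]
    have hyb : y = b ∨ y = -b := by
      rcases abs_choice y with hc | hc
      · left; rw [← hc, hb]
      · right; rw [← hb, hc, neg_neg]
    rcases hxa with hxa | hxa <;> rcases hyb with hyb | hyb <;> rw [hxa, hyb] <;> assumption
  rcases CMA_cone h hp |x| |y| (abs_nonneg x) (abs_nonneg y) (CMA_abs h x y h0) with
    ⟨e1, e2⟩ | ⟨e1, e2⟩ | ⟨e1, e2, -⟩ | ⟨e1, e2, -⟩ | ⟨e1, e2, -⟩ | ⟨e1, e2, -⟩ <;>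
    exact key _ _ e1 e2 (by decide) (by decide) (by decide) (by decide)

include h in
/-- the four points with the same absolute values -/
theorem CMA_four (a b : ℤ) (ha : 0 ≤ a) (hb : 0 ≤ b) (hR : ¬ RA (2 * a) (2 * b)) :
    (D a b ≤ 1 ∧ D (-a) b ≤ 1 ∧ D a (-b) ≤ 1 ∧ D (-a) (-b) ≤ 1) ∧
      (D a b = 0 → D (-a) b = 0 ∧ D a (-b) = 0 ∧ D (-a) (-b) = 0) := by
  have hR' : ∀ x y : ℤ, (x = a ∨ x = -a) → (y = b ∨ y = -b) → ¬ RA (2 * x) (2 * y) := by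
    intro x y hx hy
    unfold RA at hR ⊢
    omega
  refine ⟨⟨h.le1 _ _ (hR' _ _ (Or.inl rfl) (Or.inl rfl)), h.le1 _ _ (hR' _ _ (Or.inr rfl) (Or.inl rfl)),
    h.le1 _ _ (hR' _ _ (Or.inl rfl) (Or.inr rfl)), h.le1 _ _ (hR' _ _ (Or.inr rfl) (Or.inr rfl))⟩,
    fun h0 => ⟨?_, ?_, ?_⟩⟩
  · by_contra h1
    have := CMA_abs h _ _ h1
    rw [abs_neg, abs_of_nonneg ha, abs_of_nonneg hb] at this
    exact this h0
  · by_contra h1
    have := CMA_abs h _ _ h1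
    rw [abs_neg, abs_of_nonneg ha, abs_of_nonneg hb] at this
    exact this h0
  · by_contra h1
    have := CMA_abs h _ _ h1
    rw [abs_neg, abs_neg, abs_of_nonneg ha, abs_of_nonneg hb] at this
    exact this h0

include h in
/-- the total in terms of six numbers -/
theorem CMA_tot : ∃ n12 n14 n30 n32 n50 : ℕ,
    ∑ q ∈ CMA_T, D q.1 q.2 = 2 * D 1 0 + n12 + n14 + n30 + n32 + n50 ∧ D 1 0 ≤ 3 ∧
    n12 ≤ 4 ∧ n14 ≤ 4 ∧ n30 ≤ 2 ∧ n32 ≤ 4 ∧ n50 ≤ 2 ∧ (D 1 2 = 0 → n12 = 0) ∧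
    (D 1 4 = 0 → n14 = 0) ∧ (D 3 0 = 0 → n30 = 0) ∧ (D 3 2 = 0 → n32 = 0) ∧
    (D 5 0 = 0 → n50 = 0) := by
  have e1 : D (-1) 0 = D 1 0 := by
    have := h.neg 1 0
    rwa [neg_zero] at this
  obtain ⟨⟨a1, a2, a3, a4⟩, a5⟩ := CMA_four h 1 2 (by norm_num) (by norm_num) (by unfold RA; omega)
  obtain ⟨⟨b1, b2, b3, b4⟩, b5⟩ := CMA_four h 1 4 (by norm_num) (by norm_num) (by unfold RA; omega)
  obtain ⟨⟨c1, c2, c3, c4⟩, c5⟩ := CMA_four h 3 0 (by norm_num) (by norm_num) (by unfold RA; omega)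
  obtain ⟨⟨d1, d2, d3, d4⟩, d5⟩ := CMA_four h 3 2 (by norm_num) (by norm_num) (by unfold RA; omega)
  obtain ⟨⟨f1, f2, f3, f4⟩, f5⟩ := CMA_four h 5 0 (by norm_num) (by norm_num) (by unfold RA; omega)
  refine ⟨D 1 2 + D (-1) 2 + D 1 (-2) + D (-1) (-2), D 1 4 + D (-1) 4 + D 1 (-4) + D (-1) (-4),
    D 3 0 + D (-3) 0, D 3 2 + D (-3) 2 + D 3 (-2) + D (-3) (-2), D 5 0 + D (-5) 0, ?_, h.le3 1 0,
    by omega, by omega, by omega, by omega, by omega, ?_, ?_, ?_, ?_, ?_⟩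
  · rw [CMA_exp, e1]
    ring
  · intro h0
    obtain ⟨g1, g2, g3⟩ := a5 h0
    rw [h0, g1, g2, g3]
  · intro h0
    obtain ⟨g1, g2, g3⟩ := b5 h0
    rw [h0, g1, g2, g3]
  · intro h0
    rw [h0, (c5 h0).1]
  · intro h0
    obtain ⟨g1, g2, g3⟩ := d5 h0
    rw [h0, g1, g2, g3]
  · intro h0
    rw [h0, (f5 h0).1]

end

theorem p_CMA : Stmt_CMA := by
  intro D U h hp
  obtain ⟨n12, n14, n30, n32, n50, ht, h10, b12, b14, b30, b32, b50, z12, z14, z30, z32, z50⟩ :=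
    CMA_tot h
  have hS := CMA_bd CMA_T (CMA_mem h hp)
  have q50 := CMA_50 h
  have q32 := CMA_32a h
  have q3014 := CMA_3014 h
  have r32 : D 3 2 ≠ 0 → D 3 0 ≠ 0 := fun h0 =>
    CMA_sy h 3 2 0 h0 (by norm_num) (by norm_num) (by norm_num) (by norm_num)
  have r50 : D 5 0 ≠ 0 → D 3 0 ≠ 0 := fun h0 =>
    CMA_sx h 5 0 3 h0 (by norm_num) (by norm_num) (by norm_num) (by norm_num)
  refine ⟨fun S => (hS S).trans ?_, fun hU => ?_⟩
  · rw [ht]
    omega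
  · have s1 : D 3 0 ≠ 0 → D 1 2 = 0 := by
      intro h0
      by_contra h1
      refine hU 3 0 1 2 (h.us1 _ _ h0 (by unfold RA; omega)) (h.us1 _ _ h1 (by unfold RA; omega)) ?_
      unfold NA RA; omega
    have s2 : D 1 4 = 0 := by
      by_contra h1
      have h2 : D 1 (-2) ≠ 0 := CMA_ny h 1 2
        (CMA_sy h 1 4 2 h1 (by norm_num) (by norm_num) (by norm_num) (by norm_num))
      refine hU 1 4 1 (-2) (h.us1 _ _ h1 (by unfold RA; omega))
        (h.us1 _ _ h2 (by unfold RA; omega)) ?_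
      unfold NA RA; omega
    have s3 : D 3 2 = 0 := by
      by_contra h1
      have h2 : D 1 2 ≠ 0 :=
        CMA_sx h 3 2 1 h1 (by norm_num) (by norm_num) (by norm_num) (by norm_num)
      exact h2 (s1 (r32 h1))
    have z14' := z14 s2
    have z32' := z32 s3
    refine ⟨fun S => (hS S).trans ?_, ?_, fun h1 S => (hS S).trans ?_⟩
    · rw [ht]
      omega
    · by_cases hc : D 1 0 = 3 ∧ D 1 2 ≠ 0
      · exact Or.inl hc
      · refine Or.inr fun S => (hS S).trans ?_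
        rw [ht]
        omega
    · rw [ht]
      omega

end MPa8bd83
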