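import Pool.Agent.Work.MP_a8bd83_qk.Interface2

/-! Block CMB: combinatorics for the root system A1 x A1. -/

set_option autoImplicit false

namespace MPa8bd83

open Module

theorem CMB_RA_swap (x y : ℤ) : RA x y ↔ RA y x := by
  unfold RA
  tauto

theorem CMB_NA_swap (x y x' y' : ℤ) (h : NA RA x y x' y') : NA RA y x y' x' := by
  obtain ⟨h1, h2, h3, h4⟩ := h
  exact ⟨h1.symm, h2.symm, fun h => h3 ((CMB_RA_swap _ _).1 h),
    fun h => h4 ((CMB_RA_swap _ _).1 h)⟩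

/-- exchange of the coordinates -/
theorem CMB_T {D : ℤ → ℤ → ℕ} {U : ℤ → ℤ → Prop} (h : Pic RA D U) :
    Pic RA (fun x y => D y x) (fun x y => U y x) where
  bdd := by
    obtain ⟨M, hM⟩ := h.bdd
    exact ⟨M, fun x y hxy => ⟨(hM y x hxy).2, (hM y x hxy).1⟩⟩
  neg := fun x y => h.neg y x
  zero := h.zero
  le3 := fun x y => h.le3 y x
  le1 := fun x y hxy => h.le1 y x (fun h' => hxy ((CMB_RA_swap _ _).1 h'))
  usw := fun x y hxy => h.usw y x hxy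
  us1 := fun x y hxy hR => h.us1 y x hxy (fun h' => hR ((CMB_RA_swap _ _).1 h'))
  us2 := fun x y hxy => h.us2 y x hxy
  strx := fun x y x' h1 h2 h3 => h.stry y x x' h1 h2 h3
  stry := fun x y y' h1 h2 h3 => h.strx y x y' h1 h2 h3
  two := fun x y x' y' h1 h2 h3 h4 =>
    h.two y x y' x' h1 h2 (CMB_NA_swap _ _ _ _ h3) h4.symm
  three := fun x y x' y' x'' y'' h1 h2 h3 h4 h5 h6 =>
    h.three y x y' x' y'' x'' h1 h2 h3 (CMB_NA_swap _ _ _ _ h4) (CMB_NA_swap _ _ _ _ h5)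
      (CMB_NA_swap _ _ _ _ h6)

/-- the part with odd first and even second coordinate -/
def CMB_D (D : ℤ → ℤ → ℕ) (x y : ℤ) : ℕ := if x % 2 = 1 ∧ y % 2 = 0 then D x y else 0

def CMB_U (U : ℤ → ℤ → Prop) (x y : ℤ) : Prop := U x y ∧ x % 2 = 1 ∧ y % 2 = 0

theorem CMB_D_pos (D : ℤ → ℤ → ℕ) {x y : ℤ} (h : x % 2 = 1 ∧ y % 2 = 0) :
    CMB_D D x y = D x y := if_pos h

theorem CMB_D_ne {D : ℤ → ℤ → ℕ} {x y : ℤ} (h : CMB_D D x y ≠ 0) :
    (x % 2 = 1 ∧ y % 2 = 0) ∧ D x y ≠ 0 := by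
  by_cases h1 : x % 2 = 1 ∧ y % 2 = 0
  · rw [CMB_D_pos D h1] at h
    exact ⟨h1, h⟩
  · exact absurd (if_neg h1) h

theorem CMB_D_le (D : ℤ → ℤ → ℕ) (x y : ℤ) : CMB_D D x y ≤ D x y := by
  unfold CMB_D
  split_ifs
  · exact le_refl _
  · exact Nat.zero_le _

theorem CMB_pic {D : ℤ → ℤ → ℕ} {U : ℤ → ℤ → Prop} (h : Pic RA D U) :
    Pic RA (CMB_D D) (CMB_U U) where
  bdd := by
    obtain ⟨M, hM⟩ := h.bdd
    exact ⟨M, fun x y hxy => hM x y (CMB_D_ne hxy).2⟩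
  neg := by
    intro x y
    unfold CMB_D
    rw [h.neg]
    have e : ((-x) % 2 = 1 ∧ (-y) % 2 = 0) ↔ (x % 2 = 1 ∧ y % 2 = 0) := by omega
    simp only [e]
  zero := by
    unfold CMB_D
    rw [if_neg (by omega)]
  le3 := fun x y => (CMB_D_le D x y).trans (h.le3 x y)
  le1 := fun x y hxy => (CMB_D_le D x y).trans (h.le1 x y hxy)
  usw := by
    rintro x y ⟨h1, h2⟩
    rw [CMB_D_pos D h2]
    exact h.usw x y h1
  us1 := by
    intro x y h1 h2
    obtain ⟨h3, h4⟩ := CMB_D_ne h1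
    exact ⟨h.us1 x y h4 h2, h3⟩
  us2 := by
    intro x y h1
    obtain ⟨h3, -⟩ := CMB_D_ne (D := D) (x := x) (y := y) (by omega)
    exact ⟨h.us2 x y (h1.trans (CMB_D_le D x y)), h3⟩
  strx := by
    intro x y x' h1 h2 h3
    obtain ⟨h4, h5⟩ := CMB_D_ne h1
    have h6 : x' % 2 = 1 ∧ y % 2 = 0 := by omega
    rw [CMB_D_pos D h6]
    exact h.strx x y x' h5 h2 h3
  stry := by
    intro x y y' h1 h2 h3
    obtain ⟨h4, h5⟩ := CMB_D_ne h1
    have h6 : x % 2 = 1 ∧ y' % 2 = 0 := by omega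
    rw [CMB_D_pos D h6]
    exact h.stry x y y' h5 h2 h3
  two := fun x y x' y' h1 h2 h3 => h.two x y x' y' h1.1 h2.1 h3
  three := fun x y x' y' x'' y'' h1 h2 h3 h4 h5 h6 =>
    h.three x y x' y' x'' y'' h1.1 h2.1 h3.1 h4 h5 h6

/-- no usable points -/
theorem CMB_small {D : ℤ → ℤ → ℕ} {U : ℤ → ℤ → Prop} (h : Pic RA D U)
    (hU : ∀ x y, ¬ U x y) (hp : ∀ x y, D x y ≠ 0 → x % 2 = 1 ∧ y % 2 = 0) (S : Finset (ℤ × ℤ)) :
    ∑ q ∈ S, D q.1 q.2 ≤ 2 := by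
  classical
  have h1 : ∀ q ∈ S, D q.1 q.2 ≤ if q ∈ ({(1, 0), (-1, 0)} : Finset (ℤ × ℤ)) then 1 else 0 := by
    intro q _
    by_cases h0 : D q.1 q.2 = 0
    · rw [h0]
      exact Nat.zero_le _
    · have h2 : D q.1 q.2 ≤ 1 := by
        by_contra h3
        exact hU _ _ (h.us2 q.1 q.2 (by omega))
      have h4 : RA (2 * q.1) (2 * q.2) := by
        by_contra h5
        exact hU _ _ (h.us1 q.1 q.2 h0 h5)
      have h6 := hp q.1 q.2 h0
      have h7 : q ∈ ({(1, 0), (-1, 0)} : Finset (ℤ × ℤ)) := by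
        rw [Finset.mem_insert, Finset.mem_singleton, Prod.ext_iff, Prod.ext_iff]
        unfold RA at h4
        simp only
        omega
      rw [if_pos h7]
      exact h2
  calc ∑ q ∈ S, D q.1 q.2
      ≤ ∑ q ∈ S, (if q ∈ ({(1, 0), (-1, 0)} : Finset (ℤ × ℤ)) then 1 else 0) :=
        Finset.sum_le_sum h1
    _ = (S.filter fun q => q ∈ ({(1, 0), (-1, 0)} : Finset (ℤ × ℤ))).card :=
        (Finset.card_filter _ _).symm
    _ ≤ ({(1, 0), (-1, 0)} : Finset (ℤ × ℤ)).card := by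
        apply Finset.card_le_card
        intro q hq
        exact (Finset.mem_filter.1 hq).2
    _ ≤ 2 := Finset.card_le_two

theorem CMB_mixed {x y x' y' : ℤ} (h : x % 2 = 1 ∧ y % 2 = 0) (h' : x' % 2 = 0 ∧ y' % 2 = 1) :
    NA RA x y x' y' := by
  unfold NA RA
  omega

/-- two usable points of one part are never nonadjacent -/
theorem CMB_adj {D : ℤ → ℤ → ℕ} {U : ℤ → ℤ → Prop} (h : Pic RA D U) (a b : ℤ) (hab : U a b)
    (hpar : a % 2 = 0 ∧ b % 2 = 1) (x y x' y' : ℤ) (h1 : CMB_U U x y) (h2 : CMB_U U x' y') :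
    ¬ NA RA x y x' y' := fun h3 =>
  h.three x y x' y' a b h1.1 h2.1 hab h3 (CMB_mixed h1.2 hpar) (CMB_mixed h2.2 hpar)

theorem p_CMB (hCMA : Stmt_CMA) : Stmt_CMB := by
  intro D U h hoo e1 e2 S
  classical
  set E : ℤ → ℤ → ℕ := fun x y => D y x with hE
  set W : ℤ → ℤ → Prop := fun x y => U y x with hW
  have hT : Pic RA E W := CMB_T h
  have hP := CMB_pic h
  have hQ := CMB_pic hT
  have oP : ∀ x y, CMB_D D x y ≠ 0 → Odd x ∧ Even y := fun x y hxy =>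
    ⟨Int.odd_iff.2 (CMB_D_ne hxy).1.1, Int.even_iff.2 (CMB_D_ne hxy).1.2⟩
  have oQ : ∀ x y, CMB_D E x y ≠ 0 → Odd x ∧ Even y := fun x y hxy =>
    ⟨Int.odd_iff.2 (CMB_D_ne hxy).1.1, Int.even_iff.2 (CMB_D_ne hxy).1.2⟩
  obtain ⟨p14, pR⟩ := hCMA _ _ hP oP
  obtain ⟨q14, qR⟩ := hCMA _ _ hQ oQ
  have hsplit : ∀ x y, D x y = CMB_D D x y + CMB_D E y x := by
    intro x y
    by_cases h0 : D x y = 0
    · have h3 := CMB_D_le D x y
      have h4 : CMB_D E y x ≤ D x y := CMB_D_le E y x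
      omega
    · have h5 : ¬ (x % 2 = 1 ∧ y % 2 = 1) := by
        rintro ⟨h6, h7⟩
        exact hoo x y h0 ⟨Int.odd_iff.2 h6, Int.odd_iff.2 h7⟩
      have h8 : ¬ (x % 2 = 0 ∧ y % 2 = 0) := by
        rintro ⟨h6, h7⟩
        have h9 := h.strx x y 0 h0 (by simp) (by omega)
        have h10 := h.stry 0 y 0 h9 (by simp) (by omega)
        exact h10 h.zero
      by_cases h11 : x % 2 = 1
      · have h12 : x % 2 = 1 ∧ y % 2 = 0 := by omega
        have h13 : ¬ (y % 2 = 1 ∧ x % 2 = 0) := by omega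
        rw [CMB_D_pos D h12]
        unfold CMB_D
        rw [if_neg h13, add_zero]
      · have h12 : ¬ (x % 2 = 1 ∧ y % 2 = 0) := by omega
        have h13 : y % 2 = 1 ∧ x % 2 = 0 := by omega
        rw [CMB_D_pos E h13]
        unfold CMB_D
        rw [if_neg h12, zero_add]
  have hsum : ∑ q ∈ S, D q.1 q.2 = ∑ q ∈ S, CMB_D D q.1 q.2 +
      ∑ q ∈ S.map (Equiv.prodComm ℤ ℤ).toEmbedding, CMB_D E q.1 q.2 := by
    rw [Finset.sum_map, ← Finset.sum_add_distrib]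
    apply Finset.sum_congr rfl
    intro q _
    exact hsplit q.1 q.2
  set S' := S.map (Equiv.prodComm ℤ ℤ).toEmbedding with hS'
  have v1 : CMB_D D 1 0 = D 1 0 := CMB_D_pos D (by omega)
  have v2 : CMB_D D 1 2 = D 1 2 := CMB_D_pos D (by omega)
  have v3 : CMB_D E 1 0 = D 0 1 := CMB_D_pos E (by omega)
  have v4 : CMB_D E 1 2 = D 2 1 := CMB_D_pos E (by omega)
  rw [hsum]
  by_cases uP : ∃ x y, CMB_U U x y
  · by_cases uQ : ∃ x y, CMB_U W x y
    · obtain ⟨a, b, hab⟩ := uP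
      obtain ⟨c, d, hcd⟩ := uQ
      obtain ⟨p10, p8, p6⟩ := pR (fun x y x' y' => CMB_adj h d c hcd.1 ⟨hcd.2.2, hcd.2.1⟩ x y x' y')
      obtain ⟨q10, q8, q6⟩ := qR (fun x y x' y' => CMB_adj hT b a hab.1 ⟨hab.2.2, hab.2.1⟩ x y x' y')
      have t1 := p10 S
      have t2 := q10 S'
      by_contra hcon
      rcases p8 with ⟨p8a, p8b⟩ | p8
      · by_cases hq1 : CMB_D E 1 0 ≤ 1
        · have t3 := q6 hq1 S'
          omega
        · exact e1 ⟨by omega, by rw [← v2]; exact p8b, by omega⟩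
      · have t3 := p8 S
        rcases q8 with ⟨q8a, q8b⟩ | q8
        · by_cases hp1 : CMB_D D 1 0 ≤ 1
          · have t4 := p6 hp1 S
            omega
          · exact e2 ⟨by omega, by rw [← v4]; exact q8b, by omega⟩
        · have t4 := q8 S'
          omega
    · have t1 := p14 S
      have t2 := CMB_small hQ (fun x y hxy => uQ ⟨x, y, hxy⟩) (fun x y hxy => (CMB_D_ne hxy).1) S'
      omega
  · have t1 := q14 S'
    have t2 := CMB_small hP (fun x y hxy => uP ⟨x, y, hxy⟩) (fun x y hxy => (CMB_D_ne hxy).1) S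
    omega

end MPa8bd83
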