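/- MP_a8bd83_gt, block CMC: pure combinatorics for C_2 (typed by helper37). -/
import Pool.Agent.Work.MP_a8bd83_qk.Interface2

set_option autoImplicit false

namespace MPa8bd83

/-- the possible points -/
def CMC_T : Finset (ℤ × ℤ) :=
  {(1, 0), (-1, 0), (0, 1), (0, -1), (2, 1), (2, -1), (-2, 1), (-2, -1),
    (1, 2), (1, -2), (-1, 2), (-1, -2), (3, 0), (-3, 0), (0, 3), (0, -3)}

/-- the bounds -/
def CMC_w (q : ℤ × ℤ) : ℕ :=
  if q = (1, 0) ∨ q = (-1, 0) ∨ q = (0, 1) ∨ q = (0, -1) then 3 else 1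

theorem CMC_sum : ∑ q ∈ CMC_T, CMC_w q = 24 := by decide

theorem CMC_32 {D : ℤ → ℤ → ℕ} {U : ℤ → ℤ → Prop} (h : Pic RC D U)
    (s2 : ∀ x y j : ℤ, D x y ≠ 0 → (0 ≤ j ∧ j ≤ x - y ∨ x - y ≤ j ∧ j ≤ 0) →
      D (x - j) (y + j) ≠ 0) : D 3 2 = 0 := by
  by_contra h0
  have h1 : D 3 (-2) ≠ 0 := h.stry 3 2 (-2) h0 (by norm_num) (by norm_num)
  have h2 : D 2 3 ≠ 0 := by
    have := s2 3 2 1 h0 (by norm_num)
    norm_num at this
    exact this
  have h3 : D 0 3 ≠ 0 := h.strx 2 3 0 h2 (by norm_num) (by norm_num)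
  refine h.three 3 2 3 (-2) 0 3 (h.us1 _ _ h0 ?_) (h.us1 _ _ h1 ?_) (h.us1 _ _ h3 ?_) ?_ ?_ ?_
  · unfold RC RA; omega
  · unfold RC RA; omega
  · unfold RC RA; omega
  · unfold NA RC RA; omega
  · unfold NA RC RA; omega
  · unfold NA RC RA; omega

theorem CMC_cone {D : ℤ → ℤ → ℕ} {U : ℤ → ℤ → Prop} (h : Pic RC D U)
    (s1 : ∀ x y j : ℤ, D x y ≠ 0 → (0 ≤ j ∧ j ≤ x + y ∨ x + y ≤ j ∧ j ≤ 0) →
      D (x - j) (y - j) ≠ 0)
    (s2 : ∀ x y j : ℤ, D x y ≠ 0 → (0 ≤ j ∧ j ≤ x - y ∨ x - y ≤ j ∧ j ≤ 0) →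
      D (x - j) (y + j) ≠ 0) (a b : ℤ) (hb : 0 ≤ b) (hab : b ≤ a) (h0 : D a b ≠ 0) :
    (a = 1 ∧ b = 0) ∨ (a = 2 ∧ b = 1) ∨ (a = 3 ∧ b = 0) := by
  have hz := h.zero
  have h32 := CMC_32 h s2
  have sx : ∀ x y x', D x y ≠ 0 → 0 ≤ x → 0 ≤ x' → x' ≤ x → 2 ∣ x - x' → D x' y ≠ 0 := by
    intro x y x' h1 h2 h3 h4 h5
    exact h.strx x y x' h1 (by rw [abs_of_nonneg h2, abs_of_nonneg h3]; exact h4) h5
  have sy : ∀ x y y', D x y ≠ 0 → 0 ≤ y → 0 ≤ y' → y' ≤ y → 2 ∣ y - y' → D x y' ≠ 0 := by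
    intro x y x' h1 h2 h3 h4 h5
    exact h.stry x y x' h1 (by rw [abs_of_nonneg h2, abs_of_nonneg h3]; exact h4) h5
  have n41 : D 4 1 = 0 := by
    by_contra h1
    have := s2 4 1 1 h1 (by norm_num)
    norm_num at this
    exact this h32
  have n43 : D 4 3 = 0 := by
    by_contra h1
    have := s1 4 3 1 h1 (by norm_num)
    norm_num at this
    exact this h32
  have n50 : D 5 0 = 0 := by
    by_contra h1
    have := s2 5 0 1 h1 (by norm_num)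
    norm_num at this
    exact this n41
  rcases Int.even_or_odd a with ⟨a', ha⟩ | ⟨a', ha⟩ <;> rcases Int.even_or_odd b with ⟨b', hb'⟩ | ⟨b', hb'⟩
  · exact absurd hz (sy 0 b 0 (sx a b 0 h0 (by omega) (by omega) (by omega) (by omega))
      (by omega) (by omega) (by omega) (by omega))
  · -- a even, b odd
    rcases lt_or_ge b 3 with h1 | h1
    · have hb1 : b = 1 := by omega
      subst hb1
      rcases lt_or_ge a 4 with h2 | h2
      · right; left; omega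
      · exact absurd n41 (sx a 1 4 h0 (by omega) (by omega) (by omega) (by omega))
    · exact absurd n43 (sx a 3 4 (sy a b 3 h0 (by omega) (by omega) (by omega) (by omega))
        (by omega) (by omega) (by omega) (by omega))
  · -- a odd, b even
    rcases lt_or_ge b 2 with h1 | h1
    · have hb1 : b = 0 := by omega
      subst hb1
      rcases lt_or_ge a 5 with h2 | h2
      · omega
      · exact absurd n50 (sx a 0 5 h0 (by omega) (by omega) (by omega) (by omega))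
    · exact absurd h32 (sx a 2 3 (sy a b 2 h0 (by omega) (by omega) (by omega) (by omega))
        (by omega) (by omega) (by omega) (by omega))
  · -- both odd
    have h1 : D 1 1 ≠ 0 := sy 1 b 1 (sx a b 1 h0 (by omega) (by omega) (by omega) (by omega))
      (by omega) (by omega) (by omega) (by omega)
    have := s1 1 1 1 h1 (by norm_num)
    norm_num at this
    exact absurd hz this

theorem CMC_mem {D : ℤ → ℤ → ℕ} {U : ℤ → ℤ → Prop} (h : Pic RC D U)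
    (s1 : ∀ x y j : ℤ, D x y ≠ 0 → (0 ≤ j ∧ j ≤ x + y ∨ x + y ≤ j ∧ j ≤ 0) →
      D (x - j) (y - j) ≠ 0)
    (s2 : ∀ x y j : ℤ, D x y ≠ 0 → (0 ≤ j ∧ j ≤ x - y ∨ x - y ≤ j ∧ j ≤ 0) →
      D (x - j) (y + j) ≠ 0) (x y : ℤ) (h0 : D x y ≠ 0) : (x, y) ∈ CMC_T := by
  have h1 : D |x| y ≠ 0 := h.strx x y |x| h0 (by rw [abs_abs]) (by
    rcases abs_choice x with hx | hx <;> rw [hx] <;> omega)
  have h2 : D |x| |y| ≠ 0 := h.stry |x| y |y| h1 (by rw [abs_abs]) (by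
    rcases abs_choice y with hx | hx <;> rw [hx] <;> omega)
  have h3 : D |y| |x| ≠ 0 := by
    have := s2 |x| |y| (|x| - |y|) h2 (by omega)
    have e1 : |x| - (|x| - |y|) = |y| := by ring
    have e2 : |y| + (|x| - |y|) = |x| := by ring
    rwa [e1, e2] at this
  have hx := abs_nonneg x
  have hy := abs_nonneg y
  have key : ∀ a b : ℤ, |x| = a → |y| = b → (a, b) ∈ CMC_T → (-a, b) ∈ CMC_T → (a, -b) ∈ CMC_T →
      (-a, -b) ∈ CMC_T → (x, y) ∈ CMC_T := by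
    intro a b ha hb m1 m2 m3 m4
    have hxa : x = a ∨ x = -a := by
      rcases abs_choice x with hc | hc
      · left; rw [← hc, ha]
      · right; rw [← ha, hc, neg_neg]
    have hyb : y = b ∨ y = -b := by
      rcases abs_choice y with hc | hc
      · left; rw [← hc, hb]
      · right; rw [← hb, hc, neg_neg]
    rcases hxa with hxa | hxa <;> rcases hyb with hyb | hyb <;> rw [hxa, hyb] <;> assumption
  rcases le_total |y| |x| with h4 | h4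
  · rcases CMC_cone h s1 s2 |x| |y| hy h4 h2 with ⟨e1, e2⟩ | ⟨e1, e2⟩ | ⟨e1, e2⟩ <;>
      exact key _ _ e1 e2 (by decide) (by decide) (by decide) (by decide)
  · rcases CMC_cone h s1 s2 |y| |x| hx h4 h3 with ⟨e1, e2⟩ | ⟨e1, e2⟩ | ⟨e1, e2⟩ <;>
      exact key _ _ e2 e1 (by decide) (by decide) (by decide) (by decide)

theorem CMC_le {D : ℤ → ℤ → ℕ} {U : ℤ → ℤ → Prop} (h : Pic RC D U) (q : ℤ × ℤ)
    (hq : q ∈ CMC_T) : D q.1 q.2 ≤ CMC_w q := by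
  unfold CMC_w
  split_ifs with h1
  · exact h.le3 _ _
  · refine h.le1 _ _ ?_
    obtain ⟨x, y⟩ := q
    simp only [CMC_T, Finset.mem_insert, Finset.mem_singleton, Prod.mk.injEq] at hq
    rcases hq with ⟨rfl, rfl⟩ | ⟨rfl, rfl⟩ | ⟨rfl, rfl⟩ | ⟨rfl, rfl⟩ | ⟨rfl, rfl⟩ | ⟨rfl, rfl⟩ |
      ⟨rfl, rfl⟩ | ⟨rfl, rfl⟩ | ⟨rfl, rfl⟩ | ⟨rfl, rfl⟩ | ⟨rfl, rfl⟩ | ⟨rfl, rfl⟩ | ⟨rfl, rfl⟩ |
      ⟨rfl, rfl⟩ | ⟨rfl, rfl⟩ | ⟨rfl, rfl⟩ <;>
      first
      | exact absurd (by decide) h1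
      | (unfold RC RA; norm_num)

theorem p_CMC : Stmt_CMC := by
  intro D U h s1 s2 S
  calc ∑ q ∈ S, D q.1 q.2 ≤ ∑ q ∈ CMC_T, D q.1 q.2 :=
        Finset.sum_le_sum_of_ne_zero fun q _ hq => CMC_mem h s1 s2 q.1 q.2 hq
    _ ≤ ∑ q ∈ CMC_T, CMC_w q := Finset.sum_le_sum fun q hq => CMC_le h q hq
    _ = 24 := CMC_sum

end MPa8bd83
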