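import Pool.Agent.Work.MP_a8bd83_qk.Interface2

set_option autoImplicit false

/-! # CN1: the count -/

namespace MPa8bd83

open Module

theorem CN1_half {W : Type} [AddCommGroup W] [Module ℝ W] (h : W) (s : Finset (Dual ℝ W))
    (f : Dual ℝ W → ℕ) (hs : ∀ w ∈ s, w h ≠ 0) (hn : ∀ w ∈ s, -w ∈ s)
    (hf : ∀ w, f (-w) = f w) :
    ∑ w ∈ s, f w = 2 * ∑ w ∈ s.filter (fun w => 0 < w h), f w := by
  classical
  rw [← Finset.sum_filter_add_sum_filter_not s (fun w => 0 < w h) f, two_mul]
  congr 1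
  refine Finset.sum_nbij' (fun w => -w) (fun w => -w) ?_ ?_ ?_ ?_ ?_
  · intro w hw
    rw [Finset.mem_filter] at hw ⊢
    refine ⟨hn w hw.1, ?_⟩
    have h1 := hs w hw.1
    have h2 : w h < 0 := lt_of_le_of_ne (not_lt.mp hw.2) h1
    rw [LinearMap.neg_apply]
    linarith
  · intro w hw
    rw [Finset.mem_filter] at hw ⊢
    refine ⟨hn w hw.1, ?_⟩
    rw [LinearMap.neg_apply]
    linarith [hw.2]
  · intro w _
    exact neg_neg w
  · intro w _
    exact neg_neg w
  · intro w _
    exact (hf w).symm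

theorem p_CN1 (hGEN : Stmt_GEN) : Stmt_CN1 := by
  classical
  intro V _ _ _ J k t hF
  set s := hF.fac.rfin.toFinset with hs
  set W := hF.fac.wfin.toFinset with hW
  have ms : ∀ α, α ∈ s ↔ IsRoot k t α := fun α => by rw [hs, Set.Finite.mem_toFinset]; rfl
  have mW : ∀ w, w ∈ W ↔ IsWt t w := fun w => by rw [hW, Set.Finite.mem_toFinset]; rfl
  obtain ⟨h, hh⟩ := hGEN t (s ∪ W) (by
    intro φ hφ
    rcases Finset.mem_union.mp hφ with h1 | h1
    · exact ((ms φ).mp h1).1
    · exact hF.vze φ ((mW φ).mp h1))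
  have hs0 : ∀ α ∈ s, α h ≠ 0 := fun α hα => hh α (Finset.mem_union_left _ hα)
  have hW0 : ∀ w ∈ W, w h ≠ 0 := fun w hw => hh w (Finset.mem_union_right _ hw)
  have hWn : ∀ w ∈ W, -w ∈ W := by
    intro w hw
    rw [mW] at hw ⊢
    intro h1
    apply hw
    have h2 := hF.fac.jdim w
    rw [h1, finrank_bot] at h2
    exact Submodule.finrank_eq_zero.mp h2.symm
  set P := W.filter (fun w => 0 < w h) with hP
  set A := P.filter (fun w => Usable J k t w) with hA
  set B := A.filter (fun w => IsRoot k t (w + w)) with hB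
  set C := P.filter (fun w => ¬ Usable J k t w) with hC
  have hdim : finrank ℂ V = 2 * ∑ w ∈ P, finrank ℂ (Wt t w) := by
    rw [hF.fac.dim W fun w hw => (mW w).mpr hw]
    exact CN1_half h W (fun w => finrank ℂ (Wt t w)) hW0 hWn hF.fac.jdim
  have hcard : s.card = 2 * (s.filter (fun α => 0 < α h)).card := by
    have h1 := CN1_half h s (fun _ => 1) hs0 (fun α hα => (ms _).mpr (hF.fac.rneg α ((ms α).mp hα)))
      (fun _ => rfl)
    simpa using h1
  have hAcard : A.card ≤ finrank ℝ t * ((s.filter (fun α => 0 < α h)).card + 1) := by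
    refine hF.usc h _ (fun α hα => hs0 α ((ms α).mpr hα)) (fun s' hs' => ?_) A fun w hw => ?_
    · refine Finset.card_le_card fun α hα => ?_
      rw [Finset.mem_filter]
      exact ⟨(ms α).mpr (hs' α hα).1, (hs' α hα).2⟩
    · rw [hA, Finset.mem_filter, hP, Finset.mem_filter] at hw
      exact ⟨hw.1.2, hw.2⟩
  have hCuse : ∀ w ∈ C, IsRoot k t (w + w) ∧ finrank ℂ (Wt t w) ≤ 1 := by
    intro w hw
    rw [hC, Finset.mem_filter, hP, Finset.mem_filter, mW] at hw
    have h1 : ¬ (¬ IsRoot k t (w + w) ∨ 2 ≤ finrank ℂ (Wt t w)) := fun h2 =>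
      hw.2 (hF.use w hw.1.1 h2)
    push Not at h1
    exact ⟨h1.1, by omega⟩
  have hPsum : ∑ w ∈ P, finrank ℂ (Wt t w) ≤ A.card + 2 * B.card + C.card := by
    rw [← Finset.sum_filter_add_sum_filter_not P (fun w => Usable J k t w)]
    refine add_le_add ?_ ?_
    · change ∑ w ∈ A, finrank ℂ (Wt t w) ≤ _
      rw [← Finset.sum_filter_add_sum_filter_not A (fun w => IsRoot k t (w + w))]
      have h1 : ∑ w ∈ A.filter (fun w => IsRoot k t (w + w)), finrank ℂ (Wt t w) ≤
          B.card * 3 := by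
        refine (Finset.sum_le_card_nsmul _ _ 3 fun w _ => (hF.hlf w).1).trans (le_of_eq ?_)
        rw [smul_eq_mul]
      have h2 : ∑ w ∈ A.filter (fun w => ¬ IsRoot k t (w + w)), finrank ℂ (Wt t w) ≤
          (A.filter (fun w => ¬ IsRoot k t (w + w))).card * 1 := by
        refine (Finset.sum_le_card_nsmul _ _ 1 fun w hw => ?_).trans (le_of_eq ?_)
        · rw [Finset.mem_filter] at hw
          exact (hF.hlf w).2 hw.2
        · rw [smul_eq_mul]
      have h3 : B.card + (A.filter (fun w => ¬ IsRoot k t (w + w))).card = A.card := by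
        rw [hB]
        exact Finset.card_filter_add_card_filter_not _
      omega
    · change ∑ w ∈ C, finrank ℂ (Wt t w) ≤ _
      refine (Finset.sum_le_card_nsmul _ _ 1 fun w hw => (hCuse w hw).2).trans (le_of_eq ?_)
      rw [smul_eq_mul, mul_one]
  have hBP : ∀ w ∈ B, w ∈ P ∧ Usable J k t w ∧ IsRoot k t (w + w) := by
    intro w hw
    rw [hB, Finset.mem_filter, hA, Finset.mem_filter] at hw
    exact ⟨hw.1.1, hw.1.2, hw.2⟩
  have hCP : ∀ w ∈ C, w ∈ P ∧ ¬ Usable J k t w := by
    intro w hw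
    rw [hC, Finset.mem_filter] at hw
    exact hw
  have hdisj : Disjoint B C := by
    rw [Finset.disjoint_left]
    intro w h1 h2
    exact (hCP w h2).2 (hBP w h1).2.1
  have hHP : ∀ w ∈ B ∪ C, w ∈ P := by
    intro w hw
    rcases Finset.mem_union.mp hw with h1 | h1
    · exact (hBP w h1).1
    · exact (hCP w h1).1
  have hpos : ∀ w ∈ P, IsWt t w ∧ 0 < w h := by
    intro w hw
    rw [hP, Finset.mem_filter, mW] at hw
    exact hw
  refine ⟨A.card, B.card, C.card, B ∪ C, s, ms, ?_, ?_, Finset.card_union_of_disjoint hdisj,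
    ?_, ?_⟩
  · rw [hdim]
    exact Nat.mul_le_mul_left 2 hPsum
  · calc 2 * A.card ≤ 2 * (finrank ℝ t * ((s.filter (fun α => 0 < α h)).card + 1)) :=
          Nat.mul_le_mul_left 2 hAcard
      _ = finrank ℝ t * (2 * (s.filter (fun α => 0 < α h)).card + 2) := by ring
      _ = finrank ℝ t * (s.card + 2) := by rw [← hcard]
  · intro w hw
    refine ⟨(hpos w (hHP w hw)).1, ?_⟩
    rcases Finset.mem_union.mp hw with h1 | h1
    · exact (hBP w h1).2.2
    · exact (hCuse w h1).1
  · intro w hw w' hw' _ h1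
    have h2 := (hpos w (hHP w hw)).2
    have h3 := (hpos w' (hHP w' hw')).2
    rw [h1, LinearMap.neg_apply] at h2
    linarith

end MPa8bd83
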