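/-
MP_a8bd83_gt (LeBrun-Salamon), smooth quaternionic Kaehler quotients of HP^(N-1): PART 3.
A linear bound for all groups, by involutions (helper77).  Table qk2_blocks (part 3).

RULES.  One block = one file B_XXX.lean in this folder, `import Pool.Agent.Work.MP_a8bd83_qk.Interface3`,
`namespace MPa8bd83`, `theorem p_XXX (hA : Stmt_A) .. : Stmt_XXX` with exactly the blocks named after
`uses` as hypotheses, in that order.  Auxiliary lemmas get the prefix XXX_.  No straight double quotes.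
-/
import Pool.Agent.Work.MP_a8bd83_qk.Interface2

set_option autoImplicit false

namespace MPa8bd83

open Module

/-- **MIN** (200).  A real space `L` of quaternionic skew-Hermitian operators of dimension less than `dim_H V` has a common isotropic vector.
Let `ξ_j` be a basis of `L`, `h_j x = ⟨x, ξ_j x⟩` (purely imaginary), `q_j x = ⟨J x, ξ_j x⟩`, `f x = ∑ ‖h_j x‖ ^ 2 + ‖q_j x‖ ^ 2`, continuous, `f (c x) = |c| ^ 4 f x` (real `c`).  `x` = a minimum of `f` on the unit sphere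
(compact, nonempty because `finrank V > 0`), `m = f x`, so `f y ≥ m ‖y‖ ^ 4` for all `y`.  Suppose `m > 0`.  `W = {v | ∀ j, ⟨ξ_j x, v⟩ = 0 ∧ ⟨J (ξ_j x), v⟩ = 0}` is a complex subspace given by `2 finrank L < finrank V` linear forms, so
there is `0 ≠ v ∈ W`, and `W` is stable under `i` and `J` (`⟨J a, J b⟩ = ⟨b, a⟩`, `J J = -1`).  For `v ∈ W`: `⟨v, ξ_j x⟩ = 0`, `⟨J v, ξ_j x⟩ = 0`, `⟨x, ξ_j v⟩ = - ⟨ξ_j x, v⟩ = 0`, `⟨J x, ξ_j v⟩ = ⟨J v, ξ_j x⟩ = 0` (symmetry), so for real `s`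
`h_j (x + s v) = h_j x + s ^ 2 h_j v`, `q_j (x + s v) = q_j x + s ^ 2 q_j v` and `f (x + s v) = m + 2 s ^ 2 Q v + s ^ 4 f v`, `Q v = Re ∑ (conj (h_j x) h_j v + conj (q_j x) q_j v)`.  From
`m + 2 s ^ 2 Q v + s ^ 4 f v ≥ m (1 + 2 s Re⟨x, v⟩ + s ^ 2 ‖v‖ ^ 2) ^ 2` for all real `s`: first `Re⟨x, v⟩ = 0` (small `s` of both signs), then `Q v ≥ m ‖v‖ ^ 2` (divide by `s ^ 2`, `s → 0`).  This holds for `v`, `i v`, `J v`, `i J v`;
`h (i v) = h v`, `h (J v) = h (i J v) = - h v` (`h v` is imaginary), `q (i v) = - q v`, `q (J v) = conj (q v)`, `q (i J v) = - conj (q v)`: the sum of the four `Q` is `0`, a contradiction to `4 m ‖v‖ ^ 2 > 0`.  So `m = 0` and all `h_j x = q_j x = 0`, hence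
`MomentZero J L x` by linearity in `ξ`. -/
def Stmt_MIN : Prop :=
  ∀ (V : Type) [NormedAddCommGroup V] [InnerProductSpace ℂ V] [FiniteDimensional ℂ V]
    (J : V → V), IsQuatStr J → ∀ L : Submodule ℝ (V →L[ℂ] V), (∀ ξ ∈ L, IsSp J ξ) →
    2 * finrank ℝ L < finrank ℂ V → ∃ x : V, x ≠ 0 ∧ MomentZero J L x

/-- **RES** (120), uses MIN.  The same on a `J`-stable subspace `P` which is stable under `L`: `P` with the restriction of `J` is a quaternionic space; `L'` = the image of `L` under the real linear map `ξ ↦ ξ|P : P →L[ℂ] P`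
(defined on `L`), `finrank L' ≤ finrank L`. -/
def Stmt_RES : Prop :=
  ∀ (V : Type) [NormedAddCommGroup V] [InnerProductSpace ℂ V] [FiniteDimensional ℂ V]
    (J : V → V), IsQuatStr J → ∀ (P : Submodule ℂ V) (L : Submodule ℝ (V →L[ℂ] V)),
    (∀ x ∈ P, J x ∈ P) → (∀ ξ ∈ L, IsSp J ξ ∧ ∀ x ∈ P, ξ x ∈ P) →
    2 * finrank ℝ L < finrank ℂ P → ∃ x ∈ P, x ≠ 0 ∧ MomentZero J L x

/-- **RKE** (150), uses RTZ (of the core).  The real form of a sum of root spaces.  `E = Rt 0 ⊔ ⨆ α ∈ s, Rt α`, `finrank_ℂ E ≤ finrank_ℂ (kC t) + s.card ≤ finrank_ℝ t + s.card` (`Rt 0 = kC t` by RTZ, `Rt α` has dimension at most one by `one`).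
`L = {ζ ∈ k | ζ ∈ E}`: real independent elements of `L ≤ k` are complex independent (RTZ (3)), so `finrank_ℝ L ≤ finrank_ℂ E`.  For `X ∈ Rt α`, `α ∈ s` or `α = 0`: `X = ξ + i η` with `ξ, η ∈ k` (RTZ (2)); the adjoint `X'` (`Fac.adj`) is in `Rt (-α) ≤ E`, and `X' = - ξ + i η`
(`ξ`, `η` are skew-adjoint), so `ξ = (X - X') / 2` and `i η = (X + X') / 2` are in `E`, `ξ, η ∈ L`. -/
def Stmt_RKE : Prop :=
  ∀ (V : Type) [NormedAddCommGroup V] [InnerProductSpace ℂ V] [FiniteDimensional ℂ V]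
    (J : V → V) (k t : Submodule ℝ (V →L[ℂ] V)), Fac J k t →
    ∀ s : Finset (Dual ℝ t), (∀ α ∈ s, α ≠ 0) → (∀ α ∈ s, -α ∈ s) →
      ∃ L : Submodule ℝ (V →L[ℂ] V), L ≤ k ∧ finrank ℝ L ≤ finrank ℝ t + s.card ∧
        (∀ α : Dual ℝ t, (α = 0 ∨ α ∈ s) →
          Rt k t α ≤ Submodule.span ℂ (L : Set (V →L[ℂ] V))) ∧
        (∀ ζ ∈ L, ζ ∈ Rt k t 0 ⊔ ⨆ α ∈ s, Rt k t α)

/-- **ODD** (80), uses EXP (of the core).  Let `0 ≠ X ∈ k_α`.  By `top` there are a weight `w` and `v ∈ V_w` with `X v ≠ 0`, `X v ∈ V_(w + α)`.  If `exp ξ = ε = ± 1`: `e^{i w(ξ)} = ε = e^{i (w + α)(ξ)}`, so `e^{i α(ξ)} = 1`, but it is `e^{i (2 n + 1) π} = -1`. -/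
def Stmt_ODD : Prop :=
  ∀ (V : Type) [NormedAddCommGroup V] [InnerProductSpace ℂ V] [FiniteDimensional ℂ V]
    (J : V → V) (k t : Submodule ℝ (V →L[ℂ] V)), Fac J k t →
    ∀ (ξ : t) (α : Dual ℝ t) (n : ℤ), IsRoot k t α → α ξ = (2 * n + 1) * Real.pi →
      NormedSpace.exp (ξ : V →L[ℂ] V) ≠ 1 ∧ NormedSpace.exp (ξ : V →L[ℂ] V) ≠ -1

/-- **INV** (250), uses RTD WTD EXP RES RKE (RTD, WTD, EXP of the core).  The involution `g = exp ξ`.  `s₀` = the even roots (`α ξ ∈ 2 π ℤ`; finite by `rfin`), `s₀ ⊆ s`, closed under `-`.  A root `α` maps some weight vector `v ∈ V_w` to a nonzero vector of `V_(w + α)` (`top`), so `α ξ ∈ π ℤ`: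
every root is even or odd.  `P` = the sum of the `V_w` with `w ξ ∈ 2 π ℤ`, `M` = the sum of those with `w ξ ∈ π + 2 π ℤ`; `P ⊔ M = ⊤`, so `finrank V ≤ finrank P + finrank M`.  Suppose `finrank V > 4 (r + s₀.card)`; then `Q = P` or `Q = M` has `finrank Q > 2 (r + s₀.card)`.
`J Q ≤ Q` (`jw`: `-w` has the parity of `w`); `X ∈ k_α`, `α` even or `0`: `X Q ≤ Q`; `α` odd: `X` maps `P` to `M` and `M` to `P`; `P ⟂ M` (`orth`).  RKE for `s₀`: `L`, whose elements map `Q` to `Q`.  RES: `0 ≠ x ∈ Q` with `MomentZero J L x`.  For `X ∈ k_α`, `α` even or `0`,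
`X` is a complex combination of elements of `L`: `⟨x, X x⟩ = 0 = ⟨J x, X x⟩`.  For `α` odd: `X x` is orthogonal to `Q`.  `kC k = ⨆ Rt α` (RTD, with WTD), so `MomentZero J k x`.  `exp ξ x = ± x` (EXP (1) on weight vectors), so `exp ξ = ± 1` by freeness: contradiction. -/
def Stmt_INV : Prop :=
  ∀ (V : Type) [NormedAddCommGroup V] [InnerProductSpace ℂ V] [FiniteDimensional ℂ V]
    (J : V → V) (k t : Submodule ℝ (V →L[ℂ] V)), Fac J k t → FreeOnZeros J k →
    ∀ ξ : t, (∀ w : Dual ℝ t, IsWt t w → ∃ n : ℤ, w ξ = n * Real.pi) →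
      NormedSpace.exp (ξ : V →L[ℂ] V) ≠ 1 → NormedSpace.exp (ξ : V →L[ℂ] V) ≠ -1 →
      ∀ s : Finset (Dual ℝ t),
        (∀ α : Dual ℝ t, IsRoot k t α → (∃ n : ℤ, α ξ = 2 * n * Real.pi) → α ∈ s) →
        finrank ℂ V ≤ 4 * (finrank ℝ t + s.card)

/-- **EVN** (80), uses FRM.  Same proof as HAL (see B_HAL.lean): `α τ' = 2 m`, `β τ = 2 n`, `φ τ τ' = 2 m c`, `φ τ' τ = 2 n c'`, `φ τ τ = 2 c`, `φ τ' τ' = 2 c'`; `m n ≤ 1`, and `m n = 1` gives `τ' = ± τ`, `β = ± α`. -/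
def Stmt_EVN : Prop :=
  ∀ (V : Type) [NormedAddCommGroup V] [InnerProductSpace ℂ V] [FiniteDimensional ℂ V]
    (J : V → V) (k t : Submodule ℝ (V →L[ℂ] V)), Fac J k t →
    ∀ (α β : Dual ℝ t) (τ τ' : t) (E F E' F' : V →L[ℂ] V), Cor k t α τ E F →
      Cor k t β τ' E' F' → (∃ m : ℤ, α τ' = 2 * m) → (∃ n : ℤ, β τ = 2 * n) → α ≠ β →
      α ≠ -β → α τ' = 0 ∧ β τ = 0

/-- All values of the root `α` on coroots are even. -/
def AllEven {V : Type} [NormedAddCommGroup V] [InnerProductSpace ℂ V]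
    (k t : Submodule ℝ (V →L[ℂ] V)) (α : Dual ℝ t) : Prop :=
  IsRoot k t α ∧ ∀ (β : Dual ℝ t) (τ : t) (E F : V →L[ℂ] V), Cor k t β τ E F →
    ∃ m : ℤ, α τ = 2 * m

/-- **EVH** (100), uses COR GEN EVN.  `GEN`: `x ∈ t` with `α x ≠ 0` for `α ∈ h`; `h⁺ = {α ∈ h | 0 < α x}` and `h⁻`.  By EVN the elements of `h⁺` are `0` on the coroots (COR) of the other elements of `h⁺` (`α ≠ -β` because both are positive at `x`) and `2` on their own:
linearly independent, so `h⁺.card ≤ finrank t`; same for `h⁻`. -/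
def Stmt_EVH : Prop :=
  ∀ (V : Type) [NormedAddCommGroup V] [InnerProductSpace ℂ V] [FiniteDimensional ℂ V]
    (J : V → V) (k t : Submodule ℝ (V →L[ℂ] V)), Fac J k t →
    ∀ h : Finset (Dual ℝ t), (∀ α ∈ h, AllEven k t α) → h.card ≤ 2 * finrank ℝ t

/-- **AVG** (120).  Averaging (pure combinatorics).  For `f : A → Bool` let `e f` be the set of the `a` such that `∑_b (if f b then M a b else 0)` is even.  Sum of `(e f).card` over all `f` (exchange the sums): for `a` with all `M a b` even it is `2 ^ card A`; for the other `a`, with `M a b₀` odd,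
flipping `f b₀` is a bijection which exchanges even and odd, so exactly half of the `f` count.  So `2 ∑_f (e f).card = 2 ^ card A (card A + #{a | all M a b even})` and some `f` is at most the average. -/
def Stmt_AVG : Prop :=
  ∀ (A : Type) [Fintype A] [DecidableEq A] (M : A → A → ℤ),
    ∃ f : A → Bool, 2 * (Finset.univ.filter (fun a =>
        Even (∑ b, (if f b then M a b else 0)))).card
      ≤ Fintype.card A + (Finset.univ.filter (fun a => ∀ b, Even (M a b))).card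

/-- **CNA** (200), uses COR STV STA EVH AVG INV ODD.  Some root `α₀` has an odd value `α₀ τ'` on a coroot `τ'` of some root (as a real number, an odd integer).  `A` = the finite set of the roots as a type (`rfin`), coroots `τ_β` (choice from COR), `M α β = α (τ_β)`, an integer by STA.
AVG gives `f`; `λ = ∑_β (if f β then τ_β else 0)`, `ξ = π λ`: `w ξ ∈ π ℤ` for the weights (STV).  `e` = the number of the roots with `α λ` even, `2 e ≤ |A| + h`, `h` = the number of the roots with all `α (τ_β)` even.  These are `AllEven`: for another coroot `τ'` of the same `β` (any `Cor k t β τ' E F`)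
one has `τ' = τ_β` (`one`: `E' = c E`, `F' = conj c F`, so `τ' = |c| ^ 2 τ`, and `β τ' = 2 = β τ` gives `|c| ^ 2 = 1`).  So `h ≤ 2 r` (EVH), and `h < |A|` because of `α₀`; so `e < |A|`, some root is odd at `λ`, `exp ξ ≠ ± 1` by ODD.  INV: `finrank V ≤ 4 (r + e) ≤ 4 r + 2 |A| + 2 h ≤ 2 (d + 3 r)`
(`r + |A| ≤ d`, `rcard`). -/
def Stmt_CNA : Prop :=
  ∀ (V : Type) [NormedAddCommGroup V] [InnerProductSpace ℂ V] [FiniteDimensional ℂ V]
    (J : V → V) (k t : Submodule ℝ (V →L[ℂ] V)), Fac J k t → FreeOnZeros J k →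
    (∃ α : Dual ℝ t, IsRoot k t α ∧ ¬ AllEven k t α) →
    finrank ℂ V ≤ 2 * (finrank ℝ k + 3 * finrank ℝ t)

/-- **CNB** (150), uses EXP (of the core), COR STV EVN EVH INV ODD.  All roots are `AllEven`, and there are two roots `α ≠ ± β` (with coroots `τ`, `σ`; `α σ = 0 = β τ` by EVN).  `Φ` = the set of the roots (`rfin`), `|Φ| ≤ 2 r` (EVH), `r + |Φ| ≤ d`.  It is enough to find `ξ ∈ t` with `w ξ ∈ π ℤ` for
all weights and `exp ξ ≠ ± 1`: then INV with `s = Φ` gives `finrank V ≤ 4 (r + |Φ|) ≤ 2 d + 6 r`.  The values `w τ`, `w σ` are integers (STV).  (a) If `exp (π τ) ≠ ± 1`: `ξ = π τ`; same for `σ`.  (b) If `exp (π τ) = 1`, then `w τ` is even for all weights (EXP (1)) and `ξ = (π / 2) τ`: `α ξ = π`, ODD;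
same for `σ`.  (c) `exp (π τ) = exp (π σ) = -1`: `w τ`, `w σ` are odd, `ξ = (π / 2) (τ + σ)`, `α ξ = π`, ODD. -/
def Stmt_CNB : Prop :=
  ∀ (V : Type) [NormedAddCommGroup V] [InnerProductSpace ℂ V] [FiniteDimensional ℂ V]
    (J : V → V) (k t : Submodule ℝ (V →L[ℂ] V)), Fac J k t → FreeOnZeros J k →
    (∀ α : Dual ℝ t, IsRoot k t α → AllEven k t α) →
    ∀ α β : Dual ℝ t, IsRoot k t α → IsRoot k t β → α ≠ β → α ≠ -β →
      finrank ℂ V ≤ 2 * (finrank ℝ k + 3 * finrank ℝ t)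

/-- **CN3** (80), uses HRN CN1 CNA CNB.  If some root is not `AllEven`: CNA.  If there are two roots `α ≠ ± β`: CNB.  Otherwise there are at most two roots: CN1 and HRN: `finrank V ≤ 2 a + 4 b + 2 c ≤ 4 r + 4 (b + c)`, `2 (b + c) ≤ 2`, so `finrank V ≤ 4 r + 4 ≤ 8 r ≤ 2 (d + 3 r)`. -/
def Stmt_CN3 : Prop :=
  ∀ (V : Type) [NormedAddCommGroup V] [InnerProductSpace ℂ V] [FiniteDimensional ℂ V]
    (J : V → V) (k t : Submodule ℝ (V →L[ℂ] V)), Fre J k t → FreeOnZeros J k →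
    finrank ℂ V ≤ 2 * (finrank ℝ k + 3 * finrank ℝ t)

end MPa8bd83
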