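/- Block CN3 (helper3). The linear bound. -/
import Pool.Agent.Work.MP_a8bd83_qk.Interface3

set_option autoImplicit false

namespace MPa8bd83

open Module

theorem p_CN3 (hHRN : Stmt_HRN) (hCN1 : Stmt_CN1) (hCNA : Stmt_CNA) (hCNB : Stmt_CNB) :
    Stmt_CN3 := by
  classical
  intro V _ _ _ J k t hF hfree
  by_cases hA : ∃ α : Dual ℝ t, IsRoot k t α ∧ ¬ AllEven k t α
  · exact hCNA V J k t hF.fac hfree hA
  have hA' : ∀ α : Dual ℝ t, IsRoot k t α → AllEven k t α := fun α hα =>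
    by_contra fun h => hA ⟨α, hα, h⟩
  by_cases hB : ∃ α β : Dual ℝ t, IsRoot k t α ∧ IsRoot k t β ∧ α ≠ β ∧ α ≠ -β
  · obtain ⟨α, β, h1, h2, h3, h4⟩ := hB
    exact hCNB V J k t hF.fac hfree hA' α β h1 h2 h3 h4
  obtain ⟨a, b, c, H, s, hs, hN, ha, hH, hH1, hH2⟩ := hCN1 V J k t hF
  obtain ⟨h1, h2⟩ := hHRN V J k t hF.fac H s hH1 hH2 hs
  have h3 := hF.fac.rcard s (fun α hα => (hs α).1 hα)
  have hrk := hF.rk
  have hcard : s.card ≤ 2 := by
    rcases s.eq_empty_or_nonempty with h0 | ⟨α, hα⟩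
    · rw [h0, Finset.card_empty]
      exact Nat.zero_le _
    · have hsub : s ⊆ {α, -α} := by
        intro β hβ
        rw [Finset.mem_insert, Finset.mem_singleton]
        by_contra hcon
        push Not at hcon
        exact hB ⟨β, α, (hs β).1 hβ, (hs α).1 hα, hcon.1, hcon.2⟩
      exact (Finset.card_le_card hsub).trans Finset.card_le_two
  have h5 : finrank ℝ t * (s.card + 2) ≤ finrank ℝ t * 4 :=
    Nat.mul_le_mul_left _ (by omega)
  omega

end MPa8bd83
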