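import Pool.Agent.Work.MP_a8bd83_qk.Interface3

set_option autoImplicit false

namespace MPa8bd83

open Module

/-- A coroot of a root is unique. -/
theorem CNA_uniq {V : Type} [NormedAddCommGroup V] [InnerProductSpace ℂ V]
    [FiniteDimensional ℂ V] {J : V → V} {k t : Submodule ℝ (V →L[ℂ] V)} (hF : Fac J k t)
    {β : Dual ℝ t} {τ τ' : t} {E F E' F' : V →L[ℂ] V} (h : Cor k t β τ E F)
    (h' : Cor k t β τ' E' F') : τ' = τ := by
  have hβ0 : β ≠ 0 := by
    intro hb
    have h2 := h.two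
    rw [hb] at h2
    simp at h2
  have hE0 : E ≠ 0 := by
    intro he
    have hbr := h.br
    rw [he, zero_mul, mul_zero, sub_zero] at hbr
    have h1 : (Complex.I • (τ : V →L[ℂ] V)) = 0 := by
      rw [← neg_eq_zero]
      exact hbr.symm
    have h2 : (τ : V →L[ℂ] V) = 0 := by
      rcases smul_eq_zero.1 h1 with h3 | h3
      · exact absurd h3 Complex.I_ne_zero
      · exact h3
    have h3 : τ = 0 := Subtype.ext h2
    have h4 := h.two
    rw [h3, map_zero] at h4
    norm_num at h4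
  obtain ⟨c, hc⟩ := hF.one β hβ0 E h.memE hE0 E' h'.memE
  have hF' : F' = (starRingEnd ℂ c) • F := by
    ext y
    apply ext_inner_left ℂ
    intro x
    rw [← h'.adj x y, hc]
    simp only [ContinuousLinearMap.smul_apply]
    rw [inner_smul_left, inner_smul_right, h.adj x y]
  have hbr' := h'.br
  rw [hc, hF'] at hbr'
  have e1 : (c • E) * ((starRingEnd ℂ c) • F) - ((starRingEnd ℂ c) • F) * (c • E)
      = (c * (starRingEnd ℂ c)) • (E * F - F * E) := by
    rw [smul_mul_smul_comm, smul_mul_smul_comm, mul_comm (starRingEnd ℂ c) c, smul_sub]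
  rw [e1, h.br, Complex.mul_conj] at hbr'
  have e2 : (τ' : V →L[ℂ] V) = (Complex.normSq c : ℝ) • (τ : V →L[ℂ] V) := by
    have h1 : Complex.I • ((Complex.normSq c : ℂ) • (τ : V →L[ℂ] V))
        = Complex.I • (τ' : V →L[ℂ] V) := by
      rw [smul_comm]
      rw [smul_neg] at hbr'
      exact neg_injective hbr'
    have h2 := smul_right_injective (V →L[ℂ] V) Complex.I_ne_zero h1
    rw [← h2]
    ext x
    simp only [ContinuousLinearMap.smul_apply]
    rw [Complex.coe_smul]
  have e3 : τ' = (Complex.normSq c : ℝ) • τ := Subtype.ext e2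
  have e4 := h'.two
  rw [e3, map_smul, h.two, smul_eq_mul] at e4
  have e5 : Complex.normSq c = 1 := by linarith
  rw [e3, e5, one_smul]

theorem CNA_root {V : Type} [NormedAddCommGroup V] [InnerProductSpace ℂ V]
    {k t : Submodule ℝ (V →L[ℂ] V)}
    {β : Dual ℝ t} {τ : t} {E F : V →L[ℂ] V} (h : Cor k t β τ E F) : IsRoot k t β := by
  constructor
  · intro hb
    have h2 := h.two
    rw [hb] at h2
    simp at h2
  · intro hb
    have hE : E = 0 := by
      have := h.memE
      rw [hb] at this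
      exact (Submodule.mem_bot ℂ).1 this
    have hbr := h.br
    rw [hE, zero_mul, mul_zero, sub_zero] at hbr
    have h1 : (Complex.I • (τ : V →L[ℂ] V)) = 0 := by
      rw [← neg_eq_zero]
      exact hbr.symm
    have h2 : (τ : V →L[ℂ] V) = 0 := by
      rcases smul_eq_zero.1 h1 with h3 | h3
      · exact absurd h3 Complex.I_ne_zero
      · exact h3
    have h3 : τ = 0 := Subtype.ext h2
    have h4 := h.two
    rw [h3, map_zero] at h4
    norm_num at h4

theorem p_CNA (hCOR : Stmt_COR) (hSTV : Stmt_STV) (hSTA : Stmt_STA) (hEVH : Stmt_EVH)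
    (hAVG : Stmt_AVG) (hINV : Stmt_INV) (hODD : Stmt_ODD) : Stmt_CNA := by
  intro V _ _ _ J k t hF hfree hex
  classical
  obtain ⟨α₀, hα₀, hα₀'⟩ := hex
  let Φ : Finset (Dual ℝ t) := hF.rfin.toFinset
  have hΦ : ∀ α, α ∈ Φ ↔ IsRoot k t α := fun α => by
    simp only [Φ, Set.Finite.mem_toFinset, Set.mem_setOf_eq]
  have hc : ∀ β : Φ, ∃ (τ : t), ∃ E F : V →L[ℂ] V, Cor k t (β : Dual ℝ t) τ E F := fun β =>
    hCOR V J k t hF _ ((hΦ β).1 β.2)
  choose τ E F hC using hc
  have hM : ∀ (α β : Φ), ∃ n : ℤ, (α : Dual ℝ t) (τ β) = (n : ℝ) := by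
    intro α β
    obtain ⟨n, hn, -⟩ := hSTA V J k t hF _ _ _ _ (hC β) (α : Dual ℝ t) ((hΦ α).1 α.2).2
    exact ⟨n, hn⟩
  choose M hMn using hM
  obtain ⟨f, hf⟩ := hAVG Φ M
  set lam : t := ∑ β : Φ, (if f β then τ β else 0) with hlam
  have hval : ∀ (w : Dual ℝ t) (g : Φ → ℤ), (∀ β, w (τ β) = (g β : ℝ)) →
      w (Real.pi • lam) = ((∑ β, (if f β then g β else 0) : ℤ) : ℝ) * Real.pi := by
    intro w g hg
    rw [map_smul, smul_eq_mul, mul_comm, hlam, map_sum, Int.cast_sum]
    congr 1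
    refine Finset.sum_congr rfl fun β _ => ?_
    split_ifs
    · exact hg β
    · simp
  have hwt : ∀ w : Dual ℝ t, IsWt t w → ∃ n : ℤ, w (Real.pi • lam) = n * Real.pi := by
    intro w hw
    have h1 : ∀ β : Φ, ∃ n : ℤ, w (τ β) = (n : ℝ) := fun β => by
      obtain ⟨n, hn, -⟩ := hSTV V J k t hF _ _ _ _ (hC β) w hw
      exact ⟨n, hn⟩
    choose g hg using h1
    exact ⟨_, hval w g hg⟩
  -- the even roots at `lam`
  set P : Finset Φ := Finset.univ.filter (fun a => Even (∑ b, (if f b then M a b else 0)))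
    with hP
  set Q : Finset Φ := Finset.univ.filter (fun a => ∀ b, Even (M a b)) with hQ
  have hPc : (P.map (Function.Embedding.subtype _)).card = P.card := Finset.card_map _
  have hQc : (Q.map (Function.Embedding.subtype _)).card = Q.card := Finset.card_map _
  have hQe : ∀ a : Φ, (∀ b, Even (M a b)) → AllEven k t (a : Dual ℝ t) := by
    intro a ha
    refine ⟨(hΦ a).1 a.2, fun β τ' E' F' hC' => ?_⟩
    have hβ := CNA_root hC'
    have hβ' := (hΦ β).2 hβ
    have := CNA_uniq hF (hC ⟨β, hβ'⟩) hC'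
    obtain ⟨m, hm⟩ := ha ⟨β, hβ'⟩
    refine ⟨m, ?_⟩
    rw [this, hMn, hm]
    push_cast
    ring
  have hQ2 : Q.card ≤ 2 * finrank ℝ t := by
    rw [← hQc]
    refine hEVH V J k t hF _ fun α hα => ?_
    obtain ⟨a, ha, rfl⟩ := Finset.mem_map.1 hα
    exact hQe a (Finset.mem_filter.1 ha).2
  have hQlt : Q.card < Fintype.card Φ := by
    rw [← Finset.card_univ]
    refine Finset.card_lt_card (Finset.ssubset_univ_iff.2 fun h => hα₀' ?_)
    have h1 : (⟨α₀, (hΦ α₀).2 hα₀⟩ : Φ) ∈ Q := by rw [h]; exact Finset.mem_univ _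
    exact hQe _ (Finset.mem_filter.1 h1).2
  have hcardΦ : Fintype.card Φ = Φ.card := Fintype.card_coe Φ
  have hΦc : finrank ℝ t + Φ.card ≤ finrank ℝ k := hF.rcard Φ fun α hα => (hΦ α).1 hα
  have hPlt : P.card < Fintype.card Φ := by omega
  have hodd : ∃ a : Φ, a ∉ P := by
    by_contra hcon
    push Not at hcon
    have : P = Finset.univ := Finset.eq_univ_iff_forall.2 hcon
    rw [this, Finset.card_univ] at hPlt
    exact lt_irrefl _ hPlt
  obtain ⟨a, ha⟩ := hodd
  have ha' : Odd (∑ b, (if f b then M a b else 0)) := by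
    rw [← Int.not_even_iff_odd]
    intro h
    exact ha (Finset.mem_filter.2 ⟨Finset.mem_univ _, h⟩)
  obtain ⟨n, hn⟩ := ha'
  have hO := hODD V J k t hF (Real.pi • lam) (a : Dual ℝ t) n ((hΦ a).1 a.2) (by
    rw [hval a (M a) (hMn a), hn]
    push_cast
    ring)
  have hI := hINV V J k t hF hfree (Real.pi • lam) hwt hO.1 hO.2
    (P.map (Function.Embedding.subtype _)) (by
      rintro α hα ⟨n, hn⟩
      have hα' := (hΦ α).2 hα
      refine Finset.mem_map.2 ⟨⟨α, hα'⟩, Finset.mem_filter.2 ⟨Finset.mem_univ _, ?_⟩, rfl⟩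
      have h1 := hval α (M ⟨α, hα'⟩) (hMn ⟨α, hα'⟩)
      rw [hn] at h1
      have h2 := mul_right_cancel₀ Real.pi_ne_zero h1
      refine ⟨n, ?_⟩
      have h3 : ((2 * n : ℤ) : ℝ) = ((∑ β, (if f β then M ⟨α, hα'⟩ β else 0) : ℤ) : ℝ) := by
        rw [← h2]
        push_cast
        ring
      have h4 := Int.cast_injective h3
      rw [← h4]
      ring)
  rw [hPc] at hI
  omega

end MPa8bd83
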