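import Pool.Agent.Work.MP_a8bd83_qk.Interface3

set_option autoImplicit false

/-! # CNB: all values even, two orthogonal roots -/

namespace MPa8bd83

open Module

theorem CNB_zero {V : Type} [NormedAddCommGroup V] [InnerProductSpace ℂ V] (v : V)
    (h : v = -v) : v = 0 := by
  have h1 : v + v = 0 := by
    nth_rewrite 2 [h]
    exact add_neg_cancel v
  rw [← two_smul ℂ v] at h1
  exact (smul_eq_zero.1 h1).resolve_left two_ne_zero

/-- the value of `exp (π τ)` on a weight vector -/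
theorem CNB_exp (hEXP : Stmt_EXP) {V : Type} [NormedAddCommGroup V] [InnerProductSpace ℂ V]
    [FiniteDimensional ℂ V] (t : Submodule ℝ (V →L[ℂ] V)) (τ : t) (w : Dual ℝ t) (n : ℤ)
    (hn : w τ = (n : ℝ)) (v : V) (hv : v ∈ Wt t w) :
    NormedSpace.exp ((Real.pi • τ : t) : V →L[ℂ] V) v = ((-1 : ℂ) ^ n) • v := by
  rw [(hEXP V t).1 (Real.pi • τ) w v hv]
  congr 1
  have h1 : ((w (Real.pi • τ) : ℝ) : ℂ) * Complex.I = (n : ℂ) * ((Real.pi : ℂ) * Complex.I) := by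
    rw [map_smul, hn, smul_eq_mul]
    push_cast
    ring
  rw [h1, Complex.exp_int_mul, Complex.exp_pi_mul_I]

theorem CNB_even (hEXP : Stmt_EXP) {V : Type} [NormedAddCommGroup V] [InnerProductSpace ℂ V]
    [FiniteDimensional ℂ V] (t : Submodule ℝ (V →L[ℂ] V)) (τ : t)
    (h : NormedSpace.exp ((Real.pi • τ : t) : V →L[ℂ] V) = 1)
    (w : Dual ℝ t) (hw : IsWt t w) (n : ℤ) (hn : w τ = (n : ℝ)) : Even n := by
  obtain ⟨v, hv, hv0⟩ := Submodule.exists_mem_ne_zero_of_ne_bot hw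
  have h1 := CNB_exp hEXP t τ w n hn v hv
  rw [h] at h1
  rcases Int.even_or_odd n with he | ho
  · exact he
  · exfalso
    rw [ho.neg_one_zpow] at h1
    have h2 : v = (-1 : ℂ) • v := h1
    rw [neg_one_smul] at h2
    exact hv0 (CNB_zero v h2)

theorem CNB_odd (hEXP : Stmt_EXP) {V : Type} [NormedAddCommGroup V] [InnerProductSpace ℂ V]
    [FiniteDimensional ℂ V] (t : Submodule ℝ (V →L[ℂ] V)) (τ : t)
    (h : NormedSpace.exp ((Real.pi • τ : t) : V →L[ℂ] V) = -1)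
    (w : Dual ℝ t) (hw : IsWt t w) (n : ℤ) (hn : w τ = (n : ℝ)) : Odd n := by
  obtain ⟨v, hv, hv0⟩ := Submodule.exists_mem_ne_zero_of_ne_bot hw
  have h1 := CNB_exp hEXP t τ w n hn v hv
  rw [h] at h1
  rcases Int.even_or_odd n with he | ho
  · exfalso
    rw [he.neg_one_zpow, one_smul] at h1
    have h2 : -v = v := h1
    exact hv0 (CNB_zero v h2.symm)
  · exact ho

/-- **CNB** -/
theorem p_CNB (hEXP : Stmt_EXP) (hCOR : Stmt_COR) (hSTV : Stmt_STV) (hEVN : Stmt_EVN)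
    (hEVH : Stmt_EVH) (hINV : Stmt_INV) (hODD : Stmt_ODD) : Stmt_CNB := by
  intro V _ _ _ J k t hF hfree hall α β hα hβ hne hne'
  obtain ⟨τ, E, F, hτ⟩ := hCOR V J k t hF α hα
  obtain ⟨σ, E', F', hσ⟩ := hCOR V J k t hF β hβ
  obtain ⟨hασ, hβτ⟩ := hEVN V J k t hF α β τ σ E F E' F' hτ hσ
    ((hall α hα).2 β σ E' F' hσ) ((hall β hβ).2 α τ E F hτ) hne hne'
  set Φ := hF.rfin.toFinset with hΦ
  have mΦ : ∀ γ, γ ∈ Φ ↔ IsRoot k t γ := fun γ => by rw [hΦ, Set.Finite.mem_toFinset]; rfl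
  have hc1 : Φ.card ≤ 2 * finrank ℝ t :=
    hEVH V J k t hF Φ fun γ hγ => hall γ ((mΦ γ).1 hγ)
  have hc2 : finrank ℝ t + Φ.card ≤ finrank ℝ k := hF.rcard Φ fun γ hγ => (mΦ γ).1 hγ
  have key : ∃ ξ : t, (∀ w : Dual ℝ t, IsWt t w → ∃ n : ℤ, w ξ = n * Real.pi) ∧
      NormedSpace.exp (ξ : V →L[ℂ] V) ≠ 1 ∧ NormedSpace.exp (ξ : V →L[ℂ] V) ≠ -1 := by
    have hint : ∀ (γ : Dual ℝ t) (ρ : t) (A B : V →L[ℂ] V), Cor k t γ ρ A B →
        ∀ w : Dual ℝ t, IsWt t w → ∃ n : ℤ, w ρ = (n : ℝ) := by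
      intro γ ρ A B hc w hw
      obtain ⟨n, hn, -⟩ := hSTV V J k t hF γ ρ A B hc w hw
      exact ⟨n, hn⟩
    -- the case of one coroot
    have hone : ∀ (γ : Dual ℝ t) (ρ : t) (A B : V →L[ℂ] V), IsRoot k t γ → Cor k t γ ρ A B →
        NormedSpace.exp ((Real.pi • ρ : t) : V →L[ℂ] V) ≠ -1 →
        ∃ ξ : t, (∀ w : Dual ℝ t, IsWt t w → ∃ n : ℤ, w ξ = n * Real.pi) ∧
          NormedSpace.exp (ξ : V →L[ℂ] V) ≠ 1 ∧ NormedSpace.exp (ξ : V →L[ℂ] V) ≠ -1 := by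
      intro γ ρ A B hγ hc hm
      by_cases h1 : NormedSpace.exp ((Real.pi • ρ : t) : V →L[ℂ] V) = 1
      · refine ⟨(Real.pi / 2) • ρ, ?_, ?_⟩
        · intro w hw
          obtain ⟨n, hn⟩ := hint γ ρ A B hc w hw
          obtain ⟨m, hm⟩ := CNB_even hEXP t ρ h1 w hw n hn
          refine ⟨m, ?_⟩
          rw [map_smul, hn, hm, smul_eq_mul]
          push_cast
          ring
        · refine hODD V J k t hF ((Real.pi / 2) • ρ) γ 0 hγ ?_
          rw [map_smul, hc.two, smul_eq_mul]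
          push_cast
          ring
      · refine ⟨Real.pi • ρ, ?_, h1, hm⟩
        intro w hw
        obtain ⟨n, hn⟩ := hint γ ρ A B hc w hw
        refine ⟨n, ?_⟩
        rw [map_smul, hn, smul_eq_mul, mul_comm]
    by_cases hτ1 : NormedSpace.exp ((Real.pi • τ : t) : V →L[ℂ] V) = -1
    · by_cases hσ1 : NormedSpace.exp ((Real.pi • σ : t) : V →L[ℂ] V) = -1
      · refine ⟨(Real.pi / 2) • (τ + σ), ?_, ?_⟩
        · intro w hw
          obtain ⟨n, hn⟩ := hint α τ E F hτ w hw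
          obtain ⟨n', hn'⟩ := hint β σ E' F' hσ w hw
          have ho := CNB_odd hEXP t τ hτ1 w hw n hn
          have ho' := CNB_odd hEXP t σ hσ1 w hw n' hn'
          obtain ⟨m, hm⟩ := ho.add_odd ho'
          refine ⟨m, ?_⟩
          have h2 : ((n : ℝ) + n') = (m : ℝ) + m := by exact_mod_cast hm
          rw [map_smul, map_add, hn, hn', h2, smul_eq_mul]
          ring
        · refine hODD V J k t hF ((Real.pi / 2) • (τ + σ)) α 0 hα ?_
          rw [map_smul, map_add, hτ.two, hασ, smul_eq_mul]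
          push_cast
          ring
      · exact hone β σ E' F' hβ hσ hσ1
    · exact hone α τ E F hα hτ hτ1
  obtain ⟨ξ, h1, h2, h3⟩ := key
  have h4 := hINV V J k t hF hfree ξ h1 h2 h3 Φ fun γ hγ _ => (mΦ γ).2 hγ
  omega

end MPa8bd83
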