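import Pool.Agent.Work.MP_a8bd83_qk.Interface5

set_option autoImplicit false

namespace MPa8bd83

open Module

/-- the number of pairs `i < j` of elements of `S` -/
theorem CNP_pairs (n : ℕ) (S : Finset (Fin n)) :
    (S.offDiag.filter (fun p : Fin n × Fin n => p.1 < p.2)).card = S.card.choose 2 := by
  classical
  have h1 : (S.offDiag.filter (fun p : Fin n × Fin n => p.1 < p.2)).card =
      (S.offDiag.filter (fun p : Fin n × Fin n => ¬ p.1 < p.2)).card := by
    refine Finset.card_bij (fun p _ => (p.2, p.1)) ?_ ?_ ?_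
    · rintro ⟨i, j⟩ h
      rw [Finset.mem_filter, Finset.mem_offDiag] at h
      rw [Finset.mem_filter, Finset.mem_offDiag]
      exact ⟨⟨h.1.2.1, h.1.1, Ne.symm h.1.2.2⟩, not_lt.2 (le_of_lt h.2)⟩
    · rintro ⟨i, j⟩ _ ⟨i', j'⟩ _ h
      rw [Prod.mk.injEq] at h
      exact Prod.ext h.2 h.1
    · rintro ⟨i, j⟩ h
      rw [Finset.mem_filter, Finset.mem_offDiag] at h
      refine ⟨(j, i), ?_, rfl⟩
      rw [Finset.mem_filter, Finset.mem_offDiag]
      refine ⟨⟨h.1.2.1, h.1.1, Ne.symm h.1.2.2⟩, ?_⟩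
      exact lt_of_le_of_ne (not_lt.1 h.2) (Ne.symm h.1.2.2)
  have h2 := Finset.card_filter_add_card_filter_not (s := S.offDiag)
    (fun p : Fin n × Fin n => p.1 < p.2)
  rw [← h1, Finset.offDiag_card] at h2
  rw [Nat.choose_two_right]
  have h3 : S.card * (S.card - 1) = S.card * S.card - S.card := by
    rw [Nat.mul_sub, mul_one]
  omega

theorem p_CNP : Stmt_CNP := by
  classical
  intro n I
  have h0 : (Finset.univ.filter (fun p : Fin n × Fin n => p.1 < p.2 ∧ (p.1 ∈ I ↔ p.2 ∈ I))) =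
      (I.offDiag.filter (fun p : Fin n × Fin n => p.1 < p.2)) ∪
      (Iᶜ.offDiag.filter (fun p : Fin n × Fin n => p.1 < p.2)) := by
    ext ⟨i, j⟩
    simp only [Finset.mem_filter, Finset.mem_univ, true_and, Finset.mem_union,
      Finset.mem_offDiag, Finset.mem_compl]
    constructor
    · rintro ⟨h1, h2⟩
      by_cases hi : i ∈ I
      · exact Or.inl ⟨⟨hi, h2.1 hi, ne_of_lt h1⟩, h1⟩
      · exact Or.inr ⟨⟨hi, fun hj => hi (h2.2 hj), ne_of_lt h1⟩, h1⟩
    · rintro (⟨⟨h1, h2, -⟩, h3⟩ | ⟨⟨h1, h2, -⟩, h3⟩)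
      · exact ⟨h3, fun _ => h2, fun _ => h1⟩
      · exact ⟨h3, fun h => absurd h h1, fun h => absurd h h2⟩
  have hd : Disjoint (I.offDiag.filter (fun p : Fin n × Fin n => p.1 < p.2))
      (Iᶜ.offDiag.filter (fun p : Fin n × Fin n => p.1 < p.2)) := by
    rw [Finset.disjoint_left]
    rintro ⟨i, j⟩ h1 h2
    rw [Finset.mem_filter, Finset.mem_offDiag] at h1 h2
    exact (Finset.mem_compl.1 h2.1.1) h1.1.1
  have h1 := Finset.card_union_of_disjoint hd
  rw [CNP_pairs, CNP_pairs, Finset.card_compl, Fintype.card_fin] at h1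
  rw [← h1, ← h0]

end MPa8bd83
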