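/- Block CNT (helper1). Arithmetic of the count. -/
import Pool.Agent.Work.MP_a8bd83_qk.Interface2

set_option autoImplicit false

namespace MPa8bd83

open Module

theorem p_CNT (hHRN : Stmt_HRN) (hCN1 : Stmt_CN1) : Stmt_CNT := by
  intro V _ _ _ J k t hF
  obtain ⟨a, b, c, H, s, hs, hN, ha, hH, hH1, hH2⟩ := hCN1 V J k t hF
  obtain ⟨h1, h2⟩ := hHRN V J k t hF.fac H s hH1 hH2 hs
  have h3 := hF.fac.rcard s (fun α hα => (hs α).1 hα)
  have h4 : s.card ≤ finrank ℝ k - finrank ℝ t := by omega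
  have h5 : finrank ℝ t * (s.card + 2) ≤ finrank ℝ t * (finrank ℝ k - finrank ℝ t + 2) :=
    Nat.mul_le_mul_left _ (by omega)
  have h6 : 4 * (b + c) ≤ min (4 * finrank ℝ t) (2 * (finrank ℝ k - finrank ℝ t)) := by
    refine le_min ?_ ?_ <;> omega
  omega

end MPa8bd83
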