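import Pool.Agent.Work.MP_a8bd83_qk.Interface6

set_option autoImplicit false

namespace MPa8bd83

theorem CNW_fib (n : ℕ) (k : ℕ) (S : Finset (Fin n)) (hS : S.card = k) :
    (((Fintype.piFinset (fun _ : Fin n => ({-1, 0, 1} : Finset ℤ))).filter
      (fun w => (Finset.univ.filter (fun i => w i ≠ 0)).card = k)).filter
      (fun w => Finset.univ.filter (fun i => w i ≠ 0) = S)).card = 2 ^ k := by
  have h1 : (((Fintype.piFinset (fun _ : Fin n => ({-1, 0, 1} : Finset ℤ))).filter
      (fun w => (Finset.univ.filter (fun i => w i ≠ 0)).card = k)).filter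
      (fun w => Finset.univ.filter (fun i => w i ≠ 0) = S)) =
      Fintype.piFinset (fun i => if i ∈ S then ({-1, 1} : Finset ℤ) else {0}) := by
    ext w
    rw [Finset.mem_filter, Finset.mem_filter, Fintype.mem_piFinset, Fintype.mem_piFinset]
    constructor
    · rintro ⟨⟨h1, -⟩, h3⟩ i
      have h4 := h1 i
      have h5 : i ∈ S ↔ w i ≠ 0 := by
        rw [← h3]
        simp
      by_cases hi : i ∈ S
      · rw [if_pos hi]
        have h6 := h5.1 hi
        simp only [Finset.mem_insert, Finset.mem_singleton] at h4 ⊢
        rcases h4 with h | h | h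
        · exact Or.inl h
        · exact absurd h h6
        · exact Or.inr h
      · rw [if_neg hi]
        rw [Finset.mem_singleton]
        by_contra h6
        exact hi (h5.2 h6)
    · intro h
      have h3 : Finset.univ.filter (fun i => w i ≠ 0) = S := by
        ext i
        rw [Finset.mem_filter]
        have h4 := h i
        by_cases hi : i ∈ S
        · rw [if_pos hi] at h4
          simp only [Finset.mem_insert, Finset.mem_singleton] at h4
          refine ⟨fun _ => hi, fun _ => ⟨Finset.mem_univ _, ?_⟩⟩
          rcases h4 with h | h <;> rw [h] <;> norm_num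
        · rw [if_neg hi, Finset.mem_singleton] at h4
          exact ⟨fun h5 => absurd h4 h5.2, fun h5 => absurd h5 hi⟩
      refine ⟨⟨fun i => ?_, ?_⟩, h3⟩
      · have h4 := h i
        by_cases hi : i ∈ S
        · rw [if_pos hi] at h4
          simp only [Finset.mem_insert, Finset.mem_singleton] at h4 ⊢
          rcases h4 with h | h
          · exact Or.inl h
          · exact Or.inr (Or.inr h)
        · rw [if_neg hi, Finset.mem_singleton] at h4
          rw [h4]
          simp
      · rw [h3, hS]
  rw [h1, Fintype.card_piFinset]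
  have h2 : ∀ i : Fin n, (if i ∈ S then ({-1, 1} : Finset ℤ) else {0}).card =
      if i ∈ S then 2 else 1 := by
    intro i
    split_ifs
    · rfl
    · rfl
  rw [Finset.prod_congr rfl (fun i _ => h2 i), Finset.prod_ite_mem, Finset.univ_inter,
    Finset.prod_const, hS]

theorem p_CNW : Stmt_CNW := by
  intro n k
  rw [Finset.card_eq_sum_card_fiberwise
    (f := fun w : Fin n → ℤ => Finset.univ.filter (fun i => w i ≠ 0))
    (t := Finset.powersetCard k Finset.univ)]
  · rw [Finset.sum_congr rfl (fun S hS => CNW_fib n k S (Finset.mem_powersetCard.1 hS).2)]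
    rw [Finset.sum_const, Finset.card_powersetCard, Finset.card_univ, Fintype.card_fin,
      smul_eq_mul]
  · intro w hw
    have hw' := Finset.mem_filter.1 (Finset.mem_coe.1 hw)
    exact Finset.mem_coe.2 (Finset.mem_powersetCard.2 ⟨Finset.subset_univ _, hw'.2⟩)

end MPa8bd83
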