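/-
MP_a8bd83_gt, block COC: in rank at least two an admissible family has at most r members.
-/
import Pool.Agent.Work.MP_a8bd83_qk.Interface

namespace MPa8bd83

open Module

theorem COC_orth {V : Type} [NormedAddCommGroup V] [InnerProductSpace ℂ V]
    [FiniteDimensional ℂ V] {J : V → V} {k t : Submodule ℝ (V →L[ℂ] V)}
    (hJ : IsQuatStr J) (hk : IsLieSub J k) (ht : MaxAb k t)
    (hwt : ∀ w : Dual ℝ t, IsWt t w → w ≠ 0) (hWTO : Stmt_WTO)
    {ι : Type} {w : ι → Dual ℝ t} {e : ι → V} (hA : Admissible J k t w e) (i j : ι)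
    (hij : i ≠ j) : inner ℂ (e i) (e j) = 0 := by
  by_cases h : w i = w j
  · have h1 : w i ≠ 0 := by
      apply hwt
      intro hb
      have h2 : e i ∈ (⊥ : Submodule ℂ V) := hb ▸ hA.mem i
      rw [Submodule.mem_bot] at h2
      have h3 := hA.norm i
      rw [h2, norm_zero] at h3
      exact zero_ne_one h3
    obtain ⟨ξ, hξ⟩ : ∃ ξ : t, w i ξ ≠ 0 := by
      by_contra hcon
      push Not at hcon
      exact h1 (LinearMap.ext hcon)
    have h4 : (ξ : V →L[ℂ] V) ∈ Rt k t (w i - w j) := by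
      refine ⟨Submodule.subset_span (ht.le ξ.2), fun τ => ?_⟩
      rw [h, sub_self, ht.comm _ τ.2 _ ξ.2, sub_self]
      simp
    have h5 := hA.diff i j hij _ h4
    rw [hA.mem j ξ, inner_smul_right] at h5
    rcases mul_eq_zero.1 h5 with h6 | h6
    · exfalso
      rcases mul_eq_zero.1 h6 with h7 | h7
      · rw [h] at hξ
        exact hξ (by exact_mod_cast h7)
      · exact Complex.I_ne_zero h7
    · exact h6
  · exact (hWTO V J k t hJ (fun ξ hξ => hk.sp ξ (ht.le hξ))).1 _ _ h _ (hA.mem i) _ (hA.mem j)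

theorem COC_sub {V : Type} [NormedAddCommGroup V] [InnerProductSpace ℂ V] {J : V → V}
    {k t : Submodule ℝ (V →L[ℂ] V)} {ι κ : Type} {w : ι → Dual ℝ t} {e : ι → V}
    (hA : Admissible J k t w e) (f : κ → ι) (hf : Function.Injective f) :
    Admissible J k t (fun i => w (f i)) (fun i => e (f i)) where
  mem i := hA.mem (f i)
  norm i := hA.norm (f i)
  diff i j hij := hA.diff (f i) (f j) (fun h => hij (hf h))
  sum i j := hA.sum (f i) (f j)

theorem COC : Stmt_COC := by
  classical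
  intro V _ _ _ _ J k t hJ hk ht hfree hwt hWTD hWTO hRTD hRTZ hRSY hZER hEXP hLIN hBAR hFLP hr
    ι _ w e hA
  by_contra hcon
  rw [not_le] at hcon
  have hfin : FiniteDimensional ℝ t := Module.finite_of_finrank_pos (by omega)
  obtain ⟨f⟩ : Nonempty (Fin (finrank ℝ t + 1) ↪ ι) :=
    Function.Embedding.nonempty_of_card_le (by rw [Fintype.card_fin]; omega)
  -- a relation
  have hdep : ¬ LinearIndependent ℝ (fun i : Fin (finrank ℝ t + 1) => w (f i)) := by
    intro hli
    have h1 := hli.fintype_card_le_finrank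
    rw [Fintype.card_fin, Subspace.dual_finrank_eq] at h1
    omega
  obtain ⟨g, hg, i₀, hi₀⟩ := Fintype.not_linearIndependent_iff.1 hdep
  let κ : Type := {i : Fin (finrank ℝ t + 1) // g i ≠ 0}
  have hA1 : Admissible J k t (fun i : κ => w (f i.1)) (fun i : κ => e (f i.1)) :=
    COC_sub hA (fun i : κ => f i.1) (f.injective.comp Subtype.val_injective)
  have hA2 := hFLP V J k t hJ hk ht hWTO hRSY κ (fun i : κ => w (f i.1))
    (fun i : κ => e (f i.1)) (fun i => decide (0 < g i.1)) hA1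
  set W : κ → Dual ℝ t := fun i => if decide (0 < g i.1) then w (f i.1) else - w (f i.1) with hW
  set E : κ → V := fun i => if decide (0 < g i.1) then e (f i.1) else J (e (f i.1)) with hE
  -- the coefficients
  set S : ℝ := ∑ i : κ, |g i.1| with hS
  have hSpos : 0 < S :=
    Finset.sum_pos (fun i _ => abs_pos.2 i.2) ⟨⟨i₀, hi₀⟩, Finset.mem_univ _⟩
  set c : κ → ℝ := fun i => |g i.1| / S with hc
  have hcpos : ∀ i, 0 < c i := fun i => div_pos (abs_pos.2 i.2) hSpos
  have hcsum : ∑ i, c i = 1 := by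
    rw [hc]
    simp only
    rw [← Finset.sum_div, ← hS, div_self hSpos.ne']
  have hcW : ∑ i, c i • W i = 0 := by
    have h1 : ∀ i : κ, c i • W i = S⁻¹ • (g i.1 • w (f i.1)) := by
      intro i
      simp only [hc, hW]
      by_cases h : 0 < g i.1
      · rw [if_pos (decide_eq_true h), abs_of_pos h, smul_smul, div_eq_inv_mul]
      · have h2 : g i.1 < 0 := lt_of_le_of_ne (not_lt.1 h) i.2
        rw [if_neg (by simpa using h), abs_of_neg h2, smul_smul, smul_neg, ← neg_smul,
          div_eq_inv_mul]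
        congr 1
        ring
    rw [Finset.sum_congr rfl fun i _ => h1 i, ← Finset.smul_sum]
    have h2 : ∑ i : κ, g i.1 • w (f i.1) = ∑ i, g i • w (f i) := by
      rw [← Finset.sum_subtype (Finset.univ.filter fun i => g i ≠ 0) (by simp)
        (fun i => g i • w (f i))]
      refine Finset.sum_filter_of_ne fun i _ h => ?_
      intro h0
      rw [h0, zero_smul] at h
      exact h rfl
    rw [h2, hg, smul_zero]
  have hEne : ∀ i, E i ≠ 0 := by
    intro i h
    have h3 := hA2.norm i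
    change ‖E i‖ = 1 at h3
    rw [h, norm_zero] at h3
    exact zero_ne_one h3
  -- the zero
  have hx0 : ∑ i, ((Real.sqrt (c i) : ℝ) : ℂ) • E i ≠ 0 := by
    intro h
    have h1 : inner ℂ (E ⟨i₀, hi₀⟩) (∑ i, ((Real.sqrt (c i) : ℝ) : ℂ) • E i) = (0 : ℂ) := by
      rw [h, inner_zero_right]
    rw [inner_sum, Finset.sum_eq_single ⟨i₀, hi₀⟩] at h1
    · have hn : ‖E ⟨i₀, hi₀⟩‖ = 1 := hA2.norm ⟨i₀, hi₀⟩
      rw [inner_smul_right, inner_self_eq_norm_sq_to_K, hn] at h1
      have h2 : Real.sqrt (c ⟨i₀, hi₀⟩) = 0 := by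
        have h3 : ((Real.sqrt (c ⟨i₀, hi₀⟩) : ℝ) : ℂ) = 0 := by simpa using h1
        exact_mod_cast h3
      exact (Real.sqrt_pos.2 (hcpos ⟨i₀, hi₀⟩)).ne' h2
    · intro j _ hj
      rw [inner_smul_right, COC_orth hJ hk ht hwt hWTO hA2 _ _ (Ne.symm hj), mul_zero]
    · intro h
      exact absurd (Finset.mem_univ _) h
  have hM := hZER V J k t hJ hk ht hWTD hWTO hRTD hRTZ κ W E c hA2 hcpos hcW
  obtain ⟨h1, h2⟩ := hBAR V J k t hJ hk ht hfree hWTD hEXP hLIN κ W E c (fun i => hA2.mem i)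
    hEne hcpos hcsum hcW (by omega)
    (by
      have := Fintype.card_subtype_le (fun i : Fin (finrank ℝ t + 1) => g i ≠ 0)
      rw [Fintype.card_fin] at this
      exact this) hx0 hM
  have h3 : ∑ _i : κ, (1 / 2 : ℝ) ≤ ∑ i, c i := Finset.sum_le_sum fun i _ => h2 i
  rw [hcsum, Finset.sum_const, Finset.card_univ, h1, nsmul_eq_mul] at h3
  have h4 : (2 : ℝ) ≤ finrank ℝ t := by exact_mod_cast hr
  push_cast at h3
  linarith

end MPa8bd83
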