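import Pool.Agent.Work.MP_a8bd83_qk.Interface2

set_option autoImplicit false

namespace MPa8bd83

open Module

theorem p_COR : Stmt_COR := by
  intro V _ _ _ J k t hF α hα
  obtain ⟨hα0, hne⟩ := hα
  obtain ⟨X, hX, hX0⟩ := Submodule.exists_mem_ne_zero_of_ne_bot hne
  obtain ⟨Y, hY, η, hadj, hbr, hpos⟩ := hF.hei α hα0 X hX hX0
  set s : ℝ := Real.sqrt (2 / α η) with hs
  have hs2 : s * s = 2 / α η := Real.mul_self_sqrt (by positivity)
  refine ⟨(s * s) • η, (s : ℂ) • X, (s : ℂ) • Y, ?_, ?_, ?_, ?_, ?_⟩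
  · exact Submodule.smul_mem _ _ hX
  · exact Submodule.smul_mem _ _ hY
  · intro x y
    simp only [ContinuousLinearMap.smul_apply]
    rw [inner_smul_left, inner_smul_right, hadj, Complex.conj_ofReal]
  · rw [mul_smul_comm, smul_mul_assoc, mul_smul_comm, smul_mul_assoc, ← smul_sub, ← smul_sub, hbr,
      Submodule.coe_smul]
    rw [smul_neg, smul_neg, smul_smul, smul_smul]
    congr 1
    have h : (s * s) • (η : V →L[ℂ] V) = ((s * s : ℝ) : ℂ) • (η : V →L[ℂ] V) :=
      (Complex.coe_smul (s * s) (η : V →L[ℂ] V)).symm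
    rw [h, smul_smul]
    congr 1
    push_cast
    ring
  · rw [map_smul, smul_eq_mul, hs2]
    field_simp

end MPa8bd83
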