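import Pool.Agent.Work.MP_a8bd83_qk.Interface2

set_option autoImplicit false

namespace MPa8bd83

open Module

theorem p_CRD (hSTV : Stmt_STV) (hSTA : Stmt_STA) : Stmt_CRD := by
  intro V _ _ _ J k t hF α β τ σ hP
  obtain ⟨E, F, hc⟩ := hP.ca
  obtain ⟨E', F', hc'⟩ := hP.cb
  have h1 : ∀ x y : ℤ, pt α β x y τ = (x : ℝ) ∧ pt α β x y σ = (y : ℝ) := by
    intro x y
    constructor
    · simp [pt, hc.two, hP.ba]
    · simp [pt, hc'.two, hP.ab]
  have hli : LinearIndependent ℝ ![τ, σ] := by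
    rw [LinearIndependent.pair_iff]
    intro s u h
    have h1 := congrArg α h
    have h2 := congrArg β h
    simp only [map_add, map_smul, hc.two, hP.ab, smul_eq_mul, map_zero, mul_zero, add_zero] at h1
    simp only [map_add, map_smul, hc'.two, hP.ba, smul_eq_mul, map_zero, mul_zero, zero_add] at h2
    exact ⟨by linarith, by linarith⟩
  have : Module.Finite ℝ t := Module.finite_of_finrank_pos (by rw [hP.rk]; norm_num)
  have hsp : Submodule.span ℝ (Set.range ![τ, σ]) = ⊤ :=
    hli.span_eq_top_of_card_eq_finrank' (by simp [hP.rk])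
  have h2 : ∀ w : Dual ℝ t, w = ((w τ) / 2) • α + ((w σ) / 2) • β := by
    intro w
    apply LinearMap.ext_on_range hsp
    intro i
    fin_cases i
    · simp [hc.two, hP.ba]
    · simp [hc'.two, hP.ab]
  refine ⟨h1, h2, ?_, ?_⟩
  · intro w hw
    obtain ⟨n, hn, -, -⟩ := hSTV V J k t hF α τ E F hc w hw
    obtain ⟨m, hm, -, -⟩ := hSTV V J k t hF β σ E' F' hc' w hw
    refine ⟨n, m, ?_⟩
    have := h2 w
    rw [hn, hm] at this
    exact this
  · intro w hw
    obtain ⟨n, hn, -, -⟩ := hSTA V J k t hF α τ E F hc w hw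
    obtain ⟨m, hm, -, -⟩ := hSTA V J k t hF β σ E' F' hc' w hw
    refine ⟨n, m, ?_⟩
    have := h2 w
    rw [hn, hm] at this
    exact this

end MPa8bd83
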