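import Pool.Agent.Work.MP_a8bd83_qk.Interface7

set_option autoImplicit false

namespace MPa8bd83

open Module

/-- The matrix of a function on the pairs `j < k`. -/
def DMO_mat (m : ℕ) (f : (Σ k : Fin m, Fin k.val) → ℝ) : Matrix (Fin m) (Fin m) ℝ :=
  fun j k => (if h : j.val < k.val then f ⟨k, ⟨j.val, h⟩⟩ else 0) -
    (if h : k.val < j.val then f ⟨j, ⟨k.val, h⟩⟩ else 0)

theorem DMO_mem (m : ℕ) (f : (Σ k : Fin m, Fin k.val) → ℝ) : DMO_mat m f ∈ so m := by
  change (DMO_mat m f).transpose = -(DMO_mat m f)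
  ext j k
  rw [Matrix.transpose_apply, Matrix.neg_apply]
  unfold DMO_mat
  ring

/-- The linear map into `so(m)`. -/
def DMO_lin (m : ℕ) : ((Σ k : Fin m, Fin k.val) → ℝ) →ₗ[ℝ] so m where
  toFun f := ⟨DMO_mat m f, DMO_mem m f⟩
  map_add' f g := by
    apply Subtype.ext
    change DMO_mat m (f + g) = DMO_mat m f + DMO_mat m g
    ext j k
    rw [Matrix.add_apply]
    unfold DMO_mat
    split_ifs <;> simp <;> ring
  map_smul' c f := by
    apply Subtype.ext
    change DMO_mat m (c • f) = c • DMO_mat m f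
    ext j k
    rw [Matrix.smul_apply]
    unfold DMO_mat
    split_ifs with h1 h2 h2
    · omega
    · simp
    · simp
    · simp

theorem DMO_inj (m : ℕ) : Function.Injective (DMO_lin m) := by
  intro f g hfg
  have h : DMO_mat m f = DMO_mat m g := congrArg Subtype.val hfg
  funext ⟨k, j⟩
  have hj : (⟨j.val, lt_trans j.isLt k.isLt⟩ : Fin m).val < k.val := j.isLt
  have h1 := congrFun (congrFun h ⟨j.val, lt_trans j.isLt k.isLt⟩) k
  unfold DMO_mat at h1
  rw [dif_pos hj, dif_neg (not_lt.mpr (le_of_lt hj)), dif_pos hj,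
    dif_neg (not_lt.mpr (le_of_lt hj)), sub_zero, sub_zero] at h1
  exact h1

theorem p_DMO : Stmt_DMO := by
  intro m
  have h1 := LinearMap.finrank_le_finrank_of_injective (DMO_inj m)
  rw [Module.finrank_fintype_fun_eq_card, Fintype.card_sigma] at h1
  simp only [Fintype.card_fin] at h1
  rw [Fin.sum_univ_eq_sum_range (fun i => i) m, Finset.sum_range_id] at h1
  rw [Nat.choose_two_right]
  exact h1

end MPa8bd83
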