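/-
MP_a8bd83_gt (LeBrun-Salamon), smooth quaternionic Kaehler quotients of HP^(N-1): PART 7.
Dimensions and the rank of su(2) (helper77).  Table qk2_blocks (part 7).

RULES.  One block = one file B_XXX.lean in this folder, `import Pool.Agent.Work.MP_a8bd83_qk.Interface7`,
`namespace MPa8bd83`, `theorem p_XXX (hA : Stmt_A) .. : Stmt_XXX` with exactly the blocks named after
`uses` as hypotheses, in that order.  Auxiliary lemmas get the prefix XXX_.  No straight double quotes.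
-/
import Pool.Agent.Work.MP_a8bd83_qk.Interface6

set_option autoImplicit false

namespace MPa8bd83

open Module

/-- `k` is isomorphic to the Lie algebra `g` (of matrices, or in any associative algebra). -/
def IsoL {V : Type} [NormedAddCommGroup V] [InnerProductSpace ℂ V]
    (k : Submodule ℝ (V →L[ℂ] V)) {A : Type} [Ring A] [Algebra ℝ A] (g : Submodule ℝ A) : Prop :=
  ∃ ρ : g ≃ₗ[ℝ] k, ∀ X Y Z : g, (Z : A) = X * Y - Y * X →
    (ρ Z : V →L[ℂ] V) = (ρ X : V →L[ℂ] V) * (ρ Y : V →L[ℂ] V) - (ρ Y : V →L[ℂ] V) * (ρ X : V →L[ℂ] V)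

/-- `k` is a classical compact simple Lie algebra: `su(n)` (`n ≥ 2`), `so(n)` (`n ≥ 7`) or `sp(n)`
(`n ≥ 2`). -/
def ClassicalSimple {V : Type} [NormedAddCommGroup V] [InnerProductSpace ℂ V]
    (k : Submodule ℝ (V →L[ℂ] V)) : Prop :=
  ∃ n : ℕ, (2 ≤ n ∧ IsoL k (su n)) ∨ (7 ≤ n ∧ IsoL k (so n)) ∨ (2 ≤ n ∧ IsoL k (spn n))

/-- The exceptions: `su(n)` with `n = 2 mod 4`, `so(12)`, and `sp(n)` with `n ≤ 4`. -/
def Exc {V : Type} [NormedAddCommGroup V] [InnerProductSpace ℂ V]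
    (k : Submodule ℝ (V →L[ℂ] V)) : Prop :=
  ∃ n : ℕ, (n % 4 = 2 ∧ IsoL k (su n)) ∨ (n = 12 ∧ IsoL k (so n)) ∨ (n ≤ 4 ∧ IsoL k (spn n))

/-- **DMU** (120).  Lower bound: the matrices `E_jk - E_kj`, `i (E_jk + E_kj)` (`j < k`) and `i (E_jj - E_ll)` (`l` = the last index, `j ≠ l`) are linearly independent in `su(n)`; there are `n ^ 2 - 1` of them.
(Or: an injective real linear map from the functions `(Fin n × Fin n) → ℝ` with `f (l, l) = 0`.) -/
def Stmt_DMU : Prop := ∀ n : ℕ, 1 ≤ n → n ^ 2 - 1 ≤ finrank ℝ (su n)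

/-- **DMO** (80).  The matrices `E_jk - E_kj`, `j < k`, are independent in `so(m)`; `C(m, 2)` of them. -/
def Stmt_DMO : Prop := ∀ m : ℕ, m.choose 2 ≤ finrank ℝ (so m)

/-- **DMS** (120).  `c E_jj` (`c = i, j, k`), `c E_jk - conj c E_kj` (`j < k`, `c = 1, i, j, k`): independent, `3 n + 4 C(n, 2) = n (2 n + 1)`. -/
def Stmt_DMS : Prop := ∀ n : ℕ, n * (2 * n + 1) ≤ finrank ℝ (spn n)

/-- **RS1** (120).  Commuting elements of `su(2)` are proportional: `X = !![i a, z; - conj z, - i a]`; if `X ≠ 0` and `X Y = Y X` then `Y` is a real multiple of `X` (compute the entries of `X Y - Y X`).  `ρ : su 2 ≃ k`; for `ξ, η ∈ t`, `[ρ⁻¹ ξ, ρ⁻¹ η] = 0` (apply the hypothesis with `Z = [X, Y] ∈ su 2`, `ρ Z = 0`, so `Z = 0`). -/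
def Stmt_RS1 : Prop :=
  ∀ (V : Type) [NormedAddCommGroup V] [InnerProductSpace ℂ V] [FiniteDimensional ℂ V]
    (k t : Submodule ℝ (V →L[ℂ] V)), IsoL k (su 2) → t ≤ k → (∀ ξ ∈ t, ∀ η ∈ t, ξ * η = η * ξ) →
    finrank ℝ t ≤ 1

end MPa8bd83
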