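/-
MP_a8bd83_gt, THEOREM QR, part 7, block DMS: the dimension of sp(n) is at least n (2 n + 1).
-/
import Pool.Agent.Work.MP_a8bd83_qk.Interface7

set_option autoImplicit false

namespace MPa8bd83

open Module

/-- The index type of the parameters. -/
abbrev DMS_I (n : ℕ) : Type := (Σ k : Fin n, Fin (k : ℕ) × Fin 4) ⊕ (Fin n × Fin 3)

/-- The upper triangular part. -/
noncomputable def DMS_Y (n : ℕ) (x : DMS_I n → ℝ) : HM n := Matrix.of fun j k =>
  if h : (j : ℕ) < (k : ℕ) then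
    (⟨x (Sum.inl ⟨k, (⟨j, h⟩, 0)⟩), x (Sum.inl ⟨k, (⟨j, h⟩, 1)⟩), x (Sum.inl ⟨k, (⟨j, h⟩, 2)⟩),
      x (Sum.inl ⟨k, (⟨j, h⟩, 3)⟩)⟩ : Quaternion ℝ)
  else if j = k then
    (⟨0, x (Sum.inr (j, 0)), x (Sum.inr (j, 1)), x (Sum.inr (j, 2))⟩ : Quaternion ℝ)
  else 0

theorem DMS_lt {n : ℕ} (x : DMS_I n → ℝ) (j k : Fin n) (h : (j : ℕ) < (k : ℕ)) :
    DMS_Y n x j k = (⟨x (Sum.inl ⟨k, (⟨j, h⟩, 0)⟩), x (Sum.inl ⟨k, (⟨j, h⟩, 1)⟩),
      x (Sum.inl ⟨k, (⟨j, h⟩, 2)⟩), x (Sum.inl ⟨k, (⟨j, h⟩, 3)⟩)⟩ : Quaternion ℝ) := by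
  unfold DMS_Y
  rw [Matrix.of_apply, dif_pos h]

theorem DMS_eq {n : ℕ} (x : DMS_I n → ℝ) (j : Fin n) :
    DMS_Y n x j j
      = (⟨0, x (Sum.inr (j, 0)), x (Sum.inr (j, 1)), x (Sum.inr (j, 2))⟩ : Quaternion ℝ) := by
  unfold DMS_Y
  rw [Matrix.of_apply, dif_neg (lt_irrefl _), if_pos rfl]

theorem DMS_gt {n : ℕ} (x : DMS_I n → ℝ) (j k : Fin n) (h : (j : ℕ) < (k : ℕ)) :
    DMS_Y n x k j = 0 := by
  unfold DMS_Y
  rw [Matrix.of_apply, dif_neg (by omega), if_neg (by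
    intro h'
    rw [h'] at h
    exact lt_irrefl _ h)]

theorem DMS_add {n : ℕ} (x x' : DMS_I n → ℝ) :
    DMS_Y n (x + x') = DMS_Y n x + DMS_Y n x' := by
  refine Matrix.ext fun j k => ?_
  rw [Matrix.add_apply]
  rcases lt_trichotomy (j : ℕ) (k : ℕ) with h | h | h
  · rw [DMS_lt _ j k h, DMS_lt _ j k h, DMS_lt _ j k h]
    rfl
  · have h' : j = k := Fin.ext h
    subst h'
    rw [DMS_eq, DMS_eq, DMS_eq]
    apply Quaternion.ext
    · simp
    · rfl
    · rfl
    · rfl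
  · rw [DMS_gt _ k j h, DMS_gt _ k j h, DMS_gt _ k j h, add_zero]

theorem DMS_smul {n : ℕ} (c : ℝ) (x : DMS_I n → ℝ) :
    DMS_Y n (c • x) = c • DMS_Y n x := by
  refine Matrix.ext fun j k => ?_
  rw [Matrix.smul_apply]
  rcases lt_trichotomy (j : ℕ) (k : ℕ) with h | h | h
  · rw [DMS_lt _ j k h, DMS_lt _ j k h]
    rfl
  · have h' : j = k := Fin.ext h
    subst h'
    rw [DMS_eq, DMS_eq]
    apply Quaternion.ext
    · simp
    · rfl
    · rfl
    · rfl
  · rw [DMS_gt _ k j h, DMS_gt _ k j h, smul_zero]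

/-- The parametrisation. -/
noncomputable def DMS_L (n : ℕ) : (DMS_I n → ℝ) →ₗ[ℝ] spn n where
  toFun x := ⟨DMS_Y n x - (DMS_Y n x).conjTranspose, by
    change (DMS_Y n x - (DMS_Y n x).conjTranspose).conjTranspose
      = -(DMS_Y n x - (DMS_Y n x).conjTranspose)
    rw [Matrix.conjTranspose_sub, Matrix.conjTranspose_conjTranspose, neg_sub]⟩
  map_add' := by
    intro x x'
    apply Subtype.ext
    show DMS_Y n (x + x') - (DMS_Y n (x + x')).conjTranspose =
      (DMS_Y n x - (DMS_Y n x).conjTranspose) + (DMS_Y n x' - (DMS_Y n x').conjTranspose)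
    rw [DMS_add, Matrix.conjTranspose_add]
    abel
  map_smul' := by
    intro c x
    apply Subtype.ext
    show DMS_Y n (c • x) - (DMS_Y n (c • x)).conjTranspose =
      c • (DMS_Y n x - (DMS_Y n x).conjTranspose)
    rw [DMS_smul]
    refine Matrix.ext fun j k => ?_
    rw [Matrix.sub_apply, Matrix.conjTranspose_apply, Matrix.smul_apply, Matrix.smul_apply,
      Matrix.smul_apply, Matrix.sub_apply, Matrix.conjTranspose_apply, smul_sub]
    congr 1
    exact Quaternion.star_smul c _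

theorem DMS_inj (n : ℕ) : Function.Injective (DMS_L n) := by
  rw [← LinearMap.ker_eq_bot, LinearMap.ker_eq_bot']
  intro x hx
  have h0 : DMS_Y n x - (DMS_Y n x).conjTranspose = 0 := congrArg Subtype.val hx
  have hlt : ∀ j k : Fin n, (j : ℕ) < (k : ℕ) → DMS_Y n x j k = 0 := by
    intro j k h
    have h1 := congrFun (congrFun h0 j) k
    rw [Matrix.sub_apply, Matrix.conjTranspose_apply, DMS_gt x j k h, star_zero, sub_zero] at h1
    exact h1
  have hdiag : ∀ j : Fin n, DMS_Y n x j j - star (DMS_Y n x j j) = 0 := by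
    intro j
    have h1 := congrFun (congrFun h0 j) j
    rw [Matrix.sub_apply, Matrix.conjTranspose_apply] at h1
    exact h1
  funext s
  rcases s with ⟨k, ⟨j, c⟩⟩ | ⟨j, c⟩
  · have h1 := hlt ⟨j, j.isLt.trans k.isLt⟩ k j.isLt
    rw [DMS_lt _ _ _ (show ((⟨j, j.isLt.trans k.isLt⟩ : Fin n) : ℕ) < (k : ℕ) from j.isLt)] at h1
    fin_cases c
    · exact congrArg QuaternionAlgebra.re h1
    · exact congrArg QuaternionAlgebra.imI h1
    · exact congrArg QuaternionAlgebra.imJ h1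
    · exact congrArg QuaternionAlgebra.imK h1
  · have h1 := hdiag j
    rw [DMS_eq] at h1
    fin_cases c
    · have h2 := congrArg QuaternionAlgebra.imI h1
      have h3 : x (Sum.inr (j, 0)) - -x (Sum.inr (j, 0)) = 0 := h2
      show x (Sum.inr (j, 0)) = 0
      linarith
    · have h2 := congrArg QuaternionAlgebra.imJ h1
      have h3 : x (Sum.inr (j, 1)) - -x (Sum.inr (j, 1)) = 0 := h2
      show x (Sum.inr (j, 1)) = 0
      linarith
    · have h2 := congrArg QuaternionAlgebra.imK h1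
      have h3 : x (Sum.inr (j, 2)) - -x (Sum.inr (j, 2)) = 0 := h2
      show x (Sum.inr (j, 2)) = 0
      linarith

theorem DMS_card (n : ℕ) : Fintype.card (DMS_I n) = n * (2 * n + 1) := by
  have h1 : Fintype.card (DMS_I n) = (∑ k : Fin n, (k : ℕ)) * 4 + n * 3 := by
    simp [Finset.sum_mul]
  have h2 : ∑ k : Fin n, (k : ℕ) = ∑ i ∈ Finset.range n, i := Fin.sum_univ_eq_sum_range id n
  have h3 := Finset.sum_range_id_mul_two n
  rw [h1, h2]
  rcases n with _ | n
  · simp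
  · rw [Nat.add_sub_cancel] at h3
    nlinarith

/-- **DMS.** The dimension of `sp(n)` is at least `n (2 n + 1)`. -/
theorem p_DMS : Stmt_DMS := by
  intro n
  have h := LinearMap.finrank_le_finrank_of_injective (DMS_inj n)
  rw [Module.finrank_fintype_fun_eq_card, DMS_card] at h
  exact h

end MPa8bd83
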