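import Pool.Agent.Work.MP_a8bd83_qk.Interface7

set_option autoImplicit false

namespace MPa8bd83

open Module

/-- the skew-Hermitian matrix with given real coordinates -/
noncomputable def DMU_L (n : ℕ) : (Fin n × Fin n → ℝ) →ₗ[ℝ] Matrix (Fin n) (Fin n) ℂ where
  toFun f := fun j k => if j < k then (f (j, k) : ℂ) + Complex.I * (f (k, j) : ℂ) else
    if k < j then -(f (k, j) : ℂ) + Complex.I * (f (j, k) : ℂ) else Complex.I * (f (j, j) : ℂ)
  map_add' f g := by
    ext j k
    simp only [Matrix.add_apply, Pi.add_apply]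
    split_ifs <;> push_cast <;> ring
  map_smul' c f := by
    ext j k
    simp only [Matrix.smul_apply, Pi.smul_apply, smul_eq_mul, RingHom.id_apply, Complex.real_smul]
    split_ifs <;> push_cast <;> ring

theorem DMU_L_apply (n : ℕ) (f : Fin n × Fin n → ℝ) (j k : Fin n) : DMU_L n f j k =
    if j < k then (f (j, k) : ℂ) + Complex.I * (f (k, j) : ℂ) else
    if k < j then -(f (k, j) : ℂ) + Complex.I * (f (j, k) : ℂ) else
      Complex.I * (f (j, j) : ℂ) := rfl

theorem DMU_inj (n : ℕ) : Function.Injective (DMU_L n) := by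
  rw [injective_iff_map_eq_zero]
  intro f hf
  have h0 : ∀ j k, DMU_L n f j k = 0 := fun j k => by rw [hf]; rfl
  funext ⟨j, k⟩
  rcases lt_trichotomy j k with h | h | h
  · have h1 := congrArg Complex.re (h0 j k)
    rw [DMU_L_apply, if_pos h] at h1
    simpa using h1
  · subst h
    have h1 := congrArg Complex.im (h0 j j)
    rw [DMU_L_apply, if_neg (lt_irrefl _), if_neg (lt_irrefl _)] at h1
    simpa using h1
  · have h1 := congrArg Complex.im (h0 k j)
    rw [DMU_L_apply, if_pos h] at h1
    simpa using h1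

theorem DMU_mem (n : ℕ) (f : Fin n × Fin n → ℝ) (hf : ∑ j, f (j, j) = 0) : DMU_L n f ∈ su n := by
  refine ⟨?_, ?_⟩
  · ext j k
    rw [Matrix.conjTranspose_apply, Matrix.neg_apply, DMU_L_apply, DMU_L_apply]
    rcases lt_trichotomy j k with h | h | h
    · rw [if_neg h.not_gt, if_pos h, if_pos h]
      simp [Complex.ext_iff]
    · subst h
      rw [if_neg (lt_irrefl _), if_neg (lt_irrefl _)]
      simp
    · rw [if_pos h, if_neg h.not_gt, if_pos h]
      simp [Complex.ext_iff]
  · rw [Matrix.trace]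
    have : ∀ j : Fin n, (DMU_L n f).diag j = Complex.I * (f (j, j) : ℂ) := by
      intro j
      rw [Matrix.diag_apply, DMU_L_apply, if_neg (lt_irrefl _), if_neg (lt_irrefl _)]
    simp only [this]
    rw [← Finset.mul_sum, ← Complex.ofReal_sum, hf]
    simp

theorem p_DMU : Stmt_DMU := by
  intro n hn
  obtain ⟨φ, hφ⟩ : ∃ φ : (Fin n × Fin n → ℝ) →ₗ[ℝ] ℝ, ∀ f, φ f = ∑ j, f (j, j) :=
    ⟨∑ j, LinearMap.proj (j, j), fun f => by simp⟩
  have h1 : finrank ℝ (LinearMap.range φ) + finrank ℝ (LinearMap.ker φ) = n ^ 2 := by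
    rw [LinearMap.finrank_range_add_finrank_ker, Module.finrank_pi, Fintype.card_prod,
      Fintype.card_fin, pow_two]
  have h2 : finrank ℝ (LinearMap.range φ) ≤ 1 := by
    have := Submodule.finrank_le (LinearMap.range φ)
    rwa [Module.finrank_self] at this
  let ψ : LinearMap.ker φ →ₗ[ℝ] su n :=
    ((DMU_L n).comp (LinearMap.ker φ).subtype).codRestrict (su n) (fun f => by
      refine DMU_mem n _ ?_
      rw [← hφ]
      exact f.2)
  have h3 : Function.Injective ψ := by
    intro f g hfg
    have h4 : DMU_L n f.1 = DMU_L n g.1 := congrArg Subtype.val hfg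
    exact Subtype.ext (DMU_inj n h4)
  have h4 := LinearMap.finrank_le_finrank_of_injective h3
  omega

end MPa8bd83
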