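import Pool.Agent.Work.MP_a8bd83_qk.Interface

/-! MP_a8bd83_gt, block EV1: eigenvalues of one skew-adjoint operator commuting with `J`. -/

namespace MPa8bd83

open Module

/-- The exponential of an operator on an eigenvector. -/
theorem EV1_eig {V : Type} [NormedAddCommGroup V] [InnerProductSpace ℂ V] [FiniteDimensional ℂ V]
    (T : V →L[ℂ] V) (c : ℂ) (v : V) (h : T v = c • v) :
    NormedSpace.exp T v = Complex.exp c • v := by
  haveI : CompleteSpace V := FiniteDimensional.complete ℂ V
  have h1 : HasSum (fun n : ℕ => ((n.factorial : ℂ)⁻¹) • T ^ n) (NormedSpace.exp T) :=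
    NormedSpace.exp_series_hasSum_exp' T
  have h2 := h1.mapL (ContinuousLinearMap.apply ℂ V v)
  have h3 : HasSum (fun n : ℕ => ((n.factorial : ℂ)⁻¹) • c ^ n) (NormedSpace.exp c) :=
    NormedSpace.exp_series_hasSum_exp' c
  have hpow : ∀ n : ℕ, (T ^ n) v = c ^ n • v := by
    intro n
    induction n with
    | zero => simp
    | succ n ih =>
      rw [pow_succ', ContinuousLinearMap.mul_apply, ih, map_smul, h, smul_smul, pow_succ]
  have h4 : HasSum (fun n : ℕ => (((n.factorial : ℂ)⁻¹) • c ^ n) • v) (NormedSpace.exp c • v) :=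
    h3.smul_const v
  have h5 : (fun n : ℕ => (ContinuousLinearMap.apply ℂ V v) (((n.factorial : ℂ)⁻¹) • T ^ n)) =
      fun n : ℕ => (((n.factorial : ℂ)⁻¹) • c ^ n) • v := by
    funext n
    rw [ContinuousLinearMap.apply_apply, ContinuousLinearMap.smul_apply, hpow, smul_assoc]
  rw [h5] at h2
  have h6 := h2.unique h4
  rw [ContinuousLinearMap.apply_apply] at h6
  rw [h6, Complex.exp_eq_exp_ℂ]

theorem EV1_int {V : Type} [NormedAddCommGroup V] [InnerProductSpace ℂ V] [FiniteDimensional ℂ V]
    (T : V →L[ℂ] V) (a : ℝ) (v : V) (hv : v ≠ 0) (h : T v = ((a : ℂ) * Complex.I) • v)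
    (hT : NormedSpace.exp T = 1 ∨ NormedSpace.exp T = -1) : ∃ n : ℤ, a = n * Real.pi := by
  have h1 := EV1_eig T _ v h
  have h2 : Complex.exp ((a : ℂ) * Complex.I) = 1 ∨ Complex.exp ((a : ℂ) * Complex.I) = -1 := by
    rcases hT with hT | hT
    · left
      rw [hT, ContinuousLinearMap.one_apply] at h1
      have h3 : (1 - Complex.exp ((a : ℂ) * Complex.I)) • v = 0 := by
        rw [sub_smul, one_smul, ← h1, sub_self]
      rcases smul_eq_zero.1 h3 with h4 | h4
      · exact (sub_eq_zero.1 h4).symm
      · exact absurd h4 hv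
    · right
      rw [hT, ContinuousLinearMap.neg_apply, ContinuousLinearMap.one_apply] at h1
      have h3 : (1 + Complex.exp ((a : ℂ) * Complex.I)) • v = 0 := by
        rw [add_smul, one_smul, ← h1, add_neg_cancel]
      rcases smul_eq_zero.1 h3 with h4 | h4
      · exact (eq_neg_of_add_eq_zero_right h4)
      · exact absurd h4 hv
  have h3 : Real.sin a = 0 := by
    have h4 : (Complex.exp ((a : ℂ) * Complex.I)).im = Real.sin a := by
      rw [Complex.exp_ofReal_mul_I_im]
    rcases h2 with h2 | h2
    · rw [h2] at h4; simpa using h4.symm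
    · rw [h2] at h4; simpa using h4.symm
  obtain ⟨n, hn⟩ := Real.sin_eq_zero_iff.1 h3
  exact ⟨n, hn.symm⟩

theorem EV1 : Stmt_EV1 := by
  intro V _ _ _ J η hJ hη
  have hsmul : ∀ (a s : ℝ) (v : V), η v = ((a : ℂ) * Complex.I) • v →
      (s • η) v = (((s * a : ℝ) : ℂ) * Complex.I) • v := by
    intro a s v hv
    have h1 : (s • η) v = (s : ℂ) • (η v) := by
      rw [ContinuousLinearMap.smul_apply]
      exact (RCLike.real_smul_eq_coe_smul (K := ℂ) s (η v))
    rw [h1, hv, smul_smul]
    push_cast
    congr 1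
    ring
  refine ⟨?_, ?_, ?_, ?_, ?_⟩
  · intro x
    set T : V →ₗ[ℂ] V := (-Complex.I) • (η : V →ₗ[ℂ] V) with hT
    have hTs : T.IsSymmetric := by
      intro u v
      have h1 : T u = (-Complex.I) • η u := rfl
      have h2 : T v = (-Complex.I) • η v := rfl
      rw [h1, h2, inner_smul_left, inner_smul_right, hη.skew]
      simp
    set b := hTs.eigenvectorBasis (n := finrank ℂ V) rfl with hb
    have hx := b.sum_repr x
    rw [← hx]
    refine Submodule.sum_mem _ (fun i _ => Submodule.smul_mem _ _ (Submodule.subset_span ?_))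
    refine ⟨hTs.eigenvalues rfl i, ?_⟩
    have h3 : T (b i) = ((hTs.eigenvalues rfl i : ℝ) : ℂ) • b i := by
      rw [hb]; exact hTs.apply_eigenvectorBasis rfl i
    have h4 : T (b i) = (-Complex.I) • η (b i) := rfl
    rw [h4] at h3
    calc η (b i) = Complex.I • ((-Complex.I) • η (b i)) := by
          rw [smul_smul]; simp
      _ = _ := by rw [h3, smul_smul, mul_comm]
  · intro a b u v hab hu hv
    have h1 := hη.skew u v
    rw [hu, hv, inner_smul_left, inner_smul_right] at h1
    have h2 : (starRingEnd ℂ) ((a : ℂ) * Complex.I) = -((a : ℂ) * Complex.I) := by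
      simp
    rw [h2] at h1
    have h3 : (((b : ℂ) - a) * Complex.I) * inner ℂ u v = 0 := by
      linear_combination h1
    rcases mul_eq_zero.1 h3 with h4 | h4
    · exfalso
      rcases mul_eq_zero.1 h4 with h5 | h5
      · apply hab
        have : (b : ℂ) = a := sub_eq_zero.1 h5
        exact_mod_cast this.symm
      · exact Complex.I_ne_zero h5
    · exact h4
  · intro a v hv
    rw [hη.comm, hv, hJ.smul]
    congr 1
    simp
  · intro a s v hv
    exact EV1_eig _ _ v (hsmul a s v hv)
  · intro s hs a v hv0 hv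
    exact EV1_int _ _ v hv0 (hsmul a s v hv) hs

end MPa8bd83
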