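import Pool.Agent.Work.MP_a8bd83_qk.Interface9

set_option autoImplicit false

namespace MPa8bd83

open Module

lemma EVD_one {V : Type} [NormedAddCommGroup V] [InnerProductSpace ℂ V] [FiniteDimensional ℂ V]
    (W : Submodule ℂ V) (K : V → V) (A : V →L[ℂ] V)
    (hadd : ∀ x y, K (x + y) = K x + K y)
    (hsmul : ∀ (c : ℂ) (x : V), K (c • x) = (starRingEnd ℂ c) • K x)
    (hKW : ∀ x ∈ W, K x ∈ W) (hKi : ∀ x ∈ W, K x = 0 → x = 0)
    (hA : ∀ x y, inner ℂ (A x) y = - inner ℂ x (A y)) (hAW : ∀ x ∈ W, A x ∈ W)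
    (hAi : ∀ x ∈ W, A x = 0 → x = 0) (hKA : ∀ x ∈ W, K (A x) = A (K x)) :
    Even (finrank ℂ W) := by
  classical
  let b := stdOrthonormalBasis ℂ W
  have hbW : ∀ i, (b i : V) ∈ W := fun i => (b i).2
  have hexp : ∀ w ∈ W, ∑ i, inner ℂ (b i : V) w • (b i : V) = w := by
    intro w hw
    have h1 := congrArg (fun z : W => (z : V)) (b.sum_repr' ⟨w, hw⟩)
    simpa [Submodule.coe_inner] using h1
  have hON : Orthonormal ℂ (fun i => (b i : V)) :=
    b.orthonormal.comp_linearIsometry W.subtypeₗᵢ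
  let KA : V →+ V := AddMonoidHom.mk' K hadd
  have hKsum : ∀ (f : Fin (finrank ℂ W) → V), K (∑ i, f i) = ∑ i, K (f i) := fun f =>
    map_sum KA f Finset.univ
  let M : Matrix (Fin (finrank ℂ W)) (Fin (finrank ℂ W)) ℂ :=
    Matrix.of fun i j => inner ℂ (b i : V) (A (b j : V))
  let P : Matrix (Fin (finrank ℂ W)) (Fin (finrank ℂ W)) ℂ :=
    Matrix.of fun i j => inner ℂ (b i : V) (K (b j : V))
  have hMP : M * P = P * (starRingEnd ℂ).mapMatrix M := by
    ext k j
    rw [Matrix.mul_apply, Matrix.mul_apply]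
    have h1 : ∑ i, M k i * P i j = inner ℂ (b k : V) (A (K (b j : V))) := by
      conv_rhs => rw [← hexp (K (b j : V)) (hKW _ (hbW j)), map_sum, inner_sum]
      refine Finset.sum_congr rfl fun i _ => ?_
      rw [map_smul, inner_smul_right, mul_comm]
      rfl
    have h2 : ∑ i, P k i * (starRingEnd ℂ).mapMatrix M i j =
        inner ℂ (b k : V) (K (A (b j : V))) := by
      conv_rhs => rw [← hexp (A (b j : V)) (hAW _ (hbW j)), hKsum, inner_sum]
      refine Finset.sum_congr rfl fun i _ => ?_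
      rw [hsmul, inner_smul_right, mul_comm]
      rfl
    rw [h1, h2, hKA _ (hbW j)]
  have hMH : M.conjTranspose = -M := by
    ext i j
    rw [Matrix.conjTranspose_apply, Matrix.neg_apply]
    change (starRingEnd ℂ) (inner ℂ (b j : V) (A (b i : V))) = - inner ℂ (b i : V) (A (b j : V))
    rw [inner_conj_symm, hA]
  have hP0 : P.det ≠ 0 := by
    intro h0
    obtain ⟨v, hv, hv0⟩ := Matrix.exists_mulVec_eq_zero_iff.2 h0
    apply hv
    have h1 : K (∑ j, (starRingEnd ℂ) (v j) • (b j : V)) = 0 := by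
      have hmem : K (∑ j, (starRingEnd ℂ) (v j) • (b j : V)) ∈ W :=
        hKW _ (W.sum_mem fun j _ => W.smul_mem _ (hbW j))
      rw [← hexp _ hmem]
      refine Finset.sum_eq_zero fun i _ => ?_
      have h2 := congrFun hv0 i
      rw [Matrix.mulVec, dotProduct] at h2
      rw [hKsum, inner_sum]
      have h3 : ∑ j, inner ℂ (b i : V) (K ((starRingEnd ℂ) (v j) • (b j : V))) =
          ∑ j, P i j * v j := by
        refine Finset.sum_congr rfl fun j _ => ?_
        rw [hsmul, Complex.conj_conj, inner_smul_right, mul_comm]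
        rfl
      rw [h3, h2, Pi.zero_apply, zero_smul]
    have h4 := hKi _ (W.sum_mem fun j _ => W.smul_mem _ (hbW j)) h1
    funext i
    have h5 := hON.inner_right_fintype (fun j => (starRingEnd ℂ) (v j)) i
    rw [h4, inner_zero_right] at h5
    have h6 : (starRingEnd ℂ) (v i) = 0 := h5.symm
    rw [Pi.zero_apply]
    simpa using h6
  have hM0 : M.det ≠ 0 := by
    intro h0
    obtain ⟨v, hv, hv0⟩ := Matrix.exists_mulVec_eq_zero_iff.2 h0
    apply hv
    have h1 : A (∑ j, v j • (b j : V)) = 0 := by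
      have hmem : A (∑ j, v j • (b j : V)) ∈ W :=
        hAW _ (W.sum_mem fun j _ => W.smul_mem _ (hbW j))
      rw [← hexp _ hmem]
      refine Finset.sum_eq_zero fun i _ => ?_
      have h2 := congrFun hv0 i
      rw [Matrix.mulVec, dotProduct] at h2
      rw [map_sum, inner_sum]
      have h3 : ∑ j, inner ℂ (b i : V) (A (v j • (b j : V))) = ∑ j, M i j * v j := by
        refine Finset.sum_congr rfl fun j _ => ?_
        rw [map_smul, inner_smul_right, mul_comm]
        rfl
      rw [h3, h2, Pi.zero_apply, zero_smul]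
    have h4 := hAi _ (W.sum_mem fun j _ => W.smul_mem _ (hbW j)) h1
    funext i
    have h5 := hON.inner_right_fintype v i
    rw [h4, inner_zero_right] at h5
    rw [Pi.zero_apply]
    exact h5.symm
  have h1 : M.det = (starRingEnd ℂ) M.det := by
    have h2 := congrArg Matrix.det hMP
    rw [Matrix.det_mul, Matrix.det_mul, mul_comm, ← RingHom.map_det] at h2
    exact mul_left_cancel₀ hP0 h2
  have h3 : (starRingEnd ℂ) M.det = (-1) ^ (finrank ℂ W) * M.det := by
    have h4 := congrArg Matrix.det hMH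
    rw [Matrix.det_conjTranspose, Matrix.det_neg, Fintype.card_fin] at h4
    exact h4
  have h5 : ((-1 : ℂ)) ^ (finrank ℂ W) = 1 := by
    apply mul_right_cancel₀ hM0
    rw [one_mul, ← h3, ← h1]
  exact (neg_one_pow_eq_one_iff_even (by norm_num)).1 h5

theorem p_EVD : Stmt_EVD := by
  intro V _ _ _ b
  induction b with
  | zero =>
    intro E K H _ _ _ _ _ _ _ _ h0
    have hE : E = ⊥ := by
      rw [Submodule.eq_bot_iff]
      exact fun x hx => h0 x hx fun l => l.elim0
    rw [hE, finrank_bot]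
    exact Even.zero
  | succ b ih =>
    intro E K H hadd hsmul hKE hKi hH hHE hHH hKH h0
    have hK0 : K 0 = 0 := by
      have h1 := hadd 0 0
      rw [add_zero] at h1
      simpa using h1
    have hcomm : ∀ l l' x, H l (H l' x) = H l' (H l x) := by
      intro l l' x
      exact congrArg (fun T : V →L[ℂ] V => T x) (hHH l l')
    set A : V →ₗ[ℂ] V := (H 0 : V →ₗ[ℂ] V) with hAdef
    have hA : ∀ x, A x = H 0 x := fun x => rfl
    have hk : finrank ℂ (E.map A) + finrank ℂ (E ⊓ LinearMap.ker A : Submodule ℂ V) =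
        finrank ℂ E := by
      have h1 := LinearMap.finrank_range_add_finrank_ker (A.domRestrict E)
      have h2 : LinearMap.range (A.domRestrict E) = E.map A := by
        ext y
        constructor
        · rintro ⟨x, rfl⟩
          exact ⟨x, x.2, rfl⟩
        · rintro ⟨x, hx, rfl⟩
          exact ⟨⟨x, hx⟩, rfl⟩
      have h3 : (LinearMap.ker (A.domRestrict E)).map E.subtype = E ⊓ LinearMap.ker A := by
        ext y
        constructor
        · rintro ⟨x, hx, rfl⟩
          exact ⟨x.2, hx⟩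
        · rintro ⟨hy, hy2⟩
          exact ⟨⟨y, hy⟩, hy2, rfl⟩
      rw [h2, ← Submodule.finrank_map_subtype_eq, h3] at h1
      exact h1
    have hE1 : Even (finrank ℂ (E ⊓ LinearMap.ker A : Submodule ℂ V)) := by
      refine ih (E ⊓ LinearMap.ker A) K (fun l => H l.succ) hadd hsmul ?_ ?_ ?_ ?_ ?_ ?_ ?_
      · rintro x ⟨hx, hx2⟩
        refine ⟨hKE x hx, ?_⟩
        change H 0 (K x) = 0
        have h2 : H 0 x = 0 := hx2
        rw [← hKH 0 x hx, h2, hK0]
      · rintro x ⟨hx, -⟩ h1
        exact hKi x hx h1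
      · intro l x y
        exact hH _ x y
      · rintro l x ⟨hx, hx2⟩
        refine ⟨hHE _ x hx, ?_⟩
        change H 0 (H l.succ x) = 0
        have h2 : H 0 x = 0 := hx2
        rw [hcomm, h2, map_zero]
      · intro l l'
        exact hHH _ _
      · rintro l x ⟨hx, -⟩
        exact hKH _ x hx
      · rintro x ⟨hx, hx2⟩ h1
        refine h0 x hx fun l => ?_
        refine Fin.cases ?_ (fun i => h1 i) l
        exact hx2
    have hE2 : Even (finrank ℂ (E.map A)) := by
      refine EVD_one (E.map A) K (H 0) hadd hsmul ?_ ?_ (hH 0) ?_ ?_ ?_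
      · rintro _ ⟨x, hx, rfl⟩
        exact ⟨K x, hKE x hx, (hKH 0 x hx).symm⟩
      · rintro _ ⟨x, hx, rfl⟩ h1
        exact hKi _ (hHE 0 x hx) h1
      · rintro _ ⟨x, hx, rfl⟩
        exact ⟨H 0 x, hHE 0 x hx, rfl⟩
      · rintro _ ⟨x, hx, rfl⟩ h1
        change H 0 (H 0 x) = 0 at h1
        change H 0 x = 0
        have h2 := hH 0 x (H 0 x)
        rw [h1, inner_zero_right, neg_zero] at h2
        exact inner_self_eq_zero.1 h2
      · rintro _ ⟨x, hx, rfl⟩
        exact hKH 0 _ (hHE 0 x hx)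
    rw [← hk]
    exact hE2.add hE1

end MPa8bd83
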