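/-
MP_a8bd83_gt, block IV4 (helper25): the involution criterion for representations.
-/
import Pool.Agent.Work.MP_a8bd83_qk.Interface5

set_option autoImplicit false

namespace MPa8bd83

open Module

section IV4sec

variable {V : Type} [NormedAddCommGroup V] [InnerProductSpace ℂ V] [FiniteDimensional ℂ V]

theorem IV4_add (X Y : V →L[ℂ] V) (h : Commute X Y) :
    NormedSpace.exp (X + Y) = NormedSpace.exp X * NormedSpace.exp Y := by
  have : CompleteSpace V := FiniteDimensional.complete ℂ V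
  letI : NormedAlgebra ℚ (V →L[ℂ] V) := NormedAlgebra.restrictScalars ℚ ℂ (V →L[ℂ] V)
  exact NormedSpace.exp_add_of_commute h

variable {J : V → V} {A : Type} [Ring A] [Algebra ℝ A] {g : Submodule ℝ A}
  {ρ : g →ₗ[ℝ] (V →L[ℂ] V)}

theorem IV4_comm (hρ : IsLRep J g ρ) (X Y : g) (h : (X : A) * Y = Y * X) :
    ρ X * ρ Y = ρ Y * ρ X := by
  have h1 := hρ.lie X Y 0 (by rw [h, sub_self]; rfl)
  rw [map_zero] at h1
  exact sub_eq_zero.1 h1.symm

theorem IV4_trip (hρ : IsLRep J g ρ) (x y z : g) (h : QTrip (x : A) (y : A) (z : A)) :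
    QTrip (ρ x) (ρ y) (ρ z) := by
  refine ⟨?_, ?_, ?_⟩
  · rw [← hρ.lie x y ((2 : ℝ) • z) (by rw [h.xy]; rfl), map_smul]
  · rw [← hρ.lie y z ((2 : ℝ) • x) (by rw [h.yz]; rfl), map_smul]
  · rw [← hρ.lie z x ((2 : ℝ) • y) (by rw [h.zx]; rfl), map_smul]

theorem IV4_exps (hQUT : Stmt_QUT) (hJ : IsQuatStr J) (hρ : IsLRep J g ρ) {ι : Type}
    (D₁ D₂ D₃ : ι → g) (hQ : ∀ i, QTrip (D₁ i : A) (D₂ i : A) (D₃ i : A))
    (hc : ∀ i j, (D₁ i : A) * D₁ j = D₁ j * D₁ i) (s : Finset ι) :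
    NormedSpace.exp ((2 * Real.pi) • ρ (∑ i ∈ s, D₁ i)) = 1 := by
  classical
  induction s using Finset.induction_on with
  | empty => rw [Finset.sum_empty, map_zero, smul_zero, NormedSpace.exp_zero]
  | insert a s ha ih =>
    have h1 : Commute (ρ (D₁ a)) (ρ (∑ i ∈ s, D₁ i)) := by
      apply IV4_comm hρ
      rw [Submodule.coe_sum, Finset.mul_sum, Finset.sum_mul]
      exact Finset.sum_congr rfl fun i _ => hc a i
    rw [Finset.sum_insert ha, map_add, smul_add,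
      IV4_add _ _ ((h1.smul_left (2 * Real.pi)).smul_right (2 * Real.pi)), ih, mul_one]
    exact hQUT V J (ρ (D₁ a)) (ρ (D₂ a)) (ρ (D₃ a)) hJ (hρ.sp (D₁ a))
      (IV4_trip hρ _ _ _ (hQ a))

theorem IV4_alg {R : Type} [Ring R] (D X : R) (h3 : D * D * D = -D)
    (hX : X * (D * D) = D * D * X) :
    D * (D * (D * X - X * D) - (D * X - X * D) * D)
      - (D * (D * X - X * D) - (D * X - X * D) * D) * D = -(4 • (D * X - X * D)) := by
  have e1 : D * D * D * X = -(D * X) := by rw [h3, neg_mul]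
  have e2 : D * D * X * D = -(X * D) := by
    rw [← hX, mul_assoc, h3, mul_neg]
  have e3 : D * X * (D * D) = -(D * X) := by
    rw [mul_assoc, hX, ← mul_assoc, ← mul_assoc, h3, neg_mul]
  have e4 : X * (D * D * D) = -(X * D) := by rw [h3, mul_neg]
  calc D * (D * (D * X - X * D) - (D * X - X * D) * D)
      - (D * (D * X - X * D) - (D * X - X * D) * D) * D
      = D * D * D * X - 3 • (D * D * X * D) + 3 • (D * X * (D * D)) - X * (D * D * D) := by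
        noncomm_ring
    _ = -(D * X) - 3 • (-(X * D)) + 3 • (-(D * X)) - (-(X * D)) := by rw [e1, e2, e3, e4]
    _ = -(4 • (D * X - X * D)) := by noncomm_ring

theorem IV4_alg2 {R : Type} [Ring R] (D Z : R) (h1 : D * Z * D = 0)
    (h2 : D * D * Z + Z * (D * D) = -Z) :
    D * (D * Z - Z * D) - (D * Z - Z * D) * D = -Z := by
  calc D * (D * Z - Z * D) - (D * Z - Z * D) * D
      = (D * D * Z + Z * (D * D)) - 2 • (D * Z * D) := by noncomm_ring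
    _ = -Z := by rw [h1, h2, smul_zero, sub_zero]

omit [FiniteDimensional ℂ V] in
theorem IV4_z (x : V →L[ℂ] V) (h : x = -x) : x = 0 := by
  have h1 : (2 : ℂ) • x = 0 := by
    rw [two_smul]
    exact add_eq_zero_iff_eq_neg.2 h
  rcases smul_eq_zero.1 h1 with h2 | h2
  · exact absurd h2 two_ne_zero
  · exact h2

theorem IV4_b (hSE3 : Stmt_SE3) (hρ : IsLRep J g ρ) (hg : ∀ X ∈ g, ∀ Y ∈ g, X * Y - Y * X ∈ g)
    (D X : g) (h3 : (D : A) * D * D = -D) (hX : (X : A) * ((D : A) * D) = (D : A) * D * X) :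
    NormedSpace.exp (Real.pi • ρ D) * ρ X = ρ X * NormedSpace.exp (Real.pi • ρ D) := by
  obtain ⟨B, hB⟩ : ∃ B : g, (B : A) = D * X - X * D := ⟨⟨_, hg D D.2 X X.2⟩, rfl⟩
  obtain ⟨C, hC⟩ : ∃ C : g, (C : A) = D * B - B * D := ⟨⟨_, hg D D.2 B B.2⟩, rfl⟩
  have h4 : ((-(4 • B) : g) : A) = D * C - C * D := by
    rw [hC, hB, IV4_alg (D : A) X h3 hX, ← hB]
    rfl
  refine hSE3 V (ρ D) (ρ X) (ρ B) (ρ C) (hρ.lie D X B hB).symm (hρ.lie D B C hC).symm ?_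
  rw [← hρ.lie D C _ h4, map_neg, map_nsmul]
  congr 1
  exact (Nat.cast_smul_eq_nsmul ℂ 4 (ρ B)).symm

theorem IV4_c (hSE2 : Stmt_SE2) (hρ : IsLRep J g ρ) (hg : ∀ X ∈ g, ∀ Y ∈ g, X * Y - Y * X ∈ g)
    (D Z : g) (h1 : (D : A) * Z * D = 0)
    (h2 : (D : A) * D * Z + Z * ((D : A) * D) = -(Z : A)) :
    NormedSpace.exp (Real.pi • ρ D) * ρ Z = -(ρ Z * NormedSpace.exp (Real.pi • ρ D)) := by
  obtain ⟨B, hB⟩ : ∃ B : g, (B : A) = D * Z - Z * D := ⟨⟨_, hg D D.2 Z Z.2⟩, rfl⟩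
  have h4 : ((-Z : g) : A) = D * B - B * D := by
    rw [hB, IV4_alg2 (D : A) Z h1 h2]
    rfl
  apply hSE2 V (ρ D) (ρ Z)
  rw [← hρ.lie D Z B hB, ← hρ.lie D B _ h4, map_neg]

end IV4sec

theorem p_IV4 (hRES : Stmt_RES) (hJXP : Stmt_JXP) (hSE2 : Stmt_SE2) (hSE3 : Stmt_SE3)
    (hQUT : Stmt_QUT) : Stmt_IV4 := by
  intro V _ _ _ J A _ _ _ g L ρ ι _ D₁ D₂ D₃ D hJ hg hρ hfree hQ hc hD h3 hLg hL hdec hZ
  have hk : ∀ ξ ∈ LinearMap.range ρ, IsSp J ξ := by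
    rintro ξ ⟨X, rfl⟩
    exact hρ.sp X
  obtain ⟨L', hL'⟩ : ∃ L' : Submodule ℝ (V →L[ℂ] V),
      L' = (Submodule.comap g.subtype L).map ρ := ⟨_, rfl⟩
  have hmem : ∀ ζ, ζ ∈ L' ↔ ∃ X : g, (X : A) ∈ L ∧ ρ X = ζ := by
    intro ζ
    rw [hL', Submodule.mem_map]
    rfl
  have hLr : L' ≤ LinearMap.range ρ := by
    intro ζ hζ
    obtain ⟨X, _, rfl⟩ := (hmem ζ).1 hζ
    exact ⟨X, rfl⟩
  have hfr : finrank ℝ L' ≤ finrank ℝ L := by
    rw [hL']
    refine le_trans (Submodule.finrank_map_le ρ _) ?_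
    have h1 : Function.Injective (LinearMap.codRestrict L
        (g.subtype.comp (Submodule.comap g.subtype L).subtype) (fun x => x.2)) := by
      intro x y hxy
      have h2 := congrArg (fun z : L => (z : A)) hxy
      exact Subtype.ext (Subtype.ext h2)
    exact LinearMap.finrank_le_finrank_of_injective h1
  have hξ : Real.pi • ρ D ∈ LinearMap.range ρ := ⟨Real.pi • D, map_smul _ _ _⟩
  have hgg : NormedSpace.exp (Real.pi • ρ D) * NormedSpace.exp (Real.pi • ρ D) = 1 := by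
    rw [← IV4_add _ _ (Commute.refl _), ← add_smul, ← two_mul, hD]
    exact IV4_exps hQUT hJ hρ D₁ D₂ D₃ hQ hc Finset.univ
  obtain ⟨Z, hZ0, hZ1, hZ2⟩ := hZ
  have hGZ := IV4_c hSE2 hρ hg D Z hZ1 hZ2
  have hg1 : NormedSpace.exp (Real.pi • ρ D) ≠ 1 := by
    intro h
    rw [h, one_mul, mul_one] at hGZ
    exact hZ0 (IV4_z _ hGZ)
  have hg2 : NormedSpace.exp (Real.pi • ρ D) ≠ -1 := by
    intro h
    rw [h, neg_one_mul, mul_neg_one, neg_neg] at hGZ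
    exact hZ0 (IV4_z _ hGZ.symm)
  have hcomm : ∀ ζ ∈ L', ζ * NormedSpace.exp (Real.pi • ρ D)
      = NormedSpace.exp (Real.pi • ρ D) * ζ := by
    intro ζ hζ
    obtain ⟨X, hX, rfl⟩ := (hmem ζ).1 hζ
    exact (IV4_b hSE3 hρ hg D X h3 (hL X hX)).symm
  have hdec' : ∀ ζ ∈ LinearMap.range ρ, ∃ a ∈ L', ∃ b : V →L[ℂ] V, ζ = a + b ∧
      b * NormedSpace.exp (Real.pi • ρ D) = -(NormedSpace.exp (Real.pi • ρ D) * b) := by
    rintro ζ ⟨X, rfl⟩
    obtain ⟨Y, hY, W, hW, hXY, hW1, hW2⟩ := hdec X X.2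
    refine ⟨ρ ⟨Y, hLg hY⟩, (hmem _).2 ⟨⟨Y, hLg hY⟩, hY, rfl⟩, ρ ⟨W, hW⟩, ?_, ?_⟩
    · rw [← map_add]
      exact congrArg ρ (Subtype.ext hXY)
    · rw [IV4_c hSE2 hρ hg D ⟨W, hW⟩ hW1 hW2, neg_neg]
  refine ⟨fun ε hε => ?_, ?_⟩
  · by_contra hcon
    push Not at hcon
    exact IN2_core hRES hJXP V J (LinearMap.range ρ) L' hJ hk hLr hfree (Real.pi • ρ D) hξ hgg
      hg1 hg2 hcomm hdec' ε hε (lt_of_le_of_lt (Nat.mul_le_mul_left 2 hfr) hcon)
  · have h1 := p_IN2 hRES hJXP V J (LinearMap.range ρ) L' hJ hk hLr hfree (Real.pi • ρ D) hξ hgg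
      hg1 hg2 hcomm hdec'
    exact le_trans h1 (Nat.mul_le_mul_left 4 hfr)

end MPa8bd83
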