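import Pool.Agent.Work.MP_a8bd83_qk.Interface4

/-! # Block JXP (helper71) -/

set_option autoImplicit false

namespace MPa8bd83

theorem JXP_cont {V : Type} [NormedAddCommGroup V] [InnerProductSpace ℂ V] (J : V → V)
    (hJ : IsQuatStr J) : Continuous J := by
  have h1 : ∀ x, ‖J x‖ = ‖x‖ := by
    intro x
    rw [norm_eq_sqrt_re_inner (𝕜 := ℂ) (J x), norm_eq_sqrt_re_inner (𝕜 := ℂ) x, hJ.inner]
  have hneg : ∀ x, J (-x) = -J x := by
    intro x
    have h2 := hJ.smul (-1) x
    rw [map_neg, map_one, neg_one_smul, neg_one_smul] at h2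
    exact h2
  have h2 : Isometry J := by
    refine Isometry.of_dist_eq fun x y => ?_
    rw [dist_eq_norm, dist_eq_norm, ← h1 (x - y), sub_eq_add_neg x y, hJ.add, hneg,
      sub_eq_add_neg]
  exact h2.continuous

theorem p_JXP : Stmt_JXP := by
  intro V _ _ _ J ξ hJ hξ
  have : CompleteSpace V := FiniteDimensional.complete ℂ V
  refine ⟨?_, ?_⟩
  · intro x
    have hc := JXP_cont J hJ
    have hsum : HasSum (fun n : ℕ => ((n.factorial : ℂ)⁻¹) • ξ ^ n) (NormedSpace.exp ξ) :=
      NormedSpace.exp_series_hasSum_exp' ξ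
    have hat : ∀ y : V, HasSum (fun n : ℕ => ((n.factorial : ℂ)⁻¹) • (ξ ^ n) y)
        (NormedSpace.exp ξ y) := by
      intro y
      exact hsum.mapL (ContinuousLinearMap.apply ℂ V y)
    have hpow : ∀ (n : ℕ) (y : V), (ξ ^ n) (J y) = J ((ξ ^ n) y) := by
      intro n
      induction n with
      | zero =>
        intro y
        simp
      | succ n ih =>
        intro y
        rw [pow_succ, mul_apply_eq_comp, hξ.comm, ih, mul_apply_eq_comp]
    have hJ0 : J 0 = 0 := by
      have h2 := hJ.smul 0 0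
      rw [map_zero, zero_smul, zero_smul] at h2
      exact h2
    let JA : V →+ V := ⟨⟨J, hJ0⟩, hJ.add⟩
    have h1 : HasSum (fun n : ℕ => J (((n.factorial : ℂ)⁻¹) • (ξ ^ n) x))
        (J (NormedSpace.exp ξ x)) := (hat x).map JA hc
    have h2 : (fun n : ℕ => J (((n.factorial : ℂ)⁻¹) • (ξ ^ n) x)) =
        fun n : ℕ => ((n.factorial : ℂ)⁻¹) • (ξ ^ n) (J x) := by
      funext n
      rw [hJ.smul, hpow, map_inv₀, map_natCast]
    rw [h2] at h1
    exact (hat (J x)).unique h1
  · intro x y
    have h1 : star ξ = -ξ := by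
      rw [ContinuousLinearMap.star_eq_adjoint]
      symm
      rw [ContinuousLinearMap.eq_adjoint_iff]
      intro u v
      rw [neg_apply, inner_neg_left, hξ.skew, neg_neg]
    have h2 : star (NormedSpace.exp ξ) = NormedSpace.exp (-ξ) := by
      rw [NormedSpace.star_exp, h1]
    rw [← h2, ContinuousLinearMap.star_eq_adjoint, ContinuousLinearMap.adjoint_inner_right]

end MPa8bd83
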