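import Pool.Agent.Work.MP_a8bd83_qk.Interface9

/-! Block SUB: the involutions of `SU(n)` (helper90), after `B_SPB.lean` and `B_SUM.lean`. -/

set_option autoImplicit false

namespace MPa8bd83

open Module

/-- The diagonal projection. -/
noncomputable def SUB_P (n a : ℕ) : Matrix (Fin n) (Fin n) ℂ :=
  Matrix.diagonal (fun j : Fin n => if (j : ℕ) < a then (1 : ℂ) else 0)

theorem SUB_off {n a : ℕ} (Z : Matrix (Fin n) (Fin n) ℂ)
    (h : ∀ j k : Fin n, ((j : ℕ) < a ↔ (k : ℕ) < a) → Z j k = 0) :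
    SUB_P n a * Z + Z * SUB_P n a = Z ∧ SUB_P n a * Z * SUB_P n a = 0 := by
  constructor
  · refine Matrix.ext fun j k => ?_
    rw [Matrix.add_apply, SUB_P, Matrix.diagonal_mul, Matrix.mul_diagonal]
    by_cases hj : (j : ℕ) < a
    · by_cases hk : (k : ℕ) < a
      · rw [h j k (by simp [hj, hk])]
        simp
      · simp [hj, hk]
    · by_cases hk : (k : ℕ) < a
      · simp [hj, hk]
      · rw [h j k (by simp [hj, hk])]
        simp
  · refine Matrix.ext fun j k => ?_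
    rw [SUB_P, Matrix.mul_diagonal, Matrix.diagonal_mul, Matrix.zero_apply]
    by_cases hj : (j : ℕ) < a
    · by_cases hk : (k : ℕ) < a
      · rw [h j k (by simp [hj, hk])]
        simp
      · simp [hk]
    · simp [hj]

theorem SUB_comm {n a : ℕ} (X : Matrix (Fin n) (Fin n) ℂ)
    (h : ∀ j k : Fin n, ¬ ((j : ℕ) < a ↔ (k : ℕ) < a) → X j k = 0) :
    X * SUB_P n a = SUB_P n a * X := by
  refine Matrix.ext fun j k => ?_
  rw [SUB_P, Matrix.diagonal_mul, Matrix.mul_diagonal]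
  by_cases hj : (j : ℕ) < a
  · by_cases hk : (k : ℕ) < a
    · simp [hj, hk]
    · rw [h j k (by simp [hj, hk])]
      simp
  · by_cases hk : (k : ℕ) < a
    · rw [h j k (by simp [hj, hk])]
      simp
    · simp [hj, hk]

theorem SUB_D {n : ℕ} {D P Z : Matrix (Fin n) (Fin n) ℂ} (h2 : D * D = -P)
    (h3 : D * D * D = -D) (h : P * Z + Z * P = Z ∧ P * Z * P = 0) :
    D * Z * D = 0 ∧ D * D * Z + Z * (D * D) = -Z := by
  have h4 : P * D = D := by
    have := h3
    rw [h2, neg_mul] at this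
    exact neg_inj.1 this
  have h5 : D * P = D := by
    have := h3
    rw [mul_assoc, h2, mul_neg] at this
    exact neg_inj.1 this
  constructor
  · calc D * Z * D = D * P * Z * (P * D) := by rw [h5, h4]
      _ = D * (P * Z * P) * D := by simp only [mul_assoc]
      _ = 0 := by rw [h.2, mul_zero, zero_mul]
  · rw [h2, neg_mul, mul_neg, ← neg_add, h.1]

/-- `i (E_pp - E_qq)` -/
noncomputable def SUB_A {n : ℕ} (p q : Fin n) : Matrix (Fin n) (Fin n) ℂ :=
  Matrix.single p p Complex.I - Matrix.single q q Complex.I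

/-- `E_pq - E_qp` -/
noncomputable def SUB_B {n : ℕ} (p q : Fin n) : Matrix (Fin n) (Fin n) ℂ :=
  Matrix.single p q 1 - Matrix.single q p 1

/-- `i (E_pq + E_qp)` -/
noncomputable def SUB_C {n : ℕ} (p q : Fin n) : Matrix (Fin n) (Fin n) ℂ :=
  Matrix.single p q Complex.I + Matrix.single q p Complex.I

theorem SUB_negI {n : ℕ} (p q : Fin n) :
    (Matrix.single p q (-Complex.I) : Matrix (Fin n) (Fin n) ℂ) = -Matrix.single p q Complex.I := by
  refine Matrix.ext fun a b => ?_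
  rw [Matrix.neg_apply, Matrix.single_apply, Matrix.single_apply]
  split_ifs
  · rfl
  · rw [neg_zero]

theorem SUB_neg1 {n : ℕ} (p q : Fin n) :
    (Matrix.single p q (-1) : Matrix (Fin n) (Fin n) ℂ) = -Matrix.single p q 1 := by
  refine Matrix.ext fun a b => ?_
  rw [Matrix.neg_apply, Matrix.single_apply, Matrix.single_apply]
  split_ifs
  · rfl
  · rw [neg_zero]

theorem SUB_memA {n : ℕ} (p q : Fin n) : SUB_A p q ∈ su n := by
  refine ⟨?_, ?_⟩
  · rw [SUB_A, Matrix.conjTranspose_sub, Matrix.conjTranspose_single, Matrix.conjTranspose_single,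
      Complex.star_def, Complex.conj_I, SUB_negI, SUB_negI]
    abel
  · rw [SUB_A, Matrix.trace_sub, Matrix.trace_single_eq_same, Matrix.trace_single_eq_same, sub_self]

theorem SUB_memB {n : ℕ} (p q : Fin n) (h : p ≠ q) : SUB_B p q ∈ su n := by
  refine ⟨?_, ?_⟩
  · rw [SUB_B, Matrix.conjTranspose_sub, Matrix.conjTranspose_single, Matrix.conjTranspose_single,
      star_one, neg_sub]
  · rw [SUB_B, Matrix.trace_sub, Matrix.trace_single_eq_of_ne _ _ _ h,
      Matrix.trace_single_eq_of_ne _ _ _ h.symm, sub_self]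

theorem SUB_memC {n : ℕ} (p q : Fin n) (h : p ≠ q) : SUB_C p q ∈ su n := by
  refine ⟨?_, ?_⟩
  · rw [SUB_C, Matrix.conjTranspose_add, Matrix.conjTranspose_single, Matrix.conjTranspose_single,
      Complex.star_def, Complex.conj_I, SUB_negI, SUB_negI]
    abel
  · rw [SUB_C, Matrix.trace_add, Matrix.trace_single_eq_of_ne _ _ _ h,
      Matrix.trace_single_eq_of_ne _ _ _ h.symm, add_zero]

theorem SUB_AB {n : ℕ} (p q : Fin n) (h : p ≠ q) :
    SUB_A p q * SUB_B p q - SUB_B p q * SUB_A p q = (2 : ℝ) • SUB_C p q := by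
  have h' := h.symm
  simp only [SUB_A, SUB_B, SUB_C, sub_mul, mul_sub, Matrix.single_mul_single_same, two_smul,
    Matrix.single_mul_single_of_ne _ _ _ _ h, Matrix.single_mul_single_of_ne _ _ _ _ h', mul_one, one_mul]
  abel

theorem SUB_BC {n : ℕ} (p q : Fin n) (h : p ≠ q) :
    SUB_B p q * SUB_C p q - SUB_C p q * SUB_B p q = (2 : ℝ) • SUB_A p q := by
  have h' := h.symm
  simp only [SUB_A, SUB_B, SUB_C, sub_mul, mul_sub, add_mul, mul_add, Matrix.single_mul_single_same, two_smul,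
    Matrix.single_mul_single_of_ne _ _ _ _ h, Matrix.single_mul_single_of_ne _ _ _ _ h', mul_one, one_mul]
  abel

theorem SUB_CA {n : ℕ} (p q : Fin n) (h : p ≠ q) :
    SUB_C p q * SUB_A p q - SUB_A p q * SUB_C p q = (2 : ℝ) • SUB_B p q := by
  have h' := h.symm
  simp only [SUB_A, SUB_B, SUB_C, sub_mul, mul_sub, add_mul, mul_add, Matrix.single_mul_single_same, two_smul,
    Matrix.single_mul_single_of_ne _ _ _ _ h, Matrix.single_mul_single_of_ne _ _ _ _ h', Complex.I_mul_I,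
    SUB_neg1]
  abel

theorem SUB_dcomm {n : ℕ} (p q : Fin n) :
    Commute (Matrix.single p p Complex.I : Matrix (Fin n) (Fin n) ℂ) (Matrix.single q q Complex.I) := by
  by_cases h : p = q
  · rw [h]
  · change _ * _ = _ * _
    rw [Matrix.single_mul_single_of_ne _ _ _ _ h, Matrix.single_mul_single_of_ne _ _ _ _ (Ne.symm h)]

theorem SUB_AA {n : ℕ} (p q r s : Fin n) : SUB_A p q * SUB_A r s = SUB_A r s * SUB_A p q := by
  have h : Commute (SUB_A p q) (SUB_A r s) := by
    unfold SUB_A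
    exact Commute.sub_left (Commute.sub_right (SUB_dcomm p r) (SUB_dcomm p s))
      (Commute.sub_right (SUB_dcomm q r) (SUB_dcomm q s))
  exact h

theorem SUB_sum {n b : ℕ} (h : 2 * b < n) :
    ∑ l : Fin b, SUB_A (⟨2 * (l : ℕ), by omega⟩ : Fin n) ⟨2 * (l : ℕ) + 1, by omega⟩ = dm n (2 * b) := by
  refine Matrix.ext fun j k => ?_
  rw [Matrix.sum_apply]
  have h1 : ∀ l : Fin b, SUB_A (⟨2 * (l : ℕ), by omega⟩ : Fin n) ⟨2 * (l : ℕ) + 1, by omega⟩ j k =
      (if 2 * (l : ℕ) = j ∧ 2 * (l : ℕ) = k then Complex.I else 0) -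
      (if 2 * (l : ℕ) + 1 = j ∧ 2 * (l : ℕ) + 1 = k then Complex.I else 0) := by
    intro l
    rw [SUB_A, Matrix.sub_apply, Matrix.single_apply, Matrix.single_apply]
    simp only [Fin.ext_iff]
  simp only [h1]
  by_cases hjk : j = k
  · subst hjk
    rw [dm, Matrix.diagonal_apply_eq]
    simp only [and_self]
    by_cases hj : (j : ℕ) < 2 * b
    · rw [if_pos hj]
      rcases Nat.even_or_odd' (j : ℕ) with ⟨m, hm | hm⟩
      · rw [if_pos (by rw [hm]; exact even_two_mul m)]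
        rw [Finset.sum_eq_single (⟨m, by omega⟩ : Fin b)]
        · rw [if_pos hm.symm, if_neg (by simp only; omega), sub_zero]
        · intro l _ hl
          have hl' : (l : ℕ) ≠ m := fun e => hl (Fin.ext e)
          rw [if_neg (by omega), if_neg (by omega), sub_zero]
        · intro h2
          exact absurd (Finset.mem_univ _) h2
      · rw [if_neg (by rw [hm]; exact Nat.not_even_iff_odd.2 ⟨m, rfl⟩)]
        rw [Finset.sum_eq_single (⟨m, by omega⟩ : Fin b)]
        · rw [if_neg (by simp only; omega), if_pos hm.symm, zero_sub]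
        · intro l _ hl
          have hl' : (l : ℕ) ≠ m := fun e => hl (Fin.ext e)
          rw [if_neg (by omega), if_neg (by omega), sub_zero]
        · intro h2
          exact absurd (Finset.mem_univ _) h2
    · rw [if_neg hj]
      refine Finset.sum_eq_zero fun l _ => ?_
      have := l.2
      rw [if_neg (by omega), if_neg (by omega), sub_zero]
  · have hjk' : (j : ℕ) ≠ k := fun e => hjk (Fin.ext e)
    rw [dm, Matrix.diagonal_apply_ne _ hjk]
    refine Finset.sum_eq_zero fun l _ => ?_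
    rw [if_neg (by omega), if_neg (by omega), sub_zero]

theorem SUB_DD (n a : ℕ) : dm n a * dm n a = -SUB_P n a := by
  rw [dm, Matrix.diagonal_mul_diagonal, SUB_P]
  refine Matrix.ext fun j k => ?_
  rw [Matrix.neg_apply]
  by_cases hab : j = k
  · subst hab
    rw [Matrix.diagonal_apply_eq, Matrix.diagonal_apply_eq]
    split_ifs
    · exact Complex.I_mul_I
    · rw [neg_mul_neg]
      exact Complex.I_mul_I
    · simp
  · rw [Matrix.diagonal_apply_ne _ hab, Matrix.diagonal_apply_ne _ hab, neg_zero]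

theorem SUB_DDD (n a : ℕ) : dm n a * dm n a * dm n a = -dm n a := by
  rw [SUB_DD, dm, SUB_P, neg_mul, Matrix.diagonal_mul_diagonal]
  congr 2
  funext j
  split_ifs
  · rw [one_mul]
  · rw [one_mul]
  · rw [zero_mul]

theorem SUB_e_mem (n a : ℕ) (X : Matrix (Fin n) (Fin n) ℂ) (hX : X ∈ su n) :
    (Matrix.of fun j k : Fin n => if ((j : ℕ) < a ↔ (k : ℕ) < a) then X j k else 0) ∈ suE n a := by
  obtain ⟨h1, h2⟩ := hX
  refine ⟨⟨?_, ?_⟩, ?_⟩
  · ext j k
    have h3 := congrFun (congrFun h1 j) k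
    simp only [Matrix.conjTranspose_apply, Matrix.neg_apply] at h3 ⊢
    by_cases h : ((j : ℕ) < a ↔ (k : ℕ) < a)
    · have h' : ((k : ℕ) < a ↔ (j : ℕ) < a) := h.symm
      rw [Matrix.of_apply, Matrix.of_apply, if_pos h, if_pos h', h3]
    · have h' : ¬ ((k : ℕ) < a ↔ (j : ℕ) < a) := fun h'' => h h''.symm
      rw [Matrix.of_apply, Matrix.of_apply, if_neg h, if_neg h', star_zero, neg_zero]
  · rw [← h2]
    refine Finset.sum_congr rfl fun j _ => ?_
    simp [Matrix.diag]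
  · intro j k h
    rw [Matrix.of_apply, if_neg h]

theorem SUB_o_mem (n a : ℕ) (X : Matrix (Fin n) (Fin n) ℂ) (hX : X ∈ su n) :
    (Matrix.of fun j k : Fin n => if ((j : ℕ) < a ↔ (k : ℕ) < a) then 0 else X j k) ∈ su n := by
  obtain ⟨h1, -⟩ := hX
  refine ⟨?_, ?_⟩
  · ext j k
    have h3 := congrFun (congrFun h1 j) k
    simp only [Matrix.conjTranspose_apply, Matrix.neg_apply] at h3 ⊢
    by_cases h : ((j : ℕ) < a ↔ (k : ℕ) < a)
    · have h' : ((k : ℕ) < a ↔ (j : ℕ) < a) := h.symm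
      rw [Matrix.of_apply, Matrix.of_apply, if_pos h, if_pos h', star_zero, neg_zero]
    · have h' : ¬ ((k : ℕ) < a ↔ (j : ℕ) < a) := fun h'' => h h''.symm
      rw [Matrix.of_apply, Matrix.of_apply, if_neg h, if_neg h', h3]
  · refine Finset.sum_eq_zero fun j _ => ?_
    simp [Matrix.diag]

theorem p_SUB (hIV4 : Stmt_IV4) (hSUD : Stmt_SUD) (hSUS : Stmt_SUS) : Stmt_SUB := by
  classical
  intro V _ _ _ J n b ρ D hJ hρ hρ0 hF hb hbn hD ε hε
  have hoff : ∀ Z : Matrix (Fin n) (Fin n) ℂ,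
      (∀ j k : Fin n, ((j : ℕ) < 2 * b ↔ (k : ℕ) < 2 * b) → Z j k = 0) →
      (D : Matrix (Fin n) (Fin n) ℂ) * Z * (D : Matrix (Fin n) (Fin n) ℂ) = 0 ∧
      (D : Matrix (Fin n) (Fin n) ℂ) * (D : Matrix (Fin n) (Fin n) ℂ) * Z +
        Z * ((D : Matrix (Fin n) (Fin n) ℂ) * (D : Matrix (Fin n) (Fin n) ℂ)) = -Z := by
    intro Z hZ
    rw [hD]
    exact SUB_D (SUB_DD n (2 * b)) (SUB_DDD n (2 * b)) (SUB_off Z hZ)
  have hne : ∀ l : Fin b, (⟨2 * (l : ℕ), by omega⟩ : Fin n) ≠ ⟨2 * (l : ℕ) + 1, by omega⟩ := by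
    intro l h
    rw [Fin.mk.injEq] at h
    omega
  have key := hIV4 V J (Matrix (Fin n) (Fin n) ℂ) (su n) (suE n (2 * b)) ρ (Fin b)
    (fun l => ⟨SUB_A (⟨2 * (l : ℕ), by omega⟩ : Fin n) ⟨2 * (l : ℕ) + 1, by omega⟩, SUB_memA _ _⟩)
    (fun l => ⟨SUB_B (⟨2 * (l : ℕ), by omega⟩ : Fin n) ⟨2 * (l : ℕ) + 1, by omega⟩, SUB_memB _ _ (hne l)⟩)
    (fun l => ⟨SUB_C (⟨2 * (l : ℕ), by omega⟩ : Fin n) ⟨2 * (l : ℕ) + 1, by omega⟩, SUB_memC _ _ (hne l)⟩)
    D hJ ?_ hρ hF ?_ ?_ ?_ ?_ ?_ ?_ ?_ ?_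
  · exact (key.1 ε hε).trans (Nat.mul_le_mul_left 2 (hSUD n (2 * b) (by omega) hbn))
  · intro X hX Y hY
    obtain ⟨hX1, -⟩ := hX
    obtain ⟨hY1, -⟩ := hY
    refine ⟨?_, ?_⟩
    · rw [Matrix.conjTranspose_sub, Matrix.conjTranspose_mul, Matrix.conjTranspose_mul, hX1, hY1]
      simp only [neg_mul, mul_neg, neg_neg, neg_sub]
    · rw [Matrix.trace_sub, Matrix.trace_mul_comm, sub_self]
  · intro l
    exact ⟨SUB_AB _ _ (hne l), SUB_BC _ _ (hne l), SUB_CA _ _ (hne l)⟩
  · intro i j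
    exact SUB_AA _ _ _ _
  · refine Subtype.ext ?_
    rw [hD, Submodule.coe_sum]
    exact (SUB_sum hbn).symm
  · rw [hD]
    exact SUB_DDD n (2 * b)
  · intro X hX
    exact hX.1
  · intro X hX
    rw [hD, SUB_DD, mul_neg, neg_mul]
    congr 1
    exact SUB_comm X hX.2
  · intro X hX
    refine ⟨_, SUB_e_mem n (2 * b) X hX, _, SUB_o_mem n (2 * b) X hX, ?_, ?_⟩
    · refine Matrix.ext fun j k => ?_
      rw [Matrix.add_apply, Matrix.of_apply, Matrix.of_apply]
      by_cases h : ((j : ℕ) < 2 * b ↔ (k : ℕ) < 2 * b)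
      · rw [if_pos h, if_pos h, add_zero]
      · rw [if_neg h, if_neg h, zero_add]
    · refine hoff _ fun j k h => ?_
      rw [Matrix.of_apply, if_pos h]
  · have hpq : (⟨0, by omega⟩ : Fin n) ≠ ⟨n - 1, by omega⟩ := by
      intro h
      rw [Fin.mk.injEq] at h
      omega
    refine ⟨⟨_, SUB_memB _ _ hpq⟩, hSUS V J n ρ hρ hρ0 _ _ _ hpq rfl, ?_⟩
    refine hoff _ fun j k h => ?_
    change SUB_B (⟨0, by omega⟩ : Fin n) ⟨n - 1, by omega⟩ j k = 0
    rw [SUB_B, Matrix.sub_apply, Matrix.single_apply, Matrix.single_apply, if_neg, if_neg, sub_zero]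
    · rintro ⟨rfl, rfl⟩
      simp only at h
      omega
    · rintro ⟨rfl, rfl⟩
      simp only at h
      omega

end MPa8bd83
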