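import Pool.Agent.Work.MP_a8bd83_qk.Interface9
import Pool.Agent.Work.MP_a8bd83_qk.B_SUB
import Pool.Agent.Work.MP_a8bd83_qk.B_IV4
import Pool.Agent.Work.MP_a8bd83_qk.B_JXP
import Pool.Agent.Work.MP_a8bd83_qk.B_EV1

/-! Block EVG (helper55): `4` divides the dimension of the eigenspace at `-1`. -/

set_option autoImplicit false

namespace MPa8bd83

open Module

theorem EVG_semi {V : Type} [NormedAddCommGroup V] [InnerProductSpace ℂ V] [FiniteDimensional ℂ V]
    (u X Y : V →L[ℂ] V) (h : X * u = u * Y) :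
    NormedSpace.exp X * u = u * NormedSpace.exp Y := by
  have : CompleteSpace V := FiniteDimensional.complete ℂ V
  have h1 : HasSum (fun n : ℕ => ((n.factorial : ℂ)⁻¹) • X ^ n) (NormedSpace.exp X) :=
    NormedSpace.exp_series_hasSum_exp' X
  have h2 : HasSum (fun n : ℕ => ((n.factorial : ℂ)⁻¹) • Y ^ n) (NormedSpace.exp Y) :=
    NormedSpace.exp_series_hasSum_exp' Y
  have h3 := h1.mul_right u
  have h4 := h2.mul_left u
  have hs : SemiconjBy u Y X := h.symm
  have h5 : (fun n : ℕ => ((n.factorial : ℂ)⁻¹) • X ^ n * u) =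
      fun n : ℕ => u * (((n.factorial : ℂ)⁻¹) • Y ^ n) := by
    funext n
    rw [smul_mul_assoc, mul_smul_comm, (hs.pow_right n).eq]
  rw [h5] at h3
  exact h3.unique h4

theorem EVG_inv {V : Type} [NormedAddCommGroup V] [InnerProductSpace ℂ V] [FiniteDimensional ℂ V]
    (X : V →L[ℂ] V) : NormedSpace.exp (-X) * NormedSpace.exp X = 1 := by
  have h : Commute (-X) X := (Commute.refl X).neg_left
  rw [← IV4_add _ _ h, neg_add_cancel, NormedSpace.exp_zero]

theorem EVG_le {V : Type} [NormedAddCommGroup V] [InnerProductSpace ℂ V] [FiniteDimensional ℂ V]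
    (J : V → V) (hJ : IsQuatStr J) (E F : Submodule ℂ V) (h : ∀ x ∈ E, J x ∈ F) :
    finrank ℂ E ≤ finrank ℂ F := by
  have hinj : ∀ x, J x = 0 → x = 0 := by
    intro x hx
    have h0 : J 0 = 0 := by
      have := hJ.add 0 0
      rw [add_zero] at this
      simpa using this
    have h1 := hJ.sq x
    rw [hx, h0] at h1
    exact neg_eq_zero.1 h1.symm
  let f : E →ₗ[ℝ] F :=
    { toFun := fun x => ⟨J (x : V), h _ x.2⟩
      map_add' := fun x y => Subtype.ext (hJ.add _ _)
      map_smul' := fun c x => by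
        refine Subtype.ext ?_
        change J (((c • x : E) : V)) = c • J (x : V)
        have h1 : ((c • x : E) : V) = (c : ℂ) • (x : V) := rfl
        rw [h1, hJ.smul, Complex.conj_ofReal]
        rfl }
  have hf : Function.Injective f := by
    refine (injective_iff_map_eq_zero f).2 ?_
    intro x hx
    refine Subtype.ext ?_
    exact hinj _ (congrArg Subtype.val hx)
  have : FiniteDimensional ℝ F := FiniteDimensional.complexToReal F
  have h2 := LinearMap.finrank_le_finrank_of_injective hf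
  have h3 := finrank_real_of_complex E
  have h4 := finrank_real_of_complex F
  omega

theorem EVG_dim {V : Type} [NormedAddCommGroup V] [InnerProductSpace ℂ V] [FiniteDimensional ℂ V]
    (J : V → V) (hJ : IsQuatStr J) (e : V →L[ℂ] V) (he : ∀ x, e (J x) = J (e x)) :
    finrank ℂ (IN2_Q (e * e) (-1)) = 2 * finrank ℂ (IN2_Q e Complex.I) := by
  have h1 : IN2_Q (e * e) (-1) = IN2_Q e Complex.I ⊔ IN2_Q e (-Complex.I) := by
    apply le_antisymm
    · intro x hx
      have hx' : e (e x) = (-1 : ℂ) • x := hx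
      rw [Submodule.mem_sup]
      refine ⟨(1 / 2 : ℂ) • (x - Complex.I • e x), ?_, (1 / 2 : ℂ) • (x + Complex.I • e x), ?_, ?_⟩
      · refine Submodule.smul_mem _ _ ?_
        change e (x - Complex.I • e x) = Complex.I • (x - Complex.I • e x)
        rw [map_sub, map_smul, hx', smul_sub, smul_smul, smul_smul, Complex.I_mul_I]
        simp only [mul_neg, mul_one, neg_smul, one_smul, sub_neg_eq_add]
        exact add_comm _ _
      · refine Submodule.smul_mem _ _ ?_
        change e (x + Complex.I • e x) = (-Complex.I) • (x + Complex.I • e x)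
        rw [map_add, map_smul, hx', smul_add, smul_smul, smul_smul, neg_mul, Complex.I_mul_I]
        simp only [mul_neg, mul_one, neg_smul, one_smul, neg_neg]
        exact add_comm _ _
      · rw [← smul_add, sub_add_add_cancel, ← two_smul ℂ x, smul_smul]
        norm_num
    · refine sup_le ?_ ?_
      · intro x hx
        have hx' : e x = Complex.I • x := hx
        change e (e x) = (-1 : ℂ) • x
        rw [hx', map_smul, hx', smul_smul, Complex.I_mul_I]
      · intro x hx
        have hx' : e x = (-Complex.I) • x := hx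
        change e (e x) = (-1 : ℂ) • x
        rw [hx', map_smul, hx', smul_smul, neg_mul_neg, Complex.I_mul_I]
  have h2 : IN2_Q e Complex.I ⊓ IN2_Q e (-Complex.I) = ⊥ := by
    rw [Submodule.eq_bot_iff]
    rintro x ⟨hx1, hx2⟩
    have hx1' : e x = Complex.I • x := hx1
    have hx2' : e x = (-Complex.I) • x := hx2
    rw [hx1'] at hx2'
    have h3 : (Complex.I + Complex.I) • x = 0 := by
      rw [add_smul]
      nth_rewrite 1 [hx2']
      rw [neg_smul, neg_add_cancel]
    have h4 : Complex.I + Complex.I ≠ 0 := by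
      rw [← two_mul]
      exact mul_ne_zero two_ne_zero Complex.I_ne_zero
    exact (smul_eq_zero.1 h3).resolve_left h4
  have h3 := Submodule.finrank_sup_add_finrank_inf_eq (IN2_Q e Complex.I) (IN2_Q e (-Complex.I))
  rw [← h1, h2, finrank_bot, add_zero] at h3
  have h4 : finrank ℂ (IN2_Q e Complex.I) ≤ finrank ℂ (IN2_Q e (-Complex.I)) := by
    refine EVG_le J hJ _ _ ?_
    intro x hx
    have hx' : e x = Complex.I • x := hx
    change e (J x) = (-Complex.I) • J x
    rw [he, hx', hJ.smul, Complex.conj_I]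
  have h5 : finrank ℂ (IN2_Q e (-Complex.I)) ≤ finrank ℂ (IN2_Q e Complex.I) := by
    refine EVG_le J hJ _ _ ?_
    intro x hx
    have hx' : e x = (-Complex.I) • x := hx
    change e (J x) = Complex.I • J x
    rw [he, hx', hJ.smul, map_neg, Complex.conj_I, neg_neg]
  omega

theorem EVG_sum {n b : ℕ} (X Y Z : Fin b → Matrix (Fin n) (Fin n) ℂ) (c : ℝ)
    (h : ∀ l, X l * Y l - Y l * X l = c • Z l) (h0 : ∀ l m, l ≠ m → X l * Y m = Y m * X l) :
    (∑ l, X l) * (∑ l, Y l) - (∑ l, Y l) * (∑ l, X l) = c • ∑ l, Z l := by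
  rw [Finset.sum_mul_sum, Finset.sum_mul_sum, Finset.sum_comm (f := fun i j => Y i * X j),
    ← Finset.sum_sub_distrib, Finset.smul_sum]
  refine Finset.sum_congr rfl fun l _ => ?_
  rw [← Finset.sum_sub_distrib, Finset.sum_eq_single l, h]
  · intro m _ hm
    rw [h0 l m hm.symm, sub_self]
  · intro hl
    exact absurd (Finset.mem_univ l) hl

theorem EVG_csum {n b : ℕ} (X : Matrix (Fin n) (Fin n) ℂ) (Y : Fin b → Matrix (Fin n) (Fin n) ℂ)
    (h : ∀ m, X * Y m = Y m * X) : X * (∑ l, Y l) = (∑ l, Y l) * X := by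
  rw [Finset.mul_sum, Finset.sum_mul]
  exact Finset.sum_congr rfl fun l _ => h l

theorem EVG_AB0 {n : ℕ} (p q r s : Fin n) (h1 : p ≠ r) (h2 : p ≠ s) (h3 : q ≠ r) (h4 : q ≠ s) :
    SUB_A p q * SUB_B r s = SUB_B r s * SUB_A p q := by
  simp only [SUB_A, SUB_B, sub_mul, mul_sub, Matrix.single_mul_single_of_ne _ _ _ _ h1,
    Matrix.single_mul_single_of_ne _ _ _ _ h2, Matrix.single_mul_single_of_ne _ _ _ _ h3,
    Matrix.single_mul_single_of_ne _ _ _ _ h4, Matrix.single_mul_single_of_ne _ _ _ _ h1.symm,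
    Matrix.single_mul_single_of_ne _ _ _ _ h2.symm, Matrix.single_mul_single_of_ne _ _ _ _ h3.symm,
    Matrix.single_mul_single_of_ne _ _ _ _ h4.symm]

theorem EVG_BC0 {n : ℕ} (p q r s : Fin n) (h1 : p ≠ r) (h2 : p ≠ s) (h3 : q ≠ r) (h4 : q ≠ s) :
    SUB_B p q * SUB_C r s = SUB_C r s * SUB_B p q := by
  simp only [SUB_C, SUB_B, sub_mul, mul_sub, add_mul, mul_add,
    Matrix.single_mul_single_of_ne _ _ _ _ h1,
    Matrix.single_mul_single_of_ne _ _ _ _ h2, Matrix.single_mul_single_of_ne _ _ _ _ h3,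
    Matrix.single_mul_single_of_ne _ _ _ _ h4, Matrix.single_mul_single_of_ne _ _ _ _ h1.symm,
    Matrix.single_mul_single_of_ne _ _ _ _ h2.symm, Matrix.single_mul_single_of_ne _ _ _ _ h3.symm,
    Matrix.single_mul_single_of_ne _ _ _ _ h4.symm, sub_zero, add_zero]

theorem EVG_CA0 {n : ℕ} (p q r s : Fin n) (h1 : p ≠ r) (h2 : p ≠ s) (h3 : q ≠ r) (h4 : q ≠ s) :
    SUB_C p q * SUB_A r s = SUB_A r s * SUB_C p q := by
  simp only [SUB_C, SUB_A, sub_mul, mul_sub, add_mul, mul_add,
    Matrix.single_mul_single_of_ne _ _ _ _ h1,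
    Matrix.single_mul_single_of_ne _ _ _ _ h2, Matrix.single_mul_single_of_ne _ _ _ _ h3,
    Matrix.single_mul_single_of_ne _ _ _ _ h4, Matrix.single_mul_single_of_ne _ _ _ _ h1.symm,
    Matrix.single_mul_single_of_ne _ _ _ _ h2.symm, Matrix.single_mul_single_of_ne _ _ _ _ h3.symm,
    Matrix.single_mul_single_of_ne _ _ _ _ h4.symm, sub_zero, add_zero]

/-- `i (E_pp + E_qq - 2 E_rr)` commutes with `E_pq - E_qp`. -/
theorem EVG_HB {n : ℕ} (p q r : Fin n) (h1 : p ≠ q) (h2 : p ≠ r) (h3 : q ≠ r) :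
    (SUB_A p r + SUB_A q r) * SUB_B p q = SUB_B p q * (SUB_A p r + SUB_A q r) := by
  simp only [SUB_A, SUB_B, sub_mul, mul_sub, add_mul, mul_add, Matrix.single_mul_single_same,
    Matrix.single_mul_single_of_ne _ _ _ _ h1,
    Matrix.single_mul_single_of_ne _ _ _ _ h2, Matrix.single_mul_single_of_ne _ _ _ _ h3,
    Matrix.single_mul_single_of_ne _ _ _ _ h1.symm,
    Matrix.single_mul_single_of_ne _ _ _ _ h2.symm, Matrix.single_mul_single_of_ne _ _ _ _ h3.symm,
    mul_one, one_mul]
  abel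

theorem p_EVG (hSE2 : Stmt_SE2) (hQUT : Stmt_QUT) (hEVD : Stmt_EVD) : Stmt_EVG := by
  intro V _ _ _ J n b ρ D hJ hρ hbn hD
  have hn : 0 < n := by omega
  let p : Fin b → Fin n := fun l => ⟨2 * (l : ℕ), by omega⟩
  let q : Fin b → Fin n := fun l => ⟨2 * (l : ℕ) + 1, by omega⟩
  let r : Fin n := ⟨n - 1, by omega⟩
  have hpq : ∀ l m, p l ≠ q m := by
    intro l m h
    have := congrArg Fin.val h
    simp only [p, q] at this
    omega
  have hpp : ∀ l m, l ≠ m → p l ≠ p m := by
    intro l m hlm h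
    have := congrArg Fin.val h
    simp only [p] at this
    exact hlm (Fin.ext (by omega))
  have hqq : ∀ l m, l ≠ m → q l ≠ q m := by
    intro l m hlm h
    have := congrArg Fin.val h
    simp only [q] at this
    exact hlm (Fin.ext (by omega))
  have hpr : ∀ l, p l ≠ r := by
    intro l h
    have := congrArg Fin.val h
    simp only [p, r] at this
    omega
  have hqr : ∀ l, q l ≠ r := by
    intro l h
    have := congrArg Fin.val h
    simp only [q, r] at this
    omega
  let D' : su n := ∑ l, ⟨SUB_B (p l) (q l), SUB_memB _ _ (hpq l l)⟩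
  let D'' : su n := ∑ l, ⟨SUB_C (p l) (q l), SUB_memC _ _ (hpq l l)⟩
  have hD1 : (D : Matrix (Fin n) (Fin n) ℂ) = ∑ l, SUB_A (p l) (q l) := by
    rw [hD]
    exact (SUB_sum hbn).symm
  have hD2 : (D' : Matrix (Fin n) (Fin n) ℂ) = ∑ l, SUB_B (p l) (q l) := Submodule.coe_sum _ _ _
  have hD3 : (D'' : Matrix (Fin n) (Fin n) ℂ) = ∑ l, SUB_C (p l) (q l) := Submodule.coe_sum _ _ _
  have hQ : QTrip (ρ D) (ρ D') (ρ D'') := by
    refine IV4_trip hρ D D' D'' ⟨?_, ?_, ?_⟩
    · rw [hD1, hD2, hD3]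
      exact EVG_sum _ _ _ 2 (fun l => SUB_AB _ _ (hpq l l)) (fun l m hlm =>
        EVG_AB0 _ _ _ _ (hpp l m hlm) (hpq l m) (hpq m l).symm (hqq l m hlm))
    · rw [hD1, hD2, hD3]
      exact EVG_sum _ _ _ 2 (fun l => SUB_BC _ _ (hpq l l)) (fun l m hlm =>
        EVG_BC0 _ _ _ _ (hpp l m hlm) (hpq l m) (hpq m l).symm (hqq l m hlm))
    · rw [hD1, hD2, hD3]
      exact EVG_sum _ _ _ 2 (fun l => SUB_CA _ _ (hpq l l)) (fun l m hlm =>
        EVG_CA0 _ _ _ _ (hpp l m hlm) (hpq l m) (hpq m l).symm (hqq l m hlm))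
  set A : V →L[ℂ] V := ρ D with hA
  set B : V →L[ℂ] V := ρ D' with hB
  set e : V →L[ℂ] V := NormedSpace.exp ((Real.pi / 2) • A) with he
  have hee : e * e = NormedSpace.exp (Real.pi • A) := by
    rw [he, ← IV4_add _ _ (Commute.refl _), ← add_smul, add_halves]
  have hG : NormedSpace.exp (Real.pi • A) * NormedSpace.exp (Real.pi • A) = 1 := by
    rw [← IV4_add _ _ (Commute.refl _), ← add_smul, ← two_mul]
    exact hQUT V J A B (ρ D'') hJ (hρ.sp D) hQ
  refine ⟨hG, ?_⟩
  have heJ : ∀ x, e (J x) = J (e x) := by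
    intro x
    refine (p_JXP V J ((Real.pi / 2) • A) hJ ⟨?_, ?_⟩).1 x
    · intro x y
      have h1 := (hρ.sp D).skew x y
      change inner ℂ (((Real.pi / 2 : ℝ) : ℂ) • A x) y = -inner ℂ x (((Real.pi / 2 : ℝ) : ℂ) • A y)
      rw [inner_smul_left, inner_smul_right, h1, Complex.conj_ofReal, mul_neg]
    · intro x
      have h1 := (hρ.sp D).comm x
      change ((Real.pi / 2 : ℝ) : ℂ) • A (J x) = J (((Real.pi / 2 : ℝ) : ℂ) • A x)
      rw [hJ.smul, Complex.conj_ofReal, h1]
  rw [← hee, EVG_dim J hJ e heJ]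
  -- the quarter turn
  set T : V →L[ℂ] V := (1 / 2 : ℝ) • B with hT
  set u : V →L[ℂ] V := NormedSpace.exp (Real.pi • T) with hu
  have hBA : B * A - A * B = -((2 : ℝ) • ρ D'') := by
    rw [← hQ.xy, neg_sub]
  have hTA : T * A - A * T = -(ρ D'') := by
    rw [hT, smul_mul_assoc, mul_smul_comm, ← smul_sub, hBA, smul_neg, smul_smul]
    norm_num
  have huA : u * A = -(A * u) := by
    refine hSE2 V T A ?_
    rw [hTA, mul_neg, neg_mul, sub_neg_eq_add, neg_add_eq_sub, ← neg_sub, hT, smul_mul_assoc,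
      mul_smul_comm, ← smul_sub, hQ.yz, smul_smul]
    norm_num
  have heu : e * u = u * NormedSpace.exp (-((Real.pi / 2) • A)) := by
    refine EVG_semi u _ _ ?_
    rw [mul_neg, smul_mul_assoc, mul_smul_comm, huA, smul_neg, neg_neg]
  have hui : NormedSpace.exp (-(Real.pi • T)) * u = 1 := EVG_inv _
  have hei : NormedSpace.exp (-((Real.pi / 2) • A)) * e = 1 := EVG_inv _
  have hJ0 : J 0 = 0 := by
    have := hJ.add 0 0
    rw [add_zero] at this
    simpa using this
  have hJi : ∀ x, J x = 0 → x = 0 := by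
    intro x hx
    have h1 := hJ.sq x
    rw [hx, hJ0] at h1
    exact neg_eq_zero.1 h1.symm
  have hup : ∀ x, u x = 0 → x = 0 := by
    intro x hx
    have h1 : (NormedSpace.exp (-(Real.pi • T)) * u) x = x := by rw [hui]; rfl
    rw [ContinuousLinearMap.mul_apply, hx, map_zero] at h1
    exact h1.symm
  -- the torus
  let Y : Fin b → su n := fun l => ⟨SUB_A (p l) r, SUB_memA _ _⟩
  let Z : Fin b → su n := fun l => ⟨SUB_A (q l) r, SUB_memA _ _⟩
  let h : Fin b → su n := fun l => Y l + Z l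
  have hh : ∀ l, (h l : Matrix (Fin n) (Fin n) ℂ) = SUB_A (p l) r + SUB_A (q l) r := fun l => rfl
  have hcA : ∀ l, ρ (h l) * A = A * ρ (h l) := by
    intro l
    refine IV4_comm hρ _ _ ?_
    rw [hh, hD1]
    refine EVG_csum _ _ fun m => ?_
    rw [add_mul, mul_add, SUB_AA, SUB_AA (q l) r]
  have hcB : ∀ l, ρ (h l) * B = B * ρ (h l) := by
    intro l
    refine IV4_comm hρ _ _ ?_
    rw [hh, hD2]
    refine EVG_csum _ _ fun m => ?_
    by_cases hlm : l = m
    · subst hlm
      exact EVG_HB _ _ _ (hpq l l) (hpr l) (hqr l)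
    · rw [add_mul, mul_add, EVG_AB0 _ _ _ _ (hpp l m hlm) (hpq l m) (hpr m).symm (hqr m).symm,
        EVG_AB0 _ _ _ _ (hpq m l).symm (hqq l m hlm) (hpr m).symm (hqr m).symm]
  have hce : ∀ l, ρ (h l) * e = e * ρ (h l) := by
    intro l
    refine (EVG_semi (ρ (h l)) _ _ ?_).symm
    rw [smul_mul_assoc, mul_smul_comm, hcA]
  have hcu : ∀ l, ρ (h l) * u = u * ρ (h l) := by
    intro l
    refine (EVG_semi (ρ (h l)) _ _ ?_).symm
    rw [hT, smul_mul_assoc, mul_smul_comm, smul_mul_assoc, mul_smul_comm, hcB]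
  have hev : Even (finrank ℂ (IN2_Q e Complex.I)) := by
    refine hEVD V b (IN2_Q e Complex.I) (fun x => J (u x)) (fun l => ρ (h l)) ?_ ?_ ?_ ?_ ?_ ?_ ?_ ?_ ?_
    · intro x y
      change J (u (x + y)) = J (u x) + J (u y)
      rw [map_add, hJ.add]
    · intro c x
      change J (u (c • x)) = (starRingEnd ℂ c) • J (u x)
      rw [map_smul, hJ.smul]
    · intro x hx
      have hx' : e x = Complex.I • x := hx
      change e (J (u x)) = Complex.I • J (u x)
      have h1 : e (u x) = u (NormedSpace.exp (-((Real.pi / 2) • A)) x) :=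
        congrArg (fun S : V →L[ℂ] V => S x) heu
      have h2 : NormedSpace.exp (-((Real.pi / 2) • A)) x = (-Complex.I) • x := by
        have h3 : NormedSpace.exp (-((Real.pi / 2) • A)) (e x) = x :=
          congrArg (fun S : V →L[ℂ] V => S x) hei
        rw [hx', map_smul] at h3
        have h4 := congrArg (fun y : V => (-Complex.I) • y) h3
        simp only [smul_smul] at h4
        rw [neg_mul, Complex.I_mul_I, neg_neg, one_smul] at h4
        exact h4
      rw [heJ, h1, h2, map_smul, hJ.smul, map_neg, Complex.conj_I, neg_neg]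
    · intro x _ hx
      exact hup x (hJi _ hx)
    · intro l x y
      exact (hρ.sp (h l)).skew x y
    · intro l x hx
      have hx' : e x = Complex.I • x := hx
      change e (ρ (h l) x) = Complex.I • ρ (h l) x
      have h1 : ρ (h l) (e x) = e (ρ (h l) x) := congrArg (fun S : V →L[ℂ] V => S x) (hce l)
      rw [← h1, hx', map_smul]
    · intro l m
      refine IV4_comm hρ _ _ ?_
      rw [hh, hh]
      simp only [add_mul, mul_add]
      rw [SUB_AA (p l) r (p m) r, SUB_AA (p l) r (q m) r, SUB_AA (q l) r (p m) r,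
        SUB_AA (q l) r (q m) r]
      abel
    · intro l x _
      change J (u (ρ (h l) x)) = ρ (h l) (J (u x))
      have h1 : ρ (h l) (u x) = u (ρ (h l) x) := congrArg (fun S : V →L[ℂ] V => S x) (hcu l)
      rw [← h1, (hρ.sp (h l)).comm]
    · intro x hx h0
      have hx' : e x = Complex.I • x := hx
      have h1 : (e * e) x = -x := by
        rw [ContinuousLinearMap.mul_apply, hx', map_smul, hx', smul_smul, Complex.I_mul_I,
          neg_one_smul]
      have hdec : D = (2 : ℝ) • (∑ l, Y l) + (-1 : ℝ) • ∑ l, h l := by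
        refine Subtype.ext ?_
        rw [hD1]
        change _ = (2 : ℝ) • ((∑ l, Y l : su n) : Matrix (Fin n) (Fin n) ℂ) +
          (-1 : ℝ) • ((∑ l, h l : su n) : Matrix (Fin n) (Fin n) ℂ)
        rw [Submodule.coe_sum, Submodule.coe_sum, Finset.smul_sum, Finset.smul_sum,
          ← Finset.sum_add_distrib]
        refine Finset.sum_congr rfl fun l _ => ?_
        rw [hh]
        change SUB_A (p l) (q l) = (2 : ℝ) • SUB_A (p l) r + (-1 : ℝ) • (SUB_A (p l) r + SUB_A (q l) r)
        rw [two_smul, neg_one_smul]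
        simp only [SUB_A]
        abel
      have h2 : NormedSpace.exp (Real.pi • A) =
          NormedSpace.exp ((2 * Real.pi) • ρ (∑ l, Y l)) *
            NormedSpace.exp ((-Real.pi) • ρ (∑ l, h l)) := by
        rw [← IV4_add]
        · rw [hA]
          conv_lhs => rw [hdec]
          rw [map_add, map_smul, map_smul, smul_add, smul_smul, smul_smul, mul_comm Real.pi 2,
            mul_neg_one]
        · have h3 : Commute (ρ (∑ l, Y l)) (ρ (∑ l, h l)) := by
            refine IV4_comm hρ _ _ ?_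
            rw [Submodule.coe_sum, Submodule.coe_sum]
            refine EVG_csum _ _ fun m => ?_
            refine (EVG_csum _ _ fun l => ?_).symm
            rw [hh]
            change (SUB_A (p m) r + SUB_A (q m) r) * SUB_A (p l) r =
              SUB_A (p l) r * (SUB_A (p m) r + SUB_A (q m) r)
            rw [add_mul, mul_add, SUB_AA, SUB_AA (q m) r]
          exact (h3.smul_left _).smul_right _
      have h3 : NormedSpace.exp ((2 * Real.pi) • ρ (∑ l, Y l)) = 1 :=
        IV4_exps hQUT hJ hρ Y (fun l => ⟨SUB_B (p l) r, SUB_memB _ _ (hpr l)⟩)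
          (fun l => ⟨SUB_C (p l) r, SUB_memC _ _ (hpr l)⟩)
          (fun l => ⟨SUB_AB _ _ (hpr l), SUB_BC _ _ (hpr l), SUB_CA _ _ (hpr l)⟩)
          (fun l m => SUB_AA _ _ _ _) Finset.univ
      have h4 : ((-Real.pi) • ρ (∑ l, h l)) x = (0 : ℂ) • x := by
        rw [ContinuousLinearMap.smul_apply, map_sum, ContinuousLinearMap.sum_apply,
          Finset.sum_eq_zero (fun l _ => h0 l), smul_zero, zero_smul]
      have h5 := EV1_eig _ _ _ h4
      rw [hee, h2, h3, one_mul, h5, Complex.exp_zero, one_smul] at h1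
      have h6 : (2 : ℂ) • x = 0 := by
        rw [two_smul]
        nth_rewrite 1 [h1]
        exact neg_add_cancel x
      exact (smul_eq_zero.1 h6).resolve_left two_ne_zero
  obtain ⟨k, hk⟩ := hev
  exact ⟨k, by rw [hk]; ring⟩

end MPa8bd83
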