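import Pool.Agent.Work.MP_a8bd83_qk.Interface3

set_option autoImplicit false

namespace MPa8bd83

open Module

theorem EVH_fin {V : Type} [NormedAddCommGroup V] [InnerProductSpace ℂ V] [FiniteDimensional ℂ V] :
    FiniteDimensional ℝ (V →L[ℂ] V) := by
  haveI : FiniteDimensional ℂ (V →L[ℂ] V) :=
    LinearEquiv.finiteDimensional (LinearMap.toContinuousLinearMap (𝕜 := ℂ) (E := V) (F' := V))
  exact FiniteDimensional.complexToReal (V →L[ℂ] V)

theorem EVH_card (hCOR : Stmt_COR) (hEVN : Stmt_EVN) (V : Type) [NormedAddCommGroup V]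
    [InnerProductSpace ℂ V] [FiniteDimensional ℂ V] (J : V → V)
    (k t : Submodule ℝ (V →L[ℂ] V)) (hF : Fac J k t) (H : Finset (Dual ℝ t))
    (hH : ∀ α ∈ H, AllEven k t α) (hne : ∀ α ∈ H, ∀ β ∈ H, α ≠ -β) :
    H.card ≤ finrank ℝ t := by
  classical
  haveI : FiniteDimensional ℝ (V →L[ℂ] V) := EVH_fin
  have hc : ∀ w : H, ∃ τ : t, (w : Dual ℝ t) τ = 2 ∧ ∀ w' : H, w' ≠ w →
      (w' : Dual ℝ t) τ = 0 := by
    intro w
    obtain ⟨τ, E, F, hτ⟩ := hCOR V J k t hF _ (hH w w.2).1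
    refine ⟨τ, hτ.two, fun w' hw' => ?_⟩
    obtain ⟨τ', E', F', hτ'⟩ := hCOR V J k t hF _ (hH w' w'.2).1
    exact (hEVN V J k t hF _ _ τ τ' E F E' F' hτ hτ' ((hH w w.2).2 _ _ _ _ hτ')
      ((hH w' w'.2).2 _ _ _ _ hτ) (fun h => hw' (Subtype.ext h.symm))
      (hne w w.2 w' w'.2)).2
  choose τ hτ1 hτ0 using hc
  have hli : LinearIndependent ℝ (fun w : H => (w : Dual ℝ t)) := by
    rw [Fintype.linearIndependent_iff]
    intro g hg w
    have h := congrArg (fun f : Dual ℝ t => f (τ w)) hg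
    simp only [LinearMap.zero_apply, LinearMap.sum_apply, LinearMap.smul_apply,
      smul_eq_mul] at h
    rw [Finset.sum_eq_single w] at h
    · rw [hτ1] at h
      linarith
    · intro w' _ hw'
      rw [hτ0 w w' hw', mul_zero]
    · intro h'
      exact absurd (Finset.mem_univ w) h'
  have h := hli.fintype_card_le_finrank
  rw [Subspace.dual_finrank_eq] at h
  simpa using h

theorem p_EVH (hCOR : Stmt_COR) (hGEN : Stmt_GEN) (hEVN : Stmt_EVN) : Stmt_EVH := by
  intro V _ _ _ J k t hF h hh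
  classical
  haveI : FiniteDimensional ℝ (V →L[ℂ] V) := EVH_fin
  obtain ⟨x, hx⟩ := hGEN t h (fun φ hφ => (hh φ hφ).1.1)
  have h1 : (h.filter fun α => 0 < α x).card ≤ finrank ℝ t := by
    refine EVH_card hCOR hEVN V J k t hF _ (fun α hα => hh α (Finset.mem_filter.1 hα).1) ?_
    intro α hα β hβ e
    have a1 := (Finset.mem_filter.1 hα).2
    have a2 := (Finset.mem_filter.1 hβ).2
    rw [e, LinearMap.neg_apply] at a1
    linarith
  have h2 : (h.filter fun α => ¬ 0 < α x).card ≤ finrank ℝ t := by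
    refine EVH_card hCOR hEVN V J k t hF _ (fun α hα => hh α (Finset.mem_filter.1 hα).1) ?_
    intro α hα β hβ e
    have a1 := (Finset.mem_filter.1 hα).2
    have a2 := (Finset.mem_filter.1 hβ).2
    have a3 := hx β (Finset.mem_filter.1 hβ).1
    rw [e, LinearMap.neg_apply] at a1
    push Not at a1 a2
    exact a3 (by linarith)
  have h3 := Finset.card_filter_add_card_filter_not (s := h) (fun α : Dual ℝ t => 0 < α x)
  omega

end MPa8bd83
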