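import Pool.Agent.Work.MP_a8bd83_qk.Interface

/-! MP_a8bd83_gt, block EXP: exponentials on weight vectors. -/

namespace MPa8bd83

open Module

/-- The exponential of an operator on an eigenvector. -/
theorem EXP_eig {V : Type} [NormedAddCommGroup V] [InnerProductSpace ℂ V] [FiniteDimensional ℂ V]
    (T : V →L[ℂ] V) (c : ℂ) (v : V) (h : T v = c • v) :
    NormedSpace.exp T v = Complex.exp c • v := by
  haveI : CompleteSpace V := FiniteDimensional.complete ℂ V
  have h1 : HasSum (fun n : ℕ => ((n.factorial : ℂ)⁻¹) • T ^ n) (NormedSpace.exp T) :=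
    NormedSpace.exp_series_hasSum_exp' T
  have h2 := h1.mapL (ContinuousLinearMap.apply ℂ V v)
  have h3 : HasSum (fun n : ℕ => ((n.factorial : ℂ)⁻¹) • c ^ n) (NormedSpace.exp c) :=
    NormedSpace.exp_series_hasSum_exp' c
  have hpow : ∀ n : ℕ, (T ^ n) v = c ^ n • v := by
    intro n
    induction n with
    | zero => simp
    | succ n ih =>
      rw [pow_succ', ContinuousLinearMap.mul_apply, ih, map_smul, h, smul_smul, pow_succ]
  have h4 : HasSum (fun n : ℕ => (((n.factorial : ℂ)⁻¹) • c ^ n) • v) (NormedSpace.exp c • v) :=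
    h3.smul_const v
  have h5 : (fun n : ℕ => (ContinuousLinearMap.apply ℂ V v) (((n.factorial : ℂ)⁻¹) • T ^ n)) =
      fun n : ℕ => (((n.factorial : ℂ)⁻¹) • c ^ n) • v := by
    funext n
    rw [ContinuousLinearMap.apply_apply, ContinuousLinearMap.smul_apply, hpow, smul_assoc]
  rw [h5] at h2
  have h6 := h2.unique h4
  rw [ContinuousLinearMap.apply_apply] at h6
  rw [h6, Complex.exp_eq_exp_ℂ]

/-- If the exponential is a sign then the eigenvalue is a multiple of `π`. -/
theorem EXP_int {V : Type} [NormedAddCommGroup V] [InnerProductSpace ℂ V] [FiniteDimensional ℂ V]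
    (T : V →L[ℂ] V) (a : ℝ) (v : V) (hv : v ≠ 0) (h : T v = ((a : ℂ) * Complex.I) • v)
    (hT : NormedSpace.exp T = 1 ∨ NormedSpace.exp T = -1) : ∃ n : ℤ, a = n * Real.pi := by
  have h1 := EXP_eig T _ v h
  have h2 : Complex.exp ((a : ℂ) * Complex.I) = 1 ∨ Complex.exp ((a : ℂ) * Complex.I) = -1 := by
    rcases hT with hT | hT
    · left
      rw [hT, ContinuousLinearMap.one_apply] at h1
      have h3 : (1 - Complex.exp ((a : ℂ) * Complex.I)) • v = 0 := by
        rw [sub_smul, one_smul, ← h1, sub_self]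
      rcases smul_eq_zero.1 h3 with h4 | h4
      · exact (sub_eq_zero.1 h4).symm
      · exact absurd h4 hv
    · right
      rw [hT, ContinuousLinearMap.neg_apply, ContinuousLinearMap.one_apply] at h1
      have h3 : (1 + Complex.exp ((a : ℂ) * Complex.I)) • v = 0 := by
        rw [add_smul, one_smul, ← h1, add_neg_cancel]
      rcases smul_eq_zero.1 h3 with h4 | h4
      · exact (eq_neg_of_add_eq_zero_right h4)
      · exact absurd h4 hv
  have h3 : Real.sin a = 0 := by
    have h4 : (Complex.exp ((a : ℂ) * Complex.I)).im = Real.sin a := by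
      rw [Complex.exp_ofReal_mul_I_im]
    rcases h2 with h2 | h2
    · rw [h2] at h4; simpa using h4.symm
    · rw [h2] at h4; simpa using h4.symm
  obtain ⟨n, hn⟩ := Real.sin_eq_zero_iff.1 h3
  exact ⟨n, hn.symm⟩

theorem EXP : Stmt_EXP := by
  intro V _ _ _ t
  refine ⟨fun ξ w v hv => EXP_eig _ _ v (hv ξ), fun ξ hξ w hw => ?_⟩
  obtain ⟨v, hv, hv0⟩ := (Submodule.ne_bot_iff _).1 hw
  exact EXP_int _ _ v hv0 (hv ξ) hξ

end MPa8bd83
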