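import Pool.Agent.Work.MP_a8bd83_qk.Interface4

set_option autoImplicit false

namespace MPa8bd83

open Module

theorem EXT_br {E : Type} [Ring E] [Algebra ℂ E] (P Q S T : E) (c d : ℂ) :
    (P + Complex.I • Q + c • (1 : E)) * (S + Complex.I • T + d • (1 : E)) -
      (S + Complex.I • T + d • (1 : E)) * (P + Complex.I • Q + c • (1 : E)) =
    ((P * S - S * P) - (Q * T - T * Q)) +
      Complex.I • ((P * T - T * P) + (Q * S - S * Q)) + (0 : ℂ) • (1 : E) := by
  simp only [mul_add, add_mul, smul_mul_assoc, mul_smul_comm, one_mul, mul_one, smul_smul,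
    smul_add, smul_sub, Complex.I_mul_I]
  module

/-- The bracket of `su(n)`. -/
def EXT_lie {n : ℕ} (A C : su n) : su n :=
  ⟨(A : Matrix (Fin n) (Fin n) ℂ) * C - C * A, by
    obtain ⟨hA1, hA2⟩ := A.2
    obtain ⟨hC1, hC2⟩ := C.2
    refine ⟨?_, ?_⟩
    · rw [Matrix.conjTranspose_sub, Matrix.conjTranspose_mul, Matrix.conjTranspose_mul, hA1, hC1]
      noncomm_ring
    · rw [Matrix.trace_sub, Matrix.trace_mul_comm, sub_self]⟩

theorem EXT_dec {n : ℕ} (hn : 1 ≤ n) (X : Matrix (Fin n) (Fin n) ℂ) :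
    ∃ (A B : su n) (c : ℂ), X = (A : Matrix (Fin n) (Fin n) ℂ) +
      Complex.I • (B : Matrix (Fin n) (Fin n) ℂ) + c • (1 : Matrix (Fin n) (Fin n) ℂ) := by
  have hn0 : (n : ℂ) ≠ 0 := by
    have : n ≠ 0 := by omega
    exact_mod_cast this
  set t : ℂ := X.trace / n with ht
  set X' : Matrix (Fin n) (Fin n) ℂ := X - t • (1 : Matrix (Fin n) (Fin n) ℂ) with hX'
  have htr : X'.trace = 0 := by
    rw [hX', Matrix.trace_sub, Matrix.trace_smul, Matrix.trace_one, Fintype.card_fin, smul_eq_mul,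
      ht, div_mul_cancel₀ _ hn0, sub_self]
  have htr' : X'.conjTranspose.trace = 0 := by
    rw [Matrix.trace_conjTranspose, htr, star_zero]
  refine ⟨⟨(1 / 2 : ℂ) • (X' - X'.conjTranspose), ?_, ?_⟩,
    ⟨(-(Complex.I / 2) : ℂ) • (X' + X'.conjTranspose), ?_, ?_⟩, t, ?_⟩
  · ext i j
    simp only [Matrix.conjTranspose_apply, Matrix.smul_apply, Matrix.sub_apply, Matrix.neg_apply,
      smul_eq_mul, star_mul', star_sub, star_star]
    have h1 : star (1 / 2 : ℂ) = 1 / 2 := by
      simp
    rw [h1]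
    ring
  · rw [Matrix.trace_smul, Matrix.trace_sub, htr, htr', sub_self, smul_zero]
  · ext i j
    simp only [Matrix.conjTranspose_apply, Matrix.smul_apply, Matrix.add_apply, Matrix.neg_apply,
      smul_eq_mul, star_mul', star_add, star_star]
    have h1 : star (-(Complex.I / 2) : ℂ) = Complex.I / 2 := by
      simp [neg_div]
    rw [h1]
    ring
  · rw [Matrix.trace_smul, Matrix.trace_add, htr, htr', add_zero, smul_zero]
  · have h1 : X = X' + t • (1 : Matrix (Fin n) (Fin n) ℂ) := by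
      rw [hX', sub_add_cancel]
    have h2 : X' = (1 / 2 : ℂ) • (X' - X'.conjTranspose) +
        Complex.I • ((-(Complex.I / 2) : ℂ) • (X' + X'.conjTranspose)) := by
      rw [smul_smul]
      have h3 : Complex.I * (-(Complex.I / 2)) = 1 / 2 := by
        have h4 := Complex.I_mul_I
        linear_combination (-1 / 2) * h4
      rw [h3]
      module
    calc X = X' + t • (1 : Matrix (Fin n) (Fin n) ℂ) := h1
      _ = _ := by
        conv_lhs => rw [h2]

theorem EXT_uni {n : ℕ} (hn : 1 ≤ n) (A B A' B' : su n) (c c' : ℂ)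
    (h : (A : Matrix (Fin n) (Fin n) ℂ) + Complex.I • (B : Matrix (Fin n) (Fin n) ℂ) +
      c • (1 : Matrix (Fin n) (Fin n) ℂ) = (A' : Matrix (Fin n) (Fin n) ℂ) +
      Complex.I • (B' : Matrix (Fin n) (Fin n) ℂ) + c' • (1 : Matrix (Fin n) (Fin n) ℂ)) :
    A = A' ∧ B = B' := by
  have hn0 : (n : ℂ) ≠ 0 := by
    have : n ≠ 0 := by omega
    exact_mod_cast this
  obtain ⟨a1, a2⟩ := A.2
  obtain ⟨b1, b2⟩ := B.2
  obtain ⟨a1', a2'⟩ := A'.2
  obtain ⟨b1', b2'⟩ := B'.2
  have hc : c = c' := by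
    have h1 := congrArg Matrix.trace h
    simp only [Matrix.trace_add, Matrix.trace_smul, a2, b2, a2', b2', Matrix.trace_one,
      Fintype.card_fin, smul_eq_mul, mul_zero, zero_add] at h1
    exact mul_right_cancel₀ hn0 h1
  rw [hc] at h
  have h1 := add_right_cancel h
  have h2 := congrArg Matrix.conjTranspose h1
  rw [Matrix.conjTranspose_add, Matrix.conjTranspose_add, Matrix.conjTranspose_smul,
    Matrix.conjTranspose_smul, a1, b1, a1', b1'] at h2
  have hI : star Complex.I = -Complex.I := Complex.conj_I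
  rw [hI] at h2
  have e1 : ∀ i j, (A : Matrix (Fin n) (Fin n) ℂ) i j + Complex.I * (B : Matrix (Fin n) (Fin n) ℂ) i j =
      (A' : Matrix (Fin n) (Fin n) ℂ) i j + Complex.I * (B' : Matrix (Fin n) (Fin n) ℂ) i j := by
    intro i j
    have h3 := congrFun (congrFun h1 i) j
    simpa only [Matrix.add_apply, Matrix.smul_apply, smul_eq_mul] using h3
  have e2 : ∀ i j, -(A : Matrix (Fin n) (Fin n) ℂ) i j +
      -Complex.I * -(B : Matrix (Fin n) (Fin n) ℂ) i j =
      -(A' : Matrix (Fin n) (Fin n) ℂ) i j +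
      -Complex.I * -(B' : Matrix (Fin n) (Fin n) ℂ) i j := by
    intro i j
    have h3 := congrFun (congrFun h2 i) j
    simpa only [Matrix.add_apply, Matrix.smul_apply, Matrix.neg_apply, smul_eq_mul] using h3
  refine ⟨Subtype.ext (Matrix.ext fun i j => ?_), Subtype.ext (Matrix.ext fun i j => ?_)⟩
  · linear_combination (e1 i j - e2 i j) / 2
  · have hII := Complex.I_mul_I
    linear_combination (-Complex.I / 2) * (e1 i j + e2 i j) +
      ((B : Matrix (Fin n) (Fin n) ℂ) i j - (B' : Matrix (Fin n) (Fin n) ℂ) i j) * hII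

theorem EXT_real {V : Type} [NormedAddCommGroup V] [InnerProductSpace ℂ V] (a : ℝ)
    (T : V →L[ℂ] V) : a • T = (a : ℂ) • T := by
  ext v
  simp only [_root_.smul_apply, Complex.coe_smul]

theorem EXT_realM {n : ℕ} (a : ℝ) (X : Matrix (Fin n) (Fin n) ℂ) : a • X = (a : ℂ) • X := by
  ext i j
  simp only [Matrix.smul_apply, Complex.real_smul, smul_eq_mul]

theorem p_EXT : Stmt_EXT := by
  intro V _ _ _ J n hn ρ hJ hρ
  choose Af Bf cf hX using (fun X => EXT_dec hn X)
  have char : ∀ (X : Matrix (Fin n) (Fin n) ℂ) (A B : su n) (c : ℂ),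
      X = (A : Matrix (Fin n) (Fin n) ℂ) + Complex.I • (B : Matrix (Fin n) (Fin n) ℂ) +
        c • (1 : Matrix (Fin n) (Fin n) ℂ) → Af X = A ∧ Bf X = B := by
    intro X A B c h
    exact EXT_uni hn (Af X) (Bf X) A B (cf X) c ((hX X).symm.trans h)
  let R : Matrix (Fin n) (Fin n) ℂ →ₗ[ℂ] (V →L[ℂ] V) :=
    { toFun := fun X => ρ (Af X) + Complex.I • ρ (Bf X)
      map_add' := by
        intro X Y
        obtain ⟨h1, h2⟩ := char (X + Y) (Af X + Af Y) (Bf X + Bf Y) (cf X + cf Y) (by
          conv_lhs => rw [hX X, hX Y]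
          rw [Submodule.coe_add, Submodule.coe_add]
          module)
        rw [h1, h2, map_add, map_add]
        module
      map_smul' := by
        intro z X
        obtain ⟨h1, h2⟩ := char (z • X) (z.re • Af X - z.im • Bf X) (z.im • Af X + z.re • Bf X)
          (z * cf X) (by
          conv_lhs => rw [hX X]
          rw [Submodule.coe_sub, Submodule.coe_add, Submodule.coe_smul, Submodule.coe_smul,
            Submodule.coe_smul, Submodule.coe_smul, EXT_realM, EXT_realM, EXT_realM, EXT_realM]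
          have hz : z = (z.re : ℂ) + (z.im : ℂ) * Complex.I := (Complex.re_add_im z).symm
          have hII := Complex.I_mul_I
          ext i j
          simp only [Matrix.add_apply, Matrix.smul_apply, Matrix.sub_apply, smul_eq_mul]
          generalize (z.re : ℂ) = u at *
          generalize (z.im : ℂ) = v at *
          rw [hz]
          linear_combination v * (Bf X : Matrix (Fin n) (Fin n) ℂ) i j * hII)
        rw [h1, h2, map_sub, map_add, map_smul, map_smul, map_smul, map_smul, EXT_real, EXT_real,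
          EXT_real, EXT_real, RingHom.id_apply]
        have hz : z = (z.re : ℂ) + (z.im : ℂ) * Complex.I := (Complex.re_add_im z).symm
        have hII := Complex.I_mul_I
        conv_rhs => rw [hz]
        rw [smul_add, smul_smul, smul_smul, smul_add, smul_smul]
        have h3 : ((z.re : ℂ) + (z.im : ℂ) * Complex.I) * Complex.I =
            (z.re : ℂ) * Complex.I - (z.im : ℂ) := by
          linear_combination (z.im : ℂ) * hII
        rw [h3]
        module }
  have hR : ∀ X, R X = ρ (Af X) + Complex.I • ρ (Bf X) := fun X => rfl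
  have hR' : ∀ (X : Matrix (Fin n) (Fin n) ℂ) (A B : su n) (c : ℂ),
      X = (A : Matrix (Fin n) (Fin n) ℂ) + Complex.I • (B : Matrix (Fin n) (Fin n) ℂ) +
        c • (1 : Matrix (Fin n) (Fin n) ℂ) → R X = ρ A + Complex.I • ρ B := by
    intro X A B c h
    obtain ⟨h1, h2⟩ := char X A B c h
    rw [hR, h1, h2]
  refine ⟨R, ⟨?_, ?_⟩, ?_, ?_⟩
  · intro X Y
    have h1 := hR' (X * Y - Y * X)
      (EXT_lie (Af X) (Af Y) - EXT_lie (Bf X) (Bf Y))
      (EXT_lie (Af X) (Bf Y) + EXT_lie (Bf X) (Af Y)) 0 (by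
        conv_lhs => rw [hX X, hX Y]
        rw [EXT_br]
        rfl)
    rw [h1, map_sub, map_add, hρ.lie (Af X) (Af Y) (EXT_lie (Af X) (Af Y)) rfl,
      hρ.lie (Bf X) (Bf Y) (EXT_lie (Bf X) (Bf Y)) rfl,
      hρ.lie (Af X) (Bf Y) (EXT_lie (Af X) (Bf Y)) rfl,
      hρ.lie (Bf X) (Af Y) (EXT_lie (Bf X) (Af Y)) rfl, hR X, hR Y]
    have h2 := EXT_br (ρ (Af X)) (ρ (Bf X)) (ρ (Af Y)) (ρ (Bf Y)) 0 0
    simp only [zero_smul, add_zero] at h2
    rw [h2]
  · intro X hXs
    have hn0 : (n : ℂ) ≠ 0 := by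
      have : n ≠ 0 := by omega
      exact_mod_cast this
    have htr : star X.trace = -X.trace := by
      rw [← Matrix.trace_conjTranspose, hXs, Matrix.trace_neg]
    have h0 : X - (X.trace / n) • (1 : Matrix (Fin n) (Fin n) ℂ) ∈ su n := by
      refine ⟨?_, ?_⟩
      · rw [Matrix.conjTranspose_sub, Matrix.conjTranspose_smul, Matrix.conjTranspose_one, hXs,
          star_div₀, htr, star_natCast, neg_div]
        module
      · rw [Matrix.trace_sub, Matrix.trace_smul, Matrix.trace_one, Fintype.card_fin, smul_eq_mul,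
          div_mul_cancel₀ _ hn0, sub_self]
    have h1 := hR' X ⟨_, h0⟩ 0 (X.trace / n) (by
      rw [Submodule.coe_zero, smul_zero, add_zero, sub_add_cancel])
    rw [h1, map_zero, smul_zero, add_zero]
    exact hρ.sp _
  · have h1 := hR' 1 0 0 1 (by
      rw [Submodule.coe_zero, smul_zero, add_zero, zero_add, one_smul])
    rw [h1, map_zero, smul_zero, add_zero]
  · intro X
    have h1 := hR' X X 0 0 (by
      rw [Submodule.coe_zero, smul_zero, add_zero, zero_smul, add_zero])
    rw [h1, map_zero, smul_zero, add_zero]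

end MPa8bd83
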