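import Pool.Agent.Work.MP_a8bd83_qk.Interface2

set_option autoImplicit false

namespace MPa8bd83

open Module

theorem FAC_kC {V : Type} [NormedAddCommGroup V] [InnerProductSpace ℂ V] (J : V → V)
    (k : Submodule ℝ (V →L[ℂ] V)) (hk : IsLieSub J k) (X Y : V →L[ℂ] V) (hX : X ∈ kC k)
    (hY : Y ∈ kC k) : X * Y - Y * X ∈ kC k := by
  refine Submodule.span_induction (p := fun X _ => X * Y - Y * X ∈ kC k) ?_ ?_ ?_ ?_ hX
  · intro ξ hξ
    refine Submodule.span_induction (p := fun Y _ => ξ * Y - Y * ξ ∈ kC k) ?_ ?_ ?_ ?_ hY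
    · intro η hη
      exact Submodule.subset_span (hk.lie ξ hξ η hη)
    · simp
    · intro a b _ _ ha hb
      have h : ξ * (a + b) - (a + b) * ξ = (ξ * a - a * ξ) + (ξ * b - b * ξ) := by
        rw [mul_add, add_mul]; abel
      rw [h]
      exact add_mem ha hb
    · intro c a _ ha
      have h : ξ * (c • a) - (c • a) * ξ = c • (ξ * a - a * ξ) := by
        rw [mul_smul_comm, smul_mul_assoc, smul_sub]
      rw [h]
      exact Submodule.smul_mem _ _ ha
  · simp
  · intro a b _ _ ha hb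
    have h : (a + b) * Y - Y * (a + b) = (a * Y - Y * a) + (b * Y - Y * b) := by
      rw [mul_add, add_mul]; abel
    rw [h]
    exact add_mem ha hb
  · intro c a _ ha
    have h : (c • a) * Y - Y * (c • a) = c • (a * Y - Y * a) := by
      rw [mul_smul_comm, smul_mul_assoc, smul_sub]
    rw [h]
    exact Submodule.smul_mem _ _ ha

theorem FAC_brk {V : Type} [NormedAddCommGroup V] [InnerProductSpace ℂ V] (J : V → V)
    (k t : Submodule ℝ (V →L[ℂ] V)) (hk : IsLieSub J k) (α β : Dual ℝ t) (X Y : V →L[ℂ] V)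
    (hX : X ∈ Rt k t α) (hY : Y ∈ Rt k t β) : X * Y - Y * X ∈ Rt k t (α + β) := by
  refine ⟨FAC_kC J k hk X Y hX.1 hY.1, fun ξ => ?_⟩
  have h1 := hX.2 ξ
  have h2 := hY.2 ξ
  set T : V →L[ℂ] V := (ξ : V →L[ℂ] V) with hT
  have e1 : T * (X * Y - Y * X) - (X * Y - Y * X) * T =
      (T * X - X * T) * Y + X * (T * Y - Y * T) - ((T * Y - Y * T) * X + Y * (T * X - X * T)) := by
    noncomm_ring
  rw [e1, h1, h2, LinearMap.add_apply]
  simp only [mul_smul_comm, smul_mul_assoc]
  push_cast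
  rw [add_mul, add_smul, smul_sub, smul_sub]
  abel

theorem p_FAC : Stmt_FAC := by
  intro hWTD hWTO hRTZ hRTF hRSY hHEI hONE V _ _ _ J k t hJ hk hm
  haveI : CompleteSpace V := FiniteDimensional.complete ℂ V
  obtain ⟨w1, w2, w3⟩ := hWTD V t (fun ξ hξ => (hk.sp ξ (hm.le hξ)).skew) hm.comm
  obtain ⟨o1, o2, o3, o4⟩ := hWTO V J k t hJ (fun ξ hξ => hk.sp ξ (hm.le hξ))
  obtain ⟨r1, r2⟩ := hRTF V J k t hJ hk hm hRTZ
  obtain ⟨s1, s2, s3, s4, s5⟩ := hRSY V J k t hJ hk hm.le
  have hadj : ∀ (X : V →L[ℂ] V) (x y : V),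
      inner ℂ (X x) y = inner ℂ x (ContinuousLinearMap.adjoint X y) := fun X x y =>
    (ContinuousLinearMap.adjoint_inner_right X x y).symm
  exact
    { quat := hJ
      lie := hk
      mab := hm
      top := w1
      wfin := w2
      dim := w3
      orth := o1
      jw := o2
      jdim := o3
      act := o4
      brk := fun α β X hX Y hY => FAC_brk J k t hk α β X Y hX hY
      rfin := r1
      rcard := r2
      rneg := s5
      adj := fun α X hX => ⟨ContinuousLinearMap.adjoint X, s2 α X hX, hadj X, s4 X hX.1⟩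
      sym := fun α X hX => s3 X hX.1
      hei := fun α hα E hE hE0 => by
        obtain ⟨η, h1, h2⟩ := hHEI V J k t hJ hk hm hRTZ hRSY α E hα hE hE0
        exact ⟨ContinuousLinearMap.adjoint E, s2 α E hE, η, hadj E, h1, h2⟩
      one := fun α hα E hE hE0 F hF =>
        hONE V J k t hJ hk hm hRTZ hRSY hHEI α E F hα hE hE0 hF }

end MPa8bd83
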