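/-
MP_a8bd83_gt, block FLP (helper87): an admissible family stays admissible under sign flips.
-/
import Pool.Agent.Work.MP_a8bd83_qk.Interface

set_option autoImplicit false

namespace MPa8bd83

open Module

theorem FLP : Stmt_FLP := by
  intro V _ _ _ _ J k t hJ hk ht hWTO hRSY ι w e σ hA
  obtain ⟨-, hJw, -, -⟩ := hWTO V J k t hJ (fun ξ hξ => hk.sp ξ (ht.le hξ))
  obtain ⟨-, hadj, hsym, -, -⟩ := hRSY V J k t hJ hk ht.le
  have hnorm : ∀ x : V, ‖J x‖ = ‖x‖ := by
    intro x
    have h1 : (inner ℂ (J x) (J x) : ℂ) = inner ℂ x x := hJ.inner x x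
    rw [inner_self_eq_norm_sq_to_K, inner_self_eq_norm_sq_to_K] at h1
    have h2 : ‖J x‖ ^ 2 = ‖x‖ ^ 2 := by
      exact_mod_cast h1
    exact (sq_eq_sq₀ (norm_nonneg _) (norm_nonneg _)).1 h2
  have hRt : ∀ {α β : Dual ℝ t} {X : V →L[ℂ] V}, X ∈ Rt k t α → α = β → X ∈ Rt k t β := by
    intro α β X hX h
    rwa [h] at hX
  have hkC : ∀ {α : Dual ℝ t} {X : V →L[ℂ] V}, X ∈ Rt k t α → X ∈ kC k := fun h => h.1
  -- `⟨u, X v⟩ = 0` from `⟨v, X* u⟩ = 0`
  have hconj : ∀ (X : V →L[ℂ] V) (u v : V),
      inner ℂ v ((ContinuousLinearMap.adjoint X) u) = (0 : ℂ) → inner ℂ u (X v) = (0 : ℂ) := by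
    intro X u v h
    rw [ContinuousLinearMap.adjoint_inner_right] at h
    rw [← inner_conj_symm, h, map_zero]
  have hneg : ∀ (u v : V), inner ℂ (J (J u)) v = - (inner ℂ u v : ℂ) := by
    intro u v
    rw [hJ.sq, inner_neg_left]
  refine ⟨?_, ?_, ?_, ?_⟩
  · intro i
    cases h : σ i
    · simpa [h] using hJw (w i) (e i) (hA.mem i)
    · simpa [h] using hA.mem i
  · intro i
    cases h : σ i
    · simpa [h, hnorm] using hA.norm i
    · simpa [h] using hA.norm i
  · intro i j hij X hX
    cases hi : σ i <;> cases hj : σ j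
    · -- (-,-)
      have hX' : X ∈ Rt k t (w j - w i) := hRt hX (by
        simp [hi, hj]
        abel)
      change inner ℂ (J (e i)) (X (J (e j))) = (0 : ℂ)
      rw [hsym X (hkC hX'), hneg, hA.diff j i (Ne.symm hij) X hX', neg_zero]
    · -- (-,+)
      have hX' : X ∈ Rt k t (-(w i + w j)) := hRt hX (by
        simp [hi, hj]
        abel)
      change inner ℂ (J (e i)) (X (e j)) = (0 : ℂ)
      exact hA.sum i j X hX'
    · -- (+,-)
      have hX' : X ∈ Rt k t (w i + w j) := hRt hX (by simp [hi, hj])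
      change inner ℂ (e i) (X (J (e j))) = (0 : ℂ)
      refine hconj X _ _ ?_
      refine hA.sum j i _ ?_
      have := hadj (w i + w j) X hX'
      rwa [add_comm (w j)]
    · -- (+,+)
      have hX' : X ∈ Rt k t (w i - w j) := hRt hX (by simp [hi, hj])
      exact hA.diff i j hij X hX'
  · intro i j X hX
    cases hi : σ i <;> cases hj : σ j
    · -- (-,-)
      have hX' : X ∈ Rt k t (w i + w j) := hRt hX (by
        simp [hi, hj]
        try abel)
      change inner ℂ (J (J (e i))) (X (J (e j))) = (0 : ℂ)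
      rw [hneg]
      have : inner ℂ (e i) (X (J (e j))) = (0 : ℂ) := by
        refine hconj X _ _ ?_
        refine hA.sum j i _ ?_
        have := hadj (w i + w j) X hX'
        rwa [add_comm (w j)]
      rw [this, neg_zero]
    · -- (-,+)
      have hij : i ≠ j := by
        rintro rfl
        rw [hi] at hj
        exact absurd hj (by decide)
      have hX' : X ∈ Rt k t (w i - w j) := hRt hX (by
        simp [hi, hj]
        try abel)
      change inner ℂ (J (J (e i))) (X (e j)) = (0 : ℂ)
      rw [hneg, hA.diff i j hij X hX', neg_zero]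
    · -- (+,-)
      have hij : i ≠ j := by
        rintro rfl
        rw [hi] at hj
        exact absurd hj (by decide)
      have hX' : X ∈ Rt k t (w j - w i) := hRt hX (by
        simp [hi, hj]
        try abel)
      change inner ℂ (J (e i)) (X (J (e j))) = (0 : ℂ)
      rw [hsym X (hkC hX'), hneg, hA.diff j i (Ne.symm hij) X hX', neg_zero]
    · -- (+,+)
      have hX' : X ∈ Rt k t (-(w i + w j)) := hRt hX (by simp [hi, hj])
      exact hA.sum i j X hX'

end MPa8bd83
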