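import Pool.Agent.Work.MP_a8bd83_qk.Interface8

/-! # Block FPD (helper71) -/

set_option autoImplicit false

namespace MPa8bd83

open Module

/-- A linear isometry (for the norm of a normed space) of a finite dimensional space: the kernel and
the range of `1 - T` are complementary. -/
theorem FPD_lin {E : Type} [NormedAddCommGroup E] [NormedSpace ℝ E] [FiniteDimensional ℝ E]
    (T : E →ₗ[ℝ] E) (hT : ∀ a, ‖T a‖ = ‖a‖) :
    LinearMap.ker (LinearMap.id - T) ⊔ LinearMap.range (LinearMap.id - T) = ⊤ := by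
  apply Submodule.eq_top_of_disjoint
  · rw [add_comm]
    exact (LinearMap.finrank_range_add_finrank_ker (LinearMap.id - T)).ge
  · rw [Submodule.disjoint_def]
    rintro b hb ⟨a, ha⟩
    rw [LinearMap.mem_ker] at hb
    have hb' : T b = b := by
      have h : b - T b = 0 := hb
      exact (sub_eq_zero.mp h).symm
    have ha' : T a = a - b := by
      have h : a - T a = b := ha
      rw [← h]
      abel
    have hn : ∀ n : ℕ, (T ^ n) a = a - (n : ℝ) • b := by
      intro n
      induction n with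
      | zero => simp
      | succ n ih =>
        rw [pow_succ', Module.End.mul_apply, ih, map_sub, map_smul, hb', ha']
        push_cast
        rw [add_smul, one_smul]
        abel
    have hnorm : ∀ n : ℕ, ‖(T ^ n) a‖ = ‖a‖ := by
      intro n
      induction n with
      | zero => simp
      | succ n ih => rw [pow_succ', Module.End.mul_apply, hT, ih]
    by_contra hb0
    have hpos : 0 < ‖b‖ := norm_pos_iff.mpr hb0
    obtain ⟨n, hn1⟩ := exists_nat_gt (2 * ‖a‖ / ‖b‖)
    rw [div_lt_iff₀ hpos] at hn1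
    have h1 : (n : ℝ) * ‖b‖ = ‖a - (a - (n : ℝ) • b)‖ := by
      rw [sub_sub_cancel, norm_smul, Real.norm_natCast]
    have h2 : ‖a - (a - (n : ℝ) • b)‖ ≤ ‖a‖ + ‖a - (n : ℝ) • b‖ := norm_sub_le _ _
    rw [← hn n, hnorm n, hn n, ← h1] at h2
    linarith

theorem p_FPD (hADK : Stmt_ADK) : Stmt_FPD := by
  intro V _ _ _ J k hJ hk ξ hξ ζ hζ
  have hfd : FiniteDimensional ℝ (V →L[ℂ] V) := by
    have : FiniteDimensional ℂ (V →L[ℂ] V) := inferInstance
    exact FiniteDimensional.complexToReal _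
  have hcV : CompleteSpace V := FiniteDimensional.complete ℂ V
  have hadk := hADK V k ξ (fun ζ hζ => hk.lie ξ hξ ζ hζ)
  have hskew : ξ ∈ skewAdjoint (V →L[ℂ] V) := by
    rw [skewAdjoint.mem_iff, ContinuousLinearMap.star_eq_adjoint]
    symm
    rw [ContinuousLinearMap.eq_adjoint_iff]
    intro x y
    rw [ContinuousLinearMap.neg_apply, inner_neg_left, (hk.sp ξ hξ).skew x y, neg_neg]
  have hnskew : -ξ ∈ skewAdjoint (V →L[ℂ] V) := neg_mem hskew
  let _ : NormedAlgebra ℚ (V →L[ℂ] V) := NormedAlgebra.restrictScalars ℚ ℂ (V →L[ℂ] V)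
  have hu1 : NormedSpace.exp ξ ∈ unitary (V →L[ℂ] V) :=
    NormedSpace.exp_mem_unitary_of_mem_skewAdjoint hskew
  have hu2 : NormedSpace.exp (-ξ) ∈ unitary (V →L[ℂ] V) :=
    NormedSpace.exp_mem_unitary_of_mem_skewAdjoint hnskew
  have hinv : NormedSpace.exp (-ξ) * NormedSpace.exp ξ = 1 := by
    rw [← NormedSpace.exp_add_of_commute (Commute.neg_left (Commute.refl ξ)), neg_add_cancel,
      NormedSpace.exp_zero]
  let T : k →ₗ[ℝ] k :=
    { toFun := fun a => ⟨NormedSpace.exp ξ * (a : V →L[ℂ] V) * NormedSpace.exp (-ξ),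
        hadk a.1 a.2⟩
      map_add' := by
        intro a b
        apply Subtype.ext
        change NormedSpace.exp ξ * ((a : V →L[ℂ] V) + (b : V →L[ℂ] V)) * NormedSpace.exp (-ξ) =
          NormedSpace.exp ξ * (a : V →L[ℂ] V) * NormedSpace.exp (-ξ) +
            NormedSpace.exp ξ * (b : V →L[ℂ] V) * NormedSpace.exp (-ξ)
        rw [mul_add, add_mul]
      map_smul' := by
        intro c a
        apply Subtype.ext
        change NormedSpace.exp ξ * (c • (a : V →L[ℂ] V)) * NormedSpace.exp (-ξ) =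
          c • (NormedSpace.exp ξ * (a : V →L[ℂ] V) * NormedSpace.exp (-ξ))
        rw [mul_smul_comm, smul_mul_assoc] }
  have hT : ∀ a : k, ‖T a‖ = ‖a‖ := by
    intro a
    change ‖NormedSpace.exp ξ * (a : V →L[ℂ] V) * NormedSpace.exp (-ξ)‖ = ‖(a : V →L[ℂ] V)‖
    rw [CStarRing.norm_mul_mem_unitary _ hu2, CStarRing.norm_mem_unitary_mul _ hu1]
  have htop := FPD_lin T hT
  have hmem : (⟨ζ, hζ⟩ : k) ∈ LinearMap.ker (LinearMap.id - T) ⊔
      LinearMap.range (LinearMap.id - T) := by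
    rw [htop]
    exact Submodule.mem_top
  rw [Submodule.mem_sup] at hmem
  obtain ⟨a, ha, r, ⟨η, hη⟩, har⟩ := hmem
  have ha1 : T a = a := by
    rw [LinearMap.mem_ker] at ha
    have h : a - T a = 0 := ha
    exact (sub_eq_zero.mp h).symm
  have ha2 : NormedSpace.exp ξ * (a : V →L[ℂ] V) * NormedSpace.exp (-ξ) = (a : V →L[ℂ] V) :=
    congrArg Subtype.val ha1
  refine ⟨a, ⟨a.2, ?_⟩, η, η.2, ?_⟩
  · calc (a : V →L[ℂ] V) * NormedSpace.exp ξ
        = NormedSpace.exp ξ * (a : V →L[ℂ] V) * NormedSpace.exp (-ξ) * NormedSpace.exp ξ := by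
          rw [ha2]
      _ = NormedSpace.exp ξ * (a : V →L[ℂ] V) := by rw [mul_assoc, hinv, mul_one]
  · have h1 : ζ = (a : V →L[ℂ] V) + (r : V →L[ℂ] V) := (congrArg Subtype.val har).symm
    have h2 : (η : V →L[ℂ] V) - NormedSpace.exp ξ * (η : V →L[ℂ] V) * NormedSpace.exp (-ξ) =
        (r : V →L[ℂ] V) := congrArg Subtype.val hη
    rw [h1, h2]

end MPa8bd83
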