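import Pool.Agent.Work.MP_a8bd83_qk.Interface8

set_option autoImplicit false

namespace MPa8bd83

open Module

theorem FPI_fin (V : Type) [NormedAddCommGroup V] [InnerProductSpace ℂ V]
    [FiniteDimensional ℂ V] : Module.Finite ℝ (V →L[ℂ] V) :=
  Module.Finite.trans (R := ℝ) ℂ (V →L[ℂ] V)

/-- A complement of the kernel of the restriction. -/
theorem FPI_sec (V : Type) [NormedAddCommGroup V] [InnerProductSpace ℂ V]
    [FiniteDimensional ℂ V] (C : Submodule ℝ (V →L[ℂ] V)) (E : Submodule ℂ V) :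
    ∃ L : Submodule ℝ (V →L[ℂ] V), L ≤ C ∧ finrank ℝ L ≤ finrank ℝ (C.map (rst E)) ∧
      ∀ ζ ∈ C, ∃ ζ' ∈ L, ∀ x ∈ E, ζ' x = ζ x := by
  have := FPI_fin V
  set f : C →ₗ[ℝ] (E →L[ℂ] V) := (rst E).comp C.subtype with hf
  have hrange : LinearMap.range f = C.map (rst E) := by
    rw [hf, LinearMap.range_comp, Submodule.range_subtype]
  have hfree : Module.Free ℝ (LinearMap.range f) := by
    let _ : AddCommGroup (LinearMap.range f) := Submodule.addCommGroup _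
    exact Module.Free.of_divisionRing ℝ _
  have hproj : Module.Projective ℝ (LinearMap.range f) := Module.Projective.of_free
  obtain ⟨s, hs⟩ := f.rangeRestrict.exists_rightInverse_of_surjective f.range_rangeRestrict
  refine ⟨LinearMap.range (C.subtype.comp s), ?_, ?_, ?_⟩
  · rintro _ ⟨y, rfl⟩
    exact (s y).2
  · rw [← hrange]
    exact LinearMap.finrank_range_le _
  · intro ζ hζ
    refine ⟨(s (f.rangeRestrict ⟨ζ, hζ⟩) : V →L[ℂ] V), ⟨f.rangeRestrict ⟨ζ, hζ⟩, rfl⟩, ?_⟩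
    intro x hx
    have h1 : f.rangeRestrict (s (f.rangeRestrict ⟨ζ, hζ⟩)) = f.rangeRestrict ⟨ζ, hζ⟩ :=
      LinearMap.congr_fun hs (f.rangeRestrict ⟨ζ, hζ⟩)
    have h2 : f (s (f.rangeRestrict ⟨ζ, hζ⟩)) = f ⟨ζ, hζ⟩ := congrArg Subtype.val h1
    have h3 := congrArg (fun A : E →L[ℂ] V => A ⟨x, hx⟩) h2
    exact h3

theorem FPI_inv {V : Type} [NormedAddCommGroup V] [InnerProductSpace ℂ V]
    [FiniteDimensional ℂ V] (ξ : V →L[ℂ] V) :
    NormedSpace.exp (-ξ) * NormedSpace.exp ξ = 1 := by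
  have : CompleteSpace V := FiniteDimensional.complete ℂ V
  let _ : NormedAlgebra ℚ (V →L[ℂ] V) := NormedAlgebra.restrictScalars ℚ ℂ (V →L[ℂ] V)
  rw [← NormedSpace.exp_add_of_commute (Commute.neg_left (Commute.refl ξ)), neg_add_cancel,
    NormedSpace.exp_zero]

theorem FPI_core (hRES : Stmt_RES) (hFPD : Stmt_FPD)
    (V : Type) [NormedAddCommGroup V] [InnerProductSpace ℂ V] [FiniteDimensional ℂ V]
    (J : V → V) (k : Submodule ℝ (V →L[ℂ] V)) (hJ : IsQuatStr J) (hk : IsLieSub J k)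
    (ξ : V →L[ℂ] V) (hξ : ξ ∈ k) (g gi : V →L[ℂ] V) (hg : g = NormedSpace.exp ξ)
    (hgi : gi = NormedSpace.exp (-ξ)) (hgg : gi * g = 1)
    (hgJ : ∀ x, g (J x) = J (g x)) (hadj : ∀ x y, inner ℂ (gi x) y = inner ℂ x (g y))
    (hfin : ∀ x : V, x ≠ 0 → MomentZero J k x → g x ∈ Submodule.span ℂ {x, J x} → False)
    (ε : ℂ) (hε : ε = 1 ∨ ε = -1) (E : Submodule ℂ V) (hE : ∀ x, x ∈ E ↔ g x = ε • x) :
    finrank ℂ E ≤ 2 * finrank ℝ ((Cz k g).map (rst E)) := by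
  have hεc : (starRingEnd ℂ) ε = ε := by
    rcases hε with h | h
    · rw [h, map_one]
    · rw [h, map_neg, map_one]
  have hεε : ε * ε = 1 := by
    rcases hε with h | h
    · rw [h, one_mul]
    · rw [h]
      norm_num
  by_contra hcon
  rw [not_le] at hcon
  obtain ⟨L, hL1, hL2, hL3⟩ := FPI_sec V (Cz k g) E
  have hEJ : ∀ x ∈ E, J x ∈ E := by
    intro x hx
    rw [hE, hgJ, (hE x).mp hx, hJ.smul, hεc]
  obtain ⟨x, hxE, hx0, hxL⟩ := hRES V J hJ E L hEJ (by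
    intro ζ hζ
    have hζC := hL1 hζ
    refine ⟨hk.sp ζ hζC.1, fun y hy => ?_⟩
    have h1 : ζ (g y) = g (ζ y) := congrArg (fun A : V →L[ℂ] V => A y) hζC.2
    rw [hE, ← h1, (hE y).mp hy, map_smul]) (by omega)
  have hgiE : ∀ y ∈ E, gi y = ε • y := by
    intro y hy
    have h1 : gi (g y) = y := congrArg (fun A : V →L[ℂ] V => A y) hgg
    rw [(hE y).mp hy, map_smul] at h1
    calc gi y = (ε * ε) • gi y := by rw [hεε, one_smul]
      _ = ε • (ε • gi y) := by rw [smul_smul]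
      _ = ε • y := by rw [h1]
  have hkey : ∀ y ∈ E, ∀ η : V →L[ℂ] V, inner ℂ y ((g * η * gi) x) = inner ℂ y (η x) := by
    intro y hy η
    have h1 : (g * η * gi) x = g (η (gi x)) := rfl
    rw [h1, ← hadj, hgiE y hy, hgiE x hxE, map_smul, inner_smul_left, inner_smul_right, hεc,
      ← mul_assoc, hεε, one_mul]
  have hmzC : ∀ a ∈ Cz k g, inner ℂ x (a x) = 0 ∧ inner ℂ (J x) (a x) = 0 := by
    intro a ha
    obtain ⟨a', ha', haa⟩ := hL3 a ha
    obtain ⟨h1, h2⟩ := hxL a' ha'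
    rw [haa x hxE] at h1 h2
    exact ⟨h1, h2⟩
  have hmz : MomentZero J k x := by
    intro ζ hζ
    obtain ⟨a, ha, η, hη, hζe⟩ := hFPD V J k hJ hk ξ hξ ζ hζ
    rw [← hg] at ha
    rw [← hg, ← hgi] at hζe
    obtain ⟨h1, h2⟩ := hmzC a ha
    have h3 : ζ x = a x + (η x - (g * η * gi) x) := by
      rw [hζe]
      rfl
    rw [h3, inner_add_right, inner_add_right, inner_sub_right, inner_sub_right, h1, h2,
      hkey x hxE η, hkey (J x) (hEJ x hxE) η, sub_self, sub_self, add_zero]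
    exact ⟨rfl, rfl⟩
  refine hfin x hx0 hmz ?_
  rw [(hE x).mp hxE]
  exact Submodule.smul_mem _ _ (Submodule.subset_span (Set.mem_insert x _))

theorem p_FPI (hRES : Stmt_RES) (hJXP : Stmt_JXP) (hFPD : Stmt_FPD) : Stmt_FPI := by
  intro V _ _ _ J k hJ hk hfree ξ hξ hg1 hg2 ε hε E hE
  obtain ⟨hcJ, -⟩ := hJXP V J ξ hJ (hk.sp ξ hξ)
  obtain ⟨-, hadj⟩ := hJXP V J (-ξ) hJ (hk.sp (-ξ) (k.neg_mem hξ))
  rw [neg_neg] at hadj
  refine FPI_core hRES hFPD V J k hJ hk ξ hξ _ _ rfl rfl (FPI_inv ξ) hcJ hadj ?_ ε hε E ?_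
  · intro x hx0 hmz hsp
    rcases hfree x hx0 hmz ξ hξ hsp with h | h
    · exact hg1 h
    · exact hg2 h
  · intro x
    rw [hE, Module.End.mem_eigenspace_iff]
    exact Iff.rfl

end MPa8bd83
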