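/-
MP_a8bd83_gt, block FRM: the trace form on t.
-/
import Pool.Agent.Work.MP_a8bd83_qk.Interface2

namespace MPa8bd83

open Module

/-- The trace of a continuous operator. -/
noncomputable def FRM_tr {V : Type} [NormedAddCommGroup V] [InnerProductSpace ℂ V]
    (A : V →L[ℂ] V) : ℂ := LinearMap.trace ℂ V (A : V →ₗ[ℂ] V)

theorem FRM_tr_add {V : Type} [NormedAddCommGroup V] [InnerProductSpace ℂ V]
    (A B : V →L[ℂ] V) : FRM_tr (A + B) = FRM_tr A + FRM_tr B := by
  unfold FRM_tr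
  rw [ContinuousLinearMap.toLinearMap_add, map_add]

theorem FRM_tr_sub {V : Type} [NormedAddCommGroup V] [InnerProductSpace ℂ V]
    (A B : V →L[ℂ] V) : FRM_tr (A - B) = FRM_tr A - FRM_tr B := by
  unfold FRM_tr
  rw [ContinuousLinearMap.toLinearMap_sub, map_sub]

theorem FRM_tr_smul {V : Type} [NormedAddCommGroup V] [InnerProductSpace ℂ V]
    (c : ℂ) (A : V →L[ℂ] V) : FRM_tr (c • A) = c * FRM_tr A := by
  unfold FRM_tr
  rw [ContinuousLinearMap.toLinearMap_smul, map_smul, smul_eq_mul]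

theorem FRM_tr_rsmul {V : Type} [NormedAddCommGroup V] [InnerProductSpace ℂ V]
    (c : ℝ) (A : V →L[ℂ] V) : FRM_tr (c • A) = (c : ℂ) * FRM_tr A := by
  have h : c • A = (c : ℂ) • A := by
    ext v
    simp
  rw [h, FRM_tr_smul]

theorem FRM_tr_comm {V : Type} [NormedAddCommGroup V] [InnerProductSpace ℂ V]
    (A B : V →L[ℂ] V) : FRM_tr (A * B) = FRM_tr (B * A) := by
  unfold FRM_tr
  exact LinearMap.trace_mul_comm ℂ (A : V →ₗ[ℂ] V) (B : V →ₗ[ℂ] V)

theorem FRM_tr_sum {V : Type} [NormedAddCommGroup V] [InnerProductSpace ℂ V]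
    [FiniteDimensional ℂ V] (A : V →L[ℂ] V) :
    FRM_tr A = ∑ i, inner ℂ (stdOrthonormalBasis ℂ V i) (A (stdOrthonormalBasis ℂ V i)) := by
  unfold FRM_tr
  exact LinearMap.trace_eq_sum_inner _ _

theorem FRM_pos {V : Type} [NormedAddCommGroup V] [InnerProductSpace ℂ V]
    [FiniteDimensional ℂ V] (A : V →L[ℂ] V) (hA : A ≠ 0) :
    0 < ∑ i, ‖A (stdOrthonormalBasis ℂ V i)‖ ^ 2 := by
  by_contra hcon
  have h0 : ∀ i, A (stdOrthonormalBasis ℂ V i) = 0 := by
    intro i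
    by_contra hi
    apply hcon
    exact Finset.sum_pos' (fun j _ => by positivity) ⟨i, Finset.mem_univ _, by positivity⟩
  apply hA
  have h1 : (A : V →ₗ[ℂ] V) = 0 := by
    apply (stdOrthonormalBasis ℂ V).toBasis.ext
    intro i
    rw [OrthonormalBasis.coe_toBasis]
    exact h0 i
  ext v
  exact congrArg (fun f : V →ₗ[ℂ] V => f v) h1

theorem p_FRM : Stmt_FRM := by
  intro V _ _ _ J k t hF
  have hmul : ∀ a b : t, FRM_tr ((a : V →L[ℂ] V) * (b : V →L[ℂ] V))
      = FRM_tr ((b : V →L[ℂ] V) * (a : V →L[ℂ] V)) := fun a b => FRM_tr_comm _ _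
  refine ⟨LinearMap.mk₂ ℝ
    (fun a b : t => - (FRM_tr ((a : V →L[ℂ] V) * (b : V →L[ℂ] V))).re) ?_ ?_ ?_ ?_, ?_, ?_, ?_⟩
  · intro a a' b
    rw [Submodule.coe_add, add_mul, FRM_tr_add, Complex.add_re]
    ring
  · intro c a b
    rw [Submodule.coe_smul, smul_mul_assoc, FRM_tr_rsmul, Complex.re_ofReal_mul, smul_eq_mul]
    ring
  · intro a b b'
    rw [Submodule.coe_add, mul_add, FRM_tr_add, Complex.add_re]
    ring
  · intro c a b
    rw [Submodule.coe_smul, mul_smul_comm, FRM_tr_rsmul, Complex.re_ofReal_mul, smul_eq_mul]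
    ring
  · intro a b
    simp only [LinearMap.mk₂_apply]
    rw [hmul]
  · intro a ha
    simp only [LinearMap.mk₂_apply]
    have ha' : (a : V →L[ℂ] V) ≠ 0 := fun hc => ha (Subtype.ext hc)
    have h1 : FRM_tr ((a : V →L[ℂ] V) * (a : V →L[ℂ] V))
        = ((- ∑ i, ‖(a : V →L[ℂ] V) (stdOrthonormalBasis ℂ V i)‖ ^ 2 : ℝ) : ℂ) := by
      rw [FRM_tr_sum]
      push_cast
      rw [← Finset.sum_neg_distrib]
      apply Finset.sum_congr rfl
      intro i _
      rw [Function.comp_apply]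
      have h2 := (hF.lie.sp _ (hF.mab.le a.2)).skew (stdOrthonormalBasis ℂ V i)
        ((a : V →L[ℂ] V) (stdOrthonormalBasis ℂ V i))
      rw [inner_self_eq_norm_sq_to_K] at h2
      rw [← neg_eq_iff_eq_neg, ← h2]
      simp
    rw [h1, Complex.ofReal_re, neg_neg]
    exact FRM_pos _ ha'
  · intro α τ E F hC
    have hadj : ∀ x y : V, inner ℂ x (E y) = inner ℂ (F x) y := by
      intro x y
      rw [← inner_conj_symm, hC.adj, inner_conj_symm]
    have hF0 : F ≠ 0 := by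
      intro h0
      have h1 := hC.br
      rw [h0, mul_zero, zero_mul, sub_zero] at h1
      have h2 : (τ : V →L[ℂ] V) = 0 := by
        have h3 := (neg_eq_zero.mp h1.symm)
        exact (smul_eq_zero.mp h3).resolve_left Complex.I_ne_zero
      have h3 : τ = 0 := Subtype.ext h2
      have h4 := hC.two
      rw [h3, map_zero] at h4
      norm_num at h4
    have htr : FRM_tr (E * F)
        = ((∑ i, ‖F (stdOrthonormalBasis ℂ V i)‖ ^ 2 : ℝ) : ℂ) := by
      rw [FRM_tr_sum]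
      push_cast
      apply Finset.sum_congr rfl
      intro i _
      rw [Function.comp_apply, hadj, inner_self_eq_norm_sq_to_K]
      simp
    refine ⟨∑ i, ‖F (stdOrthonormalBasis ℂ V i)‖ ^ 2, FRM_pos F hF0, ?_⟩
    intro b
    simp only [LinearMap.mk₂_apply]
    have h1 : (τ : V →L[ℂ] V) = Complex.I • (E * F - F * E) := by
      rw [hC.br, smul_neg, smul_smul, Complex.I_mul_I, neg_smul, one_smul, neg_neg]
    have h2 : F * (b : V →L[ℂ] V) - (b : V →L[ℂ] V) * F = ((α b : ℂ) * Complex.I) • F := by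
      have h3 := hC.memF.2 b
      rw [← neg_sub, h3, ← neg_smul]
      congr 1
      simp
    have h3 : FRM_tr ((τ : V →L[ℂ] V) * (b : V →L[ℂ] V))
        = ((-(α b * ∑ i, ‖F (stdOrthonormalBasis ℂ V i)‖ ^ 2) : ℝ) : ℂ) := by
      rw [h1, smul_mul_assoc, FRM_tr_smul, sub_mul, FRM_tr_sub]
      have h4 : FRM_tr (F * E * (b : V →L[ℂ] V)) = FRM_tr (E * ((b : V →L[ℂ] V) * F)) := by
        rw [mul_assoc, FRM_tr_comm, mul_assoc]
      have h5 : FRM_tr (E * F * (b : V →L[ℂ] V)) - FRM_tr (E * ((b : V →L[ℂ] V) * F))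
          = ((α b : ℂ) * Complex.I) * FRM_tr (E * F) := by
        rw [← FRM_tr_sub, ← FRM_tr_smul, mul_assoc, ← mul_sub, h2, mul_smul_comm]
      rw [h4, h5, htr]
      push_cast
      linear_combination ((α b : ℂ) * ∑ i, (‖F (stdOrthonormalBasis ℂ V i)‖ : ℂ) ^ 2) * Complex.I_mul_I
    rw [h3, Complex.ofReal_re, neg_neg, mul_comm]

end MPa8bd83
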