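import Pool.Agent.Work.MP_a8bd83_qk.Interface

/-! Block GEN (helper55): a generic direction. -/

set_option autoImplicit false

namespace MPa8bd83

open Module

theorem GEN : Stmt_GEN := by
  intro W _ _ _ s hs
  have key := Module.Dual.exists_forall_mem_ne_zero_of_forall_exists
    (K := ℝ) (M := W) (ι := s) (⊤ : Submodule ℝ W) (fun φ => (φ : Dual ℝ W)) ?_
  · obtain ⟨x, -, hx⟩ := key
    exact ⟨x, fun φ hφ => hx ⟨φ, hφ⟩⟩
  · rintro ⟨φ, hφ⟩
    have h := hs φ hφ
    obtain ⟨x, hx⟩ := DFunLike.ne_iff.mp h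
    exact ⟨x, Submodule.mem_top, by simpa using hx⟩

end MPa8bd83
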