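import Pool.Agent.Work.MP_a8bd83_qk.Interface

/-! Block GRE (helper28): greedy choice. -/

set_option autoImplicit false

namespace MPa8bd83

theorem GRE : Stmt_GRE := by
  classical
  intro X _ f adj p hsym m
  induction m with
  | zero =>
    intro S _ hS
    have hne : S.Nonempty := by
      rw [← Finset.card_pos]; omega
    obtain ⟨x, hx⟩ := hne
    refine ⟨{x}, Finset.singleton_subset_iff.2 hx, by simp, ?_⟩
    intro a ha b hb hab
    rw [Finset.mem_singleton] at ha hb
    exact absurd (ha.trans hb.symm) hab
  | succ m ih =>
    intro S hS hcard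
    have hne : S.Nonempty := by
      rw [← Finset.card_pos]; omega
    obtain ⟨x, hx, hmax⟩ := Finset.exists_max_image S f hne
    set N : Finset X := S.filter (fun y => y ≠ x ∧ adj x y) with hN
    have hNc : N.card ≤ p := by
      refine hS x hx N (Finset.filter_subset _ _) ?_
      intro y hy
      rw [hN, Finset.mem_filter] at hy
      exact ⟨hy.2.1, hy.2.2, hmax y hy.1⟩
    set R : Finset X := (S \ N).erase x with hR
    have hRS : R ⊆ S := fun y hy => by
      rw [hR, Finset.mem_erase, Finset.mem_sdiff] at hy
      exact hy.2.1
    have h1 : S.card - N.card ≤ (S \ N).card := Finset.le_card_sdiff N S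
    have h2 : (S \ N).card - 1 ≤ R.card := Finset.pred_card_le_card_erase
    have h3 : (p + 1) * m < R.card := by
      have : (p + 1) * (m + 1) = (p + 1) * m + (p + 1) := by ring
      omega
    obtain ⟨T, hTR, hTc, hTadj⟩ := ih R (fun y hy T hT hT2 =>
      hS y (hRS hy) T (hT.trans hRS) hT2) h3
    have hxT : x ∉ T := fun h => by
      have := hTR h
      rw [hR, Finset.mem_erase] at this
      exact this.1 rfl
    have hxadj : ∀ y ∈ T, ¬ adj x y := by
      intro y hy had
      have h4 := hTR hy
      rw [hR, Finset.mem_erase, Finset.mem_sdiff] at h4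
      apply h4.2.2
      rw [hN, Finset.mem_filter]
      exact ⟨h4.2.1, h4.1, had⟩
    refine ⟨insert x T, ?_, ?_, ?_⟩
    · exact Finset.insert_subset hx (hTR.trans hRS)
    · rw [Finset.card_insert_of_notMem hxT, hTc]
    · intro a ha b hb hab
      rw [Finset.mem_insert] at ha hb
      rcases ha with rfl | ha
      · rcases hb with rfl | hb
        · exact absurd rfl hab
        · exact hxadj b hb
      · rcases hb with rfl | hb
        · exact fun h => hxadj a ha (hsym _ _ h)
        · exact hTadj a ha b hb hab

end MPa8bd83
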