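import Pool.Agent.Work.MP_a8bd83_qk.Interface2

set_option autoImplicit false

namespace MPa8bd83

open Module

theorem p_HAL (hFRM : Stmt_FRM) (hSTV : Stmt_STV) (_hRDM : Stmt_RDM) : Stmt_HAL := by
  intro V _ _ _ J k t hF α β τ τ' E F E' F' hα hβ hwα hwβ hne hne'
  obtain ⟨φ, hsym, hpos, hφ⟩ := hFRM V J k t hF
  obtain ⟨m, hm, -, -⟩ := hSTV V J k t hF β τ' E' F' hβ _ hwα
  obtain ⟨n, hn, -, -⟩ := hSTV V J k t hF α τ E F hα _ hwβ
  obtain ⟨c, hc, hcφ⟩ := hφ α τ E F hα
  obtain ⟨c', hc', hcφ'⟩ := hφ β τ' E' F' hβ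
  have hm' : α τ' = 2 * (m : ℝ) := by
    rw [LinearMap.smul_apply, smul_eq_mul] at hm
    linarith
  have hn' : β τ = 2 * (n : ℝ) := by
    rw [LinearMap.smul_apply, smul_eq_mul] at hn
    linarith
  have h1 : c * (m : ℝ) = c' * n := by
    have h2 := hsym τ τ'
    rw [hcφ, hcφ', hm', hn'] at h2
    linarith
  -- the vector `τ' - m τ`
  have h2 : φ (τ' - (m : ℝ) • τ) (τ' - (m : ℝ) • τ) = 2 * c' * (1 - m * n) := by
    have e1 : φ (τ' - (m : ℝ) • τ) (τ' - (m : ℝ) • τ) =
        φ τ' τ' - m * φ τ' τ - m * (φ τ τ' - m * φ τ τ) := by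
      simp only [map_sub, map_smul, LinearMap.sub_apply, LinearMap.smul_apply, smul_eq_mul]
      ring
    rw [e1, hcφ, hcφ, hcφ', hcφ', hm', hn', hα.two, hβ.two]
    ring
  by_cases hm0 : m = 0
  · subst hm0
    have h3 : (n : ℝ) = 0 := by
      have h4 : c' * (n : ℝ) = 0 := by
        rw [← h1]
        simp
      exact (mul_eq_zero.1 h4).resolve_left hc'.ne'
    rw [hm', hn', h3]
    simp
  · exfalso
    have h3 : (0 : ℝ) < m * n := by
      have h4 : (0 : ℝ) < c * (m * m) := by
        have : (m : ℝ) ≠ 0 := by exact_mod_cast hm0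
        exact mul_pos hc (mul_self_pos.2 this)
      have h5 : c * ((m : ℝ) * m) = c' * (m * n) := by
        linear_combination (m : ℝ) * h1
      rw [h5] at h4
      exact (mul_pos_iff_of_pos_left hc').1 h4
    have h4 : 0 < m * n := by exact_mod_cast h3
    have hv : τ' - (m : ℝ) • τ = 0 := by
      by_contra hv
      have h5 := hpos _ hv
      rw [h2] at h5
      have h6 : (0 : ℝ) < 1 - m * n := by
        have h7 : (0 : ℝ) < 2 * c' := by positivity
        exact (mul_pos_iff_of_pos_left h7).1 h5
      have h8 : (m * n : ℤ) < 1 := by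
        have : ((m * n : ℤ) : ℝ) < 1 := by push_cast; linarith
        exact_mod_cast this
      omega
    have h5 : m * n = 1 := by
      rw [hv] at h2
      simp only [map_zero] at h2
      have h6 : (1 : ℝ) - m * n = 0 := by
        have h7 : (2 : ℝ) * c' ≠ 0 := by positivity
        exact (mul_eq_zero.1 h2.symm).resolve_left h7
      have h8 : ((m * n : ℤ) : ℝ) = 1 := by push_cast; linarith
      exact_mod_cast h8
    have hτ : τ' = (m : ℝ) • τ := sub_eq_zero.1 hv
    have hβα : ∀ b, c' * β b = m * (c * α b) := by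
      intro b
      rw [← hcφ' b, ← hcφ b, hτ, map_smul, LinearMap.smul_apply, smul_eq_mul]
    rcases Int.isUnit_iff.1 (IsUnit.of_mul_eq_one n h5) with h6 | h6
    · subst h6
      have hcc : c' = c := by
        have h7 := hβα τ'
        have h8 : α τ' = 2 := by
          rw [hτ, map_smul, hα.two]
          simp
        rw [hβ.two, h8] at h7
        push_cast at h7
        linarith
      apply hne
      ext b
      have h7 := hβα b
      rw [hcc] at h7
      push_cast at h7
      rw [one_mul] at h7
      exact (mul_left_cancel₀ hc.ne' h7).symm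
    · subst h6
      have hcc : c' = c := by
        have h7 := hβα τ'
        have h8 : α τ' = -2 := by
          rw [hτ, map_smul, hα.two]
          simp
        rw [hβ.two, h8] at h7
        push_cast at h7
        linarith
      apply hne'
      ext b
      have h7 := hβα b
      rw [hcc] at h7
      push_cast at h7
      rw [LinearMap.neg_apply]
      have h8 : c * β b = c * (-α b) := by linarith
      rw [mul_left_cancel₀ hc.ne' h8, neg_neg]

end MPa8bd83
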