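import Pool.Agent.Work.MP_a8bd83_qk.Interface

/-! Block HEI of MP_a8bd83_gt: the coroot direction of a root vector. -/

namespace MPa8bd83

open Module

/-- The trace of a continuous operator. -/
noncomputable def heiTr {V : Type} [NormedAddCommGroup V] [InnerProductSpace ℂ V]
    (X : V →L[ℂ] V) : ℂ :=
  LinearMap.trace ℂ V (X : V →ₗ[ℂ] V)

section

variable {V : Type} [NormedAddCommGroup V] [InnerProductSpace ℂ V]

theorem heiTr_add (X Y : V →L[ℂ] V) : heiTr (X + Y) = heiTr X + heiTr Y := by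
  simp only [heiTr, ContinuousLinearMap.toLinearMap_add, map_add]

theorem heiTr_sub (X Y : V →L[ℂ] V) : heiTr (X - Y) = heiTr X - heiTr Y := by
  simp only [heiTr, ContinuousLinearMap.toLinearMap_sub, map_sub]

theorem heiTr_smul (c : ℂ) (X : V →L[ℂ] V) : heiTr (c • X) = c * heiTr X := by
  simp only [heiTr, ContinuousLinearMap.toLinearMap_smul, map_smul, smul_eq_mul]

theorem heiTr_mul_comm (X Y : V →L[ℂ] V) : heiTr (X * Y) = heiTr (Y * X) := by
  have h1 : ((X * Y : V →L[ℂ] V) : V →ₗ[ℂ] V) = (X : V →ₗ[ℂ] V) * (Y : V →ₗ[ℂ] V) := rfl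
  have h2 : ((Y * X : V →L[ℂ] V) : V →ₗ[ℂ] V) = (Y : V →ₗ[ℂ] V) * (X : V →ₗ[ℂ] V) := rfl
  simp only [heiTr]
  rw [h1, h2]
  exact LinearMap.trace_mul_comm ℂ _ _

theorem heiTr_adj [FiniteDimensional ℂ V] [CompleteSpace V] (X : V →L[ℂ] V) :
    ∃ r : ℝ, heiTr (ContinuousLinearMap.adjoint X * X) = (r : ℂ) ∧ 0 ≤ r ∧ (r = 0 → X = 0) := by
  refine ⟨∑ i, ‖X (stdOrthonormalBasis ℂ V i)‖ ^ 2, ?_, ?_, ?_⟩
  · rw [heiTr, LinearMap.trace_eq_sum_inner _ (stdOrthonormalBasis ℂ V), Complex.ofReal_sum]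
    refine Finset.sum_congr rfl fun i _ => ?_
    have h : (((ContinuousLinearMap.adjoint X * X : V →L[ℂ] V) : V →ₗ[ℂ] V)
        (stdOrthonormalBasis ℂ V i)) = ContinuousLinearMap.adjoint X
          (X (stdOrthonormalBasis ℂ V i)) := rfl
    rw [h, ContinuousLinearMap.adjoint_inner_right, inner_self_eq_norm_sq_to_K,
      Complex.ofReal_pow]
    rfl
  · exact Finset.sum_nonneg fun i _ => by positivity
  · intro h
    rw [Finset.sum_eq_zero_iff_of_nonneg (fun i _ => by positivity)] at h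
    have h2 : (X : V →ₗ[ℂ] V) = 0 := by
      refine (stdOrthonormalBasis ℂ V).toBasis.ext fun i => ?_
      have h3 := h i (Finset.mem_univ i)
      have h4 : X (stdOrthonormalBasis ℂ V i) = 0 := by
        rw [← norm_eq_zero]
        exact pow_eq_zero_iff (two_ne_zero) |>.mp h3
      simpa using h4
    ext v
    have := congrArg (fun f : V →ₗ[ℂ] V => f v) h2
    simpa using this

theorem hei_adj_skew [CompleteSpace V] {J : V → V} {ξ : V →L[ℂ] V} (h : IsSp J ξ) :
    ContinuousLinearMap.adjoint ξ = - ξ := by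
  symm
  rw [ContinuousLinearMap.eq_adjoint_iff]
  intro x y
  have := h.skew x y
  simp only [neg_apply, inner_neg_left, this, neg_neg]

theorem hei_lie {J : V → V} {k : Submodule ℝ (V →L[ℂ] V)} (hk : IsLieSub J k)
    {X Y : V →L[ℂ] V} (hX : X ∈ kC k) (hY : Y ∈ kC k) : X * Y - Y * X ∈ kC k := by
  have h1 : ∀ ξ ∈ k, ξ * Y - Y * ξ ∈ kC k := by
    intro ξ hξ
    refine Submodule.span_induction (p := fun Y _ => ξ * Y - Y * ξ ∈ kC k) ?_ ?_ ?_ ?_ hY
    · intro η hη
      exact Submodule.subset_span (hk.lie ξ hξ η hη)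
    · simp
    · intro a b _ _ ha hb
      have : ξ * (a + b) - (a + b) * ξ = (ξ * a - a * ξ) + (ξ * b - b * ξ) := by
        rw [mul_add, add_mul]
        abel
      rw [this]
      exact add_mem ha hb
    · intro c a _ ha
      have : ξ * (c • a) - (c • a) * ξ = c • (ξ * a - a * ξ) := by
        rw [smul_sub, mul_smul_comm, smul_mul_assoc]
      rw [this]
      exact Submodule.smul_mem _ _ ha
  refine Submodule.span_induction (p := fun X _ => X * Y - Y * X ∈ kC k) ?_ ?_ ?_ ?_ hX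
  · intro ξ hξ
    exact h1 ξ hξ
  · simp
  · intro a b _ _ ha hb
    have : (a + b) * Y - Y * (a + b) = (a * Y - Y * a) + (b * Y - Y * b) := by
      rw [mul_add, add_mul]
      abel
    rw [this]
    exact add_mem ha hb
  · intro c a _ ha
    have : (c • a) * Y - Y * (c • a) = c • (a * Y - Y * a) := by
      rw [smul_sub, mul_smul_comm, smul_mul_assoc]
    rw [this]
    exact Submodule.smul_mem _ _ ha

end

theorem HEI : Stmt_HEI := by
  intro V _ _ _ _ J k t hJ hk ht hRTZ hRSY α E hα hE hE0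
  obtain ⟨hadj, hadjR, -, -, -⟩ := hRSY V J k t hJ hk ht.le
  obtain ⟨hR0, -, -⟩ := hRTZ V J k t hJ hk ht
  have htsub : IsLieSub J t := by
    refine ⟨fun ξ hξ => hk.sp ξ (ht.le hξ), fun ξ hξ η hη => ?_⟩
    rw [ht.comm ξ hξ η hη, sub_self]
    exact zero_mem _
  have htmax : MaxAb t t := ⟨le_refl _, ht.comm, fun η hη _ => hη⟩
  obtain ⟨-, hdec, -⟩ := hRTZ V J t t hJ htsub htmax
  set E' : V →L[ℂ] V := ContinuousLinearMap.adjoint E with hE'
  have hE'R : E' ∈ Rt k t (-α) := hadjR α E hE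
  set H : V →L[ℂ] V := E * E' - E' * E with hH
  have hHk : H ∈ kC k := hei_lie hk hE.1 hE'R.1
  have hHR : H ∈ Rt k t 0 := by
    refine ⟨hHk, fun ξ => ?_⟩
    have e1 := hE.2 ξ
    have e2 := hE'R.2 ξ
    have e1' : (ξ : V →L[ℂ] V) * E = E * ξ + ((α ξ : ℂ) * Complex.I) • E := by
      rw [← e1]
      abel
    have e2' : (ξ : V →L[ℂ] V) * E' = E' * ξ - ((α ξ : ℂ) * Complex.I) • E' := by
      have h3 : (((-α) ξ : ℝ) : ℂ) = - ((α ξ : ℝ) : ℂ) := by simp
      rw [h3, neg_mul, neg_smul] at e2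
      rw [sub_eq_iff_eq_add] at e2
      rw [e2]
      abel
    have e3 : (ξ : V →L[ℂ] V) * (E * E') = (E * E') * ξ := by
      rw [← mul_assoc, e1', add_mul, mul_assoc, e2', mul_sub, smul_mul_assoc, mul_smul_comm,
        mul_assoc]
      abel
    have e4 : (ξ : V →L[ℂ] V) * (E' * E) = (E' * E) * ξ := by
      rw [← mul_assoc, e2', sub_mul, mul_assoc, e1', mul_add, smul_mul_assoc, mul_smul_comm,
        mul_assoc]
      abel
    rw [hH, mul_sub, sub_mul, e3, e4, sub_self]
    simp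
  rw [hR0] at hHR
  obtain ⟨ξ, hξ, η, hη, hdecH⟩ := hdec H hHR
  have hHadj : ContinuousLinearMap.adjoint H = H := by
    have h1 : ContinuousLinearMap.adjoint E' = E := by
      rw [hE', ContinuousLinearMap.adjoint_adjoint]
    have h2 : ContinuousLinearMap.adjoint (E * E') = E * E' := by
      have := ContinuousLinearMap.adjoint_comp E E'
      rw [h1, ← hE'] at this
      exact this
    have h3 : ContinuousLinearMap.adjoint (E' * E) = E' * E := by
      have := ContinuousLinearMap.adjoint_comp E' E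
      rw [h1, ← hE'] at this
      exact this
    rw [hH, map_sub, h2, h3]
  have hξ0 : ξ = 0 := by
    have h1 := hHadj
    rw [hdecH, map_add, map_smulₛₗ, hei_adj_skew (htsub.sp ξ hξ),
      hei_adj_skew (htsub.sp η hη)] at h1
    have h2 : (starRingEnd ℂ Complex.I) • (-η) = Complex.I • η := by
      rw [Complex.conj_I, smul_neg, neg_smul, neg_neg]
    rw [h2] at h1
    have h3 : -ξ = ξ := add_right_cancel h1
    have h4 : (2 : ℂ) • ξ = 0 := by
      rw [two_smul]
      nth_rewrite 1 [← h3]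
      simp
    exact (smul_eq_zero.mp h4).resolve_left two_ne_zero
  rw [hξ0, zero_add] at hdecH
  refine ⟨⟨-η, neg_mem hη⟩, ?_, ?_⟩
  · change H = - (Complex.I • (-η))
    rw [smul_neg, neg_neg]
    exact hdecH
  · -- positivity
    have hpos1 : ∀ τ : t, heiTr (H * (τ : V →L[ℂ] V))
        = ((α τ : ℂ) * Complex.I) * heiTr (E' * E) := by
      intro τ
      have e1 := hE.2 τ
      have e2 : H * (τ : V →L[ℂ] V) = E * (E' * τ) - (E' * E) * τ := by
        rw [hH, sub_mul, mul_assoc]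
      rw [e2, heiTr_sub, heiTr_mul_comm E, ← heiTr_sub]
      have e3 : E' * (τ : V →L[ℂ] V) * E - E' * E * (τ : V →L[ℂ] V)
          = ((α τ : ℂ) * Complex.I) • (E' * E) := by
        rw [mul_assoc, mul_assoc, ← mul_sub, e1, mul_smul_comm]
      rw [e3, heiTr_smul]
    obtain ⟨r, hr, hr0, hr1⟩ := heiTr_adj E
    obtain ⟨s, hs, hs0, hs1⟩ := heiTr_adj H
    have hrpos : 0 < r := lt_of_le_of_ne hr0 fun h => hE0 (hr1 h.symm)
    have hHne : H ≠ 0 := by
      intro h0
      obtain ⟨τ, hτ⟩ : ∃ τ : t, α τ ≠ 0 := by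
        by_contra hcon
        push Not at hcon
        exact hα (LinearMap.ext hcon)
      have h1 := hpos1 τ
      rw [h0, zero_mul] at h1
      have h2 : heiTr (0 : V →L[ℂ] V) = 0 := by simp [heiTr]
      rw [h2, hr] at h1
      have h3 := mul_eq_zero.mp h1.symm
      rcases h3 with h3 | h3
      · rcases mul_eq_zero.mp h3 with h4 | h4
        · exact hτ (by exact_mod_cast h4)
        · exact Complex.I_ne_zero h4
      · exact hrpos.ne' (by exact_mod_cast h3)
    have hspos : 0 < s := lt_of_le_of_ne hs0 fun h => hHne (hs1 h.symm)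
    rw [hHadj] at hs
    have h5 := hpos1 ⟨-η, neg_mem hη⟩
    have h6 : H * (-η) = Complex.I • (H * H) := by
      have : (-η) = Complex.I • H := by
        rw [hdecH, smul_smul, Complex.I_mul_I, neg_one_smul]
      rw [this, mul_smul_comm]
    change heiTr (H * (-η)) = _ at h5
    rw [h6, heiTr_smul, hs, hr] at h5
    have h7 : (s : ℂ) = ((α ⟨-η, neg_mem hη⟩ : ℝ) : ℂ) * (r : ℂ) := by
      have h8 : Complex.I * (s : ℂ)
          = Complex.I * (((α ⟨-η, neg_mem hη⟩ : ℝ) : ℂ) * (r : ℂ)) := by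
        rw [h5]
        ring
      exact mul_left_cancel₀ Complex.I_ne_zero h8
    have h9 : s = α ⟨-η, neg_mem hη⟩ * r := by exact_mod_cast h7
    by_contra hneg
    push Not at hneg
    have : s ≤ 0 := by
      rw [h9]
      exact mul_nonpos_of_nonpos_of_nonneg hneg hr0
    linarith

end MPa8bd83
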