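import Pool.Agent.Work.MP_a8bd83_qk.Interface

namespace MPa8bd83

open Module

theorem HLF : Stmt_HLF := by
  intro V _ _ _ _ J k t hJ hk hM hF hw0 sWTD sWTO sRTD sRTZ sRSY sHEI sONE sEXP sLIN sPRZ sISP hr w
  obtain ⟨hadj, hadjR, hsym, hJX, hneg⟩ := sRSY V J k t hJ hk hM.le
  by_cases hwt : IsWt t w
  swap
  · have hbot : Wt t w = ⊥ := by
      by_contra h
      exact hwt h
    rw [hbot, finrank_bot]
    exact ⟨Nat.zero_le _, fun _ => Nat.zero_le _⟩
  have hw : w ≠ 0 := hw0 w hwt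
  have hww : w + w ≠ 0 := by
    intro h
    apply hw
    have h2 : (2 : ℝ) • w = 0 := by rw [two_smul]; exact h
    exact (smul_eq_zero.1 h2).resolve_left two_ne_zero
  have hnww : -(w + w) ≠ 0 := neg_ne_zero.2 hww
  constructor
  · by_contra hlt
    have h4 : 4 ≤ finrank ℂ (Wt t w) := by omega
    obtain ⟨X0, hX0, hspan⟩ : ∃ X0 ∈ Rt k t (-(w + w)), ∀ X ∈ Rt k t (-(w + w)),
        ∃ c : ℂ, X = c • X0 := by
      by_cases hb : Rt k t (-(w + w)) = ⊥
      · refine ⟨0, zero_mem _, fun X hX => ⟨0, ?_⟩⟩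
        rw [hb, Submodule.mem_bot] at hX
        rw [hX, smul_zero]
      · obtain ⟨E, hE, hE0⟩ := Submodule.exists_mem_ne_zero_of_ne_bot hb
        exact ⟨E, hE, fun X hX => sONE V J k t hJ hk hM sRTZ sRSY sHEI _ E X hnww hE hE0 hX⟩
    have hX0k : X0 ∈ kC k := hX0.1
    obtain ⟨-, h2, -⟩ := sISP V (fun u v => inner ℂ (J u) (X0 v)) (fun u v => hsym X0 hX0k u v)
      (fun u v v' => by rw [map_add, inner_add_right]) (fun c u v => by
        rw [map_smul, inner_smul_right])
    obtain ⟨u, hu, v, hv, hu1, hv1, huv, huu, huv', hvv⟩ := h2 (Wt t w) h4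
    have := sPRZ V J k t hJ hk hM hF sWTD sWTO sRTD sRTZ sRSY sEXP sLIN w u v hw hu hv hu1 hv1 huv
      (by
        intro X hX
        obtain ⟨c, rfl⟩ := hspan X hX
        refine ⟨?_, ?_, ?_⟩
        · rw [_root_.smul_apply, inner_smul_right, huu, mul_zero]
        · rw [_root_.smul_apply, inner_smul_right, hsym X0 hX0k v u, huv', mul_zero]
        · rw [_root_.smul_apply, inner_smul_right, hvv, mul_zero])
    omega
  · intro hroot
    have hb : Rt k t (-(w + w)) = ⊥ := by
      by_contra h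
      have h1 := hneg _ ⟨hnww, h⟩
      rw [neg_neg] at h1
      exact hroot h1
    by_contra hlt
    have h2 : 2 ≤ finrank ℂ (Wt t w) := by omega
    let b := stdOrthonormalBasis ℂ (Wt t w)
    let i0 : Fin (finrank ℂ (Wt t w)) := ⟨0, by omega⟩
    let i1 : Fin (finrank ℂ (Wt t w)) := ⟨1, by omega⟩
    have h01 : i0 ≠ i1 := by
      intro h
      have := congrArg Fin.val h
      simp [i0, i1] at this
    have hn : ∀ i, ‖((b i : Wt t w) : V)‖ = 1 := fun i => b.orthonormal.1 i
    have ho : inner ℂ ((b i0 : Wt t w) : V) ((b i1 : Wt t w) : V) = 0 := b.orthonormal.2 h01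
    have := sPRZ V J k t hJ hk hM hF sWTD sWTO sRTD sRTZ sRSY sEXP sLIN w _ _ hw (b i0).2 (b i1).2
      (hn i0) (hn i1) ho (by
        intro X hX
        rw [hb, Submodule.mem_bot] at hX
        subst hX
        simp)
    omega

end MPa8bd83
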