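import Pool.Agent.Work.MP_a8bd83_qk.Interface2

set_option autoImplicit false

namespace MPa8bd83

open Module

theorem HRN_fin {V : Type} [NormedAddCommGroup V] [InnerProductSpace ℂ V] [FiniteDimensional ℂ V] :
    FiniteDimensional ℝ (V →L[ℂ] V) := by
  haveI : FiniteDimensional ℂ (V →L[ℂ] V) :=
    LinearEquiv.finiteDimensional (LinearMap.toContinuousLinearMap (𝕜 := ℂ) (E := V) (F' := V))
  exact FiniteDimensional.complexToReal (V →L[ℂ] V)

theorem p_HRN (hCOR : Stmt_COR) (hHAL : Stmt_HAL) : Stmt_HRN := by
  intro V _ _ _ J k t hF H s hH hne hs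
  classical
  haveI : FiniteDimensional ℝ (V →L[ℂ] V) := HRN_fin
  have hhalf : ∀ w : Dual ℝ t, (1 / 2 : ℝ) • (w + w) = w := by
    intro w
    rw [← two_smul ℝ w, smul_smul]
    norm_num
  have hinj : ∀ w w' : Dual ℝ t, w + w = w' + w' → w = w' := by
    intro w w' h
    rw [← hhalf w, h, hhalf]
  have hinj' : ∀ w w' : Dual ℝ t, w + w = -(w' + w') → w = -w' := by
    intro w w' h
    rw [← hhalf w, h, smul_neg, hhalf]
  have hc : ∀ w : H, ∃ τ : t, (w : Dual ℝ t) τ = 1 ∧ ∀ w' : H, w' ≠ w →
      (w' : Dual ℝ t) τ = 0 := by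
    intro w
    obtain ⟨τ, E, F, hτ⟩ := hCOR V J k t hF _ (hH w w.2).2
    refine ⟨τ, ?_, fun w' hw' => ?_⟩
    · have h := hτ.two
      rw [LinearMap.add_apply] at h
      linarith
    · obtain ⟨τ', E', F', hτ'⟩ := hCOR V J k t hF _ (hH w' w'.2).2
      have hn1 : (w : Dual ℝ t) ≠ w' := fun h => hw' (Subtype.ext h.symm)
      have h := hHAL V J k t hF _ _ τ τ' E F E' F' hτ hτ'
        (by rw [hhalf]; exact (hH w w.2).1) (by rw [hhalf]; exact (hH w' w'.2).1)
        (fun h => hn1 (hinj _ _ h)) (fun h => hne w w.2 w' w'.2 hn1 (hinj' _ _ h))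
      have h2 := h.2
      rw [LinearMap.add_apply] at h2
      linarith
  choose τ hτ1 hτ0 using hc
  constructor
  · have hli : LinearIndependent ℝ (fun w : H => (w : Dual ℝ t)) := by
      rw [Fintype.linearIndependent_iff]
      intro g hg w
      have h := congrArg (fun f : Dual ℝ t => f (τ w)) hg
      simp only [LinearMap.zero_apply, LinearMap.sum_apply, LinearMap.smul_apply,
        smul_eq_mul] at h
      rw [Finset.sum_eq_single w] at h
      · rw [hτ1, mul_one] at h
        exact h
      · intro w' _ hw'
        rw [hτ0 w w' hw', mul_zero]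
      · intro h'
        exact absurd (Finset.mem_univ w) h'
    have h := hli.fintype_card_le_finrank
    rw [Subspace.dual_finrank_eq] at h
    simpa using h
  · have hA : (H.image fun w => w + w).card = H.card :=
      Finset.card_image_of_injective _ fun a b h => hinj a b h
    have hB : (H.image fun w => -(w + w)).card = H.card :=
      Finset.card_image_of_injective _ fun a b h => hinj a b (neg_injective h)
    have hdis : Disjoint (H.image fun w => w + w) (H.image fun w => -(w + w)) := by
      rw [Finset.disjoint_left]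
      intro α h1 h2
      obtain ⟨w, hw, rfl⟩ := Finset.mem_image.1 h1
      obtain ⟨w', hw', h3⟩ := Finset.mem_image.1 h2
      have h4 : w = -w' := hinj' _ _ h3.symm
      by_cases h5 : w = w'
      · apply (hH w hw).2.1
        rw [← h5] at h4
        nth_rewrite 1 [h4]
        exact neg_add_cancel w
      · exact hne w hw w' hw' h5 h4
    have hsub : (H.image fun w => w + w) ∪ (H.image fun w => -(w + w)) ⊆ s := by
      intro α hα
      rw [hs]
      rcases Finset.mem_union.1 hα with h | h
      · obtain ⟨w, hw, rfl⟩ := Finset.mem_image.1 h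
        exact (hH w hw).2
      · obtain ⟨w, hw, rfl⟩ := Finset.mem_image.1 h
        exact hF.rneg _ (hH w hw).2
    have h := Finset.card_le_card hsub
    rw [Finset.card_union_of_disjoint hdis, hA, hB] at h
    omega

end MPa8bd83
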