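import Pool.Agent.Work.MP_a8bd83_qk.Interface5
import Pool.Agent.Work.MP_a8bd83_qk.B_IN2

set_option autoImplicit false

namespace MPa8bd83

open Module

theorem INC_inv {V : Type} [NormedAddCommGroup V] [InnerProductSpace ℂ V]
    [FiniteDimensional ℂ V] (ξ : V →L[ℂ] V) (h : NormedSpace.exp ξ * NormedSpace.exp ξ = 1) :
    NormedSpace.exp (-ξ) = NormedSpace.exp ξ := by
  have : CompleteSpace V := FiniteDimensional.complete ℂ V
  let _ : NormedAlgebra ℚ (V →L[ℂ] V) := NormedAlgebra.restrictScalars ℚ ℂ (V →L[ℂ] V)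
  have h1 : NormedSpace.exp (-ξ) * NormedSpace.exp ξ = 1 := by
    rw [← NormedSpace.exp_add_of_commute (Commute.neg_left (Commute.refl ξ)), neg_add_cancel,
      NormedSpace.exp_zero]
  calc NormedSpace.exp (-ξ) = NormedSpace.exp (-ξ) * (NormedSpace.exp ξ *
      NormedSpace.exp ξ) := by rw [h, mul_one]
    _ = NormedSpace.exp ξ := by rw [← mul_assoc, h1, one_mul]

theorem INC_eig {V : Type} [NormedAddCommGroup V] [InnerProductSpace ℂ V] (g : V →L[ℂ] V)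
    (ε : ℂ) : Module.End.eigenspace (g : V →ₗ[ℂ] V) ε = IN2_Q g ε := by
  ext x
  rw [Module.End.mem_eigenspace_iff]
  exact Iff.rfl

theorem INC_dec {V : Type} [NormedAddCommGroup V] [InnerProductSpace ℂ V]
    (k : Submodule ℝ (V →L[ℂ] V)) (g : V →L[ℂ] V) (hgg : g * g = 1) (ζ : V →L[ℂ] V)
    (hζ : ζ ∈ k) (hc : g * ζ * g ∈ k) : ∃ a ∈ Cz k g, ∃ b : V →L[ℂ] V, ζ = a + b ∧
      b * g = -(g * b) := by
  have e1 : g * ζ * g * g = g * ζ := by rw [mul_assoc (g * ζ), hgg, mul_one]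
  have e2 : g * (g * ζ * g) = ζ * g := by
    rw [mul_assoc g ζ g, ← mul_assoc g g, hgg, one_mul]
  refine ⟨(1 / 2 : ℝ) • (ζ + g * ζ * g), ⟨k.smul_mem _ (k.add_mem hζ hc), ?_⟩,
    (1 / 2 : ℝ) • (ζ - g * ζ * g), ?_, ?_⟩
  · rw [smul_mul_assoc, mul_smul_comm, add_mul, mul_add, e1, e2, add_comm (ζ * g)]
  · rw [← smul_add, add_add_sub_cancel, ← two_smul ℝ ζ, smul_smul]
    norm_num
  · rw [smul_mul_assoc, mul_smul_comm, sub_mul, mul_sub, e1, e2, ← smul_neg, neg_sub]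

theorem INC_key (hRES : Stmt_RES) (hJXP : Stmt_JXP) (hADK : Stmt_ADK) (V : Type)
    [NormedAddCommGroup V] [InnerProductSpace ℂ V] [FiniteDimensional ℂ V]
    (J : V → V) (k : Submodule ℝ (V →L[ℂ] V)) (hJ : IsQuatStr J) (hk : IsLieSub J k)
    (hfree : FreeOnZeros J k) (g ξ : V →L[ℂ] V) (hξ : ξ ∈ k) (hg : g = NormedSpace.exp ξ)
    (hgg : g * g = 1) (hg1 : g ≠ 1) (hg2 : g ≠ -1) (ε : ℂ) (hε : ε = 1 ∨ ε = -1) :
    finrank ℂ (IN2_Q g ε) ≤ 2 * finrank ℝ (Cz k g) := by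
  subst hg
  have hinv := INC_inv ξ hgg
  have hconj : ∀ ζ ∈ k, NormedSpace.exp ξ * ζ * NormedSpace.exp ξ ∈ k := by
    intro ζ hζ
    have h1 := hADK V k ξ (fun η hη => hk.lie ξ hξ η hη) ζ hζ
    rw [hinv] at h1
    exact h1
  by_contra hcon
  rw [not_le] at hcon
  exact IN2_core hRES hJXP V J k (Cz k (NormedSpace.exp ξ)) hJ hk.sp (fun ζ hζ => hζ.1) hfree
    ξ hξ hgg hg1 hg2 (fun ζ hζ => hζ.2)
    (fun ζ hζ => INC_dec k (NormedSpace.exp ξ) hgg ζ hζ (hconj ζ hζ)) ε hε hcon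

theorem p_INC (hRES : Stmt_RES) (hJXP : Stmt_JXP) (hADK : Stmt_ADK) : Stmt_INC := by
  intro V _ _ _ J k hJ hk hfree g hg hgg hg1 hg2
  obtain ⟨ξ, hξ, hgξ⟩ := hg
  rw [INC_eig, INC_eig]
  exact ⟨INC_key hRES hJXP hADK V J k hJ hk hfree g ξ hξ hgξ hgg hg1 hg2 1 (Or.inl rfl),
    INC_key hRES hJXP hADK V J k hJ hk hfree g ξ hξ hgξ hgg hg1 hg2 (-1) (Or.inr rfl)⟩

end MPa8bd83
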