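import Pool.Agent.Work.MP_a8bd83_qk.Interface4

/-! MP_a8bd83_gt, block INT: integrality. -/

set_option autoImplicit false

namespace MPa8bd83

open Module

theorem p_INT (hEV1 : Stmt_EV1) (hSL2 : Stmt_SL2) : Stmt_INT := by
  intro V _ _ _ J D E F hJ hD hEF hDE hDF
  obtain ⟨hspan, -, -, hexp, -⟩ := hEV1 V J D hJ hD
  have hval : ∀ (a : ℝ) (v : V), v ≠ 0 → D v = ((a : ℂ) * Complex.I) • v → ∃ n : ℤ, (a : ℂ) = (n : ℂ) := by
    intro a v hv hDv
    have e1 : ∀ w : V, E (F w) - F (E w) = -(Complex.I • D w) := fun w => by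
      have := congrArg (fun T : V →L[ℂ] V => T w) hEF
      simpa using this
    have e2 : ∀ w : V, D (E w) - E (D w) = (2 * Complex.I) • E w := fun w => by
      have := congrArg (fun T : V →L[ℂ] V => T w) hDE
      simpa using this
    have e3 : ∀ w : V, D (F w) - F (D w) = -((2 * Complex.I) • F w) := fun w => by
      have := congrArg (fun T : V →L[ℂ] V => T w) hDF
      simpa using this
    have g1 : (E : V →ₗ[ℂ] V) * (F : V →ₗ[ℂ] V) - (F : V →ₗ[ℂ] V) * (E : V →ₗ[ℂ] V) =
        -(Complex.I • (D : V →ₗ[ℂ] V)) := by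
      ext w
      simpa using e1 w
    have g2 : (-(Complex.I • (D : V →ₗ[ℂ] V))) * (E : V →ₗ[ℂ] V) -
        (E : V →ₗ[ℂ] V) * (-(Complex.I • (D : V →ₗ[ℂ] V))) = (2 : ℂ) • (E : V →ₗ[ℂ] V) := by
      ext w
      have h2 := e2 w
      have h3 : (-(Complex.I • D (E w))) - E (-(Complex.I • D w)) = (2 : ℂ) • E w := by
        rw [map_neg, map_smul, neg_sub_neg, ← smul_sub]
        have h4 : E (D w) - D (E w) = -((2 * Complex.I) • E w) := by
          rw [← h2]; abel
        rw [h4, smul_neg, smul_smul, ← neg_smul]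
        congr 1
        have := Complex.I_mul_I
        linear_combination (-2) * this
      simpa using h3
    have g3 : (-(Complex.I • (D : V →ₗ[ℂ] V))) * (F : V →ₗ[ℂ] V) -
        (F : V →ₗ[ℂ] V) * (-(Complex.I • (D : V →ₗ[ℂ] V))) = -((2 : ℂ) • (F : V →ₗ[ℂ] V)) := by
      ext w
      have h2 := e3 w
      have h3 : (-(Complex.I • D (F w))) - F (-(Complex.I • D w)) = -((2 : ℂ) • F w) := by
        rw [map_neg, map_smul, neg_sub_neg, ← smul_sub]
        have h4 : F (D w) - D (F w) = (2 * Complex.I) • F w := by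
          rw [← neg_sub (D (F w)), h2, neg_neg]
        rw [h4, smul_smul, ← neg_smul]
        congr 1
        have := Complex.I_mul_I
        linear_combination (2) * this
      simpa using h3
    have g4 : (-(Complex.I • (D : V →ₗ[ℂ] V))) v = (a : ℂ) • v := by
      have h3 : -(Complex.I • D v) = (a : ℂ) • v := by
        rw [hDv, smul_smul, ← neg_smul]
        congr 1
        have := Complex.I_mul_I
        linear_combination (-(a : ℂ)) * this
      simpa using h3
    obtain ⟨n, hn, -⟩ := hSL2 V (E : V →ₗ[ℂ] V) (F : V →ₗ[ℂ] V) (-(Complex.I • (D : V →ₗ[ℂ] V))) g1 g2 g3 v (a : ℂ) hv g4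
    exact ⟨n, hn⟩
  have hfix : ∀ v ∈ {v : V | ∃ a : ℝ, D v = ((a : ℂ) * Complex.I) • v},
      NormedSpace.exp ((2 * Real.pi) • D) v = v := by
    rintro v ⟨a, ha⟩
    by_cases hv : v = 0
    · rw [hv, map_zero]
    · obtain ⟨n, hn⟩ := hval a v hv ha
      rw [hexp a (2 * Real.pi) v ha]
      have h1 : Complex.exp (((2 * Real.pi * a : ℝ) : ℂ) * Complex.I) = 1 := by
        rw [Complex.exp_eq_one_iff]
        refine ⟨n, ?_⟩
        rw [Complex.ofReal_mul, Complex.ofReal_mul, hn]
        push_cast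
        ring
      rw [h1, one_smul]
  ext v
  have hv := hspan v
  rw [one_apply_eq_self]
  induction hv using Submodule.span_induction with
  | mem w hw => exact hfix w hw
  | zero => rw [map_zero]
  | add u w _ _ hu hw => rw [map_add, hu, hw]
  | smul c w _ hw => rw [map_smul, hw]

end MPa8bd83
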