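import Pool.Agent.Work.MP_a8bd83_qk.Interface3

set_option autoImplicit false

/-! # Block INV: the bound of the dimension by an involution -/

namespace MPa8bd83

open Module

section

variable {V : Type} [NormedAddCommGroup V] [InnerProductSpace ℂ V] {J : V → V}
  {k t : Submodule ℝ (V →L[ℂ] V)}

/-- the value of `w` at `ξ` is an integer of the parity of `δ`, times `π` -/
def INV_p (ξ : t) (δ : ℤ) (w : Dual ℝ t) : Prop :=
  ∃ n : ℤ, w ξ = (2 * (n : ℝ) + (δ : ℝ)) * Real.pi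

/-- the sum of the weight spaces of the parity of `δ` -/
def INV_S (ξ : t) (δ : ℤ) : Submodule ℂ V :=
  ⨆ (w : Dual ℝ t) (_ : INV_p ξ δ w), Wt t w

theorem INV_le (ξ : t) (δ : ℤ) (w : Dual ℝ t) (h : INV_p ξ δ w) : Wt t w ≤ INV_S ξ δ :=
  le_iSup₂ (f := fun (w : Dual ℝ t) (_ : INV_p ξ δ w) => Wt t w) w h

theorem INV_ind (ξ : t) (δ : ℤ) (N : Submodule ℂ V)
    (h : ∀ w : Dual ℝ t, INV_p ξ δ w → Wt t w ≤ N) : INV_S ξ δ ≤ N :=
  iSup₂_le h

theorem INV_J (hF : Fac J k t) (ξ : t) (δ : ℤ) : ∀ x ∈ INV_S ξ δ, J x ∈ INV_S ξ δ := by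
  have hJ0 : J 0 = 0 := by
    have h := hF.quat.smul 0 0
    rw [zero_smul, map_zero, zero_smul] at h
    exact h
  let N : Submodule ℂ V :=
    { carrier := {x | J x ∈ INV_S ξ δ}
      add_mem' := by
        intro a b ha hb
        show J (a + b) ∈ INV_S ξ δ
        rw [hF.quat.add]
        exact add_mem ha hb
      zero_mem' := by
        show J 0 ∈ INV_S ξ δ
        rw [hJ0]
        exact zero_mem _
      smul_mem' := by
        intro c x hx
        show J (c • x) ∈ INV_S ξ δ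
        rw [hF.quat.smul]
        exact Submodule.smul_mem _ _ hx }
  have h : INV_S ξ δ ≤ N := by
    refine INV_ind ξ δ N fun w hw v hv => ?_
    obtain ⟨n, hn⟩ := hw
    refine INV_le ξ δ (-w) ⟨-n - δ, ?_⟩ (hF.jw w v hv)
    rw [LinearMap.neg_apply, hn]
    push_cast
    ring
  exact fun x hx => h hx

theorem INV_X (hF : Fac J k t) (ξ : t) (δ ε : ℤ) (α : Dual ℝ t) (hα : INV_p ξ ε α)
    (X : V →L[ℂ] V) (hX : X ∈ Rt k t α) : ∀ x ∈ INV_S ξ δ, X x ∈ INV_S ξ (δ + ε) := by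
  have h : INV_S ξ δ ≤ (INV_S ξ (δ + ε)).comap (X : V →ₗ[ℂ] V) := by
    refine INV_ind ξ δ _ fun w hw v hv => ?_
    obtain ⟨n, hn⟩ := hw
    obtain ⟨m, hm⟩ := hα
    refine INV_le ξ (δ + ε) (w + α) ⟨n + m, ?_⟩ (hF.act w α X hX v hv)
    rw [LinearMap.add_apply, hn, hm]
    push_cast
    ring
  exact fun x hx => h hx

theorem INV_orth (hF : Fac J k t) (ξ : t) (δ : ℤ) (x y : V) (hx : x ∈ INV_S ξ δ)
    (hy : y ∈ INV_S ξ (δ + 1)) : inner ℂ x y = 0 := by
  have h : Submodule.IsOrtho (INV_S ξ δ) (INV_S ξ (δ + 1)) := by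
    unfold INV_S
    rw [Submodule.isOrtho_iSup_left]
    intro w
    rw [Submodule.isOrtho_iSup_left]
    intro hw
    rw [Submodule.isOrtho_iSup_right]
    intro w'
    rw [Submodule.isOrtho_iSup_right]
    intro hw'
    rw [Submodule.isOrtho_iff_inner_eq]
    refine hF.orth w w' ?_
    rintro rfl
    obtain ⟨n, hn⟩ := hw
    obtain ⟨m, hm⟩ := hw'
    rw [hn] at hm
    have h1 := mul_right_cancel₀ Real.pi_ne_zero hm
    have h2 : 2 * n + δ = 2 * m + (δ + 1) := by exact_mod_cast h1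
    omega
  exact (Submodule.isOrtho_iff_inner_eq.1 h) x hx y hy

theorem INV_par (ξ : t) (w : Dual ℝ t) (h : ∃ n : ℤ, w ξ = n * Real.pi) :
    INV_p ξ 0 w ∨ INV_p ξ 1 w := by
  obtain ⟨n, hn⟩ := h
  obtain ⟨m, hm | hm⟩ := Int.even_or_odd' n
  · left
    refine ⟨m, ?_⟩
    rw [hn, hm]
    push_cast
    ring
  · right
    refine ⟨m, ?_⟩
    rw [hn, hm]
    push_cast
    ring

theorem INV_top (hF : Fac J k t) (ξ : t)
    (hw : ∀ w : Dual ℝ t, IsWt t w → ∃ n : ℤ, w ξ = n * Real.pi) :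
    (INV_S ξ 0 ⊔ INV_S ξ 1 : Submodule ℂ V) = ⊤ := by
  rw [eq_top_iff, ← hF.top]
  refine iSup_le fun w => ?_
  by_cases h : IsWt t w
  · rcases INV_par ξ w (hw w h) with h1 | h1
    · exact (INV_le ξ 0 w h1).trans le_sup_left
    · exact (INV_le ξ 1 w h1).trans le_sup_right
  · have h2 : Wt t w = ⊥ := not_not.1 h
    rw [h2]
    exact bot_le

theorem INV_root (hF : Fac J k t) (ξ : t)
    (hw : ∀ w : Dual ℝ t, IsWt t w → ∃ n : ℤ, w ξ = n * Real.pi) (α : Dual ℝ t)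
    (hα : IsRoot k t α) : ∃ n : ℤ, α ξ = n * Real.pi := by
  obtain ⟨X, hX, hX0⟩ := Submodule.exists_mem_ne_zero_of_ne_bot hα.2
  by_contra hcon
  apply hX0
  have h1 : (⊤ : Submodule ℂ V) ≤ LinearMap.ker (X : V →ₗ[ℂ] V) := by
    rw [← hF.top]
    refine iSup_le fun w v hv => ?_
    rw [LinearMap.mem_ker]
    by_contra hXv
    apply hcon
    have hv0 : v ≠ 0 := by
      rintro rfl
      exact hXv (map_zero _)
    have hw1 : IsWt t w := by
      intro hb
      rw [hb, Submodule.mem_bot] at hv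
      exact hv0 hv
    have hXw : X v ∈ Wt t (w + α) := hF.act w α X hX v hv
    have hw2 : IsWt t (w + α) := by
      intro hb
      rw [hb, Submodule.mem_bot] at hXw
      exact hXv hXw
    obtain ⟨n, hn⟩ := hw w hw1
    obtain ⟨m, hm⟩ := hw _ hw2
    refine ⟨m - n, ?_⟩
    rw [LinearMap.add_apply, hn] at hm
    push_cast
    linarith
  ext v
  exact h1 (Submodule.mem_top (x := v))

/-- the key step -/
theorem INV_key (hRTD : Stmt_RTD) (hWTD : Stmt_WTD) (hEXP : Stmt_EXP) (hRES : Stmt_RES)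
    (hRKE : Stmt_RKE) [FiniteDimensional ℂ V] (hF : Fac J k t) (hfree : FreeOnZeros J k) (ξ : t)
    (hw : ∀ w : Dual ℝ t, IsWt t w → ∃ n : ℤ, w ξ = n * Real.pi)
    (h1 : NormedSpace.exp (ξ : V →L[ℂ] V) ≠ 1) (h2 : NormedSpace.exp (ξ : V →L[ℂ] V) ≠ -1)
    (s : Finset (Dual ℝ t)) (hs : ∀ α ∈ s, IsRoot k t α ∧ INV_p ξ 0 α)
    (hs' : ∀ α : Dual ℝ t, IsRoot k t α → INV_p ξ 0 α → α ∈ s) (δ : ℤ) :
    finrank ℂ (INV_S ξ δ : Submodule ℂ V) ≤ 2 * (finrank ℝ t + s.card) := by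
  by_contra hlt
  push Not at hlt
  obtain ⟨L, hLk, hLr, hLs, hLm⟩ := hRKE V J k t hF s (fun α hα => (hs α hα).1.1)
    (fun α hα => by
      refine hs' (-α) (hF.rneg α (hs α hα).1) ?_
      obtain ⟨n, hn⟩ := (hs α hα).2
      refine ⟨-n, ?_⟩
      rw [LinearMap.neg_apply, hn]
      push_cast
      ring)
  have hp0 : INV_p ξ 0 (0 : Dual ℝ t) := ⟨0, by simp⟩
  -- the elements of `L` map `Q` to `Q`
  let St : Submodule ℂ (V →L[ℂ] V) :=
    { carrier := {X | ∀ x ∈ INV_S ξ δ, X x ∈ INV_S ξ δ}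
      add_mem' := by
        intro a b ha hb x hx
        exact add_mem (ha x hx) (hb x hx)
      zero_mem' := by
        intro x _
        exact zero_mem _
      smul_mem' := by
        intro c X hX x hx
        exact Submodule.smul_mem _ _ (hX x hx) }
  have hRtSt : ∀ α : Dual ℝ t, INV_p ξ 0 α → Rt k t α ≤ St := by
    intro α hα X hX x hx
    have h := INV_X hF ξ δ 0 α hα X hX x hx
    rw [add_zero] at h
    exact h
  have hLSt : ∀ ζ ∈ L, ∀ x ∈ INV_S ξ δ, ζ x ∈ INV_S ξ δ := by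
    intro ζ hζ
    have h3 : (Rt k t 0 ⊔ ⨆ α ∈ s, Rt k t α) ≤ St :=
      sup_le (hRtSt 0 hp0) (iSup₂_le fun α hα => hRtSt α (hs α hα).2)
    exact h3 (hLm ζ hζ)
  obtain ⟨x, hxQ, hx0, hxm⟩ := hRES V J hF.quat (INV_S ξ δ) L (INV_J hF ξ δ)
    (fun ζ hζ => ⟨hF.lie.sp ζ (hLk hζ), hLSt ζ hζ⟩) (by omega)
  -- `x` is a zero of the moment map of `k`
  let Z : Submodule ℂ (V →L[ℂ] V) :=
    { carrier := {X | inner ℂ x (X x) = 0 ∧ inner ℂ (J x) (X x) = 0}
      add_mem' := by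
        intro a b ha hb
        constructor
        · show inner ℂ x (a x + b x) = 0
          rw [inner_add_right, ha.1, hb.1, add_zero]
        · show inner ℂ (J x) (a x + b x) = 0
          rw [inner_add_right, ha.2, hb.2, add_zero]
      zero_mem' := by
        constructor
        · show inner ℂ x (0 : V) = 0
          exact inner_zero_right _
        · show inner ℂ (J x) (0 : V) = 0
          exact inner_zero_right _
      smul_mem' := by
        intro c X hX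
        constructor
        · show inner ℂ x (c • X x) = 0
          rw [inner_smul_right, hX.1, mul_zero]
        · show inner ℂ (J x) (c • X x) = 0
          rw [inner_smul_right, hX.2, mul_zero] }
  have hspan : Submodule.span ℂ (L : Set (V →L[ℂ] V)) ≤ Z :=
    Submodule.span_le.2 fun ζ hζ => hxm ζ hζ
  have hRtZ : ∀ α : Dual ℝ t, Rt k t α ≤ Z := by
    intro α
    by_cases h0 : α = 0
    · exact (hLs α (Or.inl h0)).trans hspan
    by_cases hb : Rt k t α = ⊥
    · rw [hb]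
      exact bot_le
    have hroot : IsRoot k t α := ⟨h0, hb⟩
    rcases INV_par ξ α (INV_root hF ξ hw α hroot) with hev | hod
    · exact (hLs α (Or.inr (hs' α hroot hev))).trans hspan
    · intro X hX
      have hXx := INV_X hF ξ δ 1 α hod X hX x hxQ
      exact ⟨INV_orth hF ξ δ x (X x) hxQ hXx,
        INV_orth hF ξ δ (J x) (X x) (INV_J hF ξ δ x hxQ) hXx⟩
  have hmz : MomentZero J k x := by
    intro ζ hζ
    have h3 : ζ ∈ kC k := Submodule.subset_span hζ
    rw [hRTD V J k t hF.quat hF.lie hF.mab hWTD] at h3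
    exact (iSup_le hRtZ : (⨆ α, Rt k t α) ≤ Z) h3
  -- the exponential
  set c : ℂ := Complex.exp (((δ : ℝ) * Real.pi : ℝ) * Complex.I) with hc
  have hexp : (INV_S ξ δ : Submodule ℂ V) ≤ LinearMap.ker
      (((NormedSpace.exp (ξ : V →L[ℂ] V) - c • (1 : V →L[ℂ] V)) : V →L[ℂ] V) : V →ₗ[ℂ] V) := by
    refine INV_ind ξ δ _ fun w hwp v hv => ?_
    obtain ⟨n, hn⟩ := hwp
    rw [LinearMap.mem_ker]
    show NormedSpace.exp (ξ : V →L[ℂ] V) v - c • v = 0
    rw [(hEXP V t).1 ξ w v hv, hn]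
    have h4 : Complex.exp ((((2 * (n : ℝ) + (δ : ℝ)) * Real.pi : ℝ) : ℂ) * Complex.I) = c := by
      rw [hc]
      have h5 : (((2 * (n : ℝ) + (δ : ℝ)) * Real.pi : ℝ) : ℂ) * Complex.I
          = (((δ : ℝ) * Real.pi : ℝ) : ℂ) * Complex.I + n * (2 * Real.pi * Complex.I) := by
        push_cast
        ring
      rw [h5]
      exact Complex.exp_periodic.int_mul n _
    rw [h4, sub_self]
  have hex : NormedSpace.exp (ξ : V →L[ℂ] V) x = c • x := by
    have h6 := hexp hxQ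
    rw [LinearMap.mem_ker] at h6
    exact sub_eq_zero.1 h6
  have hin : NormedSpace.exp (ξ : V →L[ℂ] V) x ∈ Submodule.span ℂ {x, J x} := by
    rw [hex]
    exact Submodule.smul_mem _ _ (Submodule.subset_span (Set.mem_insert _ _))
  rcases hfree x hx0 hmz ξ (hF.mab.le ξ.2) hin with h | h
  · exact h1 h
  · exact h2 h

end

theorem p_INV (hRTD : Stmt_RTD) (hWTD : Stmt_WTD) (hEXP : Stmt_EXP) (hRES : Stmt_RES)
    (hRKE : Stmt_RKE) : Stmt_INV := by
  intro V _ _ _ J k t hF hfree ξ hw h1 h2 s hs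
  classical
  have hkey := INV_key hRTD hWTD hEXP hRES hRKE hF hfree ξ hw h1 h2
    (s.filter fun α => IsRoot k t α ∧ INV_p ξ 0 α)
    (fun α hα => (Finset.mem_filter.1 hα).2)
    (fun α hα hp => by
      refine Finset.mem_filter.2 ⟨hs α hα ?_, hα, hp⟩
      obtain ⟨n, hn⟩ := hp
      refine ⟨n, ?_⟩
      rw [hn]
      push_cast
      ring)
  have hcard : (s.filter fun α => IsRoot k t α ∧ INV_p ξ 0 α).card ≤ s.card :=
    Finset.card_filter_le _ _
  have hP := hkey 0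
  have hM := hkey 1
  have hsum : finrank ℂ V ≤ finrank ℂ (INV_S ξ 0 : Submodule ℂ V)
      + finrank ℂ (INV_S ξ 1 : Submodule ℂ V) := by
    have h3 := Submodule.finrank_add_le_finrank_add_finrank (INV_S ξ 0 : Submodule ℂ V)
      (INV_S ξ 1)
    rw [INV_top hF ξ hw, finrank_top] at h3
    exact h3
  omega

end MPa8bd83
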