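/-
MP_a8bd83_gt, block ISP (helper73): isotropic vectors and planes of one symmetric form.
-/
import Pool.Agent.Work.MP_a8bd83_qk.Interface

namespace MPa8bd83

open Module

section ISP

variable {V : Type} [NormedAddCommGroup V] [InnerProductSpace ℂ V]

theorem ISP_normalise {B : V → V → ℂ} (hs : ∀ u v, B u v = B v u)
    (hm : ∀ (c : ℂ) (u v : V), B u (c • v) = c * B u v) (U : Submodule ℂ V) {v : V} (hv : v ∈ U)
    (hv0 : v ≠ 0) (hB : B v v = 0) : ∃ u ∈ U, ‖u‖ = 1 ∧ B u u = 0 := by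
  refine ⟨((‖v‖⁻¹ : ℝ) : ℂ) • v, U.smul_mem _ hv, ?_, ?_⟩
  · rw [norm_smul, Complex.norm_real, norm_inv, norm_norm, inv_mul_cancel₀]
    exact norm_ne_zero_iff.mpr hv0
  · rw [hm, hs, hm, hB, mul_zero, mul_zero]

theorem ISP_one [FiniteDimensional ℂ V] {B : V → V → ℂ} (hs : ∀ u v, B u v = B v u)
    (ha : ∀ u v v', B u (v + v') = B u v + B u v')
    (hm : ∀ (c : ℂ) (u v : V), B u (c • v) = c * B u v) (U : Submodule ℂ V)
    (hU : 2 ≤ finrank ℂ U) : ∃ u ∈ U, ‖u‖ = 1 ∧ B u u = 0 := by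
  have hU1 : 1 < finrank ℂ U := hU
  have : Nontrivial U := nontrivial_of_finrank_pos (R := ℂ) (by omega)
  obtain ⟨a, ha0⟩ := exists_ne (0 : U)
  obtain ⟨b, hb⟩ := exists_linearIndependent_pair_of_one_lt_finrank hU1 ha0
  by_cases hBa : B (a : V) a = 0
  · exact ISP_normalise hs hm U a.2 (fun h => ha0 (Subtype.ext h)) hBa
  · obtain ⟨s, hs2⟩ := IsAlgClosed.exists_pow_nat_eq
      (B (a : V) b ^ 2 - B (a : V) a * B (b : V) b) (n := 2) (by norm_num)
    obtain ⟨z, hz⟩ : ∃ z : ℂ, z * B (a : V) a = -B (a : V) b + s :=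
      ⟨(-B (a : V) b + s) / B (a : V) a, by field_simp⟩
    have hval : B ((b : V) + z • (a : V)) ((b : V) + z • (a : V)) = 0 := by
      have h1 : B ((b : V) + z • (a : V)) ((b : V) + z • (a : V)) =
          B (b : V) b + 2 * z * B (a : V) b + z ^ 2 * B (a : V) a := by
        rw [ha, hm, hs ((b : V) + z • (a : V)) (b : V), ha, hm,
          hs ((b : V) + z • (a : V)) (a : V), ha, hm, hs (b : V) a]
        ring
      have h2 : B (a : V) a * (B (b : V) b + 2 * z * B (a : V) b + z ^ 2 * B (a : V) a) = 0 := by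
        linear_combination (z * B (a : V) a + B (a : V) b + s) * hz + hs2
      rw [h1]
      exact (mul_eq_zero.mp h2).resolve_left hBa
    refine ISP_normalise hs hm U (U.add_mem b.2 (U.smul_mem z a.2)) ?_ hval
    intro h0
    rw [LinearIndependent.pair_iff] at hb
    have h3 : z • a + (1 : ℂ) • b = 0 := by
      apply Subtype.ext
      show z • (a : V) + (1 : ℂ) • (b : V) = 0
      rw [one_smul, add_comm]
      exact h0
    exact one_ne_zero (hb z 1 h3).2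

theorem ISP_ker [FiniteDimensional ℂ V] {W : Type} [AddCommGroup W] [Module ℂ W] [FiniteDimensional ℂ W]
    (U : Submodule ℂ V) (ψ : V →ₗ[ℂ] W) :
    ∃ U' : Submodule ℂ V, U' ≤ U ∧ (∀ v ∈ U', ψ v = 0) ∧
      finrank ℂ U ≤ finrank ℂ U' + finrank ℂ W := by
  refine ⟨(LinearMap.ker (ψ.domRestrict U)).map U.subtype, ?_, ?_, ?_⟩
  · rintro _ ⟨v, -, rfl⟩
    exact v.2
  · rintro _ ⟨v, hv, rfl⟩
    exact hv
  · rw [Submodule.finrank_map_subtype_eq]
    have h1 := LinearMap.finrank_range_add_finrank_ker (ψ.domRestrict U)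
    have h2 := Submodule.finrank_le (LinearMap.range (ψ.domRestrict U))
    omega

end ISP

theorem ISP : Stmt_ISP := by
  intro V _ _ _ B hs ha hm
  have h1 : ∀ U : Submodule ℂ V, 2 ≤ finrank ℂ U → ∃ u ∈ U, ‖u‖ = 1 ∧ B u u = 0 :=
    fun U hU => ISP_one hs ha hm U hU
  refine ⟨h1, fun U hU => ?_, fun U φ hU => ?_⟩
  · obtain ⟨u, huU, hu1, hBu⟩ := h1 U (by omega)
    let β : V →ₗ[ℂ] ℂ :=
      { toFun := fun v => B u v
        map_add' := fun v v' => ha u v v'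
        map_smul' := fun c v => hm c u v }
    let ψ : V →ₗ[ℂ] (ℂ × ℂ) := β.prod (innerₛₗ ℂ u)
    obtain ⟨U', hU'U, hψ, hfr⟩ := ISP_ker U ψ
    have h2 : finrank ℂ (ℂ × ℂ) = 2 := by simp
    obtain ⟨v, hvU', hv1, hBv⟩ := h1 U' (by omega)
    have h3 := hψ v hvU'
    have h4 : B u v = 0 := congrArg Prod.fst h3
    have h5 : inner ℂ u v = 0 := congrArg Prod.snd h3
    exact ⟨u, huU, v, hU'U hvU', hu1, hv1, h5, hBu, h4, hBv⟩
  · obtain ⟨U', hU'U, hψ, hfr⟩ := ISP_ker U φ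
    have h2 : finrank ℂ ℂ = 1 := finrank_self ℂ
    obtain ⟨v, hvU', hv1, hBv⟩ := h1 U' (by omega)
    exact ⟨v, hU'U hvU', hv1, hψ v hvU', hBv⟩

end MPa8bd83
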