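import Pool.Agent.Work.MP_a8bd83_qk.Interface

/-! # Block JQS: the coordinate model of a quaternionic structure (helper3) -/

namespace MPa8bd83

open Module

theorem JQS : Stmt_JQS := by
  intro N
  refine ⟨⟨?_, ?_, ?_, ?_⟩, ?_⟩
  · intro x y
    ext i
    rcases i with i | i
    · simp [Jq]; ring
    · simp [Jq]
  · intro c x
    ext i
    rcases i with i | i
    · simp [Jq]
    · simp [Jq]
  · intro x
    ext i
    rcases i with i | i
    · simp [Jq]
    · simp [Jq]
  · intro x y
    simp only [PiLp.inner_apply, Fintype.sum_sum_type, Jq, Sum.elim_inl, Sum.elim_inr]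
    simp only [RCLike.inner_apply, map_neg, Complex.conj_conj, neg_mul_neg]
    rw [add_comm]
    congr 1 <;> exact Finset.sum_congr rfl fun i _ => mul_comm _ _
  · rw [finrank_euclideanSpace]
    simp [two_mul]

end MPa8bd83
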