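import Pool.Agent.Work.MP_a8bd83_qk.Interface2

/-! Block LID: admissible families are linearly independent, rank at least two
(helper33, after B_COC). -/

set_option autoImplicit false

namespace MPa8bd83

open Module

theorem LID_orth {V : Type} [NormedAddCommGroup V] [InnerProductSpace ℂ V]
    [FiniteDimensional ℂ V] {J : V → V} {k t : Submodule ℝ (V →L[ℂ] V)}
    (hJ : IsQuatStr J) (hk : IsLieSub J k) (ht : MaxAb k t)
    (hwt : ∀ w : Dual ℝ t, IsWt t w → w ≠ 0) (hWTO : Stmt_WTO)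
    {ι : Type} {w : ι → Dual ℝ t} {e : ι → V} (hA : Admissible J k t w e) (i j : ι)
    (hij : i ≠ j) : inner ℂ (e i) (e j) = 0 := by
  by_cases h : w i = w j
  · have h1 : w i ≠ 0 := by
      apply hwt
      intro hb
      have h2 : e i ∈ (⊥ : Submodule ℂ V) := hb ▸ hA.mem i
      rw [Submodule.mem_bot] at h2
      have h3 := hA.norm i
      rw [h2, norm_zero] at h3
      exact zero_ne_one h3
    obtain ⟨ξ, hξ⟩ : ∃ ξ : t, w i ξ ≠ 0 := by
      by_contra hcon
      push Not at hcon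
      exact h1 (LinearMap.ext hcon)
    have h4 : (ξ : V →L[ℂ] V) ∈ Rt k t (w i - w j) := by
      refine ⟨Submodule.subset_span (ht.le ξ.2), fun τ => ?_⟩
      rw [h, sub_self, ht.comm _ τ.2 _ ξ.2, sub_self]
      simp
    have h5 := hA.diff i j hij _ h4
    rw [hA.mem j ξ, inner_smul_right] at h5
    rcases mul_eq_zero.1 h5 with h6 | h6
    · exfalso
      rcases mul_eq_zero.1 h6 with h7 | h7
      · rw [h] at hξ
        exact hξ (by exact_mod_cast h7)
      · exact Complex.I_ne_zero h7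
    · exact h6
  · exact (hWTO V J k t hJ (fun ξ hξ => hk.sp ξ (ht.le hξ))).1 _ _ h _ (hA.mem i) _ (hA.mem j)

theorem LID_sub {V : Type} [NormedAddCommGroup V] [InnerProductSpace ℂ V] {J : V → V}
    {k t : Submodule ℝ (V →L[ℂ] V)} {ι κ : Type} {w : ι → Dual ℝ t} {e : ι → V}
    (hA : Admissible J k t w e) (f : κ → ι) (hf : Function.Injective f) :
    Admissible J k t (fun i => w (f i)) (fun i => e (f i)) where
  mem i := hA.mem (f i)
  norm i := hA.norm (f i)
  diff i j hij := hA.diff (f i) (f j) (fun h => hij (hf h))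
  sum i j := hA.sum (f i) (f j)

/-- a minimal dependent subfamily -/
theorem LID_min {W ι : Type} [AddCommGroup W] [Module ℝ W] [FiniteDimensional ℝ W] [Fintype ι]
    (w : ι → W) (h : ¬ LinearIndependent ℝ w) :
    ∃ (s : Finset ι) (g : ι → ℝ), ∑ i ∈ s, g i • w i = 0 ∧ (∀ i ∈ s, g i ≠ 0) ∧ s.Nonempty ∧
      s.card ≤ finrank ℝ W + 1 := by
  classical
  obtain ⟨s, hs, hmin⟩ := (wellFounded_lt (α := Finset ι)).has_min
    {s : Finset ι | ¬ LinearIndepOn ℝ w (s : Set ι)}
    ⟨Finset.univ, by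
      rw [Set.mem_setOf_eq, Finset.coe_univ, linearIndepOn_univ]
      exact h⟩
  rw [Set.mem_setOf_eq, linearIndepOn_finset_iff] at hs
  push Not at hs
  obtain ⟨g, hg, i₀, hi₀s, hi₀⟩ := hs
  have herase : ∀ j ∈ s, LinearIndepOn ℝ w ((s.erase j : Finset ι) : Set ι) := by
    intro j hj
    by_contra hcon
    exact hmin _ hcon (Finset.erase_ssubset hj)
  refine ⟨s, g, hg, ?_, ⟨i₀, hi₀s⟩, ?_⟩
  · intro j hj hj0
    have h1 := (linearIndepOn_finset_iff.1 (herase j hj)) g (by
      rw [← Finset.add_sum_erase s _ hj, hj0, zero_smul, zero_add] at hg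
      exact hg) i₀ (Finset.mem_erase.2 ⟨fun hh => hi₀ (hh ▸ hj0), hi₀s⟩)
    exact hi₀ h1
  · have h1 := (herase i₀ hi₀s).fintype_card_le_finrank
    have h2 : Fintype.card ((s.erase i₀ : Finset ι) : Set ι) = (s.erase i₀).card :=
      Fintype.card_coe _
    rw [h2, Finset.card_erase_of_mem hi₀s] at h1
    omega

theorem p_LID : Stmt_LID := by
  classical
  intro V _ _ _ _ J k t hJ hk ht hfree hwt hWTD hWTO hRTD hRTZ hRSY hZER hEXP hLIN hBAR hFLP hr
    ι _ w e hA
  by_contra hcon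
  have hfin : FiniteDimensional ℝ t := Module.finite_of_finrank_pos (by omega)
  obtain ⟨s, g, hg, hgne, ⟨i₀, hi₀⟩, hcard⟩ := LID_min w hcon
  rw [Subspace.dual_finrank_eq] at hcard
  let κ : Type := {i : ι // i ∈ s}
  have hA1 : Admissible J k t (fun i : κ => w i.1) (fun i : κ => e i.1) :=
    LID_sub hA (fun i : κ => i.1) Subtype.val_injective
  have hA2 := hFLP V J k t hJ hk ht hWTO hRSY κ (fun i : κ => w i.1)
    (fun i : κ => e i.1) (fun i => decide (0 < g i.1)) hA1
  set W : κ → Dual ℝ t := fun i => if decide (0 < g i.1) then w i.1 else - w i.1 with hW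
  set E : κ → V := fun i => if decide (0 < g i.1) then e i.1 else J (e i.1) with hE
  -- the coefficients
  set S : ℝ := ∑ i : κ, |g i.1| with hS
  have hSpos : 0 < S :=
    Finset.sum_pos (fun i _ => abs_pos.2 (hgne i.1 i.2)) ⟨⟨i₀, hi₀⟩, Finset.mem_univ _⟩
  set c : κ → ℝ := fun i => |g i.1| / S with hc
  have hcpos : ∀ i, 0 < c i := fun i => div_pos (abs_pos.2 (hgne i.1 i.2)) hSpos
  have hcsum : ∑ i, c i = 1 := by
    rw [hc]
    simp only
    rw [← Finset.sum_div, ← hS, div_self hSpos.ne']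
  have hcW : ∑ i, c i • W i = 0 := by
    have h1 : ∀ i : κ, c i • W i = S⁻¹ • (g i.1 • w i.1) := by
      intro i
      simp only [hc, hW]
      by_cases h : 0 < g i.1
      · rw [if_pos (decide_eq_true h), abs_of_pos h, smul_smul, div_eq_inv_mul]
      · have h2 : g i.1 < 0 := lt_of_le_of_ne (not_lt.1 h) (hgne i.1 i.2)
        rw [if_neg (by simpa using h), abs_of_neg h2, smul_smul, smul_neg, ← neg_smul,
          div_eq_inv_mul]
        congr 1
        ring
    rw [Finset.sum_congr rfl fun i _ => h1 i, ← Finset.smul_sum]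
    have h2 : ∑ i : κ, g i.1 • w i.1 = ∑ i ∈ s, g i • w i :=
      Finset.sum_coe_sort s (fun i => g i • w i)
    rw [h2, hg, smul_zero]
  have hEne : ∀ i, E i ≠ 0 := by
    intro i h
    have h3 := hA2.norm i
    change ‖E i‖ = 1 at h3
    rw [h, norm_zero] at h3
    exact zero_ne_one h3
  -- the zero
  have hx0 : ∑ i, ((Real.sqrt (c i) : ℝ) : ℂ) • E i ≠ 0 := by
    intro h
    have h1 : inner ℂ (E ⟨i₀, hi₀⟩) (∑ i, ((Real.sqrt (c i) : ℝ) : ℂ) • E i) = (0 : ℂ) := by
      rw [h, inner_zero_right]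
    rw [inner_sum, Finset.sum_eq_single ⟨i₀, hi₀⟩] at h1
    · have hn : ‖E ⟨i₀, hi₀⟩‖ = 1 := hA2.norm ⟨i₀, hi₀⟩
      rw [inner_smul_right, inner_self_eq_norm_sq_to_K, hn] at h1
      have h2 : Real.sqrt (c ⟨i₀, hi₀⟩) = 0 := by
        have h3 : ((Real.sqrt (c ⟨i₀, hi₀⟩) : ℝ) : ℂ) = 0 := by simpa using h1
        exact_mod_cast h3
      exact (Real.sqrt_pos.2 (hcpos ⟨i₀, hi₀⟩)).ne' h2
    · intro j _ hj
      rw [inner_smul_right, LID_orth hJ hk ht hwt hWTO hA2 _ _ (Ne.symm hj), mul_zero]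
    · intro h
      exact absurd (Finset.mem_univ _) h
  have hM := hZER V J k t hJ hk ht hWTD hWTO hRTD hRTZ κ W E c hA2 hcpos hcW
  obtain ⟨h1, h2⟩ := hBAR V J k t hJ hk ht hfree hWTD hEXP hLIN κ W E c (fun i => hA2.mem i)
    hEne hcpos hcsum hcW (by omega)
    (by
      have h3 : Fintype.card κ = s.card := Fintype.card_coe s
      rw [h3]
      exact hcard) hx0 hM
  have h3 : ∑ _i : κ, (1 / 2 : ℝ) ≤ ∑ i, c i := Finset.sum_le_sum fun i _ => h2 i
  rw [hcsum, Finset.sum_const, Finset.card_univ, h1, nsmul_eq_mul] at h3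
  have h4 : (2 : ℝ) ≤ finrank ℝ t := by exact_mod_cast hr
  push_cast at h3
  linarith

end MPa8bd83
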