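/-
MP_a8bd83_gt, block LIN (helper87): no line of `t` fixes a zero.
-/
import Pool.Agent.Work.MP_a8bd83_qk.Interface

set_option autoImplicit false

namespace MPa8bd83

open Module

theorem LIN_real {a : ℝ} (h : ∀ s : ℝ, ∃ n : ℤ, s * a = n * Real.pi) : a = 0 := by
  by_contra ha
  obtain ⟨n, hn⟩ := h (Real.pi / (2 * a))
  have h1 : Real.pi / (2 * a) * a = Real.pi / 2 := by
    field_simp
  rw [h1] at hn
  have h2 : (n : ℝ) = 1 / 2 := by
    refine mul_right_cancel₀ Real.pi_ne_zero ?_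
    rw [← hn]
    ring
  have h3 : (2 * n : ℤ) = 1 := by
    have : ((2 * n : ℤ) : ℝ) = 1 := by
      push_cast
      rw [h2]
      norm_num
    exact_mod_cast this
  omega

theorem LIN : Stmt_LIN := by
  intro V _ _ _ J k t hJ hk ht hfree hWTD hEXP x hx hzero η hη
  have hsk : ∀ ξ ∈ t, ∀ x y : V, inner ℂ (ξ x) y = - inner ℂ x (ξ y) := fun ξ hξ =>
    (hk.sp ξ (ht.le hξ)).skew
  have key : ∀ s : ℝ, NormedSpace.exp ((s • η : t) : V →L[ℂ] V) = 1 ∨
      NormedSpace.exp ((s • η : t) : V →L[ℂ] V) = -1 := by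
    intro s
    obtain ⟨c, hc⟩ := hη s
    refine hfree x hx hzero _ (ht.le (s • η).2) ?_
    rw [hc]
    exact Submodule.smul_mem _ _ (Submodule.subset_span (by simp))
  have hw0 : ∀ w : Dual ℝ t, IsWt t w → w η = 0 := by
    intro w hw
    refine LIN_real fun s => ?_
    obtain ⟨n, hn⟩ := (hEXP V t).2 (s • η) (key s) w hw
    refine ⟨n, ?_⟩
    rw [← hn, map_smul, smul_eq_mul]
  have hker : ∀ w : Dual ℝ t, Wt t w ≤ LinearMap.ker ((η : V →L[ℂ] V) : V →ₗ[ℂ] V) := by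
    intro w v hv
    rw [LinearMap.mem_ker]
    by_cases h0 : IsWt t w
    · have h1 : (η : V →L[ℂ] V) v = ((w η : ℂ) * Complex.I) • v := hv η
      change (η : V →L[ℂ] V) v = 0
      rw [h1, hw0 w h0]
      simp
    · unfold IsWt at h0
      push Not at h0
      rw [h0] at hv
      rw [(Submodule.mem_bot ℂ).1 hv]
      simp
  have htop : (⊤ : Submodule ℂ V) ≤ LinearMap.ker ((η : V →L[ℂ] V) : V →ₗ[ℂ] V) := by
    rw [← (hWTD V t hsk ht.comm).1]
    exact iSup_le hker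
  apply Subtype.ext
  ext v
  exact LinearMap.mem_ker.1 (htop (Submodule.mem_top : v ∈ ⊤))

end MPa8bd83
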