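/-
MP_a8bd83_gt, block MIN (helper25): a real space of quaternionic skew-Hermitian operators of small
dimension has a common isotropic vector.
-/
import Pool.Agent.Work.MP_a8bd83_qk.Interface3

set_option autoImplicit false

namespace MPa8bd83

open Module

section MINsec

variable {V : Type} [NormedAddCommGroup V] [InnerProductSpace ℂ V]

theorem MIN_sub {J : V → V} (hJ : IsQuatStr J) (x y : V) : J (x - y) = J x - J y := by
  have h1 := hJ.add (x - y) y
  rw [sub_add_cancel] at h1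
  rw [h1, add_sub_cancel_right]

theorem MIN_norm {J : V → V} (hJ : IsQuatStr J) (x : V) : ‖J x‖ = ‖x‖ := by
  rw [@norm_eq_sqrt_re_inner ℂ, @norm_eq_sqrt_re_inner ℂ, hJ.inner]

theorem MIN_cont {J : V → V} (hJ : IsQuatStr J) : Continuous J := by
  apply Isometry.continuous
  apply Isometry.of_dist_eq
  intro x y
  rw [dist_eq_norm, dist_eq_norm, ← MIN_sub hJ, MIN_norm hJ]

theorem MIN_anti {J : V → V} (hJ : IsQuatStr J) (a b : V) :
    inner ℂ (J a) b = - inner ℂ (J b) a := by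
  have h := hJ.inner a (J b)
  rw [hJ.sq, inner_neg_right] at h
  rw [← h, neg_neg]

noncomputable def MIN_h (ξ : V →L[ℂ] V) (x : V) : ℂ := inner ℂ x (ξ x)

noncomputable def MIN_q (J : V → V) (ξ : V →L[ℂ] V) (x : V) : ℂ := inner ℂ (J x) (ξ x)

theorem MIN_h_I (ξ : V →L[ℂ] V) (v : V) : MIN_h ξ (Complex.I • v) = MIN_h ξ v := by
  unfold MIN_h
  rw [map_smul, inner_smul_left, inner_smul_right, Complex.conj_I, ← mul_assoc, neg_mul,
    Complex.I_mul_I, neg_neg, one_mul]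

theorem MIN_h_J {J : V → V} (hJ : IsQuatStr J) {ξ : V →L[ℂ] V} (hξ : IsSp J ξ) (v : V) :
    MIN_h ξ (J v) = - MIN_h ξ v := by
  unfold MIN_h
  rw [hξ.comm, hJ.inner, hξ.skew]

theorem MIN_q_I {J : V → V} (hJ : IsQuatStr J) (ξ : V →L[ℂ] V) (v : V) :
    MIN_q J ξ (Complex.I • v) = - MIN_q J ξ v := by
  unfold MIN_q
  rw [hJ.smul, map_smul, inner_smul_left, inner_smul_right, Complex.conj_conj, ← mul_assoc,
    Complex.I_mul_I, neg_mul, one_mul]

theorem MIN_q_J {J : V → V} (hJ : IsQuatStr J) {ξ : V →L[ℂ] V} (hξ : IsSp J ξ) (v : V) :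
    MIN_q J ξ (J v) = (starRingEnd ℂ) (MIN_q J ξ v) := by
  unfold MIN_q
  rw [hξ.comm, hJ.sq, inner_neg_left, ← inner_conj_symm v (J (ξ v)), MIN_anti hJ (ξ v) v,
    map_neg, neg_neg]

theorem MIN_h_r (ξ : V →L[ℂ] V) (r : ℝ) (v : V) :
    MIN_h ξ ((r : ℂ) • v) = ((r ^ 2 : ℝ) : ℂ) * MIN_h ξ v := by
  unfold MIN_h
  rw [map_smul, inner_smul_left, inner_smul_right, Complex.conj_ofReal]
  push_cast
  ring

theorem MIN_q_r {J : V → V} (hJ : IsQuatStr J) (ξ : V →L[ℂ] V) (r : ℝ) (v : V) :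
    MIN_q J ξ ((r : ℂ) • v) = ((r ^ 2 : ℝ) : ℂ) * MIN_q J ξ v := by
  unfold MIN_q
  rw [hJ.smul, map_smul, inner_smul_left, inner_smul_right, Complex.conj_conj]
  push_cast
  ring

noncomputable def MIN_f {n : ℕ} (J : V → V) (ξ : Fin n → V →L[ℂ] V) (x : V) : ℝ :=
  ∑ j, (Complex.normSq (MIN_h (ξ j) x) + Complex.normSq (MIN_q J (ξ j) x))

noncomputable def MIN_Q {n : ℕ} (J : V → V) (ξ : Fin n → V →L[ℂ] V) (x v : V) : ℝ :=
  ∑ j, ((MIN_h (ξ j) x * (starRingEnd ℂ) (MIN_h (ξ j) v)).re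
    + (MIN_q J (ξ j) x * (starRingEnd ℂ) (MIN_q J (ξ j) v)).re)

theorem MIN_f_r {n : ℕ} {J : V → V} (hJ : IsQuatStr J) (ξ : Fin n → V →L[ℂ] V) (r : ℝ) (v : V) :
    MIN_f J ξ ((r : ℂ) • v) = r ^ 4 * MIN_f J ξ v := by
  unfold MIN_f
  rw [Finset.mul_sum]
  apply Finset.sum_congr rfl
  intro j _
  rw [MIN_h_r, MIN_q_r hJ, Complex.normSq_mul, Complex.normSq_mul, Complex.normSq_ofReal]
  ring

theorem MIN_f_cont {n : ℕ} {J : V → V} (hJ : IsQuatStr J) (ξ : Fin n → V →L[ℂ] V) :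
    Continuous (MIN_f J ξ) := by
  unfold MIN_f
  apply continuous_finset_sum
  intro j _
  apply Continuous.add
  · apply Complex.continuous_normSq.comp
    unfold MIN_h
    exact continuous_id.inner (ξ j).continuous
  · apply Complex.continuous_normSq.comp
    unfold MIN_q
    exact (MIN_cont hJ).inner (ξ j).continuous

/-- The orthogonality conditions. -/
def MIN_W {n : ℕ} (J : V → V) (ξ : Fin n → V →L[ℂ] V) (x v : V) : Prop :=
  ∀ j, inner ℂ (ξ j x) v = 0 ∧ inner ℂ (J (ξ j x)) v = 0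

theorem MIN_W_I {n : ℕ} {J : V → V} {ξ : Fin n → V →L[ℂ] V} {x v : V} (hv : MIN_W J ξ x v) :
    MIN_W J ξ x (Complex.I • v) := by
  intro j
  rw [inner_smul_right, inner_smul_right, (hv j).1, (hv j).2, mul_zero]
  exact ⟨rfl, rfl⟩

theorem MIN_W_J {n : ℕ} {J : V → V} (hJ : IsQuatStr J) {ξ : Fin n → V →L[ℂ] V} {x v : V}
    (hv : MIN_W J ξ x v) : MIN_W J ξ x (J v) := by
  intro j
  constructor
  · rw [← inner_conj_symm, MIN_anti hJ, (hv j).2, neg_zero, map_zero]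
  · rw [hJ.inner, ← inner_conj_symm, (hv j).1, map_zero]

theorem MIN_exp_h {J : V → V} {ξ : V →L[ℂ] V} (hξ : IsSp J ξ) {x v : V}
    (h1 : inner ℂ (ξ x) v = 0) (s : ℝ) :
    MIN_h ξ (x + (s : ℂ) • v) = MIN_h ξ x + ((s ^ 2 : ℝ) : ℂ) * MIN_h ξ v := by
  have h2 : inner ℂ v (ξ x) = 0 := by rw [← inner_conj_symm, h1, map_zero]
  have h3 : inner ℂ x (ξ v) = 0 := by
    have := hξ.skew x v
    rw [h1] at this
    exact neg_eq_zero.mp this.symm
  unfold MIN_h
  rw [map_add, map_smul, inner_add_left, inner_add_right, inner_add_right, inner_smul_left,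
    inner_smul_left, inner_smul_right, inner_smul_right, Complex.conj_ofReal, h2, h3]
  push_cast
  ring

theorem MIN_exp_q {J : V → V} (hJ : IsQuatStr J) {ξ : V →L[ℂ] V} (hξ : IsSp J ξ) {x v : V}
    (h1 : inner ℂ (J (ξ x)) v = 0) (s : ℝ) :
    MIN_q J ξ (x + (s : ℂ) • v) = MIN_q J ξ x + ((s ^ 2 : ℝ) : ℂ) * MIN_q J ξ v := by
  have h2 : inner ℂ (J v) (ξ x) = 0 := by rw [MIN_anti hJ, h1, neg_zero]
  have h3 : inner ℂ (J x) (ξ v) = 0 := by
    have := hξ.skew (J x) v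
    rw [hξ.comm, h1] at this
    exact neg_eq_zero.mp this.symm
  unfold MIN_q
  rw [hJ.add, hJ.smul, map_add, map_smul, inner_add_left, inner_add_right, inner_add_right,
    inner_smul_left, inner_smul_left, inner_smul_right, inner_smul_right, Complex.conj_conj, h2, h3]
  push_cast
  ring

theorem MIN_f_exp {n : ℕ} {J : V → V} (hJ : IsQuatStr J) {ξ : Fin n → V →L[ℂ] V}
    (hξ : ∀ j, IsSp J (ξ j)) {x v : V} (hv : MIN_W J ξ x v) (s : ℝ) :
    MIN_f J ξ (x + (s : ℂ) • v) = MIN_f J ξ x + 2 * s ^ 2 * MIN_Q J ξ x v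
      + s ^ 4 * MIN_f J ξ v := by
  unfold MIN_f MIN_Q
  rw [Finset.mul_sum, Finset.mul_sum, ← Finset.sum_add_distrib, ← Finset.sum_add_distrib]
  apply Finset.sum_congr rfl
  intro j _
  have e1 : (MIN_h (ξ j) x * (starRingEnd ℂ) (((s ^ 2 : ℝ) : ℂ) * MIN_h (ξ j) v)).re
      = s ^ 2 * (MIN_h (ξ j) x * (starRingEnd ℂ) (MIN_h (ξ j) v)).re := by
    rw [map_mul, Complex.conj_ofReal, ← Complex.re_ofReal_mul]
    congr 1
    ring
  have e2 : (MIN_q J (ξ j) x * (starRingEnd ℂ) (((s ^ 2 : ℝ) : ℂ) * MIN_q J (ξ j) v)).re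
      = s ^ 2 * (MIN_q J (ξ j) x * (starRingEnd ℂ) (MIN_q J (ξ j) v)).re := by
    rw [map_mul, Complex.conj_ofReal, ← Complex.re_ofReal_mul]
    congr 1
    ring
  rw [MIN_exp_h (hξ j) (hv j).1, MIN_exp_q hJ (hξ j) (hv j).2, Complex.normSq_add,
    Complex.normSq_add, e1, e2, Complex.normSq_mul, Complex.normSq_mul, Complex.normSq_ofReal]
  ring

theorem MIN_four {n : ℕ} {J : V → V} (hJ : IsQuatStr J) {ξ : Fin n → V →L[ℂ] V}
    (hξ : ∀ j, IsSp J (ξ j)) (x v : V) :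
    MIN_Q J ξ x v + MIN_Q J ξ x (Complex.I • v) + MIN_Q J ξ x (J v)
      + MIN_Q J ξ x (Complex.I • J v) = 0 := by
  unfold MIN_Q
  rw [← Finset.sum_add_distrib, ← Finset.sum_add_distrib, ← Finset.sum_add_distrib]
  apply Finset.sum_eq_zero
  intro j _
  rw [MIN_h_I, MIN_h_I, MIN_h_J hJ (hξ j), MIN_q_I hJ, MIN_q_I hJ, MIN_q_J hJ (hξ j)]
  simp only [map_neg, mul_neg, Complex.neg_re]
  ring

/-- The real quadratic fact. -/
theorem MIN_real (c d : ℝ) (h : ∀ s : ℝ, 0 ≤ c * s ^ 2 + d * s ^ 4) : 0 ≤ c := by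
  by_contra hc
  push Not at hc
  have hd : 0 ≤ |d| := abs_nonneg d
  have hpos : 0 < -c / (2 * (|d| + 1)) := by
    apply div_pos
    · linarith
    · positivity
  have h1 := h (Real.sqrt (-c / (2 * (|d| + 1))))
  have h2 : Real.sqrt (-c / (2 * (|d| + 1))) ^ 2 = -c / (2 * (|d| + 1)) := Real.sq_sqrt hpos.le
  have h4 : Real.sqrt (-c / (2 * (|d| + 1))) ^ 4 = (-c / (2 * (|d| + 1))) ^ 2 := by
    calc Real.sqrt (-c / (2 * (|d| + 1))) ^ 4 = (Real.sqrt (-c / (2 * (|d| + 1))) ^ 2) ^ 2 := by ring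
      _ = _ := by rw [h2]
  rw [h2, h4] at h1
  have h5 : (-c / (2 * (|d| + 1))) * (2 * (|d| + 1)) = -c := by
    field_simp
  set t := -c / (2 * (|d| + 1)) with ht
  have h6 : 0 ≤ c + d * t := by
    have h7 : 0 ≤ t * (c + d * t) := by nlinarith
    exact nonneg_of_mul_nonneg_right h7 hpos |> fun h => h
  have h8 : d * t ≤ |d| * t := mul_le_mul_of_nonneg_right (le_abs_self d) hpos.le
  nlinarith

end MINsec

theorem MIN_core (V : Type) [NormedAddCommGroup V] [InnerProductSpace ℂ V] [FiniteDimensional ℂ V]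
    (J : V → V) (hJ : IsQuatStr J) (n : ℕ) (ξ : Fin n → V →L[ℂ] V) (hξ : ∀ j, IsSp J (ξ j))
    (hn : 2 * n < finrank ℂ V) :
    ∃ x : V, x ≠ 0 ∧ ∀ j, inner ℂ x (ξ j x) = 0 ∧ inner ℂ (J x) (ξ j x) = 0 := by
  have : ProperSpace V := FiniteDimensional.proper ℂ V
  have hVpos : 0 < finrank ℂ V := by omega
  have : Nontrivial V := Module.nontrivial_of_finrank_pos hVpos
  obtain ⟨u₀, hu₀⟩ := exists_ne (0 : V)
  have hnorm : ∀ y : V, y ≠ 0 → ‖((‖y‖⁻¹ : ℝ) : ℂ) • y‖ = 1 := by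
    intro y hy
    rw [norm_smul, Complex.norm_real, norm_inv, norm_norm]
    exact inv_mul_cancel₀ (norm_ne_zero_iff.mpr hy)
  obtain ⟨x, hx, hmin⟩ := (isCompact_sphere (0 : V) 1).exists_isMinOn
    ⟨((‖u₀‖⁻¹ : ℝ) : ℂ) • u₀, by simpa using hnorm u₀ hu₀⟩ (MIN_f_cont hJ ξ).continuousOn
  have hx1 : ‖x‖ = 1 := by simpa using hx
  have hx0 : x ≠ 0 := by
    intro h0
    rw [h0, norm_zero] at hx1
    exact zero_ne_one hx1
  set m := MIN_f J ξ x with hm
  have hfnn : ∀ y, 0 ≤ MIN_f J ξ y := by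
    intro y
    unfold MIN_f
    apply Finset.sum_nonneg
    intro j _
    exact add_nonneg (Complex.normSq_nonneg _) (Complex.normSq_nonneg _)
  have hfle : ∀ y : V, m * (‖y‖ ^ 2) ^ 2 ≤ MIN_f J ξ y := by
    intro y
    by_cases hy : y = 0
    · rw [hy, norm_zero]
      have := hfnn 0
      simpa using this
    · have h1 := hmin (show ((‖y‖⁻¹ : ℝ) : ℂ) • y ∈ Metric.sphere (0 : V) 1 by
        simpa using hnorm y hy)
      have h2 : m ≤ MIN_f J ξ (((‖y‖⁻¹ : ℝ) : ℂ) • y) := h1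
      rw [MIN_f_r hJ] at h2
      have hyp : 0 < ‖y‖ := norm_pos_iff.mpr hy
      have h3 : m * (‖y‖ ^ 2) ^ 2 ≤ (‖y‖⁻¹ ^ 4 * MIN_f J ξ y) * (‖y‖ ^ 2) ^ 2 :=
        mul_le_mul_of_nonneg_right h2 (by positivity)
      have h4 : (‖y‖⁻¹ ^ 4 * MIN_f J ξ y) * (‖y‖ ^ 2) ^ 2 = MIN_f J ξ y := by
        field_simp
      linarith
  rcases (hfnn x).lt_or_eq with hpos | hzero
  · exfalso
    -- the kernel
    let T : V →ₗ[ℂ] (Fin n ⊕ Fin n → ℂ) := LinearMap.pi (fun k =>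
      (innerSL ℂ (Sum.elim (fun j => ξ j x) (fun j => J (ξ j x)) k)).toLinearMap)
    have hT : finrank ℂ (Fin n ⊕ Fin n → ℂ) < finrank ℂ V := by
      rw [Module.finrank_pi, Fintype.card_sum, Fintype.card_fin]
      omega
    have hker := LinearMap.ker_ne_bot_of_finrank_lt (f := T) hT
    obtain ⟨v, hv, hv0⟩ := (Submodule.ne_bot_iff _).mp hker
    have hW : MIN_W J ξ x v := by
      intro j
      have h1 := LinearMap.mem_ker.mp hv
      have h2 := congrFun h1 (Sum.inl j)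
      have h3 := congrFun h1 (Sum.inr j)
      simp only [T, LinearMap.pi_apply, Sum.elim_inl, Sum.elim_inr, Pi.zero_apply,
        ContinuousLinearMap.coe_coe, innerSL_apply_apply] at h2 h3
      exact ⟨h2, h3⟩
    have key : ∀ w : V, MIN_W J ξ x w → m * ‖w‖ ^ 2 ≤ MIN_Q J ξ x w := by
      intro w hw
      have hs : ∀ s : ℝ, m * (1 + 2 * (s * (inner ℂ x w).re) + s ^ 2 * ‖w‖ ^ 2) ^ 2
          ≤ m + 2 * s ^ 2 * MIN_Q J ξ x w + s ^ 4 * MIN_f J ξ w := by
        intro s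
        have h1 := hfle (x + (s : ℂ) • w)
        rw [MIN_f_exp hJ hξ hw, ← hm, @norm_add_sq ℂ, hx1, inner_smul_right, norm_smul,
          Complex.norm_real, mul_pow, Real.norm_eq_abs, sq_abs] at h1
        have h2 : RCLike.re ((s : ℂ) * inner ℂ x w) = s * (inner ℂ x w).re := by
          show ((s : ℂ) * inner ℂ x w).re = _
          rw [Complex.re_ofReal_mul]
        rw [h2, one_pow] at h1
        exact h1
      have h3 : 0 ≤ 2 * MIN_Q J ξ x w - m * (4 * (inner ℂ x w).re ^ 2 + 2 * ‖w‖ ^ 2) := by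
        apply MIN_real _ (MIN_f J ξ w - m * (‖w‖ ^ 2) ^ 2)
        intro s
        have ha := hs s
        have hb := hs (-s)
        nlinarith
      have h4 : 0 ≤ m * (inner ℂ x w).re ^ 2 := mul_nonneg (hfnn x) (sq_nonneg _)
      nlinarith
    have k1 := key v hW
    have k2 := key _ (MIN_W_I hW)
    have k3 := key _ (MIN_W_J hJ hW)
    have k4 := key _ (MIN_W_I (MIN_W_J hJ hW))
    have n2 : ‖Complex.I • v‖ = ‖v‖ := by rw [norm_smul, Complex.norm_I, one_mul]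
    have n4 : ‖Complex.I • J v‖ = ‖v‖ := by rw [norm_smul, Complex.norm_I, one_mul, MIN_norm hJ]
    rw [n2] at k2
    rw [MIN_norm hJ] at k3
    rw [n4] at k4
    have h4 := MIN_four hJ hξ x v
    have hvp : 0 < m * ‖v‖ ^ 2 := mul_pos hpos (pow_pos (norm_pos_iff.mpr hv0) 2)
    linarith
  · refine ⟨x, hx0, ?_⟩
    intro j
    have h1 : ∀ j ∈ Finset.univ, Complex.normSq (MIN_h (ξ j) x)
        + Complex.normSq (MIN_q J (ξ j) x) = 0 := by
      apply (Finset.sum_eq_zero_iff_of_nonneg _).mp hzero.symm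
      intro j _
      exact add_nonneg (Complex.normSq_nonneg _) (Complex.normSq_nonneg _)
    have h2 := h1 j (Finset.mem_univ j)
    have h3 : Complex.normSq (MIN_h (ξ j) x) = 0 := by
      have := Complex.normSq_nonneg (MIN_h (ξ j) x)
      have := Complex.normSq_nonneg (MIN_q J (ξ j) x)
      linarith
    have h4 : Complex.normSq (MIN_q J (ξ j) x) = 0 := by
      have := Complex.normSq_nonneg (MIN_h (ξ j) x)
      have := Complex.normSq_nonneg (MIN_q J (ξ j) x)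
      linarith
    exact ⟨Complex.normSq_eq_zero.mp h3, Complex.normSq_eq_zero.mp h4⟩

theorem p_MIN : Stmt_MIN := by
  intro V _ _ _ J hJ L hL hlt
  have : Module.Finite ℝ (V →L[ℂ] V) := Module.Finite.trans ℂ (V →L[ℂ] V)
  have : Module.Finite ℝ L := inferInstance
  let b := Module.finBasis ℝ L
  obtain ⟨x, hx0, hx⟩ := MIN_core V J hJ (finrank ℝ L) (fun j => (b j : V →L[ℂ] V))
    (fun j => hL _ (b j).2) hlt
  refine ⟨x, hx0, ?_⟩
  intro η hη
  have h1 := b.sum_repr ⟨η, hη⟩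
  have h2 : η = ∑ i, (b.repr ⟨η, hη⟩ i) • (b i : V →L[ℂ] V) := by
    have h5 := congrArg (Submodule.subtype L) h1
    rw [map_sum] at h5
    exact h5.symm
  have h3 : η x = ∑ i, ((b.repr ⟨η, hη⟩ i : ℝ) : ℂ) • ((b i : V →L[ℂ] V) x) := by
    conv_lhs => rw [h2]
    rw [ContinuousLinearMap.sum_apply]
    apply Finset.sum_congr rfl
    intro i _
    rfl
  constructor
  · rw [h3, inner_sum]
    apply Finset.sum_eq_zero
    intro i _
    rw [inner_smul_right, (hx i).1, mul_zero]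
  · rw [h3, inner_sum]
    apply Finset.sum_eq_zero
    intro i _
    rw [inner_smul_right, (hx i).2, mul_zero]

end MPa8bd83
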