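/-
MP_a8bd83_gt, block MXA (helper18): maximal abelian subalgebras exist.
-/
import Pool.Agent.Work.MP_a8bd83_qk.Interface

set_option autoImplicit false

namespace MPa8bd83

open Module

theorem MXA : Stmt_MXA := by
  intro V _ _ _ k
  have : FiniteDimensional ℂ (V →L[ℂ] V) := inferInstance
  have : FiniteDimensional ℝ (V →L[ℂ] V) := FiniteDimensional.complexToReal _
  have : IsNoetherian ℝ (V →L[ℂ] V) := inferInstance
  let P : Set (Submodule ℝ (V →L[ℂ] V)) :=
    {t | t ≤ k ∧ ∀ ξ ∈ t, ∀ η ∈ t, ξ * η = η * ξ}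
  have hP : P.Nonempty := by
    refine ⟨⊥, bot_le, ?_⟩
    intro ξ hξ η hη
    rw [Submodule.mem_bot] at hξ hη
    rw [hξ, hη]
  obtain ⟨t, ht, hmax⟩ := (wellFounded_gt (α := Submodule ℝ (V →L[ℂ] V))).has_min P hP
  refine ⟨t, ht.1, ht.2, ?_⟩
  intro η hη hc
  by_contra hn
  have hmem : t ⊔ Submodule.span ℝ {η} ∈ P := by
    refine ⟨sup_le ht.1 ?_, ?_⟩
    · rw [Submodule.span_le]
      intro x hx
      rw [Set.mem_singleton_iff] at hx
      rw [hx]
      exact hη
    · intro a ha b hb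
      rw [Submodule.mem_sup] at ha hb
      obtain ⟨a1, ha1, a2, ha2, rfl⟩ := ha
      obtain ⟨b1, hb1, b2, hb2, rfl⟩ := hb
      rw [Submodule.mem_span_singleton] at ha2 hb2
      obtain ⟨c, rfl⟩ := ha2
      obtain ⟨d, rfl⟩ := hb2
      have h1 := ht.2 a1 ha1 b1 hb1
      have h2 := hc a1 ha1
      have h3 := hc b1 hb1
      simp only [add_mul, mul_add, mul_smul_comm, smul_mul_assoc, h1, h2, h3, smul_add]
      rw [smul_comm c d (η * η)]
      abel
  apply hmax _ hmem
  refine lt_of_le_of_ne le_sup_left ?_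
  intro heq
  apply hn
  rw [heq]
  exact Submodule.mem_sup_right (Submodule.mem_span_singleton_self η)

end MPa8bd83
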