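/-
MP_a8bd83_gt, block NR1: normal form of k = ℝ η with eigenvalues ± a (helper88).
-/
import Pool.Agent.Work.MP_a8bd83_qk.Interface

namespace MPa8bd83

open Module

/-- The eigenspace of `η` for the eigenvalue `c`. -/
def NR1_E {V : Type} [NormedAddCommGroup V] [InnerProductSpace ℂ V] (η : V →L[ℂ] V) (c : ℂ) :
    Submodule ℂ V where
  carrier := {v | η v = c • v}
  add_mem' := by
    intro x y hx hy
    simp only [Set.mem_setOf_eq] at hx hy ⊢
    rw [map_add, hx, hy, smul_add]
  zero_mem' := by simp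
  smul_mem' := by
    intro r x hx
    simp only [Set.mem_setOf_eq] at hx ⊢
    rw [map_smul, hx, smul_comm]

theorem NR1_orth {V : Type} [NormedAddCommGroup V] [InnerProductSpace ℂ V] (J : V → V)
    (hJ : IsQuatStr J) {ι : Type} (e : ι → V) (he : Orthonormal ℂ e) :
    Orthonormal ℂ (fun i => J (e i)) := by
  classical
  rw [orthonormal_iff_ite] at he ⊢
  intro i j
  rw [hJ.inner, he j i]
  by_cases h : i = j
  · simp [h]
  · simp [h, Ne.symm h]

theorem NR1_le {V : Type} [NormedAddCommGroup V] [InnerProductSpace ℂ V]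
    [FiniteDimensional ℂ V] (J : V → V) (hJ : IsQuatStr J) (S T : Submodule ℂ V)
    (h : ∀ v ∈ S, J v ∈ T) : finrank ℂ S ≤ finrank ℂ T := by
  have hb := (stdOrthonormalBasis ℂ S).orthonormal
  have hb' : Orthonormal ℂ (fun i => ((stdOrthonormalBasis ℂ S i : S) : V)) :=
    hb.comp_linearIsometry S.subtypeₗᵢ
  have hl := (NR1_orth J hJ _ hb').linearIndependent
  have hl2 : LinearIndependent ℂ
      (fun i => (⟨J ((stdOrthonormalBasis ℂ S i : S) : V), h _ (SetLike.coe_mem _)⟩ : T)) := by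
    apply LinearIndependent.of_comp T.subtype
    exact hl
  have h3 := hl2.fintype_card_le_finrank
  simpa using h3

theorem NR1 : Stmt_NR1 := by
  intro V _ _ _ J k η N a hJ hU hdim ha hEV hev
  obtain ⟨_, hsp, _, hall⟩ := hU
  obtain ⟨h1, h2, h3, _, _⟩ := hEV V J η hJ hsp
  have hsup : NR1_E η ((a : ℂ) * Complex.I) ⊔ NR1_E η (((-a : ℝ) : ℂ) * Complex.I) = ⊤ := by
    rw [eq_top_iff]
    intro x _
    have hle : Submodule.span ℂ {v : V | ∃ a : ℝ, η v = ((a : ℂ) * Complex.I) • v}
        ≤ NR1_E η ((a : ℂ) * Complex.I) ⊔ NR1_E η (((-a : ℝ) : ℂ) * Complex.I) := by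
      rw [Submodule.span_le]
      rintro v ⟨b, hb⟩
      by_cases hv : v = 0
      · rw [hv]
        exact Submodule.zero_mem _
      · rcases hev b v hv hb with hba | hba
        · rw [hba] at hb
          exact Submodule.mem_sup_left hb
        · rw [hba] at hb
          exact Submodule.mem_sup_right hb
    exact hle (h1 x)
  have hinf : NR1_E η ((a : ℂ) * Complex.I) ⊓ NR1_E η (((-a : ℝ) : ℂ) * Complex.I) = ⊥ := by
    rw [Submodule.eq_bot_iff]
    rintro x ⟨hx1, hx2⟩
    have h0 : inner ℂ x x = (0 : ℂ) := h2 a (-a) x x (by linarith) hx1 hx2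
    exact inner_self_eq_zero.mp h0
  have hPQ : finrank ℂ (NR1_E η ((a : ℂ) * Complex.I))
      + finrank ℂ (NR1_E η (((-a : ℝ) : ℂ) * Complex.I)) = 2 * N := by
    have h := Submodule.finrank_sup_add_finrank_inf_eq (NR1_E η ((a : ℂ) * Complex.I))
      (NR1_E η (((-a : ℝ) : ℂ) * Complex.I))
    rw [hsup, hinf, finrank_top, finrank_bot] at h
    omega
  have hle1 : finrank ℂ (NR1_E η ((a : ℂ) * Complex.I))
      ≤ finrank ℂ (NR1_E η (((-a : ℝ) : ℂ) * Complex.I)) :=
    NR1_le J hJ _ _ (fun v hv => h3 a v hv)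
  have hle2 : finrank ℂ (NR1_E η (((-a : ℝ) : ℂ) * Complex.I))
      ≤ finrank ℂ (NR1_E η ((a : ℂ) * Complex.I)) := by
    refine NR1_le J hJ _ _ (fun v hv => ?_)
    have h := h3 (-a) v hv
    rw [neg_neg] at h
    exact h
  have hP : finrank ℂ (NR1_E η ((a : ℂ) * Complex.I)) = N := by omega
  let b := (stdOrthonormalBasis ℂ (NR1_E η ((a : ℂ) * Complex.I))).reindex (finCongr hP)
  have he : Orthonormal ℂ (fun i => ((b i : NR1_E η ((a : ℂ) * Complex.I)) : V)) :=
    b.orthonormal.comp_linearIsometry (NR1_E η ((a : ℂ) * Complex.I)).subtypeₗᵢ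
  have heP : ∀ i, η (b i : V) = ((a : ℂ) * Complex.I) • (b i : V) := fun i => (b i).2
  have heJ := NR1_orth J hJ _ he
  refine ⟨fun i => (b i : V), ?_, ?_⟩
  · constructor
    · rintro (i | i)
      · exact he.1 i
      · exact heJ.1 i
    · rintro (i | i) (j | j) hij
      · exact he.2 (fun h => hij (by rw [h]))
      · exact h2 a (-a) (b i : V) (J (b j : V)) (by linarith) (heP i) (h3 a (b j : V) (heP j))
      · exact h2 (-a) a (J (b i : V)) (b j : V) (by linarith) (h3 a (b i : V) (heP i)) (heP j)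
      · exact heJ.2 (fun h => hij (by rw [h]))
  · classical
    choose! c hc using hall
    refine ⟨fun ξ => c ξ * a, fun _ => 0, fun ξ hξ n => ?_⟩
    have h := congrArg (fun T : V →L[ℂ] V => T (b n : V)) (hc ξ hξ)
    simp only [ContinuousLinearMap.smul_apply] at h
    rw [h, heP, zero_smul, add_zero, ← Complex.coe_smul, smul_smul]
    congr 1
    push_cast
    ring

end MPa8bd83
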