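import Pool.Agent.Work.MP_a8bd83_qk.Interface

/-! # NR2: normal form for `Sp(1)` -/

namespace MPa8bd83

open Module

section

variable {V : Type} [NormedAddCommGroup V] [InnerProductSpace ℂ V]

/-- eigenspaces -/
def NR2_W (η : V →L[ℂ] V) (a : ℝ) : Submodule ℂ V where
  carrier := {v | η v = ((a : ℂ) * Complex.I) • v}
  add_mem' := by
    intro x y hx hy
    change η (x + y) = _
    change η x = _ at hx
    change η y = _ at hy
    rw [map_add, hx, hy, smul_add]
  zero_mem' := by
    change η 0 = _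
    rw [map_zero, smul_zero]
  smul_mem' := by
    intro c x hx
    change η (c • x) = _
    change η x = _ at hx
    rw [map_smul, hx, smul_comm]

theorem NR2_neg {J : V → V} (hJ : IsQuatStr J) (x : V) : J (-x) = -J x := by
  have h := hJ.smul (-1) x
  rw [neg_one_smul, map_neg, map_one, neg_one_smul] at h
  exact h

theorem NR2_real {J : V → V} (hJ : IsQuatStr J) (r : ℝ) (x : V) :
    J ((r : ℂ) • x) = (r : ℂ) • J x := by
  rw [hJ.smul, Complex.conj_ofReal]

theorem NR2_sum {J : V → V} (hJ : IsQuatStr J) {m : ℕ} (e : Fin m → V) (he : Orthonormal ℂ e)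
    (h0 : ∀ i j, inner ℂ (e i) (J (e j)) = 0) :
    Orthonormal ℂ (Sum.elim e (fun n => J (e n))) := by
  classical
  rw [orthonormal_iff_ite] at he ⊢
  rintro (i | i) (j | j)
  · simp only [Sum.elim_inl, he i j, Sum.inl.injEq]
  · simp only [Sum.elim_inl, Sum.elim_inr, h0 i j, reduceCtorEq, if_false]
  · simp only [Sum.elim_inl, Sum.elim_inr, reduceCtorEq, if_false]
    rw [← inner_conj_symm, h0 j i, map_zero]
  · simp only [Sum.elim_inr, hJ.inner, he j i, Sum.inr.injEq, eq_comm]

theorem NR2_cons {m : ℕ} (e : Fin m → V) (he : Orthonormal ℂ e) (u : V) (hu : ‖u‖ = 1)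
    (h0 : ∀ i, inner ℂ (e i) u = 0) : Orthonormal ℂ (Fin.cons u e : Fin (m + 1) → V) := by
  classical
  rw [orthonormal_iff_ite] at he ⊢
  intro i j
  refine Fin.cases ?_ (fun i => ?_) i <;> refine Fin.cases ?_ (fun j => ?_) j
  · rw [Fin.cons_zero, inner_self_eq_norm_sq_to_K, hu]
    simp
  · rw [Fin.cons_zero, Fin.cons_succ, ← inner_conj_symm, h0 j, map_zero, if_neg]
    exact (Fin.succ_ne_zero j).symm
  · rw [Fin.cons_zero, Fin.cons_succ, h0 i, if_neg (Fin.succ_ne_zero i)]
  · rw [Fin.cons_succ, Fin.cons_succ, he i j]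
    simp only [Fin.succ_inj]

theorem NR2_perp [FiniteDimensional ℂ V] {m N : ℕ} (hN : finrank ℂ V = 2 * N) (hm : m < N)
    (f : Fin m ⊕ Fin m → V) : ∃ x : V, x ≠ 0 ∧ ∀ i, inner ℂ (f i) x = 0 := by
  set K := Submodule.span ℂ (Set.range f) with hK
  have h1 : finrank ℂ K ≤ Fintype.card (Fin m ⊕ Fin m) := finrank_range_le_card f
  rw [Fintype.card_sum, Fintype.card_fin] at h1
  have h2 : K ≠ ⊤ := by
    intro h
    rw [h, finrank_top, hN] at h1
    omega
  have h3 : Kᗮ ≠ ⊥ := fun h => h2 (Submodule.orthogonal_eq_bot_iff.mp h)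
  obtain ⟨x, hx, hx0⟩ := Submodule.exists_mem_ne_zero_of_ne_bot h3
  refine ⟨x, hx0, fun i => ?_⟩
  have hi : f i ∈ K := Submodule.subset_span (Set.mem_range_self i)
  exact Submodule.inner_right_of_mem_orthogonal hi hx

end

theorem NR2 : Stmt_NR2 := by
  intro V _ _ _ _ J k η E N hJ hD hN hEV hSL hev
  have hSL' := hSL V J k η E hJ hD
  obtain ⟨hη, hsp, hE, hE0, hηE, hEE, hsym, hJE, hk⟩ := hD
  obtain ⟨e1, e2, e3, -, -⟩ := hEV V J η hJ hsp
  set E' := ContinuousLinearMap.adjoint E with hE'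
  -- the eigenspace of 1
  have f1 : ∀ v : V, v ∈ NR2_W η 1 → E v = 0 := by
    intro v hv
    by_contra h
    have hv0 : v ≠ 0 := by
      rintro rfl
      exact h (map_zero E)
    have h1 := (hSL' 1 v hv0 hv).2.1
    rcases hev _ _ h h1 with h2 | h2 <;> norm_num at h2
  have f2 : ∀ v : V, v ∈ NR2_W η 1 → E' v ∈ NR2_W η (-1) := by
    intro v hv
    by_cases hv0 : v = 0
    · rw [hv0, map_zero]
      exact Submodule.zero_mem _
    · have h1 := (hSL' 1 v hv0 hv).2.2.1
      change η (E' v) = _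
      rw [h1]
      norm_num
  have f3 : ∀ v : V, v ∈ NR2_W η 1 → E (E' v) = v := by
    intro v hv
    have h1 := congrArg (fun T : V →L[ℂ] V => T v) hEE
    change E (E' v) - E' (E v) = -(Complex.I • η v) at h1
    have h2 : η v = (((1 : ℝ) : ℂ) * Complex.I) • v := hv
    rw [f1 v hv, map_zero, sub_zero, h2, smul_smul] at h1
    rw [h1]
    simp
  have f4 : ∀ v : V, v ∈ NR2_W η 1 → J v ∈ NR2_W η (-1) := fun v hv => e3 1 v hv
  have f5 : ∀ v : V, v ∈ NR2_W η (-1) → J v ∈ NR2_W η 1 := by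
    intro v hv
    have h1 := e3 (-1) v hv
    rw [neg_neg] at h1
    exact h1
  have f6 : ∀ u v : V, u ∈ NR2_W η 1 → v ∈ NR2_W η (-1) → inner ℂ u v = 0 :=
    fun u v hu hv => e2 1 (-1) u v (by norm_num) hu hv
  -- the antilinear involution
  have t1 : ∀ v : V, v ∈ NR2_W η 1 → J (E' v) ∈ NR2_W η 1 := fun v hv => f5 _ (f2 v hv)
  have t2 : ∀ v : V, v ∈ NR2_W η 1 → J (E' (J (E' v))) = v := by
    intro v hv
    have h1 : J (E (E' v)) = -(E' (J (E' v))) := hJE (E' v)
    rw [f3 v hv] at h1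
    have h2 : E' (J (E' v)) = -(J v) := by
      rw [h1, neg_neg]
    rw [h2, NR2_neg hJ, hJ.sq, neg_neg]
  have t3 : ∀ u v : V, u ∈ NR2_W η 1 → v ∈ NR2_W η 1 →
      inner ℂ (J (E' u)) (J (E' v)) = inner ℂ v u := by
    intro u v hu hv
    rw [hJ.inner, ContinuousLinearMap.adjoint_inner_left, f3 u hu]
  -- induction
  have key : ∀ m : ℕ, m ≤ N → ∃ e : Fin m → V, (∀ n, e n ∈ NR2_W η 1) ∧
      (∀ n, J (E' (e n)) = e n) ∧ Orthonormal ℂ e := by
    intro m
    induction m with
    | zero =>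
      intro _
      exact ⟨fun n => n.elim0, fun n => n.elim0, fun n => n.elim0,
        ⟨fun n => n.elim0, fun n => n.elim0⟩⟩
    | succ m ih =>
      intro hm
      obtain ⟨e, he1, he2, he3⟩ := ih (by omega)
      obtain ⟨x, hx0, hx⟩ := NR2_perp hN (by omega) (Sum.elim e (fun n => J (e n)))
      have hx1 : ∀ n, inner ℂ (e n) x = 0 := fun n => hx (Sum.inl n)
      have hx2 : ∀ n, inner ℂ (J (e n)) x = 0 := fun n => hx (Sum.inr n)
      have hxs : x ∈ NR2_W η 1 ⊔ NR2_W η (-1) := by
        refine (Submodule.span_le.mpr ?_) (e1 x)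
        rintro v ⟨a, hv⟩
        by_cases hv0 : v = 0
        · rw [hv0]
          exact Submodule.zero_mem _
        · rcases hev a v hv0 hv with rfl | rfl
          · exact Submodule.mem_sup_left hv
          · exact Submodule.mem_sup_right hv
      obtain ⟨y, hy, z, hz, hyz⟩ := Submodule.mem_sup.mp hxs
      -- a nonzero vector of the eigenspace orthogonal to the `e n`
      have hv : ∃ v : V, v ≠ 0 ∧ v ∈ NR2_W η 1 ∧ ∀ n, inner ℂ (e n) v = 0 := by
        by_cases hy0 : y = 0
        · have hzx : z = x := by rw [← hyz, hy0, zero_add]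
          refine ⟨J z, ?_, f5 z hz, fun n => ?_⟩
          · intro h
            apply hx0
            have h1 := hJ.sq z
            rw [h] at h1
            have h2 : J 0 = 0 := by
              have := hJ.smul 0 0
              rwa [zero_smul, map_zero, zero_smul] at this
            rw [h2] at h1
            rw [← hzx]
            exact (neg_eq_zero.mp h1.symm)
          · have h1 : e n = -(J (J (e n))) := by rw [hJ.sq, neg_neg]
            rw [h1, inner_neg_left, hJ.inner, hzx, ← inner_conj_symm, hx2, map_zero, neg_zero]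
        · refine ⟨y, hy0, hy, fun n => ?_⟩
          have h1 := hx1 n
          rw [← hyz, inner_add_right, f6 _ _ (he1 n) hz, add_zero] at h1
          exact h1
      obtain ⟨v, hv0, hv1, hv2⟩ := hv
      have hτ : ∀ n, inner ℂ (e n) (J (E' v)) = 0 := by
        intro n
        rw [← he2 n, t3 _ _ (he1 n) hv1, ← inner_conj_symm, hv2, map_zero]
      -- a nonzero real vector
      have hw : ∃ w : V, w ≠ 0 ∧ w ∈ NR2_W η 1 ∧ J (E' w) = w ∧ ∀ n, inner ℂ (e n) w = 0 := by
        by_cases hs : v + J (E' v) = 0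
        · have hJv : J (E' v) = -v := (eq_neg_of_add_eq_zero_right hs)
          refine ⟨Complex.I • v, smul_ne_zero Complex.I_ne_zero hv0,
            Submodule.smul_mem _ _ hv1, ?_, fun n => ?_⟩
          · rw [map_smul, hJ.smul, hJv, Complex.conj_I, smul_neg, neg_smul, neg_neg]
          · rw [inner_smul_right, hv2, mul_zero]
        · refine ⟨v + J (E' v), hs, Submodule.add_mem _ hv1 (t1 v hv1), ?_, fun n => ?_⟩
          · rw [map_add, hJ.add, t2 v hv1, add_comm]
          · rw [inner_add_right, hv2, hτ, add_zero]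
      obtain ⟨w, hw0, hw1, hw2, hw3⟩ := hw
      have hnw : ‖w‖ ≠ 0 := norm_ne_zero_iff.mpr hw0
      refine ⟨Fin.cons (((‖w‖⁻¹ : ℝ) : ℂ) • w) e, fun n => ?_, fun n => ?_, ?_⟩
      · refine Fin.cases ?_ (fun n => ?_) n
        · rw [Fin.cons_zero]
          exact Submodule.smul_mem _ _ hw1
        · rw [Fin.cons_succ]
          exact he1 n
      · refine Fin.cases ?_ (fun n => ?_) n
        · rw [Fin.cons_zero, map_smul, NR2_real hJ, hw2]
        · rw [Fin.cons_succ]
          exact he2 n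
      · refine NR2_cons e he3 _ ?_ fun n => ?_
        · rw [norm_smul, Complex.norm_real, Real.norm_eq_abs, abs_inv, abs_norm,
            inv_mul_cancel₀ hnw]
        · rw [inner_smul_right, hw3, mul_zero]
  obtain ⟨e, he1, he2, he3⟩ := key N le_rfl
  have hJe : ∀ n, E' (e n) = -(J (e n)) := by
    intro n
    have h1 : J (J (E' (e n))) = J (e n) := by rw [he2 n]
    rw [hJ.sq] at h1
    rw [← h1, neg_neg]
  refine ⟨e, NR2_sum hJ e he3 fun i j => f6 _ _ (he1 i) (f4 _ (he1 j)), ?_⟩
  have hall : ∀ ξ : V →L[ℂ] V, ∃ (a : ℝ) (b : ℂ), ξ ∈ k → ∀ n,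
      ξ (e n) = ((a : ℂ) * Complex.I) • e n + b • J (e n) := by
    intro ξ
    by_cases hξ : ξ ∈ k
    · obtain ⟨a, b, c, h⟩ := hk ξ hξ
      refine ⟨a, -c, fun _ n => ?_⟩
      have h1 : η (e n) = (((1 : ℝ) : ℂ) * Complex.I) • e n := he1 n
      rw [h]
      change a • η (e n) + b • E (e n) + c • E' (e n) = _
      rw [f1 _ (he1 n), hJe n, h1, smul_zero, add_zero, smul_neg, neg_smul,
        ← Complex.coe_smul, smul_smul, Complex.ofReal_one, one_mul]
    · exact ⟨0, 0, fun h => absurd h hξ⟩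
  choose a b hab using hall
  exact ⟨a, b, fun ξ hξ n => hab ξ hξ n⟩

end MPa8bd83
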