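import Pool.Agent.Work.MP_a8bd83_qk.Interface3

set_option autoImplicit false

namespace MPa8bd83

open Module

theorem ODD_exp (n : ℤ) :
    Complex.exp ((((2 * n + 1) * Real.pi : ℝ) : ℂ) * Complex.I) = -1 := by
  have e : (((2 * n + 1) * Real.pi : ℝ) : ℂ) * Complex.I =
      (n : ℂ) * (2 * Real.pi * Complex.I) + Real.pi * Complex.I := by
    push_cast
    ring
  rw [e, Complex.exp_add, Complex.exp_int_mul_two_pi_mul_I, Complex.exp_pi_mul_I, one_mul]

theorem p_ODD (hEXP : Stmt_EXP) : Stmt_ODD := by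
  intro V _ _ _ J k t hF ξ α n hα hαξ
  obtain ⟨X, hX, hX0⟩ := Submodule.exists_mem_ne_zero_of_ne_bot hα.2
  -- a weight vector which is not killed by `X`
  obtain ⟨w, v, hv, hXv⟩ : ∃ w : Dual ℝ t, ∃ v ∈ Wt t w, X v ≠ 0 := by
    by_contra hcon
    push Not at hcon
    apply hX0
    have hle : (⨆ w, Wt t w) ≤ LinearMap.ker (X : V →ₗ[ℂ] V) :=
      iSup_le fun w v hv => LinearMap.mem_ker.2 (hcon w v hv)
    rw [hF.top] at hle
    ext v
    exact LinearMap.mem_ker.1 (hle (Submodule.mem_top : v ∈ ⊤))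
  have hv0 : v ≠ 0 := by
    intro h
    apply hXv
    rw [h, map_zero]
  have e1 := (hEXP V t).1 ξ w v hv
  have e2 := (hEXP V t).1 ξ (w + α) (X v) (hF.act w α X hX v hv)
  have key : ∀ ε : ℂ, ε ≠ 0 → NormedSpace.exp (ξ : V →L[ℂ] V) = ε • (1 : V →L[ℂ] V) → False := by
    intro ε hε h
    rw [h] at e1 e2
    have f1 : ε • v = Complex.exp ((w ξ : ℂ) * Complex.I) • v := e1
    have f2 : ε • X v = Complex.exp (((w + α) ξ : ℂ) * Complex.I) • X v := e2
    have g1 := smul_left_injective ℂ hv0 f1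
    have g2 := smul_left_injective ℂ hXv f2
    have e3 : (((w + α) ξ : ℝ) : ℂ) * Complex.I =
        (w ξ : ℂ) * Complex.I + (((2 * n + 1) * Real.pi : ℝ) : ℂ) * Complex.I := by
      rw [LinearMap.add_apply, hαξ]
      push_cast
      ring
    rw [e3, Complex.exp_add, ODD_exp, ← g1] at g2
    have g3 : ε + ε = 0 := by linear_combination g2
    have g4 : (2 : ℂ) * ε = 0 := by linear_combination g3
    rcases mul_eq_zero.1 g4 with h2 | h2
    · exact two_ne_zero h2
    · exact hε h2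
  refine ⟨fun h => key 1 one_ne_zero (by rw [h, one_smul]),
    fun h => key (-1) (neg_ne_zero.2 one_ne_zero) (by rw [h, neg_smul, one_smul])⟩

end MPa8bd83
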