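import Pool.Agent.Work.MP_a8bd83_qk.Interface

/-! Block ONE: root spaces are one dimensional (typed by helper68). -/

namespace MPa8bd83

open Module

section ONEaux

/-- The trace of a continuous operator, as a linear form. -/
noncomputable def oneTr (V : Type) [NormedAddCommGroup V] [InnerProductSpace ℂ V] :
    (V →L[ℂ] V) →ₗ[ℂ] ℂ :=
  (LinearMap.trace ℂ V) ∘ₗ (ContinuousLinearMap.coeLM ℂ)

variable {V : Type} [NormedAddCommGroup V] [InnerProductSpace ℂ V]

theorem oneTr_comm (X Y : V →L[ℂ] V) : oneTr V (X * Y) = oneTr V (Y * X) :=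
  LinearMap.trace_mul_comm ℂ (X : V →ₗ[ℂ] V) (Y : V →ₗ[ℂ] V)

variable [FiniteDimensional ℂ V]

/-- The square of the Hilbert-Schmidt norm. -/
noncomputable def oneNrm (X : V →L[ℂ] V) : ℝ := ∑ i, ‖X (stdOrthonormalBasis ℂ V i)‖ ^ 2

theorem oneNrm_nonneg (X : V →L[ℂ] V) : 0 ≤ oneNrm X :=
  Finset.sum_nonneg fun _ _ => sq_nonneg _

theorem oneNrm_eq_zero {X : V →L[ℂ] V} (h : oneNrm X = 0) : X = 0 := by
  have h1 : ∀ i, X (stdOrthonormalBasis ℂ V i) = 0 := by
    intro i
    have h2 := (Finset.sum_eq_zero_iff_of_nonneg (fun j _ => sq_nonneg _)).1 h i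
      (Finset.mem_univ i)
    exact norm_eq_zero.1 (pow_eq_zero_iff (two_ne_zero)|>.1 h2)
  apply ContinuousLinearMap.coe_injective
  apply (stdOrthonormalBasis ℂ V).toBasis.ext
  intro i
  rw [OrthonormalBasis.coe_toBasis]
  exact h1 i

theorem oneTr_adj [CompleteSpace V] (X : V →L[ℂ] V) :
    oneTr V (ContinuousLinearMap.adjoint X * X) = (oneNrm X : ℂ) := by
  have h := LinearMap.trace_eq_sum_inner
    ((ContinuousLinearMap.adjoint X * X : V →L[ℂ] V) : V →ₗ[ℂ] V) (stdOrthonormalBasis ℂ V)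
  refine h.trans ?_
  unfold oneNrm
  rw [Complex.ofReal_sum]
  refine Finset.sum_congr rfl fun i _ => ?_
  have h1 : (((ContinuousLinearMap.adjoint X * X : V →L[ℂ] V) : V →ₗ[ℂ] V)
      (stdOrthonormalBasis ℂ V i)) =
      ContinuousLinearMap.adjoint X (X (stdOrthonormalBasis ℂ V i)) := rfl
  rw [h1, ContinuousLinearMap.adjoint_inner_right, inner_self_eq_norm_sq_to_K]
  norm_cast

omit [FiniteDimensional ℂ V] in
/-- The complexification is closed under brackets. -/
theorem one_kC_lie {J : V → V} {k : Submodule ℝ (V →L[ℂ] V)} (hk : IsLieSub J k)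
    {X Y : V →L[ℂ] V} (hX : X ∈ kC k) (hY : Y ∈ kC k) : X * Y - Y * X ∈ kC k := by
  have h1 : ∀ Z ∈ k, ∀ W ∈ kC k, Z * W - W * Z ∈ kC k := by
    intro Z hZ W hW
    unfold kC at hW
    induction hW using Submodule.span_induction with
    | mem x hx => exact Submodule.subset_span (hk.lie Z hZ x hx)
    | zero => simp
    | add x y _ _ hx hy =>
      have e : Z * (x + y) - (x + y) * Z = (Z * x - x * Z) + (Z * y - y * Z) := by
        rw [mul_add, add_mul]; abel
      rw [e]
      exact add_mem hx hy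
    | smul a x _ hx =>
      have e : Z * (a • x) - (a • x) * Z = a • (Z * x - x * Z) := by
        rw [smul_sub, mul_smul_comm, smul_mul_assoc]
      rw [e]
      exact Submodule.smul_mem _ _ hx
  unfold kC at hX
  induction hX using Submodule.span_induction with
  | mem x hx => exact h1 x hx Y hY
  | zero => simp
  | add x y _ _ hx hy =>
    have e : (x + y) * Y - Y * (x + y) = (x * Y - Y * x) + (y * Y - Y * y) := by
      rw [mul_add, add_mul]; abel
    rw [e]
    exact add_mem hx hy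
  | smul a x _ hx =>
    have e : (a • x) * Y - Y * (a • x) = a • (x * Y - Y * x) := by
      rw [smul_sub, mul_smul_comm, smul_mul_assoc]
    rw [e]
    exact Submodule.smul_mem _ _ hx

omit [FiniteDimensional ℂ V] in
/-- Elements of `t_C` act on a root space by scalars. -/
theorem one_scalar {k t : Submodule ℝ (V →L[ℂ] V)} {α : Dual ℝ t} {F : V →L[ℂ] V}
    (hF : F ∈ Rt k t α) {T : V →L[ℂ] V} (hT : T ∈ kC t) : ∃ l : ℂ, T * F - F * T = l • F := by
  unfold kC at hT
  induction hT using Submodule.span_induction with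
  | mem x hx => exact ⟨_, hF.2 ⟨x, hx⟩⟩
  | zero => exact ⟨0, by simp⟩
  | add x y _ _ hx hy =>
    obtain ⟨a, ha⟩ := hx
    obtain ⟨b, hb⟩ := hy
    refine ⟨a + b, ?_⟩
    rw [add_smul, ← ha, ← hb, mul_add, add_mul]
    abel
  | smul a x _ hx =>
    obtain ⟨b, hb⟩ := hx
    refine ⟨a * b, ?_⟩
    rw [mul_smul, ← hb, smul_sub, mul_smul_comm, smul_mul_assoc]

omit [FiniteDimensional ℂ V] in
theorem one_alg (X Y : V →L[ℂ] V) (a b : ℂ) :
    (a • X) * Y + X * (b • Y) - (b • Y) * X - Y * (a • X) = (a + b) • (X * Y - Y * X) := by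
  simp only [smul_mul_assoc, mul_smul_comm, add_smul, smul_sub]
  abel

omit [FiniteDimensional ℂ V] in
/-- The bracket of root vectors of opposite roots lies in `k_0`. -/
theorem one_bracket {J : V → V} {k t : Submodule ℝ (V →L[ℂ] V)} (hk : IsLieSub J k)
    {α : Dual ℝ t} {X Y : V →L[ℂ] V} (hX : X ∈ Rt k t α) (hY : Y ∈ Rt k t (-α)) :
    X * Y - Y * X ∈ Rt k t 0 := by
  refine ⟨one_kC_lie hk hX.1 hY.1, fun ξ => ?_⟩
  have h1 := hX.2 ξ
  have h2 := hY.2 ξ
  have e : (ξ : V →L[ℂ] V) * (X * Y - Y * X) - (X * Y - Y * X) * (ξ : V →L[ℂ] V) =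
      ((ξ : V →L[ℂ] V) * X - X * (ξ : V →L[ℂ] V)) * Y +
        X * ((ξ : V →L[ℂ] V) * Y - Y * (ξ : V →L[ℂ] V)) -
        ((ξ : V →L[ℂ] V) * Y - Y * (ξ : V →L[ℂ] V)) * X -
        Y * ((ξ : V →L[ℂ] V) * X - X * (ξ : V →L[ℂ] V)) := by
    noncomm_ring
  rw [e, h1, h2, one_alg]
  have h3 : ((-α) ξ : ℝ) = -(α ξ) := rfl
  have h4 : ((0 : Dual ℝ t) ξ : ℝ) = 0 := rfl
  rw [h3, h4, Complex.ofReal_neg, Complex.ofReal_zero, neg_mul, add_neg_cancel, zero_smul, zero_mul,
    zero_smul]

end ONEaux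

theorem ONE : Stmt_ONE := by
  intro V _ _ _ _ J k t hJ hk ht hRTZ hRSY hHEI α E F hα hE hE0 hF
  obtain ⟨hRT0, -, -⟩ := hRTZ V J k t hJ hk ht
  obtain ⟨-, hadj, -, -, -⟩ := hRSY V J k t hJ hk ht.le
  obtain ⟨η, hη, hαη⟩ := hHEI V J k t hJ hk ht hRTZ hRSY α E hα hE hE0
  have hE' : ContinuousLinearMap.adjoint E ∈ Rt k t (-α) := hadj α E hE
  have ha : oneNrm E ≠ 0 := fun h => hE0 (oneNrm_eq_zero h)
  set E' : V →L[ℂ] V := ContinuousLinearMap.adjoint E with hE'def
  set c : ℂ := oneTr V (E' * F) / (oneNrm E : ℂ) with hc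
  set F1 : V →L[ℂ] V := F - c • E with hF1def
  have hF1 : F1 ∈ Rt k t α := sub_mem hF (Submodule.smul_mem _ _ hE)
  have htr : oneTr V (E' * F1) = 0 := by
    have h1 : E' * F1 = E' * F - c • (E' * E) := by
      rw [hF1def, mul_sub, mul_smul_comm]
    rw [h1, map_sub, map_smul, hE'def, oneTr_adj, smul_eq_mul, hc, ← hE'def,
      div_mul_cancel₀ _ (Complex.ofReal_ne_zero.2 ha), sub_self]
  clear_value F1
  -- the bracket of F1 and E' vanishes
  have hZ0 : F1 * E' - E' * F1 = 0 := by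
    set Z : V →L[ℂ] V := F1 * E' - E' * F1 with hZdef
    have hZ : Z ∈ Rt k t 0 := one_bracket hk hF1 hE'
    have hZa : ContinuousLinearMap.adjoint Z ∈ kC t := by
      have h1 := hadj 0 Z hZ
      rw [neg_zero, hRT0] at h1
      exact h1
    obtain ⟨l, hl⟩ := one_scalar hF1 hZa
    have h2 : oneTr V (ContinuousLinearMap.adjoint Z * Z) = 0 := by
      rw [oneTr_comm]
      have h3 : Z * ContinuousLinearMap.adjoint Z =
          F1 * (E' * ContinuousLinearMap.adjoint Z) - E' * F1 * ContinuousLinearMap.adjoint Z := by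
        rw [hZdef, sub_mul, mul_assoc]
      rw [h3, map_sub, oneTr_comm F1]
      have h4 : E' * ContinuousLinearMap.adjoint Z * F1 - E' * F1 * ContinuousLinearMap.adjoint Z
          = l • (E' * F1) := by
        rw [← mul_smul_comm, ← hl, mul_sub, mul_assoc, mul_assoc]
      rw [← map_sub, h4, map_smul, htr, smul_zero]
    rw [oneTr_adj] at h2
    exact oneNrm_eq_zero (by exact_mod_cast h2)
  -- the bracket of E and F1
  have hG : E' * (E * F1 - F1 * E) - (E * F1 - F1 * E) * E' = -((α η : ℂ) • F1) := by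
    have h1 : F1 * E' = E' * F1 := sub_eq_zero.1 hZ0
    have h2 : E' * (E * F1 - F1 * E) - (E * F1 - F1 * E) * E' =
        -((E * E' - E' * E) * F1 - F1 * (E * E' - E' * E)) + E * (E' * F1 - F1 * E') -
          (E' * F1 - F1 * E') * E := by
      noncomm_ring
    rw [h2, h1, sub_self, mul_zero, zero_mul, add_zero, sub_zero, hη]
    have h3 := hF1.2 η
    have h4 : -(Complex.I • (η : V →L[ℂ] V)) * F1 - F1 * -(Complex.I • (η : V →L[ℂ] V)) =
        -(Complex.I • ((η : V →L[ℂ] V) * F1 - F1 * (η : V →L[ℂ] V))) := by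
      rw [neg_mul, mul_neg, smul_mul_assoc, mul_smul_comm, smul_sub]
      abel
    rw [h4, h3, neg_neg, smul_smul]
    have h5 : Complex.I * ((α η : ℂ) * Complex.I) = -(α η : ℂ) := by
      have := Complex.I_mul_I
      linear_combination (α η : ℂ) * this
    rw [h5, neg_smul]
  have hfin : (oneNrm (E * F1 - F1 * E) : ℂ) = -((α η : ℂ) * (oneNrm F1 : ℂ)) := by
    rw [← oneTr_adj, ← oneTr_adj]
    have h1 : ContinuousLinearMap.adjoint (E * F1 - F1 * E) =
        ContinuousLinearMap.adjoint F1 * E' - E' * ContinuousLinearMap.adjoint F1 := by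
      rw [map_sub]
      congr 1
      · exact ContinuousLinearMap.adjoint_comp E F1
      · exact ContinuousLinearMap.adjoint_comp F1 E
    rw [h1]
    have h2 : (ContinuousLinearMap.adjoint F1 * E' - E' * ContinuousLinearMap.adjoint F1) *
        (E * F1 - F1 * E) = ContinuousLinearMap.adjoint F1 * (E' * (E * F1 - F1 * E)) -
          E' * (ContinuousLinearMap.adjoint F1 * (E * F1 - F1 * E)) := by
      rw [sub_mul, mul_assoc, mul_assoc]
    rw [h2, map_sub, oneTr_comm E', ← map_sub, mul_assoc, ← mul_sub, hG, mul_neg, map_neg,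
      mul_smul_comm, map_smul, smul_eq_mul]
  have hreal : oneNrm (E * F1 - F1 * E) = -(α η * oneNrm F1) := by exact_mod_cast hfin
  have hF10 : oneNrm F1 = 0 := by
    have h1 := oneNrm_nonneg (E * F1 - F1 * E)
    have h2 := oneNrm_nonneg F1
    nlinarith
  refine ⟨c, ?_⟩
  have h := oneNrm_eq_zero hF10
  rw [hF1def] at h
  exact sub_eq_zero.1 h

end MPa8bd83
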