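import Pool.Agent.Work.MP_a8bd83_qk.Interface2

set_option autoImplicit false

namespace MPa8bd83

open Module

theorem p_PAI (hCOR : Stmt_COR) (hHAL : Stmt_HAL) (hHRN : Stmt_HRN) (hCN1 : Stmt_CN1) :
    Stmt_PAI := by
  classical
  intro V _ _ _ J k t hFr h2 hdim
  have hF := hFr.fac
  obtain ⟨a, b, c, H, s, hs, hV, ha, hH, hHw, hHn⟩ := hCN1 V J k t hFr
  obtain ⟨hr1, hr2⟩ := hHRN V J k t hF H s hHw hHn hs
  have hcard := hF.rcard s (fun α hα => (hs α).1 hα)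
  rw [h2] at ha hr1 hcard
  have hbc : H.card = 2 := by omega
  obtain ⟨w, w', hne, hHeq⟩ := Finset.card_eq_two.1 hbc
  have hw := hHw w (by rw [hHeq]; simp)
  have hw' := hHw w' (by rw [hHeq]; simp)
  have hnn := hHn w (by rw [hHeq]; simp) w' (by rw [hHeq]; simp) hne
  obtain ⟨τ, E, F, hc⟩ := hCOR V J k t hF (w + w) hw.2
  obtain ⟨σ, E', F', hc'⟩ := hCOR V J k t hF (w' + w') hw'.2
  have hhalf : ∀ u : Dual ℝ t, (1 / 2 : ℝ) • (u + u) = u := by
    intro u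
    rw [← two_smul ℝ u, smul_smul]
    norm_num
  have hα : w + w ≠ w' + w' := by
    intro h
    apply hne
    rw [← hhalf w, h, hhalf w']
  have hα' : w + w ≠ -(w' + w') := by
    intro h
    apply hnn
    rw [← hhalf w, h, smul_neg, hhalf w']
  obtain ⟨h1, h3⟩ := hHAL V J k t hF (w + w) (w' + w') τ σ E F E' F' hc hc'
    (by rw [hhalf]; exact hw.1) (by rw [hhalf]; exact hw'.1) hα hα'
  exact ⟨w + w, w' + w', τ, σ, ⟨h2, ⟨E, F, hc⟩, ⟨E', F', hc'⟩, by rw [hhalf]; exact hw.1,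
    by rw [hhalf]; exact hw'.1, h1, h3⟩⟩

end MPa8bd83
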