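import Pool.Agent.Work.MP_a8bd83_qk.Interface2

set_option autoImplicit false

namespace MPa8bd83

open Module

theorem PIC_add {W : Type} [AddCommGroup W] [Module ℝ W] (α β : W) (x y x' y' : ℤ) :
    pt α β x y + pt α β x' y' = pt α β (x + x') (y + y') := by
  unfold pt
  push_cast
  module

theorem PIC_sub {W : Type} [AddCommGroup W] [Module ℝ W] (α β : W) (x y x' y' : ℤ) :
    pt α β x y - pt α β x' y' = pt α β (x - x') (y - y') := by
  unfold pt
  push_cast
  module

theorem PIC_neg {W : Type} [AddCommGroup W] [Module ℝ W] (α β : W) (x y : ℤ) :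
    -(pt α β x y) = pt α β (-x) (-y) := by
  unfold pt
  push_cast
  module

theorem PIC_zero {W : Type} [AddCommGroup W] [Module ℝ W] (α β : W) : pt α β 0 0 = 0 := by
  unfold pt
  simp

section

variable {V : Type} [NormedAddCommGroup V] [InnerProductSpace ℂ V]
  {J : V → V} {k t : Submodule ℝ (V →L[ℂ] V)} {α β : Dual ℝ t} {τ σ : t}

theorem PIC_ne (hc : ∀ x y : ℤ, pt α β x y τ = (x : ℝ) ∧ pt α β x y σ = (y : ℝ)) (x y : ℤ)
    (h : x ≠ 0 ∨ y ≠ 0) : pt α β x y ≠ 0 := by
  intro h0
  have h1 := (hc x y).1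
  have h2 := (hc x y).2
  rw [h0, LinearMap.zero_apply] at h1 h2
  have h3 : x = 0 := by exact_mod_cast h1.symm
  have h4 : y = 0 := by exact_mod_cast h2.symm
  rcases h with h | h
  · exact h h3
  · exact h h4

theorem PIC_bot (hF : Fac J k t)
    (hc : ∀ x y : ℤ, pt α β x y τ = (x : ℝ) ∧ pt α β x y σ = (y : ℝ)) (R : ℤ → ℤ → Prop)
    (hR : ∀ x y : ℤ, IsRoot k t (pt α β x y) ↔ R x y) (x y : ℤ) (h : x ≠ 0 ∨ y ≠ 0)
    (hn : ¬ R x y) :
    (∀ X ∈ Rt k t (pt α β x y), X = 0) ∧ (∀ X ∈ Rt k t (-(pt α β x y)), X = 0) := by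
  have hne := PIC_ne hc x y h
  constructor
  · intro X hX
    by_contra hX0
    apply hn
    rw [← hR]
    refine ⟨hne, fun hb => hX0 ?_⟩
    rw [hb, Submodule.mem_bot] at hX
    exact hX
  · intro X hX
    by_contra hX0
    apply hn
    rw [← hR]
    have h1 : IsRoot k t (-(pt α β x y)) := by
      refine ⟨neg_ne_zero.mpr hne, fun hb => hX0 ?_⟩
      rw [hb, Submodule.mem_bot] at hX
      exact hX
    have h2 := hF.rneg _ h1
    rw [neg_neg] at h2
    exact h2

theorem PIC_li (hF : Fre J k t)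
    (hc : ∀ x y : ℤ, pt α β x y τ = (x : ℝ) ∧ pt α β x y σ = (y : ℝ)) (R : ℤ → ℤ → Prop)
    (hR : ∀ x y : ℤ, IsRoot k t (pt α β x y) ↔ R x y) (n : ℕ) (u : Fin n → ℤ × ℤ)
    (hU : ∀ i, Usable J k t (pt α β (u i).1 (u i).2))
    (hN : ∀ i j, i < j → NA R (u i).1 (u i).2 (u j).1 (u j).2) :
    LinearIndependent ℝ (fun i => pt α β (u i).1 (u i).2) := by
  have hd : ∀ i j, i < j → (∀ X ∈ Rt k t (pt α β (u i).1 (u i).2 - pt α β (u j).1 (u j).2),
      X = 0) ∧ (∀ X ∈ Rt k t (pt α β (u j).1 (u j).2 - pt α β (u i).1 (u i).2), X = 0) := by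
    intro i j hij
    obtain ⟨h1, -, h3, -⟩ := hN i j hij
    have h4 := PIC_bot hF.fac hc R hR ((u i).1 - (u j).1) ((u i).2 - (u j).2)
      (by rcases h1 with h | h
          · exact Or.inl (sub_ne_zero.mpr h)
          · exact Or.inr (sub_ne_zero.mpr h)) h3
    rw [← PIC_sub, neg_sub] at h4
    exact h4
  have hs : ∀ i j, i < j → (∀ X ∈ Rt k t (-(pt α β (u i).1 (u i).2 + pt α β (u j).1 (u j).2)),
      X = 0) := by
    intro i j hij
    obtain ⟨-, h2, -, h4⟩ := hN i j hij
    have h5 := PIC_bot hF.fac hc R hR ((u i).1 + (u j).1) ((u i).2 + (u j).2)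
      (by rcases h2 with h | h
          · exact Or.inl (fun h' => h (eq_neg_of_add_eq_zero_left h'))
          · exact Or.inr (fun h' => h (eq_neg_of_add_eq_zero_left h'))) h4
    rw [← PIC_add] at h5
    exact h5.2
  choose e he using hU
  refine hF.lid (Fin n) _ e ⟨fun i => (he i).1, fun i => (he i).2.1, ?_, ?_⟩
  · intro i j hij X hX
    have h0 : X = 0 := by
      rcases lt_or_gt_of_ne hij with h | h
      · exact (hd i j h).1 X hX
      · exact (hd j i h).2 X hX
    rw [h0, ContinuousLinearMap.zero_apply, inner_zero_right]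
  · intro i j X hX
    by_cases hij : i = j
    · subst hij
      exact (he i).2.2 X hX
    · have h0 : X = 0 := by
        rcases lt_or_gt_of_ne hij with h | h
        · exact hs i j h X hX
        · refine hs j i h X ?_
          rw [add_comm]
          exact hX
      rw [h0, ContinuousLinearMap.zero_apply, inner_zero_right]

theorem PIC_two (hF : Fre J k t)
    (hc : ∀ x y : ℤ, pt α β x y τ = (x : ℝ) ∧ pt α β x y σ = (y : ℝ)) (R : ℤ → ℤ → Prop)
    (hR : ∀ x y : ℤ, IsRoot k t (pt α β x y) ↔ R x y) (x y x' y' : ℤ)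
    (h1 : Usable J k t (pt α β x y)) (h2 : Usable J k t (pt α β x' y'))
    (h3 : NA R x y x' y') : x * y' ≠ y * x' := by
  intro heq
  have hl := PIC_li hF hc R hR 2 ![(x, y), (x', y')]
    (by
      intro i
      fin_cases i
      · exact h1
      · exact h2)
    (by
      intro i j hij
      fin_cases i <;> fin_cases j
      · exact absurd hij (lt_irrefl _)
      · exact h3
      · exact absurd hij (by decide)
      · exact absurd hij (lt_irrefl _))
  have hl2 : LinearIndependent ℝ ![pt α β x y, pt α β x' y'] := by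
    convert hl using 1
    funext i
    fin_cases i <;> rfl
  rw [LinearIndependent.pair_iff] at hl2
  have heqr : (x : ℝ) * y' = y * x' := by exact_mod_cast heq
  have e1 : (x' : ℝ) • pt α β x y + (-(x : ℝ)) • pt α β x' y' = 0 := by
    have : (x' : ℝ) • pt α β x y + (-(x : ℝ)) • pt α β x' y' =
        ((y * x' - x * y' : ℝ) / 2) • β := by
      unfold pt
      module
    rw [this, heqr, sub_self, zero_div, zero_smul]
  have e2 : (y' : ℝ) • pt α β x y + (-(y : ℝ)) • pt α β x' y' = 0 := by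
    have : (y' : ℝ) • pt α β x y + (-(y : ℝ)) • pt α β x' y' =
        ((x * y' - y * x' : ℝ) / 2) • α := by
      unfold pt
      module
    rw [this, heqr, sub_self, zero_div, zero_smul]
  obtain ⟨a1, a2⟩ := hl2 _ _ e1
  obtain ⟨b1, b2⟩ := hl2 _ _ e2
  rw [neg_eq_zero] at a2 b2
  have c1 : x' = 0 := by exact_mod_cast a1
  have c2 : x = 0 := by exact_mod_cast a2
  have c3 : y' = 0 := by exact_mod_cast b1
  have c4 : y = 0 := by exact_mod_cast b2
  rcases h3.1 with h | h
  · exact h (by rw [c1, c2])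
  · exact h (by rw [c3, c4])

theorem PIC_three (hF : Fre J k t) (hr : finrank ℝ t = 2)
    (hc : ∀ x y : ℤ, pt α β x y τ = (x : ℝ) ∧ pt α β x y σ = (y : ℝ)) (R : ℤ → ℤ → Prop)
    (hR : ∀ x y : ℤ, IsRoot k t (pt α β x y) ↔ R x y) (x y x' y' x'' y'' : ℤ)
    (h1 : Usable J k t (pt α β x y)) (h2 : Usable J k t (pt α β x' y'))
    (h3 : Usable J k t (pt α β x'' y''))
    (h4 : NA R x y x' y') (h5 : NA R x y x'' y'') (h6 : NA R x' y' x'' y'') : False := by
  have hl := PIC_li hF hc R hR 3 ![(x, y), (x', y'), (x'', y'')]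
    (by
      intro i
      fin_cases i
      · exact h1
      · exact h2
      · exact h3)
    (by
      intro i j hij
      fin_cases i <;> fin_cases j
      · exact absurd hij (lt_irrefl _)
      · exact h4
      · exact h5
      · exact absurd hij (by decide)
      · exact absurd hij (lt_irrefl _)
      · exact h6
      · exact absurd hij (by decide)
      · exact absurd hij (by decide)
      · exact absurd hij (lt_irrefl _))
  haveI : FiniteDimensional ℝ t := FiniteDimensional.of_finrank_pos (by omega)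
  have h7 := hl.fintype_card_le_finrank
  rw [Subspace.dual_finrank_eq, hr, Fintype.card_fin] at h7
  omega

end

theorem p_PIC (h1 : Stmt_CRD) (h2 : Stmt_STX) : Stmt_PIC := by
  intro V _ _ _ J k t hF α β τ σ hP R hR
  obtain ⟨hc, -, -, -⟩ := h1 V J k t hF.fac α β τ σ hP
  have hD : ∀ x y : ℤ, finrank ℂ (Wt t (pt α β x y)) ≠ 0 ↔ IsWt t (pt α β x y) := by
    intro x y
    unfold IsWt
    rw [Ne, Submodule.finrank_eq_zero]
  have hdouble : ∀ x y : ℤ, ¬ R (2 * x) (2 * y) →
      ¬ IsRoot k t (pt α β x y + pt α β x y) := by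
    intro x y hn
    rw [PIC_add, ← two_mul, ← two_mul, hR]
    exact hn
  refine
    { bdd := ?_
      neg := ?_
      zero := ?_
      le3 := ?_
      le1 := ?_
      usw := ?_
      us1 := ?_
      us2 := ?_
      strx := ?_
      stry := ?_
      two := ?_
      three := ?_ }
  · have hfin := hF.fac.wfin
    have hb : ∀ x y : ℤ, IsWt t (pt α β x y) →
        |pt α β x y τ| + |pt α β x y σ| ≤ ∑ w ∈ hfin.toFinset, (|w τ| + |w σ|) := by
      intro x y h
      exact Finset.single_le_sum (f := fun w : Dual ℝ t => |w τ| + |w σ|)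
        (fun w _ => by positivity) (hfin.mem_toFinset.mpr h)
    refine ⟨⌈∑ w ∈ hfin.toFinset, (|w τ| + |w σ|)⌉, ?_⟩
    intro x y h
    have h3 := hb x y ((hD x y).mp h)
    rw [(hc x y).1, (hc x y).2] at h3
    have h4 := Int.le_ceil (∑ w ∈ hfin.toFinset, (|w τ| + |w σ|))
    have h5 : 0 ≤ |(x : ℝ)| := abs_nonneg _
    have h6 : 0 ≤ |(y : ℝ)| := abs_nonneg _
    constructor
    · have h7 : |(x : ℝ)| ≤ (⌈∑ w ∈ hfin.toFinset, (|w τ| + |w σ|)⌉ : ℝ) := by linarith
      exact_mod_cast h7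
    · have h7 : |(y : ℝ)| ≤ (⌈∑ w ∈ hfin.toFinset, (|w τ| + |w σ|)⌉ : ℝ) := by linarith
      exact_mod_cast h7
  · intro x y
    show finrank ℂ (Wt t (pt α β (-x) (-y))) = finrank ℂ (Wt t (pt α β x y))
    rw [← PIC_neg]
    exact hF.fac.jdim _
  · show finrank ℂ (Wt t (pt α β 0 0)) = 0
    by_contra h
    exact hF.vze _ ((hD 0 0).mp h) (PIC_zero α β)
  · intro x y
    exact (hF.hlf _).1
  · intro x y hn
    exact (hF.hlf _).2 (hdouble x y hn)
  · intro x y hU h0
    obtain ⟨e, he, hn, -⟩ := hU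
    have h3 : Wt t (pt α β x y) = ⊥ := Submodule.finrank_eq_zero.mp h0
    rw [h3, Submodule.mem_bot] at he
    rw [he, norm_zero] at hn
    exact zero_ne_one hn
  · intro x y h hn
    exact hF.use _ ((hD x y).mp h) (Or.inl (hdouble x y hn))
  · intro x y h
    have h' : 2 ≤ finrank ℂ (Wt t (pt α β x y)) := h
    exact hF.use _ ((hD x y).mp (by omega)) (Or.inr h')
  · intro x y x' h hx hd
    exact (hD x' y).mpr ((h2 V J k t hF.fac α β τ σ hP x y ((hD x y).mp h)).1 x' hx hd)
  · intro x y y' h hy hd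
    exact (hD x y').mpr ((h2 V J k t hF.fac α β τ σ hP x y ((hD x y).mp h)).2 y' hy hd)
  · intro x y x' y' ha hb hn
    exact PIC_two hF hc R hR x y x' y' ha hb hn
  · intro x y x' y' x'' y'' ha hb hd h4 h5 h6
    exact PIC_three hF hP.rk hc R hR x y x' y' x'' y'' ha hb hd h4 h5 h6

end MPa8bd83
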