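/-
MP_a8bd83_gt: block PRZ (helper2).
-/
import Pool.Agent.Work.MP_a8bd83_qk.Interface

namespace MPa8bd83

open Module

theorem PRZ : Stmt_PRZ := by
  intro V _ _ _ _ J k t hJ hk ht hF hWTD hWTO hRTD hRTZ hRSY hEXP hLIN w u v hw hu hv hnu hnv huv
    hyp
  have hsp : ∀ ξ ∈ t, IsSp J ξ := fun ξ hξ => hk.sp ξ (ht.le hξ)
  obtain ⟨horth, hJW, -, hshift⟩ := hWTO V J k t hJ hsp
  have hroot := hRTD V J k t hJ hk ht hWTD
  obtain ⟨hzero, -, -⟩ := hRTZ V J k t hJ hk ht
  obtain ⟨-, hadj, -, -, -⟩ := hRSY V J k t hJ hk ht.le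
  have hJu : J u ∈ Wt t (-w) := hJW w u hu
  have hJv : J v ∈ Wt t (-w) := hJW w v hv
  have hwn : w ≠ -w := by
    intro h
    apply hw
    have h2 : (2 : ℝ) • w = 0 := by
      rw [two_smul]
      nth_rewrite 2 [h]
      exact add_neg_cancel w
    exact (smul_eq_zero.mp h2).resolve_left two_ne_zero
  have huu : inner ℂ u u = (1 : ℂ) := by
    rw [inner_self_eq_norm_sq_to_K, hnu]; simp
  have hvv : inner ℂ v v = (1 : ℂ) := by
    rw [inner_self_eq_norm_sq_to_K, hnv]; simp
  have hvu : inner ℂ v u = (0 : ℂ) := by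
    rw [← inner_conj_symm, huv, map_zero]
  have hJJ : inner ℂ (J v) (J v) = (1 : ℂ) := by rw [hJ.inner, hvv]
  have hJuJv : inner ℂ (J u) (J v) = (0 : ℂ) := by rw [hJ.inner, hvu]
  have huJv : inner ℂ u (J v) = (0 : ℂ) := horth _ _ hwn _ hu _ hJv
  have hvJv : inner ℂ v (J v) = (0 : ℂ) := horth _ _ hwn _ hv _ hJv
  have hJvu : inner ℂ (J v) u = (0 : ℂ) := horth _ _ (Ne.symm hwn) _ hJv _ hu
  have hJuu : inner ℂ (J u) u = (0 : ℂ) := horth _ _ (Ne.symm hwn) _ hJu _ hu
  have hx0 : u + J v ≠ 0 := by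
    intro h
    have h1 : inner ℂ u (u + J v) = (1 : ℂ) := by rw [inner_add_right, huu, huJv, add_zero]
    rw [h, inner_zero_right] at h1
    exact zero_ne_one h1
  have hJx : J (u + J v) = J u - v := by
    rw [hJ.add, hJ.sq, sub_eq_add_neg]
  -- moment zero
  have hroots : ∀ α : Dual ℝ t, ∀ X ∈ Rt k t α,
      inner ℂ (u + J v) (X (u + J v)) = 0 ∧ inner ℂ (J u - v) (X (u + J v)) = 0 := by
    intro α X hX
    by_cases hα : α = 0
    · subst hα
      rw [hzero] at hX
      unfold kC at hX
      induction hX using Submodule.span_induction with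
      | mem ξ hξ =>
        have h1 : ξ u = ((w ⟨ξ, hξ⟩ : ℂ) * Complex.I) • u := hu ⟨ξ, hξ⟩
        have h2 : ξ (J v) = (((-w) ⟨ξ, hξ⟩ : ℝ) * Complex.I : ℂ) • J v := hJv ⟨ξ, hξ⟩
        have h3 : ((-w) ⟨ξ, hξ⟩ : ℝ) = - (w ⟨ξ, hξ⟩) := LinearMap.neg_apply _ _
        rw [h3] at h2
        rw [map_add, h1, h2]
        simp only [inner_add_left, inner_sub_left, inner_add_right, inner_smul_right, huu, huJv,
          hJvu, hJJ, hJuu, hJuJv, hvu, hvJv]
        constructor
        · push_cast; ring
        · push_cast; ring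
      | zero => simp
      | add X Y _ _ hX hY =>
        rw [ContinuousLinearMap.add_apply, inner_add_right, inner_add_right, hX.1, hX.2, hY.1,
          hY.2]
        simp
      | smul a X _ hX =>
        rw [ContinuousLinearMap.smul_apply, inner_smul_right, inner_smul_right, hX.1, hX.2]
        simp
    · have hXu : X u ∈ Wt t (w + α) := hshift _ _ X hX _ hu
      have hXJv : X (J v) ∈ Wt t (-w + α) := hshift _ _ X hX _ hJv
      have n1 : ∀ β : Dual ℝ t, β ≠ β + α := by
        intro β h
        apply hα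
        have h2 : β + α = β + 0 := by rw [← h, add_zero]
        exact add_left_cancel h2
      have a1 : inner ℂ u (X u) = (0 : ℂ) := horth _ _ (n1 w) _ hu _ hXu
      have a2 : inner ℂ (J v) (X (J v)) = (0 : ℂ) := horth _ _ (n1 (-w)) _ hJv _ hXJv
      have a3 : inner ℂ (J u) (X (J v)) = (0 : ℂ) := horth _ _ (n1 (-w)) _ hJu _ hXJv
      have a4 : inner ℂ v (X u) = (0 : ℂ) := horth _ _ (n1 w) _ hv _ hXu
      -- α = -2w
      have b : inner ℂ (J v) (X u) = (0 : ℂ) ∧ inner ℂ (J u) (X u) = (0 : ℂ) := by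
        by_cases h : -w = w + α
        · have hα2 : α = -(w + w) := by
            have : α = -w - w := by rw [h]; abel
            rw [this]; abel
          subst hα2
          exact ⟨(hyp X hX).2.1, (hyp X hX).1⟩
        · exact ⟨horth _ _ h _ hJv _ hXu, horth _ _ h _ hJu _ hXu⟩
      -- α = 2w
      have d : inner ℂ u (X (J v)) = (0 : ℂ) ∧ inner ℂ v (X (J v)) = (0 : ℂ) := by
        by_cases h : w = -w + α
        · have hα2 : α = w + w := by
            have : α = w - -w := by
              nth_rewrite 1 [h]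
              abel
            rw [this, sub_neg_eq_add]
          subst hα2
          have hX' := hadj _ X hX
          have e1 := hyp _ hX'
          constructor
          · rw [← ContinuousLinearMap.adjoint_inner_left, ← inner_conj_symm, e1.2.1, map_zero]
          · rw [← ContinuousLinearMap.adjoint_inner_left, ← inner_conj_symm, e1.2.2, map_zero]
        · exact ⟨horth _ _ h _ hu _ hXJv, horth _ _ h _ hv _ hXJv⟩
      rw [map_add]
      simp only [inner_add_left, inner_sub_left, inner_add_right, a1, a2, a3, a4, b.1, b.2, d.1,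
        d.2]
      simp
  have hzer : MomentZero J k (u + J v) := by
    intro ξ hξ
    have hmem : ξ ∈ ⨆ α, Rt k t α := by
      rw [← hroot]
      exact Submodule.subset_span hξ
    rw [hJx]
    clear hξ
    induction hmem using Submodule.iSup_induction' with
    | mem α X hX => exact hroots α X hX
    | zero => simp
    | add X Y _ _ hX hY =>
      rw [ContinuousLinearMap.add_apply, inner_add_right, inner_add_right, hX.1, hX.2, hY.1, hY.2]
      simp
  by_contra hcon
  have h2 : 2 ≤ finrank ℝ t := by omega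
  have : FiniteDimensional ℝ t := Module.finite_of_finrank_pos (by omega)
  obtain ⟨η, hη0, hη⟩ : ∃ η : t, η ≠ 0 ∧ w η = 0 := by
    have h3 := LinearMap.finrank_range_add_finrank_ker w
    have h4 : finrank ℝ (LinearMap.range w) ≤ 1 := by
      refine (Submodule.finrank_le _).trans ?_
      simp
    have h5 : 0 < finrank ℝ (LinearMap.ker w) := by omega
    have h6 : LinearMap.ker w ≠ ⊥ := by
      intro h
      rw [h, finrank_bot] at h5
      exact lt_irrefl _ h5
    obtain ⟨η, hη, hη0⟩ := Submodule.exists_mem_ne_zero_of_ne_bot h6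
    exact ⟨η, hη0, hη⟩
  apply hη0
  refine hLIN V J k t hJ hk ht hF hWTD hEXP (u + J v) hx0 hzer η ?_
  intro s
  refine ⟨1, ?_⟩
  have e1 := (hEXP V t).1 (s • η) w u hu
  have e2 := (hEXP V t).1 (s • η) (-w) (J v) hJv
  have h7 : w (s • η) = 0 := by rw [map_smul, hη, smul_zero]
  have h8 : (-w) (s • η) = 0 := by rw [LinearMap.neg_apply, h7, neg_zero]
  rw [h7] at e1
  rw [h8] at e2
  rw [map_add, e1, e2]
  simp

end MPa8bd83
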