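import Pool.Agent.Work.MP_a8bd83_qk.Interface

/-! Block QBS (helper64). -/

set_option autoImplicit false

namespace MPa8bd83

open Module

namespace QBS

variable {V : Type} [NormedAddCommGroup V] [InnerProductSpace ℂ V]

theorem inner_J_self {J : V → V} (hJ : IsQuatStr J) (x : V) : inner ℂ x (J x) = 0 := by
  have h1 := hJ.inner x (J x)
  rw [hJ.sq, inner_neg_right] at h1
  have h2 : inner ℂ (J x) x = 0 := by
    have h3 : (2 : ℂ) * inner ℂ (J x) x = 0 := by linear_combination -h1
    rcases mul_eq_zero.1 h3 with h | h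
    · norm_num at h
    · exact h
  rw [← inner_conj_symm, h2, map_zero]

theorem inner_J_left {J : V → V} (hJ : IsQuatStr J) (x y : V) :
    inner ℂ (J x) y = - inner ℂ (J y) x := by
  have h1 := hJ.inner x (J y)
  rw [hJ.sq, inner_neg_right] at h1
  rw [← h1, neg_neg]

theorem norm_J {J : V → V} (hJ : IsQuatStr J) (x : V) : ‖J x‖ = ‖x‖ := by
  have h1 := hJ.inner x x
  rw [inner_self_eq_norm_sq_to_K, inner_self_eq_norm_sq_to_K] at h1
  have h2 : ‖J x‖ ^ 2 = ‖x‖ ^ 2 := by
    have h3 := congrArg Complex.re h1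
    norm_cast at h3
  have h4 := (sq_eq_sq₀ (norm_nonneg (J x)) (norm_nonneg x)).1 h2
  exact h4

theorem exists_unit [FiniteDimensional ℂ V] (J : V → V) (m N : ℕ) (hmN : m < N)
    (hV : finrank ℂ V = 2 * N) (e : Fin m → V) :
    ∃ x : V, ‖x‖ = 1 ∧ (∀ i, inner ℂ (e i) x = 0) ∧ ∀ i, inner ℂ (J (e i)) x = 0 := by
  let S : Submodule ℂ V := Submodule.span ℂ (Set.range (Sum.elim e (fun i => J (e i))))
  have h1 : finrank ℂ S ≤ 2 * m := by
    have h2 := finrank_range_le_card (R := ℂ) (Sum.elim e (fun i => J (e i)))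
    have h3 : Fintype.card (Fin m ⊕ Fin m) = 2 * m := by
      simp
      omega
    rw [h3] at h2
    exact h2
  have h2 : Sᗮ ≠ ⊥ := by
    intro h
    have h3 := S.finrank_add_finrank_orthogonal
    rw [h, finrank_bot, add_zero] at h3
    omega
  obtain ⟨y, hy, hy0⟩ := Submodule.exists_mem_ne_zero_of_ne_bot h2
  have hyn : ‖y‖ ≠ 0 := norm_ne_zero_iff.2 hy0
  refine ⟨((‖y‖ : ℂ)⁻¹) • y, ?_, fun i => ?_, fun i => ?_⟩
  · rw [norm_smul, norm_inv, Complex.norm_real, norm_norm, inv_mul_cancel₀ hyn]
  · rw [inner_smul_right, (Submodule.mem_orthogonal S y).1 hy (e i)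
      (Submodule.subset_span ⟨Sum.inl i, rfl⟩), mul_zero]
  · rw [inner_smul_right, (Submodule.mem_orthogonal S y).1 hy (J (e i))
      (Submodule.subset_span ⟨Sum.inr i, rfl⟩), mul_zero]

theorem exists_family [FiniteDimensional ℂ V] (J : V → V) (hJ : IsQuatStr J) (N : ℕ)
    (hV : finrank ℂ V = 2 * N) (m : ℕ) (hm : m ≤ N) :
    ∃ e : Fin m → V, (∀ i, ‖e i‖ = 1) ∧ (∀ i j, i ≠ j → inner ℂ (e i) (e j) = 0) ∧
      ∀ i j, inner ℂ (e i) (J (e j)) = 0 := by
  induction m with
  | zero => exact ⟨fun i => i.elim0, fun i => i.elim0, fun i => i.elim0, fun i => i.elim0⟩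
  | succ m ih =>
    obtain ⟨e, h1, h2, h3⟩ := ih (by omega)
    obtain ⟨x, hx1, hx2, hx3⟩ := exists_unit J m N (by omega) hV e
    have hx2' : ∀ i, inner ℂ x (e i) = 0 := fun i => by
      rw [← inner_conj_symm, hx2 i, map_zero]
    have hx3' : ∀ i, inner ℂ x (J (e i)) = 0 := fun i => by
      rw [← inner_conj_symm, hx3 i, map_zero]
    have hx4 : ∀ i, inner ℂ (e i) (J x) = 0 := fun i => by
      rw [← inner_conj_symm, inner_J_left hJ, hx3 i, neg_zero, map_zero]
    refine ⟨Fin.cons x e, ?_, ?_, ?_⟩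
    · intro i
      refine Fin.cases ?_ (fun i => ?_) i
      · simpa using hx1
      · simpa using h1 i
    · intro i
      refine Fin.cases ?_ (fun i => ?_) i
      · intro j
        refine Fin.cases ?_ (fun j => ?_) j
        · intro h
          exact absurd rfl h
        · intro _
          simpa using hx2' j
      · intro j
        refine Fin.cases ?_ (fun j => ?_) j
        · intro _
          simpa using hx2 i
        · intro h
          have h' : i ≠ j := fun hij => h (by rw [hij])
          simpa using h2 i j h'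
    · intro i
      refine Fin.cases ?_ (fun i => ?_) i
      · intro j
        refine Fin.cases ?_ (fun j => ?_) j
        · simpa using inner_J_self hJ x
        · simpa using hx3' j
      · intro j
        refine Fin.cases ?_ (fun j => ?_) j
        · simpa using hx4 i
        · simpa using h3 i j

end QBS

theorem QBS : Stmt_QBS := by
  intro N V _ _ _ J hJ hV
  obtain ⟨e, h1, h2, h3⟩ := QBS.exists_family J hJ N hV N le_rfl
  refine ⟨e, ?_, ?_⟩
  · rintro (i | i)
    · simpa using h1 i
    · simpa using (QBS.norm_J hJ (e i)).trans (h1 i)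
  · rintro (i | i) (j | j) hij
    · have h' : i ≠ j := fun h => hij (by rw [h])
      simpa using h2 i j h'
    · simpa using h3 i j
    · have h4 : inner ℂ (J (e i)) (e j) = 0 := by
        rw [← inner_conj_symm, h3 j i, map_zero]
      simpa using h4
    · have h' : j ≠ i := fun h => hij (by rw [h])
      have h4 : inner ℂ (J (e i)) (J (e j)) = 0 := by
        rw [hJ.inner, h2 j i h']
      simpa using h4

end MPa8bd83
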