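import Pool.Agent.Work.MP_a8bd83_qk.Interface5

/-! # Block QUT (helper71) -/

set_option autoImplicit false

namespace MPa8bd83

open Module

theorem p_QUT (hINT : Stmt_INT) : Stmt_QUT := by
  intro V _ _ _ J D₁ D₂ D₃ hJ hD h
  have h3 : D₁ * D₂ - D₂ * D₁ = (2 : ℂ) • D₃ := by
    rw [h.xy, RCLike.real_smul_eq_coe_smul (K := ℂ)]
    norm_num
  have h1 : D₂ * D₃ - D₃ * D₂ = (2 : ℂ) • D₁ := by
    rw [h.yz, RCLike.real_smul_eq_coe_smul (K := ℂ)]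
    norm_num
  have h2 : D₃ * D₁ - D₁ * D₃ = (2 : ℂ) • D₂ := by
    rw [h.zx, RCLike.real_smul_eq_coe_smul (K := ℂ)]
    norm_num
  refine hINT V J D₁ ((2 : ℂ)⁻¹ • (D₂ - Complex.I • D₃)) (-((2 : ℂ)⁻¹ • (D₂ + Complex.I • D₃)))
    hJ hD ?_ ?_ ?_
  · have e : (2 : ℂ)⁻¹ • (D₂ - Complex.I • D₃) * -((2 : ℂ)⁻¹ • (D₂ + Complex.I • D₃)) -
        -((2 : ℂ)⁻¹ • (D₂ + Complex.I • D₃)) * (2 : ℂ)⁻¹ • (D₂ - Complex.I • D₃) =
        -(((2 : ℂ)⁻¹ * Complex.I) • (D₂ * D₃ - D₃ * D₂)) := by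
      simp only [mul_neg, neg_mul, smul_mul_assoc, mul_smul_comm, mul_add, add_mul, mul_sub,
        sub_mul, smul_add, smul_sub, smul_smul]
      module
    rw [e, h1, smul_smul]
    congr 2
    ring
  · have e : D₁ * (2 : ℂ)⁻¹ • (D₂ - Complex.I • D₃) - (2 : ℂ)⁻¹ • (D₂ - Complex.I • D₃) * D₁ =
        (2 : ℂ)⁻¹ • (D₁ * D₂ - D₂ * D₁) + ((2 : ℂ)⁻¹ * Complex.I) • (D₃ * D₁ - D₁ * D₃) := by
      simp only [smul_mul_assoc, mul_smul_comm, mul_sub, sub_mul, smul_sub, smul_smul]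
      module
    rw [e, h3, h2]
    simp only [smul_sub, smul_smul]
    rw [show 2 * Complex.I * ((2 : ℂ)⁻¹ * Complex.I) = -1 by
      linear_combination Complex.I_mul_I]
    module
  · have e : D₁ * -((2 : ℂ)⁻¹ • (D₂ + Complex.I • D₃)) -
        -((2 : ℂ)⁻¹ • (D₂ + Complex.I • D₃)) * D₁ =
        -((2 : ℂ)⁻¹ • (D₁ * D₂ - D₂ * D₁)) + ((2 : ℂ)⁻¹ * Complex.I) • (D₃ * D₁ - D₁ * D₃) := by
      simp only [mul_neg, neg_mul, smul_mul_assoc, mul_smul_comm, mul_add, add_mul, smul_add,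
        smul_sub, smul_smul]
      module
    rw [e, h3, h2]
    simp only [smul_add, smul_neg, smul_smul]
    rw [show 2 * Complex.I * ((2 : ℂ)⁻¹ * Complex.I) = -1 by
      linear_combination Complex.I_mul_I]
    module

end MPa8bd83
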