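import Pool.Agent.Work.MP_a8bd83_qk.Interface2

/-! # Block R2F: rank two is impossible -/

set_option autoImplicit false

namespace MPa8bd83

open Module

theorem R2F_dim {V : Type} [NormedAddCommGroup V] [InnerProductSpace ℂ V] [FiniteDimensional ℂ V]
    (t : Submodule ℝ (V →L[ℂ] V)) (w : Dual ℝ t) : finrank ℂ (Wt t w) ≠ 0 ↔ IsWt t w := by
  rw [IsWt, ne_eq, ne_eq, Submodule.finrank_eq_zero]

theorem R2F_swap {W : Type} [AddCommGroup W] [Module ℝ W] (α β : W) (x y : ℤ) :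
    pt β α x y = pt α β y x := by
  rw [pt, pt, add_comm]

theorem R2F_card {V : Type} [NormedAddCommGroup V] [InnerProductSpace ℂ V]
    [FiniteDimensional ℂ V] {J : V → V} {k t : Submodule ℝ (V →L[ℂ] V)} (hF : Fac J k t)
    {α β : Dual ℝ t} {τ σ : t}
    (hval : ∀ x y : ℤ, pt α β x y τ = (x : ℝ) ∧ pt α β x y σ = (y : ℝ))
    (S : Finset (ℤ × ℤ)) (hS : ∀ q ∈ S, IsRoot k t (pt α β q.1 q.2)) :
    finrank ℝ t + S.card ≤ finrank ℝ k := by
  classical
  have hinj : Function.Injective (fun q : ℤ × ℤ => pt α β q.1 q.2) := by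
    intro q q' h
    have h1 : pt α β q.1 q.2 τ = pt α β q'.1 q'.2 τ := by
      simp only at h
      rw [h]
    have h2 : pt α β q.1 q.2 σ = pt α β q'.1 q'.2 σ := by
      simp only at h
      rw [h]
    rw [(hval _ _).1, (hval _ _).1] at h1
    rw [(hval _ _).2, (hval _ _).2] at h2
    exact Prod.ext (by exact_mod_cast h1) (by exact_mod_cast h2)
  have h := hF.rcard (S.image fun q : ℤ × ℤ => pt α β q.1 q.2) (by
    intro γ hγ
    obtain ⟨q, hq, rfl⟩ := Finset.mem_image.1 hγ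
    exact hS q hq)
  rwa [Finset.card_image_of_injective S hinj] at h

/-- **Block R2F.** -/
theorem p_R2F (hPAI : Stmt_PAI) (hCRD : Stmt_CRD) (hRS2 : Stmt_RS2) (hPIC : Stmt_PIC)
    (hTOT : Stmt_TOT) (hSIG : Stmt_SIG) (hSPC : Stmt_SPC) (hCMB : Stmt_CMB) (hCMC : Stmt_CMC) :
    Stmt_R2F := by
  intro V _ _ _ J k t hF hr hbig
  obtain ⟨α, β, τ, σ, hP⟩ := hPAI V J k t hF hr hbig
  obtain ⟨hval, -, -, -⟩ := hCRD V J k t hF.fac α β τ σ hP
  obtain ⟨S, hS⟩ := hTOT V J k t hF.fac α β τ σ hP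
  rcases hRS2 V J k t hF.fac α β τ σ hP with hR | ⟨hR, hs1, hs2⟩
  · -- `A_1 × A_1`
    have hcard := R2F_card hF.fac hval
      ({((2 : ℤ), (0 : ℤ)), (-2, 0), (0, 2), (0, -2)} : Finset (ℤ × ℤ)) (by
        intro q hq
        rw [hR]
        simp only [Finset.mem_insert, Finset.mem_singleton] at hq
        rcases hq with rfl | rfl | rfl | rfl <;> simp [RA])
    have h4 : ({((2 : ℤ), (0 : ℤ)), (-2, 0), (0, 2), (0, -2)} : Finset (ℤ × ℤ)).card = 4 := by
      decide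
    rw [h4] at hcard
    have hpic := hPIC V J k t hF α β τ σ hP RA hR
    have hP' : Pair2 k t β α σ τ :=
      ⟨hP.rk, hP.cb, hP.ca, hP.wb, hP.wa, hP.ba, hP.ab⟩
    have hR' : ∀ x y : ℤ, IsRoot k t (pt β α x y) ↔ RA x y := by
      intro x y
      rw [R2F_swap, hR]
      simp only [RA]
      constructor
      · rintro (⟨h1, h2⟩ | ⟨h1, h2⟩)
        · exact Or.inr ⟨h2, h1⟩
        · exact Or.inl ⟨h2, h1⟩
      · rintro (⟨h1, h2⟩ | ⟨h1, h2⟩)
        · exact Or.inr ⟨h2, h1⟩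
        · exact Or.inl ⟨h2, h1⟩
    have hsum := hCMB _ _ hpic (fun x y h => hSIG V J k t hF α β τ σ hP hR x y
      ((R2F_dim t _).1 h)) (fun h => hSPC V J k t hF α β τ σ hP hR
        ⟨h.1, (R2F_dim t _).1 h.2.1, h.2.2⟩) (fun h => hSPC V J k t hF β α σ τ hP' hR'
          ⟨by rw [R2F_swap]; exact h.1, by rw [R2F_swap]; exact (R2F_dim t _).1 h.2.1,
            by rw [R2F_swap]; exact h.2.2⟩) S
    omega
  · -- `C_2`
    have hcard := R2F_card hF.fac hval
      ({((2 : ℤ), (0 : ℤ)), (-2, 0), (0, 2), (0, -2), (1, 1), (1, -1), (-1, 1), (-1, -1)} :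
        Finset (ℤ × ℤ)) (by
        intro q hq
        rw [hR]
        simp only [Finset.mem_insert, Finset.mem_singleton] at hq
        rcases hq with rfl | rfl | rfl | rfl | rfl | rfl | rfl | rfl <;> simp [RC, RA])
    have h8 : ({((2 : ℤ), (0 : ℤ)), (-2, 0), (0, 2), (0, -2), (1, 1), (1, -1), (-1, 1),
        (-1, -1)} : Finset (ℤ × ℤ)).card = 8 := by
      decide
    rw [h8] at hcard
    have hpic := hPIC V J k t hF α β τ σ hP RC hR
    have hsum := hCMC _ _ hpic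
      (fun x y j h hj => (R2F_dim t _).2 (hs1 x y j ((R2F_dim t _).1 h) hj))
      (fun x y j h hj => (R2F_dim t _).2 (hs2 x y j ((R2F_dim t _).1 h) hj)) S
    omega

end MPa8bd83
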