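import Pool.Agent.Work.MP_a8bd83_qk.Interface1
import Pool.Agent.Work.MP_a8bd83_qk.Interface2

set_option autoImplicit false

namespace MPa8bd83

open Module

theorem p_RDM (hRTZ : Stmt_RTZ) (hRTF : Stmt_RTF) (hRSY : Stmt_RSY) (hHEI : Stmt_HEI)
    (hONE : Stmt_ONE) (hRED : Stmt_RED) : Stmt_RDM := by
  intro V _ _ _ J k t hF α c h1 h2 hc
  haveI : CompleteSpace V := FiniteDimensional.complete ℂ V
  exact hRED V J k t hF.quat hF.lie hF.mab hRTZ hRTF hRSY hHEI hONE α c h1 hc h2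

end MPa8bd83
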