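/-
MP_a8bd83_gt, one more core statement (helper41): multiples of roots.
-/
import Pool.Agent.Work.MP_a8bd83_qk.Interface

namespace MPa8bd83

open Module

/-- RED.  If α and c α (c > 0) are roots then c = 1 (any rank).
Proof: as in RK1.  m the largest positive number with m α a root, E ∈ Rt (m α), suppose c α is a
root, 0 < c < m, F ∈ Rt (c α).  [E,F] = 0, G = [E',F] ≠ 0 and [E',G] = 0 (maximality, RSY);
the norm identity for F and G gives m = 2 c; then [F',E] = μ F (ONE) and
0 = [F,[F',E]] = [[F,F'],E] ≠ 0. -/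
def Stmt_RED : Prop :=
  ∀ (V : Type) [NormedAddCommGroup V] [InnerProductSpace ℂ V] [FiniteDimensional ℂ V]
    [CompleteSpace V] (J : V → V) (k t : Submodule ℝ (V →L[ℂ] V)),
    IsQuatStr J → IsLieSub J k → MaxAb k t →
    Stmt_RTZ → Stmt_RTF → Stmt_RSY → Stmt_HEI → Stmt_ONE →
    ∀ (α : Dual ℝ t) (c : ℝ), IsRoot k t α → 0 < c → IsRoot k t (c • α) → c = 1

end MPa8bd83
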