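/-
MP_a8bd83_gt, block RED (helper41).
-/
import Pool.Agent.Work.MP_a8bd83_qk.Interface1

namespace MPa8bd83

open Module

namespace RED

variable {V : Type} [NormedAddCommGroup V] [InnerProductSpace ℂ V] [FiniteDimensional ℂ V]

/-- trace -/
noncomputable def T (A : V →L[ℂ] V) : ℂ := LinearMap.trace ℂ V (A : V →ₗ[ℂ] V)

theorem T_sub (A B : V →L[ℂ] V) : T (A - B) = T A - T B := by
  unfold T
  rw [ContinuousLinearMap.coe_sub, map_sub]

theorem T_smul (c : ℂ) (A : V →L[ℂ] V) : T (c • A) = c * T A := by
  unfold T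
  rw [ContinuousLinearMap.coe_smul, map_smul, smul_eq_mul]

theorem T_comm (A B : V →L[ℂ] V) : T (A * B) = T (B * A) := by
  unfold T
  have := LinearMap.trace_mul_comm ℂ (A : V →ₗ[ℂ] V) (B : V →ₗ[ℂ] V)
  exact this

variable [CompleteSpace V]

/-- Hilbert-Schmidt norm squared -/
noncomputable def nrm (A : V →L[ℂ] V) : ℝ :=
  ∑ i, ‖A (stdOrthonormalBasis ℂ V i)‖ ^ 2

theorem T_adj (A : V →L[ℂ] V) : T (ContinuousLinearMap.adjoint A * A) = (nrm A : ℂ) := by
  unfold T nrm
  rw [LinearMap.trace_eq_sum_inner _ (stdOrthonormalBasis ℂ V)]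
  push_cast
  refine Finset.sum_congr rfl (fun i _ => ?_)
  have h : inner ℂ ((stdOrthonormalBasis ℂ V) i)
      ((ContinuousLinearMap.adjoint A) (A ((stdOrthonormalBasis ℂ V) i)))
      = inner ℂ (A ((stdOrthonormalBasis ℂ V) i)) (A ((stdOrthonormalBasis ℂ V) i)) :=
    ContinuousLinearMap.adjoint_inner_right _ _ _
  change inner ℂ ((stdOrthonormalBasis ℂ V) i)
      ((ContinuousLinearMap.adjoint A) (A ((stdOrthonormalBasis ℂ V) i))) = _
  rw [h, inner_self_eq_norm_sq_to_K]
  norm_cast

theorem nrm_nonneg (A : V →L[ℂ] V) : 0 ≤ nrm A :=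
  Finset.sum_nonneg (fun _ _ => sq_nonneg _)

theorem nrm_eq_zero {A : V →L[ℂ] V} (h : nrm A = 0) : A = 0 := by
  have h1 := (Finset.sum_eq_zero_iff_of_nonneg
    (fun i _ => sq_nonneg ‖A (stdOrthonormalBasis ℂ V i)‖)).mp h
  have h2 : (A : V →ₗ[ℂ] V) = 0 := by
    apply (stdOrthonormalBasis ℂ V).toBasis.ext
    intro i
    have := h1 i (Finset.mem_univ i)
    simp only [OrthonormalBasis.coe_toBasis, ContinuousLinearMap.coe_coe, LinearMap.zero_apply]
    exact norm_eq_zero.mp (pow_eq_zero_iff (two_ne_zero)|>.mp this)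
  ext v
  have := congrArg (fun f : V →ₗ[ℂ] V => f v) h2
  simpa using this

theorem nrm_pos {A : V →L[ℂ] V} (h : A ≠ 0) : 0 < nrm A :=
  lt_of_le_of_ne (nrm_nonneg A) (fun h0 => h (nrm_eq_zero h0.symm))

theorem nrm_zero : nrm (0 : V →L[ℂ] V) = 0 := by
  unfold nrm
  simp

theorem nrm_smul (c : ℂ) (A : V →L[ℂ] V) : nrm (c • A) = ‖c‖ ^ 2 * nrm A := by
  unfold nrm
  rw [Finset.mul_sum]
  refine Finset.sum_congr rfl (fun i _ => ?_)
  rw [ContinuousLinearMap.smul_apply, norm_smul, mul_pow]

/-- norm identity -/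
theorem norm_id (E F : V →L[ℂ] V) (l : ℝ)
    (h : (E * ContinuousLinearMap.adjoint E - ContinuousLinearMap.adjoint E * E) * F
      - F * (E * ContinuousLinearMap.adjoint E - ContinuousLinearMap.adjoint E * E)
      = (l : ℂ) • F) :
    nrm (E * F - F * E)
      - nrm (ContinuousLinearMap.adjoint E * F - F * ContinuousLinearMap.adjoint E)
      = - (l * nrm F) := by
  have key : ((nrm (E * F - F * E)
      - nrm (ContinuousLinearMap.adjoint E * F - F * ContinuousLinearMap.adjoint E) : ℝ) : ℂ)
      = ((- (l * nrm F) : ℝ) : ℂ) := by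
    push_cast
    rw [← T_adj, ← T_adj, ← T_adj]
    have hadj1 : ContinuousLinearMap.adjoint (E * F - F * E)
        = ContinuousLinearMap.adjoint F * ContinuousLinearMap.adjoint E
          - ContinuousLinearMap.adjoint E * ContinuousLinearMap.adjoint F := by
      rw [map_sub]
      have a1 : ContinuousLinearMap.adjoint (E * F)
        = ContinuousLinearMap.adjoint F * ContinuousLinearMap.adjoint E :=
        ContinuousLinearMap.adjoint_comp E F
      have a2 : ContinuousLinearMap.adjoint (F * E)
        = ContinuousLinearMap.adjoint E * ContinuousLinearMap.adjoint F :=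
        ContinuousLinearMap.adjoint_comp F E
      rw [a1, a2]
    have hadj2 : ContinuousLinearMap.adjoint
        (ContinuousLinearMap.adjoint E * F - F * ContinuousLinearMap.adjoint E)
        = ContinuousLinearMap.adjoint F * E - E * ContinuousLinearMap.adjoint F := by
      rw [map_sub]
      have a1 : ContinuousLinearMap.adjoint (ContinuousLinearMap.adjoint E * F)
        = ContinuousLinearMap.adjoint F * ContinuousLinearMap.adjoint
          (ContinuousLinearMap.adjoint E) :=
        ContinuousLinearMap.adjoint_comp _ F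
      have a2 : ContinuousLinearMap.adjoint (F * ContinuousLinearMap.adjoint E)
        = ContinuousLinearMap.adjoint (ContinuousLinearMap.adjoint E)
          * ContinuousLinearMap.adjoint F :=
        ContinuousLinearMap.adjoint_comp F _
      rw [a1, a2, ContinuousLinearMap.adjoint_adjoint]
    rw [hadj1, hadj2]
    set E' := ContinuousLinearMap.adjoint E
    set F' := ContinuousLinearMap.adjoint F
    have hT : T (F' * ((E * E' - E' * E) * F - F * (E * E' - E' * E))) = l * T (F' * F) := by
      rw [h, mul_smul_comm, T_smul]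
    have e1 : T (E' * F' * (F * E)) = T (F' * (F * (E * E'))) := by
      rw [show E' * F' * (F * E) = E' * (F' * (F * E)) by noncomm_ring, T_comm]
      simp only [mul_assoc]
    have e2 : T (E * F' * (F * E')) = T (F' * (F * (E' * E))) := by
      rw [show E * F' * (F * E') = E * (F' * (F * E')) by noncomm_ring, T_comm]
      simp only [mul_assoc]
    have e3 : T (E * F' * (E' * F)) = T (F' * E' * (F * E)) := by
      rw [show E * F' * (E' * F) = E * (F' * (E' * F)) by noncomm_ring, T_comm]
      simp only [mul_assoc]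
    have e4 : T (E' * F' * (E * F)) = T (F' * E * (F * E')) := by
      rw [show E' * F' * (E * F) = E' * (F' * (E * F)) by noncomm_ring, T_comm]
      simp only [mul_assoc]
    have l1 : T ((F' * E' - E' * F') * (E * F - F * E))
        = T (F' * E' * (E * F)) - T (F' * E' * (F * E)) - T (E' * F' * (E * F))
          + T (E' * F' * (F * E)) := by
      rw [show (F' * E' - E' * F') * (E * F - F * E)
        = (F' * E' * (E * F) - F' * E' * (F * E)) - (E' * F' * (E * F) - E' * F' * (F * E)) by
          noncomm_ring, T_sub, T_sub, T_sub]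
      ring
    have l2 : T ((F' * E - E * F') * (E' * F - F * E'))
        = T (F' * E * (E' * F)) - T (F' * E * (F * E')) - T (E * F' * (E' * F))
          + T (E * F' * (F * E')) := by
      rw [show (F' * E - E * F') * (E' * F - F * E')
        = (F' * E * (E' * F) - F' * E * (F * E')) - (E * F' * (E' * F) - E * F' * (F * E')) by
          noncomm_ring, T_sub, T_sub, T_sub]
      ring
    have l3 : T (F' * ((E * E' - E' * E) * F - F * (E * E' - E' * E)))
        = T (F' * E * (E' * F)) - T (F' * E' * (E * F)) - T (F' * (F * (E * E')))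
          + T (F' * (F * (E' * E))) := by
      rw [show F' * ((E * E' - E' * E) * F - F * (E * E' - E' * E))
        = (F' * E * (E' * F) - F' * E' * (E * F)) - (F' * (F * (E * E')) - F' * (F * (E' * E))) by
          noncomm_ring, T_sub, T_sub, T_sub]
      ring
    rw [l1, l2, e1, e2, e3, e4]
    rw [l3] at hT
    linear_combination -hT
  exact_mod_cast key

theorem dadd {t : Submodule ℝ (V →L[ℂ] V)} (x y : ℝ) (α : Dual ℝ t) :
    x • α + y • α = (x + y) • α := by
  ext ξ
  simp only [LinearMap.add_apply, LinearMap.smul_apply, smul_eq_mul]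
  ring

theorem dneg {t : Submodule ℝ (V →L[ℂ] V)} (x : ℝ) (α : Dual ℝ t) :
    -(x • α) = (-x) • α := by
  ext ξ
  simp only [LinearMap.neg_apply, LinearMap.smul_apply, smul_eq_mul]
  ring

theorem kC_lie {J : V → V} {k : Submodule ℝ (V →L[ℂ] V)} (hk : IsLieSub J k)
    {X Y : V →L[ℂ] V} (hX : X ∈ kC k) (hY : Y ∈ kC k) : X * Y - Y * X ∈ kC k := by
  unfold kC at hX hY ⊢
  induction hX using Submodule.span_induction with
  | mem x hx =>
    induction hY using Submodule.span_induction with
    | mem y hy => exact Submodule.subset_span (hk.lie x hx y hy)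
    | zero => simp
    | add a b _ _ ha hb =>
      rw [show x * (a + b) - (a + b) * x = (x * a - a * x) + (x * b - b * x) by noncomm_ring]
      exact add_mem ha hb
    | smul c a _ ha =>
      rw [mul_smul_comm, smul_mul_assoc, ← smul_sub]
      exact Submodule.smul_mem _ _ ha
  | zero => simp
  | add a b _ _ ha hb =>
    rw [show (a + b) * Y - Y * (a + b) = (a * Y - Y * a) + (b * Y - Y * b) by noncomm_ring]
    exact add_mem ha hb
  | smul c a _ ha =>
    rw [mul_smul_comm, smul_mul_assoc, ← smul_sub]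
    exact Submodule.smul_mem _ _ ha

theorem Rt_lie {J : V → V} {k t : Submodule ℝ (V →L[ℂ] V)} (hk : IsLieSub J k)
    {α β : Dual ℝ t} {X Y : V →L[ℂ] V} (hX : X ∈ Rt k t α) (hY : Y ∈ Rt k t β) :
    X * Y - Y * X ∈ Rt k t (α + β) := by
  refine ⟨kC_lie hk hX.1 hY.1, fun ξ => ?_⟩
  have h1 := hX.2 ξ
  have h2 := hY.2 ξ
  set ζ : V →L[ℂ] V := (ξ : V →L[ℂ] V)
  have e1 : ζ * X = ((α ξ : ℂ) * Complex.I) • X + X * ζ := by rw [← h1]; abel
  have e2 : ζ * Y = ((β ξ : ℂ) * Complex.I) • Y + Y * ζ := by rw [← h2]; abel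
  have e3 : ζ * (X * Y - Y * X) - (X * Y - Y * X) * ζ
      = (ζ * X - X * ζ) * Y + X * (ζ * Y - Y * ζ) - (ζ * Y - Y * ζ) * X
        - Y * (ζ * X - X * ζ) := by noncomm_ring
  rw [e3, h1, h2]
  simp only [smul_mul_assoc, mul_smul_comm]
  rw [LinearMap.add_apply]
  push_cast
  module

end RED

open RED in
theorem RED : Stmt_RED := by
  intro V _ _ _ _ J k t hJ hk ht hRTZ hRTF hRSY hHEI hONE α c hα hc hcα
  -- positive multiples
  set S : Set ℝ := {x | 0 < x ∧ IsRoot k t (x • α)} with hS
  have hfin : S.Finite := by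
    have h1 := (hRTF V J k t hJ hk ht hRTZ).1
    refine Set.Finite.of_finite_image (f := fun x : ℝ => x • α) (h1.subset ?_) ?_
    · rintro β ⟨x, hx, rfl⟩
      exact hx.2
    · intro x _ y _ hxy
      simp only at hxy
      obtain ⟨ξ, hξ⟩ : ∃ ξ, α ξ ≠ 0 := by
        by_contra hcon
        push Not at hcon
        exact hα.1 (LinearMap.ext hcon)
      have h2 := congrArg (fun f : Dual ℝ t => f ξ) hxy
      simp only [LinearMap.smul_apply, smul_eq_mul] at h2
      exact mul_right_cancel₀ hξ h2
  have h1S : (1 : ℝ) ∈ S := ⟨one_pos, by rwa [one_smul]⟩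
  have hcS : c ∈ S := ⟨hc, hcα⟩
  obtain ⟨m, hmS, hmax⟩ := hfin.exists_maximalFor id S ⟨1, h1S⟩
  have hmax' : ∀ x ∈ S, x ≤ m := by
    intro x hx
    by_contra hcon
    push Not at hcon
    have := hmax hx hcon.le
    simp only [id] at this
    linarith
  have hm0 : 0 < m := hmS.1
  -- the key claim
  have key : ∀ x ∈ S, x = m := by
    intro x hx
    by_contra hne
    have hxm : x < m := lt_of_le_of_ne (hmax' x hx) hne
    have hx0 : 0 < x := hx.1
    obtain ⟨E, hE, hE0⟩ := Submodule.exists_mem_ne_zero_of_ne_bot hmS.2.2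
    obtain ⟨F, hF, hF0⟩ := Submodule.exists_mem_ne_zero_of_ne_bot hx.2.2
    obtain ⟨hR1, hR2, hR3, hR4, hR5⟩ := hRSY V J k t hJ hk ht.le
    obtain ⟨η, hη, hηpos⟩ := hHEI V J k t hJ hk ht hRTZ hRSY (m • α) E hmS.2.1 hE hE0
    set E' := ContinuousLinearMap.adjoint E with hE'
    have hE'mem : E' ∈ Rt k t (-(m • α)) := hR2 _ E hE
    have ha : 0 < α η := by
      rw [LinearMap.smul_apply, smul_eq_mul] at hηpos
      exact (mul_pos_iff_of_pos_left hm0).mp hηpos
    -- bracket with H
    have hH : ∀ (y : ℝ) (G : V →L[ℂ] V), G ∈ Rt k t (y • α) →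
        (E * E' - E' * E) * G - G * (E * E' - E' * E) = ((y * α η : ℝ) : ℂ) • G := by
      intro y G hG
      have h2 := hG.2 η
      rw [hη]
      have : (-(Complex.I • (η : V →L[ℂ] V))) * G - G * (-(Complex.I • (η : V →L[ℂ] V)))
          = (-Complex.I) • ((η : V →L[ℂ] V) * G - G * (η : V →L[ℂ] V)) := by
        rw [smul_sub, neg_mul, mul_neg, smul_mul_assoc, mul_smul_comm, neg_smul, neg_smul]
      rw [this, h2, smul_smul]
      congr 1
      rw [LinearMap.smul_apply, smul_eq_mul]
      push_cast
      linear_combination (-(y * α η : ℂ)) * Complex.I_mul_I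
    -- not roots
    have hnot : ∀ y : ℝ, m < y → ∀ G ∈ Rt k t (y • α), G = 0 := by
      intro y hy G hG
      by_contra hG0
      have : y ∈ S := ⟨by linarith, ⟨smul_ne_zero (by linarith) hα.1, fun h => by
        rw [h, Submodule.mem_bot] at hG
        exact hG0 hG⟩⟩
      exact absurd (hmax' y this) (not_le.mpr hy)
    have hnot' : ∀ y : ℝ, y < -m → ∀ G ∈ Rt k t (y • α), G = 0 := by
      intro y hy G hG
      by_contra hG0
      have h1 : IsRoot k t (y • α) := ⟨smul_ne_zero (by linarith) hα.1, fun h => by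
        rw [h, Submodule.mem_bot] at hG
        exact hG0 hG⟩
      have h2 := hR5 _ h1
      rw [dneg] at h2
      have : -y ∈ S := ⟨by linarith, h2⟩
      have := hmax' _ this
      linarith
    -- [E,F] = 0
    have hEF : E * F - F * E = 0 := by
      apply hnot (m + x) (by linarith)
      rw [← dadd]
      exact Rt_lie hk hE hF
    set G := E' * F - F * E' with hG
    have hGmem : G ∈ Rt k t ((x - m) • α) := by
      have := Rt_lie hk hE'mem hF
      rwa [show -(m • α) + x • α = (x - m) • α by rw [dneg, dadd]; congr 1; ring] at this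
    have hE'G : E' * G - G * E' = 0 := by
      apply hnot' (x - 2 * m) (by linarith)
      have := Rt_lie hk hE'mem hGmem
      rwa [show -(m • α) + (x - m) • α = (x - 2 * m) • α by
        rw [dneg, dadd]; congr 1; ring] at this
    have n1 := norm_id E F (x * α η) (hH x F hF)
    rw [hEF, nrm_zero, ← hE', ← hG] at n1
    have n2 := norm_id E G ((x - m) * α η) (hH (x - m) G hGmem)
    rw [← hE', hE'G, nrm_zero] at n2
    have hEG : E * G - G * E = ((x * α η : ℝ) : ℂ) • F := by
      rw [← hH x F hF, hG]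
      have : E * (E' * F - F * E') - (E' * F - F * E') * E
          = ((E * E' - E' * E) * F - F * (E * E' - E' * E))
            + (E' * (E * F - F * E) - (E * F - F * E) * E') := by noncomm_ring
      rw [this, hEF, mul_zero, zero_mul, sub_zero, add_zero]
    rw [hEG, nrm_smul, Complex.norm_real, Real.norm_eq_abs, sq_abs] at n2
    have hFpos := nrm_pos hF0
    have hxa : 0 < x * α η := mul_pos hx0 ha
    have h2x : m = 2 * x := by
      have h3 : nrm G = x * α η * nrm F := by linarith
      rw [h3] at n2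
      have h4 : (x * α η * nrm F) * (x * α η - (m - x) * α η) = 0 := by nlinarith
      rcases mul_eq_zero.mp h4 with h | h
      · exact absurd h (mul_pos hxa hFpos).ne'
      · have : (x - (m - x)) * α η = 0 := by linarith
        rcases mul_eq_zero.mp this with h | h
        · linarith
        · exact absurd h ha.ne'
    -- final contradiction
    obtain ⟨ζ, hζ, hζpos⟩ := hHEI V J k t hJ hk ht hRTZ hRSY (x • α) F hx.2.1 hF hF0
    set F' := ContinuousLinearMap.adjoint F with hF'
    have hF'mem : F' ∈ Rt k t (-(x • α)) := hR2 _ F hF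
    have hG'mem : F' * E - E * F' ∈ Rt k t (x • α) := by
      have := Rt_lie hk hF'mem hE
      rwa [show -(x • α) + m • α = x • α by
        rw [dneg, dadd]; congr 1; rw [h2x]; ring] at this
    obtain ⟨μ, hμ⟩ := hONE V J k t hJ hk ht hRTZ hRSY hHEI (x • α) F (F' * E - E * F') hx.2.1 hF
      hF0 hG'mem
    have hz : F * (F' * E - E * F') - (F' * E - E * F') * F = 0 := by
      rw [hμ, mul_smul_comm, smul_mul_assoc, sub_self]
    have hz2 : F * (F' * E - E * F') - (F' * E - E * F') * F
        = ((F * F' - F' * F) * E - E * (F * F' - F' * F))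
          - (F' * (E * F - F * E) - (E * F - F * E) * F') := by noncomm_ring
    rw [hz2, hEF, mul_zero, zero_mul, sub_zero, sub_zero, hζ] at hz
    have h5 := hE.2 ζ
    have h6 : (-(Complex.I • (ζ : V →L[ℂ] V))) * E - E * (-(Complex.I • (ζ : V →L[ℂ] V)))
        = (-Complex.I) • ((ζ : V →L[ℂ] V) * E - E * (ζ : V →L[ℂ] V)) := by
      rw [smul_sub, neg_mul, mul_neg, smul_mul_assoc, mul_smul_comm, neg_smul, neg_smul]
    rw [h6, h5, smul_smul] at hz
    rcases smul_eq_zero.mp hz with h | h
    · have h7 : ((m • α) ζ : ℂ) = 0 := by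
        have h8 : (-Complex.I) * ((((m • α) ζ : ℝ) : ℂ) * Complex.I) = (((m • α) ζ : ℝ) : ℂ) := by
          linear_combination (-(((m • α) ζ : ℝ) : ℂ)) * Complex.I_mul_I
        rw [h8] at h
        exact h
      have h9 : (m • α) ζ = 0 := by exact_mod_cast h7
      rw [LinearMap.smul_apply, smul_eq_mul] at h9 hζpos
      rcases mul_eq_zero.mp h9 with h | h
      · exact hm0.ne' h
      · rw [h, mul_zero] at hζpos
        exact lt_irrefl _ hζpos
    · exact hE0 h
  rw [key c hcS, ← key 1 h1S]

end MPa8bd83
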