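import Pool.Agent.Work.MP_a8bd83_qk.Interface3

/-! Block RES: restriction to a stable subspace. -/

set_option autoImplicit false

namespace MPa8bd83

open Module

theorem p_RES (hMIN : Stmt_MIN) : Stmt_RES := by
  intro V _ _ _ J hJ P L hJP hL hdim
  haveI : FiniteDimensional ℝ (V →L[ℂ] V) := FiniteDimensional.complexToReal (V →L[ℂ] V)
  let J' : P → P := fun x => ⟨J x, hJP x x.2⟩
  have hJ' : IsQuatStr J' := by
    refine ⟨fun x y => Subtype.ext (hJ.add x y), fun c x => Subtype.ext (hJ.smul c x),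
      fun x => Subtype.ext (hJ.sq x), fun x y => hJ.inner x y⟩
  let R : L →ₗ[ℝ] (P →L[ℂ] P) :=
    { toFun := fun ξ => (ξ.1.comp P.subtypeL).codRestrict P (fun x => (hL ξ.1 ξ.2).2 x x.2)
      map_add' := by
        intro ξ η
        apply ContinuousLinearMap.ext
        intro x
        rfl
      map_smul' := by
        intro c ξ
        apply ContinuousLinearMap.ext
        intro x
        rfl }
  have hR : ∀ (ξ : L) (x : P), ((R ξ x : P) : V) = ξ.1 x := fun ξ x => rfl
  have hrk : finrank ℝ (LinearMap.range R) ≤ finrank ℝ L := LinearMap.finrank_range_le R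
  obtain ⟨x, hx0, hx⟩ := hMIN P J' hJ' (LinearMap.range R) (by
    rintro _ ⟨ξ, rfl⟩
    have hs := (hL ξ.1 ξ.2).1
    refine ⟨fun x y => ?_, fun x => ?_⟩
    · exact hs.skew x y
    · apply Subtype.ext
      exact hs.comm x) (by omega)
  refine ⟨x, x.2, fun h => hx0 (Subtype.ext h), fun ξ hξ => ?_⟩
  obtain ⟨h1, h2⟩ := hx (R ⟨ξ, hξ⟩) ⟨⟨ξ, hξ⟩, rfl⟩
  exact ⟨h1, h2⟩

end MPa8bd83
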