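/-
MP_a8bd83_gt, block RK1: rank one algebras.
-/
import Pool.Agent.Work.MP_a8bd83_qk.Interface

namespace MPa8bd83

open Module

namespace BRK1

theorem jac {A : Type} [Ring A] (a b c : A) :
    a * (b * c - c * b) - (b * c - c * b) * a =
      ((a * b - b * a) * c - c * (a * b - b * a)) + (b * (a * c - c * a) - (a * c - c * a) * b) := by
  noncomm_ring

variable {V : Type} [NormedAddCommGroup V] [InnerProductSpace ℂ V]

theorem brmem (k : Submodule ℝ (V →L[ℂ] V))
    (hk : ∀ ξ ∈ k, ∀ η ∈ k, ξ * η - η * ξ ∈ k) (X : V →L[ℂ] V) (hX : X ∈ kC k) (Y : V →L[ℂ] V)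
    (hY : Y ∈ kC k) : X * Y - Y * X ∈ kC k := by
  have h1 : ∀ ξ ∈ k, ∀ X ∈ kC k, ξ * X - X * ξ ∈ kC k := by
    intro ξ hξ X hX
    unfold kC at hX
    induction hX using Submodule.span_induction with
    | mem x hx => exact Submodule.subset_span (hk ξ hξ x hx)
    | zero => simp
    | add x y _ _ hx hy =>
      have : ξ * (x + y) - (x + y) * ξ = (ξ * x - x * ξ) + (ξ * y - y * ξ) := by noncomm_ring
      rw [this]
      exact add_mem hx hy
    | smul c x _ hx =>
      have : ξ * (c • x) - (c • x) * ξ = c • (ξ * x - x * ξ) := by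
        rw [smul_sub, mul_smul_comm, smul_mul_assoc]
      rw [this]
      exact Submodule.smul_mem _ _ hx
  unfold kC at hX
  induction hX using Submodule.span_induction with
  | mem x hx => exact h1 x hx Y hY
  | zero => simp
  | add x y _ _ hx hy =>
    have : (x + y) * Y - Y * (x + y) = (x * Y - Y * x) + (y * Y - Y * y) := by noncomm_ring
    rw [this]
    exact add_mem hx hy
  | smul c x _ hx =>
    have : (c • x) * Y - Y * (c • x) = c • (x * Y - Y * x) := by
      rw [smul_sub, mul_smul_comm, smul_mul_assoc]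
    rw [this]
    exact Submodule.smul_mem _ _ hx

theorem brRt (k t : Submodule ℝ (V →L[ℂ] V))
    (hk : ∀ ξ ∈ k, ∀ η ∈ k, ξ * η - η * ξ ∈ k) {α β : Dual ℝ t} {E F : V →L[ℂ] V}
    (hE : E ∈ Rt k t α) (hF : F ∈ Rt k t β) : E * F - F * E ∈ Rt k t (α + β) := by
  refine ⟨brmem k hk E hE.1 F hF.1, fun ξ => ?_⟩
  have h1 := hE.2 ξ
  have h2 := hF.2 ξ
  rw [jac, h1, h2]
  have h3 : ((α + β) ξ : ℂ) = (α ξ : ℂ) + (β ξ : ℂ) := by
    rw [LinearMap.add_apply]
    push_cast
    rfl
  rw [h3, add_mul, add_smul, smul_mul_assoc, mul_smul_comm, mul_smul_comm, smul_mul_assoc,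
    smul_sub, smul_sub]

/-- `H = [E, E']` acts on a root space by a scalar. -/
theorem Hact (k t : Submodule ℝ (V →L[ℂ] V)) {E E' F : V →L[ℂ] V} {η : t} {β : Dual ℝ t}
    (hH : E * E' - E' * E = - (Complex.I • (η : V →L[ℂ] V))) (hF : F ∈ Rt k t β) :
    (E * E' - E' * E) * F - F * (E * E' - E' * E) = ((β η : ℝ) : ℂ) • F := by
  rw [hH]
  have h1 := hF.2 η
  have h2 : -(Complex.I • (η : V →L[ℂ] V)) * F - F * -(Complex.I • (η : V →L[ℂ] V)) =
      -(Complex.I • ((η : V →L[ℂ] V) * F - F * (η : V →L[ℂ] V))) := by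
    rw [neg_mul, mul_neg, smul_mul_assoc, mul_smul_comm, smul_sub]
    abel
  rw [h2, h1, smul_smul, ← neg_smul]
  congr 1
  linear_combination (-((β η : ℝ) : ℂ)) * Complex.I_mul_I

theorem adj_skew [FiniteDimensional ℂ V] [CompleteSpace V] (ξ : V →L[ℂ] V)
    (hs : ∀ x y : V, inner ℂ (ξ x) y = - inner ℂ x (ξ y)) :
    ContinuousLinearMap.adjoint ξ = -ξ := by
  ext x
  apply ext_inner_right ℂ
  intro y
  rw [ContinuousLinearMap.adjoint_inner_left, neg_apply, inner_neg_left, hs,
    neg_neg]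

/-- No root strictly between. -/
theorem only [FiniteDimensional ℂ V] [CompleteSpace V] (J : V → V)
    (k t : Submodule ℝ (V →L[ℂ] V)) (hJ : IsQuatStr J) (hk : IsLieSub J k) (ht : MaxAb k t)
    (hRTZ : Stmt_RTZ) (hRSY : Stmt_RSY) (hHEI : Stmt_HEI) (hONE : Stmt_ONE)
    (hneg : ∀ α : Dual ℝ t, IsRoot k t α → IsRoot k t (-α))
    (h0 : t) (hspan : ∀ τ : t, ∃ r : ℝ, r • h0 = τ) (α : Dual ℝ t) (hα : IsRoot k t α)
    (hmax : ∀ γ : Dual ℝ t, IsRoot k t γ → γ h0 ≤ α h0) (hpos : 0 < α h0)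
    (β : Dual ℝ t) (hβ : IsRoot k t β) (hβpos : 0 < β h0) : β = α := by
  have hdet : ∀ γ δ : Dual ℝ t, γ h0 = δ h0 → γ = δ := by
    intro γ δ h
    apply LinearMap.ext
    intro τ
    obtain ⟨r, rfl⟩ := hspan τ
    rw [map_smul, map_smul, h]
  have hzero : ∀ γ : Dual ℝ t, γ ≠ 0 → ¬ IsRoot k t γ → ∀ X ∈ Rt k t γ, X = 0 := by
    intro γ hγ hnr X hX
    by_contra hX0
    exact hnr ⟨hγ, fun hbot => hX0 (by rw [hbot] at hX; exact (Submodule.mem_bot ℂ).1 hX)⟩
  have hzero' : ∀ γ : Dual ℝ t, α h0 < γ h0 → ∀ X ∈ Rt k t γ, X = 0 := by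
    intro γ hγ
    refine hzero γ ?_ fun h => absurd (hmax γ h) (not_le.2 hγ)
    rintro rfl
    rw [LinearMap.zero_apply] at hγ
    linarith
  have hzero'' : ∀ γ : Dual ℝ t, γ h0 < -(α h0) → ∀ X ∈ Rt k t γ, X = 0 := by
    intro γ hγ
    refine hzero γ ?_ fun h => ?_
    · rintro rfl
      rw [LinearMap.zero_apply] at hγ
      linarith
    · have := hmax _ (hneg γ h)
      rw [LinearMap.neg_apply] at this
      linarith
  by_contra hne
  obtain ⟨E, hE, hE0⟩ := (Submodule.ne_bot_iff _).1 hα.2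
  obtain ⟨F, hF, hF0⟩ := (Submodule.ne_bot_iff _).1 hβ.2
  obtain ⟨-, hadj, -, -, -⟩ := hRSY V J k t hJ hk ht.le
  have hE' := hadj α E hE
  have hF' := hadj β F hF
  obtain ⟨η, hη, hηpos⟩ := hHEI V J k t hJ hk ht hRTZ hRSY α E hα.1 hE hE0
  obtain ⟨ηF, hηF, hηFpos⟩ := hHEI V J k t hJ hk ht hRTZ hRSY β F hβ.1 hF hF0
  obtain ⟨s, hs⟩ := hspan η
  have hs0 : 0 < s := by
    rw [← hs, map_smul, smul_eq_mul] at hηpos
    exact (mul_pos_iff_of_pos_right hpos).1 hηpos
  have hβη : 0 < β η := by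
    rw [← hs, map_smul, smul_eq_mul]
    exact mul_pos hs0 hβpos
  -- first step: `α = β + β`
  have hEF : E * F - F * E = 0 := by
    refine hzero' (α + β) ?_ _ (brRt k t hk.lie hE hF)
    rw [LinearMap.add_apply]
    linarith
  have hG := brRt k t hk.lie hE' hF
  have hE'G := brRt k t hk.lie hE' hG
  have hE'G0 := hzero'' _ (by
    rw [LinearMap.add_apply, LinearMap.add_apply, LinearMap.neg_apply]
    have h1 := lt_of_le_of_ne (hmax β hβ) (fun h => hne (hdet _ _ h))
    linarith) _ hE'G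
  have eq1 := jac E (ContinuousLinearMap.adjoint E) F
  rw [hEF, mul_zero, zero_mul, sub_self, add_zero, Hact k t hη hF] at eq1
  have eq2 := jac (ContinuousLinearMap.adjoint E) E
    (ContinuousLinearMap.adjoint E * F - F * ContinuousLinearMap.adjoint E)
  have eq3 := Hact k t hη hG
  have eq4 : ∀ a b c : V →L[ℂ] V, (a * b - b * a) * c - c * (a * b - b * a) =
      -((b * a - a * b) * c - c * (b * a - a * b)) := by
    intro a b c
    noncomm_ring
  rw [hE'G0, mul_zero, zero_mul, sub_self, add_zero, eq1, eq4, eq3, mul_smul_comm,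
    smul_mul_assoc, ← smul_sub, ← neg_smul] at eq2
  have hG0 : ContinuousLinearMap.adjoint E * F - F * ContinuousLinearMap.adjoint E ≠ 0 := by
    intro h
    rw [h, mul_zero, zero_mul, sub_self] at eq1
    rcases smul_eq_zero.1 eq1.symm with h1 | h1
    · have : β η = 0 := by exact_mod_cast h1
      linarith
    · exact hF0 h1
  have eq5 : ((β η : ℝ) : ℂ) = -(((-α + β) η : ℝ) : ℂ) := smul_left_injective ℂ hG0 eq2
  have eq6 : β η = -((-α + β) η) := by exact_mod_cast eq5
  rw [LinearMap.add_apply, LinearMap.neg_apply] at eq6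
  have hαβ : α = β + β := by
    apply hdet
    rw [LinearMap.add_apply]
    have h1 : α η = β η + β η := by linarith
    rw [← hs, map_smul, map_smul, smul_eq_mul, smul_eq_mul] at h1
    have h2 : s * (α h0 - (β h0 + β h0)) = 0 := by linarith
    rcases mul_eq_zero.1 h2 with h3 | h3
    · linarith
    · linarith
  -- second step
  have hFE : F * E - E * F = 0 := by
    rw [← neg_sub, hEF, neg_zero]
  have hG' := brRt k t hk.lie hF' hE
  have hsub : -β + α = β := by
    rw [hαβ]
    abel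
  rw [hsub] at hG'
  obtain ⟨μ, hμ⟩ := hONE V J k t hJ hk ht hRTZ hRSY hHEI β F _ hβ.1 hF hF0 hG'
  have eq7 := jac F (ContinuousLinearMap.adjoint F) E
  rw [hFE, mul_zero, zero_mul, sub_self, add_zero, Hact k t hηF hE, hμ, mul_smul_comm,
    smul_mul_assoc, sub_self] at eq7
  rcases smul_eq_zero.1 eq7.symm with h1 | h1
  · have h2 : α ηF = 0 := by exact_mod_cast h1
    rw [hαβ, LinearMap.add_apply] at h2
    linarith
  · exact hE0 h1

/-- The coefficient of `η` is real. -/
theorem real_coeff [FiniteDimensional ℂ V] [CompleteSpace V] (x E ξ : V →L[ℂ] V) (z b c : ℂ)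
    (hx0 : x ≠ 0) (hx : ContinuousLinearMap.adjoint x = -x)
    (hξ : ContinuousLinearMap.adjoint ξ = -ξ)
    (hE : x * E - E * x = (2 * Complex.I) • E)
    (hE' : x * ContinuousLinearMap.adjoint E - ContinuousLinearMap.adjoint E * x =
      (-(2 * Complex.I)) • ContinuousLinearMap.adjoint E)
    (h : ξ = z • x + b • E + c • ContinuousLinearMap.adjoint E) : z = (z.re : ℂ) := by
  obtain ⟨E', hEE'⟩ : ∃ E', E' = ContinuousLinearMap.adjoint E := ⟨_, rfl⟩
  have hadj : ContinuousLinearMap.adjoint E' = E := by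
    rw [hEE', ContinuousLinearMap.adjoint_adjoint]
  rw [← hEE'] at hE' h
  have h1 : -ξ = (starRingEnd ℂ z) • (-x) + (starRingEnd ℂ b) • E' + (starRingEnd ℂ c) • E := by
    rw [← hξ, h, map_add, map_add, map_smulₛₗ, map_smulₛₗ, map_smulₛₗ, hx, hadj, ← hEE']
  have h2 : (z - starRingEnd ℂ z) • x + (b + starRingEnd ℂ c) • E +
      (c + starRingEnd ℂ b) • E' = 0 := by
    have h3 : ξ + -ξ = 0 := add_neg_cancel ξ
    rw [h1] at h3
    nth_rewrite 1 [h] at h3
    rw [← h3]
    module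
  -- brackets with `x`
  have hbr : ∀ p q r : ℂ, p • x + q • E + r • E' = 0 → q • E - r • E' = 0 := by
    intro p q r h0
    have h3 : x * (p • x + q • E + r • E') - (p • x + q • E + r • E') * x =
        q • (x * E - E * x) + r • (x * E' - E' * x) := by
      simp only [mul_add, add_mul, mul_smul_comm, smul_mul_assoc, smul_sub]
      abel
    rw [h0, mul_zero, zero_mul, sub_zero, hE, hE'] at h3
    have h4 : (2 * Complex.I) • (q • E - r • E') = 0 := by
      rw [h3]
      module
    rcases smul_eq_zero.1 h4 with h5 | h5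
    · exact absurd h5 (mul_ne_zero two_ne_zero Complex.I_ne_zero)
    · exact h5
  have h3 := hbr _ _ _ h2
  have h4 := hbr 0 (b + starRingEnd ℂ c) (-(c + starRingEnd ℂ b)) (by
    rw [← h3]
    module)
  have h5 : (b + starRingEnd ℂ c) • E = 0 := by
    have h6 : (2 : ℂ) • ((b + starRingEnd ℂ c) • E) = 0 := by
      have h7 := congrArg₂ (· + ·) h3 h4
      simp only [add_zero] at h7
      rw [← h7]
      module
    exact (smul_eq_zero.1 h6).resolve_left two_ne_zero
  have h6 : (c + starRingEnd ℂ b) • E' = 0 := by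
    rw [h5, zero_sub, neg_eq_zero] at h3
    exact h3
  rw [h5, h6, add_zero, add_zero] at h2
  have h7 := (smul_eq_zero.1 h2).resolve_right hx0
  have h8 : starRingEnd ℂ z = z := (sub_eq_zero.1 h7).symm
  exact (Complex.conj_eq_iff_re.1 h8).symm

end BRK1

open BRK1 in
theorem RK1 : Stmt_RK1 := by
  intro V _ _ _ _ J k t hJ hk ht hWTD hRTD hRTZ hRTF hRSY hHEI hONE hr
  have hRTD' := hRTD V J k t hJ hk ht hWTD
  obtain ⟨hR0, -, -⟩ := hRTZ V J k t hJ hk ht
  obtain ⟨hfin, -⟩ := hRTF V J k t hJ hk ht hRTZ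
  obtain ⟨-, hadj, hsym, hJE, hneg⟩ := hRSY V J k t hJ hk ht.le
  have : Nontrivial t := Module.nontrivial_of_finrank_pos (R := ℝ) (by rw [hr]; norm_num)
  obtain ⟨h0, h0ne⟩ := exists_ne (0 : t)
  have hspan : ∀ (h : t), h ≠ 0 → ∀ τ : t, ∃ r : ℝ, r • h = τ := fun h hh =>
    (finrank_eq_one_iff_of_nonzero' h hh).1 hr
  have hdet : ∀ (h : t), h ≠ 0 → ∀ γ δ : Dual ℝ t, γ h = δ h → γ = δ := by
    intro h hh γ δ hγ
    apply LinearMap.ext
    intro τ
    obtain ⟨r, rfl⟩ := hspan h hh τ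
    rw [map_smul, map_smul, hγ]
  by_cases hex : ∃ α : Dual ℝ t, IsRoot k t α
  · right
    obtain ⟨α, hα, hmax⟩ := hfin.exists_maximalFor (fun γ : Dual ℝ t => γ h0) _ hex
    have hmax' : ∀ γ : Dual ℝ t, IsRoot k t γ → γ h0 ≤ α h0 := by
      intro γ hγ
      rcases le_total (γ h0) (α h0) with h | h
      · exact h
      · exact hmax hγ h
    have hα' : IsRoot k t α := hα
    have hpos : 0 < α h0 := by
      have h1 := hmax' _ (hneg α hα')
      rw [LinearMap.neg_apply] at h1
      have h2 : α h0 ≠ 0 := by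
        intro h
        exact hα'.1 (hdet h0 h0ne α 0 (by rw [h, LinearMap.zero_apply]))
      have h3 : 0 ≤ α h0 := by linarith
      exact lt_of_le_of_ne h3 (Ne.symm h2)
    have hroots : ∀ γ : Dual ℝ t, IsRoot k t γ → γ = α ∨ γ = -α := by
      intro γ hγ
      have h2 : γ h0 ≠ 0 := by
        intro h
        exact hγ.1 (hdet h0 h0ne γ 0 (by rw [h, LinearMap.zero_apply]))
      rcases lt_or_gt_of_ne h2 with h3 | h3
      · right
        have h4 := only J k t hJ hk ht hRTZ hRSY hHEI hONE hneg h0 (hspan h0 h0ne) α hα' hmax'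
          hpos (-γ) (hneg γ hγ) (by rw [LinearMap.neg_apply]; linarith)
        rw [← h4, neg_neg]
      · left
        exact only J k t hJ hk ht hRTZ hRSY hHEI hONE hneg h0 (hspan h0 h0ne) α hα' hmax'
          hpos γ hγ h3
    obtain ⟨E, hE, hE0⟩ := (Submodule.ne_bot_iff _).1 hα'.2
    obtain ⟨η, hη, hηpos⟩ := hHEI V J k t hJ hk ht hRTZ hRSY α E hα'.1 hE hE0
    -- scaling
    obtain ⟨c, hc0, hc⟩ : ∃ c : ℝ, 0 < c ∧ c * c * α η = 2 := by
      refine ⟨Real.sqrt (2 / α η), Real.sqrt_pos.2 (by positivity), ?_⟩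
      rw [Real.mul_self_sqrt (by positivity)]
      field_simp
    have hcC : (c : ℂ) ≠ 0 := by exact_mod_cast hc0.ne'
    obtain ⟨x, hx⟩ : ∃ x : t, x = (c * c) • η := ⟨_, rfl⟩
    obtain ⟨E1, hE1⟩ : ∃ E1 : V →L[ℂ] V, E1 = (c : ℂ) • E := ⟨_, rfl⟩
    have hE1R : E1 ∈ Rt k t α := by
      rw [hE1]
      exact Submodule.smul_mem _ _ hE
    have hE10 : E1 ≠ 0 := by
      rw [hE1]
      exact smul_ne_zero hcC hE0
    have hE1' := hadj α E1 hE1R
    have hE1'0 : ContinuousLinearMap.adjoint E1 ≠ 0 := by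
      intro h
      apply hE10
      rw [← ContinuousLinearMap.adjoint_adjoint E1, h, map_zero]
    have hαx : α x = 2 := by
      rw [hx, map_smul, smul_eq_mul]
      exact hc
    have hx0 : x ≠ 0 := by
      intro h
      rw [h, map_zero] at hαx
      norm_num at hαx
    have hxV : (x : V →L[ℂ] V) ≠ 0 := by
      intro h
      exact hx0 (Subtype.ext h)
    have hbr : (x : V →L[ℂ] V) * E1 - E1 * (x : V →L[ℂ] V) = (2 * Complex.I) • E1 := by
      rw [hE1R.2 x, hαx]
      norm_num
    have hbr' : (x : V →L[ℂ] V) * ContinuousLinearMap.adjoint E1 -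
        ContinuousLinearMap.adjoint E1 * (x : V →L[ℂ] V) =
        (-(2 * Complex.I)) • ContinuousLinearMap.adjoint E1 := by
      rw [hE1'.2 x, LinearMap.neg_apply, hαx]
      norm_num
    have hxk : (x : V →L[ℂ] V) ∈ k := ht.le x.2
    refine ⟨x, E1, hxk, hk.sp _ hxk, hE1R.1, hE10, hbr, ?_, hsym E1 hE1R.1, hJE E1 hE1R.1, ?_⟩
    · have h1 : ContinuousLinearMap.adjoint E1 = (c : ℂ) • ContinuousLinearMap.adjoint E := by
        rw [hE1, map_smulₛₗ, Complex.conj_ofReal]
      have h2 : (x : V →L[ℂ] V) = ((c : ℂ) * (c : ℂ)) • (η : V →L[ℂ] V) := by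
        rw [hx]
        change (c * c) • (η : V →L[ℂ] V) = _
        rw [← Complex.ofReal_mul]
        exact (Complex.coe_smul _ _).symm
      rw [h1, hE1, h2, smul_comm Complex.I, ← smul_neg, ← hη]
      simp only [smul_mul_assoc, mul_smul_comm, smul_smul, smul_sub]
    · intro ξ hξ
      have hle : kC k ≤ (Submodule.span ℂ {(x : V →L[ℂ] V)} ⊔ Submodule.span ℂ {E1}) ⊔
          Submodule.span ℂ {ContinuousLinearMap.adjoint E1} := by
        rw [hRTD']
        refine iSup_le fun β => ?_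
        by_cases hβ0 : β = 0
        · rw [hβ0, hR0]
          refine le_trans ?_ (le_trans le_sup_left le_sup_left)
          unfold kC
          rw [Submodule.span_le]
          intro τ hτ
          obtain ⟨r, hr⟩ := hspan x hx0 ⟨τ, hτ⟩
          have h1 : τ = (r : ℂ) • (x : V →L[ℂ] V) := by
            have h2 := congrArg (fun y : t => (y : V →L[ℂ] V)) hr
            have h3 : r • (x : V →L[ℂ] V) = τ := h2
            rw [← h3]
            exact (Complex.coe_smul _ _).symm
          rw [h1]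
          exact Submodule.smul_mem _ _ (Submodule.mem_span_singleton_self _)
        · by_cases hβ : IsRoot k t β
          · rcases hroots β hβ with rfl | rfl
            · intro X hX
              obtain ⟨b, hb⟩ := hONE V J k t hJ hk ht hRTZ hRSY hHEI β E1 X hα'.1 hE1R hE10 hX
              refine Submodule.mem_sup_left (Submodule.mem_sup_right ?_)
              rw [hb]
              exact Submodule.smul_mem _ _ (Submodule.mem_span_singleton_self _)
            · intro X hX
              obtain ⟨b, hb⟩ := hONE V J k t hJ hk ht hRTZ hRSY hHEI (-α)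
                (ContinuousLinearMap.adjoint E1) X hβ.1 hE1' hE1'0 hX
              refine Submodule.mem_sup_right ?_
              rw [hb]
              exact Submodule.smul_mem _ _ (Submodule.mem_span_singleton_self _)
          · have h1 : Rt k t β = ⊥ := by
              by_contra h2
              exact hβ ⟨hβ0, h2⟩
            rw [h1]
            exact bot_le
      have hξC := hle (Submodule.subset_span hξ : ξ ∈ kC k)
      obtain ⟨y, hy, e, he, hye⟩ := Submodule.mem_sup.1 hξC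
      obtain ⟨y1, hy1, y2, hy2, hyy⟩ := Submodule.mem_sup.1 hy
      obtain ⟨z, rfl⟩ := Submodule.mem_span_singleton.1 hy1
      obtain ⟨b, rfl⟩ := Submodule.mem_span_singleton.1 hy2
      obtain ⟨d, rfl⟩ := Submodule.mem_span_singleton.1 he
      have h1 : ξ = z • (x : V →L[ℂ] V) + b • E1 + d • ContinuousLinearMap.adjoint E1 := by
        rw [← hye, ← hyy]
      have h2 := real_coeff (x : V →L[ℂ] V) E1 ξ z b d hxV (adj_skew _ (hk.sp _ hxk).skew)
        (adj_skew _ (hk.sp _ hξ).skew) hbr hbr' h1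
      refine ⟨z.re, b, d, ?_⟩
      rw [h1]
      congr 2
      rw [h2]
      exact Complex.coe_smul _ _
  · left
    push Not at hex
    refine ⟨h0, ht.le h0.2, hk.sp _ (ht.le h0.2), fun h => h0ne (Subtype.ext h), ?_⟩
    intro ξ hξ
    have h1 : kC k ≤ Rt k t 0 := by
      rw [hRTD']
      refine iSup_le fun β => ?_
      by_cases hβ0 : β = 0
      · rw [hβ0]
      · have h1 : Rt k t β = ⊥ := by
          by_contra h2
          exact hex β ⟨hβ0, h2⟩
        rw [h1]
        exact bot_le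
    have h2 := h1 (Submodule.subset_span hξ : ξ ∈ kC k)
    have h3 : ξ ∈ t := by
      refine ht.max ξ hξ fun τ hτ => ?_
      have h4 := h2.2 ⟨τ, hτ⟩
      rw [LinearMap.zero_apply, Complex.ofReal_zero, zero_mul, zero_smul] at h4
      exact sub_eq_zero.1 h4
    obtain ⟨r, hr⟩ := hspan h0 h0ne ⟨ξ, h3⟩
    exact ⟨r, (congrArg (fun y : t => (y : V →L[ℂ] V)) hr).symm⟩

end MPa8bd83
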