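/- Block RTF (helper1). Number of roots. -/
import Pool.Agent.Work.MP_a8bd83_qk.Interface

namespace MPa8bd83

open Module

namespace RTFaux

variable {V : Type} [NormedAddCommGroup V] [InnerProductSpace ℂ V] [FiniteDimensional ℂ V]

/-- elements of `kC m` have real and imaginary parts in `m`. -/
lemma reim (m : Submodule ℝ (V →L[ℂ] V)) (X : V →L[ℂ] V) (hX : X ∈ kC m) :
    ∃ ξ ∈ m, ∃ η ∈ m, X = ξ + Complex.I • η := by
  unfold kC at hX
  induction hX using Submodule.span_induction with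
  | mem x hx => exact ⟨x, hx, 0, zero_mem _, by simp⟩
  | zero => exact ⟨0, zero_mem _, 0, zero_mem _, by simp⟩
  | add x y _ _ hx hy =>
    obtain ⟨a, ha, b, hb, rfl⟩ := hx
    obtain ⟨c, hc, d, hd, rfl⟩ := hy
    refine ⟨a + c, add_mem ha hc, b + d, add_mem hb hd, ?_⟩
    rw [smul_add]; abel
  | smul z x _ hx =>
    obtain ⟨a, ha, b, hb, rfl⟩ := hx
    refine ⟨z.re • a - z.im • b, sub_mem (m.smul_mem _ ha) (m.smul_mem _ hb),
      z.im • a + z.re • b, add_mem (m.smul_mem _ ha) (m.smul_mem _ hb), ?_⟩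
    ext v
    simp only [ContinuousLinearMap.smul_apply, ContinuousLinearMap.add_apply,
      ContinuousLinearMap.sub_apply, smul_add, smul_smul]
    have h1 : ∀ (r : ℝ) (v : V), r • v = (r : ℂ) • v := fun r v => (Complex.coe_smul r v).symm
    simp only [h1, smul_smul]
    have hz : z = (z.re : ℂ) + (z.im : ℂ) * Complex.I := (Complex.re_add_im z).symm
    have hI : Complex.I * Complex.I = -1 := Complex.I_mul_I
    have e1 : z • a v = (z.re : ℂ) • a v + (Complex.I * (z.im : ℂ)) • a v := by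
      conv_lhs => rw [hz]
      rw [add_smul, mul_comm Complex.I]
    have e2 : (z * Complex.I) • b v = (Complex.I * (z.re : ℂ)) • b v - (z.im : ℂ) • b v := by
      conv_lhs => rw [hz]
      rw [← sub_smul]
      congr 1
      linear_combination (z.im : ℂ) * hI
    rw [e1, e2]
    abel

lemma mem_kC (m : Submodule ℝ (V →L[ℂ] V)) {a b : V →L[ℂ] V} (ha : a ∈ m) (hb : b ∈ m) :
    a + Complex.I • b ∈ kC m :=
  add_mem (Submodule.subset_span ha) (Submodule.smul_mem _ _ (Submodule.subset_span hb))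

lemma finR : FiniteDimensional ℝ (V →L[ℂ] V) :=
  Module.Finite.trans ℂ (V →L[ℂ] V)

lemma frk (m : Submodule ℝ (V →L[ℂ] V))
    (h : ∀ ξ ∈ m, ∀ η ∈ m, ξ + Complex.I • η = 0 → ξ = 0 ∧ η = 0) :
    finrank ℂ (kC m) = finrank ℝ m := by
  haveI : FiniteDimensional ℝ (V →L[ℂ] V) := finR
  let f : (m × m) →ₗ[ℝ] kC m :=
    { toFun := fun p => ⟨(p.1 : V →L[ℂ] V) + Complex.I • (p.2 : V →L[ℂ] V), mem_kC m p.1.2 p.2.2⟩
      map_add' := by
        intro p q
        apply Subtype.ext
        simp only [Prod.fst_add, Prod.snd_add, Submodule.coe_add, smul_add]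
        abel
      map_smul' := by
        intro r p
        apply Subtype.ext
        change r • (p.1 : V →L[ℂ] V) + Complex.I • (r • (p.2 : V →L[ℂ] V))
          = r • ((p.1 : V →L[ℂ] V) + Complex.I • (p.2 : V →L[ℂ] V))
        rw [smul_add, smul_comm r Complex.I] }
  have hinj : Function.Injective f := by
    rw [← LinearMap.ker_eq_bot, LinearMap.ker_eq_bot']
    intro p hp
    have hp' : (p.1 : V →L[ℂ] V) + Complex.I • (p.2 : V →L[ℂ] V) = 0 :=
      congrArg Subtype.val hp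
    obtain ⟨h1, h2⟩ := h _ p.1.2 _ p.2.2 hp'
    exact Prod.ext (Subtype.ext h1) (Subtype.ext h2)
  have hsurj : Function.Surjective f := by
    rintro ⟨X, hX⟩
    obtain ⟨a, ha, b, hb, rfl⟩ := reim m X hX
    exact ⟨(⟨a, ha⟩, ⟨b, hb⟩), rfl⟩
  have e := (LinearEquiv.ofBijective f ⟨hinj, hsurj⟩).finrank_eq
  rw [Module.finrank_prod] at e
  have e2 : finrank ℝ ℂ * finrank ℂ (kC m) = finrank ℝ (kC m) := Module.finrank_mul_finrank ℝ ℂ _
  rw [Complex.finrank_real_complex] at e2
  omega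

/-- the operators `ad ξ`. -/
noncomputable def ad (ξ : V →L[ℂ] V) : Module.End ℂ (V →L[ℂ] V) :=
  LinearMap.mulLeft ℂ ξ - LinearMap.mulRight ℂ ξ

lemma ad_apply (ξ X : V →L[ℂ] V) : ad ξ X = ξ * X - X * ξ := rfl

lemma ad_comm (ξ η : V →L[ℂ] V) (h : ξ * η = η * ξ) : Commute (ad ξ) (ad η) := by
  unfold Commute SemiconjBy
  refine LinearMap.ext fun X => ?_
  change ad ξ (ad η X) = ad η (ad ξ X)
  simp only [ad_apply]
  simp only [mul_sub, sub_mul]
  have e1 : ξ * (η * X) = η * (ξ * X) := by rw [← mul_assoc, h, mul_assoc]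
  have e2 : X * η * ξ = X * ξ * η := by rw [mul_assoc, ← h, ← mul_assoc]
  rw [e1, e2]
  simp only [mul_assoc]
  abel

lemma indep (k t : Submodule ℝ (V →L[ℂ] V)) (ht : ∀ ξ ∈ t, ∀ η ∈ t, ξ * η = η * ξ) :
    iSupIndep (fun α : Dual ℝ t => Rt k t α) := by
  have h0 : iSupIndep (fun χ : t → ℂ => ⨅ ξ : t, (ad (ξ : V →L[ℂ] V)).maxGenEigenspace (χ ξ)) := by
    refine Module.End.independent_iInf_maxGenEigenspace_of_forall_mapsTo (fun ξ : t => ad (ξ : V →L[ℂ] V)) ?_
    intro i j φ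
    exact Module.End.mapsTo_maxGenEigenspace_of_comm (ad_comm _ _ (ht _ j.2 _ i.2)) φ
  have hinj : Function.Injective (fun (α : Dual ℝ t) (ξ : t) => ((α ξ : ℂ) * Complex.I)) := by
    intro α β hαβ
    refine LinearMap.ext fun ξ => ?_
    have := congrFun hαβ ξ
    have h2 : ((α ξ : ℝ) : ℂ) = ((β ξ : ℝ) : ℂ) := mul_right_cancel₀ Complex.I_ne_zero this
    exact_mod_cast h2
  refine (h0.comp hinj).mono fun α => ?_
  intro X hX
  refine (Submodule.mem_iInf _).2 fun ξ => ?_
  refine (Module.End.genEigenspace_le_maximal (ad (ξ : V →L[ℂ] V)) _ 1) ?_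
  have h1 := hX.2 ξ
  have h2 : X ∈ (ad (ξ : V →L[ℂ] V)).eigenspace ((α ξ : ℂ) * Complex.I) :=
    Module.End.mem_eigenspace_iff.2 h1
  exact h2

end RTFaux

open RTFaux in
theorem RTF : Stmt_RTF := by
  intro V _ _ _ J k t hJ hk ht hRTZ
  haveI : FiniteDimensional ℝ (V →L[ℂ] V) := finR
  obtain ⟨hz, hri, huniq⟩ := hRTZ V J k t hJ hk ht
  have hind := indep k t ht.comm
  have hk2 : finrank ℂ (kC k) = finrank ℝ k := frk k huniq
  have ht2 : finrank ℂ (kC t) = finrank ℝ t :=
    frk t fun ξ hξ η hη h => huniq ξ (ht.le hξ) η (ht.le hη) h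
  refine ⟨?_, ?_⟩
  · have hf := WellFoundedGT.finite_ne_bot_of_iSupIndep hind
    exact hf.subset fun α hα => hα.2
  · intro s hs
    have hx : ∀ α : s, ∃ X ∈ Rt k t (α : Dual ℝ t), X ≠ 0 := fun α =>
      Submodule.exists_mem_ne_zero_of_ne_bot (hs α α.2).2
    choose x hxm hx0 using hx
    have hli : LinearIndependent ℂ x := by
      have h1 : iSupIndep (fun α : s => Rt k t (α : Dual ℝ t)) := hind.comp Subtype.val_injective
      exact h1.linearIndependent _ hxm hx0
    have h0s : (0 : Dual ℝ t) ∉ s := fun h => (hs 0 h).1 rfl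
    have hd : Disjoint (Rt k t (0 : Dual ℝ t)) (Submodule.span ℂ (Set.range x)) := by
      have h1 := hind.disjoint_biSup (x := (0 : Dual ℝ t)) (y := (s : Set (Dual ℝ t))) (by simpa using h0s)
      refine h1.mono_right ?_
      rw [Submodule.span_le]
      rintro _ ⟨α, rfl⟩
      exact Submodule.mem_iSup_of_mem (α : Dual ℝ t) (Submodule.mem_iSup_of_mem α.2 (hxm α))
    have hsp : finrank ℂ (Submodule.span ℂ (Set.range x)) = s.card := by
      rw [finrank_span_eq_card hli]
      simp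
    have hle : Rt k t (0 : Dual ℝ t) ⊔ Submodule.span ℂ (Set.range x) ≤ kC k := by
      refine sup_le (fun X hX => hX.1) ?_
      rw [Submodule.span_le]
      rintro _ ⟨α, rfl⟩
      exact (hxm α).1
    have hsum := Submodule.finrank_sup_add_finrank_inf_eq (Rt k t (0 : Dual ℝ t))
      (Submodule.span ℂ (Set.range x))
    rw [hd.eq_bot, finrank_bot, hsp, hz, ht2, add_zero] at hsum
    rw [hz] at hle
    have h3 := Submodule.finrank_mono hle
    rw [hsum, hk2] at h3
    exact h3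

end MPa8bd83
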