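import Pool.Agent.Work.MP_a8bd83_qk.Interface3
import Pool.Agent.Work.MP_a8bd83_qk.B_RTF

/-! Block RKE: the real form of a sum of root spaces (helper20). -/

set_option autoImplicit false

namespace MPa8bd83

open Module

section

variable {V : Type} [NormedAddCommGroup V] [InnerProductSpace ℂ V] [FiniteDimensional ℂ V]

theorem RKE_one {J : V → V} {k t : Submodule ℝ (V →L[ℂ] V)} (F : Fac J k t) (α : Dual ℝ t)
    (hα : α ≠ 0) : finrank ℂ (Rt k t α) ≤ 1 := by
  by_cases h : Rt k t α = ⊥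
  · rw [h, finrank_bot]
    exact Nat.zero_le _
  · obtain ⟨E, hE, hE0⟩ := (Submodule.ne_bot_iff _).1 h
    refine finrank_le_one (⟨E, hE⟩ : Rt k t α) ?_
    rintro ⟨X, hX⟩
    obtain ⟨c, hc⟩ := F.one α hα E hE hE0 X hX
    exact ⟨c, Subtype.ext hc.symm⟩

theorem RKE_sup {J : V → V} {k t : Submodule ℝ (V →L[ℂ] V)} (F : Fac J k t)
    (s : Finset (Dual ℝ t)) (hs : ∀ α ∈ s, α ≠ 0) :
    finrank ℂ (s.sup fun α => Rt k t α : Submodule ℂ (V →L[ℂ] V)) ≤ s.card := by
  classical
  induction s using Finset.induction_on with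
  | empty =>
    rw [Finset.sup_empty, finrank_bot]
    exact Nat.zero_le _
  | insert a s ha ih =>
    rw [Finset.sup_insert, Finset.card_insert_of_notMem ha]
    have h1 := Submodule.finrank_add_le_finrank_add_finrank (Rt k t a)
      (s.sup fun α => Rt k t α : Submodule ℂ (V →L[ℂ] V))
    have h2 := RKE_one F a (hs a (Finset.mem_insert_self a s))
    have h3 := ih fun α hα => hs α (Finset.mem_insert_of_mem hα)
    omega

theorem RKE_adj {J : V → V} {ξ η X' : V →L[ℂ] V} (hξ : IsSp J ξ) (hη : IsSp J η)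
    (h : ∀ x y : V, inner ℂ ((ξ + Complex.I • η) x) y = inner ℂ x (X' y)) :
    X' = -ξ + Complex.I • η := by
  ext y
  refine ext_inner_left ℂ fun x => ?_
  rw [← h x y]
  simp only [ContinuousLinearMap.add_apply, ContinuousLinearMap.smul_apply,
    ContinuousLinearMap.neg_apply, inner_add_left, inner_add_right, inner_smul_left,
    inner_smul_right, inner_neg_right, Complex.conj_I, hξ.skew, hη.skew]
  ring

end

theorem p_RKE (hRTZ : Stmt_RTZ) : Stmt_RKE := by
  intro V _ _ _ J k t F s hs0 hsn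
  obtain ⟨z1, z2, z3⟩ := hRTZ V J k t F.quat F.lie F.mab
  set E : Submodule ℂ (V →L[ℂ] V) := Rt k t 0 ⊔ ⨆ α ∈ s, Rt k t α with hE
  let L : Submodule ℝ (V →L[ℂ] V) := k ⊓ E.restrictScalars ℝ
  have hLk : L ≤ k := inf_le_left
  have hLE : ∀ ζ ∈ L, ζ ∈ E := fun ζ hζ => hζ.2
  have hmem : ∀ α : Dual ℝ t, (α = 0 ∨ α ∈ s) → Rt k t α ≤ E := by
    rintro α (rfl | hα)
    · exact le_sup_left
    · exact le_sup_of_le_right (le_iSup₂_of_le α hα le_rfl)
  refine ⟨L, hLk, ?_, ?_, hLE⟩
  · have e1 : finrank ℂ (kC L) = finrank ℝ L :=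
      RTFaux.frk L fun ξ hξ η hη h => z3 ξ (hLk hξ) η (hLk hη) h
    have e2 : finrank ℂ (kC t) = finrank ℝ t :=
      RTFaux.frk t fun ξ hξ η hη h => z3 ξ (F.mab.le hξ) η (F.mab.le hη) h
    have e3 : kC L ≤ E := by
      unfold kC
      rw [Submodule.span_le]
      exact hLE
    have e4 := Submodule.finrank_mono e3
    have e5 := Submodule.finrank_add_le_finrank_add_finrank (Rt k t 0) (⨆ α ∈ s, Rt k t α)
    have e6 := RKE_sup F s hs0
    rw [Finset.sup_eq_iSup] at e6
    rw [← hE, z1, e2] at e5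
    rw [e1] at e4
    exact (e4.trans e5).trans (Nat.add_le_add_left e6 _)
  · intro α hα X hX
    obtain ⟨ξ, hξ, η, hη, hXe⟩ := z2 X hX.1
    obtain ⟨X', hX', ha, -⟩ := F.adj α X hX
    have hX'e : X' = -ξ + Complex.I • η :=
      RKE_adj (F.lie.sp ξ hξ) (F.lie.sp η hη) (by rw [← hXe]; exact ha)
    have hXE : X ∈ E := hmem α hα hX
    have hX'E : X' ∈ E := by
      refine hmem (-α) ?_ hX'
      rcases hα with rfl | hα
      · exact Or.inl neg_zero
      · exact Or.inr (hsn α hα)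
    have h1 : ξ ∈ E := by
      have : ξ = (2 : ℂ)⁻¹ • (X - X') := by
        rw [hXe, hX'e, show ξ + Complex.I • η - (-ξ + Complex.I • η) = (2 : ℂ) • ξ by
          rw [two_smul]; abel, smul_smul, inv_mul_cancel₀ two_ne_zero, one_smul]
      rw [this]
      exact E.smul_mem _ (E.sub_mem hXE hX'E)
    have h2 : η ∈ E := by
      have : η = (-(Complex.I * (2 : ℂ)⁻¹)) • (X + X') := by
        rw [hXe, hX'e, show ξ + Complex.I • η + (-ξ + Complex.I • η) = (2 : ℂ) • Complex.I • η by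
          rw [two_smul]; abel, smul_smul, smul_smul]
        have h3 : -(Complex.I * (2 : ℂ)⁻¹) * 2 * Complex.I = 1 := by
          have h4 : (2 : ℂ)⁻¹ * 2 = 1 := inv_mul_cancel₀ two_ne_zero
          linear_combination (-Complex.I * Complex.I) * h4 - Complex.I_mul_I
        rw [h3, one_smul]
      rw [this]
      exact E.smul_mem _ (E.add_mem hXE hX'E)
    rw [hXe]
    exact Submodule.add_mem _ (Submodule.subset_span (show ξ ∈ L from ⟨hξ, h1⟩))
      (Submodule.smul_mem _ _ (Submodule.subset_span (show η ∈ L from ⟨hη, h2⟩)))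

end MPa8bd83
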