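import Pool.Agent.Work.MP_a8bd83_qk.Interface7

set_option autoImplicit false

namespace MPa8bd83

open Module

/-- The elements of `su(2)`. -/
noncomputable def RS1_mat (a z1 z2 : ℝ) : Matrix (Fin 2) (Fin 2) ℂ :=
  !![(a : ℂ) * Complex.I, (z1 : ℂ) + (z2 : ℂ) * Complex.I;
    -(z1 : ℂ) + (z2 : ℂ) * Complex.I, -((a : ℂ) * Complex.I)]

theorem RS1_form (X : su 2) : ∃ a z1 z2 : ℝ,
    (X : Matrix (Fin 2) (Fin 2) ℂ) = RS1_mat a z1 z2 := by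
  obtain ⟨h1, h2⟩ := X.2
  have e00 := congrFun (congrFun h1 0) 0
  have e10 := congrFun (congrFun h1 1) 0
  rw [Matrix.conjTranspose_apply, Matrix.neg_apply] at e00 e10
  rw [Matrix.trace_fin_two] at h2
  refine ⟨((X : Matrix (Fin 2) (Fin 2) ℂ) 0 0).im, ((X : Matrix (Fin 2) (Fin 2) ℂ) 0 1).re,
    ((X : Matrix (Fin 2) (Fin 2) ℂ) 0 1).im, ?_⟩
  have hre : ((X : Matrix (Fin 2) (Fin 2) ℂ) 0 0).re = 0 := by
    have h3 := congrArg Complex.re e00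
    simp only [Complex.star_def, Complex.conj_re, Complex.neg_re] at h3
    linarith
  have g00 : (X : Matrix (Fin 2) (Fin 2) ℂ) 0 0 =
      (((X : Matrix (Fin 2) (Fin 2) ℂ) 0 0).im : ℂ) * Complex.I := by
    apply Complex.ext
    · simp [hre]
    · simp
  have g01 : (X : Matrix (Fin 2) (Fin 2) ℂ) 0 1 =
      (((X : Matrix (Fin 2) (Fin 2) ℂ) 0 1).re : ℂ) +
        (((X : Matrix (Fin 2) (Fin 2) ℂ) 0 1).im : ℂ) * Complex.I := (Complex.re_add_im _).symm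
  have g10 : (X : Matrix (Fin 2) (Fin 2) ℂ) 1 0 =
      -(((X : Matrix (Fin 2) (Fin 2) ℂ) 0 1).re : ℂ) +
        (((X : Matrix (Fin 2) (Fin 2) ℂ) 0 1).im : ℂ) * Complex.I := by
    have h3 : (X : Matrix (Fin 2) (Fin 2) ℂ) 1 0 = -star ((X : Matrix (Fin 2) (Fin 2) ℂ) 0 1) := by
      rw [e10, neg_neg]
    rw [h3]
    apply Complex.ext
    · simp
    · simp
  have g11 : (X : Matrix (Fin 2) (Fin 2) ℂ) 1 1 =
      -((((X : Matrix (Fin 2) (Fin 2) ℂ) 0 0).im : ℂ) * Complex.I) := by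
    rw [← g00]
    linear_combination h2
  ext i j
  fin_cases i <;> fin_cases j
  · exact g00
  · exact g01
  · exact g10
  · exact g11

theorem RS1_comm (a z1 z2 b w1 w2 : ℝ)
    (h : RS1_mat a z1 z2 * RS1_mat b w1 w2 = RS1_mat b w1 w2 * RS1_mat a z1 z2) :
    a * w1 = b * z1 ∧ a * w2 = b * z2 ∧ z1 * w2 = z2 * w1 := by
  have h01 := congrFun (congrFun h 0) 1
  have h00 := congrFun (congrFun h 0) 0
  simp only [RS1_mat, Matrix.mul_apply, Fin.sum_univ_two, Matrix.of_apply, Matrix.cons_val_zero,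
    Matrix.cons_val_one, Matrix.cons_val', Matrix.cons_val_fin_one] at h01 h00
  have r1 := congrArg Complex.re h01
  have r2 := congrArg Complex.im h01
  have r3 := congrArg Complex.im h00
  simp at r1 r2 r3
  refine ⟨?_, ?_, ?_⟩
  · linarith
  · linarith
  · linarith

theorem RS1_prop (X Y : su 2) (hX : X ≠ 0)
    (h : (X : Matrix (Fin 2) (Fin 2) ℂ) * Y = Y * X) : ∃ c : ℝ, c • X = Y := by
  obtain ⟨a, z1, z2, hX'⟩ := RS1_form X
  obtain ⟨b, w1, w2, hY'⟩ := RS1_form Y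
  rw [hX', hY'] at h
  obtain ⟨e1, e2, e3⟩ := RS1_comm a z1 z2 b w1 w2 h
  have hS : a ^ 2 + z1 ^ 2 + z2 ^ 2 ≠ 0 := by
    intro h0
    have ha : a = 0 := by
      nlinarith [sq_nonneg a, sq_nonneg z1, sq_nonneg z2]
    have hz1 : z1 = 0 := by
      nlinarith [sq_nonneg a, sq_nonneg z1, sq_nonneg z2]
    have hz2 : z2 = 0 := by
      nlinarith [sq_nonneg a, sq_nonneg z1, sq_nonneg z2]
    apply hX
    apply Subtype.ext
    rw [hX', ha, hz1, hz2]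
    ext i j
    fin_cases i <;> fin_cases j <;> simp [RS1_mat]
  refine ⟨(a * b + z1 * w1 + z2 * w2) / (a ^ 2 + z1 ^ 2 + z2 ^ 2), Subtype.ext ?_⟩
  have f1 : (a * b + z1 * w1 + z2 * w2) / (a ^ 2 + z1 ^ 2 + z2 ^ 2) * a = b := by
    rw [div_mul_eq_mul_div, div_eq_iff hS]
    linear_combination z1 * e1 + z2 * e2
  have f2 : (a * b + z1 * w1 + z2 * w2) / (a ^ 2 + z1 ^ 2 + z2 ^ 2) * z1 = w1 := by
    rw [div_mul_eq_mul_div, div_eq_iff hS]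
    linear_combination (-a) * e1 + z2 * e3
  have f3 : (a * b + z1 * w1 + z2 * w2) / (a ^ 2 + z1 ^ 2 + z2 ^ 2) * z2 = w2 := by
    rw [div_mul_eq_mul_div, div_eq_iff hS]
    linear_combination (-a) * e2 - z1 * e3
  rw [Submodule.coe_smul, hX', hY']
  generalize (a * b + z1 * w1 + z2 * w2) / (a ^ 2 + z1 ^ 2 + z2 ^ 2) = c at *
  subst f1 f2 f3
  ext i j
  fin_cases i <;> fin_cases j
  · simp [RS1_mat]
    ring
  · simp [RS1_mat]
    ring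
  · simp [RS1_mat]
    ring
  · simp [RS1_mat]
    ring

theorem p_RS1 : Stmt_RS1 := by
  intro V _ _ _ k t hiso ht hcomm
  obtain ⟨ρ, hρ⟩ := hiso
  by_cases h0 : ∀ ξ : t, ξ = 0
  · exact finrank_le_one (0 : t) (fun w => ⟨0, by rw [smul_zero, h0 w]⟩)
  push Not at h0
  obtain ⟨ξ, hξ⟩ := h0
  refine finrank_le_one ξ (fun η => ?_)
  have hX : ρ.symm ⟨(ξ : V →L[ℂ] V), ht ξ.2⟩ ≠ 0 := by
    intro h
    apply hξ
    have h1 := congrArg ρ h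
    rw [LinearEquiv.apply_symm_apply, map_zero] at h1
    have h1' : (ξ : V →L[ℂ] V) = 0 := congrArg (fun z : k => (z : V →L[ℂ] V)) h1
    exact Subtype.ext h1'
  have hZ : ((ρ.symm ⟨(ξ : V →L[ℂ] V), ht ξ.2⟩ : su 2) : Matrix (Fin 2) (Fin 2) ℂ) *
      (ρ.symm ⟨(η : V →L[ℂ] V), ht η.2⟩ : su 2) -
      (ρ.symm ⟨(η : V →L[ℂ] V), ht η.2⟩ : su 2) *
      (ρ.symm ⟨(ξ : V →L[ℂ] V), ht ξ.2⟩ : su 2) ∈ su 2 := by
    obtain ⟨hA1, hA2⟩ := (ρ.symm ⟨(ξ : V →L[ℂ] V), ht ξ.2⟩ : su 2).2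
    obtain ⟨hC1, hC2⟩ := (ρ.symm ⟨(η : V →L[ℂ] V), ht η.2⟩ : su 2).2
    refine ⟨?_, ?_⟩
    · rw [Matrix.conjTranspose_sub, Matrix.conjTranspose_mul, Matrix.conjTranspose_mul, hA1, hC1]
      noncomm_ring
    · rw [Matrix.trace_sub, Matrix.trace_mul_comm, sub_self]
  have h1 := hρ (ρ.symm ⟨(ξ : V →L[ℂ] V), ht ξ.2⟩) (ρ.symm ⟨(η : V →L[ℂ] V), ht η.2⟩) ⟨_, hZ⟩ rfl
  rw [LinearEquiv.apply_symm_apply, LinearEquiv.apply_symm_apply] at h1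
  have h2 : (ρ ⟨_, hZ⟩ : V →L[ℂ] V) = 0 := by
    rw [h1]
    exact sub_eq_zero.mpr (hcomm ξ ξ.2 η η.2)
  have h3 : ρ ⟨_, hZ⟩ = 0 := Subtype.ext h2
  have h4 := ρ.map_eq_zero_iff.mp h3
  have h5 := sub_eq_zero.mp (congrArg Subtype.val h4)
  obtain ⟨c, hc⟩ := RS1_prop _ _ hX h5
  refine ⟨c, ?_⟩
  have h6 := congrArg ρ hc
  rw [map_smul, LinearEquiv.apply_symm_apply, LinearEquiv.apply_symm_apply] at h6
  have h6' : c • (ξ : V →L[ℂ] V) = (η : V →L[ℂ] V) :=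
    congrArg (fun z : k => (z : V →L[ℂ] V)) h6
  exact Subtype.ext h6'

end MPa8bd83
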