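import Pool.Agent.Work.MP_a8bd83_qk.Interface2

set_option autoImplicit false

namespace MPa8bd83

open Module

section

variable {V : Type} [NormedAddCommGroup V] [InnerProductSpace ℂ V]

/-- A root with a coroot is a root. -/
theorem RS2_root {k t : Submodule ℝ (V →L[ℂ] V)} {α : Dual ℝ t} {τ : t} {E F : V →L[ℂ] V}
    (h : Cor k t α τ E F) : IsRoot k t α := by
  have h2 := h.two
  refine ⟨fun h0 => ?_, fun h0 => ?_⟩
  · rw [h0] at h2
    simp at h2
  · have hE : E = 0 := by
      have := h.memE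
      rw [h0] at this
      exact (Submodule.mem_bot ℂ).1 this
    have hbr := h.br
    rw [hE, zero_mul, mul_zero, sub_zero] at hbr
    have h3 : Complex.I • (τ : V →L[ℂ] V) = 0 := by
      rw [eq_comm, neg_eq_zero] at hbr
      exact hbr
    have h4 : (τ : V →L[ℂ] V) = 0 := by
      rcases smul_eq_zero.1 h3 with h5 | h5
      · exact absurd h5 Complex.I_ne_zero
      · exact h5
    have h5 : τ = 0 := Subtype.ext h4
    rw [h5, map_zero] at h2
    norm_num at h2

theorem RS2_sign {c c' : ℝ} (hc : 0 < c) (hc' : 0 < c') {x s : ℤ}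
    (h : c * (2 * (s : ℝ)) = c' * (x : ℝ)) : 0 ≤ x * s ∧ (x ≠ 0 → s ≠ 0) := by
  constructor
  · have h1 : (0 : ℝ) ≤ (x : ℝ) * s := by
      have h2 : c' * ((x : ℝ) * s) = 2 * c * ((s : ℝ) * s) := by
        calc c' * ((x : ℝ) * s) = (c' * (x : ℝ)) * s := by ring
          _ = (c * (2 * (s : ℝ))) * s := by rw [h]
          _ = 2 * c * ((s : ℝ) * s) := by ring
      have h3 : 0 ≤ c' * ((x : ℝ) * s) := by
        rw [h2]
        exact mul_nonneg (by linarith) (mul_self_nonneg _)
      exact nonneg_of_mul_nonneg_right h3 hc'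
    exact_mod_cast h1
  · intro hx hs
    rw [hs] at h
    have h2 : c' * (x : ℝ) = 0 := by
      rw [← h]
      simp
    rcases mul_eq_zero.1 h2 with h3 | h3
    · exact hc'.ne' h3
    · exact hx (by exact_mod_cast h3)

theorem RS2_one {a b c d : ℤ} (ha : 0 ≤ a * b) (hc : 0 ≤ c * d) (h : a * b + c * d = 2)
    (hab : a * b ≠ 0) (hcd : c * d ≠ 0) : a * b = 1 ∧ c * d = 1 := by
  constructor <;> omega

/-- The coroot of a root in coordinates. -/
theorem RS2_cor [FiniteDimensional ℂ V] (hCOR : Stmt_COR) (hFRM : Stmt_FRM) (hSTV : Stmt_STV)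
    {J : V → V} {k t : Submodule ℝ (V →L[ℂ] V)} (hF : Fac J k t) {α β : Dual ℝ t} {τ σ : t}
    (hP : Pair2 k t α β τ σ) {x y : ℤ} (hγ : IsRoot k t (pt α β x y)) :
    ∃ (τ' : t) (E F : V →L[ℂ] V) (s u : ℤ), Cor k t (pt α β x y) τ' E F ∧ α τ' = 2 * s ∧
      β τ' = 2 * u ∧ x * s + y * u = 2 ∧ 0 ≤ x * s ∧ 0 ≤ y * u ∧ (x ≠ 0 → s ≠ 0) ∧
      (y ≠ 0 → u ≠ 0) := by
  obtain ⟨τ', E, F, hC⟩ := hCOR V J k t hF _ hγ
  obtain ⟨s, hs, -, -⟩ := hSTV V J k t hF _ τ' E F hC _ hP.wa
  obtain ⟨u, hu, -, -⟩ := hSTV V J k t hF _ τ' E F hC _ hP.wb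
  have hs' : α τ' = 2 * s := by
    rw [LinearMap.smul_apply, smul_eq_mul] at hs
    linarith
  have hu' : β τ' = 2 * u := by
    rw [LinearMap.smul_apply, smul_eq_mul] at hu
    linarith
  obtain ⟨φ, hsym, -, hφ⟩ := hFRM V J k t hF
  obtain ⟨Ea, Fa, hCa⟩ := hP.ca
  obtain ⟨Eb, Fb, hCb⟩ := hP.cb
  obtain ⟨c, hc, hc1⟩ := hφ _ _ _ _ hCa
  obtain ⟨d, hd, hd1⟩ := hφ _ _ _ _ hCb
  obtain ⟨c', hc', hc1'⟩ := hφ _ _ _ _ hC
  have hγτ : (pt α β x y) τ = x := by
    rw [pt, LinearMap.add_apply, LinearMap.smul_apply, LinearMap.smul_apply, smul_eq_mul,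
      smul_eq_mul, hCa.two, hP.ba]
    ring
  have hγσ : (pt α β x y) σ = y := by
    rw [pt, LinearMap.add_apply, LinearMap.smul_apply, LinearMap.smul_apply, smul_eq_mul,
      smul_eq_mul, hCb.two, hP.ab]
    ring
  have e1 : c * (2 * (s : ℝ)) = c' * (x : ℝ) := by
    rw [← hs', ← hc1, hsym, hc1', hγτ]
  have e2 : d * (2 * (u : ℝ)) = c' * (y : ℝ) := by
    rw [← hu', ← hd1, hsym, hc1', hγσ]
  have e3 : x * s + y * u = 2 := by
    have h2 := hC.two
    rw [pt, LinearMap.add_apply, LinearMap.smul_apply, LinearMap.smul_apply, smul_eq_mul,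
      smul_eq_mul, hs', hu'] at h2
    have h3 : (x : ℝ) * s + y * u = 2 := by linarith
    exact_mod_cast h3
  obtain ⟨g1, g2⟩ := RS2_sign hc hc' e1
  obtain ⟨g3, g4⟩ := RS2_sign hd hc' e2
  exact ⟨τ', E, F, s, u, hC, hs', hu', e3, g1, g3, g2, g4⟩

end

theorem RS2_pt20 {W : Type} [AddCommGroup W] [Module ℝ W] (α β : W) : pt α β 2 0 = α := by
  rw [pt]
  push_cast
  module

theorem RS2_pt02 {W : Type} [AddCommGroup W] [Module ℝ W] (α β : W) : pt α β 0 2 = β := by
  rw [pt]
  push_cast
  module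

theorem RS2_ptneg {W : Type} [AddCommGroup W] [Module ℝ W] (α β : W) (x y : ℤ) :
    pt α β (-x) (-y) = -pt α β x y := by
  rw [pt, pt]
  push_cast
  module

theorem RS2_ptsub {W : Type} [AddCommGroup W] [Module ℝ W] (α β : W) (x y a b j : ℤ) :
    pt α β x y - (j : ℝ) • pt α β a b = pt α β (x - j * a) (y - j * b) := by
  rw [pt, pt, pt]
  push_cast
  module

theorem p_RS2 (hCOR : Stmt_COR) (hFRM : Stmt_FRM) (hSTV : Stmt_STV) (hSTA : Stmt_STA)
    (hRDM : Stmt_RDM) (hCRD : Stmt_CRD) : Stmt_RS2 := by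
  intro V _ _ _ J k t hF α β τ σ hP
  obtain ⟨cd1, -, -, -⟩ := hCRD V J k t hF α β τ σ hP
  obtain ⟨Ea, Fa, hCa⟩ := hP.ca
  obtain ⟨Eb, Fb, hCb⟩ := hP.cb
  have hα : IsRoot k t α := RS2_root hCa
  have hβ : IsRoot k t β := RS2_root hCb
  -- half line
  have half : ∀ (γ : Dual ℝ t), IsRoot k t γ → ∀ x : ℤ, x ≠ 0 → IsRoot k t (((x : ℝ) / 2) • γ) →
      x = 2 ∨ x = -2 := by
    intro γ hγ x hx hr
    rcases lt_or_gt_of_ne hx with h | h
    · right
      have h1 := hF.rneg _ hr
      have h2 : -(((x : ℝ) / 2) • γ) = (-(x : ℝ) / 2) • γ := by module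
      rw [h2] at h1
      have h3 := hRDM V J k t hF γ (-(x : ℝ) / 2) hγ h1 (by
        have : (x : ℝ) < 0 := by exact_mod_cast h
        linarith)
      have h4 : (x : ℝ) = -2 := by linarith
      exact_mod_cast h4
    · left
      have h3 := hRDM V J k t hF γ ((x : ℝ) / 2) hγ hr (by
        have : (0 : ℝ) < (x : ℝ) := by exact_mod_cast h
        linarith)
      have h4 : (x : ℝ) = 2 := by linarith
      exact_mod_cast h4
  -- the roots satisfy RC
  have hRC : ∀ x y : ℤ, IsRoot k t (pt α β x y) → RC x y := by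
    intro x y hr
    obtain ⟨τ', E, F, s, u, hC, hs, hu, e, g1, g3, g2, g4⟩ := RS2_cor hCOR hFRM hSTV hF hP hr
    by_cases hx : x = 0
    · subst hx
      have hy : y ≠ 0 := by
        intro hy
        rw [hy] at e
        omega
      have h1 : pt α β 0 y = ((y : ℝ) / 2) • β := by
        rw [pt]
        push_cast
        module
      rw [h1] at hr
      exact Or.inl (Or.inr ⟨rfl, half β hβ y hy hr⟩)
    · by_cases hy : y = 0
      · subst hy
        have h1 : pt α β x 0 = ((x : ℝ) / 2) • α := by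
          rw [pt]
          push_cast
          module
        rw [h1] at hr
        exact Or.inl (Or.inl ⟨half α hα x hx hr, rfl⟩)
      · obtain ⟨h1, h2⟩ := RS2_one g1 g3 e (mul_ne_zero hx (g2 hx)) (mul_ne_zero hy (g4 hy))
        right
        rcases Int.mul_eq_one_iff_eq_one_or_neg_one.1 h1 with h3 | h3 <;>
          rcases Int.mul_eq_one_iff_eq_one_or_neg_one.1 h2 with h4 | h4
        · exact ⟨Or.inl h3.1, Or.inl h4.1⟩
        · exact ⟨Or.inl h3.1, Or.inr h4.1⟩
        · exact ⟨Or.inr h3.1, Or.inl h4.1⟩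
        · exact ⟨Or.inr h3.1, Or.inr h4.1⟩
  -- the four roots
  have hRA : ∀ x y : ℤ, RA x y → IsRoot k t (pt α β x y) := by
    intro x y h
    have hα' : IsRoot k t (pt α β 2 0) := by rwa [RS2_pt20]
    have hβ' : IsRoot k t (pt α β 0 2) := by rwa [RS2_pt02]
    rcases h with ⟨rfl | rfl, rfl⟩ | ⟨rfl, rfl | rfl⟩
    · exact hα'
    · have := hF.rneg _ hα'
      rw [← RS2_ptneg] at this
      exact this
    · exact hβ'
    · have := hF.rneg _ hβ'
      rw [← RS2_ptneg] at this
      exact this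
  by_cases hex : ∃ a b : ℤ, (a = 1 ∨ a = -1) ∧ (b = 1 ∨ b = -1) ∧ IsRoot k t (pt α β a b)
  · right
    obtain ⟨a, b, ha, hb, hab⟩ := hex
    have hne : ∀ x y : ℤ, y ≠ 0 → pt α β x y ≠ 0 := by
      intro x y hy h
      have h1 := (cd1 x y).2
      rw [h, LinearMap.zero_apply] at h1
      exact hy (by exact_mod_cast h1.symm)
    have hb0 : b ≠ 0 := by
      rcases hb with rfl | rfl <;> norm_num
    -- the reflected root
    have hrefl : IsRoot k t (pt α β (-a) b) := by
      refine ⟨hne _ _ hb0, ?_⟩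
      obtain ⟨n, hn, h1, h2⟩ := hSTA V J k t hF α τ Ea Fa hCa _ hab.2
      rw [(cd1 a b).1] at hn
      have hn' : n = a := by exact_mod_cast hn.symm
      subst hn'
      rcases ha with rfl | rfl
      · have h3 := h1 1 (by norm_num)
        have h4 : pt α β 1 b - ((1 : ℕ) : ℝ) • α = pt α β (-1) b := by
          rw [pt, pt]
          push_cast
          module
        rw [h4] at h3
        exact h3
      · have h3 := h2 1 (by norm_num)
        have h4 : pt α β (-1) b + ((1 : ℕ) : ℝ) • α = pt α β (- -1) b := by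
          rw [pt, pt]
          push_cast
          module
        rw [h4] at h3
        exact h3
    have hboth : IsRoot k t (pt α β 1 b) ∧ IsRoot k t (pt α β (-1) b) := by
      rcases ha with rfl | rfl
      · exact ⟨hab, hrefl⟩
      · exact ⟨by simpa using hrefl, hab⟩
    have hall : ∀ x y : ℤ, (x = 1 ∨ x = -1) → (y = 1 ∨ y = -1) → IsRoot k t (pt α β x y) := by
      have n1 := hF.rneg _ hboth.1
      have n2 := hF.rneg _ hboth.2
      rw [← RS2_ptneg] at n1 n2
      intro x y hx hy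
      rcases hb with rfl | rfl
      · rcases hx with rfl | rfl <;> rcases hy with rfl | rfl
        · exact hboth.1
        · simpa using n2
        · exact hboth.2
        · exact n1
      · rcases hx with rfl | rfl <;> rcases hy with rfl | rfl
        · simpa using n2
        · exact hboth.1
        · simpa using n1
        · exact hboth.2
    -- strings
    have hstr : ∀ a b : ℤ, (a = 1 ∨ a = -1) → (b = 1 ∨ b = -1) → ∀ x y j : ℤ,
        IsWt t (pt α β x y) →
        (0 ≤ j ∧ j ≤ x * a + y * b ∨ x * a + y * b ≤ j ∧ j ≤ 0) →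
        IsWt t (pt α β (x - j * a) (y - j * b)) := by
      intro a b ha hb x y j hw hj
      obtain ⟨τ', E, F, s, u, hC, hs, hu, e, g1, g3, g2, g4⟩ :=
        RS2_cor hCOR hFRM hSTV hF hP (hall a b ha hb)
      have ha0 : a ≠ 0 := by rcases ha with rfl | rfl <;> norm_num
      have hb0 : b ≠ 0 := by rcases hb with rfl | rfl <;> norm_num
      obtain ⟨h1, h2⟩ := RS2_one g1 g3 e (mul_ne_zero ha0 (g2 ha0)) (mul_ne_zero hb0 (g4 hb0))
      have hsa : s = a := by rcases ha with rfl | rfl <;> omega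
      have hub : u = b := by rcases hb with rfl | rfl <;> omega
      obtain ⟨n, hn, h3, h4⟩ := hSTV V J k t hF _ τ' E F hC _ hw
      have hn' : n = x * a + y * b := by
        rw [pt, LinearMap.add_apply, LinearMap.smul_apply, LinearMap.smul_apply, smul_eq_mul,
          smul_eq_mul, hs, hu, hsa, hub] at hn
        have h5 : (n : ℝ) = x * a + y * b := by linarith
        exact_mod_cast h5
      rcases hj with ⟨hj0, hj1⟩ | ⟨hj1, hj0⟩
      · obtain ⟨m, rfl⟩ := Int.eq_ofNat_of_zero_le hj0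
        have h5 := h3 m (by rw [hn']; exact hj1)
        have h6 := RS2_ptsub α β x y a b (m : ℤ)
        push_cast at h6
        rw [h6] at h5
        exact h5
      · obtain ⟨m, hm⟩ := Int.eq_ofNat_of_zero_le (neg_nonneg.2 hj0)
        have hjm : j = -(m : ℤ) := by omega
        subst hjm
        have h5 := h4 m (by omega)
        have h6 := RS2_ptsub α β x y a b (-(m : ℤ))
        have h7 : pt α β x y - ((-(m : ℤ) : ℤ) : ℝ) • pt α β a b =
            pt α β x y + (m : ℝ) • pt α β a b := by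
          push_cast
          module
        rw [← h6, h7]
        exact h5
    refine ⟨fun x y => ⟨hRC x y, fun h => ?_⟩, fun x y j hw hj => ?_, fun x y j hw hj => ?_⟩
    · rcases h with h | ⟨h1, h2⟩
      · exact hRA x y h
      · exact hall x y h1 h2
    · have h1 := hstr 1 1 (Or.inl rfl) (Or.inl rfl) x y j hw (by
        simpa using hj)
      simpa using h1
    · have h1 := hstr 1 (-1) (Or.inl rfl) (Or.inr rfl) x y j hw (by
        rcases hj with h | h
        · left
          constructor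
          · exact h.1
          · linarith [h.2]
        · right
          constructor
          · linarith [h.1]
          · exact h.2)
      have h2 : x - j * 1 = x - j := by ring
      have h3 : y - j * (-1) = y + j := by ring
      rw [h2, h3] at h1
      exact h1
  · left
    intro x y
    refine ⟨fun h => ?_, hRA x y⟩
    rcases hRC x y h with h1 | ⟨h1, h2⟩
    · exact h1
    · exact absurd ⟨x, y, h1, h2, h⟩ hex

end MPa8bd83
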