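import Pool.Agent.Work.MP_a8bd83_qk.Interface

/-! Block RSY (helper29): adjoints and the symmetric form. -/

set_option autoImplicit false

namespace MPa8bd83

open Module

section
variable {V : Type} [NormedAddCommGroup V] [InnerProductSpace ℂ V] [FiniteDimensional ℂ V]
  [CompleteSpace V]

theorem RSY_adj {J : V → V} {ξ : V →L[ℂ] V} (h : IsSp J ξ) :
    ContinuousLinearMap.adjoint ξ = -ξ := by
  symm
  rw [ContinuousLinearMap.eq_adjoint_iff]
  intro x y
  rw [neg_apply, inner_neg_left, h.skew, neg_neg]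

theorem RSY_one {J : V → V} {k : Submodule ℝ (V →L[ℂ] V)} (hk : IsLieSub J k) :
    ∀ X ∈ kC k, ContinuousLinearMap.adjoint X ∈ kC k := by
  intro X hX
  unfold kC at hX
  induction hX using Submodule.span_induction with
  | mem x hx =>
    rw [RSY_adj (hk.sp x hx)]
    exact neg_mem (Submodule.subset_span hx)
  | zero => rw [map_zero]; exact zero_mem _
  | add x y _ _ hx hy => rw [map_add]; exact add_mem hx hy
  | smul a x _ hx =>
    rw [map_smulₛₗ]
    exact Submodule.smul_mem _ _ hx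

theorem RSY_two {J : V → V} {k t : Submodule ℝ (V →L[ℂ] V)} (hk : IsLieSub J k) (ht : t ≤ k) :
    ∀ α : Dual ℝ t, ∀ X ∈ Rt k t α, ContinuousLinearMap.adjoint X ∈ Rt k t (-α) := by
  rintro α X ⟨hX, hX'⟩
  refine ⟨RSY_one hk X hX, fun ξ => ?_⟩
  have h1 := congrArg ContinuousLinearMap.adjoint (hX' ξ)
  have hξ : ContinuousLinearMap.adjoint (ξ : V →L[ℂ] V) = -(ξ : V →L[ℂ] V) :=
    RSY_adj (hk.sp _ (ht ξ.2))
  have e1 : ContinuousLinearMap.adjoint ((ξ : V →L[ℂ] V) * X) =
      ContinuousLinearMap.adjoint X * ContinuousLinearMap.adjoint (ξ : V →L[ℂ] V) :=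
    ContinuousLinearMap.adjoint_comp _ _
  have e2 : ContinuousLinearMap.adjoint (X * (ξ : V →L[ℂ] V)) =
      ContinuousLinearMap.adjoint (ξ : V →L[ℂ] V) * ContinuousLinearMap.adjoint X :=
    ContinuousLinearMap.adjoint_comp _ _
  rw [map_sub, e1, e2, hξ, map_smulₛₗ] at h1
  have e3 : (starRingEnd ℂ) ((α ξ : ℂ) * Complex.I) = -((α ξ : ℂ) * Complex.I) := by
    rw [map_mul, Complex.conj_I, Complex.conj_ofReal, mul_neg]
  rw [e3] at h1
  have e4 : (((-α) ξ : ℝ) : ℂ) * Complex.I = -((α ξ : ℂ) * Complex.I) := by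
    rw [LinearMap.neg_apply]
    push_cast
    ring
  rw [e4, ← h1]
  rw [mul_neg, neg_mul]
  abel

theorem RSY_three {J : V → V} {k : Submodule ℝ (V →L[ℂ] V)} (hJ : IsQuatStr J)
    (hk : IsLieSub J k) : ∀ X ∈ kC k, ∀ u v : V, inner ℂ (J u) (X v) = inner ℂ (J v) (X u) := by
  intro X hX
  unfold kC at hX
  induction hX using Submodule.span_induction with
  | mem x hx =>
    intro u v
    have hs := hk.sp x hx
    have h1 : inner ℂ (J u) (x v) = -inner ℂ (x (J u)) v := by
      rw [hs.skew, neg_neg]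
    have h2 : inner ℂ (J (x u)) (J (J v)) = inner ℂ (J v) (x u) := hJ.inner _ _
    rw [hJ.sq, inner_neg_right] at h2
    rw [h1, hs.comm]
    exact h2
  | zero => intro u v; simp
  | add x y _ _ hx hy =>
    intro u v
    rw [add_apply, add_apply, inner_add_right,
      inner_add_right, hx, hy]
  | smul a x _ hx =>
    intro u v
    rw [smul_apply, smul_apply, inner_smul_right,
      inner_smul_right, hx]

theorem RSY_four {J : V → V} {k : Submodule ℝ (V →L[ℂ] V)} (hJ : IsQuatStr J)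
    (hk : IsLieSub J k) : ∀ X ∈ kC k, ∀ v : V,
      J (X v) = - (ContinuousLinearMap.adjoint X) (J v) := by
  have hJ0 : J 0 = 0 := by
    have h := hJ.smul 0 0
    rwa [zero_smul, map_zero, zero_smul] at h
  intro X hX
  unfold kC at hX
  induction hX using Submodule.span_induction with
  | mem x hx =>
    intro v
    rw [RSY_adj (hk.sp x hx), neg_apply, neg_neg, (hk.sp x hx).comm]
  | zero => intro v; simp [hJ0]
  | add x y _ _ hx hy =>
    intro v
    rw [add_apply, hJ.add, hx, hy, map_add, add_apply]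
    abel
  | smul a x _ hx =>
    intro v
    rw [smul_apply, hJ.smul, hx, map_smulₛₗ, smul_apply,
      smul_neg]

end

theorem RSY : Stmt_RSY := by
  intro V _ _ _ _ J k t hJ hk ht
  refine ⟨RSY_one hk, RSY_two hk ht, RSY_three hJ hk, RSY_four hJ hk, ?_⟩
  rintro α ⟨h0, h1⟩
  refine ⟨neg_ne_zero.2 h0, ?_⟩
  obtain ⟨E, hE, hE0⟩ := (Submodule.ne_bot_iff _).1 h1
  refine (Submodule.ne_bot_iff _).2 ⟨_, RSY_two hk ht α E hE, ?_⟩
  intro h
  apply hE0
  have h2 := congrArg ContinuousLinearMap.adjoint h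
  rwa [ContinuousLinearMap.adjoint_adjoint, map_zero] at h2

end MPa8bd83
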