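/-
MP_a8bd83_gt, block RTD: root decomposition of k_C.
-/
import Pool.Agent.Work.MP_a8bd83_qk.Interface

namespace MPa8bd83

open Module

namespace BRTD

variable {V : Type} [NormedAddCommGroup V] [InnerProductSpace ℂ V]

/-- The kernel of `(ξ - d)^2` is the kernel of `ξ - d`. -/
theorem ker_sq (ξ : V →L[ℂ] V) (hs : ∀ x y : V, inner ℂ (ξ x) y = - inner ℂ x (ξ y)) (d : ℂ)
    (u y : V) (hy : ξ u - d • u = y) (hy2 : ξ y = d • y) : y = 0 := by
  by_contra hne
  have hyy : inner ℂ y y ≠ 0 := fun h => hne (inner_self_eq_zero.1 h)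
  have h1 := hs y y
  rw [hy2, inner_smul_left, inner_smul_right] at h1
  have h2 : (starRingEnd ℂ d + d) * inner ℂ y y = 0 := by linear_combination h1
  have h3 : starRingEnd ℂ d + d = 0 := (mul_eq_zero.1 h2).resolve_right hyy
  have h4 : inner ℂ y y = inner ℂ (ξ u - d • u) y := by rw [hy]
  rw [inner_sub_left, hs, hy2, inner_smul_left, inner_smul_right] at h4
  apply hyy
  rw [h4]
  linear_combination (-(inner ℂ u y)) * h3

theorem nil (ξ : V →L[ℂ] V) (hs : ∀ x y : V, inner ℂ (ξ x) y = - inner ℂ x (ξ y)) (d : ℂ)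
    (n : ℕ) : ∀ u : V, ((ξ - d • (1 : V →L[ℂ] V)) ^ n) u = 0 → ξ u = d • u := by
  induction n with
  | zero =>
    intro u hu
    have : u = 0 := by simpa using hu
    rw [this, map_zero, smul_zero]
  | succ n ih =>
    intro u hu
    rw [pow_succ] at hu
    have h1 := ih ((ξ - d • (1 : V →L[ℂ] V)) u) hu
    have h2 : (ξ - d • (1 : V →L[ℂ] V)) u = ξ u - d • u := by simp
    rw [h2] at h1
    have h3 := ker_sq ξ hs d u _ rfl h1
    exact sub_eq_zero.1 h3

/-- Brackets with an element of `k` preserve `kC k`. -/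
theorem bracket_mem (k : Submodule ℝ (V →L[ℂ] V))
    (hk : ∀ ξ ∈ k, ∀ η ∈ k, ξ * η - η * ξ ∈ k) (ξ : V →L[ℂ] V) (hξ : ξ ∈ k) (X : V →L[ℂ] V)
    (hX : X ∈ kC k) : ξ * X - X * ξ ∈ kC k := by
  unfold kC at hX
  induction hX using Submodule.span_induction with
  | mem x hx => exact Submodule.subset_span (hk ξ hξ x hx)
  | zero => simp
  | add x y _ _ hx hy =>
    have : ξ * (x + y) - (x + y) * ξ = (ξ * x - x * ξ) + (ξ * y - y * ξ) := by noncomm_ring
    rw [this]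
    exact add_mem hx hy
  | smul c x _ hx =>
    have : ξ * (c • x) - (c • x) * ξ = c • (ξ * x - x * ξ) := by
      rw [smul_sub, mul_smul_comm, smul_mul_assoc]
    rw [this]
    exact Submodule.smul_mem _ _ hx

/-- A joint eigenvector of the `ad ξ` is in a root space. -/
theorem joint [FiniteDimensional ℂ V] (k t : Submodule ℝ (V →L[ℂ] V))
    (hskew : ∀ ξ ∈ t, ∀ x y : V, inner ℂ (ξ x) y = - inner ℂ x (ξ y))
    (htop : ⨆ w, Wt t w = ⊤) (X : V →L[ℂ] V) (hX : X ∈ kC k) (hX0 : X ≠ 0) (χ : t → ℂ)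
    (h : ∀ ξ : t, (ξ : V →L[ℂ] V) * X - X * (ξ : V →L[ℂ] V) = χ ξ • X) :
    ∃ α, X ∈ Rt k t α := by
  obtain ⟨w, v, hv, hXv⟩ : ∃ w, ∃ v ∈ Wt t w, X v ≠ 0 := by
    by_contra hcon
    push Not at hcon
    apply hX0
    have : ∀ x : V, x ∈ LinearMap.ker (X : V →ₗ[ℂ] V) := by
      intro x
      have hx : x ∈ ⨆ w, Wt t w := by rw [htop]; trivial
      have hle : ⨆ w, Wt t w ≤ LinearMap.ker (X : V →ₗ[ℂ] V) :=
        iSup_le fun w v hv => hcon w v hv
      exact hle hx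
    ext x
    exact this x
  have hact : ∀ ξ : t, (ξ : V →L[ℂ] V) (X v) = ((w ξ : ℂ) * Complex.I + χ ξ) • X v := by
    intro ξ
    have h1 := congrArg (fun T : V →L[ℂ] V => T v) (h ξ)
    have h2 : (ξ : V →L[ℂ] V) (X v) - X ((ξ : V →L[ℂ] V) v) = χ ξ • X v := by simpa using h1
    rw [hv ξ, map_smul] at h2
    rw [add_smul, ← h2]
    abel
  have hne : inner ℂ (X v) (X v) ≠ 0 := fun h0 => hXv (inner_self_eq_zero.1 h0)
  have him : ∀ ξ : t, χ ξ = ((χ ξ).im : ℂ) * Complex.I := by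
    intro ξ
    have h1 := hskew ξ ξ.2 (X v) (X v)
    rw [hact, inner_smul_left, inner_smul_right] at h1
    have h2 : (starRingEnd ℂ ((w ξ : ℂ) * Complex.I + χ ξ) + ((w ξ : ℂ) * Complex.I + χ ξ)) *
        inner ℂ (X v) (X v) = 0 := by linear_combination h1
    have h3 := (mul_eq_zero.1 h2).resolve_right hne
    have h4 := congrArg Complex.re h3
    have h5 : (χ ξ).re = 0 := by
      simp at h4
      linarith
    apply Complex.ext <;> simp [h5]
  have hadd : ∀ ξ η : t, χ (ξ + η) = χ ξ + χ η := by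
    intro ξ η
    have h1 := hact (ξ + η)
    have h2 : ((ξ + η : t) : V →L[ℂ] V) (X v) =
        (ξ : V →L[ℂ] V) (X v) + (η : V →L[ℂ] V) (X v) := rfl
    rw [h2, hact, hact, ← add_smul, map_add] at h1
    have h3 := smul_left_injective ℂ hXv h1
    push_cast at h3
    linear_combination -h3
  have hsmul : ∀ (r : ℝ) (ξ : t), χ (r • ξ) = (r : ℂ) * χ ξ := by
    intro r ξ
    have h1 := hact (r • ξ)
    have h2 : ((r • ξ : t) : V →L[ℂ] V) (X v) = (r : ℂ) • (ξ : V →L[ℂ] V) (X v) := by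
      change (r • (ξ : V →L[ℂ] V)) (X v) = _
      rw [smul_apply]
      exact (Complex.coe_smul r _).symm
    rw [h2, hact, smul_smul, map_smul] at h1
    have h3 := smul_left_injective ℂ hXv h1
    simp only [smul_eq_mul] at h3
    push_cast at h3
    linear_combination -h3
  refine ⟨{ toFun := fun ξ => (χ ξ).im, map_add' := ?_, map_smul' := ?_ }, hX, fun ξ => ?_⟩
  · intro ξ η
    rw [hadd, Complex.add_im]
  · intro r ξ
    rw [hsmul, Complex.im_ofReal_mul]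
    rfl
  · rw [h ξ]
    exact congrArg (fun c : ℂ => c • X) (him ξ)

theorem pow_act (k : Submodule ℝ (V →L[ℂ] V)) (A : Module.End ℂ (kC k)) (ξ : V →L[ℂ] V)
    (hA : ∀ X : kC k, ((A X : kC k) : V →L[ℂ] V) = ξ * (X : V →L[ℂ] V) - (X : V →L[ℂ] V) * ξ)
    (c d e : ℂ) (v : V) (hv : ξ v = e • v) (hd : d = e + c) (n : ℕ) :
    ∀ X : kC k, ((((A - c • (1 : Module.End ℂ (kC k))) ^ n) X : kC k) : V →L[ℂ] V) v =
      ((ξ - d • (1 : V →L[ℂ] V)) ^ n) ((X : V →L[ℂ] V) v) := by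
  induction n with
  | zero =>
    intro X
    simp
  | succ n ih =>
    intro X
    have h1 : ((A - c • (1 : Module.End ℂ (kC k))) ^ (n + 1)) X =
        ((A - c • (1 : Module.End ℂ (kC k))) ^ n) ((A - c • (1 : Module.End ℂ (kC k))) X) := by
      rw [pow_succ]
      rfl
    have h2 : ((((A - c • (1 : Module.End ℂ (kC k))) X : kC k) : V →L[ℂ] V)) v =
        (ξ - d • (1 : V →L[ℂ] V)) ((X : V →L[ℂ] V) v) := by
      have h3 : (((A - c • (1 : Module.End ℂ (kC k))) X : kC k) : V →L[ℂ] V) =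
          (ξ * (X : V →L[ℂ] V) - (X : V →L[ℂ] V) * ξ) - c • (X : V →L[ℂ] V) := by
        rw [← hA]
        rfl
      rw [h3]
      have h4 : ((ξ * (X : V →L[ℂ] V) - (X : V →L[ℂ] V) * ξ) - c • (X : V →L[ℂ] V)) v =
          ξ ((X : V →L[ℂ] V) v) - (X : V →L[ℂ] V) (ξ v) - c • (X : V →L[ℂ] V) v := rfl
      have h5 : (ξ - d • (1 : V →L[ℂ] V)) ((X : V →L[ℂ] V) v) =
          ξ ((X : V →L[ℂ] V) v) - d • (X : V →L[ℂ] V) v := rfl
      rw [h4, h5, hv, map_smul, hd, add_smul]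
      abel
    rw [h1, ih, h2, pow_succ]
    rfl

end BRTD

open BRTD in
theorem RTD : Stmt_RTD := by
  intro V _ _ _ J k t hJ hk ht hWTD
  have hskew : ∀ ξ ∈ t, ∀ x y : V, inner ℂ (ξ x) y = - inner ℂ x (ξ y) :=
    fun ξ hξ => (hk.sp ξ (ht.le hξ)).skew
  obtain ⟨htop, -, -⟩ := hWTD V t hskew ht.comm
  refine le_antisymm ?_ (iSup_le fun α X hX => hX.1)
  have hbr : ∀ (ξ : t), ∀ X ∈ kC k, (LinearMap.mulLeft ℂ (ξ : V →L[ℂ] V) -
      LinearMap.mulRight ℂ (ξ : V →L[ℂ] V)) X ∈ kC k := fun ξ X hX =>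
    bracket_mem k hk.lie _ (ht.le ξ.2) X hX
  obtain ⟨A, hA⟩ : ∃ A : t → Module.End ℂ (kC k), ∀ (ξ : t) (X : kC k),
      ((A ξ X : kC k) : V →L[ℂ] V) =
        (ξ : V →L[ℂ] V) * (X : V →L[ℂ] V) - (X : V →L[ℂ] V) * (ξ : V →L[ℂ] V) :=
    ⟨fun ξ => (LinearMap.mulLeft ℂ (ξ : V →L[ℂ] V) -
      LinearMap.mulRight ℂ (ξ : V →L[ℂ] V)).restrict (hbr ξ), fun ξ X => rfl⟩
  have hcomm : Pairwise fun ξ η => Commute (A ξ) (A η) := by
    intro ξ η _
    apply LinearMap.ext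
    intro X
    apply Subtype.ext
    have h1 : ((A ξ * A η) X) = A ξ (A η X) := rfl
    have h2 : ((A η * A ξ) X) = A η (A ξ X) := rfl
    rw [h1, h2, hA, hA, hA, hA]
    have h3 := ht.comm ξ ξ.2 η η.2
    generalize (ξ : V →L[ℂ] V) = a at *
    generalize (η : V →L[ℂ] V) = b at *
    generalize (X : V →L[ℂ] V) = x
    have e1 : a * (b * x - x * b) - (b * x - x * b) * a - (b * (a * x - x * a) -
        (a * x - x * a) * b) = (a * b - b * a) * x - x * (a * b - b * a) := by noncomm_ring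
    rw [h3, sub_self, zero_mul, mul_zero, sub_self] at e1
    exact sub_eq_zero.1 e1
  have h := Module.End.iSup_iInf_maxGenEigenspace_eq_top_of_iSup_maxGenEigenspace_eq_top_of_commute
    A hcomm (fun ξ => Module.End.iSup_maxGenEigenspace_eq_top (A ξ))
  have hle : ⨆ χ : t → ℂ, ⨅ ξ, (A ξ).maxGenEigenspace (χ ξ) ≤
      (⨆ α, Rt k t α).comap (kC k).subtype := by
    refine iSup_le fun χ Y hY => ?_
    rw [Submodule.mem_comap]
    by_cases hY0 : (Y : V →L[ℂ] V) = 0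
    · rw [Submodule.subtype_apply, hY0]
      exact zero_mem _
    · have heig : ∀ ξ : t, (ξ : V →L[ℂ] V) * (Y : V →L[ℂ] V) -
          (Y : V →L[ℂ] V) * (ξ : V →L[ℂ] V) = χ ξ • (Y : V →L[ℂ] V) := by
        intro ξ
        obtain ⟨n, hn⟩ := (Module.End.mem_maxGenEigenspace _ _ _).1
          ((Submodule.mem_iInf _).1 hY ξ)
        have hker : ∀ x : V, x ∈ LinearMap.ker (((ξ : V →L[ℂ] V) * (Y : V →L[ℂ] V) -
            (Y : V →L[ℂ] V) * (ξ : V →L[ℂ] V) - χ ξ • (Y : V →L[ℂ] V) : V →L[ℂ] V) :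
            V →ₗ[ℂ] V) := by
          intro x
          have hx : x ∈ ⨆ w, Wt t w := by rw [htop]; trivial
          have hle : ⨆ w, Wt t w ≤ LinearMap.ker (((ξ : V →L[ℂ] V) * (Y : V →L[ℂ] V) -
              (Y : V →L[ℂ] V) * (ξ : V →L[ℂ] V) - χ ξ • (Y : V →L[ℂ] V) : V →L[ℂ] V) :
              V →ₗ[ℂ] V) := by
            refine iSup_le fun w v hv => ?_
            have h1 := pow_act k (A ξ) ξ (hA ξ) (χ ξ) _ _ v (hv ξ) rfl n Y
            rw [hn] at h1
            have h0 : (((0 : kC k) : V →L[ℂ] V)) v = 0 := rfl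
            rw [h0] at h1
            have h2 := nil (ξ : V →L[ℂ] V) (hskew ξ ξ.2) ((w ξ : ℂ) * Complex.I + χ ξ) n
              ((Y : V →L[ℂ] V) v) h1.symm
            change (ξ : V →L[ℂ] V) ((Y : V →L[ℂ] V) v) - (Y : V →L[ℂ] V)
              ((ξ : V →L[ℂ] V) v) - χ ξ • (Y : V →L[ℂ] V) v = 0
            rw [h2, hv ξ, map_smul, add_smul]
            abel
          exact hle hx
        have h3 : (ξ : V →L[ℂ] V) * (Y : V →L[ℂ] V) -
            (Y : V →L[ℂ] V) * (ξ : V →L[ℂ] V) - χ ξ • (Y : V →L[ℂ] V) = 0 := by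
          ext x
          exact hker x
        exact sub_eq_zero.1 h3
      obtain ⟨α, hα⟩ := joint k t hskew htop (Y : V →L[ℂ] V) Y.2 hY0 χ heig
      exact Submodule.mem_iSup_of_mem α hα
  intro X hX
  have hX' : (⟨X, hX⟩ : kC k) ∈ ⨆ χ : t → ℂ, ⨅ ξ, (A ξ).maxGenEigenspace (χ ξ) := by
    rw [h]
    trivial
  exact hle hX'

end MPa8bd83
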