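import Pool.Agent.Work.MP_a8bd83_qk.Interface

/-! Block RTZ (helper33). -/

set_option autoImplicit false

namespace MPa8bd83

open Module

namespace RTZb

variable {V : Type} [NormedAddCommGroup V] [InnerProductSpace ℂ V]

theorem decomp {k : Submodule ℝ (V →L[ℂ] V)} {X : V →L[ℂ] V} (hX : X ∈ kC k) :
    ∃ ξ ∈ k, ∃ η ∈ k, X = ξ + Complex.I • η := by
  unfold kC at hX
  induction hX using Submodule.span_induction with
  | mem x hx => exact ⟨x, hx, 0, k.zero_mem, by simp⟩
  | zero => exact ⟨0, k.zero_mem, 0, k.zero_mem, by simp⟩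
  | add x y _ _ hx hy =>
    obtain ⟨a, ha, b, hb, rfl⟩ := hx
    obtain ⟨c, hc, d, hd, rfl⟩ := hy
    exact ⟨a + c, k.add_mem ha hc, b + d, k.add_mem hb hd, by rw [smul_add]; abel⟩
  | smul c x _ hx =>
    obtain ⟨a, ha, b, hb, rfl⟩ := hx
    refine ⟨c.re • a - c.im • b, k.sub_mem (k.smul_mem _ ha) (k.smul_mem _ hb),
      c.im • a + c.re • b, k.add_mem (k.smul_mem _ ha) (k.smul_mem _ hb), ?_⟩
    ext v
    simp only [ContinuousLinearMap.smul_apply, ContinuousLinearMap.add_apply,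
      ContinuousLinearMap.sub_apply, smul_add, smul_smul]
    have h1 : ∀ (r : ℝ) (w : V), r • w = (r : ℂ) • w := fun r w => (Complex.coe_smul r w).symm
    have hc : c = (c.re : ℂ) + (c.im : ℂ) * Complex.I := (Complex.re_add_im c).symm
    simp only [h1, smul_smul]
    have e1 : c • a v = (c.re : ℂ) • a v + (Complex.I * (c.im : ℂ)) • a v := by
      rw [← add_smul]; congr 1; rw [mul_comm]; exact hc
    have e2 : (c * Complex.I) • b v
        = (Complex.I * (c.re : ℂ)) • b v - (c.im : ℂ) • b v := by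
      rw [← sub_smul]; congr 1
      conv_lhs => rw [hc]
      linear_combination (c.im : ℂ) * Complex.I_mul_I
    rw [e1, e2]
    abel

theorem uniq {J : V → V} {ξ η : V →L[ℂ] V} (hξ : IsSp J ξ) (hη : IsSp J η)
    (h : ξ + Complex.I • η = 0) : ξ = 0 ∧ η = 0 := by
  have h1 : ξ = -(Complex.I • η) := eq_neg_of_add_eq_zero_left h
  have h2 : η = 0 := by
    ext y
    have h3 : ∀ x : V, inner ℂ x (η y) = 0 := by
      intro x
      have a := hξ.skew x y
      have b := hη.skew x y
      rw [h1] at a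
      simp only [ContinuousLinearMap.neg_apply, ContinuousLinearMap.smul_apply, inner_neg_left,
        inner_neg_right, inner_smul_left, inner_smul_right, Complex.conj_I, b] at a
      have c : (2 * Complex.I) * inner ℂ x (η y) = 0 := by linear_combination -a
      rcases mul_eq_zero.1 c with d | d
      · simp [Complex.I_ne_zero] at d
      · exact d
    have := h3 (η y)
    simpa using this
  refine ⟨?_, h2⟩
  rw [h1, h2]
  simp

theorem comm_parts {J : V → V} {k : Submodule ℝ (V →L[ℂ] V)} (hk : IsLieSub J k)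
    {τ ξ η : V →L[ℂ] V} (hτ : τ ∈ k) (hξ : ξ ∈ k) (hη : η ∈ k)
    (h : τ * (ξ + Complex.I • η) - (ξ + Complex.I • η) * τ = 0) :
    τ * ξ = ξ * τ ∧ τ * η = η * τ := by
  have a : (τ * ξ - ξ * τ) + Complex.I • (τ * η - η * τ) = 0 := by
    rw [← h, mul_add, add_mul, smul_sub, mul_smul_comm, smul_mul_assoc]
    abel
  have b := uniq (hk.sp _ (hk.lie τ hτ ξ hξ)) (hk.sp _ (hk.lie τ hτ η hη)) a
  exact ⟨sub_eq_zero.1 b.1, sub_eq_zero.1 b.2⟩

end RTZb

open RTZb in
theorem RTZ : Stmt_RTZ := by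
  intro V _ _ _ J k t hJ hk ht
  refine ⟨?_, fun X hX => decomp hX, fun ξ hξ η hη h => uniq (hk.sp ξ hξ) (hk.sp η hη) h⟩
  apply le_antisymm
  · intro X hX
    obtain ⟨hXk, hX0⟩ := hX
    obtain ⟨ξ, hξ, η, hη, rfl⟩ := decomp hXk
    have key : ∀ τ ∈ t, τ * ξ = ξ * τ ∧ τ * η = η * τ := by
      intro τ hτ
      refine comm_parts hk (ht.le hτ) hξ hη ?_
      have := hX0 ⟨τ, hτ⟩
      simpa using this
    have h1 : ξ ∈ t := ht.max ξ hξ fun τ hτ => (key τ hτ).1
    have h2 : η ∈ t := ht.max η hη fun τ hτ => (key τ hτ).2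
    exact add_mem (Submodule.subset_span h1) (Submodule.smul_mem _ _ (Submodule.subset_span h2))
  · unfold kC
    rw [Submodule.span_le]
    intro x hx
    refine ⟨Submodule.subset_span (ht.le hx), fun τ => ?_⟩
    rw [ht.comm τ.1 τ.2 x hx]
    simp

end MPa8bd83
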