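import Pool.Agent.Work.MP_a8bd83_qk.Interface5

/-! # Block SE2 (helper71) -/

set_option autoImplicit false

namespace MPa8bd83

open Module

theorem SE2_one (hSEC : Stmt_SEC) (V : Type) [NormedAddCommGroup V] [InnerProductSpace ℂ V]
    [FiniteDimensional ℂ V] (A Y : V →L[ℂ] V) (c : ℂ) (h : A * Y - Y * A = c • Y)
    (hc : Complex.exp (Real.pi * c) = -1) :
    NormedSpace.exp (Real.pi • A) * Y = -(Y * NormedSpace.exp (Real.pi • A)) := by
  have h1 := hSEC V (Real.pi • A) Y (Real.pi * c) (by
    rw [smul_mul_assoc, mul_smul_comm, ← smul_sub, h, RCLike.real_smul_eq_coe_smul (K := ℂ),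
      smul_smul]
    rfl)
  rw [h1, hc, neg_one_smul]

theorem p_SE2 (hSEC : Stmt_SEC) : Stmt_SE2 := by
  intro V _ _ _ A X h
  have hY := SE2_one hSEC V A (X - Complex.I • (A * X - X * A)) Complex.I (by
    have e : A * (X - Complex.I • (A * X - X * A)) - (X - Complex.I • (A * X - X * A)) * A =
        (A * X - X * A) - Complex.I • (A * (A * X - X * A) - (A * X - X * A) * A) := by
      rw [mul_sub, sub_mul, mul_smul_comm, smul_mul_assoc, smul_sub Complex.I (A * _)]
      abel
    rw [e, h, smul_sub, smul_smul, Complex.I_mul_I]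
    module) Complex.exp_pi_mul_I
  have hZ := SE2_one hSEC V A (X + Complex.I • (A * X - X * A)) (-Complex.I) (by
    have e : A * (X + Complex.I • (A * X - X * A)) - (X + Complex.I • (A * X - X * A)) * A =
        (A * X - X * A) + Complex.I • (A * (A * X - X * A) - (A * X - X * A) * A) := by
      rw [mul_add, add_mul, mul_smul_comm, smul_mul_assoc, smul_sub Complex.I (A * _)]
      abel
    rw [e, h, smul_add, smul_smul, neg_mul, Complex.I_mul_I]
    module) (by
    rw [mul_neg, Complex.exp_neg, Complex.exp_pi_mul_I]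
    norm_num)
  have hX : X = (2 : ℂ)⁻¹ • ((X - Complex.I • (A * X - X * A)) +
      (X + Complex.I • (A * X - X * A))) := by
    rw [sub_add_add_cancel, ← two_smul ℂ X, smul_smul, inv_mul_cancel₀ two_ne_zero, one_smul]
  rw [hX, mul_smul_comm, smul_mul_assoc, mul_add, add_mul, hY, hZ, ← neg_add, smul_neg]

end MPa8bd83
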