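import Pool.Agent.Work.MP_a8bd83_qk.Interface5

/-! # Block SE3 (helper71) -/

set_option autoImplicit false

namespace MPa8bd83

open Module

theorem SE3_one (hSEC : Stmt_SEC) (V : Type) [NormedAddCommGroup V] [InnerProductSpace ℂ V]
    [FiniteDimensional ℂ V] (A Y : V →L[ℂ] V) (c : ℂ) (h : A * Y - Y * A = c • Y)
    (hc : Complex.exp (Real.pi * c) = 1) :
    NormedSpace.exp (Real.pi • A) * Y = Y * NormedSpace.exp (Real.pi • A) := by
  have h1 := hSEC V (Real.pi • A) Y (Real.pi * c) (by
    rw [smul_mul_assoc, mul_smul_comm, ← smul_sub, h, RCLike.real_smul_eq_coe_smul (K := ℂ),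
      smul_smul]
    rfl)
  rw [h1, hc, one_smul]

theorem p_SE3 (hSEC : Stmt_SEC) : Stmt_SE3 := by
  intro V _ _ _ A X B C hB hC hD
  have h2 : Complex.exp (Real.pi * (2 * Complex.I)) = 1 := by
    rw [show (Real.pi : ℂ) * (2 * Complex.I) = 2 * Real.pi * Complex.I by ring]
    exact Complex.exp_two_pi_mul_I
  have hW := SE3_one hSEC V A (X + (4 : ℂ)⁻¹ • C) 0 (by
    have e : A * (X + (4 : ℂ)⁻¹ • C) - (X + (4 : ℂ)⁻¹ • C) * A =
        (A * X - X * A) + (4 : ℂ)⁻¹ • (A * C - C * A) := by
      rw [mul_add, add_mul, mul_smul_comm, smul_mul_assoc, smul_sub]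
      abel
    rw [e, hB, hD, zero_smul, smul_neg, smul_smul, inv_mul_cancel₀ (by norm_num), one_smul,
      add_neg_cancel]) (by rw [mul_zero, Complex.exp_zero])
  have hY := SE3_one hSEC V A (C - (2 * Complex.I) • B) (-(2 * Complex.I)) (by
    have e : A * (C - (2 * Complex.I) • B) - (C - (2 * Complex.I) • B) * A =
        (A * C - C * A) - (2 * Complex.I) • (A * B - B * A) := by
      rw [mul_sub, sub_mul, mul_smul_comm, smul_mul_assoc, smul_sub]
      abel
    rw [e, hC, hD, smul_sub, smul_smul,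
      show -(2 * Complex.I) * (2 * Complex.I) = 4 by
        linear_combination (-4 : ℂ) * Complex.I_mul_I]
    module) (by
    rw [mul_neg, Complex.exp_neg, h2, inv_one])
  have hZ := SE3_one hSEC V A (C + (2 * Complex.I) • B) (2 * Complex.I) (by
    have e : A * (C + (2 * Complex.I) • B) - (C + (2 * Complex.I) • B) * A =
        (A * C - C * A) + (2 * Complex.I) • (A * B - B * A) := by
      rw [mul_add, add_mul, mul_smul_comm, smul_mul_assoc, smul_sub]
      abel
    rw [e, hC, hD, smul_add, smul_smul,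
      show (2 * Complex.I) * (2 * Complex.I) = -4 by
        linear_combination (4 : ℂ) * Complex.I_mul_I]
    module) h2
  have hX : X = (X + (4 : ℂ)⁻¹ • C) - (8 : ℂ)⁻¹ • ((C - (2 * Complex.I) • B) +
      (C + (2 * Complex.I) • B)) := by
    module
  rw [hX, mul_sub, sub_mul, mul_smul_comm, smul_mul_assoc, mul_add _ (C - _) (C + _),
    add_mul (C - _) (C + _), hY, hZ, hW]

end MPa8bd83
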