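import Pool.Agent.Work.MP_a8bd83_qk.Interface4

/-! Block SEC: `exp A X = e^μ X exp A` when `A X - X A = μ X` (helper94). -/

set_option autoImplicit false

namespace MPa8bd83

open Module

theorem p_SEC : Stmt_SEC := by
  intro V _ _ _ A X μ h
  have : CompleteSpace V := FiniteDimensional.complete ℂ V
  letI : NormedAlgebra ℚ (V →L[ℂ] V) := .restrictScalars ℚ ℂ _
  have h1 : X * (A + algebraMap ℂ (V →L[ℂ] V) μ) = A * X := by
    rw [mul_add, ← Algebra.commutes, ← Algebra.smul_def, ← h]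
    abel
  have hs : SemiconjBy X (A + algebraMap ℂ (V →L[ℂ] V) μ) A := h1
  have h2 : X * NormedSpace.exp (A + algebraMap ℂ (V →L[ℂ] V) μ) = NormedSpace.exp A * X :=
    hs.exp_right
  have h3 : NormedSpace.exp (A + algebraMap ℂ (V →L[ℂ] V) μ) =
      NormedSpace.exp A * NormedSpace.exp (algebraMap ℂ (V →L[ℂ] V) μ) :=
    NormedSpace.exp_add_of_commute (Algebra.commutes μ A).symm
  rw [← h2, h3, ← NormedSpace.algebraMap_exp_comm, ← Complex.exp_eq_exp_ℂ, ← mul_assoc,
    ← Algebra.commutes, ← Algebra.smul_def]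

end MPa8bd83
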