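import Pool.Agent.Work.MP_a8bd83_qk.Interface2

set_option autoImplicit false

/-! MP_a8bd83_gt, block SIG (typed by helper4). -/

namespace MPa8bd83

open Module

/-- `F u ≠ 0` if the eigenvalue of `H` is positive. -/
theorem SIG_ne {V : Type} [NormedAddCommGroup V] [InnerProductSpace ℂ V]
    {k t : Submodule ℝ (V →L[ℂ] V)} {γ : Dual ℝ t} {ρ : t} {E F : V →L[ℂ] V}
    (hC : Cor k t γ ρ E F) {w : Dual ℝ t} {u : V} (hu : u ∈ Wt t w) (hpos : 0 < w ρ)
    (hu0 : u ≠ 0) : F u ≠ 0 := by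
  intro hFu
  have hρ : (ρ : V →L[ℂ] V) u = ((w ρ : ℂ) * Complex.I) • u := hu ρ
  have h1 : E (F u) - F (E u) = (w ρ : ℂ) • u := by
    have h2 := congrArg (fun X : V →L[ℂ] V => X u) hC.br
    simp only [ContinuousLinearMap.sub_apply, ContinuousLinearMap.mul_apply,
      ContinuousLinearMap.neg_apply, ContinuousLinearMap.smul_apply] at h2
    rw [h2, hρ, smul_smul, ← neg_smul]
    congr 1
    have hI := Complex.I_mul_I
    linear_combination -(w ρ : ℂ) * hI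
  have h3 : inner ℂ (E u) (E u) = -((w ρ : ℂ) * inner ℂ u u) := by
    have h4 := hC.adj u (E u)
    rw [h4]
    have h5 : F (E u) = -((w ρ : ℂ) • u) := by
      rw [hFu, map_zero, zero_sub] at h1
      rw [← h1, neg_neg]
    rw [h5, inner_neg_right, inner_smul_right]
  rw [inner_self_eq_norm_sq_to_K, inner_self_eq_norm_sq_to_K] at h3
  have h6 : ‖E u‖ ^ 2 = -(w ρ * ‖u‖ ^ 2) := by
    have h7 : ((‖E u‖ ^ 2 : ℝ) : ℂ) = ((-(w ρ * ‖u‖ ^ 2) : ℝ) : ℂ) := by
      push_cast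
      exact h3
    exact_mod_cast h7
  have h8 : 0 < ‖u‖ := norm_pos_iff.mpr hu0
  have h9 : 0 < w ρ * ‖u‖ ^ 2 := by positivity
  have h10 : 0 ≤ ‖E u‖ ^ 2 := by positivity
  linarith

/-- `J F u = - E J u`. -/
theorem SIG_JF {V : Type} [NormedAddCommGroup V] [InnerProductSpace ℂ V] {J : V → V}
    {k t : Submodule ℝ (V →L[ℂ] V)} (hF : Fac J k t) {γ : Dual ℝ t} {ρ : t} {E F : V →L[ℂ] V}
    (hC : Cor k t γ ρ E F) (u : V) : J (F u) = -E (J u) := by
  obtain ⟨X', -, h1, h2⟩ := hF.adj γ E hC.memE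
  have h3 : ∀ y, X' y = F y := by
    intro y
    apply ext_inner_left ℂ
    intro x
    rw [← h1, hC.adj]
  have h4 := h2 (J u)
  rw [h3, hF.quat.sq, map_neg, neg_neg] at h4
  rw [← h4, hF.quat.sq]

theorem p_SIG (hCRD : Stmt_CRD) (hSTX : Stmt_STX) : Stmt_SIG := by
  intro V _ _ _ J k t hF α β τ σ hP hR x y hw hxy
  obtain ⟨hx, hy⟩ := hxy
  have hfac := hF.fac
  obtain ⟨hpt, -, -, -⟩ := hCRD V J k t hfac α β τ σ hP
  -- the weight (1, 1)
  have hw11 : IsWt t (pt α β 1 1) := by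
    have h1 : IsWt t (pt α β 1 y) := by
      refine (hSTX V J k t hfac α β τ σ hP x y hw).1 1 ?_ ?_
      · rw [abs_one]
        have : x ≠ 0 := by
          rintro rfl
          exact absurd hx (by decide)
        exact Int.one_le_abs this
      · obtain ⟨m, hm⟩ := hx
        exact ⟨m, by omega⟩
    refine (hSTX V J k t hfac α β τ σ hP 1 y h1).2 1 ?_ ?_
    · rw [abs_one]
      have : y ≠ 0 := by
        rintro rfl
        exact absurd hy (by decide)
      exact Int.one_le_abs this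
    · obtain ⟨m, hm⟩ := hy
      exact ⟨m, by omega⟩
  have hdim : finrank ℂ (Wt t (pt α β 1 1)) ≤ 1 := by
    apply (hF.hlf (pt α β 1 1)).2
    have h1 : pt α β 1 1 + pt α β 1 1 = pt α β 2 2 := by
      simp only [pt]
      push_cast
      module
    rw [h1, hR]
    simp [RA]
  obtain ⟨v, hv, hv0⟩ := Submodule.exists_mem_ne_zero_of_ne_bot hw11
  obtain ⟨E₁, F₁, hC₁⟩ := hP.ca
  obtain ⟨E₂, F₂, hC₂⟩ := hP.cb
  -- F₁ and F₂ commute
  have hcomm : F₁ * F₂ = F₂ * F₁ := by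
    have h1 := hfac.brk (-α) (-β) F₁ hC₁.memF F₂ hC₂.memF
    have h2 : Rt k t (-α + -β) = ⊥ := by
      by_contra hne
      have h3 : IsRoot k t (pt α β (-2) (-2)) := by
        have h4 : pt α β (-2) (-2) = -α + -β := by
          simp only [pt]
          push_cast
          module
        rw [h4]
        refine ⟨fun h0 => ?_, hne⟩
        have h5 := congrArg (fun f : Dual ℝ t => f τ) h0
        simp only [LinearMap.add_apply, LinearMap.neg_apply, LinearMap.zero_apply] at h5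
        rw [hC₁.two, hP.ba] at h5
        norm_num at h5
      rw [hR] at h3
      simp [RA] at h3
    rw [h2, Submodule.mem_bot, sub_eq_zero] at h1
    exact h1
  have hτ : pt α β 1 1 τ = 1 := by simpa using (hpt 1 1).1
  have hσ : pt α β 1 1 σ = 1 := by simpa using (hpt 1 1).2
  have hF2v : F₂ v ≠ 0 := SIG_ne hC₂ hv (by rw [hσ]; exact one_pos) hv0
  have hF2m : F₂ v ∈ Wt t (pt α β 1 1 + -β) := hfac.act _ _ F₂ hC₂.memF v hv
  have hz0 : F₁ (F₂ v) ≠ 0 := by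
    refine SIG_ne hC₁ hF2m ?_ hF2v
    rw [LinearMap.add_apply, LinearMap.neg_apply, hτ, hP.ba]
    norm_num
  have hzm : F₁ (F₂ v) ∈ Wt t (pt α β 1 1 + -β + -α) := hfac.act _ _ F₁ hC₁.memF _ hF2m
  have hJz : J (F₁ (F₂ v)) ∈ Wt t (pt α β 1 1) := by
    have h1 := hfac.jw _ _ hzm
    have h2 : -(pt α β 1 1 + -β + -α) = pt α β 1 1 := by
      simp only [pt]
      push_cast
      module
    rw [h2] at h1
    exact h1
  obtain ⟨c, hc⟩ : ∃ c : ℂ, J (F₁ (F₂ v)) = c • v := by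
    have h1 := (finrank_le_one_iff (K := ℂ) (V := Wt t (pt α β 1 1))).1 hdim
    obtain ⟨v₀, hv₀⟩ := h1
    obtain ⟨a, ha⟩ := hv₀ ⟨v, hv⟩
    obtain ⟨b, hb⟩ := hv₀ ⟨_, hJz⟩
    have ha' : a • (v₀ : V) = v := congrArg Subtype.val ha
    have hb' : b • (v₀ : V) = J (F₁ (F₂ v)) := congrArg Subtype.val hb
    have ha0 : a ≠ 0 := by
      rintro rfl
      rw [zero_smul] at ha'
      exact hv0 ha'.symm
    refine ⟨b / a, ?_⟩
    rw [← hb', ← ha', smul_smul, div_mul_cancel₀ _ ha0]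
  have hkey : (starRingEnd ℂ c * c) • v = -E₁ (E₂ (F₁ (F₂ v))) := by
    have h1 : J (F₁ (F₂ (J (F₁ (F₂ v))))) = -E₁ (E₂ (F₁ (F₂ v))) := by
      rw [SIG_JF hfac hC₁, SIG_JF hfac hC₂, hfac.quat.sq, map_neg, map_neg, map_neg, neg_neg]
    rw [← h1]
    conv_rhs => rw [hc]
    rw [map_smul, map_smul, hfac.quat.smul, hc, smul_smul]
  have h1 := congrArg (fun w => inner ℂ w v) hkey
  simp only [inner_neg_left] at h1
  rw [hC₁.adj, hC₂.adj, inner_smul_left] at h1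
  have h2 : F₂ (F₁ v) = F₁ (F₂ v) := by
    have := congrArg (fun X : V →L[ℂ] V => X v) hcomm
    exact this.symm
  rw [h2, inner_self_eq_norm_sq_to_K, inner_self_eq_norm_sq_to_K] at h1
  have h3 : starRingEnd ℂ (starRingEnd ℂ c * c) = ((Complex.normSq c : ℝ) : ℂ) := by
    rw [map_mul, Complex.conj_conj, Complex.mul_conj]
  rw [h3] at h1
  have h4 : Complex.normSq c * ‖v‖ ^ 2 = -‖F₁ (F₂ v)‖ ^ 2 := by
    have h5 : ((Complex.normSq c * ‖v‖ ^ 2 : ℝ) : ℂ) = ((-‖F₁ (F₂ v)‖ ^ 2 : ℝ) : ℂ) := by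
      push_cast
      exact h1
    exact_mod_cast h5
  have h6 : 0 ≤ Complex.normSq c * ‖v‖ ^ 2 := mul_nonneg (Complex.normSq_nonneg _) (sq_nonneg _)
  have h7 : 0 < ‖F₁ (F₂ v)‖ := norm_pos_iff.mpr hz0
  have h8 : 0 < ‖F₁ (F₂ v)‖ ^ 2 := by positivity
  linarith

end MPa8bd83
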