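import Pool.Agent.Work.MP_a8bd83_qk.Interface2

namespace MPa8bd83

open Module

/-- Last nonzero iterate: if all `G ^ i u` are eigenvectors of `H` with distinct eigenvalues, some iterate vanishes. -/
theorem SL2_last {U : Type} [AddCommGroup U] [Module ℂ U] [FiniteDimensional ℂ U]
    (G H : Module.End ℂ U) (u : U) (c s : ℂ) (hs : s ≠ 0) (hu : u ≠ 0)
    (h : ∀ i : ℕ, H ((G ^ i) u) = (c + s * (i : ℂ)) • (G ^ i) u) :
    ∃ i : ℕ, (G ^ i) u ≠ 0 ∧ (G ^ (i + 1)) u = 0 := by
  classical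
  have h0 : ∃ i : ℕ, (G ^ i) u = 0 := by
    by_contra hne
    push Not at hne
    have hli : LinearIndependent ℂ (fun i : ℕ => (G ^ i) u) := by
      refine Module.End.eigenvectors_linearIndependent' H (fun i : ℕ => c + s * (i : ℂ)) ?_ _ ?_
      · intro a b hab
        have hab' : c + s * (a : ℂ) = c + s * (b : ℂ) := hab
        have h1 : s * ((a : ℂ) - (b : ℂ)) = 0 := by linear_combination hab'
        rcases mul_eq_zero.mp h1 with h2 | h2
        · exact absurd h2 hs
        · exact Nat.cast_injective (sub_eq_zero.mp h2)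
      · intro i
        exact ⟨Module.End.mem_eigenspace_iff.mpr (h i), hne i⟩
    have := hli.finite
    exact not_finite ℕ
  have hp : Nat.find h0 ≠ 0 := by
    intro h1
    have h2 := Nat.find_spec h0
    rw [h1] at h2
    exact hu (by simpa using h2)
  obtain ⟨k, hk⟩ := Nat.exists_eq_succ_of_ne_zero hp
  refine ⟨k, ?_, ?_⟩
  · exact Nat.find_min h0 (by omega)
  · have h2 := Nat.find_spec h0
    rw [hk] at h2
    exact h2

theorem SL2_shift {U : Type} [AddCommGroup U] [Module ℂ U]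
    (G H : Module.End ℂ U) (s : ℂ) (hG : H * G - G * H = s • G) (u : U) (c : ℂ) (hu : H u = c • u)
    (i : ℕ) : H ((G ^ i) u) = (c + s * (i : ℂ)) • (G ^ i) u := by
  induction i with
  | zero => simpa using hu
  | succ i ih =>
    have h1 : H (G ((G ^ i) u)) - G (H ((G ^ i) u)) = s • G ((G ^ i) u) := by
      have h2 := LinearMap.congr_fun hG ((G ^ i) u)
      simpa using h2
    have h3 : (G ^ (i + 1)) u = G ((G ^ i) u) := by
      rw [pow_succ']; rfl
    rw [h3]
    have h4 : H (G ((G ^ i) u)) = s • G ((G ^ i) u) + G (H ((G ^ i) u)) := by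
      rw [← h1]; abel
    rw [h4, ih, map_smul, ← add_smul]
    congr 1
    push_cast
    ring

theorem SL2_core {U : Type} [AddCommGroup U] [Module ℂ U] [FiniteDimensional ℂ U]
    (E F H : Module.End ℂ U) (hEF : E * F - F * E = H) (hE : H * E - E * H = (2 : ℂ) • E)
    (hF : H * F - F * H = -((2 : ℂ) • F)) (u : U) (c : ℂ) (hu : u ≠ 0) (hc : H u = c • u) :
    ∃ n : ℤ, c = (n : ℂ) ∧
      (∀ j : ℕ, (j : ℤ) ≤ n → ∃ i : ℕ, (F ^ (i + j)) ((E ^ i) u) ≠ 0) := by
  have hF' : H * F - F * H = (-2 : ℂ) • F := by rw [hF, neg_smul]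
  have h1 := SL2_shift E H 2 hE u c hc
  obtain ⟨i, hi0, hi1⟩ := SL2_last E H u c 2 two_ne_zero hu h1
  obtain ⟨v, hv⟩ : ∃ v, v = (E ^ i) u := ⟨_, rfl⟩
  obtain ⟨l, hl⟩ : ∃ l, l = c + 2 * (i : ℂ) := ⟨_, rfl⟩
  have hv0 : v ≠ 0 := by rw [hv]; exact hi0
  have hHv : H v = l • v := by rw [hv, hl]; exact h1 i
  have hEv : E v = 0 := by
    rw [hv]
    have : (E ^ (i + 1)) u = E ((E ^ i) u) := by rw [pow_succ']; rfl
    rw [← this]; exact hi1
  have h2 := SL2_shift F H (-2) hF' v l hHv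
  obtain ⟨j, hj0, hj1⟩ := SL2_last F H v l (-2) (by norm_num) hv0 h2
  have key : ∀ k : ℕ, E ((F ^ (k + 1)) v) = (((k : ℂ) + 1) * (l - k)) • (F ^ k) v := by
    intro k
    induction k with
    | zero =>
      have h3 := LinearMap.congr_fun hEF v
      simp only [LinearMap.sub_apply, Module.End.mul_apply, hEv, map_zero, sub_zero] at h3
      simp [h3, hHv]
    | succ k ih =>
      have h3 := LinearMap.congr_fun hEF ((F ^ (k + 1)) v)
      simp only [LinearMap.sub_apply, Module.End.mul_apply] at h3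
      rw [ih, h2 (k + 1), map_smul] at h3
      have h5 : F ((F ^ k) v) = (F ^ (k + 1)) v := by rw [pow_succ']; rfl
      have h6 : (F ^ (k + 1 + 1)) v = F ((F ^ (k + 1)) v) := by rw [pow_succ']; rfl
      rw [h5] at h3
      rw [h6]
      have h7 : E (F ((F ^ (k + 1)) v)) = (l + -2 * ((k + 1 : ℕ) : ℂ)) • (F ^ (k + 1)) v
          + (((k : ℂ) + 1) * (l - k)) • (F ^ (k + 1)) v := by
        rw [← h3]; abel
      rw [h7, ← add_smul]
      congr 1
      push_cast
      ring
  have hlj : l = (j : ℂ) := by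
    have h3 := key j
    rw [hj1, map_zero] at h3
    rcases smul_eq_zero.mp h3.symm with h4 | h4
    · rcases mul_eq_zero.mp h4 with h5 | h5
      · exfalso
        have : ((j + 1 : ℕ) : ℂ) = 0 := by push_cast; exact h5
        exact Nat.succ_ne_zero j (Nat.cast_eq_zero.mp this)
      · exact sub_eq_zero.mp h5
    · exact absurd h4 hj0
  refine ⟨(j : ℤ) - 2 * (i : ℤ), ?_, ?_⟩
  · push_cast
    rw [← hlj, hl]
    ring
  · intro m hm
    refine ⟨i, ?_⟩
    rw [← hv]
    intro h3
    have h4 : i + m ≤ j := by omega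
    obtain ⟨d, hd⟩ := Nat.exists_eq_add_of_le h4
    apply hj0
    rw [hd, add_comm (i + m) d, pow_add, Module.End.mul_apply, h3, map_zero]

theorem p_SL2 : Stmt_SL2 := by
  intro U _ _ _ E F H hEF hE hF u c hu hc
  obtain ⟨n, hn, hn1⟩ := SL2_core E F H hEF hE hF u c hu hc
  have a1 : F * E - E * F = -H := by rw [← hEF]; abel
  have a2 : (-H) * F - F * (-H) = (2 : ℂ) • F := by
    have : (-H) * F - F * (-H) = -(H * F - F * H) := by noncomm_ring
    rw [this, hF, neg_neg]
  have a3 : (-H) * E - E * (-H) = -((2 : ℂ) • E) := by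
    have : (-H) * E - E * (-H) = -(H * E - E * H) := by noncomm_ring
    rw [this, hE]
  have a4 : (-H) u = (-c) • u := by
    rw [LinearMap.neg_apply, hc, neg_smul]
  obtain ⟨m, hm, hm1⟩ := SL2_core F E (-H) a1 a2 a3 u (-c) hu a4
  have hmn : m = -n := by
    have : ((m : ℤ) : ℂ) = ((-n : ℤ) : ℂ) := by
      push_cast
      rw [← hm, hn]
    exact_mod_cast this
  refine ⟨n, hn, hn1, ?_⟩
  intro j hj
  exact hm1 j (by omega)

end MPa8bd83
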