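import Pool.Agent.Work.MP_a8bd83_qk.Interface

/-! Block SLZ (helper55): integrality and strings for `sl_2`. -/

set_option autoImplicit false

namespace MPa8bd83

open Module

section

variable {V : Type} [NormedAddCommGroup V] [InnerProductSpace ℂ V] [FiniteDimensional ℂ V]
  [CompleteSpace V]

theorem SLZ_adj {J : V → V} {η : V →L[ℂ] V} (h : IsSp J η) :
    ContinuousLinearMap.adjoint η = -η := by
  ext x
  refine ext_inner_left ℂ fun y => ?_
  rw [ContinuousLinearMap.adjoint_inner_right, h.skew y x]
  simp

theorem SLZ_int {h e f : Module.End ℂ V} (he : ∀ x, h (e x) = e (h x) + (2 : ℂ) • e x)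
    (hf : ∀ x, h (f x) = f (h x) - (2 : ℂ) • f x) (hef : ∀ x, e (f x) = f (e x) + h x)
    (a : ℝ) (v : V) (hv : v ≠ 0)
    (hav : h v = (a : ℂ) • v) : ∃ n : ℤ, a = n := by
  have hE : ∀ n : ℕ, h ((e ^ n) v) = (((a + 2 * n : ℝ) : ℂ)) • (e ^ n) v := by
    intro n
    induction n with
    | zero => simpa using hav
    | succ n ih =>
      rw [pow_succ', Module.End.mul_apply, he, ih, map_smul, ← add_smul]
      congr 1
      push_cast
      ring
  have dies : ∀ (g : Module.End ℂ V) (u : V) (b s : ℝ), s ≠ 0 →
      (∀ n : ℕ, h ((g ^ n) u) = (((b + s * n : ℝ) : ℂ)) • (g ^ n) u) → ∃ n : ℕ, (g ^ n) u = 0 := by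
    intro g u b s hs hg
    by_contra hcon
    push Not at hcon
    have hinf : (Set.range fun n : ℕ => ((b + s * n : ℝ) : ℂ)).Infinite := by
      refine Set.infinite_range_of_injective ?_
      intro m n hmn
      have h1 : (b + s * m : ℝ) = b + s * n := Complex.ofReal_injective hmn
      have : (m : ℝ) = n := mul_left_cancel₀ hs (by linarith)
      exact_mod_cast this
    refine hinf ((Module.End.finite_hasEigenvalue h).subset ?_)
    rintro _ ⟨n, rfl⟩
    exact Module.End.hasEigenvalue_of_hasEigenvector (x := (g ^ n) u)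
      ⟨Module.End.mem_eigenspace_iff.mpr (hg n), hcon n⟩
  obtain ⟨n, hn, hn1⟩ := Nat.exists_not_and_succ_of_not_zero_of_exists
    (p := fun n => (e ^ n) v = 0) (by simpa using hv) (dies e v a 2 two_ne_zero hE)
  set u : V := (e ^ n) v with hu
  set m : ℝ := a + 2 * n with hm
  have hu0 : h u = (m : ℂ) • u := hE n
  have heu : e u = 0 := by
    rw [pow_succ', Module.End.mul_apply] at hn1
    exact hn1
  have hF : ∀ j : ℕ, h ((f ^ j) u) = (((m + (-2) * j : ℝ) : ℂ)) • (f ^ j) u := by
    intro j
    induction j with
    | zero => simpa using hu0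
    | succ j ih =>
      rw [pow_succ', Module.End.mul_apply, hf, ih, map_smul, ← sub_smul]
      congr 1
      push_cast
      ring
  have hEF : ∀ j : ℕ, e ((f ^ (j + 1)) u) = (((j + 1) * (m - j) : ℝ) : ℂ) • (f ^ j) u := by
    intro j
    induction j with
    | zero =>
      rw [zero_add, pow_one, hef, heu, map_zero, zero_add, hu0]
      simp
    | succ j ih =>
      rw [pow_succ', Module.End.mul_apply, hef, ih, hF, map_smul]
      have : f ((f ^ j) u) = (f ^ (j + 1)) u := by rw [pow_succ', Module.End.mul_apply]
      rw [this, ← add_smul]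
      congr 1
      push_cast
      ring
  obtain ⟨j, hj, hj1⟩ := Nat.exists_not_and_succ_of_not_zero_of_exists
    (p := fun j => (f ^ j) u = 0) (by simpa using hn) (dies f u m (-2) (by norm_num) hF)
  have h3 := hEF j
  rw [hj1, map_zero] at h3
  have h4 : (((j + 1) * (m - j) : ℝ) : ℂ) = 0 := by
    rcases smul_eq_zero.mp h3.symm with h | h
    · exact h
    · exact absurd h hj
  have h5 : ((j : ℝ) + 1) * (m - j) = 0 := Complex.ofReal_injective (by rw [h4]; simp)
  have h6 : m - j = 0 := by
    rcases mul_eq_zero.mp h5 with h | h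
    · have : (0 : ℝ) ≤ j := Nat.cast_nonneg j
      linarith
    · exact h
  refine ⟨(j : ℤ) - 2 * n, ?_⟩
  push_cast
  linarith

end

theorem SLZ : Stmt_SLZ := by
  intro V _ _ _ _ J k η E hJ hS a v hv hav
  obtain ⟨hηk, hηsp, hEk, hE0, hcomm, hEE, -⟩ := hS
  have hadj := SLZ_adj hηsp
  have hI : Complex.I * Complex.I = -1 := Complex.I_mul_I
  have hcommv : ∀ x, η (E x) - E (η x) = (2 * Complex.I) • E x := fun x => by
    have := congrArg (fun T : V →L[ℂ] V => T x) hcomm
    simpa using this
  have hcomm' : η * ContinuousLinearMap.adjoint E - ContinuousLinearMap.adjoint E * η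
      = (-(2 * Complex.I)) • ContinuousLinearMap.adjoint E := by
    have h1 := congrArg star hcomm
    rw [star_sub, star_mul, star_mul, star_smul] at h1
    simp only [ContinuousLinearMap.star_eq_adjoint, hadj] at h1
    rw [mul_neg, neg_mul, sub_neg_eq_add, neg_add_eq_sub] at h1
    rw [h1]
    congr 1
    simp
  have hcommv' : ∀ x, η (ContinuousLinearMap.adjoint E x) - ContinuousLinearMap.adjoint E (η x)
      = (-(2 * Complex.I)) • ContinuousLinearMap.adjoint E x := fun x => by
    have := congrArg (fun T : V →L[ℂ] V => T x) hcomm'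
    simpa using this
  have hEEv : ∀ x, E (ContinuousLinearMap.adjoint E x) - ContinuousLinearMap.adjoint E (E x)
      = -(Complex.I • η x) := fun x => by
    have := congrArg (fun T : V →L[ℂ] V => T x) hEE
    simpa using this
  refine ⟨?_, ?_, ?_, ?_⟩
  · -- integrality
    let h : Module.End ℂ V := (-(Complex.I • η) : V →L[ℂ] V).toLinearMap
    let e : Module.End ℂ V := E.toLinearMap
    let f : Module.End ℂ V := (ContinuousLinearMap.adjoint E).toLinearMap
    have h1 : ∀ x, h (e x) = e (h x) + (2 : ℂ) • e x := by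
      intro x
      simp only [h, e, ContinuousLinearMap.coe_coe]
      have h2 : η (E x) = E (η x) + (2 * Complex.I) • E x := by rw [← hcommv x]; abel
      simp only [_root_.neg_apply, _root_.smul_apply, map_neg, map_smul, h2, smul_add, smul_smul]
      have h3 : Complex.I * (2 * Complex.I) = -2 := by linear_combination 2 * hI
      rw [h3]
      module
    have h2 : ∀ x, h (f x) = f (h x) - (2 : ℂ) • f x := by
      intro x
      simp only [h, f, ContinuousLinearMap.coe_coe]
      have h2 : η (ContinuousLinearMap.adjoint E x) = ContinuousLinearMap.adjoint E (η x)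
          + (-(2 * Complex.I)) • ContinuousLinearMap.adjoint E x := by rw [← hcommv' x]; abel
      simp only [_root_.neg_apply, _root_.smul_apply, map_neg, map_smul, h2, smul_add, smul_smul]
      have h3 : Complex.I * (-(2 * Complex.I)) = 2 := by linear_combination -2 * hI
      rw [h3]
      module
    have h3 : ∀ x, e (f x) = f (e x) + h x := by
      intro x
      simp only [h, e, f, ContinuousLinearMap.coe_coe]
      rw [_root_.neg_apply, _root_.smul_apply, ← hEEv x]
      abel
    refine SLZ_int h1 h2 h3 a v hv ?_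
    simp only [h, ContinuousLinearMap.coe_coe, _root_.neg_apply, _root_.smul_apply]
    rw [hav, smul_smul]
    have h3 : Complex.I * ((a : ℂ) * Complex.I) = -(a : ℂ) := by linear_combination (a : ℂ) * hI
    rw [h3, neg_smul, neg_neg]
  · have h1 := hcommv v
    rw [hav, map_smul, sub_eq_iff_eq_add, ← add_smul] at h1
    rw [h1]
    congr 1
    push_cast
    ring
  · have h1 := hcommv' v
    rw [hav, map_smul, sub_eq_iff_eq_add, ← add_smul] at h1
    rw [h1]
    congr 1
    push_cast
    ring
  · intro ha h0
    have h1 := hEEv v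
    rw [h0, map_zero, zero_sub, neg_inj, hav, smul_smul] at h1
    have h3 : Complex.I * ((a : ℂ) * Complex.I) = -(a : ℂ) := by linear_combination (a : ℂ) * hI
    rw [h3] at h1
    have h4 := congrArg (fun z => inner ℂ v z) h1
    simp only [ContinuousLinearMap.adjoint_inner_right, inner_smul_right] at h4
    rw [inner_self_eq_norm_sq_to_K, inner_self_eq_norm_sq_to_K] at h4
    have h5 : ‖E v‖ ^ 2 = -a * ‖v‖ ^ 2 := by
      have : ((‖E v‖ ^ 2 : ℝ) : ℂ) = ((-a * ‖v‖ ^ 2 : ℝ) : ℂ) := by
        push_cast
        simpa using h4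
      exact Complex.ofReal_injective this
    have h6 : 0 < ‖v‖ ^ 2 := by positivity
    nlinarith [sq_nonneg ‖E v‖]

end MPa8bd83
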