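import Pool.Agent.Work.MP_a8bd83_qk.Interface5

/-! Block SOB: the bound for representations of `so(m)` (helper94). -/

set_option autoImplicit false

namespace MPa8bd83

open Module

/-- The diagonal projection. -/
noncomputable def SOB_P (m a : ℕ) : Matrix (Fin m) (Fin m) ℝ :=
  Matrix.diagonal (fun j : Fin m => if (j : ℕ) < a then (1 : ℝ) else 0)

theorem SOB_off {m a : ℕ} (Z : Matrix (Fin m) (Fin m) ℝ)
    (h : ∀ j k : Fin m, ((j : ℕ) < a ↔ (k : ℕ) < a) → Z j k = 0) :
    SOB_P m a * Z + Z * SOB_P m a = Z ∧ SOB_P m a * Z * SOB_P m a = 0 := by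
  constructor
  · ext j k
    rw [Matrix.add_apply, SOB_P, Matrix.diagonal_mul, Matrix.mul_diagonal]
    by_cases hj : (j : ℕ) < a
    · by_cases hk : (k : ℕ) < a
      · rw [h j k (by simp [hj, hk])]
        simp
      · simp [hj, hk]
    · by_cases hk : (k : ℕ) < a
      · simp [hj, hk]
      · rw [h j k (by simp [hj, hk])]
        simp
  · ext j k
    rw [SOB_P, Matrix.mul_diagonal, Matrix.diagonal_mul, Matrix.zero_apply]
    by_cases hj : (j : ℕ) < a
    · by_cases hk : (k : ℕ) < a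
      · rw [h j k (by simp [hj, hk])]
        simp
      · simp [hk]
    · simp [hj]

theorem SOB_comm {m a : ℕ} (X : Matrix (Fin m) (Fin m) ℝ)
    (h : ∀ j k : Fin m, ¬ ((j : ℕ) < a ↔ (k : ℕ) < a) → X j k = 0) :
    X * SOB_P m a = SOB_P m a * X := by
  ext j k
  rw [SOB_P, Matrix.diagonal_mul, Matrix.mul_diagonal]
  by_cases hj : (j : ℕ) < a
  · by_cases hk : (k : ℕ) < a
    · simp [hj, hk]
    · rw [h j k (by simp [hj, hk])]
      simp
  · by_cases hk : (k : ℕ) < a
    · rw [h j k (by simp [hj, hk])]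
      simp
    · simp [hj, hk]

theorem SOB_D {m : ℕ} {D P Z : Matrix (Fin m) (Fin m) ℝ} (h2 : D * D = -P)
    (h3 : D * D * D = -D) (h : P * Z + Z * P = Z ∧ P * Z * P = 0) :
    D * Z * D = 0 ∧ D * D * Z + Z * (D * D) = -Z := by
  have h4 : P * D = D := by
    have := h3
    rw [h2, neg_mul] at this
    exact neg_inj.1 this
  have h5 : D * P = D := by
    have := h3
    rw [mul_assoc, h2, mul_neg] at this
    exact neg_inj.1 this
  constructor
  · calc D * Z * D = D * P * Z * (P * D) := by rw [h5, h4]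
      _ = D * (P * Z * P) * D := by simp only [mul_assoc]
      _ = 0 := by rw [h.2, mul_zero, zero_mul]
  · rw [h2, neg_mul, mul_neg, ← neg_add, h.1]

theorem p_SOB (hIV4 : Stmt_IV4) (hSOD : Stmt_SOD) (hSOS : Stmt_SOS) (hSOQ : Stmt_SOQ) :
    Stmt_SOB := by
  classical
  intro V _ _ _ J m b ρ hJ hρ hρ0 hF hb hm
  obtain ⟨D₁, D₂, D₃, D, hQ, hc, hD, hDD, hDDD⟩ := hSOQ m b hm.le
  have hDD' : (D : Matrix (Fin m) (Fin m) ℝ) * (D : Matrix (Fin m) (Fin m) ℝ) =
      -SOB_P m (4 * b) := hDD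
  set I : Finset (Fin m) := Finset.univ.filter (fun j : Fin m => (j : ℕ) < 4 * b) with hI
  have hmem : ∀ j : Fin m, j ∈ I ↔ (j : ℕ) < 4 * b := fun j => by
    rw [hI, Finset.mem_filter]
    simp
  have hcard : I.card = 4 * b := by
    rw [hI, Fin.card_filter_val_lt]
    omega
  have hoff : ∀ Z : Matrix (Fin m) (Fin m) ℝ,
      (∀ j k : Fin m, ((j : ℕ) < 4 * b ↔ (k : ℕ) < 4 * b) → Z j k = 0) →
      (D : Matrix (Fin m) (Fin m) ℝ) * Z * D = 0 ∧
      (D : Matrix (Fin m) (Fin m) ℝ) * D * Z + Z * ((D : Matrix (Fin m) (Fin m) ℝ) * D) = -Z :=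
    fun Z hZ => SOB_D hDD' hDDD (SOB_off Z hZ)
  have key := (hIV4 V J (Matrix (Fin m) (Fin m) ℝ) (so m) (soE m I) ρ (Fin b) D₁ D₂ D₃ D hJ
    ?_ hρ hF hQ hc hD hDDD ?_ ?_ ?_ ?_).2
  · have h1 := hSOD m I
    rw [hcard] at h1
    exact key.trans (Nat.mul_le_mul_left 4 h1)
  · intro X hX Y hY
    change X.transpose = -X at hX
    change Y.transpose = -Y at hY
    change (X * Y - Y * X).transpose = -(X * Y - Y * X)
    rw [Matrix.transpose_sub, Matrix.transpose_mul, Matrix.transpose_mul, hX, hY]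
    simp only [neg_mul, mul_neg, neg_neg, neg_sub]
  · intro X hX
    exact hX.1
  · intro X hX
    rw [hDD', mul_neg, neg_mul]
    congr 1
    refine SOB_comm X fun j k hjk => hX.2 j k ?_
    rw [hmem, hmem]
    exact hjk
  · intro X hX
    change X.transpose = -X at hX
    have hX' : ∀ j k, X k j = -X j k := fun j k => by
      have := congrFun (congrFun hX j) k
      rwa [Matrix.transpose_apply, Matrix.neg_apply] at this
    refine ⟨Matrix.of fun j k => if ((j : ℕ) < 4 * b ↔ (k : ℕ) < 4 * b) then X j k else 0, ?_,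
      Matrix.of fun j k => if ((j : ℕ) < 4 * b ↔ (k : ℕ) < 4 * b) then 0 else X j k, ?_, ?_, ?_⟩
    · refine ⟨?_, fun j k hjk => ?_⟩
      · change Matrix.transpose _ = -_
        ext j k
        rw [Matrix.transpose_apply, Matrix.neg_apply, Matrix.of_apply, Matrix.of_apply]
        by_cases h : ((j : ℕ) < 4 * b ↔ (k : ℕ) < 4 * b)
        · rw [if_pos h, if_pos h.symm, hX']
        · rw [if_neg h, if_neg fun h' => h h'.symm, neg_zero]
      · rw [Matrix.of_apply]
        rw [hmem, hmem] at hjk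
        rw [if_neg hjk]
    · change Matrix.transpose _ = -_
      ext j k
      rw [Matrix.transpose_apply, Matrix.neg_apply, Matrix.of_apply, Matrix.of_apply]
      by_cases h : ((j : ℕ) < 4 * b ↔ (k : ℕ) < 4 * b)
      · rw [if_pos h, if_pos h.symm, neg_zero]
      · rw [if_neg h, if_neg fun h' => h h'.symm, hX']
    · ext j k
      rw [Matrix.add_apply, Matrix.of_apply, Matrix.of_apply]
      by_cases h : ((j : ℕ) < 4 * b ↔ (k : ℕ) < 4 * b)
      · rw [if_pos h, if_pos h, add_zero]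
      · rw [if_neg h, if_neg h, zero_add]
    · refine hoff _ fun j k h => ?_
      rw [Matrix.of_apply, if_pos h]
  · have hm0 : 0 < m := by omega
    let p : Fin m := ⟨0, hm0⟩
    let q : Fin m := ⟨m - 1, by omega⟩
    have hp : (p : ℕ) < 4 * b := by
      show 0 < 4 * b
      omega
    have hq : ¬ (q : ℕ) < 4 * b := by
      show ¬ (m - 1 < 4 * b)
      omega
    have hpq : p ≠ q := by
      intro h
      rw [h] at hp
      exact hq hp
    have hZ : Matrix.single p q (1 : ℝ) - Matrix.single q p 1 ∈ so m := by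
      change Matrix.transpose _ = -_
      rw [Matrix.transpose_sub, Matrix.transpose_single, Matrix.transpose_single, neg_sub]
    refine ⟨⟨_, hZ⟩, hSOS V J m ρ hρ hρ0 p q _ hpq rfl, hoff _ fun j k h => ?_⟩
    change (Matrix.single p q (1 : ℝ) - Matrix.single q p 1 : Matrix (Fin m) (Fin m) ℝ) j k = 0
    rw [Matrix.sub_apply, Matrix.single_apply, Matrix.single_apply]
    have h1 : ¬ (p = j ∧ q = k) := by
      rintro ⟨rfl, rfl⟩
      exact hq (h.1 hp)
    have h2 : ¬ (q = j ∧ p = k) := by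
      rintro ⟨rfl, rfl⟩
      exact hq (h.2 hp)
    rw [if_neg h1, if_neg h2, sub_zero]

end MPa8bd83
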