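/-
MP_a8bd83_gt, THEOREM QR, block SOD: the dimension of the block diagonal part of so(m).
-/
import Pool.Agent.Work.MP_a8bd83_qk.Interface5

set_option autoImplicit false

namespace MPa8bd83

open Module

/-- The entries indexed by a set of pairs. -/
noncomputable def SOD_phi (m : ℕ) (I : Finset (Fin m)) (S : Finset (Fin m × Fin m)) :
    soE m I →ₗ[ℝ] (S → ℝ) where
  toFun X := fun s => (X : Matrix (Fin m) (Fin m) ℝ) s.1.1 s.1.2
  map_add' := by
    intro X Y
    funext s
    simp
  map_smul' := by
    intro c X
    funext s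
    simp

/-- **SOD.** The dimension of the block diagonal part. -/
theorem p_SOD (hCNP : Stmt_CNP) : Stmt_SOD := by
  classical
  intro m I
  obtain ⟨S, hS⟩ : ∃ S : Finset (Fin m × Fin m), S =
      Finset.univ.filter (fun p : Fin m × Fin m => p.1 < p.2 ∧ (p.1 ∈ I ↔ p.2 ∈ I)) := ⟨_, rfl⟩
  have hinj : Function.Injective (SOD_phi m I S) := by
    rw [← LinearMap.ker_eq_bot, LinearMap.ker_eq_bot']
    intro X hX
    obtain ⟨X, hX1, hX3⟩ := X
    have hval : ∀ j k : Fin m, j < k → (j ∈ I ↔ k ∈ I) → X j k = 0 := by
      intro j k h3 h4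
      have hmem : (j, k) ∈ S := by
        rw [hS, Finset.mem_filter]
        exact ⟨Finset.mem_univ _, h3, h4⟩
      exact congrFun hX ⟨(j, k), hmem⟩
    have hskew : ∀ j k : Fin m, X k j = - X j k := by
      intro j k
      have h3 : X.transpose j k = (-X) j k := congrFun (congrFun hX1 j) k
      rw [Matrix.transpose_apply, Matrix.neg_apply] at h3
      exact h3
    have hX0 : X = 0 := by
      ext j k
      by_cases hb : (j ∈ I ↔ k ∈ I)
      · rcases lt_trichotomy j k with h | h | h
        · rw [hval j k h hb]; rfl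
        · subst h
          have h4 := hskew j j
          have h5 : X j j = 0 := by linarith
          rw [h5]; rfl
        · rw [hskew k j, hval k j h hb.symm, neg_zero]; rfl
      · rw [hX3 j k hb]; rfl
    exact Subtype.ext hX0
  have hle := LinearMap.finrank_le_finrank_of_injective hinj
  rw [Module.finrank_fintype_fun_eq_card, Fintype.card_coe, hS] at hle
  have h6 := hCNP m I
  have h7 : (Finset.univ.filter
      (fun p : Fin m × Fin m => p.1 < p.2 ∧ (p.1 ∈ I ↔ p.2 ∈ I))).card =
      I.card.choose 2 + (m - I.card).choose 2 := by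
    rw [← h6]
  rw [h7] at hle
  exact hle

end MPa8bd83
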