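import Pool.Agent.Work.MP_a8bd83_qk.Interface5

/-! Block SOQ (helper98): quaternion units in `so(m)`. -/

set_option autoImplicit false

namespace MPa8bd83

open Module

/-- The inclusion of the block `l`. -/
def SOQ_E (m b : ℕ) (l : Fin b) : Matrix (Fin m) (Fin 4) ℝ :=
  Matrix.of fun j p => if (j : ℕ) = 4 * (l : ℕ) + (p : ℕ) then 1 else 0

theorem SOQ_tt (m b : ℕ) (h : 4 * b ≤ m) (l l' : Fin b) :
    (SOQ_E m b l).transpose * SOQ_E m b l' = if l = l' then 1 else 0 := by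
  ext p q
  have hj : 4 * (l : ℕ) + (p : ℕ) < m := by
    have := l.2
    have := p.2
    omega
  rw [Matrix.mul_apply, Finset.sum_eq_single (⟨4 * (l : ℕ) + (p : ℕ), hj⟩ : Fin m)]
  · simp only [Matrix.transpose_apply, SOQ_E, Matrix.of_apply, if_true, one_mul]
    have hp := p.2
    have hq := q.2
    by_cases hl : l = l'
    · subst hl
      by_cases hpq : p = q
      · subst hpq
        simp
      · have h1 : ¬ (4 * (l : ℕ) + (p : ℕ) = 4 * (l : ℕ) + (q : ℕ)) := by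
          intro h2
          exact hpq (Fin.ext (by omega))
        rw [if_neg h1, if_pos rfl, Matrix.one_apply_ne hpq]
    · have h1 : ¬ (4 * (l : ℕ) + (p : ℕ) = 4 * (l' : ℕ) + (q : ℕ)) := by
        intro h2
        exact hl (Fin.ext (by omega))
      simp [h1, hl]
  · intro j _ hne
    have h1 : ¬ ((j : ℕ) = 4 * (l : ℕ) + (p : ℕ)) := fun h2 => hne (Fin.ext h2)
    simp only [Matrix.transpose_apply, SOQ_E, Matrix.of_apply, if_neg h1, zero_mul]
  · intro h1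
    exact absurd (Finset.mem_univ _) h1

theorem SOQ_P (m b : ℕ) : ∑ l : Fin b, SOQ_E m b l * (SOQ_E m b l).transpose =
    Matrix.diagonal (fun j : Fin m => if (j : ℕ) < 4 * b then (1 : ℝ) else 0) := by
  ext j k
  rw [Matrix.sum_apply, Matrix.diagonal_apply]
  simp only [Matrix.mul_apply, Matrix.transpose_apply, SOQ_E, Matrix.of_apply]
  by_cases hj : (j : ℕ) < 4 * b
  · rw [Finset.sum_eq_single (⟨(j : ℕ) / 4, by omega⟩ : Fin b),
      Finset.sum_eq_single (⟨(j : ℕ) % 4, by omega⟩ : Fin 4)]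
    · have h1 : (j : ℕ) = 4 * ((j : ℕ) / 4) + (j : ℕ) % 4 := by omega
      simp only [← h1, if_true, one_mul, if_pos hj]
      by_cases hjk : j = k
      · subst hjk
        simp
      · have h2 : ¬ ((k : ℕ) = (j : ℕ)) := fun h3 => hjk (Fin.ext h3.symm)
        rw [if_neg h2, if_neg hjk]
    · intro p _ hp
      have h2 : ¬ ((j : ℕ) = 4 * ((j : ℕ) / 4) + (p : ℕ)) := by
        intro h3
        exact hp (Fin.ext (by show (p : ℕ) = (j : ℕ) % 4; omega))
      simp only [if_neg h2, zero_mul]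
    · intro h2
      exact absurd (Finset.mem_univ _) h2
    · intro l _ hl
      refine Finset.sum_eq_zero fun p _ => ?_
      have hp := p.2
      have h2 : ¬ ((j : ℕ) = 4 * (l : ℕ) + (p : ℕ)) := by
        intro h3
        exact hl (Fin.ext (by show (l : ℕ) = (j : ℕ) / 4; omega))
      simp only [if_neg h2, zero_mul]
    · intro h2
      exact absurd (Finset.mem_univ _) h2
  · rw [if_neg hj, ite_self]
    refine Finset.sum_eq_zero fun l _ => Finset.sum_eq_zero fun p _ => ?_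
    have hp := p.2
    have hl := l.2
    have h2 : ¬ ((j : ℕ) = 4 * (l : ℕ) + (p : ℕ)) := by omega
    simp only [if_neg h2, zero_mul]

/-- A matrix on the block `l`. -/
def SOQ_B (m b : ℕ) (l : Fin b) (A : Matrix (Fin 4) (Fin 4) ℝ) : Matrix (Fin m) (Fin m) ℝ :=
  SOQ_E m b l * A * (SOQ_E m b l).transpose

theorem SOQ_mul (m b : ℕ) (h : 4 * b ≤ m) (l l' : Fin b) (A B : Matrix (Fin 4) (Fin 4) ℝ) :
    SOQ_B m b l A * SOQ_B m b l' B = if l = l' then SOQ_B m b l (A * B) else 0 := by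
  have h1 : SOQ_B m b l A * SOQ_B m b l' B = SOQ_E m b l * A *
      ((SOQ_E m b l).transpose * SOQ_E m b l') * B * (SOQ_E m b l').transpose := by
    simp only [SOQ_B, Matrix.mul_assoc]
  rw [h1, SOQ_tt m b h]
  by_cases hl : l = l'
  · subst hl
    simp only [if_true, Matrix.mul_one, SOQ_B, Matrix.mul_assoc]
  · simp only [if_neg hl, Matrix.mul_zero, Matrix.zero_mul]

theorem SOQ_same (m b : ℕ) (h : 4 * b ≤ m) (l : Fin b) (A B : Matrix (Fin 4) (Fin 4) ℝ) :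
    SOQ_B m b l A * SOQ_B m b l B = SOQ_B m b l (A * B) := by
  rw [SOQ_mul m b h, if_pos rfl]

theorem SOQ_add (m b : ℕ) (l : Fin b) (A B : Matrix (Fin 4) (Fin 4) ℝ) :
    SOQ_B m b l (A - B) = SOQ_B m b l A - SOQ_B m b l B := by
  simp only [SOQ_B, Matrix.mul_sub, Matrix.sub_mul]

theorem SOQ_smul (m b : ℕ) (l : Fin b) (c : ℝ) (A : Matrix (Fin 4) (Fin 4) ℝ) :
    SOQ_B m b l (c • A) = c • SOQ_B m b l A := by
  simp only [SOQ_B, Matrix.mul_smul, Matrix.smul_mul]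

theorem SOQ_so (m b : ℕ) (l : Fin b) (A : Matrix (Fin 4) (Fin 4) ℝ) (hA : A.transpose = -A) :
    SOQ_B m b l A ∈ so m := by
  show (SOQ_B m b l A).transpose = -SOQ_B m b l A
  simp only [SOQ_B, Matrix.transpose_mul, Matrix.transpose_transpose, hA, Matrix.mul_neg,
    Matrix.neg_mul, Matrix.mul_assoc]

theorem SOQ_com (m b : ℕ) (h : 4 * b ≤ m) (l : Fin b) (A B C : Matrix (Fin 4) (Fin 4) ℝ)
    (hC : A * B - B * A = (2 : ℝ) • C) :
    SOQ_B m b l A * SOQ_B m b l B - SOQ_B m b l B * SOQ_B m b l A =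
      (2 : ℝ) • SOQ_B m b l C := by
  rw [SOQ_same m b h, SOQ_same m b h, ← SOQ_add, hC, SOQ_smul]

/-- Left multiplication by `i`. -/
def SOQ_1 : Matrix (Fin 4) (Fin 4) ℝ := !![0, -1, 0, 0; 1, 0, 0, 0; 0, 0, 0, -1; 0, 0, 1, 0]

/-- Left multiplication by `j`. -/
def SOQ_2 : Matrix (Fin 4) (Fin 4) ℝ := !![0, 0, -1, 0; 0, 0, 0, 1; 1, 0, 0, 0; 0, -1, 0, 0]

/-- Left multiplication by `k`. -/
def SOQ_3 : Matrix (Fin 4) (Fin 4) ℝ := !![0, 0, 0, -1; 0, 0, -1, 0; 0, 1, 0, 0; 1, 0, 0, 0]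

theorem SOQ_t1 : SOQ_1.transpose = -SOQ_1 := by
  ext i j
  fin_cases i <;> fin_cases j <;> simp [SOQ_1]

theorem SOQ_t2 : SOQ_2.transpose = -SOQ_2 := by
  ext i j
  fin_cases i <;> fin_cases j <;> simp [SOQ_2]

theorem SOQ_t3 : SOQ_3.transpose = -SOQ_3 := by
  ext i j
  fin_cases i <;> fin_cases j <;> simp [SOQ_3]

theorem SOQ_12 : SOQ_1 * SOQ_2 - SOQ_2 * SOQ_1 = (2 : ℝ) • SOQ_3 := by
  ext i j
  fin_cases i <;> fin_cases j <;>
    simp [SOQ_1, SOQ_2, SOQ_3] <;> norm_num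

theorem SOQ_23 : SOQ_2 * SOQ_3 - SOQ_3 * SOQ_2 = (2 : ℝ) • SOQ_1 := by
  ext i j
  fin_cases i <;> fin_cases j <;>
    simp [SOQ_1, SOQ_2, SOQ_3] <;> norm_num

theorem SOQ_31 : SOQ_3 * SOQ_1 - SOQ_1 * SOQ_3 = (2 : ℝ) • SOQ_2 := by
  ext i j
  fin_cases i <;> fin_cases j <;>
    simp [SOQ_1, SOQ_2, SOQ_3] <;> norm_num

theorem SOQ_11 : SOQ_1 * SOQ_1 = -1 := by
  ext i j
  fin_cases i <;> fin_cases j <;>
    simp [SOQ_1]

theorem p_SOQ : Stmt_SOQ := by
  intro m b h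
  obtain ⟨D, hD⟩ : ∃ D : so m, D = ∑ l : Fin b, ⟨SOQ_B m b l SOQ_1, SOQ_so m b l _ SOQ_t1⟩ :=
    ⟨_, rfl⟩
  have hD1 : (D : Matrix (Fin m) (Fin m) ℝ) = ∑ l : Fin b, SOQ_B m b l SOQ_1 := by
    rw [hD]
    simp
  have hDD : (D : Matrix (Fin m) (Fin m) ℝ) * (D : Matrix (Fin m) (Fin m) ℝ) =
      -∑ l : Fin b, SOQ_E m b l * (SOQ_E m b l).transpose := by
    rw [hD1, Finset.sum_mul, ← Finset.sum_neg_distrib]
    refine Finset.sum_congr rfl fun l _ => ?_
    rw [Finset.mul_sum, Finset.sum_eq_single l]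
    · rw [SOQ_same m b h, SOQ_11]
      simp only [SOQ_B, Matrix.mul_neg, Matrix.neg_mul, Matrix.mul_one]
    · intro l' _ hl
      rw [SOQ_mul m b h, if_neg (Ne.symm hl)]
    · intro h2
      exact absurd (Finset.mem_univ _) h2
  refine ⟨fun l => ⟨SOQ_B m b l SOQ_1, SOQ_so m b l _ SOQ_t1⟩,
    fun l => ⟨SOQ_B m b l SOQ_2, SOQ_so m b l _ SOQ_t2⟩,
    fun l => ⟨SOQ_B m b l SOQ_3, SOQ_so m b l _ SOQ_t3⟩, D, ?_, ?_, hD, ?_, ?_⟩
  · intro l
    exact ⟨SOQ_com m b h l _ _ _ SOQ_12, SOQ_com m b h l _ _ _ SOQ_23,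
      SOQ_com m b h l _ _ _ SOQ_31⟩
  · intro i j
    show SOQ_B m b i SOQ_1 * SOQ_B m b j SOQ_1 = SOQ_B m b j SOQ_1 * SOQ_B m b i SOQ_1
    by_cases hij : i = j
    · rw [hij]
    · rw [SOQ_mul m b h, SOQ_mul m b h, if_neg hij, if_neg (Ne.symm hij)]
  · rw [hDD, SOQ_P]
  · rw [hDD, hD1, Matrix.neg_mul, Finset.mul_sum, neg_inj]
    refine Finset.sum_congr rfl fun l _ => ?_
    rw [Finset.sum_mul, Finset.sum_eq_single l]
    · have h1 : SOQ_E m b l * (SOQ_E m b l).transpose * SOQ_B m b l SOQ_1 =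
          SOQ_E m b l * ((SOQ_E m b l).transpose * SOQ_E m b l) * SOQ_1 *
            (SOQ_E m b l).transpose := by
        simp only [SOQ_B, Matrix.mul_assoc]
      rw [h1, SOQ_tt m b h, if_pos rfl, Matrix.mul_one]
      rfl
    · intro l' _ hl
      have h1 : SOQ_E m b l' * (SOQ_E m b l').transpose * SOQ_B m b l SOQ_1 =
          SOQ_E m b l' * ((SOQ_E m b l').transpose * SOQ_E m b l) * SOQ_1 *
            (SOQ_E m b l).transpose := by
        simp only [SOQ_B, Matrix.mul_assoc]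
      rw [h1, SOQ_tt m b h, if_neg hl, Matrix.mul_zero, Matrix.zero_mul, Matrix.zero_mul]
    · intro h2
      exact absurd (Finset.mem_univ _) h2

end MPa8bd83
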