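import Pool.Agent.Work.MP_a8bd83_qk.Interface5

/-! Block SOS: a nonzero representation of `so(m)` is faithful on the elementary rotations
(helper94). -/

set_option autoImplicit false

namespace MPa8bd83

open Module

theorem SOS_mem (m : ℕ) (j k : Fin m) :
    (Matrix.single j k (1 : ℝ) - Matrix.single k j 1 : Matrix (Fin m) (Fin m) ℝ) ∈ so m := by
  change Matrix.transpose _ = -_
  rw [Matrix.transpose_sub, Matrix.transpose_single, Matrix.transpose_single, neg_sub]

/-- The elementary rotation. -/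
noncomputable def SOS_R (m : ℕ) (j k : Fin m) : so m := ⟨_, SOS_mem m j k⟩

theorem SOS_R_coe (m : ℕ) (j k : Fin m) : ((SOS_R m j k : so m) : Matrix (Fin m) (Fin m) ℝ) =
    Matrix.single j k (1 : ℝ) - Matrix.single k j 1 := rfl

theorem SOS_swap (m : ℕ) (j k : Fin m) : SOS_R m k j = -SOS_R m j k := by
  refine Subtype.ext ?_
  rw [Submodule.coe_neg, SOS_R_coe, SOS_R_coe, neg_sub]

theorem SOS_lie (m : ℕ) (j k l : Fin m) (h1 : j ≠ k) (h2 : k ≠ l) (h3 : j ≠ l) :
    ((SOS_R m j l : so m) : Matrix (Fin m) (Fin m) ℝ) =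
      SOS_R m j k * SOS_R m k l - SOS_R m k l * SOS_R m j k := by
  have e : ∀ a b c d : Fin m, b ≠ c →
      (Matrix.single a b (1 : ℝ) : Matrix (Fin m) (Fin m) ℝ) * Matrix.single c d 1 = 0 :=
    fun a b c d h => Matrix.single_mul_single_of_ne _ _ _ _ h _
  have e' : ∀ a b c : Fin m, (Matrix.single a b (1 : ℝ) : Matrix (Fin m) (Fin m) ℝ) *
      Matrix.single b c 1 = Matrix.single a c 1 := fun a b c => by
    rw [Matrix.single_mul_single_same, mul_one]
  rw [SOS_R_coe, SOS_R_coe, SOS_R_coe, sub_mul, mul_sub, mul_sub, sub_mul, mul_sub, mul_sub,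
    e' j k l, e j k l k h2, e k j k l h1, e k j l k h3, e k l j k h3.symm, e k l k j h2.symm,
    e l k j k h1.symm, e' l k j]
  abel

theorem SOS_span (m : ℕ) (X : so m) : (2 : ℝ) • X =
    ∑ j, ∑ k, (X : Matrix (Fin m) (Fin m) ℝ) j k • SOS_R m j k := by
  refine Subtype.ext ?_
  have hX : (X : Matrix (Fin m) (Fin m) ℝ).transpose = -(X : Matrix (Fin m) (Fin m) ℝ) := X.2
  rw [Submodule.coe_smul, Submodule.coe_sum]
  have h1 : ∀ j, ((∑ k, (X : Matrix (Fin m) (Fin m) ℝ) j k • SOS_R m j k : so m) :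
      Matrix (Fin m) (Fin m) ℝ) = ∑ k, (Matrix.single j k ((X : Matrix (Fin m) (Fin m) ℝ) j k) -
        Matrix.single k j ((X : Matrix (Fin m) (Fin m) ℝ).transpose k j)) := by
    intro j
    rw [Submodule.coe_sum]
    refine Finset.sum_congr rfl fun k _ => ?_
    rw [Submodule.coe_smul, SOS_R_coe, smul_sub, Matrix.smul_single, Matrix.smul_single,
      smul_eq_mul, mul_one, Matrix.transpose_apply]
  simp only [h1, Finset.sum_sub_distrib]
  rw [← Matrix.matrix_eq_sum_single, Finset.sum_comm, ← Matrix.matrix_eq_sum_single, hX,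
    sub_neg_eq_add, two_smul]

theorem p_SOS : Stmt_SOS := by
  intro V _ _ _ J m ρ hρ hρ0 p q X hpq hX h0
  apply hρ0
  have hR : ∀ j k l : Fin m, j ≠ k → k ≠ l → j ≠ l → ρ (SOS_R m j k) = 0 →
      ρ (SOS_R m j l) = 0 := by
    intro j k l h1 h2 h3 h4
    rw [hρ.lie _ _ _ (SOS_lie m j k l h1 h2 h3), h4, zero_mul, mul_zero, sub_zero]
  have hR' : ∀ j k : Fin m, ρ (SOS_R m j k) = 0 → ρ (SOS_R m k j) = 0 := by
    intro j k h
    rw [SOS_swap, map_neg, h, neg_zero]
  have hpq0 : ρ (SOS_R m p q) = 0 := by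
    have : SOS_R m p q = X := Subtype.ext hX.symm
    rw [this, h0]
  have hp : ∀ l, ρ (SOS_R m p l) = 0 := by
    intro l
    by_cases hl : l = p
    · have : SOS_R m p l = 0 := by
        refine Subtype.ext ?_
        rw [SOS_R_coe, hl, sub_self]
        rfl
      rw [this, map_zero]
    · by_cases hq : l = q
      · rw [hq]; exact hpq0
      · exact hR p q l hpq (Ne.symm hq) (Ne.symm hl) hpq0
  have hall : ∀ j l, ρ (SOS_R m j l) = 0 := by
    intro j l
    by_cases hj : j = p
    · rw [hj]; exact hp l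
    by_cases hl : l = p
    · rw [hl]; exact hR' p j (hp j)
    by_cases hjl : j = l
    · have : SOS_R m j l = 0 := by
        refine Subtype.ext ?_
        rw [SOS_R_coe, hjl, sub_self]
        rfl
      rw [this, map_zero]
    · exact hR j p l hj (Ne.symm hl) hjl (hR' p j (hp j))
  ext1 Y
  have h1 : (2 : ℝ) • ρ Y = 0 := by
    rw [← map_smul, SOS_span, map_sum]
    refine Finset.sum_eq_zero fun j _ => ?_
    rw [map_sum]
    refine Finset.sum_eq_zero fun k _ => ?_
    rw [map_smul, hall, smul_zero]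
  have h2 := smul_eq_zero.1 h1
  rw [LinearMap.zero_apply]
  exact h2.resolve_left (by norm_num)

end MPa8bd83
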