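import Pool.Agent.Work.MP_a8bd83_qk.Interface9

set_option autoImplicit false

namespace MPa8bd83

open Module

theorem p_SP8 (hB : Stmt_SPB) (hW : Stmt_WTZ) (hC : Stmt_CBF) (h7 : Stmt_CB7) (h8 : Stmt_CB8) :
    Stmt_SP8 := by
  intro V _ _ _ J n N ρ hJ hn hf hL hρ hF
  rcases le_or_gt 5 n with h5 | h5
  · obtain ⟨m, S, h1, h2, _, h3⟩ := hW V J n ρ hJ hL hρ hn hF
    have := hC n m S h1 h2 h5
    omega
  · have hc : n = 2 ∨ n = 3 ∨ n = 4 := by omega
    rcases hc with rfl | rfl | rfl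
    · have h := (hB V J 2 ρ hJ hL hρ hF {0} (by simp) (by decide)).2
      rw [hf, Finset.card_singleton] at h
      have e : 4 * (3 * 2 + 4 * (Nat.choose 1 2 + Nat.choose (2 - 1) 2)) = 24 := by decide
      rw [e] at h
      omega
    · obtain ⟨m, S, h1, h2, _, h3⟩ := hW V J 3 ρ hJ hL hρ hn hF
      have := h7 m S h1 h2
      omega
    · obtain ⟨m, S, h1, h2, hz, h3⟩ := hW V J 4 ρ hJ hL hρ hn hF
      have e : 2 * (3 * (4 - 1) + 4 * Nat.choose (4 - 1) 2) = 42 := by decide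
      have := h8 m S h1 h2 (fun l => by rw [← e]; exact hz l)
      omega

end MPa8bd83
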