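import Pool.Agent.Work.MP_a8bd83_qk.Interface6

/-! Block SPB: the involutions of `Sp(n)` (helper2), after `B_SOB.lean` of helper94. -/

set_option autoImplicit false

namespace MPa8bd83

open Module

/-- The diagonal projection. -/
noncomputable def SPB_P (n : ℕ) (I : Finset (Fin n)) : HM n :=
  Matrix.diagonal (fun j : Fin n => if j ∈ I then (1 : Quaternion ℝ) else 0)

theorem SPB_off {n : ℕ} {I : Finset (Fin n)} (Z : HM n)
    (h : ∀ j k : Fin n, (j ∈ I ↔ k ∈ I) → Z j k = 0) :
    SPB_P n I * Z + Z * SPB_P n I = Z ∧ SPB_P n I * Z * SPB_P n I = 0 := by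
  constructor
  · refine Matrix.ext fun j k => ?_
    rw [Matrix.add_apply, SPB_P, Matrix.diagonal_mul, Matrix.mul_diagonal]
    by_cases hj : j ∈ I
    · by_cases hk : k ∈ I
      · rw [h j k (by simp [hj, hk])]
        simp
      · simp [hj, hk]
    · by_cases hk : k ∈ I
      · simp [hj, hk]
      · rw [h j k (by simp [hj, hk])]
        simp
  · refine Matrix.ext fun j k => ?_
    rw [SPB_P, Matrix.mul_diagonal, Matrix.diagonal_mul, Matrix.zero_apply]
    by_cases hj : j ∈ I
    · by_cases hk : k ∈ I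
      · rw [h j k (by simp [hj, hk])]
        simp
      · simp [hk]
    · simp [hj]

theorem SPB_comm {n : ℕ} {I : Finset (Fin n)} (X : HM n)
    (h : ∀ j k : Fin n, ¬ (j ∈ I ↔ k ∈ I) → X j k = 0) :
    X * SPB_P n I = SPB_P n I * X := by
  refine Matrix.ext fun j k => ?_
  rw [SPB_P, Matrix.diagonal_mul, Matrix.mul_diagonal]
  by_cases hj : j ∈ I
  · by_cases hk : k ∈ I
    · simp [hj, hk]
    · rw [h j k (by simp [hj, hk])]
      simp
  · by_cases hk : k ∈ I
    · rw [h j k (by simp [hj, hk])]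
      simp
    · simp [hj, hk]

theorem SPB_D {n : ℕ} {D P Z : HM n} (h2 : D * D = -P)
    (h3 : D * D * D = -D) (h : P * Z + Z * P = Z ∧ P * Z * P = 0) :
    D * Z * D = 0 ∧ D * D * Z + Z * (D * D) = -Z := by
  have h4 : P * D = D := by
    have := h3
    rw [h2, neg_mul] at this
    exact neg_inj.1 this
  have h5 : D * P = D := by
    have := h3
    rw [mul_assoc, h2, mul_neg] at this
    exact neg_inj.1 this
  constructor
  · calc D * Z * D = D * P * Z * (P * D) := by rw [h5, h4]
      _ = D * (P * Z * P) * D := by simp only [mul_assoc]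
      _ = 0 := by rw [h.2, mul_zero, zero_mul]
  · rw [h2, neg_mul, mul_neg, ← neg_add, h.1]

theorem SPB_star (q : Quaternion ℝ) (hq : q.re = 0) : star q = -q := by
  apply Quaternion.ext <;> simp [hq]

theorem SPB_mem {n : ℕ} (l : Fin n) (q : Quaternion ℝ) (hq : q.re = 0) : (Matrix.single l l q : HM n) ∈ spn n := by
  change (Matrix.single l l q).conjTranspose = -Matrix.single l l q
  rw [Matrix.conjTranspose_single, SPB_star q hq]
  refine Matrix.ext fun a b => ?_
  rw [Matrix.neg_apply, Matrix.single_apply, Matrix.single_apply]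
  split_ifs
  · rfl
  · rw [neg_zero]

theorem SPB_single {n : ℕ} (l : Fin n) (x y z : Quaternion ℝ) (h : x * y - y * x = (2 : ℝ) • z) :
    (Matrix.single l l x : HM n) * Matrix.single l l y - Matrix.single l l y * Matrix.single l l x =
      (2 : ℝ) • Matrix.single l l z := by
  rw [Matrix.single_mul_single_same, Matrix.single_mul_single_same]
  refine Matrix.ext fun a b => ?_
  rw [Matrix.sub_apply, Matrix.smul_apply, Matrix.single_apply, Matrix.single_apply, Matrix.single_apply]
  split_ifs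
  · exact h
  · simp

theorem SPB_ij : qi * qj - qj * qi = (2 : ℝ) • qk := by
  apply Quaternion.ext <;> simp [qi, qj, qk] <;> norm_num

theorem SPB_jk : qj * qk - qk * qj = (2 : ℝ) • qi := by
  apply Quaternion.ext <;> simp [qi, qj, qk] <;> norm_num

theorem SPB_ki : qk * qi - qi * qk = (2 : ℝ) • qj := by
  apply Quaternion.ext <;> simp [qi, qj, qk] <;> norm_num

theorem SPB_ii : qi * qi = -1 := by
  apply Quaternion.ext <;> simp [qi]
  · exact Quaternion.re_one.symm
  · exact Quaternion.imI_one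
  · exact Quaternion.imJ_one
  · exact Quaternion.imK_one

theorem SPB_sum {n : ℕ} (I : Finset (Fin n)) :
    ((∑ l ∈ I, hq n l : spn n) : HM n) = Matrix.diagonal (fun j : Fin n => if j ∈ I then qi else 0) := by
  rw [Submodule.coe_sum]
  refine Matrix.ext fun a b => ?_
  rw [Matrix.sum_apply]
  have h1 : ∀ l, ((hq n l : spn n) : HM n) a b = if l = a ∧ l = b then qi else 0 := by
    intro l
    change (Matrix.single l l qi : HM n) a b = _
    rw [Matrix.single_apply]
  simp only [h1]
  by_cases hab : a = b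
  · subst hab
    rw [Matrix.diagonal_apply_eq]
    simp
  · rw [Matrix.diagonal_apply_ne _ hab]
    refine Finset.sum_eq_zero fun l _ => ?_
    rw [if_neg]
    rintro ⟨h2, h3⟩
    exact hab (h2.symm.trans h3)

theorem p_SPB (hIV4 : Stmt_IV4) (hSPD : Stmt_SPD) (hSPS : Stmt_SPS) : Stmt_SPB := by
  classical
  intro V _ _ _ J n ρ hJ hρ hρ0 hF I hI hIu
  have hDD : ((∑ l ∈ I, hq n l : spn n) : HM n) * ((∑ l ∈ I, hq n l : spn n) : HM n) = -SPB_P n I := by
    rw [SPB_sum, Matrix.diagonal_mul_diagonal, SPB_P]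
    refine Matrix.ext fun a b => ?_
    rw [Matrix.neg_apply]
    by_cases hab : a = b
    · subst hab
      rw [Matrix.diagonal_apply_eq, Matrix.diagonal_apply_eq]
      split_ifs
      · exact SPB_ii
      · simp
    · rw [Matrix.diagonal_apply_ne _ hab, Matrix.diagonal_apply_ne _ hab, neg_zero]
  have hDDD : ((∑ l ∈ I, hq n l : spn n) : HM n) * ((∑ l ∈ I, hq n l : spn n) : HM n) *
      ((∑ l ∈ I, hq n l : spn n) : HM n) = -((∑ l ∈ I, hq n l : spn n) : HM n) := by
    rw [hDD, SPB_sum, SPB_P, neg_mul, Matrix.diagonal_mul_diagonal]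
    congr 2
    funext j
    split_ifs
    · rw [one_mul]
    · rw [zero_mul]
  have hoff : ∀ Z : HM n, (∀ j k : Fin n, (j ∈ I ↔ k ∈ I) → Z j k = 0) →
      ((∑ l ∈ I, hq n l : spn n) : HM n) * Z * ((∑ l ∈ I, hq n l : spn n) : HM n) = 0 ∧
      ((∑ l ∈ I, hq n l : spn n) : HM n) * ((∑ l ∈ I, hq n l : spn n) : HM n) * Z +
        Z * (((∑ l ∈ I, hq n l : spn n) : HM n) * ((∑ l ∈ I, hq n l : spn n) : HM n)) = -Z :=
    fun Z hZ => SPB_D hDD hDDD (SPB_off Z hZ)
  have key := hIV4 V J (HM n) (spn n) (spE n I) ρ {l // l ∈ I} (fun l => hq n l)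
    (fun l => ⟨Matrix.single l.1 l.1 qj, SPB_mem l.1 qj rfl⟩)
    (fun l => ⟨Matrix.single l.1 l.1 qk, SPB_mem l.1 qk rfl⟩) (∑ l ∈ I, hq n l) hJ
    ?_ hρ hF ?_ ?_ ?_ hDDD ?_ ?_ ?_ ?_
  · have h1 := hSPD n I
    exact ⟨fun ε hε => (key.1 ε hε).trans (Nat.mul_le_mul_left 2 h1), key.2.trans (Nat.mul_le_mul_left 4 h1)⟩
  · intro X hX Y hY
    change X.conjTranspose = -X at hX
    change Y.conjTranspose = -Y at hY
    change (X * Y - Y * X).conjTranspose = -(X * Y - Y * X)
    rw [Matrix.conjTranspose_sub, Matrix.conjTranspose_mul, Matrix.conjTranspose_mul, hX, hY]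
    simp only [neg_mul, mul_neg, neg_neg, neg_sub]
  · intro l
    exact ⟨SPB_single l.1 _ _ _ SPB_ij, SPB_single l.1 _ _ _ SPB_jk, SPB_single l.1 _ _ _ SPB_ki⟩
  · intro i j
    by_cases h : i = j
    · rw [h]
    · have h' : (i : Fin n) ≠ j := fun e => h (Subtype.ext e)
      change (Matrix.single i.1 i.1 qi : HM n) * Matrix.single j.1 j.1 qi =
        Matrix.single j.1 j.1 qi * Matrix.single i.1 i.1 qi
      rw [Matrix.single_mul_single_of_ne _ _ _ _ h', Matrix.single_mul_single_of_ne _ _ _ _ h'.symm]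
  · exact (Finset.sum_coe_sort I (fun l => hq n l)).symm
  · intro X hX
    exact hX.1
  · intro X hX
    rw [hDD, mul_neg, neg_mul]
    congr 1
    exact SPB_comm X hX.2
  · intro X hX
    change X.conjTranspose = -X at hX
    have hX' : ∀ j k, star (X k j) = -X j k := fun j k => by
      have := congrFun (congrFun hX j) k
      rwa [Matrix.conjTranspose_apply, Matrix.neg_apply] at this
    refine ⟨Matrix.of fun j k => if (j ∈ I ↔ k ∈ I) then X j k else 0, ?_,
      Matrix.of fun j k => if (j ∈ I ↔ k ∈ I) then 0 else X j k, ?_, ?_, ?_⟩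
    · refine ⟨?_, fun j k hjk => ?_⟩
      · change Matrix.conjTranspose _ = -_
        refine Matrix.ext fun j k => ?_
        rw [Matrix.conjTranspose_apply, Matrix.neg_apply, Matrix.of_apply, Matrix.of_apply]
        by_cases h : (j ∈ I ↔ k ∈ I)
        · rw [if_pos h, if_pos h.symm, hX']
        · rw [if_neg h, if_neg fun h' => h h'.symm, neg_zero, star_zero]
      · rw [Matrix.of_apply, if_neg hjk]
    · change Matrix.conjTranspose _ = -_
      refine Matrix.ext fun j k => ?_
      rw [Matrix.conjTranspose_apply, Matrix.neg_apply, Matrix.of_apply, Matrix.of_apply]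
      by_cases h : (j ∈ I ↔ k ∈ I)
      · rw [if_pos h, if_pos h.symm, neg_zero, star_zero]
      · rw [if_neg h, if_neg fun h' => h h'.symm, hX']
    · refine Matrix.ext fun j k => ?_
      rw [Matrix.add_apply, Matrix.of_apply, Matrix.of_apply]
      by_cases h : (j ∈ I ↔ k ∈ I)
      · rw [if_pos h, if_pos h, add_zero]
      · rw [if_neg h, if_neg h, zero_add]
    · refine hoff _ fun j k h => ?_
      rw [Matrix.of_apply, if_pos h]
  · obtain ⟨p, hp⟩ := hI
    obtain ⟨q, hq'⟩ : ∃ q, q ∉ I := by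
      by_contra h
      push Not at h
      exact hIu (Finset.eq_univ_iff_forall.2 h)
    have hpq : p ≠ q := fun h => hq' (h ▸ hp)
    have hZ : (Matrix.single p q 1 - Matrix.single q p 1 : HM n) ∈ spn n := by
      change (Matrix.single p q 1 - Matrix.single q p 1 : HM n).conjTranspose = -_
      rw [Matrix.conjTranspose_sub, Matrix.conjTranspose_single, Matrix.conjTranspose_single, star_one, neg_sub]
    refine ⟨⟨_, hZ⟩, (hSPS V J n ρ hρ hρ0 p q hpq).1 ⟨_, hZ⟩ rfl, ?_⟩
    refine hoff _ fun j k h => ?_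
    change (Matrix.single p q 1 - Matrix.single q p 1 : HM n) j k = 0
    rw [Matrix.sub_apply, Matrix.single_apply, Matrix.single_apply, if_neg, if_neg, sub_zero]
    · rintro ⟨rfl, rfl⟩
      exact hq' (h.2 hp)
    · rintro ⟨rfl, rfl⟩
      exact hq' (h.1 hp)

end MPa8bd83
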