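import Pool.Agent.Work.MP_a8bd83_qk.Interface2

set_option autoImplicit false

namespace MPa8bd83

open Module

theorem SPC_unit {V : Type} [NormedAddCommGroup V] [InnerProductSpace ℂ V] {U : Submodule ℂ V}
    (h : U ≠ ⊥) : ∃ b ∈ U, ‖b‖ = 1 := by
  obtain ⟨x, hx, hx0⟩ := Submodule.exists_mem_ne_zero_of_ne_bot h
  have hn : ‖x‖ ≠ 0 := norm_ne_zero_iff.2 hx0
  refine ⟨((‖x‖⁻¹ : ℝ) : ℂ) • x, U.smul_mem _ hx, ?_⟩
  rw [norm_smul, Complex.norm_real, norm_inv, norm_norm]
  exact inv_mul_cancel₀ hn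

theorem SPC_ptadd {W : Type} [AddCommGroup W] [Module ℝ W] (α β : W) (x y x' y' : ℤ) :
    pt α β x y + pt α β x' y' = pt α β (x + x') (y + y') := by
  rw [pt, pt, pt]
  push_cast
  module

theorem SPC_ptsub {W : Type} [AddCommGroup W] [Module ℝ W] (α β : W) (x y x' y' : ℤ) :
    pt α β x y - pt α β x' y' = pt α β (x - x') (y - y') := by
  rw [pt, pt, pt]
  push_cast
  module

theorem SPC_ptneg {W : Type} [AddCommGroup W] [Module ℝ W] (α β : W) (x y : ℤ) :
    -pt α β x y = pt α β (-x) (-y) := by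
  rw [pt, pt]
  push_cast
  module

theorem p_SPC (hCRD : Stmt_CRD) (hISP : Stmt_ISP) : Stmt_SPC := by
  intro V _ _ _ J k t hFr α β τ σ hP hR
  rintro ⟨hd1, hw2, hd3⟩
  have hF := hFr.fac
  obtain ⟨cd1, -, -, -⟩ := hCRD V J k t hF α β τ σ hP
  -- points which are not roots
  have hbot : ∀ x y : ℤ, (x ≠ 0 ∨ y ≠ 0) → ¬ RA x y → Rt k t (pt α β x y) = ⊥ := by
    intro x y hxy hn
    by_contra h
    refine hn ((hR x y).1 ⟨fun h0 => ?_, h⟩)
    have h1 := cd1 x y
    rw [h0, LinearMap.zero_apply, LinearMap.zero_apply] at h1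
    rcases hxy with h2 | h2
    · exact h2 (by exact_mod_cast h1.1.symm)
    · exact h2 (by exact_mod_cast h1.2.symm)
  have hzero : ∀ (x y : ℤ) (X : V →L[ℂ] V), (x ≠ 0 ∨ y ≠ 0) → ¬ RA x y → X ∈ Rt k t (pt α β x y) →
      X = 0 := by
    intro x y X hxy hn hX
    rw [hbot x y hxy hn] at hX
    exact (Submodule.mem_bot ℂ).1 hX
  -- the vector b
  have hb0 : Wt t (pt α β (-1) (-2)) ≠ ⊥ := by
    intro h
    have h1 := hF.jdim (pt α β 1 2)
    rw [SPC_ptneg, h, finrank_bot] at h1
    exact hw2 (Submodule.finrank_eq_zero.1 h1.symm)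
  obtain ⟨b, hbm, hbn⟩ := SPC_unit hb0
  -- the root vectors
  have hrb : IsRoot k t (pt α β 0 2) := (hR 0 2).2 (Or.inr ⟨rfl, Or.inl rfl⟩)
  have hra : IsRoot k t (pt α β (-2) 0) := (hR (-2) 0).2 (Or.inl ⟨Or.inr rfl, rfl⟩)
  obtain ⟨Xb, hXb, hXb0⟩ := Submodule.exists_mem_ne_zero_of_ne_bot hrb.2
  obtain ⟨Xa, hXa, hXa0⟩ := Submodule.exists_mem_ne_zero_of_ne_bot hra.2
  -- the vector u
  obtain ⟨u, hum, hun, hφ, hB⟩ := (hISP V (fun u v => inner ℂ (J u) (Xa v))
    (fun u v => hF.sym _ Xa hXa u v) (fun u v v' => by simp only [map_add, inner_add_right])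
    (fun c u v => by simp only [map_smul, inner_smul_right])).2.2 (Wt t (pt α β 1 0))
    (((innerSL ℂ (J b)).comp Xb : V →L[ℂ] ℂ) : V →ₗ[ℂ] ℂ) hd1
  have hφ' : inner ℂ (J b) (Xb u) = 0 := hφ
  have hB' : inner ℂ (J u) (Xa u) = 0 := hB
  -- the vector v
  have hw3 : IsWt t (pt α β 0 1) := by
    intro h
    rw [h, finrank_bot] at hd3
    omega
  obtain ⟨v, hvm, hvn, hv⟩ := hFr.use _ hw3 (Or.inr hd3)
  have hadm : Admissible J k t ![pt α β 1 0, pt α β (-1) (-2), pt α β 0 1] ![u, b, v] := by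
    refine ⟨?_, ?_, ?_, ?_⟩
    · intro i
      fin_cases i
      · exact hum
      · exact hbm
      · exact hvm
    · intro i
      fin_cases i
      · exact hun
      · exact hbn
      · exact hvn
    · intro i j hij X hX
      have hX0 : X = 0 := by
        fin_cases i <;> fin_cases j
        · exact absurd rfl hij
        · change X ∈ Rt k t (pt α β 1 0 - pt α β (-1) (-2)) at hX
          rw [SPC_ptsub] at hX
          exact hzero _ _ X (by norm_num) (by norm_num [RA]) hX
        · change X ∈ Rt k t (pt α β 1 0 - pt α β 0 1) at hX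
          rw [SPC_ptsub] at hX
          exact hzero _ _ X (by norm_num) (by norm_num [RA]) hX
        · change X ∈ Rt k t (pt α β (-1) (-2) - pt α β 1 0) at hX
          rw [SPC_ptsub] at hX
          exact hzero _ _ X (by norm_num) (by norm_num [RA]) hX
        · exact absurd rfl hij
        · change X ∈ Rt k t (pt α β (-1) (-2) - pt α β 0 1) at hX
          rw [SPC_ptsub] at hX
          exact hzero _ _ X (by norm_num) (by norm_num [RA]) hX
        · change X ∈ Rt k t (pt α β 0 1 - pt α β 1 0) at hX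
          rw [SPC_ptsub] at hX
          exact hzero _ _ X (by norm_num) (by norm_num [RA]) hX
        · change X ∈ Rt k t (pt α β 0 1 - pt α β (-1) (-2)) at hX
          rw [SPC_ptsub] at hX
          exact hzero _ _ X (by norm_num) (by norm_num [RA]) hX
        · exact absurd rfl hij
      rw [hX0, zero_apply, inner_zero_right]
    · intro i j X hX
      fin_cases i <;> fin_cases j
      · change X ∈ Rt k t (-(pt α β 1 0 + pt α β 1 0)) at hX
        change inner ℂ (J u) (X u) = 0
        rw [SPC_ptadd, SPC_ptneg] at hX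
        have hX' : X ∈ Rt k t (pt α β (-2) 0) := hX
        obtain ⟨c, hc⟩ := hF.one _ hra.1 Xa hXa hXa0 X hX'
        rw [hc, smul_apply, inner_smul_right, hB', mul_zero]
      · change X ∈ Rt k t (-(pt α β 1 0 + pt α β (-1) (-2))) at hX
        change inner ℂ (J u) (X b) = 0
        rw [SPC_ptadd, SPC_ptneg] at hX
        have hX' : X ∈ Rt k t (pt α β 0 2) := hX
        obtain ⟨c, hc⟩ := hF.one _ hrb.1 Xb hXb hXb0 X hX'
        rw [hF.sym _ X hX', hc, smul_apply, inner_smul_right, hφ', mul_zero]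
      · change X ∈ Rt k t (-(pt α β 1 0 + pt α β 0 1)) at hX
        change inner ℂ (J u) (X v) = 0
        rw [SPC_ptadd, SPC_ptneg] at hX
        rw [hzero _ _ X (by norm_num) (by norm_num [RA]) hX, zero_apply, inner_zero_right]
      · change X ∈ Rt k t (-(pt α β (-1) (-2) + pt α β 1 0)) at hX
        change inner ℂ (J b) (X u) = 0
        rw [SPC_ptadd, SPC_ptneg] at hX
        have hX' : X ∈ Rt k t (pt α β 0 2) := hX
        obtain ⟨c, hc⟩ := hF.one _ hrb.1 Xb hXb hXb0 X hX'
        rw [hc, smul_apply, inner_smul_right, hφ', mul_zero]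
      · change X ∈ Rt k t (-(pt α β (-1) (-2) + pt α β (-1) (-2))) at hX
        change inner ℂ (J b) (X b) = 0
        rw [SPC_ptadd, SPC_ptneg] at hX
        rw [hzero _ _ X (by norm_num) (by norm_num [RA]) hX, zero_apply, inner_zero_right]
      · change X ∈ Rt k t (-(pt α β (-1) (-2) + pt α β 0 1)) at hX
        change inner ℂ (J b) (X v) = 0
        rw [SPC_ptadd, SPC_ptneg] at hX
        rw [hzero _ _ X (by norm_num) (by norm_num [RA]) hX, zero_apply, inner_zero_right]
      · change X ∈ Rt k t (-(pt α β 0 1 + pt α β 1 0)) at hX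
        change inner ℂ (J v) (X u) = 0
        rw [SPC_ptadd, SPC_ptneg] at hX
        rw [hzero _ _ X (by norm_num) (by norm_num [RA]) hX, zero_apply, inner_zero_right]
      · change X ∈ Rt k t (-(pt α β 0 1 + pt α β (-1) (-2))) at hX
        change inner ℂ (J v) (X b) = 0
        rw [SPC_ptadd, SPC_ptneg] at hX
        rw [hzero _ _ X (by norm_num) (by norm_num [RA]) hX, zero_apply, inner_zero_right]
      · exact hv X hX
  have hli := hFr.lid (Fin 3) _ _ hadm
  have hfd : Module.Finite ℝ t := Module.finite_of_finrank_pos (by rw [hP.rk]; norm_num)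
  have h3 := hli.fintype_card_le_finrank
  rw [Subspace.dual_finrank_eq, hP.rk] at h3
  simp at h3

end MPa8bd83
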