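/-
MP_a8bd83_gt, THEOREM QR, block SPD: the dimension of the block diagonal part of sp(n).
-/
import Pool.Agent.Work.MP_a8bd83_qk.Interface6

set_option autoImplicit false

namespace MPa8bd83

open Module

/-- The imaginary parts of the diagonal entries and the entries indexed by a set of pairs. -/
noncomputable def SPD_phi (n : ℕ) (I : Finset (Fin n)) (S : Finset (Fin n × Fin n)) :
    spE n I →ₗ[ℝ] (Fin n → Fin 3 → ℝ) × (S → Quaternion ℝ) where
  toFun X := (fun j => ![((X : HM n) j j).imI, ((X : HM n) j j).imJ, ((X : HM n) j j).imK],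
    fun s => (X : HM n) s.1.1 s.1.2)
  map_add' := by
    intro X Y
    refine Prod.ext ?_ ?_
    · funext j c
      fin_cases c <;> simp
    · funext s
      simp
  map_smul' := by
    intro c X
    refine Prod.ext ?_ ?_
    · funext j d
      fin_cases d <;> simp
    · funext s
      simp

/-- **SPD.** The dimension of the block diagonal part. -/
theorem p_SPD (hCNP : Stmt_CNP) : Stmt_SPD := by
  classical
  intro n I
  obtain ⟨S, hS⟩ : ∃ S : Finset (Fin n × Fin n), S =
      Finset.univ.filter (fun p : Fin n × Fin n => p.1 < p.2 ∧ (p.1 ∈ I ↔ p.2 ∈ I)) := ⟨_, rfl⟩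
  have hinj : Function.Injective (SPD_phi n I S) := by
    rw [← LinearMap.ker_eq_bot, LinearMap.ker_eq_bot']
    intro X hX
    obtain ⟨X, hX1, hX3⟩ := X
    have hX' := Prod.ext_iff.1 hX
    have hval : ∀ j k : Fin n, j < k → (j ∈ I ↔ k ∈ I) → X j k = 0 := by
      intro j k h3 h4
      have hmem : (j, k) ∈ S := by
        rw [hS, Finset.mem_filter]
        exact ⟨Finset.mem_univ _, h3, h4⟩
      exact congrFun hX'.2 ⟨(j, k), hmem⟩
    have hskew : ∀ j k : Fin n, star (X k j) = - X j k := by
      intro j k
      have h3 : X.conjTranspose j k = (-X) j k := congrFun (congrFun hX1 j) k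
      rw [Matrix.conjTranspose_apply, Matrix.neg_apply] at h3
      exact h3
    have hdiag : ∀ j : Fin n, X j j = 0 := by
      intro j
      have h1 := congrFun (congrFun hX'.1 j) 0
      have h2 := congrFun (congrFun hX'.1 j) 1
      have h3 := congrFun (congrFun hX'.1 j) 2
      have h4 := congrArg QuaternionAlgebra.re (hskew j j)
      have h1' : (X j j).imI = 0 := h1
      have h2' : (X j j).imJ = 0 := h2
      have h3' : (X j j).imK = 0 := h3
      have h4' : (X j j).re = 0 := by
        rw [Quaternion.re_star, Quaternion.re_neg] at h4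
        linarith
      exact Quaternion.ext _ _ h4' h1' h2' h3'
    have hX0 : X = 0 := by
      refine Matrix.ext fun j k => ?_
      by_cases hb : (j ∈ I ↔ k ∈ I)
      · rcases lt_trichotomy j k with h | h | h
        · rw [hval j k h hb]; rfl
        · subst h
          rw [hdiag j]; rfl
        · have h5 := hskew j k
          rw [hval k j h hb.symm, star_zero] at h5
          have h6 : X j k = 0 := by
            rw [← neg_eq_zero, ← h5]
          rw [h6]; rfl
      · rw [hX3 j k hb]; rfl
    exact Subtype.ext hX0
  have hle := LinearMap.finrank_le_finrank_of_injective hinj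
  have e1 : finrank ℝ ((Fin n → Fin 3 → ℝ) × (S → Quaternion ℝ)) = n * 3 + S.card * 4 := by
    have e2 : finrank ℝ (Fin n → Fin 3 → ℝ) = n * 3 := by
      rw [Module.finrank_pi_fintype]
      simp
    have e3 : finrank ℝ (S → Quaternion ℝ) = S.card * 4 := by
      rw [Module.finrank_pi_fintype]
      simp only [Quaternion.finrank_eq_four, Finset.sum_const, Finset.card_univ,
        Fintype.card_coe, smul_eq_mul]
    rw [Module.finrank_prod, e2, e3]
  rw [e1] at hle
  have h6 := hCNP n I
  have h7 : S.card = I.card.choose 2 + (n - I.card).choose 2 := by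
    rw [← h6, hS]
  rw [h7] at hle
  linarith

end MPa8bd83
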