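import Pool.Agent.Work.MP_a8bd83_qk.Interface6

/-!
# Part 6, block SPG: the root matrices span sp(n)
-/

set_option autoImplicit false

namespace MPa8bd83

open Module

theorem SPG_star {n : ℕ} (a b : Fin n) (q : Quaternion ℝ) :
    (Matrix.single a b q : HM n).conjTranspose = Matrix.single b a (star q) :=
  Matrix.conjTranspose_single _ _ _

theorem SPG_neg {n : ℕ} (a b : Fin n) (x : Quaternion ℝ) :
    (Matrix.single a b (-x) : HM n) = -Matrix.single a b x := by
  refine Matrix.ext fun u v => ?_
  rw [Matrix.neg_apply, Matrix.single_apply, Matrix.single_apply]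
  split_ifs
  · rfl
  · rw [neg_zero]

theorem SPG_B {n : ℕ} (a b : Fin n) (q : Quaternion ℝ) (hq : star q = -q) :
    (Matrix.single a b q + Matrix.single b a q : HM n) ∈ spn n := by
  change (Matrix.single a b q + Matrix.single b a q : HM n).conjTranspose = _
  rw [Matrix.conjTranspose_add, SPG_star, SPG_star, hq, SPG_neg, SPG_neg, neg_add, add_comm]

theorem SPG_A {n : ℕ} (a b : Fin n) :
    (Matrix.single a b 1 - Matrix.single b a 1 : HM n) ∈ spn n := by
  change (Matrix.single a b 1 - Matrix.single b a 1 : HM n).conjTranspose = _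
  rw [Matrix.conjTranspose_sub, SPG_star, SPG_star, star_one, neg_sub]

theorem SPG_D {n : ℕ} (a : Fin n) (q : Quaternion ℝ) (hq : star q = -q) :
    (Matrix.single a a q : HM n) ∈ spn n := by
  change (Matrix.single a a q : HM n).conjTranspose = _
  rw [SPG_star, hq, SPG_neg]

theorem SPG_si : star qi = -qi := by
  apply Quaternion.ext <;> simp [qi]

theorem SPG_sj : star qj = -qj := by
  apply Quaternion.ext <;> simp [qj]

theorem SPG_sk : star qk = -qk := by
  apply Quaternion.ext <;> simp [qk]

/-- the matrix with the entry `c` and its companion -/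
theorem SPG_dec {n : ℕ} (a b : Fin n) (c : Quaternion ℝ) :
    (Matrix.single a b c - Matrix.single b a (star c) : HM n) =
      c.re • (Matrix.single a b 1 - Matrix.single b a 1) +
      c.imI • (Matrix.single a b qi + Matrix.single b a qi) +
      c.imJ • (Matrix.single a b qj + Matrix.single b a qj) +
      c.imK • (Matrix.single a b qk + Matrix.single b a qk) := by
  have h1 : c = c.re • (1 : Quaternion ℝ) + c.imI • qi + c.imJ • qj + c.imK • qk := by
    have h : (1 : Quaternion ℝ) = ⟨1, 0, 0, 0⟩ := rfl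
    rw [h]
    apply Quaternion.ext <;> simp [qi, qj, qk]
  have h2 : star c = c.re • (1 : Quaternion ℝ) - c.imI • qi - c.imJ • qj - c.imK • qk := by
    have h : (1 : Quaternion ℝ) = ⟨1, 0, 0, 0⟩ := rfl
    rw [h]
    apply Quaternion.ext <;> simp [qi, qj, qk]
  refine Matrix.ext fun u v => ?_
  simp only [Matrix.sub_apply, Matrix.add_apply, Matrix.smul_apply, Matrix.single_apply]
  by_cases h3 : a = u ∧ b = v
  · by_cases h4 : b = u ∧ a = v
    · simp only [if_pos h3, if_pos h4]
      rw [h2]
      nth_rewrite 1 [h1]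
      module
    · simp only [if_pos h3, if_neg h4]
      nth_rewrite 1 [h1]
      module
  · by_cases h4 : b = u ∧ a = v
    · simp only [if_neg h3, if_pos h4]
      rw [h2]
      module
    · simp only [if_neg h3, if_neg h4]
      module

theorem p_SPG (hSPT : Stmt_SPT) : Stmt_SPG := by
  intro n U hU hT
  obtain ⟨h1, h2, h3⟩ := hSPT n
  have hA : ∀ a b : Fin n, (⟨_, SPG_A a b⟩ : spn n) ∈ U := by
    intro a b
    by_cases h : a = b
    · subst h
      have : (⟨_, SPG_A a a⟩ : spn n) = 0 := by
        apply Subtype.ext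
        show (Matrix.single a a 1 - Matrix.single a a 1 : HM n) = 0
        exact sub_self _
      rw [this]
      exact U.zero_mem
    · exact (hT _ _ _ _ (h3 a b h ⟨_, SPG_A a b⟩ ⟨_, SPG_B a b qi SPG_si⟩ rfl rfl)).1
  have hD : ∀ (a : Fin n) (X : spn n), (X : HM n) = Matrix.single a a qj +
      Matrix.single a a qj ∨ (X : HM n) = Matrix.single a a qk + Matrix.single a a qk ∨
      (X : HM n) = Matrix.single a a qi + Matrix.single a a qi → X ∈ U := by
    intro a X hX
    have h4 := hT _ _ _ _ (h1 a ⟨_, SPG_D a qj SPG_sj⟩ ⟨_, SPG_D a qk SPG_sk⟩ rfl rfl)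
    rcases hX with h | h | h
    · have : X = ⟨_, SPG_D a qj SPG_sj⟩ + ⟨_, SPG_D a qj SPG_sj⟩ := Subtype.ext h
      rw [this]
      exact U.add_mem h4.1 h4.1
    · have : X = ⟨_, SPG_D a qk SPG_sk⟩ + ⟨_, SPG_D a qk SPG_sk⟩ := Subtype.ext h
      rw [this]
      exact U.add_mem h4.2 h4.2
    · have : X = hq n a + hq n a := Subtype.ext h
      rw [this]
      exact U.add_mem (hU a) (hU a)
  have hBi : ∀ a b : Fin n, (⟨_, SPG_B a b qi SPG_si⟩ : spn n) ∈ U := by
    intro a b
    by_cases h : a = b
    · subst h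
      exact hD a _ (Or.inr (Or.inr rfl))
    · exact (hT _ _ _ _ (h3 a b h ⟨_, SPG_A a b⟩ ⟨_, SPG_B a b qi SPG_si⟩ rfl rfl)).2
  have hBj : ∀ a b : Fin n, (⟨_, SPG_B a b qj SPG_sj⟩ : spn n) ∈ U := by
    intro a b
    by_cases h : a = b
    · subst h
      exact hD a _ (Or.inl rfl)
    · exact (hT _ _ _ _ (h2 a b h ⟨_, SPG_B a b qj SPG_sj⟩ ⟨_, SPG_B a b qk SPG_sk⟩ rfl rfl)).1
  have hBk : ∀ a b : Fin n, (⟨_, SPG_B a b qk SPG_sk⟩ : spn n) ∈ U := by
    intro a b
    by_cases h : a = b
    · subst h
      exact hD a _ (Or.inr (Or.inl rfl))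
    · exact (hT _ _ _ _ (h2 a b h ⟨_, SPG_B a b qj SPG_sj⟩ ⟨_, SPG_B a b qk SPG_sk⟩ rfl rfl)).2
  rw [eq_top_iff]
  intro X _
  set T : Fin n → Fin n → spn n := fun a b =>
    ((X : HM n) a b).re • ⟨_, SPG_A a b⟩ + ((X : HM n) a b).imI • ⟨_, SPG_B a b qi SPG_si⟩ +
      ((X : HM n) a b).imJ • ⟨_, SPG_B a b qj SPG_sj⟩ +
      ((X : HM n) a b).imK • ⟨_, SPG_B a b qk SPG_sk⟩ with hTd
  have hTU : ∀ a b, T a b ∈ U := fun a b =>
    U.add_mem (U.add_mem (U.add_mem (U.smul_mem _ (hA a b)) (U.smul_mem _ (hBi a b)))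
      (U.smul_mem _ (hBj a b))) (U.smul_mem _ (hBk a b))
  have hTm : ∀ a b, (T a b : HM n) = Matrix.single a b ((X : HM n) a b) -
      Matrix.single b a (star ((X : HM n) a b)) := fun a b => (SPG_dec a b _).symm
  have hsk : ∀ u v : Fin n, star ((X : HM n) v u) = -((X : HM n) u v) := by
    intro u v
    have h4 : (X : HM n).conjTranspose = -(X : HM n) := X.2
    have h5 := congrFun (congrFun h4 u) v
    rwa [Matrix.conjTranspose_apply, Matrix.neg_apply] at h5
  have h6 : (2 : ℝ) • X = ∑ a, ∑ b, T a b := by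
    apply Subtype.ext
    rw [Submodule.coe_smul, Submodule.coe_sum]
    refine Matrix.ext fun u v => ?_
    rw [Matrix.sum_apply]
    have h7 : ∀ a, ((∑ b, T a b : spn n) : HM n) u v =
        ∑ b, ((if a = u ∧ b = v then (X : HM n) a b else 0) -
          (if b = u ∧ a = v then star ((X : HM n) a b) else 0)) := by
      intro a
      rw [Submodule.coe_sum, Matrix.sum_apply]
      refine Finset.sum_congr rfl fun b _ => ?_
      rw [hTm, Matrix.sub_apply, Matrix.single_apply, Matrix.single_apply]
    simp only [h7, Finset.sum_sub_distrib]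
    have h8 : (∑ a, ∑ b, (if a = u ∧ b = v then (X : HM n) a b else 0)) = (X : HM n) u v := by
      rw [Finset.sum_eq_single u, Finset.sum_eq_single v]
      · simp
      · intro b _ hb
        simp [hb]
      · intro h
        exact absurd (Finset.mem_univ _) h
      · intro a _ ha
        simp [ha]
      · intro h
        exact absurd (Finset.mem_univ _) h
    have h9 : (∑ a, ∑ b, (if b = u ∧ a = v then star ((X : HM n) a b) else 0)) =
        star ((X : HM n) v u) := by
      rw [Finset.sum_eq_single v, Finset.sum_eq_single u]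
      · simp
      · intro b _ hb
        simp [hb]
      · intro h
        exact absurd (Finset.mem_univ _) h
      · intro a _ ha
        simp [ha]
      · intro h
        exact absurd (Finset.mem_univ _) h
    rw [h8, h9, hsk, Matrix.smul_apply, sub_neg_eq_add, two_smul]
  have h10 : X = (1 / 2 : ℝ) • ∑ a, ∑ b, T a b := by
    rw [← h6, smul_smul]
    norm_num
  rw [h10]
  exact U.smul_mem _ (U.sum_mem fun a _ => U.sum_mem fun b _ => hTU a b)

end MPa8bd83
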