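import Pool.Agent.Work.MP_a8bd83_qk.Interface5

set_option autoImplicit false

namespace MPa8bd83

open Module

theorem SPI_tri (n : ℕ) : 2 * n.choose 2 + n = n * n := by
  induction n with
  | zero => rfl
  | succ n ih =>
    have h : (n + 1).choose 2 = n.choose 1 + n.choose 2 := Nat.choose_succ_succ n 1
    rw [h, Nat.choose_one_right]
    nlinarith

theorem SPI_ar (m N b : ℕ) (hb : b = (m + 4) / 8) (hm : 7 ≤ m)
    (h : 2 * N ≤ 4 * ((4 * b).choose 2 + (m - 4 * b).choose 2)) :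
    N ≤ m.choose 2 ∨ (m = 12 ∧ N ≤ 68) := by
  rcases lt_or_ge m 16 with hm2 | hm2
  · have key : ∀ k < 16, 7 ≤ k → 2 * ((4 * ((k + 4) / 8)).choose 2 +
        (k - 4 * ((k + 4) / 8)).choose 2) ≤ k.choose 2 ∨ (k = 12 ∧
          2 * ((4 * ((k + 4) / 8)).choose 2 + (k - 4 * ((k + 4) / 8)).choose 2) ≤ 68) := by
      decide
    subst hb
    rcases key m hm2 hm with h1 | ⟨h1, h2⟩
    · left
      omega
    · right
      exact ⟨h1, by omega⟩
  · left
    obtain ⟨c, hc⟩ : ∃ c, c = m - 4 * b := ⟨_, rfl⟩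
    rw [← hc] at h
    have hmc : m = 4 * b + c := by omega
    have h1 := SPI_tri (4 * b)
    have h2 := SPI_tri c
    have h3 := SPI_tri m
    have h4 : 4 * b ≤ c + 4 := by omega
    have h5 : c ≤ 4 * b + 4 := by omega
    obtain ⟨a, ha⟩ : ∃ a, a = 4 * b := ⟨_, rfl⟩
    rw [← ha] at h h1 h4 h5 hmc
    have h6 : 2 * (a * a) + 2 * (c * c) ≤ m * m + m := by
      subst hmc
      zify at h4 h5 hm2 ⊢
      have : ((a : ℤ) - c) ^ 2 ≤ 16 := by nlinarith
      nlinarith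
    omega

theorem p_SPI (hSOB : Stmt_SOB) : Stmt_SPI := by
  intro V _ _ _ J m N ρ hJ hm hN hρ hρ0 hF
  have h := hSOB V J m ((m + 4) / 8) ρ hJ hρ hρ0 hF (by omega) (by omega)
  rw [hN] at h
  exact SPI_ar m N _ rfl hm h

end MPa8bd83
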