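import Pool.Agent.Work.MP_a8bd83_qk.Interface6

/-!
# Block SPS: the Lie algebra sp(n) is simple
-/

set_option autoImplicit false

namespace MPa8bd83

open Module

/-- `c E_ab - conj c E_ba` -/
noncomputable def SPS_B (n : ℕ) (a b : Fin n) (c : Quaternion ℝ) : HM n :=
  Matrix.single a b c - Matrix.single b a (star c)

theorem SPS_mem (n : ℕ) (a b : Fin n) (c : Quaternion ℝ) : SPS_B n a b c ∈ spn n := by
  change (SPS_B n a b c).conjTranspose = -SPS_B n a b c
  unfold SPS_B
  rw [Matrix.conjTranspose_sub, Matrix.conjTranspose_single, Matrix.conjTranspose_single,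
    star_star, neg_sub]

theorem SPS_c1 {n : ℕ} {p q r : Fin n} (hpq : p ≠ q) (hrp : r ≠ p) (hrq : r ≠ q)
    (c d : Quaternion ℝ) :
    SPS_B n p q c * SPS_B n q r d - SPS_B n q r d * SPS_B n p q c = SPS_B n p r (c * d) := by
  unfold SPS_B
  simp only [sub_mul, mul_sub, Matrix.single_mul_single_same,
    Matrix.single_mul_single_of_ne _ _ _ _ hpq, Matrix.single_mul_single_of_ne _ _ _ _ hpq.symm,
    Matrix.single_mul_single_of_ne _ _ _ _ hrp, Matrix.single_mul_single_of_ne _ _ _ _ hrp.symm,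
    Matrix.single_mul_single_of_ne _ _ _ _ hrq, Matrix.single_mul_single_of_ne _ _ _ _ hrq.symm,
    star_mul]
  abel

theorem SPS_c2 {n : ℕ} {p q : Fin n} (hpq : p ≠ q) (c d : Quaternion ℝ) :
    SPS_B n p q c * SPS_B n p q d - SPS_B n p q d * SPS_B n p q c =
      SPS_B n p p (d * star c) + SPS_B n q q (star d * c) := by
  unfold SPS_B
  simp only [sub_mul, mul_sub, Matrix.single_mul_single_same,
    Matrix.single_mul_single_of_ne _ _ _ _ hpq, Matrix.single_mul_single_of_ne _ _ _ _ hpq.symm,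
    star_mul, star_star]
  abel

theorem SPS_c3 {n : ℕ} {p q : Fin n} (hpq : p ≠ q) (e d : Quaternion ℝ) (he : star e = -e) :
    Matrix.single p p e * SPS_B n p q d - SPS_B n p q d * Matrix.single p p e =
      SPS_B n p q (e * d) := by
  unfold SPS_B
  simp only [sub_mul, mul_sub, Matrix.single_mul_single_same,
    Matrix.single_mul_single_of_ne _ _ _ _ hpq, Matrix.single_mul_single_of_ne _ _ _ _ hpq.symm,
    star_mul, he]
  rw [mul_neg, ← Matrix.single_neg]
  abel

theorem SPS_single {n : ℕ} (p : Fin n) (e : Quaternion ℝ) (he : star e = -e) :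
    SPS_B n p p ((1 / 2 : ℝ) • e) = Matrix.single p p e := by
  unfold SPS_B
  rw [Quaternion.star_smul, he, smul_neg, ← Matrix.single_neg, sub_neg_eq_add, ← Matrix.single_add,
    ← add_smul]
  norm_num

theorem SPS_add {n : ℕ} (a b : Fin n) (c d : Quaternion ℝ) :
    SPS_B n a b (c + d) = SPS_B n a b c + SPS_B n a b d := by
  unfold SPS_B
  rw [star_add, Matrix.single_add, Matrix.single_add]
  abel

theorem SPS_smul {n : ℕ} (a b : Fin n) (t : ℝ) (c : Quaternion ℝ) :
    SPS_B n a b (t • c) = t • SPS_B n a b c := by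
  unfold SPS_B
  rw [Quaternion.star_smul, smul_sub, Matrix.smul_single, Matrix.smul_single]

theorem SPS_swap {n : ℕ} (a b : Fin n) (c : Quaternion ℝ) :
    SPS_B n b a c = -SPS_B n a b (star c) := by
  unfold SPS_B
  rw [star_star, neg_sub]

theorem SPS_one : (1 : Quaternion ℝ) = ⟨1, 0, 0, 0⟩ := rfl

theorem SPS_quat (c : Quaternion ℝ) :
    c = c.re • (1 : Quaternion ℝ) + (c.imI • qi + (c.imJ • qj + c.imK • qk)) := by
  apply Quaternion.ext <;> simp [qi, qj, qk, SPS_one]

section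

variable {n : ℕ} (K : Submodule ℝ (HM n))

/-- an ideal of sp(n) -/
def SPS_Id : Prop := ∀ X ∈ K, ∀ Y ∈ spn n, Y * X - X * Y ∈ K

theorem SPS_l1 (hK : SPS_Id K) {a b : Fin n} (hab : a ≠ b) (h : SPS_B n a b 1 ∈ K)
    (c : Quaternion ℝ) : SPS_B n a b c ∈ K := by
  have him : ∀ e : Quaternion ℝ, star e = -e → SPS_B n a b e ∈ K := by
    intro e he
    have h1 := hK _ h _ (SPS_mem n a a ((1 / 2 : ℝ) • e))
    rw [SPS_single a e he, SPS_c3 hab e 1 he, mul_one] at h1
    exact h1
  have hi : star qi = -qi := by apply Quaternion.ext <;> simp [qi]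
  have hj : star qj = -qj := by apply Quaternion.ext <;> simp [qj]
  have hk : star qk = -qk := by apply Quaternion.ext <;> simp [qk]
  rw [SPS_quat c, SPS_add, SPS_add, SPS_add, SPS_smul, SPS_smul, SPS_smul, SPS_smul]
  exact K.add_mem (K.smul_mem _ h) (K.add_mem (K.smul_mem _ (him qi hi))
    (K.add_mem (K.smul_mem _ (him qj hj)) (K.smul_mem _ (him qk hk))))

theorem SPS_l2 {a b : Fin n} (h : ∀ c, SPS_B n a b c ∈ K) (c : Quaternion ℝ) :
    SPS_B n b a c ∈ K := by
  rw [SPS_swap]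
  exact K.neg_mem (h _)

theorem SPS_l3 (hK : SPS_Id K) {p q r : Fin n} (hpq : p ≠ q) (hrp : r ≠ p)
    (h : ∀ c, SPS_B n p q c ∈ K) (c : Quaternion ℝ) : SPS_B n p r c ∈ K := by
  by_cases hrq : r = q
  · rw [hrq]
    exact h c
  · have h1 := hK _ (h c) _ (SPS_mem n q r 1)
    have h2 := SPS_c1 hpq hrp hrq c 1
    rw [mul_one] at h2
    rw [← h2, ← neg_sub]
    exact K.neg_mem h1

theorem SPS_l4 (hK : SPS_Id K) {p q : Fin n} (hpq : p ≠ q)
    (h : ∀ c, SPS_B n p q c ∈ K) (c : Quaternion ℝ) : SPS_B n q q c ∈ K := by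
  have h1 : ∀ c d : Quaternion ℝ,
      SPS_B n p p (d * star c) + SPS_B n q q (star d * c) ∈ K := by
    intro c d
    rw [← SPS_c2 hpq c d]
    exact hK _ (h d) _ (SPS_mem n p q c)
  -- the products of imaginary quaternions
  have h2 : ∀ d e : Quaternion ℝ, star d = -d → star e = -e → SPS_B n q q (d * e) ∈ K := by
    intro d e hd he
    have h3 := h1 e d
    have h4 := h1 1 (d * star e)
    have h5 := K.sub_mem h3 h4
    rw [star_one, mul_one, mul_one, star_mul, star_star, hd, he] at h5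
    have h6 : SPS_B n p p (d * -e) + SPS_B n q q (-d * e) -
        (SPS_B n p p (d * -e) + SPS_B n q q (e * -d)) =
        SPS_B n q q (-d * e) - SPS_B n q q (e * -d) := by abel
    rw [h6] at h5
    have h7 : SPS_B n q q (-d * e) - SPS_B n q q (e * -d) = (-2 : ℝ) • SPS_B n q q (d * e) := by
      have h8 : SPS_B n q q (e * -d) = -SPS_B n q q (-d * e) := by
        rw [SPS_swap, star_mul, star_neg, hd, he, neg_neg]
        congr 2
        rw [mul_neg, neg_mul]
      rw [h8, sub_neg_eq_add, ← SPS_add, ← SPS_smul]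
      congr 1
      rw [neg_mul, neg_smul, two_smul]
      abel
    rw [h7] at h5
    have h9 := K.smul_mem (-(1 / 2) : ℝ) h5
    rw [smul_smul] at h9
    norm_num at h9
    exact h9
  have hi : star qi = -qi := by apply Quaternion.ext <;> simp [qi]
  have hj : star qj = -qj := by apply Quaternion.ext <;> simp [qj]
  have hk : star qk = -qk := by apply Quaternion.ext <;> simp [qk]
  have e1 : qj * qk = qi := by apply Quaternion.ext <;> simp [qi, qj, qk]
  have e2 : qk * qi = qj := by apply Quaternion.ext <;> simp [qi, qj, qk]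
  have e3 : qi * qj = qk := by apply Quaternion.ext <;> simp [qi, qj, qk]
  have e0 : SPS_B n q q (1 : Quaternion ℝ) = 0 := by
    unfold SPS_B
    rw [star_one, sub_self]
  rw [SPS_quat c, SPS_add, SPS_add, SPS_add, SPS_smul, SPS_smul, SPS_smul, SPS_smul, e0,
    smul_zero, zero_add]
  have m1 := h2 _ _ hj hk
  have m2 := h2 _ _ hk hi
  have m3 := h2 _ _ hi hj
  rw [e1] at m1
  rw [e2] at m2
  rw [e3] at m3
  exact K.add_mem (K.smul_mem _ m1) (K.add_mem (K.smul_mem _ m2) (K.smul_mem _ m3))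

theorem SPS_l5 (hK : SPS_Id K) {p q : Fin n} (hpq : p ≠ q) (h : SPS_B n p q 1 ∈ K)
    (X : HM n) (hX : X ∈ spn n) : X ∈ K := by
  have h0 : ∀ c, SPS_B n p q c ∈ K := SPS_l1 K hK hpq h
  have h1 : ∀ r, r ≠ p → ∀ c, SPS_B n p r c ∈ K := fun r hr => SPS_l3 K hK hpq hr h0
  have h2 : ∀ a b, a ≠ b → ∀ c, SPS_B n a b c ∈ K := by
    intro a b hab
    by_cases ha : a = p
    · rw [ha]
      exact h1 b (fun hb => hab (ha.trans hb.symm))
    · exact SPS_l3 K hK ha (fun hb => hab hb.symm) (SPS_l2 K (h1 a ha))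
  have h3 : ∀ a b, ∀ c, SPS_B n a b c ∈ K := by
    intro a b
    by_cases hab : a = b
    · rw [hab]
      by_cases hb : b = p
      · rw [hb]
        exact SPS_l4 K hK hpq.symm (h2 q p hpq.symm)
      · exact SPS_l4 K hK (fun h5 => hb h5.symm) (h2 p b fun h5 => hb h5.symm)
    · exact h2 a b hab
  have h4 : X = (1 / 2 : ℝ) • ∑ a, ∑ b, SPS_B n a b (X a b) := by
    have h5 : ∑ a, ∑ b, SPS_B n a b (X a b) = X - X.conjTranspose := by
      unfold SPS_B
      simp only [Finset.sum_sub_distrib]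
      congr 1
      · exact (Matrix.matrix_eq_sum_single X).symm
      · rw [Finset.sum_comm]
        exact (Matrix.matrix_eq_sum_single X.conjTranspose).symm
    have h6 : X.conjTranspose = -X := hX
    rw [h5, h6, sub_neg_eq_add, ← two_smul ℝ X, smul_smul]
    norm_num
  rw [h4]
  exact K.smul_mem _ (K.sum_mem fun a _ => K.sum_mem fun b _ => h3 a b _)

end

theorem p_SPS : Stmt_SPS := by
  intro V _ _ _ J n ρ hρ hne p q hpq
  let K : Submodule ℝ (HM n) := (LinearMap.ker ρ).map (spn n).subtype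
  have hcl : ∀ X ∈ spn n, ∀ Y ∈ spn n, X * Y - Y * X ∈ spn n := by
    intro X hX Y hY
    have h1 : X.conjTranspose = -X := hX
    have h2 : Y.conjTranspose = -Y := hY
    change (X * Y - Y * X).conjTranspose = -(X * Y - Y * X)
    rw [Matrix.conjTranspose_sub, Matrix.conjTranspose_mul, Matrix.conjTranspose_mul, h1, h2,
      neg_mul_neg, neg_mul_neg, neg_sub]
  have hKid : SPS_Id K := by
    rintro X ⟨X', hX', rfl⟩ Y hY
    have h1 : ρ X' = 0 := LinearMap.mem_ker.1 hX'
    refine ⟨⟨Y * (X' : HM n) - (X' : HM n) * Y, hcl _ hY _ X'.2⟩, ?_, rfl⟩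
    refine LinearMap.mem_ker.2 ?_
    rw [hρ.lie ⟨Y, hY⟩ X' _ rfl, h1, mul_zero, zero_mul, sub_zero]
  have hfin : SPS_B n p q 1 ∉ K := by
    intro h
    apply hne
    ext1 X
    obtain ⟨X', hX', hXX⟩ := SPS_l5 K hKid hpq h (X : HM n) X.2
    have h2 : X' = X := Subtype.ext hXX
    rw [← h2]
    exact LinearMap.mem_ker.1 hX'
  refine ⟨fun X hX h0 => hfin ⟨X, LinearMap.mem_ker.2 h0, ?_⟩, fun h0 => ?_⟩
  · show (X : HM n) = _
    rw [hX]
    unfold SPS_B
    rw [star_one]
  · apply hfin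
    have hi : star qi = -qi := by apply Quaternion.ext <;> simp [qi]
    have h1 : Matrix.single p p qi ∈ K := ⟨hq n p, LinearMap.mem_ker.2 h0, rfl⟩
    have h2 := hKid _ h1 _ (SPS_mem n p q (-qi))
    have h3 := SPS_c3 hpq qi (-qi) hi
    have h4 : qi * -qi = 1 := by apply Quaternion.ext <;> simp [qi, SPS_one]
    rw [h4] at h3
    rw [← h3, ← neg_sub]
    exact K.neg_mem h2

end MPa8bd83
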