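import Pool.Agent.Work.MP_a8bd83_qk.Interface6

/-!
# Part 6, block SPT: the root matrices of sp(n)
-/

set_option autoImplicit false

namespace MPa8bd83

open Module

theorem SPT_ij : qi * qj = qk := by
  ext <;> simp [qi, qj, qk]

theorem SPT_ji : qj * qi = -qk := by
  ext <;> simp [qi, qj, qk]

theorem SPT_jk : qj * qk = qi := by
  ext <;> simp [qi, qj, qk]

theorem SPT_kj : qk * qj = -qi := by
  ext <;> simp [qi, qj, qk]

theorem SPT_ki : qk * qi = qj := by
  ext <;> simp [qi, qj, qk]

theorem SPT_ik : qi * qk = -qj := by
  ext <;> simp [qi, qj, qk]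

theorem SPT_ii : qi * qi = -1 := by
  have h : (1 : Quaternion ℝ) = ⟨1, 0, 0, 0⟩ := rfl
  rw [h]
  apply Quaternion.ext <;> simp [qi]

/-- product of two matrix units -/
theorem SPT_mul {n : ℕ} (a b c d : Fin n) (x y : Quaternion ℝ) :
    (Matrix.single a b x : HM n) * Matrix.single c d y =
      if b = c then Matrix.single a d (x * y) else 0 := by
  split_ifs with h
  · subst h
    rw [Matrix.single_mul_single_same]
  · rw [Matrix.single_mul_single_of_ne _ _ _ _ h]

theorem SPT_neg {n : ℕ} (a b : Fin n) (x : Quaternion ℝ) :
    (Matrix.single a b (-x) : HM n) = -Matrix.single a b x := by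
  refine Matrix.ext fun u v => ?_
  rw [Matrix.neg_apply, Matrix.single_apply, Matrix.single_apply]
  split_ifs
  · rfl
  · rw [neg_zero]

theorem SPT_hq {n : ℕ} (l : Fin n) : (hq n l : HM n) = Matrix.single l l qi := rfl

theorem SPT_sum1 {n : ℕ} (i : Fin n) :
    (∑ l, (((Pi.single i 1 : Fin n → ℤ) l : ℤ) : ℝ) • (hq n l : HM n)) = Matrix.single i i qi := by
  rw [Finset.sum_eq_single i]
  · simp [SPT_hq]
  · intro l _ hl
    simp [hl]
  · intro h
    exact absurd (Finset.mem_univ _) h

theorem p_SPT : Stmt_SPT := by
  intro n
  refine ⟨fun i P Q hP hQ => ?_, fun i j hij P Q hP hQ => ?_, fun i j hij P Q hP hQ => ?_⟩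
  · refine ⟨fun l => ?_, fun l => ?_, ?_, ?_⟩
    · rw [hP, hQ, SPT_hq, SPT_mul, SPT_mul]
      by_cases h : l = i
      · subst h
        simp only [if_true, SPT_ij, SPT_ji, SPT_neg, Pi.single_eq_same]
        rw [sub_neg_eq_add, ← two_smul ℝ]
        norm_num
      · have h' : ¬ i = l := fun h' => h h'.symm
        simp [h, h']
    · rw [hP, hQ, SPT_hq, SPT_mul, SPT_mul]
      by_cases h : l = i
      · subst h
        simp only [if_true, SPT_ik, SPT_ki, SPT_neg, Pi.single_eq_same]
        rw [← neg_add', ← two_smul ℝ]
        norm_num
      · have h' : ¬ i = l := fun h' => h h'.symm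
        simp [h, h']
    · rw [SPT_sum1, hP, hQ, SPT_mul, SPT_mul]
      simp only [if_true, SPT_jk, SPT_kj, SPT_neg]
      rw [sub_neg_eq_add, ← two_smul ℝ]
    · simp [Pi.single_apply]
  · have hji : ¬ j = i := fun h => hij h.symm
    refine ⟨fun l => ?_, fun l => ?_, ?_, ?_⟩
    · rw [hP, hQ, SPT_hq]
      simp only [mul_add, add_mul, SPT_mul, SPT_ij, SPT_ji, SPT_neg, Pi.add_apply, Pi.single_apply]
      by_cases h : l = i
      · subst h
        simp only [hij, hji, if_true, if_false]
        norm_num
      · by_cases h2 : l = j
        · subst h2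
          simp only [hij, hji, if_true, if_false]
          norm_num
          abel
        · have h' : ¬ i = l := fun h' => h h'.symm
          have h2' : ¬ j = l := fun h' => h2 h'.symm
          simp only [h, h2, h', h2', if_false]
          norm_num
    · rw [hP, hQ, SPT_hq]
      simp only [mul_add, add_mul, SPT_mul, SPT_ik, SPT_ki, SPT_neg, Pi.add_apply, Pi.single_apply]
      by_cases h : l = i
      · subst h
        simp only [hij, hji, if_true, if_false]
        norm_num
        abel
      · by_cases h2 : l = j
        · subst h2
          simp only [hij, hji, if_true, if_false]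
          norm_num
          abel
        · have h' : ¬ i = l := fun h' => h h'.symm
          have h2' : ¬ j = l := fun h' => h2 h'.symm
          simp only [h, h2, h', h2', if_false]
          norm_num
    · have h1 : (∑ l, ((((Pi.single i 1 + Pi.single j 1 : Fin n → ℤ)) l : ℤ) : ℝ) •
          (hq n l : HM n)) = Matrix.single i i qi + Matrix.single j j qi := by
        rw [← SPT_sum1 i, ← SPT_sum1 j, ← Finset.sum_add_distrib]
        refine Finset.sum_congr rfl fun l _ => ?_
        rw [Pi.add_apply, Int.cast_add, add_smul]
      rw [h1, hP, hQ]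
      simp only [mul_add, add_mul, SPT_mul, SPT_jk, SPT_kj, SPT_neg, hij, hji, if_true, if_false,
        two_smul]
      abel
    · have h1 : ∀ l : Fin n, (Pi.single i 1 + Pi.single j 1 : Fin n → ℤ) l *
          (Pi.single i 1 + Pi.single j 1 : Fin n → ℤ) l = (Pi.single i 1 : Fin n → ℤ) l +
            (Pi.single j 1 : Fin n → ℤ) l := by
        intro l
        simp only [Pi.add_apply, Pi.single_apply]
        by_cases h : l = i
        · have h2 : ¬ l = j := fun h2 => hij (h.symm.trans h2)
          simp [h, hij]
        · by_cases h2 : l = j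
          · simp [h2, hji]
          · simp [h, h2]
      rw [Finset.sum_congr rfl fun l _ => h1 l, Finset.sum_add_distrib]
      simp [Pi.single_apply]
  · have hji : ¬ j = i := fun h => hij h.symm
    refine ⟨fun l => ?_, fun l => ?_, ?_, ?_⟩
    · rw [hP, hQ, SPT_hq]
      simp only [mul_sub, sub_mul, SPT_mul, mul_one, one_mul, Pi.sub_apply,
        Pi.single_apply]
      by_cases h : l = i
      · subst h
        simp only [hij, hji, if_true, if_false]
        norm_num
      · by_cases h2 : l = j
        · subst h2
          simp only [hij, hji, if_true, if_false]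
          norm_num
          abel
        · have h' : ¬ i = l := fun h' => h h'.symm
          have h2' : ¬ j = l := fun h' => h2 h'.symm
          simp only [h, h2, h', h2', if_false]
          norm_num
    · rw [hP, hQ, SPT_hq]
      simp only [mul_add, add_mul, SPT_mul, SPT_ii, SPT_neg, Pi.sub_apply, Pi.single_apply]
      by_cases h : l = i
      · subst h
        simp only [hij, hji, if_true, if_false]
        norm_num
        abel
      · by_cases h2 : l = j
        · subst h2
          simp only [hij, hji, if_true, if_false]
          norm_num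
          abel
        · have h' : ¬ i = l := fun h' => h h'.symm
          have h2' : ¬ j = l := fun h' => h2 h'.symm
          simp only [h, h2, h', h2', if_false]
          norm_num
    · have h1 : (∑ l, ((((Pi.single i 1 - Pi.single j 1 : Fin n → ℤ)) l : ℤ) : ℝ) •
          (hq n l : HM n)) = Matrix.single i i qi - Matrix.single j j qi := by
        rw [← SPT_sum1 i, ← SPT_sum1 j, ← Finset.sum_sub_distrib]
        refine Finset.sum_congr rfl fun l _ => ?_
        rw [Pi.sub_apply, Int.cast_sub, sub_smul]
      rw [h1, hP, hQ]
      simp only [mul_add, add_mul, mul_sub, sub_mul, SPT_mul, mul_one, one_mul, hij, hji, if_true,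
        if_false, two_smul]
      abel
    · have h1 : ∀ l : Fin n, (Pi.single i 1 - Pi.single j 1 : Fin n → ℤ) l *
          (Pi.single i 1 - Pi.single j 1 : Fin n → ℤ) l = (Pi.single i 1 : Fin n → ℤ) l +
            (Pi.single j 1 : Fin n → ℤ) l := by
        intro l
        simp only [Pi.sub_apply, Pi.single_apply]
        by_cases h : l = i
        · simp [h, hij]
        · by_cases h2 : l = j
          · simp [h2, hji]
          · simp [h, h2]
      rw [Finset.sum_congr rfl fun l _ => h1 l, Finset.sum_add_distrib]
      simp [Pi.single_apply]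

end MPa8bd83
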