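/-
MP_a8bd83_gt (LeBrun-Salamon), smooth quaternionic Kaehler quotients of HP^(N-1): PART 8.
The fixed point inequality for every element of the group (helper77).  Table qk2_blocks (part 8).

RULES.  One block = one file B_XXX.lean in this folder, `import Pool.Agent.Work.MP_a8bd83_qk.Interface8`,
`namespace MPa8bd83`, `theorem p_XXX (hA : Stmt_A) .. : Stmt_XXX` with exactly the blocks named after
`uses` as hypotheses, in that order.  Auxiliary lemmas get the prefix XXX_.  No straight double quotes.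
-/
import Pool.Agent.Work.MP_a8bd83_qk.Interface5

set_option autoImplicit false

namespace MPa8bd83

open Module

/-- The restriction of operators to a subspace. -/
def rst {V : Type} [NormedAddCommGroup V] [InnerProductSpace ℂ V] (E : Submodule ℂ V) :
    (V →L[ℂ] V) →ₗ[ℝ] (E →L[ℂ] V) where
  toFun ζ := ζ.comp E.subtypeL
  map_add' a b := by
    ext x
    rfl
  map_smul' c a := by
    ext x
    rfl

/-- **FPD** (120), uses ADK.  `k = {ζ ∈ k | ζ g = g ζ} + {η - g η g⁻¹ | η ∈ k}`, `g = exp ξ`, `g⁻¹ = exp (-ξ)`.  `T η = g η g⁻¹` maps `k` to `k` (ADK) and preserves the real inner product `Re tr (aᴴ b)` (Hilbert-Schmidt; `g` is unitary because `ξ` is skew-adjoint: `star (exp ξ) = exp (star ξ) = exp (-ξ)`), so it is an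
orthogonal map of the finite dimensional space `k` and `ker (1 - T) ⊕ range (1 - T) = k`: if `a ∈ k` is orthogonal to the range of `1 - T` then `⟨a, a - T a⟩ = 0`, `‖T a‖ = ‖a‖`, so `‖a - T a‖² = 2 ⟨a, a - T a⟩ = 0`.  (Or without an inner product: the powers of `T` are bounded, so `(1 - T)² a = 0` implies `(1 - T) a = 0`:
`T ^ n a = a - n (1 - T) a`; so `ker (1 - T) ∩ range (1 - T) = 0` and dimensions add up.) -/
def Stmt_FPD : Prop :=
  ∀ (V : Type) [NormedAddCommGroup V] [InnerProductSpace ℂ V] [FiniteDimensional ℂ V]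
    (J : V → V) (k : Submodule ℝ (V →L[ℂ] V)), IsQuatStr J → IsLieSub J k → ∀ ξ ∈ k,
    ∀ ζ ∈ k, ∃ a ∈ Cz k (NormedSpace.exp ξ), ∃ η ∈ k,
      ζ = a + (η - NormedSpace.exp ξ * η * NormedSpace.exp (-ξ))

/-- **FPI** (200), uses RES JXP FPD.  The fixed point inequality.  `g = exp ξ`, `E` = the eigenspace of `g` at `ε = ± 1`, stable under `J` (JXP) and under `C = Cz k g`.  Let `L ≤ C` be a complement of the kernel of the restriction `rst E` on `C`: `finrank L = finrank (C.map (rst E))`, and every `ζ ∈ C` agrees on `E` with an element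
of `L`.  If the inequality fails, RES (for `E`, `L`) gives `0 ≠ x ∈ E` with `MomentZero J L x`, so `MomentZero J C x`.  For `η ∈ k`, `g⁻¹ x = ε x`, `⟨y, g η g⁻¹ x⟩ = ⟨g⁻¹ y, η g⁻¹ x⟩ = ⟨y, η x⟩` for `y = x` and `y = J x ∈ E` (JXP (2)), so FPD gives `MomentZero J k x`, and `g x = ε x` contradicts `FreeOnZeros`. -/
def Stmt_FPI : Prop :=
  ∀ (V : Type) [NormedAddCommGroup V] [InnerProductSpace ℂ V] [FiniteDimensional ℂ V]
    (J : V → V) (k : Submodule ℝ (V →L[ℂ] V)), IsQuatStr J → IsLieSub J k → FreeOnZeros J k →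
    ∀ ξ ∈ k, NormedSpace.exp ξ ≠ 1 → NormedSpace.exp ξ ≠ -1 → ∀ ε : ℂ, (ε = 1 ∨ ε = -1) →
      ∀ E : Submodule ℂ V, E = Module.End.eigenspace ((NormedSpace.exp ξ : V →L[ℂ] V) : V →ₗ[ℂ] V) ε →
      finrank ℂ E ≤ 2 * finrank ℝ ((Cz k (NormedSpace.exp ξ)).map (rst E))

end MPa8bd83
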