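/-
MP_a8bd83_gt (LeBrun-Salamon), smooth quaternionic Kaehler quotients of HP^(N-1): PART 9.
The last dimensions 8, 12, 16 for the simple classical groups (helper77).  Table qk2_blocks (part 9).

RULES.  One block = one file B_XXX.lean in this folder, `import Pool.Agent.Work.MP_a8bd83_qk.Interface9`,
`namespace MPa8bd83`, `theorem p_XXX (hA : Stmt_A) .. : Stmt_XXX` with exactly the blocks named after
`uses` as hypotheses, in that order.  Auxiliary lemmas get the prefix XXX_.  No straight double quotes.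
-/
import Pool.Agent.Work.MP_a8bd83_qk.Interface7
import Pool.Agent.Work.MP_a8bd83_qk.Interface8

set_option autoImplicit false

namespace MPa8bd83

open Module

/-! ## sp(3) and sp(4) -/

/-- **CB7** (250), uses CB1.  `n = 3`.  The bounds for `I = {0}` are `26` (even and odd), so the sum is at most `52`.  (1) No weight has `s = ∑ |w_l| ≥ 5`: otherwise (`sgn`, `dec2`, `decp`, CB1) there is one with `s = 5`, up to signs and order `(2,2,1)`, `(3,1,1)`, `(3,2,0)`, `(4,1,0)` or `(5,0,0)`; `(5,0,0)` gives `(4,1,0)` (`decm`); each of the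
first four has `24` images under `sgn` and `perm` and gives `(2,1,0)` (`24` images) and then `(1,1,1)` (`8` images) by `decp`, `dec2`, `decm`: `56 > 52`.  (2) With `a = m (1,0,0)`, `b = m (1,1,1)`, `c = m (2,1,0)`, `e = m (3,0,0)` (`sgn`, `perm`): sum `= 6 a + 8 b + 24 c + 6 e`, even part for `I = {0}`: `4 a + 4 e + 16 c ≤ 26`,
odd part: `2 a + 2 e + 8 b + 8 c ≤ 26`, and `e ≤ c` or at least `c = 0 → e = 0` (`decm` from `(3,0,0)`).  So the sum is at most `46` (`omega`). -/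
def Stmt_CB7 : Prop :=
  ∀ (m : (Fin 3 → ℤ) → ℕ) (S : Finset (Fin 3 → ℤ)), WtSys 3 m → WtBd 3 m S → ∑ w ∈ S, m w ≤ 46

/-- **CB8** (200), uses CB1 CB2 CB6.  `n = 4`.  The bounds for `|I| = 2` are `40`, so the sum is at most `80`.  If some entry is `≥ 2` in absolute value, CB6 and CB2 give `48 + 32` weights `± 2 e_i ± e_j`, `± e_i ± e_j ± e_k` and `8` weights `± e_i` (`decp`): `88 > 80`.  So the entries are in `{-1, 0, 1}` with one or three nonzero ones (CB1):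
sum `= 8 a + 32 b`, `a = m (1,0,0,0)`, `b = m (1,1,1,0)`; the last hypothesis for `l = 0`: `6 a + 8 b ≤ 42`; `|I| = 2`, even: `4 a + 16 b ≤ 40`; `|I| = 1`, odd: `2 a + 24 b ≤ 48`.  So `a + 4 b ≤ 9` and the sum is at most `72`. -/
def Stmt_CB8 : Prop :=
  ∀ (m : (Fin 4 → ℤ) → ℕ) (S : Finset (Fin 4 → ℤ)), WtSys 4 m → WtBd 4 m S →
    (∀ l : Fin 4, ∑ w ∈ S with w l = 0, m w ≤ 42) → ∑ w ∈ S, m w ≤ 72

/-- The quaternionic skew-Hermitian matrices with row and column `l` zero. -/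
def spY (n : ℕ) (l : Fin n) : Submodule ℝ (HM n) where
  carrier := {X | X ∈ spn n ∧ ∀ j : Fin n, X l j = 0 ∧ X j l = 0}
  add_mem' := by
    rintro X Y ⟨h1, h2⟩ ⟨h3, h4⟩
    refine ⟨(spn n).add_mem h1 h3, fun j => ⟨?_, ?_⟩⟩
    · rw [Matrix.add_apply, (h2 j).1, (h4 j).1, add_zero]
    · rw [Matrix.add_apply, (h2 j).2, (h4 j).2, add_zero]
  zero_mem' := ⟨(spn n).zero_mem, fun _ => ⟨rfl, rfl⟩⟩
  smul_mem' := by
    rintro c X ⟨h1, h2⟩
    refine ⟨(spn n).smul_mem c h1, fun j => ⟨?_, ?_⟩⟩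
    · rw [Matrix.smul_apply, (h2 j).1, smul_zero]
    · rw [Matrix.smul_apply, (h2 j).2, smul_zero]

/-- **SPY** (100).  As B_SPD.lean: the three imaginary parts of `X j j`, `j ≠ l`, and the four coordinates of `X j k`, `j < k`, `j, k ≠ l`: injective on `spY n l`; `3 (n - 1) + 4 C(n - 1, 2)` coordinates. -/
def Stmt_SPY : Prop :=
  ∀ (n : ℕ) (l : Fin n), finrank ℝ (spY n l) ≤ 3 * (n - 1) + 4 * (n - 1).choose 2

/-- **SPZ** (250), uses EV1 SEC QUT SPS FPI SPY.  `H = ρ (hq n l)`, `g = exp H`.  `exp (2 π H) = 1` (QUT with `j E_ll`, `k E_ll`), so by EV1 `V` is spanned by eigenvectors `H v = i a v` with integral `a`, `g v = e^{i a} v`, and `e^{i a} = 1` only for `a = 0` (`π` is irrational), `e^{i a} ≠ -1`: the eigenspace `E` of `g` at `1` is `ker H`, and `g ≠ ± 1` (SPS: `H ≠ 0`).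
FPI: `finrank E ≤ 2 finrank ((Cz k g).map (rst E))`, `k = range ρ` (a Lie algebra).  Let `ζ = ρ X` commute with `g`.  `X = X₀ + X₁ + X₂`: `X₂ = c E_ll`, `c` in the span of `j, k`; `X₁` = row and column `l` without the diagonal entry; `X₀ = y i E_ll + Y`, `Y ∈ spY n l`.  For `A = [H, ·]`: `A ρ X₀ = 0`, `A² ρ X₁ = - ρ X₁`, `A² ρ X₂ = - 4 ρ X₂`.  Eigenvectors of `A`:
`ρ X₁ ∓ i A ρ X₁` with eigenvalue `± i`, `2 ρ X₂ ∓ i A ρ X₂` with `± 2 i`; by SEC `g Z = e^μ Z g` for an eigenvector `Z` with eigenvalue `μ`; `0 = g ζ - ζ g = ∑ (e^μ - 1) Z_μ g`, so `∑ (e^μ - 1) Z_μ = 0`, and `e^μ ≠ 1` for `μ = ± i, ± 2 i`; eigenvectors for different eigenvalues are independent, so all `Z_μ = 0` (`μ ≠ 0`): `ρ X₁ = ρ X₂ = 0`, `ζ = ρ X₀ = y H + ρ Y`, and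
`ζ = ρ Y` on `E = ker H`.  So the space is contained in the image of `spY n l` (SPY). -/
def Stmt_SPZ : Prop :=
  ∀ (V : Type) [NormedAddCommGroup V] [InnerProductSpace ℂ V] [FiniteDimensional ℂ V]
    (J : V → V) (n : ℕ) (ρ : spn n →ₗ[ℝ] (V →L[ℂ] V)), IsQuatStr J → IsLRep J (spn n) ρ → ρ ≠ 0 →
    2 ≤ n → FreeOnZeros J (LinearMap.range ρ) → ∀ (l : Fin n) (E : Submodule ℂ V),
      (∀ x, x ∈ E ↔ ρ (hq n l) x = 0) → finrank ℂ E ≤ 2 * (3 * (n - 1) + 4 * (n - 1).choose 2)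

/-- **WTZ** (180), uses QUT SPB WT1 WT2 WT3 WT5 SPT WT4 SPZ.  As B_WTA.lean (copy the proof), with one more conclusion: the `Vw H w` with `w l = 0` are contained in `ker (H l)`, so by WT1 (2) and SPZ their sum is bounded. -/
def Stmt_WTZ : Prop :=
  ∀ (V : Type) [NormedAddCommGroup V] [InnerProductSpace ℂ V] [FiniteDimensional ℂ V]
    (J : V → V) (n : ℕ) (ρ : spn n →ₗ[ℝ] (V →L[ℂ] V)), IsQuatStr J → IsLRep J (spn n) ρ → ρ ≠ 0 →
    2 ≤ n → FreeOnZeros J (LinearMap.range ρ) →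
    ∃ (m : (Fin n → ℤ) → ℕ) (S : Finset (Fin n → ℤ)), WtSys n m ∧ WtBd n m S ∧
      (∀ l : Fin n, ∑ w ∈ S with w l = 0, m w ≤ 2 * (3 * (n - 1) + 4 * (n - 1).choose 2)) ∧
      ∑ w ∈ S, m w = finrank ℂ V

/-- **SP8** (80), uses SPB WTZ CBF CB7 CB8.  `n = 2`: SPB with `|I| = 1`, `finrank V ≤ 24`, `N ≤ 12`.  `n = 3`: CB7, `N ≤ 23`.  `n = 4`: CB8 (`2 (9 + 12) = 42`), `N ≤ 36`.  `n ≥ 5`: CBF. -/
def Stmt_SP8 : Prop :=
  ∀ (V : Type) [NormedAddCommGroup V] [InnerProductSpace ℂ V] [FiniteDimensional ℂ V]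
    (J : V → V) (n N : ℕ) (ρ : spn n →ₗ[ℝ] (V →L[ℂ] V)), IsQuatStr J → 2 ≤ n →
    finrank ℂ V = 2 * N → IsLRep J (spn n) ρ → ρ ≠ 0 → FreeOnZeros J (LinearMap.range ρ) →
    N ≤ n * (2 * n + 1) + 2

/-! ## su(n), n = 2 mod 4 -/

/-- **SUS** (120).  `R_pq = E_pq - E_qp`.  If `ρ R_pq = 0` for one pair: `[R_pq, R_qr] = R_pr`, so `ρ R_jk = 0` for all pairs; `[R_pq, i (E_pq + E_qp)] = 2 i (E_pp - E_qq)` and `[i (E_pp - E_qq), R_pq] = 2 i (E_pq + E_qp)`, so `ρ` is zero on all of these; they span `su(n)`: `ρ = 0`. -/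
def Stmt_SUS : Prop :=
  ∀ (V : Type) [NormedAddCommGroup V] [InnerProductSpace ℂ V] [FiniteDimensional ℂ V]
    (J : V → V) (n : ℕ) (ρ : su n →ₗ[ℝ] (V →L[ℂ] V)), IsLRep J (su n) ρ → ρ ≠ 0 →
    ∀ (p q : Fin n) (X : su n), p ≠ q →
      (X : Matrix (Fin n) (Fin n) ℂ) = Matrix.single p q 1 - Matrix.single q p 1 → ρ X ≠ 0

/-- **SUB** (200), uses IV4 SUD SUS.  IV4 with `A` = complex matrices, `g = su n`, `L = suE n (2 b)`, `ι = Fin b`, `D₁ l = i (E_pp - E_qq)`, `D₂ l = E_pq - E_qp`, `D₃ l = i (E_pq + E_qp)`, `p = 2 l`, `q = 2 l + 1`; `∑ D₁ l = dm n (2 b)`, `D² = - P`, `D³ = - D`; `X = (P X P + Q X Q) + (P X Q + Q X P)`;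
`Z = E_(0, n-1) - E_(n-1, 0)` for the last hypothesis. -/
def Stmt_SUB : Prop :=
  ∀ (V : Type) [NormedAddCommGroup V] [InnerProductSpace ℂ V] [FiniteDimensional ℂ V]
    (J : V → V) (n b : ℕ) (ρ : su n →ₗ[ℝ] (V →L[ℂ] V)) (D : su n), IsQuatStr J →
    IsLRep J (su n) ρ → ρ ≠ 0 → FreeOnZeros J (LinearMap.range ρ) → 1 ≤ b → 2 * b < n →
    (D : Matrix (Fin n) (Fin n) ℂ) = dm n (2 * b) → ∀ ε : ℂ, (ε = 1 ∨ ε = -1) →
      finrank ℂ (IN2_Q (NormedSpace.exp (Real.pi • ρ D)) ε)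
        ≤ 2 * ((2 * b) ^ 2 + (n - 2 * b) ^ 2 - 1)

/-- **EVD** (200).  Evenness.  Induction on `b`.  `b = 0`: `E = 0`.  Otherwise let `E' = E ⊓ ker (H 0)`, to which the induction applies (the other `H l` commute with `H 0`, `K` maps `E'` to itself), and `E''` = the orthogonal complement of `E'` in `E`, stable under `H 0` (skew-adjoint), with `finrank E = finrank E' + finrank E''`.  On `E''` the operator `- i H 0` is symmetric and
injective: `E''` is the orthogonal sum of the eigenspaces `E_θ = {v ∈ E | H 0 v = i θ v}`, `θ ≠ 0` real, and `K` maps `E_θ` injectively to `E_(-θ)` (`H 0 (K v) = K (H 0 v) = K (i θ v) = - i θ K v`), so `finrank E_θ = finrank E_(-θ)` and the sum is even. -/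
def Stmt_EVD : Prop :=
  ∀ (V : Type) [NormedAddCommGroup V] [InnerProductSpace ℂ V] [FiniteDimensional ℂ V]
    (b : ℕ) (E : Submodule ℂ V) (K : V → V) (H : Fin b → (V →L[ℂ] V)),
    (∀ x y, K (x + y) = K x + K y) → (∀ (c : ℂ) (x : V), K (c • x) = (starRingEnd ℂ c) • K x) →
    (∀ x ∈ E, K x ∈ E) → (∀ x ∈ E, K x = 0 → x = 0) →
    (∀ l x y, inner ℂ (H l x) y = - inner ℂ x (H l y)) → (∀ l, ∀ x ∈ E, H l x ∈ E) →
    (∀ l l', H l * H l' = H l' * H l) → (∀ l, ∀ x ∈ E, K (H l x) = H l (K x)) →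
    (∀ x ∈ E, (∀ l, H l x = 0) → x = 0) → Even (finrank ℂ E)

/-- **EVG** (250), uses SE2 QUT EVD.  `D = ∑ D_l`, `D_l = i (E_pp - E_qq)`, `p = 2 l`, `q = 2 l + 1`; `D' = ∑ (E_pq - E_qp)`, `D'' = ∑ i (E_pq + E_qp)`: `QTrip D D' D''`.  `A = ρ D`, `B = ρ D'`, `C = ρ D''`.  `G = exp (π A)`, `G G = exp (2 π A) = 1` (QUT).  `e = exp ((π/2) A)`, `e e = G`, `u = exp ((π/2) B)`: `[B/2, [B/2, A]] = - A`, so `u A = - A u` (SE2) and
`e u = u e⁻¹`, `e⁻¹ = exp (- (π/2) A)`.  `W = IN2_Q G (-1)` is the direct sum of `E = {e v = i v}` and `{e v = - i v}`, which `J` exchanges (`exp` commutes with `J`: a power series with real coefficients; or JXP as a lemma), so `finrank W = 2 finrank E`.  `K = J u` maps `E` to `E`, antilinear, injective.  `H l = ρ (i (E_pp + E_qq - 2 E_rr))`, `r = n - 1`: skew-adjoint, they commute with each other, with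
`A`, `B`, hence with `e`, `u`, and with `J`.  If `v ∈ E` and all `H l v = 0`: `ρ D_l = 2 ρ (i (E_pp - E_rr)) - H l` (commuting), so `exp (π ρ D_l) v = exp (2 π ρ (i (E_pp - E_rr))) v = v` (QUT with `E_pr - E_rp`, `i (E_pr + E_rp)`), `G v = ∏ exp (π ρ D_l) v = v`, but `G v = - v`: `v = 0`.  EVD: `finrank E` is even. -/
def Stmt_EVG : Prop :=
  ∀ (V : Type) [NormedAddCommGroup V] [InnerProductSpace ℂ V] [FiniteDimensional ℂ V]
    (J : V → V) (n b : ℕ) (ρ : su n →ₗ[ℝ] (V →L[ℂ] V)) (D : su n), IsQuatStr J →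
    IsLRep J (su n) ρ → 2 * b < n → (D : Matrix (Fin n) (Fin n) ℂ) = dm n (2 * b) →
    NormedSpace.exp (Real.pi • ρ D) * NormedSpace.exp (Real.pi • ρ D) = 1 ∧
    4 ∣ finrank ℂ (IN2_Q (NormedSpace.exp (Real.pi • ρ D)) (-1))

/-- **SU8** (100), uses SUB EVG.  `n = 4 k + 2`, `b = k`, `z = (2 k)² + (2 k + 2)² - 1 = 8 k² + 8 k + 3` is odd.  `V` is the sum of `IN2_Q G 1` and `IN2_Q G (-1)` (`G G = 1`), of dimensions `≤ 2 z` and, being divisible by `4`, `≤ 2 z - 2`: `2 N ≤ 4 z - 2`, `N ≤ 2 z - 1 = n ^ 2 + 1`. -/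
def Stmt_SU8 : Prop :=
  ∀ (V : Type) [NormedAddCommGroup V] [InnerProductSpace ℂ V] [FiniteDimensional ℂ V]
    (J : V → V) (n N : ℕ) (ρ : su n →ₗ[ℝ] (V →L[ℂ] V)), IsQuatStr J → n % 4 = 2 → 6 ≤ n →
    finrank ℂ V = 2 * N → IsLRep J (su n) ρ → ρ ≠ 0 → FreeOnZeros J (LinearMap.range ρ) →
    N ≤ n ^ 2 + 1

end MPa8bd83
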