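/-
MP_a8bd83_gt, THEOREM QR, block SPY: the dimension of sp(n-1) in sp(n).
-/
import Pool.Agent.Work.MP_a8bd83_qk.Interface9
import Pool.Agent.Work.MP_a8bd83_qk.B_CNP

set_option autoImplicit false

namespace MPa8bd83

open Module

/-- The imaginary parts of the diagonal entries and the entries indexed by a set of pairs. -/
noncomputable def SPY_phi (n : ℕ) (l : Fin n) (S : Finset (Fin n × Fin n)) :
    spY n l →ₗ[ℝ] ({j : Fin n // j ≠ l} → Fin 3 → ℝ) × (S → Quaternion ℝ) where
  toFun X := (fun j => ![((X : HM n) j.1 j.1).imI, ((X : HM n) j.1 j.1).imJ,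
      ((X : HM n) j.1 j.1).imK],
    fun s => (X : HM n) s.1.1 s.1.2)
  map_add' := by
    intro X Y
    refine Prod.ext ?_ ?_
    · funext j c
      fin_cases c <;> simp
    · funext s
      simp
  map_smul' := by
    intro c X
    refine Prod.ext ?_ ?_
    · funext j d
      fin_cases d <;> simp
    · funext s
      simp

/-- **SPY.** The dimension of `sp(n-1)`. -/
theorem p_SPY : Stmt_SPY := by
  classical
  intro n l
  obtain ⟨S, hS⟩ : ∃ S : Finset (Fin n × Fin n), S =
      Finset.univ.filter (fun p : Fin n × Fin n => p.1 < p.2 ∧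
        (p.1 ∈ ({l} : Finset (Fin n)) ↔ p.2 ∈ ({l} : Finset (Fin n)))) := ⟨_, rfl⟩
  have hinj : Function.Injective (SPY_phi n l S) := by
    rw [← LinearMap.ker_eq_bot, LinearMap.ker_eq_bot']
    intro X hX
    obtain ⟨X, hX1, hX3⟩ := X
    have hX' := Prod.ext_iff.1 hX
    have hval : ∀ j k : Fin n, j < k → j ≠ l → k ≠ l → X j k = 0 := by
      intro j k h3 h4 h5
      have hmem : (j, k) ∈ S := by
        rw [hS, Finset.mem_filter]
        refine ⟨Finset.mem_univ _, h3, ?_⟩
        rw [Finset.mem_singleton, Finset.mem_singleton]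
        exact ⟨fun h => absurd h h4, fun h => absurd h h5⟩
      exact congrFun hX'.2 ⟨(j, k), hmem⟩
    have hskew : ∀ j k : Fin n, star (X k j) = - X j k := by
      intro j k
      have h3 : X.conjTranspose j k = (-X) j k := congrFun (congrFun hX1 j) k
      rw [Matrix.conjTranspose_apply, Matrix.neg_apply] at h3
      exact h3
    have hdiag : ∀ j : Fin n, j ≠ l → X j j = 0 := by
      intro j hj
      have h1 := congrFun (congrFun hX'.1 ⟨j, hj⟩) 0
      have h2 := congrFun (congrFun hX'.1 ⟨j, hj⟩) 1
      have h3 := congrFun (congrFun hX'.1 ⟨j, hj⟩) 2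
      have h4 := congrArg QuaternionAlgebra.re (hskew j j)
      have h1' : (X j j).imI = 0 := h1
      have h2' : (X j j).imJ = 0 := h2
      have h3' : (X j j).imK = 0 := h3
      have h4' : (X j j).re = 0 := by
        rw [Quaternion.re_star, Quaternion.re_neg] at h4
        linarith
      exact Quaternion.ext _ _ h4' h1' h2' h3'
    have hX0 : X = 0 := by
      refine Matrix.ext fun j k => ?_
      by_cases hj : j = l
      · rw [hj, (hX3 k).1]; rfl
      by_cases hk : k = l
      · rw [hk, (hX3 j).2]; rfl
      rcases lt_trichotomy j k with h | h | h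
      · rw [hval j k h hj hk]; rfl
      · subst h
        rw [hdiag j hj]; rfl
      · have h5 := hskew j k
        rw [hval k j h hk hj, star_zero] at h5
        have h6 : X j k = 0 := by
          rw [← neg_eq_zero, ← h5]
        rw [h6]; rfl
    exact Subtype.ext hX0
  have hle := LinearMap.finrank_le_finrank_of_injective hinj
  have hcard : Fintype.card {j : Fin n // j ≠ l} = n - 1 := by
    rw [Fintype.card_subtype_compl, Fintype.card_fin, Fintype.card_subtype_eq]
  have e1 : finrank ℝ (({j : Fin n // j ≠ l} → Fin 3 → ℝ) × (S → Quaternion ℝ))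
      = (n - 1) * 3 + S.card * 4 := by
    have e2 : finrank ℝ ({j : Fin n // j ≠ l} → Fin 3 → ℝ) = (n - 1) * 3 := by
      rw [Module.finrank_pi_fintype]
      simp only [Module.finrank_fintype_fun_eq_card, Fintype.card_fin, Finset.sum_const,
        Finset.card_univ, smul_eq_mul]
      rw [hcard]
    have e3 : finrank ℝ (S → Quaternion ℝ) = S.card * 4 := by
      rw [Module.finrank_pi_fintype]
      simp only [Quaternion.finrank_eq_four, Finset.sum_const, Finset.card_univ,
        Fintype.card_coe, smul_eq_mul]
    rw [Module.finrank_prod, e2, e3]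
  rw [e1] at hle
  have h6 := p_CNP n {l}
  have h7 : S.card = (n - 1).choose 2 := by
    rw [hS, h6, Finset.card_singleton]
    simp
  rw [h7] at hle
  linarith

end MPa8bd83
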