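import Pool.Agent.Work.MP_a8bd83_qk.Interface9

/-! # Block SPZ (helper10): the kernel of one element of the torus of `Sp(n)` -/

set_option autoImplicit false

namespace MPa8bd83

open Module

theorem SPZ_star_qj : star qj = -qj := by
  apply Quaternion.ext <;> simp [qj]

theorem SPZ_star_qk : star qk = -qk := by
  apply Quaternion.ext <;> simp [qk]

theorem SPZ_mem0 {n : ℕ} (i : Fin n) (q : Quaternion ℝ) (hq : star q = -q) :
    (Matrix.single i i q : HM n) ∈ spn n := by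
  change (Matrix.single i i q : HM n).conjTranspose = -Matrix.single i i q
  rw [Matrix.conjTranspose_single, hq]
  refine Matrix.ext fun a b => ?_
  rw [Matrix.neg_apply, Matrix.single_apply, Matrix.single_apply]
  split_ifs
  · rfl
  · rw [neg_zero]

/-- The commutator of single matrices with the same index. -/
theorem SPZ_brk {n : ℕ} (l : Fin n) (a b c : Quaternion ℝ) (h : a * b - b * a = (2 : ℝ) • c) :
    (Matrix.single l l a : HM n) * Matrix.single l l b -
      Matrix.single l l b * Matrix.single l l a = (2 : ℝ) • Matrix.single l l c := by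
  rw [Matrix.single_mul_single_same, Matrix.single_mul_single_same]
  refine Matrix.ext fun x y => ?_
  rw [Matrix.sub_apply, Matrix.smul_apply, Matrix.single_apply, Matrix.single_apply,
    Matrix.single_apply]
  split_ifs
  · exact h
  · simp

theorem SPZ_ij : qi * qj - qj * qi = (2 : ℝ) • qk := by
  apply Quaternion.ext <;> simp [qi, qj, qk] <;> norm_num

theorem SPZ_jk : qj * qk - qk * qj = (2 : ℝ) • qi := by
  apply Quaternion.ext <;> simp [qi, qj, qk] <;> norm_num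

theorem SPZ_ki : qk * qi - qi * qk = (2 : ℝ) • qj := by
  apply Quaternion.ext <;> simp [qi, qj, qk] <;> norm_num

theorem SPZ_ii : qi * qi = -1 := by
  apply Quaternion.ext <;> simp [qi]
  · exact Quaternion.re_one.symm
  · exact Quaternion.imI_one
  · exact Quaternion.imJ_one
  · exact Quaternion.imK_one

theorem SPZ_lie {n : ℕ} (X Y : HM n) (hX : X ∈ spn n) (hY : Y ∈ spn n) :
    X * Y - Y * X ∈ spn n := by
  change X.conjTranspose = -X at hX
  change Y.conjTranspose = -Y at hY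
  change (X * Y - Y * X).conjTranspose = -(X * Y - Y * X)
  rw [Matrix.conjTranspose_sub, Matrix.conjTranspose_mul, Matrix.conjTranspose_mul, hX, hY]
  simp only [neg_mul, mul_neg, neg_neg, neg_sub]

/-- The commutator with `i E_ll`. -/
noncomputable def SPZ_ad (n : ℕ) (l : Fin n) (X : spn n) : spn n :=
  ⟨(hq n l : HM n) * (X : HM n) - (X : HM n) * (hq n l : HM n), SPZ_lie _ _ (hq n l).2 X.2⟩

theorem SPZ_ad1 {n : ℕ} (l j : Fin n) (hj : j ≠ l) (X : spn n) :
    (SPZ_ad n l X : HM n) l j = qi * (X : HM n) l j := by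
  change ((Matrix.single l l qi : HM n) * (X : HM n) - (X : HM n) * (Matrix.single l l qi : HM n))
    l j = _
  rw [Matrix.sub_apply, Matrix.single_mul_apply_same, Matrix.mul_single_apply_of_ne _ _ _ _ _ hj,
    sub_zero]

theorem SPZ_ad2 {n : ℕ} (l j : Fin n) (hj : j ≠ l) (X : spn n) :
    (SPZ_ad n l X : HM n) j l = -((X : HM n) j l * qi) := by
  change ((Matrix.single l l qi : HM n) * (X : HM n) - (X : HM n) * (Matrix.single l l qi : HM n))
    j l = _
  rw [Matrix.sub_apply, Matrix.mul_single_apply_same, Matrix.single_mul_apply_of_ne _ _ _ _ _ hj,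
    zero_sub]

theorem SPZ_ad3 {n : ℕ} (l : Fin n) (X : spn n) :
    (SPZ_ad n l X : HM n) l l = qi * (X : HM n) l l - (X : HM n) l l * qi := by
  change ((Matrix.single l l qi : HM n) * (X : HM n) - (X : HM n) * (Matrix.single l l qi : HM n))
    l l = _
  rw [Matrix.sub_apply, Matrix.single_mul_apply_same, Matrix.mul_single_apply_same]

theorem SPZ_f (q : Quaternion ℝ) :
    qi * q - q * qi = ⟨0, 0, -(2 * q.imK), 2 * q.imJ⟩ := by
  apply Quaternion.ext <;> simp [qi] <;> ring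

/-- The component of `X` which commutes with `i E_ll`. -/
noncomputable def SPZ_X0 (n : ℕ) (l : Fin n) (X : spn n) : spn n :=
  X + (5 / 4 : ℝ) • SPZ_ad n l (SPZ_ad n l X) +
    (1 / 4 : ℝ) • SPZ_ad n l (SPZ_ad n l (SPZ_ad n l (SPZ_ad n l X)))

theorem SPZ_X0_apply (n : ℕ) (l : Fin n) (X : spn n) (i j : Fin n) :
    (SPZ_X0 n l X : HM n) i j = (X : HM n) i j +
      (5 / 4 : ℝ) • (SPZ_ad n l (SPZ_ad n l X) : HM n) i j +
      (1 / 4 : ℝ) • (SPZ_ad n l (SPZ_ad n l (SPZ_ad n l (SPZ_ad n l X))) : HM n) i j := rfl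

theorem SPZ_row (n : ℕ) (l j : Fin n) (hj : j ≠ l) (X : spn n) :
    (SPZ_X0 n l X : HM n) l j = 0 := by
  rw [SPZ_X0_apply, SPZ_ad1 l j hj, SPZ_ad1 l j hj, SPZ_ad1 l j hj, SPZ_ad1 l j hj,
    SPZ_ad1 l j hj, SPZ_ad1 l j hj]
  have h1 : ∀ q : Quaternion ℝ, qi * (qi * q) = -q := by
    intro q
    rw [← mul_assoc, SPZ_ii, neg_mul, one_mul]
  rw [h1, h1, neg_neg]
  module

theorem SPZ_col (n : ℕ) (l j : Fin n) (hj : j ≠ l) (X : spn n) :
    (SPZ_X0 n l X : HM n) j l = 0 := by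
  rw [SPZ_X0_apply, SPZ_ad2 l j hj, SPZ_ad2 l j hj, SPZ_ad2 l j hj, SPZ_ad2 l j hj,
    SPZ_ad2 l j hj, SPZ_ad2 l j hj]
  have h1 : ∀ q : Quaternion ℝ, -(-(q * qi) * qi) = -q := by
    intro q
    rw [neg_mul, neg_neg, mul_assoc, SPZ_ii, mul_neg, mul_one]
  rw [h1, h1, neg_neg]
  module

theorem SPZ_re (n : ℕ) (l : Fin n) (X : spn n) : ((X : HM n) l l).re = 0 := by
  have h : (X : HM n).conjTranspose = -(X : HM n) := X.2
  have h1 := congrFun (congrFun h l) l
  rw [Matrix.conjTranspose_apply, Matrix.neg_apply] at h1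
  have h2 : (star ((X : HM n) l l)).re = (-((X : HM n) l l)).re := congrArg QuaternionAlgebra.re h1
  rw [Quaternion.re_star, Quaternion.re_neg] at h2
  linarith

theorem SPZ_diag (n : ℕ) (l : Fin n) (X : spn n) :
    (SPZ_X0 n l X : HM n) l l = ((X : HM n) l l).imI • qi := by
  rw [SPZ_X0_apply, SPZ_ad3, SPZ_ad3, SPZ_ad3, SPZ_ad3, SPZ_ad3, SPZ_ad3, SPZ_f, SPZ_f, SPZ_f,
    SPZ_f]
  have h0 := SPZ_re n l X
  generalize (X : HM n) l l = q at h0 ⊢
  apply Quaternion.ext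
  · simp [qi, h0]
  · simp [qi]
  · simp [qi]
    ring
  · simp [qi]
    ring

theorem SPZ_dec (n : ℕ) (l : Fin n) (X : spn n) :
    ∃ (y : ℝ) (Y : spn n), (Y : HM n) ∈ spY n l ∧ SPZ_X0 n l X = y • hq n l + Y := by
  refine ⟨((X : HM n) l l).imI, SPZ_X0 n l X - ((X : HM n) l l).imI • hq n l,
    ⟨(SPZ_X0 n l X - ((X : HM n) l l).imI • hq n l).2, ?_⟩, by abel⟩
  intro j
  have h1 : ∀ i j : Fin n, ((SPZ_X0 n l X - ((X : HM n) l l).imI • hq n l : spn n) : HM n) i j =
      (SPZ_X0 n l X : HM n) i j - ((X : HM n) l l).imI • (Matrix.single l l qi : HM n) i j :=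
    fun _ _ => rfl
  by_cases hj : j = l
  · subst hj
    have h2 : ((SPZ_X0 n j X - ((X : HM n) j j).imI • hq n j : spn n) : HM n) j j = 0 := by
      rw [h1, SPZ_diag, Matrix.single_apply_same, sub_self]
    exact ⟨h2, h2⟩
  · constructor
    · rw [h1, SPZ_row n l j hj, Matrix.single_apply_of_ne _ _ _ _ _ (fun h => hj h.2.symm),
        smul_zero, sub_zero]
    · rw [h1, SPZ_col n l j hj, Matrix.single_apply_of_ne _ _ _ _ _ (fun h => hj h.1.symm),
        smul_zero, sub_zero]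

/-! ## The eigenspaces of `exp H` -/

theorem SPZ_half (a b : ℝ) (ha : ∃ m : ℤ, 2 * a = m) (hb : ∃ m : ℤ, 2 * b = m)
    (h : Complex.exp ((a : ℂ) * Complex.I) = Complex.exp ((b : ℂ) * Complex.I)) : a = b := by
  rw [Complex.exp_eq_exp_iff_exists_int] at h
  obtain ⟨n, hn⟩ := h
  obtain ⟨p, hp⟩ := ha
  obtain ⟨q, hq⟩ := hb
  have h1 : (a : ℂ) = b + n * (2 * Real.pi) := by
    refine mul_right_cancel₀ Complex.I_ne_zero ?_
    rw [hn]
    ring
  have h2 : a = b + n * (2 * Real.pi) := by exact_mod_cast h1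
  by_cases hn0 : n = 0
  · rw [h2, hn0]
    simp
  · exfalso
    have hn1 : (n : ℝ) ≠ 0 := by exact_mod_cast hn0
    have h3 : Real.pi = ((p : ℝ) - q) / (n * 4) := by
      rw [eq_div_iff (mul_ne_zero hn1 (by norm_num))]
      linarith
    refine irrational_pi ⟨((p : ℚ) - q) / (n * 4), ?_⟩
    rw [h3]
    push_cast
    rfl

theorem SPZ_coord {V : Type} [NormedAddCommGroup V] [InnerProductSpace ℂ V] {ι : Type}
    (B : Basis ι ℂ V) (T : V →L[ℂ] V) (c : ι → ℂ) (h : ∀ i, T (B i) = c i • B i) (w : V) (i : ι) :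
    B.repr (T w) i = c i * B.repr w i := by
  classical
  have h1 : B.coord i ∘ₗ (T : V →ₗ[ℂ] V) = c i • B.coord i := by
    refine B.ext fun j => ?_
    rw [LinearMap.comp_apply, LinearMap.smul_apply, ContinuousLinearMap.coe_coe, h j, map_smul,
      Basis.coord_apply, Basis.repr_self, smul_eq_mul, smul_eq_mul]
    by_cases hj : j = i
    · rw [hj]
    · rw [Finsupp.single_eq_of_ne (Ne.symm hj), mul_zero, mul_zero]
  exact LinearMap.congr_fun h1 w

theorem SPZ_key (hEV1 : Stmt_EV1) {V : Type} [NormedAddCommGroup V] [InnerProductSpace ℂ V]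
    [FiniteDimensional ℂ V] (J : V → V) (H : V →L[ℂ] V) (hJ : IsQuatStr J) (hH : IsSp J H)
    (hper : NormedSpace.exp ((2 * Real.pi) • H) = 1) :
    (∀ (a : ℝ) (w : V), (∃ m : ℤ, 2 * a = m) →
      NormedSpace.exp H w = Complex.exp ((a : ℂ) * Complex.I) • w →
        H w = ((a : ℂ) * Complex.I) • w) ∧
    (∀ w : V, H w = 0 → NormedSpace.exp H w = w) ∧
    (∀ ζ : V →L[ℂ] V, ζ * NormedSpace.exp H = NormedSpace.exp H * ζ → H * ζ = ζ * H) ∧
    (NormedSpace.exp H = -1 → H = 0) := by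
  obtain ⟨h1, _, _, h4, h5⟩ := hEV1 V J H hJ hH
  have hexp : ∀ (a : ℝ) (v : V), H v = ((a : ℂ) * Complex.I) • v →
      NormedSpace.exp H v = Complex.exp ((a : ℂ) * Complex.I) • v := by
    intro a v hv
    have := h4 a 1 v hv
    rwa [one_smul, one_mul] at this
  have hs : ⊤ ≤ Submodule.span ℂ {v : V | ∃ a : ℝ, H v = ((a : ℂ) * Complex.I) • v} :=
    fun x _ => h1 x
  have hB : ∀ i, ∃ a : ℝ, H (Basis.ofSpan hs i) = ((a : ℂ) * Complex.I) • Basis.ofSpan hs i :=
    fun i => Basis.ofSpan_subset hs ⟨i, rfl⟩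
  generalize Basis.ofSpan hs = B at hB
  choose β hβ using hB
  have hhalf : ∀ i, ∃ m : ℤ, 2 * β i = m := by
    intro i
    obtain ⟨n, hn⟩ := h5 (2 * Real.pi) (Or.inl hper) (β i) (B i) (B.ne_zero i) (hβ i)
    refine ⟨n, ?_⟩
    refine mul_right_cancel₀ Real.pi_ne_zero ?_
    linarith
  have hfirst : ∀ (a : ℝ) (w : V), (∃ m : ℤ, 2 * a = m) →
      NormedSpace.exp H w = Complex.exp ((a : ℂ) * Complex.I) • w →
        H w = ((a : ℂ) * Complex.I) • w := by
    intro a w ha hw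
    refine B.ext_elem fun i => ?_
    rw [SPZ_coord B H (fun i => (β i : ℂ) * Complex.I) hβ w i, map_smul, Finsupp.smul_apply,
      smul_eq_mul]
    have h6 := SPZ_coord B (NormedSpace.exp H) (fun i => Complex.exp ((β i : ℂ) * Complex.I))
      (fun i => hexp _ _ (hβ i)) w i
    rw [hw, map_smul, Finsupp.smul_apply, smul_eq_mul] at h6
    by_cases h0 : B.repr w i = 0
    · rw [h0, mul_zero, mul_zero]
    · have h7 := mul_right_cancel₀ h0 h6
      rw [SPZ_half a (β i) ha (hhalf i) h7]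
  refine ⟨hfirst, ?_, ?_, ?_⟩
  · intro w hw
    have := hexp 0 w (by rw [hw]; simp)
    rw [this]
    simp
  · intro ζ hζ
    have h8 : ((H * ζ : V →L[ℂ] V) : V →ₗ[ℂ] V) = ((ζ * H : V →L[ℂ] V) : V →ₗ[ℂ] V) := by
      refine B.ext fun i => ?_
      change H (ζ (B i)) = ζ (H (B i))
      rw [hβ i, map_smul]
      refine hfirst (β i) _ (hhalf i) ?_
      have h9 : ζ (NormedSpace.exp H (B i)) = NormedSpace.exp H (ζ (B i)) :=
        congrArg (fun T : V →L[ℂ] V => T (B i)) hζ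
      rw [← h9, hexp _ _ (hβ i), map_smul]
    exact ContinuousLinearMap.coe_injective h8
  · intro hm
    have h8 : (H : V →ₗ[ℂ] V) = 0 := by
      refine B.ext fun i => ?_
      exfalso
      obtain ⟨n, hn⟩ := h5 1 (Or.inr (by rw [one_smul, hm])) (β i) (B i) (B.ne_zero i) (hβ i)
      obtain ⟨m, hm2⟩ := hhalf i
      by_cases hn0 : n = 0
      · have hb : β i = 0 := by
          rw [hn0] at hn
          simpa using hn
        have h9 := hexp _ _ (hβ i)
        rw [hm, hb] at h9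
        have h10 : -(B i) = B i := by
          simpa using h9
        have h11 : (2 : ℂ) • B i = 0 := by
          rw [two_smul]
          nth_rewrite 1 [← h10]
          exact neg_add_cancel _
        exact B.ne_zero i ((smul_eq_zero.1 h11).resolve_left two_ne_zero)
      · have hn1 : (n : ℝ) ≠ 0 := by exact_mod_cast hn0
        refine irrational_pi ⟨(m : ℚ) / (2 * n), ?_⟩
        push_cast
        rw [div_eq_iff (mul_ne_zero two_ne_zero hn1)]
        linarith
    exact ContinuousLinearMap.coe_injective h8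

theorem p_SPZ (hEV1 : Stmt_EV1) (_hSEC : Stmt_SEC) (hQUT : Stmt_QUT) (hSPS : Stmt_SPS)
    (hFPI : Stmt_FPI) (hSPY : Stmt_SPY) : Stmt_SPZ := by
  intro V _ _ _ J n ρ hJ hρ hρ0 hn hF l E hE
  have hper : NormedSpace.exp ((2 * Real.pi) • ρ (hq n l)) = 1 := by
    refine hQUT V J (ρ (hq n l)) (ρ ⟨Matrix.single l l qj, SPZ_mem0 l qj SPZ_star_qj⟩)
      (ρ ⟨Matrix.single l l qk, SPZ_mem0 l qk SPZ_star_qk⟩) hJ (hρ.sp _) ?_
    constructor
    · rw [← map_smul]
      refine (hρ.lie _ _ _ ?_).symm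
      exact (SPZ_brk l qi qj qk SPZ_ij).symm
    · rw [← map_smul]
      refine (hρ.lie _ _ _ ?_).symm
      exact (SPZ_brk l qj qk qi SPZ_jk).symm
    · rw [← map_smul]
      refine (hρ.lie _ _ _ ?_).symm
      exact (SPZ_brk l qk qi qj SPZ_ki).symm
  obtain ⟨k1, k2, k3, k4⟩ := SPZ_key hEV1 J (ρ (hq n l)) hJ (hρ.sp _) hper
  have hH0 : ρ (hq n l) ≠ 0 := by
    haveI : Nontrivial (Fin n) := Fin.nontrivial_iff_two_le.2 hn
    obtain ⟨q, hq'⟩ := exists_ne l
    exact (hSPS V J n ρ hρ hρ0 l q hq'.symm).2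
  have k5 : ∀ w, NormedSpace.exp (ρ (hq n l)) w = w → ρ (hq n l) w = 0 := by
    intro w hw
    have := k1 0 w ⟨0, by simp⟩ (by rw [hw]; simp)
    rw [this]
    simp
  have hg1 : NormedSpace.exp (ρ (hq n l)) ≠ 1 := by
    intro h
    apply hH0
    refine ContinuousLinearMap.ext fun w => ?_
    exact k5 w (by rw [h]; rfl)
  have hg2 : NormedSpace.exp (ρ (hq n l)) ≠ -1 := fun h => hH0 (k4 h)
  have hsub : IsLieSub J (LinearMap.range ρ) := by
    constructor
    · rintro _ ⟨X, rfl⟩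
      exact hρ.sp X
    · rintro _ ⟨X, rfl⟩ _ ⟨Y, rfl⟩
      exact ⟨⟨_, SPZ_lie _ _ X.2 Y.2⟩, hρ.lie X Y ⟨_, SPZ_lie _ _ X.2 Y.2⟩ rfl⟩
  have hEe : E = Module.End.eigenspace
      ((NormedSpace.exp (ρ (hq n l)) : V →L[ℂ] V) : V →ₗ[ℂ] V) 1 := by
    ext x
    rw [Module.End.mem_eigenspace_iff, hE, one_smul]
    exact ⟨fun h => k2 x h, fun h => k5 x h⟩
  have key := hFPI V J (LinearMap.range ρ) hJ hsub hF (ρ (hq n l)) ⟨_, rfl⟩ hg1 hg2 1
    (Or.inl rfl) E hEe
  refine key.trans (Nat.mul_le_mul_left 2 ?_)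
  refine le_trans ?_ (hSPY n l)
  have hle0 : spY n l ≤ spn n := fun X hX => hX.1
  have hle : (Cz (LinearMap.range ρ) (NormedSpace.exp (ρ (hq n l)))).map (rst E) ≤
      LinearMap.range ((rst E) ∘ₗ ρ ∘ₗ (Submodule.inclusion hle0)) := by
    rintro _ ⟨ζ, ⟨⟨X, rfl⟩, hc⟩, rfl⟩
    have hcomm : ρ (hq n l) * ρ X = ρ X * ρ (hq n l) := k3 _ hc
    have had : ∀ Z : spn n, ρ (SPZ_ad n l Z) = ρ (hq n l) * ρ Z - ρ Z * ρ (hq n l) := by
      intro Z
      exact hρ.lie _ _ _ rfl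
    have ha1 : ρ (SPZ_ad n l X) = 0 := by
      rw [had, hcomm, sub_self]
    have ha2 : ∀ Z : spn n, ρ Z = 0 → ρ (SPZ_ad n l Z) = 0 := by
      intro Z hZ
      rw [had, hZ, mul_zero, zero_mul, sub_zero]
    have hX0 : ρ (SPZ_X0 n l X) = ρ X := by
      rw [SPZ_X0, map_add, map_add, map_smul, map_smul, ha2 _ ha1, ha2 _ (ha2 _ (ha2 _ ha1)),
        smul_zero, smul_zero, add_zero, add_zero]
    obtain ⟨y, Y, hY, hXY⟩ := SPZ_dec n l X
    refine ⟨⟨Y, hY⟩, ?_⟩
    refine ContinuousLinearMap.ext fun x => ?_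
    change ρ ⟨(Y : HM n), _⟩ (x : V) = ρ X (x : V)
    rw [← hX0, hXY, map_add, map_smul]
    change _ = y • ρ (hq n l) (x : V) + ρ Y (x : V)
    rw [(hE (x : V)).1 x.2, smul_zero, zero_add]
  exact (Submodule.finrank_mono hle).trans (LinearMap.finrank_range_le _)

end MPa8bd83
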