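import Pool.Agent.Work.MP_a8bd83_qk.Interface2

/-! Block STA (helper55): strings on `k_C`. -/

set_option autoImplicit false

namespace MPa8bd83

open Module

/-- the operator `X ↦ E * X - X * E` -/
noncomputable def STA_ad {V : Type} [NormedAddCommGroup V] [InnerProductSpace ℂ V]
    (E : V →L[ℂ] V) : Module.End ℂ (V →L[ℂ] V) :=
  LinearMap.mulLeft ℂ E - LinearMap.mulRight ℂ E

theorem STA_ad_apply {V : Type} [NormedAddCommGroup V] [InnerProductSpace ℂ V]
    (E X : V →L[ℂ] V) : STA_ad E X = E * X - X * E := rfl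

theorem STA_comm {V : Type} [NormedAddCommGroup V] [InnerProductSpace ℂ V]
    (E F : V →L[ℂ] V) : STA_ad E * STA_ad F - STA_ad F * STA_ad E = STA_ad (E * F - F * E) := by
  refine LinearMap.ext fun X => ?_
  rw [LinearMap.sub_apply, Module.End.mul_apply, Module.End.mul_apply]
  simp only [STA_ad_apply]
  noncomm_ring

theorem STA_smul {V : Type} [NormedAddCommGroup V] [InnerProductSpace ℂ V]
    (c : ℂ) (E : V →L[ℂ] V) : STA_ad (c • E) = c • STA_ad E := by
  refine LinearMap.ext fun X => ?_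
  rw [LinearMap.smul_apply, STA_ad_apply, STA_ad_apply, smul_mul_assoc, mul_smul_comm, smul_sub]

theorem STA_pow {V : Type} [NormedAddCommGroup V] [InnerProductSpace ℂ V]
    [FiniteDimensional ℂ V] {J : V → V} {k t : Submodule ℝ (V →L[ℂ] V)} (h : Fac J k t)
    {α : Dual ℝ t} {E : V →L[ℂ] V} (hE : E ∈ Rt k t α) (i : ℕ) (γ : Dual ℝ t)
    {Y : V →L[ℂ] V} (hY : Y ∈ Rt k t γ) : ((STA_ad E) ^ i) Y ∈ Rt k t (γ + (i : ℝ) • α) := by
  induction i with
  | zero => simpa using hY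
  | succ i ih =>
    rw [pow_succ', Module.End.mul_apply, STA_ad_apply]
    have h1 := h.brk _ _ E hE _ ih
    have h2 : α + (γ + (i : ℝ) • α) = γ + ((i + 1 : ℕ) : ℝ) • α := by
      push_cast
      module
    rwa [h2] at h1

theorem p_STA (hSL2 : Stmt_SL2) : Stmt_STA := by
  intro V _ _ _ J k t h α τ E F hC β hβ
  have hfin : FiniteDimensional ℂ (V →L[ℂ] V) := inferInstance
  have hI : Complex.I * Complex.I = -1 := Complex.I_mul_I
  obtain ⟨X, hX, hX0⟩ := (Submodule.ne_bot_iff _).mp hβ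
  have hE2 := hC.memE.2 τ
  have hF2 := hC.memF.2 τ
  rw [hC.two] at hE2
  have hF2' : (τ : V →L[ℂ] V) * F - F * (τ : V →L[ℂ] V) = (-(2 * Complex.I)) • F := by
    rw [hF2]
    congr 1
    rw [LinearMap.neg_apply, hC.two]
    push_cast
    ring
  have eE : (E * F - F * E) * E - E * (E * F - F * E) = (2 : ℂ) • E := by
    rw [hC.br]
    have h1 : -(Complex.I • (τ : V →L[ℂ] V)) * E - E * -(Complex.I • (τ : V →L[ℂ] V))
        = -(Complex.I • ((τ : V →L[ℂ] V) * E - E * (τ : V →L[ℂ] V))) := by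
      rw [smul_sub, neg_mul, mul_neg, smul_mul_assoc, mul_smul_comm]
      abel
    rw [h1, hE2, smul_smul, ← neg_smul]
    congr 1
    push_cast
    linear_combination -2 * hI
  have eF : (E * F - F * E) * F - F * (E * F - F * E) = -((2 : ℂ) • F) := by
    rw [hC.br]
    have h1 : -(Complex.I • (τ : V →L[ℂ] V)) * F - F * -(Complex.I • (τ : V →L[ℂ] V))
        = -(Complex.I • ((τ : V →L[ℂ] V) * F - F * (τ : V →L[ℂ] V))) := by
      rw [smul_sub, neg_mul, mul_neg, smul_mul_assoc, mul_smul_comm]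
      abel
    rw [h1, hF2', smul_smul, ← neg_smul, ← neg_smul]
    congr 1
    linear_combination 2 * hI
  have hHX : (STA_ad E * STA_ad F - STA_ad F * STA_ad E) X = ((β τ : ℝ) : ℂ) • X := by
    rw [STA_comm, STA_ad_apply, hC.br]
    have h1 : -(Complex.I • (τ : V →L[ℂ] V)) * X - X * -(Complex.I • (τ : V →L[ℂ] V))
        = -(Complex.I • ((τ : V →L[ℂ] V) * X - X * (τ : V →L[ℂ] V))) := by
      rw [smul_sub, neg_mul, mul_neg, smul_mul_assoc, mul_smul_comm]
      abel
    rw [h1, hX.2 τ, smul_smul, ← neg_smul]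
    congr 1
    linear_combination (-(β τ : ℂ)) * hI
  obtain ⟨n, hn, h1, h2⟩ := hSL2 (V →L[ℂ] V) (STA_ad E) (STA_ad F)
    (STA_ad E * STA_ad F - STA_ad F * STA_ad E) rfl
    (by rw [STA_comm, STA_comm, eE, STA_smul])
    (by
      rw [STA_comm, STA_comm, eF, ← neg_smul, STA_smul]
      module) X _ hX0 hHX
  refine ⟨n, ?_, ?_, ?_⟩
  · exact_mod_cast hn
  · intro j hj
    obtain ⟨i, hi⟩ := h1 j hj
    refine (Submodule.ne_bot_iff _).mpr ⟨_, ?_, hi⟩
    have h3 := STA_pow h hC.memF (i + j) _ (STA_pow h hC.memE i β hX)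
    have h4 : β + (i : ℝ) • α + ((i + j : ℕ) : ℝ) • (-α) = β - (j : ℝ) • α := by
      push_cast
      module
    rwa [h4] at h3
  · intro j hj
    obtain ⟨i, hi⟩ := h2 j hj
    refine (Submodule.ne_bot_iff _).mpr ⟨_, ?_, hi⟩
    have h3 := STA_pow h hC.memE (i + j) _ (STA_pow h hC.memF i β hX)
    have h4 : β + (i : ℝ) • (-α) + ((i + j : ℕ) : ℝ) • α = β + (j : ℝ) • α := by
      push_cast
      module
    rwa [h4] at h3

end MPa8bd83
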