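import Pool.Agent.Work.MP_a8bd83_qk.Interface2

set_option autoImplicit false

namespace MPa8bd83

open Module

theorem STV_pow {V : Type} [NormedAddCommGroup V] [InnerProductSpace ℂ V] [FiniteDimensional ℂ V]
    {J : V → V} {k t : Submodule ℝ (V →L[ℂ] V)} (hf : Fac J k t) (α : Dual ℝ t)
    (X : V →L[ℂ] V) (hX : X ∈ Rt k t α) (w : Dual ℝ t) (u : V) (hu : u ∈ Wt t w) :
    ∀ n : ℕ, (((X : V →ₗ[ℂ] V) : Module.End ℂ V) ^ n) u ∈ Wt t (w + (n : ℝ) • α) := by
  intro n
  induction n with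
  | zero => simpa using hu
  | succ n ih =>
    rw [pow_succ', Module.End.mul_apply]
    have h := hf.act _ α X hX _ ih
    have e : w + (n : ℝ) • α + α = w + ((n + 1 : ℕ) : ℝ) • α := by
      push_cast
      module
    rw [e] at h
    exact h

theorem p_STV (hSL2 : Stmt_SL2) : Stmt_STV := by
  intro V _ _ _ J k t hf α τ E F hC w hw
  obtain ⟨u, hu, hu0⟩ := Submodule.exists_mem_ne_zero_of_ne_bot hw
  have hE := hC.memE.2 τ
  have hF := hC.memF.2 τ
  rw [hC.two] at hE
  have hF2 : ((-α : Dual ℝ t) τ) = -2 := by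
    rw [LinearMap.neg_apply, hC.two]
  rw [hF2] at hF
  have hEv : ∀ v : V, (τ : V →L[ℂ] V) (E v) - E ((τ : V →L[ℂ] V) v) =
      (((2 : ℝ) : ℂ) * Complex.I) • E v := by
    intro v
    have := congrArg (fun T : V →L[ℂ] V => T v) hE
    simpa using this
  have hFv : ∀ v : V, (τ : V →L[ℂ] V) (F v) - F ((τ : V →L[ℂ] V) v) =
      (((-2 : ℝ) : ℂ) * Complex.I) • F v := by
    intro v
    have := congrArg (fun T : V →L[ℂ] V => T v) hF
    simpa using this
  have hbr : ∀ v : V, E (F v) - F (E v) = -(Complex.I • (τ : V →L[ℂ] V) v) := by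
    intro v
    have := congrArg (fun T : V →L[ℂ] V => T v) hC.br
    simpa using this
  let E' : Module.End ℂ V := (E : V →ₗ[ℂ] V)
  let F' : Module.End ℂ V := (F : V →ₗ[ℂ] V)
  let T' : Module.End ℂ V := ((τ : V →L[ℂ] V) : V →ₗ[ℂ] V)
  have h1 : E' * F' - F' * E' = -(Complex.I • T') := by
    ext v
    exact hbr v
  have h2 : (-(Complex.I • T')) * E' - E' * (-(Complex.I • T')) = (2 : ℂ) • E' := by
    ext v
    change -(Complex.I • (τ : V →L[ℂ] V) (E v)) - E (-(Complex.I • (τ : V →L[ℂ] V) v)) =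
      (2 : ℂ) • E v
    rw [map_neg, map_smul]
    have : -(Complex.I • (τ : V →L[ℂ] V) (E v)) - -(Complex.I • E ((τ : V →L[ℂ] V) v)) =
        -(Complex.I • ((τ : V →L[ℂ] V) (E v) - E ((τ : V →L[ℂ] V) v))) := by
      rw [smul_sub]; abel
    rw [this, hEv, smul_smul, ← neg_smul]
    congr 1
    push_cast
    have := Complex.I_mul_I
    linear_combination (-2 : ℂ) * this
  have h3 : (-(Complex.I • T')) * F' - F' * (-(Complex.I • T')) = -((2 : ℂ) • F') := by
    ext v
    change -(Complex.I • (τ : V →L[ℂ] V) (F v)) - F (-(Complex.I • (τ : V →L[ℂ] V) v)) =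
      -((2 : ℂ) • F v)
    rw [map_neg, map_smul]
    have : -(Complex.I • (τ : V →L[ℂ] V) (F v)) - -(Complex.I • F ((τ : V →L[ℂ] V) v)) =
        -(Complex.I • ((τ : V →L[ℂ] V) (F v) - F ((τ : V →L[ℂ] V) v))) := by
      rw [smul_sub]; abel
    rw [this, hFv, smul_smul, ← neg_smul, ← neg_smul]
    congr 1
    push_cast
    have := Complex.I_mul_I
    linear_combination (2 : ℂ) * this
  have h4 : (-(Complex.I • T')) u = ((w τ : ℝ) : ℂ) • u := by
    change -(Complex.I • (τ : V →L[ℂ] V) u) = _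
    rw [hu τ, smul_smul, ← neg_smul]
    congr 1
    have := Complex.I_mul_I
    linear_combination (-(w τ : ℂ)) * this
  obtain ⟨n, hn, ha, hb⟩ := hSL2 V E' F' (-(Complex.I • T')) h1 h2 h3 u _ hu0 h4
  refine ⟨n, by exact_mod_cast hn, fun j hj => ?_, fun j hj => ?_⟩
  · obtain ⟨i, hi⟩ := ha j hj
    have m1 := STV_pow hf α E hC.memE w u hu i
    have m2 := STV_pow hf (-α) F hC.memF _ _ m1 (i + j)
    have e : w + (i : ℝ) • α + ((i + j : ℕ) : ℝ) • (-α) = w - (j : ℝ) • α := by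
      push_cast
      module
    rw [e] at m2
    intro hbot
    rw [hbot] at m2
    exact hi ((Submodule.mem_bot ℂ).1 m2)
  · obtain ⟨i, hi⟩ := hb j hj
    have m1 := STV_pow hf (-α) F hC.memF w u hu i
    have m2 := STV_pow hf α E hC.memE _ _ m1 (i + j)
    have e : w + (i : ℝ) • (-α) + ((i + j : ℕ) : ℝ) • α = w + (j : ℝ) • α := by
      push_cast
      module
    rw [e] at m2
    intro hbot
    rw [hbot] at m2
    exact hi ((Submodule.mem_bot ℂ).1 m2)

end MPa8bd83
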