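/-
MP_a8bd83_gt, block STX (helper94): strings in coordinates.
-/
import Pool.Agent.Work.MP_a8bd83_qk.Interface2

set_option autoImplicit false

namespace MPa8bd83

open Module

theorem STX_sa {W : Type} [AddCommGroup W] [Module ℝ W] (α β : W) (x y : ℤ) (j : ℕ) :
    pt α β x y - (j : ℝ) • α = pt α β (x - 2 * j) y := by
  unfold pt
  push_cast
  have : ((x : ℝ) - 2 * j) / 2 = (x : ℝ) / 2 - j := by ring
  rw [this, sub_smul]
  abel

theorem STX_aa {W : Type} [AddCommGroup W] [Module ℝ W] (α β : W) (x y : ℤ) (j : ℕ) :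
    pt α β x y + (j : ℝ) • α = pt α β (x + 2 * j) y := by
  unfold pt
  push_cast
  have : ((x : ℝ) + 2 * j) / 2 = (x : ℝ) / 2 + j := by ring
  rw [this, add_smul]
  abel

theorem STX_swap {W : Type} [AddCommGroup W] [Module ℝ W] (α β : W) (x y : ℤ) :
    pt α β x y = pt β α y x := by
  unfold pt
  exact add_comm _ _

theorem STX_core {V : Type} [NormedAddCommGroup V] [InnerProductSpace ℂ V]
    (t : Submodule ℝ (V →L[ℂ] V)) (α β : Dual ℝ t) (x y : ℤ) (n : ℤ) (hn : (x : ℝ) = (n : ℝ))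
    (h1 : ∀ j : ℕ, (j : ℤ) ≤ n → IsWt t (pt α β x y - (j : ℝ) • α))
    (h2 : ∀ j : ℕ, (j : ℤ) ≤ -n → IsWt t (pt α β x y + (j : ℝ) • α)) :
    ∀ x' : ℤ, |x'| ≤ |x| → 2 ∣ x - x' → IsWt t (pt α β x' y) := by
  have hn' : x = n := by exact_mod_cast hn
  subst hn'
  intro x' hx hd
  obtain ⟨c, hc⟩ := hd
  rcases le_or_gt 0 x with h0 | h0
  · rw [abs_of_nonneg h0] at hx
    have hx1 := (abs_le.mp hx).1
    have hx2 := (abs_le.mp hx).2
    have hc0 : 0 ≤ c := by omega
    lift c to ℕ using hc0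
    have := h1 c (by omega)
    rw [STX_sa] at this
    have e : x - 2 * (c : ℤ) = x' := by omega
    rw [e] at this
    exact this
  · rw [abs_of_neg h0] at hx
    have hx1 := (abs_le.mp hx).1
    have hx2 := (abs_le.mp hx).2
    have hc0 : 0 ≤ -c := by omega
    obtain ⟨d, hd⟩ := Int.eq_ofNat_of_zero_le hc0
    have := h2 d (by omega)
    rw [STX_aa] at this
    have e : x + 2 * (d : ℤ) = x' := by omega
    rw [e] at this
    exact this

theorem p_STX (hS : Stmt_STV) (hC : Stmt_CRD) : Stmt_STX := by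
  intro V _ _ _ J k t hF α β τ σ hP x y hw
  obtain ⟨E, F, hE⟩ := hP.ca
  obtain ⟨E', F', hE'⟩ := hP.cb
  have hc := (hC V J k t hF α β τ σ hP).1
  constructor
  · obtain ⟨n, hn, h1, h2⟩ := hS V J k t hF α τ E F hE _ hw
    rw [(hc x y).1] at hn
    exact STX_core t α β x y n hn h1 h2
  · obtain ⟨n, hn, h1, h2⟩ := hS V J k t hF β σ E' F' hE' _ hw
    rw [(hc x y).2] at hn
    intro y' hy hd
    have := STX_core t β α y x n hn (by
      intro j hj
      rw [STX_swap β α]
      exact h1 j hj) (by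
      intro j hj
      rw [STX_swap β α]
      exact h2 j hj) y' hy hd
    rw [STX_swap α β]
    exact this

end MPa8bd83
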