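import Pool.Agent.Work.MP_a8bd83_qk.Interface

/-!
MP_a8bd83_gt, block SU2W (typed by helper45).
-/

set_option autoImplicit false

namespace MPa8bd83

open Module

section SU2W

variable {V : Type} [NormedAddCommGroup V] [InnerProductSpace ℂ V]

/-- The eigenspace `{v : η v = i a v}`. -/
def SU2W_W (η : V →L[ℂ] V) (a : ℝ) : Submodule ℂ V where
  carrier := {v | η v = ((a : ℂ) * Complex.I) • v}
  add_mem' := by
    intro x y hx hy
    have hx' : η x = ((a : ℂ) * Complex.I) • x := hx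
    have hy' : η y = ((a : ℂ) * Complex.I) • y := hy
    show η (x + y) = ((a : ℂ) * Complex.I) • (x + y)
    rw [map_add, hx', hy', smul_add]
  zero_mem' := by
    show η 0 = ((a : ℂ) * Complex.I) • (0 : V)
    rw [map_zero, smul_zero]
  smul_mem' := by
    intro c x hx
    have hx' : η x = ((a : ℂ) * Complex.I) • x := hx
    show η (c • x) = ((a : ℂ) * Complex.I) • (c • x)
    rw [map_smul, hx', smul_comm]

theorem SU2W_mem {η : V →L[ℂ] V} {a : ℝ} {v : V} :
    v ∈ SU2W_W η a ↔ η v = ((a : ℂ) * Complex.I) • v := Iff.rfl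

/-- The data used in the proof. -/
structure SU2W_D (J : V → V) (η E E' : V →L[ℂ] V) : Prop where
  quat : IsQuatStr J
  spn : ∀ x : V, x ∈ Submodule.span ℂ {v : V | ∃ a : ℝ, v ∈ SU2W_W η a}
  orth : ∀ (a b : ℝ) (u v : V), a ≠ b → u ∈ SU2W_W η a → v ∈ SU2W_W η b → inner ℂ u v = 0
  jw : ∀ (a : ℝ) (v : V), v ∈ SU2W_W η a → J v ∈ SU2W_W η (-a)
  exp : ∀ (a s : ℝ) (v : V), v ∈ SU2W_W η a →
    NormedSpace.exp (s • η) v = Complex.exp (((s * a : ℝ) : ℂ) * Complex.I) • v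
  e1 : ∀ (a : ℝ) (v : V), v ∈ SU2W_W η a → E v ∈ SU2W_W η (a + 2)
  e2 : ∀ (a : ℝ) (v : V), v ∈ SU2W_W η a → E' v ∈ SU2W_W η (a - 2)
  int : ∀ (a : ℝ) (v : V), v ≠ 0 → v ∈ SU2W_W η a → ∃ n : ℤ, a = n
  dn : ∀ (a : ℝ) (v : V), v ≠ 0 → v ∈ SU2W_W η a → 0 < a → E' v ≠ 0
  sym : ∀ u v : V, inner ℂ (J u) (E v) = inner ℂ (J v) (E u)
  sym' : ∀ u v : V, inner ℂ (J u) (E' v) = inner ℂ (J v) (E' u)
  ne : E ≠ 0
  key : ∀ x : V, x ≠ 0 → inner ℂ x (η x) = 0 → inner ℂ (J x) (η x) = 0 → inner ℂ x (E x) = 0 →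
    inner ℂ (J x) (E x) = 0 → inner ℂ (J x) (E' x) = 0 → ∀ (s : ℝ) (z : ℂ),
    NormedSpace.exp (s • η) x = z • x → ∀ (c : ℝ) (v : V), v ≠ 0 → v ∈ SU2W_W η c →
      ∃ n : ℤ, s * c = n * Real.pi

theorem SU2W_flip {J : V → V} (hJ : IsQuatStr J) (p q : V) :
    inner ℂ (J q) p = -inner ℂ (J p) q := by
  have h := hJ.inner p (J q)
  rw [hJ.sq, inner_neg_right] at h
  exact h.symm

theorem SU2W_self {J : V → V} (hJ : IsQuatStr J) (p : V) : inner ℂ (J p) p = 0 := by
  have h := SU2W_flip hJ p p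
  have h2 : (2 : ℂ) * inner ℂ (J p) p = 0 := by linear_combination h
  rcases mul_eq_zero.mp h2 with h3 | h3
  · norm_num at h3
  · exact h3

theorem SU2W_J0 {J : V → V} (hJ : IsQuatStr J) {e : V} (he : e ≠ 0) : J e ≠ 0 := by
  intro h
  have h1 := hJ.sq e
  rw [h] at h1
  have h2 : J (0 : V) = 0 := by
    have := hJ.smul 0 (0 : V)
    simpa using this
  rw [h2] at h1
  exact he (neg_eq_zero.mp h1.symm)

theorem SU2W_inner_self (e : V) : inner ℂ e e = ((‖e‖ ^ 2 : ℝ) : ℂ) := by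
  rw [inner_self_eq_norm_sq_to_K]
  push_cast
  rfl

theorem SU2W_Jnorm {J : V → V} (hJ : IsQuatStr J) (e : V) : ‖J e‖ = ‖e‖ := by
  have h := hJ.inner e e
  rw [SU2W_inner_self, SU2W_inner_self] at h
  have h2 : ‖J e‖ ^ 2 = ‖e‖ ^ 2 := by exact_mod_cast h
  exact (pow_left_inj₀ (norm_nonneg _) (norm_nonneg _) two_ne_zero).1 h2

variable {J : V → V} {η E E' : V →L[ℂ] V}

/-- The main computation. -/
theorem SU2W_key (D : SU2W_D J η E E') {a b : ℝ} (hab : 2 < a - b) {p q : V}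
    (hp : p ∈ SU2W_W η a) (hq : q ∈ SU2W_W η b)
    (h0 : a * ‖p‖ ^ 2 + b * ‖q‖ ^ 2 = 0) (h1 : inner ℂ (J p) q = 0)
    (h2 : inner ℂ (J p) (E p) = 0) (h3 : inner ℂ (J p) (E q) = 0)
    (h4 : inner ℂ (J q) (E q) = 0) (h5 : inner ℂ (J p) (E' p) = 0)
    (h6 : inner ℂ (J p) (E' q) = 0) (h7 : inner ℂ (J q) (E' q) = 0)
    (v : V) (hv : v ≠ 0) (hv1 : v ∈ SU2W_W η 1) : p = 0 := by
  by_contra hp0
  have hJ := D.quat
  have hpq : inner ℂ p q = 0 := D.orth a b p q (by intro h; rw [h] at hab; linarith) hp hq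
  have hqp : inner ℂ q p = 0 := by rw [← inner_conj_symm, hpq, map_zero]
  have hηx : η (p + q) = ((a : ℂ) * Complex.I) • p + ((b : ℂ) * Complex.I) • q := by
    rw [map_add, SU2W_mem.1 hp, SU2W_mem.1 hq]
  have hx0 : p + q ≠ 0 := by
    intro h
    have h8 : inner ℂ p (p + q) = 0 := by rw [h, inner_zero_right]
    rw [inner_add_right, hpq, add_zero] at h8
    exact hp0 (inner_self_eq_zero.1 h8)
  have hexp : NormedSpace.exp ((2 * Real.pi / (a - b)) • η) (p + q) =
      Complex.exp (((2 * Real.pi / (a - b) * b : ℝ) : ℂ) * Complex.I) • (p + q) := by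
    rw [map_add, D.exp a _ p hp, D.exp b _ q hq, smul_add]
    congr 2
    have h8 : ((2 * Real.pi / (a - b) * a : ℝ) : ℂ) * Complex.I =
        ((2 * Real.pi / (a - b) * b : ℝ) : ℂ) * Complex.I + 2 * (Real.pi : ℂ) * Complex.I := by
      have h9 : 2 * Real.pi / (a - b) * a = 2 * Real.pi / (a - b) * b + 2 * Real.pi := by
        have : a - b ≠ 0 := by linarith
        field_simp
        ring
      rw [h9]
      push_cast
      ring
    rw [h8, Complex.exp_add, Complex.exp_two_pi_mul_I, mul_one]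
  obtain ⟨n, hn⟩ := D.key (p + q) hx0 (by
      rw [hηx]
      simp only [inner_add_left, inner_add_right, inner_smul_right, hpq, hqp, SU2W_inner_self]
      have h8 : (a : ℂ) * ((‖p‖ ^ 2 : ℝ) : ℂ) + b * ((‖q‖ ^ 2 : ℝ) : ℂ) = 0 := by
        exact_mod_cast h0
      linear_combination Complex.I * h8) (by
      rw [hηx, hJ.add]
      simp only [inner_add_left, inner_add_right, inner_smul_right, SU2W_self hJ, h1,
        SU2W_flip hJ p q]
      ring) (by
      rw [map_add]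
      simp only [inner_add_left, inner_add_right]
      rw [D.orth a (a + 2) p (E p) (by intro h; linarith) hp (D.e1 a p hp),
        D.orth a (b + 2) p (E q) (by intro h; linarith) hp (D.e1 b q hq),
        D.orth b (a + 2) q (E p) (by intro h; linarith) hq (D.e1 a p hp),
        D.orth b (b + 2) q (E q) (by intro h; linarith) hq (D.e1 b q hq)]
      ring) (by
      rw [map_add, hJ.add]
      simp only [inner_add_left, inner_add_right]
      rw [D.sym q p, h2, h3, h4]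
      ring) (by
      rw [map_add, hJ.add]
      simp only [inner_add_left, inner_add_right]
      rw [D.sym' q p, h5, h6, h7]
      ring) (2 * Real.pi / (a - b)) _ hexp 1 v hv hv1
  have h8 : (2 : ℝ) = n * (a - b) := by
    have h9 : a - b ≠ 0 := by linarith
    have hpi := Real.pi_pos
    have h10 : Real.pi * 2 = Real.pi * (n * (a - b)) := by
      calc Real.pi * 2 = (2 * Real.pi / (a - b) * 1) * (a - b) := by field_simp
        _ = Real.pi * (n * (a - b)) := by rw [hn]; ring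
    exact mul_left_cancel₀ hpi.ne' h10
  rcases le_or_gt n 0 with hn0 | hn0
  · have h9 : (n : ℝ) ≤ 0 := by exact_mod_cast hn0
    nlinarith
  · have h9 : (1 : ℝ) ≤ n := by exact_mod_cast hn0
    nlinarith

/-- Zero is not an eigenvalue. -/
theorem SU2W_zero (D : SU2W_D J η E E') (e : V) (he0 : e ∈ SU2W_W η 0) : e = 0 := by
  by_contra he
  have hJ := D.quat
  have hηe : η e = 0 := by
    rw [SU2W_mem.1 he0]
    simp
  have hJe : J e ∈ SU2W_W η 0 := by
    have h := D.jw 0 e he0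
    rwa [neg_zero] at h
  have hall : ∀ (c : ℝ) (v : V), v ≠ 0 → v ∈ SU2W_W η c → c = 0 := by
    intro c v hv hvc
    by_contra hc
    obtain ⟨n, hn⟩ := D.key e he (by rw [hηe, inner_zero_right]) (by rw [hηe, inner_zero_right])
      (D.orth 0 (0 + 2) e (E e) (by norm_num) he0 (D.e1 0 e he0))
      (D.orth 0 (0 + 2) (J e) (E e) (by norm_num) hJe (D.e1 0 e he0))
      (D.orth 0 (0 - 2) (J e) (E' e) (by norm_num) hJe (D.e2 0 e he0)) (1 / c) _
      (D.exp 0 (1 / c) e he0) c v hv hvc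
    have h1 : 1 / c * c = 1 := by field_simp
    rw [h1] at hn
    have hp := Real.pi_gt_three
    rcases lt_trichotomy n 0 with hn0 | hn0 | hn0
    · have : (n : ℝ) ≤ -1 := by exact_mod_cast Int.le_sub_one_of_lt hn0
      nlinarith
    · rw [hn0] at hn
      norm_num at hn
    · have : (1 : ℝ) ≤ n := by exact_mod_cast hn0
      nlinarith
  apply D.ne
  ext x
  have hx := D.spn x
  induction hx using Submodule.span_induction with
  | mem y hy =>
    obtain ⟨a, ha⟩ := hy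
    by_contra hEy
    have hEy' : E y ≠ 0 := hEy
    have hy0 : y ≠ 0 := by
      intro h
      rw [h, map_zero] at hEy'
      exact hEy' rfl
    have h1 := hall a y hy0 ha
    have h2 := hall (a + 2) (E y) hEy' (D.e1 a y ha)
    linarith
  | zero => simp
  | add y z _ _ hy hz' => simp only [map_add, hy, hz']
  | smul c y _ hy => simp only [map_smul, hy]

/-- `n` is an eigenvalue. -/
def SU2W_P (η : V →L[ℂ] V) (n : ℕ) : Prop := ∃ v : V, v ≠ 0 ∧ v ∈ SU2W_W η (n : ℝ)

theorem SU2W_down (D : SU2W_D J η E E') (n : ℕ) (h : SU2W_P η (n + 2)) : SU2W_P η n := by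
  obtain ⟨v, hv, hv1⟩ := h
  refine ⟨E' v, D.dn _ v hv hv1 (by positivity), ?_⟩
  have h := D.e2 _ v hv1
  have e : (((n + 2 : ℕ) : ℝ) - 2) = (n : ℝ) := by push_cast; ring
  rwa [e] at h

theorem SU2W_downs (D : SU2W_D J η E E') (n j : ℕ) (h : SU2W_P η (n + 2 * j)) : SU2W_P η n := by
  induction j with
  | zero => exact h
  | succ j ih => exact ih (SU2W_down D _ (by
      have e : n + 2 * (j + 1) = n + 2 * j + 2 := by ring
      rwa [e] at h))

theorem SU2W_odd (D : SU2W_D J η E E') (n : ℕ) (h : SU2W_P η n) : ∃ j, n = 2 * j + 1 := by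
  rcases Nat.even_or_odd n with he | ho
  · exfalso
    obtain ⟨j, hj⟩ := he
    have h1 : SU2W_P η 0 := SU2W_downs D 0 j (by
      have e : 0 + 2 * j = n := by omega
      rwa [e])
    obtain ⟨v, hv, hv1⟩ := h1
    rw [Nat.cast_zero] at hv1
    exact hv (SU2W_zero D v hv1)
  · exact ho

theorem SU2W_nat (D : SU2W_D J η E E') (a : ℝ) (v : V) (hv : v ≠ 0) (hva : v ∈ SU2W_W η a) :
    ∃ n : ℕ, SU2W_P η n ∧ (a = n ∨ a = -n) := by
  obtain ⟨z, hz⟩ := D.int a v hv hva
  rcases Int.eq_nat_or_neg z with ⟨n, hn | hn⟩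
  · refine ⟨n, ⟨v, hv, ?_⟩, Or.inl ?_⟩
    · rw [hz, hn] at hva
      exact_mod_cast hva
    · rw [hz, hn]
      simp
  · refine ⟨n, ⟨J v, SU2W_J0 D.quat hv, ?_⟩, Or.inr ?_⟩
    · have h := D.jw a v hva
      have e : -a = (n : ℝ) := by
        rw [hz, hn]
        simp
      rwa [e] at h
    · rw [hz, hn]
      simp

theorem SU2W_le1 [FiniteDimensional ℂ V] (D : SU2W_D J η E E') (hP1 : SU2W_P η 1) (a : ℝ)
    (ha : 3 ≤ a) : finrank ℂ (SU2W_W η a) ≤ 1 := by
  by_contra hcon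
  push Not at hcon
  obtain ⟨v, hv, hv1⟩ := hP1
  rw [Nat.cast_one] at hv1
  set b := stdOrthonormalBasis ℂ (SU2W_W η a) with hb
  have hon := b.orthonormal
  obtain ⟨e, he⟩ : ∃ e : V, e = (b ⟨0, by omega⟩ : V) := ⟨_, rfl⟩
  obtain ⟨e', he'⟩ : ∃ e' : V, e' = (b ⟨1, by omega⟩ : V) := ⟨_, rfl⟩
  have hee : e ∈ SU2W_W η a := he ▸ (b ⟨0, by omega⟩).2
  have hee' : e' ∈ SU2W_W η a := he' ▸ (b ⟨1, by omega⟩).2
  have hn : ‖e‖ = 1 := by rw [he]; exact hon.1 _
  have hn' : ‖e'‖ = 1 := by rw [he']; exact hon.1 _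
  have ho : inner ℂ e' e = 0 := by
    rw [he, he']
    exact hon.2 (by simp)
  have hJe' := D.jw a e' hee'
  have hJe := D.jw a e hee
  have hJJ := D.jw (-a) _ hJe'
  have h := SU2W_key D (a := a) (b := -a) (by linarith) hee hJe'
    (by rw [SU2W_Jnorm D.quat, hn, hn']; ring) (by rw [D.quat.inner, ho])
    (D.orth _ _ _ _ (by intro h; linarith) hJe (D.e1 _ _ hee))
    (D.orth _ _ _ _ (by intro h; linarith) hJe (D.e1 _ _ hJe'))
    (D.orth _ _ _ _ (by intro h; linarith) hJJ (D.e1 _ _ hJe'))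
    (D.orth _ _ _ _ (by intro h; linarith) hJe (D.e2 _ _ hee))
    (D.orth _ _ _ _ (by intro h; linarith) hJe (D.e2 _ _ hJe'))
    (D.orth _ _ _ _ (by intro h; linarith) hJJ (D.e2 _ _ hJe')) v hv hv1
  rw [h, norm_zero] at hn
  exact zero_ne_one hn

theorem SU2W_no7 (D : SU2W_D J η E E') : ¬ SU2W_P η 7 := by
  intro h7
  have h3 : SU2W_P η 3 := SU2W_downs D 3 2 h7
  obtain ⟨v, hv, hv1⟩ : SU2W_P η 1 := SU2W_downs D 1 1 h3
  rw [Nat.cast_one] at hv1
  obtain ⟨e, he, he7⟩ := h7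
  obtain ⟨f, hf, hf3⟩ := h3
  have he7' : e ∈ SU2W_W η (7 : ℝ) := by exact_mod_cast he7
  have hf3' : f ∈ SU2W_W η (3 : ℝ) := by exact_mod_cast hf3
  have hen : 0 < ‖e‖ := norm_pos_iff.2 he
  have hfn : 0 < ‖f‖ := norm_pos_iff.2 hf
  set x : ℝ := Real.sqrt 3 * ‖f‖ with hx
  set y : ℝ := Real.sqrt 7 * ‖e‖ with hy
  have hx2 : x ^ 2 = 3 * ‖f‖ ^ 2 := by rw [hx, mul_pow, Real.sq_sqrt (by norm_num)]
  have hy2 : y ^ 2 = 7 * ‖e‖ ^ 2 := by rw [hy, mul_pow, Real.sq_sqrt (by norm_num)]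
  have hx0 : 0 < x := by positivity
  have hp : (x : ℂ) • e ∈ SU2W_W η (7 : ℝ) := Submodule.smul_mem _ _ he7'
  have hJf := D.jw 3 f hf3'
  have hq : (y : ℂ) • J f ∈ SU2W_W η (-3 : ℝ) := Submodule.smul_mem _ _ hJf
  have hJp := D.jw _ _ hp
  have hJq := D.jw _ _ hq
  have h := SU2W_key D (a := 7) (b := -3) (by norm_num) hp hq (by
      rw [norm_smul, norm_smul, SU2W_Jnorm D.quat, mul_pow, mul_pow, Complex.norm_real,
        Complex.norm_real, Real.norm_eq_abs, Real.norm_eq_abs, sq_abs, sq_abs, hx2, hy2]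
      ring)
    (D.orth _ _ _ _ (by norm_num) hJp hq)
    (D.orth _ _ _ _ (by norm_num) hJp (D.e1 _ _ hp))
    (D.orth _ _ _ _ (by norm_num) hJp (D.e1 _ _ hq))
    (D.orth _ _ _ _ (by norm_num) hJq (D.e1 _ _ hq))
    (D.orth _ _ _ _ (by norm_num) hJp (D.e2 _ _ hp))
    (D.orth _ _ _ _ (by norm_num) hJp (D.e2 _ _ hq))
    (D.orth _ _ _ _ (by norm_num) hJq (D.e2 _ _ hq)) v hv hv1
  rcases smul_eq_zero.1 h with h8 | h8
  · exact hx0.ne' (by exact_mod_cast h8)
  · exact he h8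

theorem SU2W_neg [FiniteDimensional ℂ V] (D : SU2W_D J η E E') (a : ℝ) :
    finrank ℂ (SU2W_W η (-a)) ≤ finrank ℂ (SU2W_W η a) := by
  set b := stdOrthonormalBasis ℂ (SU2W_W η (-a)) with hb
  have hon := b.orthonormal
  let g : Fin (finrank ℂ (SU2W_W η (-a))) → SU2W_W η a := fun i => ⟨J (b i : V), by
    have h := D.jw (-a) _ (b i).2
    rwa [neg_neg] at h⟩
  have hg : Orthonormal ℂ g := by
    constructor
    · intro i
      have h1 : ‖g i‖ = ‖J (b i : V)‖ := rfl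
      rw [h1, SU2W_Jnorm D.quat]
      exact hon.1 i
    · intro i j hij
      have h1 : inner ℂ (g i) (g j) = inner ℂ (J (b i : V)) (J (b j : V)) := rfl
      rw [h1, D.quat.inner]
      exact hon.2 (Ne.symm hij)
  have h := hg.linearIndependent.fintype_card_le_finrank
  rwa [Fintype.card_fin] at h

theorem SU2W_dim [FiniteDimensional ℂ V] (D : SU2W_D J η E E') (hP1 : SU2W_P η 1) :
    finrank ℂ V ≤ 2 * finrank ℂ (SU2W_W η 1) + 4 := by
  have htop : (SU2W_W η 1 ⊔ SU2W_W η (-1)) ⊔ (SU2W_W η 3 ⊔ SU2W_W η (-3)) ⊔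
      (SU2W_W η 5 ⊔ SU2W_W η (-5)) = ⊤ := by
    rw [eq_top_iff]
    intro x _
    have hx := D.spn x
    refine (Submodule.span_le.2 ?_) hx
    rintro v ⟨a, ha⟩
    by_cases hv : v = 0
    · rw [hv]
      exact Submodule.zero_mem _
    · obtain ⟨n, hn, hna⟩ := SU2W_nat D a v hv ha
      obtain ⟨j, hj⟩ := SU2W_odd D n hn
      have hn7 : n < 7 := by
        by_contra hcon
        exact SU2W_no7 D (SU2W_downs D 7 (j - 3) (by
          have e : 7 + 2 * (j - 3) = n := by omega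
          rwa [e]))
      have hn3 : n = 1 ∨ n = 3 ∨ n = 5 := by omega
      rcases hn3 with rfl | rfl | rfl
      · refine Submodule.mem_sup_left (Submodule.mem_sup_left ?_)
        rcases hna with rfl | rfl
        · exact Submodule.mem_sup_left (by exact_mod_cast ha)
        · exact Submodule.mem_sup_right (by exact_mod_cast ha)
      · refine Submodule.mem_sup_left (Submodule.mem_sup_right ?_)
        rcases hna with rfl | rfl
        · exact Submodule.mem_sup_left (by exact_mod_cast ha)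
        · exact Submodule.mem_sup_right (by exact_mod_cast ha)
      · refine Submodule.mem_sup_right ?_
        rcases hna with rfl | rfl
        · exact Submodule.mem_sup_left (by exact_mod_cast ha)
        · exact Submodule.mem_sup_right (by exact_mod_cast ha)
  have h1 : finrank ℂ V = finrank ℂ (⊤ : Submodule ℂ V) := (finrank_top ℂ V).symm
  rw [h1, ← htop]
  have a1 := Submodule.finrank_add_le_finrank_add_finrank
    ((SU2W_W η 1 ⊔ SU2W_W η (-1)) ⊔ (SU2W_W η 3 ⊔ SU2W_W η (-3))) (SU2W_W η 5 ⊔ SU2W_W η (-5))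
  have a2 := Submodule.finrank_add_le_finrank_add_finrank
    (SU2W_W η 1 ⊔ SU2W_W η (-1)) (SU2W_W η 3 ⊔ SU2W_W η (-3))
  have a3 := Submodule.finrank_add_le_finrank_add_finrank (SU2W_W η 1) (SU2W_W η (-1))
  have a4 := Submodule.finrank_add_le_finrank_add_finrank (SU2W_W η 3) (SU2W_W η (-3))
  have a5 := Submodule.finrank_add_le_finrank_add_finrank (SU2W_W η 5) (SU2W_W η (-5))
  have b1 := SU2W_neg D 1
  have b3 := SU2W_neg D 3
  have b5 := SU2W_neg D 5
  have c3 := SU2W_le1 D hP1 3 le_rfl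
  have c5 := SU2W_le1 D hP1 5 (by norm_num)
  omega

/-- 3 is not an eigenvalue. -/
theorem SU2W_no3 [FiniteDimensional ℂ V] (D : SU2W_D J η E E') (hISP : Stmt_ISP)
    (h3 : 3 ≤ finrank ℂ (SU2W_W η 1)) : ¬ SU2W_P η 3 := by
  intro hP
  obtain ⟨v, hv, hv1⟩ : SU2W_P η 1 := SU2W_downs D 1 1 hP
  rw [Nat.cast_one] at hv1
  obtain ⟨f, hf, hf3⟩ := hP
  have hf3' : f ∈ SU2W_W η (3 : ℝ) := by exact_mod_cast hf3
  have hfn : 0 < ‖f‖ := norm_pos_iff.2 hf
  have he : J f ∈ SU2W_W η (-3 : ℝ) := D.jw 3 f hf3'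
  obtain ⟨u, hu, hun, hφ, hB⟩ := (hISP V (fun u v => inner ℂ (J u) (E' v)) D.sym'
    (fun u v v' => by
      show inner ℂ (J u) (E' (v + v')) = inner ℂ (J u) (E' v) + inner ℂ (J u) (E' v')
      rw [map_add, inner_add_right])
    (fun c u v => by
      show inner ℂ (J u) (E' (c • v)) = c * inner ℂ (J u) (E' v)
      rw [map_smul, inner_smul_right])).2.2 (SU2W_W η 1)
      (((innerSL ℂ (J (J f))).comp E : V →L[ℂ] ℂ) : V →ₗ[ℂ] ℂ) h3
  have hφ' : inner ℂ (J (J f)) (E u) = 0 := hφ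
  have hB' : inner ℂ (J u) (E' u) = 0 := hB
  set x : ℝ := Real.sqrt 3 * ‖f‖ with hx
  have hx2 : x ^ 2 = 3 * ‖f‖ ^ 2 := by rw [hx, mul_pow, Real.sq_sqrt (by norm_num)]
  have hx0 : 0 < x := by positivity
  have hp : (x : ℂ) • u ∈ SU2W_W η (1 : ℝ) := Submodule.smul_mem _ _ hu
  have hJp := D.jw _ _ hp
  have hJq := D.jw _ _ he
  have hJs : ∀ w : V, J ((x : ℂ) • w) = (x : ℂ) • J w := fun w => by
    rw [D.quat.smul, Complex.conj_ofReal]
  have h := SU2W_key D (a := 1) (b := -3) (by norm_num) hp he (by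
      rw [norm_smul, SU2W_Jnorm D.quat, mul_pow, Complex.norm_real, Real.norm_eq_abs, sq_abs, hx2,
        hun]
      ring)
    (D.orth _ _ _ _ (by norm_num) hJp he)
    (D.orth _ _ _ _ (by norm_num) hJp (D.e1 _ _ hp))
    (by
      rw [hJs, inner_smul_left, D.sym u (J f), hφ', mul_zero])
    (D.orth _ _ _ _ (by norm_num) hJq (D.e1 _ _ he))
    (by
      rw [hJs, map_smul, inner_smul_left, inner_smul_right, hB', mul_zero, mul_zero])
    (D.orth _ _ _ _ (by norm_num) hJp (D.e2 _ _ he))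
    (D.orth _ _ _ _ (by norm_num) hJq (D.e2 _ _ he)) v hv hv1
  rcases smul_eq_zero.1 h with h8 | h8
  · exact hx0.ne' (by exact_mod_cast h8)
  · rw [h8, norm_zero] at hun
    exact zero_ne_one hun

theorem SU2W_main [FiniteDimensional ℂ V] (D : SU2W_D J η E E') (hISP : Stmt_ISP) (N : ℕ)
    (hN : finrank ℂ V = 2 * N) (hN5 : 5 ≤ N) (b : ℝ) (v : V) (hv : v ≠ 0)
    (hvb : v ∈ SU2W_W η b) : b = 1 ∨ b = -1 := by
  obtain ⟨n, hn, hnb⟩ := SU2W_nat D b v hv hvb
  obtain ⟨j, hj⟩ := SU2W_odd D n hn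
  have hP1 : SU2W_P η 1 := SU2W_downs D 1 j (by
    have e : 1 + 2 * j = n := by omega
    rwa [e])
  have h1 := SU2W_dim D hP1
  have h3 : ¬ SU2W_P η 3 := SU2W_no3 D hISP (by omega)
  have hn1 : n = 1 := by
    by_contra hcon
    exact h3 (SU2W_downs D 3 (j - 1) (by
      have e : 3 + 2 * (j - 1) = n := by omega
      rwa [e]))
  rw [hn1, Nat.cast_one] at hnb
  exact hnb

end SU2W

theorem SU2W : Stmt_SU2W := by
  intro V _ _ _ _ J k η E N hJ hD hfree hN hN5 hEV hSLZ hSZC hISP b v hv hvb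
  have hD' := hD
  obtain ⟨hηk, hsp, -, hE0, hbr, -, hsym, hJE, -⟩ := hD
  obtain ⟨hspan, horth, hJe, hexp, hpi⟩ := hEV V J η hJ hsp
  have D : SU2W_D J η E (ContinuousLinearMap.adjoint E) :=
    { quat := hJ
      spn := hspan
      orth := horth
      jw := hJe
      exp := hexp
      e1 := fun a v hv => by
        by_cases h0 : v = 0
        · rw [h0, map_zero]
          exact Submodule.zero_mem _
        · exact (hSLZ V J k η E hJ hD' a v h0 hv).2.1
      e2 := fun a v hv => by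
        by_cases h0 : v = 0
        · rw [h0, map_zero]
          exact Submodule.zero_mem _
        · exact (hSLZ V J k η E hJ hD' a v h0 hv).2.2.1
      int := fun a v h0 hv => (hSLZ V J k η E hJ hD' a v h0 hv).1
      dn := fun a v h0 hv ha => (hSLZ V J k η E hJ hD' a v h0 hv).2.2.2 ha
      sym := hsym
      sym' := fun u v => by
        have h1 : ∀ w : V, (ContinuousLinearMap.adjoint E) w = J (E (J w)) := by
          intro w
          have h2 := hJE (J w)
          rw [hJ.sq, map_neg, neg_neg] at h2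
          exact h2.symm
        have h3 : ∀ u v : V, inner ℂ (J u) ((ContinuousLinearMap.adjoint E) v) =
            -(starRingEnd ℂ) (inner ℂ (J (J u)) (E (J v))) := by
          intro u v
          rw [h1, hJ.inner, hJ.sq, inner_neg_left, map_neg, neg_neg, inner_conj_symm]
        rw [h3, h3, hsym (J u) (J v)]
      ne := hE0
      key := fun x hx0 c1 c2 c3 c4 c5 s z hz c v hv hvc => by
        have hmz := hSZC V J k η E hJ hD' x c1 c2 c3 c4 c5
        have h1 := hfree x hx0 hmz (s • η) (k.smul_mem s hηk) (by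
          rw [hz]
          exact Submodule.smul_mem _ _ (Submodule.subset_span (by simp)))
        exact hpi s h1 c v hv hvc }
  exact SU2W_main D hISP N hN hN5 b v hv hvb

end MPa8bd83
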