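import Pool.Agent.Work.MP_a8bd83_qk.Interface4

set_option autoImplicit false

namespace MPa8bd83

open Module

theorem SUM_sum (b : ℕ) :
    ∑ j ∈ Finset.range (2 * b), (if Even j then Complex.I else -Complex.I) = 0 := by
  induction b with
  | zero => simp
  | succ b ih =>
    rw [show 2 * (b + 1) = 2 * b + 1 + 1 by ring, Finset.sum_range_succ, Finset.sum_range_succ, ih]
    have h1 : Even (2 * b) := even_two_mul b
    have h2 : ¬ Even (2 * b + 1) := Nat.not_even_iff_odd.2 ⟨b, rfl⟩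
    rw [if_pos h1, if_neg h2]
    ring

theorem SUM_dm (n a : ℕ) (ha : Even a) (han : a ≤ n) : dm n a ∈ su n := by
  refine ⟨?_, ?_⟩
  · rw [dm, Matrix.diagonal_conjTranspose, Matrix.diagonal_neg]
    congr 1
    funext j
    simp only [Pi.star_apply, Pi.neg_apply]
    by_cases h1 : (j : ℕ) < a
    · by_cases h2 : Even (j : ℕ)
      · simp [h1, h2]
      · simp [h1, h2]
    · simp [h1]
  · rw [dm, Matrix.trace_diagonal]
    rw [Fin.sum_univ_eq_sum_range
      (fun j : ℕ => if j < a then (if Even j then Complex.I else -Complex.I) else 0) n,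
      ← Finset.sum_filter]
    have h1 : (Finset.range n).filter (fun j => j < a) = Finset.range a := by
      ext j
      simp only [Finset.mem_filter, Finset.mem_range]
      omega
    obtain ⟨b, hb⟩ := ha
    rw [h1, hb, ← two_mul]
    exact SUM_sum b

section
variable {V : Type} [NormedAddCommGroup V] [InnerProductSpace ℂ V]

theorem SUM_dec {n : ℕ} (R : Matrix (Fin n) (Fin n) ℂ →ₗ[ℂ] (V →L[ℂ] V))
    (X : Matrix (Fin n) (Fin n) ℂ) :
    R X = ∑ j, ∑ k, X j k • R (Matrix.single j k 1) := by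
  conv_lhs => rw [Matrix.matrix_eq_sum_single X]
  simp only [map_sum]
  refine Finset.sum_congr rfl fun j _ => Finset.sum_congr rfl fun k _ => ?_
  rw [← map_smul]
  congr 1
  rw [Matrix.smul_single]
  simp

theorem SUM_comm {n : ℕ} (R : Matrix (Fin n) (Fin n) ℂ →ₗ[ℂ] (V →L[ℂ] V)) (g : V →L[ℂ] V)
    (X : Matrix (Fin n) (Fin n) ℂ)
    (h : ∀ j k, X j k ≠ 0 → R (Matrix.single j k 1) * g = g * R (Matrix.single j k 1)) :
    R X * g = g * R X := by
  rw [SUM_dec R X, Finset.sum_mul, Finset.mul_sum]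
  refine Finset.sum_congr rfl fun j _ => ?_
  rw [Finset.sum_mul, Finset.mul_sum]
  refine Finset.sum_congr rfl fun k _ => ?_
  by_cases hjk : X j k = 0
  · rw [hjk, zero_smul, zero_mul, mul_zero]
  · rw [smul_mul_assoc, mul_smul_comm, h j k hjk]

theorem SUM_anti {n : ℕ} (R : Matrix (Fin n) (Fin n) ℂ →ₗ[ℂ] (V →L[ℂ] V)) (g : V →L[ℂ] V)
    (X : Matrix (Fin n) (Fin n) ℂ)
    (h : ∀ j k, X j k ≠ 0 → R (Matrix.single j k 1) * g = -(g * R (Matrix.single j k 1))) :
    R X * g = -(g * R X) := by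
  rw [SUM_dec R X, Finset.sum_mul, Finset.mul_sum, ← Finset.sum_neg_distrib]
  refine Finset.sum_congr rfl fun j _ => ?_
  rw [Finset.sum_mul, Finset.mul_sum, ← Finset.sum_neg_distrib]
  refine Finset.sum_congr rfl fun k _ => ?_
  by_cases hjk : X j k = 0
  · rw [hjk, zero_smul, zero_mul, mul_zero, neg_zero]
  · rw [smul_mul_assoc, mul_smul_comm, h j k hjk, smul_neg]

end

/-- the block diagonal part -/
def SUM_e (n a : ℕ) (X : Matrix (Fin n) (Fin n) ℂ) : Matrix (Fin n) (Fin n) ℂ :=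
  fun j k => if ((j : ℕ) < a ↔ (k : ℕ) < a) then X j k else 0

theorem SUM_e_mem (n a : ℕ) (X : Matrix (Fin n) (Fin n) ℂ) (hX : X ∈ su n) :
    SUM_e n a X ∈ suE n a := by
  obtain ⟨h1, h2⟩ := hX
  refine ⟨⟨?_, ?_⟩, ?_⟩
  · ext j k
    have h3 := congrFun (congrFun h1 j) k
    simp only [Matrix.conjTranspose_apply, Matrix.neg_apply] at h3 ⊢
    by_cases h : ((j : ℕ) < a ↔ (k : ℕ) < a)
    · have h' : ((k : ℕ) < a ↔ (j : ℕ) < a) := h.symm
      rw [SUM_e, SUM_e, if_pos h, if_pos h', h3]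
    · have h' : ¬ ((k : ℕ) < a ↔ (j : ℕ) < a) := fun h'' => h h''.symm
      rw [SUM_e, SUM_e, if_neg h, if_neg h', star_zero, neg_zero]
  · rw [← h2]
    refine Finset.sum_congr rfl fun j _ => ?_
    simp [Matrix.diag, SUM_e]
  · intro j k h
    rw [SUM_e, if_neg h]

theorem p_SUM (hIN2 : Stmt_IN2) (hEXT : Stmt_EXT) (hSUG : Stmt_SUG) (hSUI : Stmt_SUI)
    (hSUD : Stmt_SUD) : Stmt_SUM := by
  intro V _ _ _ J n a ρ hJ hρ hρ0 hfree ha ha2 han
  obtain ⟨R, hR, hR1, hRρ⟩ := hEXT V J n (by omega) ρ hJ hρ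
  obtain ⟨hg1, hg2, hg3⟩ := hSUG V J n a R hJ hR ha han.le
  have hdm := SUM_dm n a ha han.le
  have hle : suE n a ≤ su n := fun X hX => hX.1
  let L : Submodule ℝ (V →L[ℂ] V) := LinearMap.range (ρ.comp (Submodule.inclusion hle))
  have hR0 : R ≠ 0 := by
    intro h0
    apply hρ0
    ext1 X
    rw [← hRρ, h0]
    rfl
  have hanti := hg3 ⟨0, by omega⟩ ⟨n - 1, by omega⟩ (by
    simp only
    omega)
  have hne : R (Matrix.single (⟨0, by omega⟩ : Fin n) ⟨n - 1, by omega⟩ 1) ≠ 0 :=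
    hSUI V J n R hR hR1 hR0 _ _ (by
      intro h
      have := congrArg Fin.val h
      simp only at this
      omega)
  have hself : ∀ E : V →L[ℂ] V, E = -E → E = 0 := by
    intro E h
    have h1 : (2 : ℂ) • E = 0 := by
      rw [two_smul]
      nth_rewrite 1 [h]
      exact neg_add_cancel E
    exact (smul_eq_zero.1 h1).resolve_left two_ne_zero
  have hfin := hIN2 V J (LinearMap.range ρ) L hJ (by
      rintro _ ⟨X, rfl⟩
      exact hρ.sp X) (by
      rintro _ ⟨X, rfl⟩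
      exact ⟨Submodule.inclusion hle X, rfl⟩) hfree (Real.pi • R (dm n a)) (by
      refine ⟨Real.pi • ⟨dm n a, hdm⟩, ?_⟩
      rw [map_smul, ← hRρ]) hg1 (by
      intro h
      rw [h, mul_one, one_mul] at hanti
      exact hne (hself _ hanti)) (by
      intro h
      rw [h, mul_neg, neg_mul, mul_one, one_mul, neg_neg] at hanti
      exact hne (hself _ hanti.symm)) (by
      rintro _ ⟨X, rfl⟩
      have h1 : (ρ.comp (Submodule.inclusion hle)) X = R (X : Matrix (Fin n) (Fin n) ℂ) := by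
        rw [LinearMap.comp_apply, ← hRρ]
        rfl
      rw [h1]
      refine SUM_comm R _ _ fun j k hjk => hg2 j k ?_
      by_contra hcon
      exact hjk (X.2.2 j k hcon)) (by
      rintro _ ⟨X, rfl⟩
      refine ⟨R (SUM_e n a X), ?_, R ((X : Matrix (Fin n) (Fin n) ℂ) - SUM_e n a X), ?_, ?_⟩
      · refine ⟨⟨SUM_e n a X, SUM_e_mem n a X X.2⟩, ?_⟩
        rw [LinearMap.comp_apply, ← hRρ]
        rfl
      · rw [← map_add, add_sub_cancel, hRρ]
      · refine SUM_anti R _ _ fun j k hjk => hg3 j k ?_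
        intro hcon
        apply hjk
        rw [Matrix.sub_apply, SUM_e, if_pos hcon, sub_self])
  have hL : finrank ℝ L ≤ finrank ℝ (suE n a) := LinearMap.finrank_range_le _
  have hD := hSUD n a (by omega) han
  calc finrank ℂ V ≤ 4 * finrank ℝ L := hfin
    _ ≤ 4 * (a ^ 2 + (n - a) ^ 2 - 1) := Nat.mul_le_mul_left _ (hL.trans hD)

end MPa8bd83
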