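/-
MP_a8bd83_gt, THEOREM QR, block SU8: su(n), n = 2 mod 4.
-/
import Pool.Agent.Work.MP_a8bd83_qk.Interface9
import Pool.Agent.Work.MP_a8bd83_qk.B_SUM

set_option autoImplicit false

namespace MPa8bd83

open Module

/-- **SU8.** -/
theorem p_SU8 (hSUB : Stmt_SUB) (hEVG : Stmt_EVG) : Stmt_SU8 := by
  intro V _ _ _ J n N ρ hJ hn4 hn6 hV hρ hρ0 hfree
  obtain ⟨k, rfl⟩ : ∃ k, n = 4 * k + 2 := ⟨n / 4, by omega⟩
  have hk : 1 ≤ k := by omega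
  have hlt : 2 * k < 4 * k + 2 := by omega
  have hD : dm (4 * k + 2) (2 * k) ∈ su (4 * k + 2) :=
    SUM_dm (4 * k + 2) (2 * k) (even_two_mul k) hlt.le
  obtain ⟨D, hDdef⟩ : ∃ D : su (4 * k + 2),
      (D : Matrix (Fin (4 * k + 2)) (Fin (4 * k + 2)) ℂ) = dm (4 * k + 2) (2 * k) :=
    ⟨⟨_, hD⟩, rfl⟩
  obtain ⟨hgg, h4⟩ := hEVG V J (4 * k + 2) k ρ D hJ hρ hlt hDdef
  have h1 := hSUB V J (4 * k + 2) k ρ D hJ hρ hρ0 hfree hk hlt hDdef 1 (Or.inl rfl)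
  have h2 := hSUB V J (4 * k + 2) k ρ D hJ hρ hρ0 hfree hk hlt hDdef (-1) (Or.inr rfl)
  obtain ⟨g, hg⟩ : ∃ g : V →L[ℂ] V, g = NormedSpace.exp (Real.pi • ρ D) := ⟨_, rfl⟩
  rw [← hg] at hgg h4 h1 h2
  have h3 : IN2_Q g 1 ⊔ IN2_Q g (-1) = ⊤ := by
    rw [eq_top_iff]
    intro x _
    rw [Submodule.mem_sup]
    have hggx : g (g x) = x :=
      congrArg (fun A : V →L[ℂ] V => A x) hgg
    refine ⟨(2 : ℂ)⁻¹ • (x + g x), ?_, (2 : ℂ)⁻¹ • (x - g x), ?_, ?_⟩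
    · change g _ = (1 : ℂ) • _
      rw [map_smul, map_add, hggx, one_smul, add_comm]
    · change g _ = (-1 : ℂ) • _
      rw [map_smul, map_sub, hggx, neg_one_smul, ← smul_neg, neg_sub]
    · rw [← smul_add, add_add_sub_cancel, ← two_smul ℂ x, smul_smul, inv_mul_cancel₀ two_ne_zero,
        one_smul]
  have h5 := Submodule.finrank_add_le_finrank_add_finrank (IN2_Q g 1) (IN2_Q g (-1))
  rw [h3, finrank_top, hV] at h5
  have e1 : 4 * k + 2 - 2 * k = 2 * k + 2 := by omega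
  rw [e1] at h1 h2
  obtain ⟨c, hc⟩ := h4
  have e2 : (2 * k) ^ 2 + (2 * k + 2) ^ 2 - 1 = 8 * k ^ 2 + 8 * k + 3 := by
    have : (2 * k) ^ 2 + (2 * k + 2) ^ 2 = 8 * k ^ 2 + 8 * k + 4 := by ring
    omega
  rw [e2] at h1 h2
  have e3 : (4 * k + 2) ^ 2 + 1 = 16 * k ^ 2 + 16 * k + 5 := by ring
  rw [e3]
  omega

end MPa8bd83
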