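/-
MP_a8bd83_gt (LeBrun-Salamon), smooth quaternionic Kaehler quotients of HP^(N-1): PART 4.
All representations of SU(n), n ≥ 3 (helper77).  Table qk2_blocks (part 4).

RULES.  One block = one file B_XXX.lean in this folder, `import Pool.Agent.Work.MP_a8bd83_qk.Interface4`,
`namespace MPa8bd83`, `theorem p_XXX (hA : Stmt_A) .. : Stmt_XXX` with exactly the blocks named after
`uses` as hypotheses, in that order.  Auxiliary lemmas get the prefix XXX_.  No straight double quotes.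
-/
import Pool.Agent.Work.MP_a8bd83_qk.Interface3

set_option autoImplicit false

namespace MPa8bd83

open Module

/-! ## Notions -/

/-- The Lie algebra `su(n)`: skew-Hermitian matrices of trace zero. -/
def su (n : ℕ) : Submodule ℝ (Matrix (Fin n) (Fin n) ℂ) where
  carrier := {X | X.conjTranspose = -X ∧ X.trace = 0}
  add_mem' := by
    rintro X Y ⟨h1, h2⟩ ⟨h3, h4⟩
    refine ⟨?_, ?_⟩
    · rw [Matrix.conjTranspose_add, h1, h3, neg_add]
    · rw [Matrix.trace_add, h2, h4, add_zero]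
  zero_mem' := ⟨by simp, by simp⟩
  smul_mem' := by
    rintro c X ⟨h1, h2⟩
    refine ⟨?_, ?_⟩
    · rw [Matrix.conjTranspose_smul, h1, smul_neg, star_trivial]
    · rw [Matrix.trace_smul, h2, smul_zero]

/-- `ρ` is a representation of `su(n)` by skew-adjoint operators commuting with `J`. -/
structure IsSuRep {V : Type} [NormedAddCommGroup V] [InnerProductSpace ℂ V] (J : V → V) (n : ℕ)
    (ρ : su n →ₗ[ℝ] (V →L[ℂ] V)) : Prop where
  lie : ∀ X Y Z : su n, (Z : Matrix (Fin n) (Fin n) ℂ) = X * Y - Y * X →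
    ρ Z = ρ X * ρ Y - ρ Y * ρ X
  sp : ∀ X : su n, IsSp J (ρ X)

/-- The complex linear extension to all matrices. -/
structure GlRep {V : Type} [NormedAddCommGroup V] [InnerProductSpace ℂ V] (J : V → V) (n : ℕ)
    (R : Matrix (Fin n) (Fin n) ℂ →ₗ[ℂ] (V →L[ℂ] V)) : Prop where
  lie : ∀ X Y, R (X * Y - Y * X) = R X * R Y - R Y * R X
  sp : ∀ X : Matrix (Fin n) (Fin n) ℂ, X.conjTranspose = -X → IsSp J (R X)

/-- The matrix `diag(i, -i, i, -i, .., 0, .., 0)`, `a` nonzero entries (`a` even). -/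
noncomputable def dm (n a : ℕ) : Matrix (Fin n) (Fin n) ℂ :=
  Matrix.diagonal (fun j => if (j : ℕ) < a then
    (if Even (j : ℕ) then Complex.I else -Complex.I) else 0)

/-- The block diagonal part of `su(n)`: `X j k = 0` unless `j`, `k` are both `< a` or both `≥ a`. -/
def suE (n a : ℕ) : Submodule ℝ (Matrix (Fin n) (Fin n) ℂ) where
  carrier := {X | X ∈ su n ∧ ∀ j k : Fin n, ¬ ((j : ℕ) < a ↔ (k : ℕ) < a) → X j k = 0}
  add_mem' := by
    rintro X Y ⟨h1, h2⟩ ⟨h3, h4⟩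
    refine ⟨(su n).add_mem h1 h3, fun j k h => ?_⟩
    rw [Matrix.add_apply, h2 j k h, h4 j k h, add_zero]
  zero_mem' := ⟨(su n).zero_mem, fun _ _ _ => rfl⟩
  smul_mem' := by
    rintro c X ⟨h1, h2⟩
    refine ⟨(su n).smul_mem c h1, fun j k h => ?_⟩
    rw [Matrix.smul_apply, h2 j k h, smul_zero]

/-! ## The involution criterion -/

/-- **JXP** (80).  `exp ξ` for `ξ ∈ sp(V)`: (1) it commutes with `J` (`NormedSpace.exp` is a series with real coefficients, `J` is additive, real linear and continuous (isometric), `ξ J = J ξ`;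
`ContinuousLinearMap` series applied to `x`), (2) `⟨exp ξ x, y⟩ = ⟨x, exp(-ξ) y⟩` (adjoint of the series; or `star (exp ξ) = exp (star ξ)`). -/
def Stmt_JXP : Prop :=
  ∀ (V : Type) [NormedAddCommGroup V] [InnerProductSpace ℂ V] [FiniteDimensional ℂ V]
    (J : V → V) (ξ : V →L[ℂ] V), IsQuatStr J → IsSp J ξ →
    (∀ x, NormedSpace.exp ξ (J x) = J (NormedSpace.exp ξ x)) ∧
    (∀ x y, inner ℂ (NormedSpace.exp ξ x) y = inner ℂ x (NormedSpace.exp (-ξ) y))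

/-- **IN2** (150), uses RES JXP.  The involution criterion.  `g = exp ξ₀`, `g g = 1`, so `exp (-ξ₀) = g` and `⟨g x, y⟩ = ⟨x, g y⟩` (JXP).  `P` = the kernel of `g - 1`, `M` = the kernel of `g + 1`, `P ⊔ M = ⊤` (`x = (x + g x)/2 + (x - g x)/2`), both stable under `J` (JXP) and
under `L`.  If `finrank V > 4 finrank L`, one of them, `Q`, has `finrank Q > 2 finrank L`.  RES: `0 ≠ x ∈ Q` with `MomentZero J L x`.  For `ζ = a + b ∈ k` as in the hypothesis: `g b x = - b g x`, so `b x` is in the other eigenspace, orthogonal to `x` and `J x`: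
`MomentZero J k x`.  `g x = ± x`: contradiction to `FreeOnZeros`. -/
def Stmt_IN2 : Prop :=
  ∀ (V : Type) [NormedAddCommGroup V] [InnerProductSpace ℂ V] [FiniteDimensional ℂ V]
    (J : V → V) (k L : Submodule ℝ (V →L[ℂ] V)), IsQuatStr J → (∀ ξ ∈ k, IsSp J ξ) → L ≤ k →
    FreeOnZeros J k → ∀ ξ₀ ∈ k, NormedSpace.exp ξ₀ * NormedSpace.exp ξ₀ = 1 →
    NormedSpace.exp ξ₀ ≠ 1 → NormedSpace.exp ξ₀ ≠ -1 →
    (∀ ζ ∈ L, ζ * NormedSpace.exp ξ₀ = NormedSpace.exp ξ₀ * ζ) →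
    (∀ ζ ∈ k, ∃ a ∈ L, ∃ b : V →L[ℂ] V, ζ = a + b ∧
      b * NormedSpace.exp ξ₀ = -(NormedSpace.exp ξ₀ * b)) →
    finrank ℂ V ≤ 4 * finrank ℝ L

/-! ## Representations of SU(n) -/

/-- **INT** (120), uses EV1 (of the core) SL2.  Integrality.  By EV1 the eigenvectors `v`, `D v = i a v` with real `a`, span `V`, and `exp (2 π D) v = e^{2 π i a} v`.  `H = - i D` satisfies the hypotheses of SL2 with `E`, `F` and `H v = a v`, so `a` is an integer. -/
def Stmt_INT : Prop :=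
  ∀ (V : Type) [NormedAddCommGroup V] [InnerProductSpace ℂ V] [FiniteDimensional ℂ V]
    (J : V → V) (D E F : V →L[ℂ] V), IsQuatStr J → IsSp J D →
    E * F - F * E = -(Complex.I • D) → D * E - E * D = (2 * Complex.I) • E →
    D * F - F * D = -((2 * Complex.I) • F) →
    NormedSpace.exp ((2 * Real.pi) • D) = 1

/-- **SEC** (60).  `A X = X (A + μ)`, so `exp(A) X = X exp(A + μ) = e^μ X exp(A)` (`SemiconjBy`; or: the eigenvalue argument of power series). -/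
def Stmt_SEC : Prop :=
  ∀ (V : Type) [NormedAddCommGroup V] [InnerProductSpace ℂ V] [FiniteDimensional ℂ V]
    (A X : V →L[ℂ] V) (μ : ℂ), A * X - X * A = μ • X →
    NormedSpace.exp A * X = Complex.exp μ • (X * NormedSpace.exp A)

/-- **EXT** (150).  The complex linear extension: for a matrix `X` let `X' = X - (tr X / n) 1`, `A = (X' - X'ᴴ) / 2`, `B = - i (X' + X'ᴴ) / 2`: both in `su(n)`, `X' = A + i B`; `R X = ρ A + i ρ B`.  Complex linear: `X ↦ A`, `X ↦ B` are real linear and `A (i X) = - B X`, `B (i X) = A X`.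
`lie`: `[X, Y] = [X', Y'] = [A + i B, C + i D] = ([A, C] - [B, D]) + i ([A, D] + [B, C])` has trace zero, and the two brackets are in `su(n)`.  `sp`: if `Xᴴ = - X` then `B = 0` (the trace is imaginary) and `R X = ρ A`. -/
def Stmt_EXT : Prop :=
  ∀ (V : Type) [NormedAddCommGroup V] [InnerProductSpace ℂ V] [FiniteDimensional ℂ V]
    (J : V → V) (n : ℕ), 1 ≤ n → ∀ ρ : su n →ₗ[ℝ] (V →L[ℂ] V), IsQuatStr J → IsSuRep J n ρ →
    ∃ R : Matrix (Fin n) (Fin n) ℂ →ₗ[ℂ] (V →L[ℂ] V), GlRep J n R ∧ R 1 = 0 ∧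
      ∀ X : su n, R (X : Matrix (Fin n) (Fin n) ℂ) = ρ X

/-- **SUG** (200), uses INT SEC.  `g = exp (π R D)`, `D = dm n a`.  (1) `D = ∑ D_j` over the `a / 2` pairs `(2 j, 2 j + 1)`, `D_j = i (E_{2j,2j} - E_{2j+1,2j+1})`; the `R D_j` commute; INT with `E = R (single (2j) (2j+1) 1)`, `F = R (single (2j+1) (2j) 1)`
(`[E, F] = R (E_{2j,2j} - E_{2j+1,2j+1}) = - i R D_j`, `[D_j, E_{2j,2j+1}] = 2 i E_{2j,2j+1}`): `exp (2 π R D_j) = 1`, so `g g = exp (2 π ∑ R D_j) = 1` (`NormedSpace.exp_add_of_commute`, induction on the number of pairs).  (2), (3) `[D, E_{jk}] = (d_j - d_k) E_{jk}`, `d_j ∈ {i, -i, 0}`; SEC with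
`A = π R D`, `μ = π (d_j - d_k)`: `e^μ = 1` if `j`, `k` are in the same block (`μ = 0`, `± 2 π i`), `-1` otherwise (`μ = ± π i`). -/
def Stmt_SUG : Prop :=
  ∀ (V : Type) [NormedAddCommGroup V] [InnerProductSpace ℂ V] [FiniteDimensional ℂ V]
    (J : V → V) (n a : ℕ) (R : Matrix (Fin n) (Fin n) ℂ →ₗ[ℂ] (V →L[ℂ] V)), IsQuatStr J →
    GlRep J n R → Even a → a ≤ n →
    NormedSpace.exp (Real.pi • R (dm n a)) * NormedSpace.exp (Real.pi • R (dm n a)) = 1 ∧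
    (∀ j k : Fin n, ((j : ℕ) < a ↔ (k : ℕ) < a) →
      R (Matrix.single j k 1) * NormedSpace.exp (Real.pi • R (dm n a))
        = NormedSpace.exp (Real.pi • R (dm n a)) * R (Matrix.single j k 1)) ∧
    (∀ j k : Fin n, ¬ ((j : ℕ) < a ↔ (k : ℕ) < a) →
      R (Matrix.single j k 1) * NormedSpace.exp (Real.pi • R (dm n a))
        = -(NormedSpace.exp (Real.pi • R (dm n a)) * R (Matrix.single j k 1)))

/-- **SUI** (80).  If `R (single p q 1) = 0` for one pair `p ≠ q`, then for all: `[E_{jp}, E_{pq}] = E_{jq}` (`j ≠ q`; `- δ_{qj} ..`), `[E_{jq}, E_{qk}] = E_{jk}` (`j ≠ k`), and `[E_{pq}, E_{qp}] = E_{pp} - E_{qq}` etc. (choose any chain; `n ≥ 3` is not needed: for `n = 2` use the brackets with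
`E_{pp} - E_{qq}`); so `R (E_{jk}) = 0` for `j ≠ k`, `R (E_{jj} - E_{kk}) = 0` and, as `R 1 = 0`, `R = 0`. -/
def Stmt_SUI : Prop :=
  ∀ (V : Type) [NormedAddCommGroup V] [InnerProductSpace ℂ V] [FiniteDimensional ℂ V]
    (J : V → V) (n : ℕ) (R : Matrix (Fin n) (Fin n) ℂ →ₗ[ℂ] (V →L[ℂ] V)),
    GlRep J n R → R 1 = 0 → R ≠ 0 → ∀ p q : Fin n, p ≠ q → R (Matrix.single p q 1) ≠ 0

/-- **SUD** (120).  `I` = the set of the pairs `(j, k)` with `j < a ↔ k < a`, without `(n-1, n-1)`: `a ^ 2 + (n - a) ^ 2 - 1` elements.  `X ↦ (j, k) ↦ (Re (X j k) if j < k, Im (X j k) if k ≤ j)` is real linear and injective on `suE n a`: for `j < k`, `X k j = - conj (X j k)`, so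
`Im (X k j) = Im (X j k)`; `Re (X j j) = 0`; the last diagonal entry is determined by the trace. -/
def Stmt_SUD : Prop :=
  ∀ n a : ℕ, 1 ≤ a → a < n → finrank ℝ (suE n a) ≤ a ^ 2 + (n - a) ^ 2 - 1

/-- **SUM** (150), uses IN2 EXT SUG SUI SUD.  For even `a`, `2 ≤ a < n`: `N ≤ 2 (a ^ 2 + (n - a) ^ 2 - 1)`.  `k = range ρ`, `R` from EXT, `g = exp ξ₀`, `ξ₀ = π R (dm n a) ∈ k` (`dm n a ∈ su n`), `L` = the image of `suE n a` under `ρ` (`finrank L ≤ finrank (suE n a)`).  `X ∈ su n` is `X_e + X_o` with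
`X_e ∈ suE n a` the block diagonal part, `X_o = ∑ X_{jk} E_{jk}` over the other pairs.  SUG: `R X_e` commutes and `R X_o` anticommutes with `g`.  `g ≠ ± 1`: `R (E_{0, n-1}) ≠ 0` (SUI; `R ≠ 0` because `ρ ≠ 0`) anticommutes with `g`. -/
def Stmt_SUM : Prop :=
  ∀ (V : Type) [NormedAddCommGroup V] [InnerProductSpace ℂ V] [FiniteDimensional ℂ V]
    (J : V → V) (n a : ℕ) (ρ : su n →ₗ[ℝ] (V →L[ℂ] V)), IsQuatStr J → IsSuRep J n ρ → ρ ≠ 0 →
    FreeOnZeros J (LinearMap.range ρ) → Even a → 2 ≤ a → a < n →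
    finrank ℂ V ≤ 4 * (a ^ 2 + (n - a) ^ 2 - 1)

/-- **SUN** (80), uses SUM.  `n` odd: one of `(n - 1) / 2`, `(n + 1) / 2` is even, call it `a` (`2 ≤ a < n` because `n ≥ 3`); `2 (a ^ 2 + (n - a) ^ 2 - 1) = n ^ 2 - 1`.  `n = 4 m`: `a = 2 m`, `2 (8 m ^ 2 - 1) = n ^ 2 - 2`.
`n = 4 m + 2`, `m ≥ 1`: `a = 2 m`, `2 (4 m ^ 2 + (2 m + 2) ^ 2 - 1) = n ^ 2 + 2`. -/
def Stmt_SUN : Prop :=
  ∀ (V : Type) [NormedAddCommGroup V] [InnerProductSpace ℂ V] [FiniteDimensional ℂ V]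
    (J : V → V) (n N : ℕ) (ρ : su n →ₗ[ℝ] (V →L[ℂ] V)), IsQuatStr J → 3 ≤ n →
    finrank ℂ V = 2 * N → IsSuRep J n ρ → ρ ≠ 0 → FreeOnZeros J (LinearMap.range ρ) →
    N ≤ n ^ 2 - 1 ∨ (n % 4 = 2 ∧ N ≤ n ^ 2 + 2)

end MPa8bd83
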