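/-
MP_a8bd83_gt, THEOREM QR, block SUD: the dimension of the block diagonal part of su(n).
-/
import Pool.Agent.Work.MP_a8bd83_qk.Interface4

set_option autoImplicit false

namespace MPa8bd83

open Module

/-- The real coordinates indexed by a set of pairs. -/
noncomputable def SUD_phi (n a : ℕ) (S : Finset (Fin n × Fin n)) : suE n a →ₗ[ℝ] (S → ℝ) where
  toFun X := fun s => if s.1.1 < s.1.2 then ((X : Matrix (Fin n) (Fin n) ℂ) s.1.1 s.1.2).re
    else ((X : Matrix (Fin n) (Fin n) ℂ) s.1.1 s.1.2).im
  map_add' := by
    intro X Y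
    funext s
    by_cases h : s.1.1 < s.1.2
    · simp [h]
    · simp [h]
  map_smul' := by
    intro c X
    funext s
    by_cases h : s.1.1 < s.1.2
    · simp [h]
    · simp [h]

/-- The number of the pairs. -/
theorem SUD_card (n a : ℕ) (h2 : a < n) (l : Fin n) :
    ((Finset.univ.filter (fun s : Fin n × Fin n => ((s.1 : ℕ) < a ↔ (s.2 : ℕ) < a))).erase
      (l, l)).card = a ^ 2 + (n - a) ^ 2 - 1 := by
  classical
  have hA : (Finset.univ.filter (fun j : Fin n => (j : ℕ) < a)).card = a := by
    have h : Finset.univ.filter (fun j : Fin n => (j : ℕ) < a) = Finset.Iio ⟨a, h2⟩ := by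
      ext j
      simp [Fin.lt_def]
    rw [h, Fin.card_Iio]
  have hB : (Finset.univ.filter (fun j : Fin n => ¬ (j : ℕ) < a)).card = n - a := by
    have h := Finset.card_filter_add_card_filter_not (s := (Finset.univ : Finset (Fin n)))
      (fun j : Fin n => (j : ℕ) < a)
    rw [Finset.card_univ, Fintype.card_fin] at h
    omega
  have hU : Finset.univ.filter (fun s : Fin n × Fin n => ((s.1 : ℕ) < a ↔ (s.2 : ℕ) < a))
      = (Finset.univ.filter (fun j : Fin n => (j : ℕ) < a) ×ˢ
          Finset.univ.filter (fun j : Fin n => (j : ℕ) < a)) ∪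
        (Finset.univ.filter (fun j : Fin n => ¬ (j : ℕ) < a) ×ˢ
          Finset.univ.filter (fun j : Fin n => ¬ (j : ℕ) < a)) := by
    ext ⟨j, k⟩
    simp only [Finset.mem_filter, Finset.mem_univ, true_and, Finset.mem_union,
      Finset.mem_product]
    tauto
  have hD : Disjoint (Finset.univ.filter (fun j : Fin n => (j : ℕ) < a) ×ˢ
      Finset.univ.filter (fun j : Fin n => (j : ℕ) < a))
      (Finset.univ.filter (fun j : Fin n => ¬ (j : ℕ) < a) ×ˢ
      Finset.univ.filter (fun j : Fin n => ¬ (j : ℕ) < a)) := by
    rw [Finset.disjoint_left]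
    rintro ⟨j, k⟩ h3 h4
    simp only [Finset.mem_filter, Finset.mem_univ, true_and, Finset.mem_product] at h3 h4
    exact h4.1 h3.1
  rw [Finset.card_erase_of_mem (by simp), hU, Finset.card_union_of_disjoint hD,
    Finset.card_product, Finset.card_product, hA, hB]
  ring_nf

/-- **SUD.** The dimension of the block diagonal part. -/
theorem p_SUD : Stmt_SUD := by
  classical
  intro n a _ h2
  have l : Fin n := ⟨n - 1, by omega⟩
  obtain ⟨S, hS⟩ : ∃ S : Finset (Fin n × Fin n), S =
      (Finset.univ.filter (fun s : Fin n × Fin n => ((s.1 : ℕ) < a ↔ (s.2 : ℕ) < a))).erase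
      (l, l) := ⟨_, rfl⟩
  have hinj : Function.Injective (SUD_phi n a S) := by
    rw [← LinearMap.ker_eq_bot, LinearMap.ker_eq_bot']
    intro X hX
    obtain ⟨X, ⟨hX1, hX2⟩, hX3⟩ := X
    have hval : ∀ j k : Fin n, ((j : ℕ) < a ↔ (k : ℕ) < a) → (j, k) ≠ (l, l) →
        (if j < k then (X j k).re else (X j k).im) = 0 := by
      intro j k h3 h4
      have hmem : (j, k) ∈ S := by
        rw [hS, Finset.mem_erase, Finset.mem_filter]
        exact ⟨h4, Finset.mem_univ _, h3⟩
      exact congrFun hX ⟨(j, k), hmem⟩
    have hskew : ∀ j k : Fin n, X k j = - star (X j k) := by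
      intro j k
      have h3 := congrFun (congrFun hX1 k) j
      rw [Matrix.conjTranspose_apply, Matrix.neg_apply] at h3
      rw [h3, neg_neg]
    have hre : ∀ j k : Fin n, (X k j).re = - (X j k).re := by
      intro j k
      rw [hskew j k]
      simp
    have him : ∀ j k : Fin n, (X k j).im = (X j k).im := by
      intro j k
      rw [hskew j k]
      simp
    have hlt : ∀ j k : Fin n, j < k → ((j : ℕ) < a ↔ (k : ℕ) < a) → X j k = 0 := by
      intro j k hjk hb
      have h3 := hval j k hb (by
        intro h
        rw [Prod.mk.injEq] at h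
        rw [h.1, h.2] at hjk
        exact lt_irrefl _ hjk)
      have h4 := hval k j hb.symm (by
        intro h
        rw [Prod.mk.injEq] at h
        rw [h.1, h.2] at hjk
        exact lt_irrefl _ hjk)
      rw [if_pos hjk] at h3
      rw [if_neg (lt_asymm hjk), him j k] at h4
      exact Complex.ext h3 h4
    have hoff : ∀ j k : Fin n, j ≠ k → X j k = 0 := by
      intro j k hjk
      by_cases hb : ((j : ℕ) < a ↔ (k : ℕ) < a)
      · rcases lt_or_gt_of_ne hjk with h | h
        · exact hlt j k h hb
        · rw [hskew k j, hlt k j h hb.symm]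
          simp
      · exact hX3 j k hb
    have hdiag : ∀ j : Fin n, j ≠ l → X j j = 0 := by
      intro j hj
      have h3 := hval j j Iff.rfl (by
        intro h
        rw [Prod.mk.injEq] at h
        exact hj h.1)
      rw [if_neg (lt_irrefl _)] at h3
      have h4 := hre j j
      exact Complex.ext (by simp only [Complex.zero_re]; linarith) h3
    have hlast : X l l = 0 := by
      have h3 : ∑ j, X j j = 0 := hX2
      rw [Finset.sum_eq_single l (fun j _ hj => hdiag j hj)
        (fun h => absurd (Finset.mem_univ _) h)] at h3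
      exact h3
    have hX0 : X = 0 := by
      ext j k
      by_cases hjk : j = k
      · rw [← hjk]
        by_cases hjl : j = l
        · rw [hjl, hlast]
          rfl
        · rw [hdiag j hjl]
          rfl
      · rw [hoff j k hjk]
        rfl
    exact Subtype.ext hX0
  have hle := LinearMap.finrank_le_finrank_of_injective hinj
  rw [Module.finrank_fintype_fun_eq_card, Fintype.card_coe, hS, SUD_card n a h2 l] at hle
  exact hle

end MPa8bd83
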