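/-
MP_a8bd83_gt, block SUG (helper25): the element exp(pi R D).
-/
import Pool.Agent.Work.MP_a8bd83_qk.Interface4

set_option autoImplicit false

namespace MPa8bd83

open Module

section SUGsec

variable {V : Type} [NormedAddCommGroup V] [InnerProductSpace ℂ V] [FiniteDimensional ℂ V]

theorem SUG_add (X Y : V →L[ℂ] V) (h : Commute X Y) :
    NormedSpace.exp (X + Y) = NormedSpace.exp X * NormedSpace.exp Y := by
  have : CompleteSpace V := FiniteDimensional.complete ℂ V
  letI : NormedAlgebra ℚ (V →L[ℂ] V) := NormedAlgebra.restrictScalars ℚ ℂ (V →L[ℂ] V)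
  exact NormedSpace.exp_add_of_commute h

theorem SUG_smul (r : ℝ) (T : V →L[ℂ] V) : r • T = (r : ℂ) • T := by
  ext x
  rfl

end SUGsec

theorem SUG_br {n : ℕ} (d : Fin n → ℂ) (j k : Fin n) :
    Matrix.diagonal d * Matrix.single j k (1 : ℂ) - Matrix.single j k (1 : ℂ) * Matrix.diagonal d
      = (d j - d k) • Matrix.single j k (1 : ℂ) := by
  ext x y
  rw [Matrix.sub_apply, Matrix.diagonal_mul, Matrix.mul_diagonal, Matrix.smul_apply,
    Matrix.single_apply]
  by_cases h : j = x ∧ k = y
  · obtain ⟨rfl, rfl⟩ := h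
    simp
  · simp [h]

/-- One pair. -/
noncomputable def SUG_pd (n : ℕ) (p q : Fin n) : Fin n → ℂ :=
  fun j => if j = p then Complex.I else if j = q then -Complex.I else 0

theorem SUG_EF {n : ℕ} (p q : Fin n) (hpq : p ≠ q) :
    Matrix.single p q (1 : ℂ) * Matrix.single q p (1 : ℂ)
      - Matrix.single q p (1 : ℂ) * Matrix.single p q (1 : ℂ)
      = -(Complex.I • Matrix.diagonal (SUG_pd n p q)) := by
  rw [Matrix.single_mul_single_same, Matrix.single_mul_single_same, one_mul]
  ext x y
  rw [Matrix.sub_apply, Matrix.neg_apply, Matrix.smul_apply, Matrix.single_apply,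
    Matrix.single_apply, Matrix.diagonal_apply]
  unfold SUG_pd
  by_cases hxy : x = y
  · subst hxy
    by_cases hxp : x = p
    · subst hxp
      simp [hpq.symm]
    · by_cases hxq : x = q
      · subst hxq
        simp [hpq, hxp]
      · have h1 : ¬ p = x := fun h => hxp h.symm
        have h2 : ¬ q = x := fun h => hxq h.symm
        simp [h1, h2, hxp, hxq]
  · have h1 : ¬ (p = x ∧ p = y) := fun h => hxy (h.1.symm.trans h.2)
    have h2 : ¬ (q = x ∧ q = y) := fun h => hxy (h.1.symm.trans h.2)
    rw [if_neg h1, if_neg h2, if_neg hxy]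
    simp

theorem SUG_skew {n : ℕ} (p q : Fin n) :
    (Matrix.diagonal (SUG_pd n p q)).conjTranspose = -Matrix.diagonal (SUG_pd n p q) := by
  rw [Matrix.diagonal_conjTranspose]
  ext x y
  rw [Matrix.neg_apply, Matrix.diagonal_apply, Matrix.diagonal_apply]
  simp only [SUG_pd, Pi.star_apply]
  split_ifs <;> simp

theorem SUG_step (n m : ℕ) (h : 2 * (m + 1) ≤ n) :
    dm n (2 * (m + 1)) = dm n (2 * m) +
      Matrix.diagonal (SUG_pd n ⟨2 * m, by omega⟩ ⟨2 * m + 1, by omega⟩) := by
  unfold dm
  rw [Matrix.diagonal_add]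
  congr 1
  funext j
  unfold SUG_pd
  by_cases h1 : (j : ℕ) < 2 * m
  · have h2 : (j : ℕ) < 2 * (m + 1) := by omega
    have h3 : ¬ j = ⟨2 * m, by omega⟩ := fun hj => by
      have := congrArg Fin.val hj
      simp at this
      omega
    have h4 : ¬ j = ⟨2 * m + 1, by omega⟩ := fun hj => by
      have := congrArg Fin.val hj
      simp at this
      omega
    rw [if_pos h1, if_pos h2, if_neg h3, if_neg h4, add_zero]
  · by_cases h5 : (j : ℕ) = 2 * m
    · have h2 : (j : ℕ) < 2 * (m + 1) := by omega
      have h3 : j = ⟨2 * m, by omega⟩ := Fin.ext h5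
      have h6 : Even (j : ℕ) := ⟨m, by omega⟩
      rw [if_neg h1, if_pos h2, if_pos h3, if_pos h6, zero_add]
    · by_cases h7 : (j : ℕ) = 2 * m + 1
      · have h2 : (j : ℕ) < 2 * (m + 1) := by omega
        have h3 : ¬ j = ⟨2 * m, by omega⟩ := fun hj => h5 (congrArg Fin.val hj)
        have h4 : j = ⟨2 * m + 1, by omega⟩ := Fin.ext h7
        have h6 : ¬ Even (j : ℕ) := by
          rw [Nat.not_even_iff_odd]
          exact ⟨m, h7⟩
        rw [if_neg h1, if_pos h2, if_neg h3, if_pos h4, if_neg h6, zero_add]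
      · have h2 : ¬ (j : ℕ) < 2 * (m + 1) := by omega
        have h3 : ¬ j = ⟨2 * m, by omega⟩ := fun hj => h5 (congrArg Fin.val hj)
        have h4 : ¬ j = ⟨2 * m + 1, by omega⟩ := fun hj => h7 (congrArg Fin.val hj)
        rw [if_neg h1, if_neg h2, if_neg h3, if_neg h4, add_zero]

theorem SUG_two (hINT : Stmt_INT) (V : Type) [NormedAddCommGroup V] [InnerProductSpace ℂ V]
    [FiniteDimensional ℂ V] (J : V → V) (n : ℕ)
    (R : Matrix (Fin n) (Fin n) ℂ →ₗ[ℂ] (V →L[ℂ] V)) (hJ : IsQuatStr J) (hR : GlRep J n R)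
    (m : ℕ) (hm : 2 * m ≤ n) : NormedSpace.exp ((2 * Real.pi) • R (dm n (2 * m))) = 1 := by
  have : CompleteSpace V := FiniteDimensional.complete ℂ V
  induction m with
  | zero =>
    have h0 : dm n (2 * 0) = 0 := by
      unfold dm
      rw [← Matrix.diagonal_zero]
      congr 1
    rw [h0, map_zero, smul_zero, NormedSpace.exp_zero]
  | succ m ih =>
    have hm' : 2 * m ≤ n := by omega
    set p : Fin n := ⟨2 * m, by omega⟩ with hp
    set q : Fin n := ⟨2 * m + 1, by omega⟩ with hq
    have hpq : p ≠ q := fun h => by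
      have := congrArg Fin.val h
      simp [hp, hq] at this
    have hcom : Commute (R (dm n (2 * m))) (R (Matrix.diagonal (SUG_pd n p q))) := by
      have h1 := hR.lie (dm n (2 * m)) (Matrix.diagonal (SUG_pd n p q))
      have h2 : dm n (2 * m) * Matrix.diagonal (SUG_pd n p q)
          - Matrix.diagonal (SUG_pd n p q) * dm n (2 * m) = 0 := by
        unfold dm
        rw [Matrix.diagonal_mul_diagonal, Matrix.diagonal_mul_diagonal, sub_eq_zero]
        congr 1
        funext j
        rw [mul_comm]
      rw [h2, map_zero] at h1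
      exact (sub_eq_zero.mp h1.symm)
    have hint : NormedSpace.exp ((2 * Real.pi) • R (Matrix.diagonal (SUG_pd n p q))) = 1 := by
      apply hINT V J (R (Matrix.diagonal (SUG_pd n p q))) (R (Matrix.single p q 1))
        (R (Matrix.single q p 1)) hJ (hR.sp _ (SUG_skew p q))
      · rw [← hR.lie, SUG_EF p q hpq, map_neg, map_smul]
      · rw [← hR.lie, SUG_br, map_smul]
        congr 1
        unfold SUG_pd
        rw [if_pos rfl, if_neg hpq.symm, if_pos rfl]
        ring
      · rw [← hR.lie, SUG_br, map_smul, ← neg_smul]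
        congr 1
        unfold SUG_pd
        rw [if_pos rfl, if_neg hpq.symm, if_pos rfl]
        ring
    rw [SUG_step n m hm, map_add, smul_add, SUG_add _ _ ((hcom.smul_left _).smul_right _),
      ih hm', hint, one_mul]

theorem SUG_key (hSEC : Stmt_SEC) (V : Type) [NormedAddCommGroup V] [InnerProductSpace ℂ V]
    [FiniteDimensional ℂ V] (J : V → V) (n : ℕ)
    (R : Matrix (Fin n) (Fin n) ℂ →ₗ[ℂ] (V →L[ℂ] V)) (hR : GlRep J n R) (d : Fin n → ℂ)
    (j k : Fin n) : NormedSpace.exp (Real.pi • R (Matrix.diagonal d)) * R (Matrix.single j k 1)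
      = Complex.exp ((Real.pi : ℂ) * (d j - d k)) •
        (R (Matrix.single j k 1) * NormedSpace.exp (Real.pi • R (Matrix.diagonal d))) := by
  apply hSEC
  rw [SUG_smul, smul_mul_assoc, mul_smul_comm, ← smul_sub, ← hR.lie, SUG_br, map_smul, smul_smul]

theorem SUG_expI (z : ℂ) (h : z = 0 ∨ z = 2 * Complex.I ∨ z = -(2 * Complex.I)) :
    Complex.exp ((Real.pi : ℂ) * z) = 1 := by
  rcases h with h | h | h
  · rw [h, mul_zero, Complex.exp_zero]
  · rw [h, show (Real.pi : ℂ) * (2 * Complex.I) = 2 * Real.pi * Complex.I by ring,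
      Complex.exp_two_pi_mul_I]
  · rw [h, show (Real.pi : ℂ) * (-(2 * Complex.I)) = -(2 * Real.pi * Complex.I) by ring,
      Complex.exp_neg, Complex.exp_two_pi_mul_I, inv_one]

theorem SUG_expJ (z : ℂ) (h : z = Complex.I ∨ z = -Complex.I) :
    Complex.exp ((Real.pi : ℂ) * z) = -1 := by
  rcases h with h | h
  · rw [h, Complex.exp_pi_mul_I]
  · rw [h, mul_neg, Complex.exp_neg, Complex.exp_pi_mul_I, inv_neg, inv_one]

theorem p_SUG (hINT : Stmt_INT) (hSEC : Stmt_SEC) : Stmt_SUG := by
  intro V _ _ _ J n a R hJ hR ha han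
  have : CompleteSpace V := FiniteDimensional.complete ℂ V
  obtain ⟨m, hm⟩ := ha
  have ha2 : a = 2 * m := by omega
  refine ⟨?_, ?_, ?_⟩
  · rw [← SUG_add _ _ (Commute.refl _), ← add_smul, ← two_mul, ha2]
    exact SUG_two hINT V J n R hJ hR m (by omega)
  · intro j k hjk
    have h1 := SUG_key hSEC V J n R hR (fun j => if (j : ℕ) < a then
      (if Even (j : ℕ) then Complex.I else -Complex.I) else 0) j k
    have h2 : Complex.exp ((Real.pi : ℂ) * ((fun j : Fin n => if (j : ℕ) < a then
        (if Even (j : ℕ) then Complex.I else -Complex.I) else 0) j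
        - (fun j : Fin n => if (j : ℕ) < a then
        (if Even (j : ℕ) then Complex.I else -Complex.I) else 0) k)) = 1 := by
      apply SUG_expI
      by_cases hj : (j : ℕ) < a
      · have hk : (k : ℕ) < a := hjk.mp hj
        simp only [hj, hk, if_true]
        by_cases h3 : Even (j : ℕ) <;> by_cases h4 : Even (k : ℕ) <;>
          simp only [h3, h4, if_true, if_false]
        · left
          ring
        · right; left
          ring
        · right; right
          ring
        · left
          ring
      · have hk : ¬ (k : ℕ) < a := fun h => hj (hjk.mpr h)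
        left
        simp [hj, hk]
    rw [h2, one_smul] at h1
    exact h1.symm
  · intro j k hjk
    have h1 := SUG_key hSEC V J n R hR (fun j => if (j : ℕ) < a then
      (if Even (j : ℕ) then Complex.I else -Complex.I) else 0) j k
    have h2 : Complex.exp ((Real.pi : ℂ) * ((fun j : Fin n => if (j : ℕ) < a then
        (if Even (j : ℕ) then Complex.I else -Complex.I) else 0) j
        - (fun j : Fin n => if (j : ℕ) < a then
        (if Even (j : ℕ) then Complex.I else -Complex.I) else 0) k)) = -1 := by
      apply SUG_expJ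
      by_cases hj : (j : ℕ) < a
      · have hk : ¬ (k : ℕ) < a := fun h => hjk ⟨fun _ => h, fun _ => hj⟩
        simp only [hj, hk, if_true, if_false]
        by_cases h3 : Even (j : ℕ)
        · left
          simp [h3]
        · right
          simp [h3]
      · have hk : (k : ℕ) < a := by
          by_contra hk
          exact hjk ⟨fun h => absurd h hj, fun h => absurd h hk⟩
        simp only [hj, hk, if_true, if_false]
        by_cases h3 : Even (k : ℕ)
        · right
          simp [h3]
        · left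
          simp [h3]
    rw [h2, neg_smul, one_smul] at h1
    have h5 : R (Matrix.single j k 1) * NormedSpace.exp (Real.pi • R (dm n a))
        = -(-(R (Matrix.single j k 1) * NormedSpace.exp (Real.pi • R (dm n a)))) :=
      (neg_neg _).symm
    rw [h5]
    exact congrArg Neg.neg h1.symm

end MPa8bd83
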