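import Pool.Agent.Work.MP_a8bd83_qk.Interface4

/-!
# Block SUI (helper10): the matrix units of a nonzero representation
-/

set_option autoImplicit false

namespace MPa8bd83

open Module

theorem p_SUI : Stmt_SUI := by
  intro V _ _ _ J n R hR h1 hR0 p q hpq h0
  have br : ∀ i j k : Fin n, i ≠ k → R (Matrix.single i k 1) =
      R (Matrix.single i j 1) * R (Matrix.single j k 1) -
        R (Matrix.single j k 1) * R (Matrix.single i j 1) := by
    intro i j k hik
    rw [← hR.lie, Matrix.single_mul_single_same, Matrix.single_mul_single_of_ne _ _ _ _ hik.symm,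
      sub_zero, mul_one]
  have dg : ∀ i j : Fin n, R (Matrix.single i i 1) - R (Matrix.single j j 1) =
      R (Matrix.single i j 1) * R (Matrix.single j i 1) -
        R (Matrix.single j i 1) * R (Matrix.single i j 1) := by
    intro i j
    rw [← hR.lie, Matrix.single_mul_single_same, Matrix.single_mul_single_same, mul_one, map_sub]
  -- column `q`
  have s1 : ∀ j : Fin n, j ≠ q → R (Matrix.single j q 1) = 0 := by
    intro j hj
    rw [br j p q hj, h0, mul_zero, zero_mul, sub_zero]
  -- rows `j ≠ q`
  have s2 : ∀ j k : Fin n, j ≠ q → j ≠ k → R (Matrix.single j k 1) = 0 := by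
    intro j k hj hk
    rw [br j q k hk, s1 j hj, mul_zero, zero_mul, sub_zero]
  -- the entry `(q, p)`
  have s3 : R (Matrix.single q p 1) = 0 := by
    have e1 : R (Matrix.single p p 1) - R (Matrix.single q q 1) = 0 := by
      rw [dg p q, h0, mul_zero, zero_mul, sub_zero]
    have e2 : R ((Matrix.single p p 1 - Matrix.single q q 1) * Matrix.single q p 1 -
        Matrix.single q p 1 * (Matrix.single p p 1 - Matrix.single q q 1)) = 0 := by
      rw [hR.lie, map_sub, e1, mul_zero, zero_mul, sub_zero]
    have e3 : ((Matrix.single p p 1 - Matrix.single q q 1) * Matrix.single q p 1 -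
        Matrix.single q p 1 * (Matrix.single p p 1 - Matrix.single q q 1) :
        Matrix (Fin n) (Fin n) ℂ) = (-2 : ℂ) • Matrix.single q p 1 := by
      rw [sub_mul, mul_sub, Matrix.single_mul_single_of_ne _ _ _ _ hpq,
        Matrix.single_mul_single_same, Matrix.single_mul_single_same,
        Matrix.single_mul_single_of_ne _ _ _ _ hpq, mul_one, zero_sub, sub_zero, neg_smul,
        two_smul]
      abel
    rw [e3, map_smul] at e2
    exact (smul_eq_zero.mp e2).resolve_left (by norm_num)
  -- row `q`
  have s4 : ∀ j k : Fin n, j ≠ k → R (Matrix.single j k 1) = 0 := by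
    intro j k hjk
    by_cases hj : j = q
    · subst hj
      rw [br j p k hjk, s3, zero_mul, mul_zero, sub_zero]
    · exact s2 j k hj hjk
  have s5 : ∀ i j : Fin n, R (Matrix.single i i 1) = R (Matrix.single j j 1) := by
    intro i j
    by_cases hij : i = j
    · rw [hij]
    · rw [← sub_eq_zero, dg i j, s4 i j hij, zero_mul, mul_zero, sub_zero]
  have s6 : ∀ i : Fin n, R (Matrix.single i i 1) = 0 := by
    intro i
    have e4 : (1 : Matrix (Fin n) (Fin n) ℂ) = ∑ j : Fin n, Matrix.single j j 1 := by
      ext a b
      rw [Matrix.sum_apply]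
      by_cases hab : a = b
      · subst hab
        rw [Matrix.one_apply_eq, Finset.sum_eq_single a]
        · rw [Matrix.single_apply_same]
        · intro c _ hc
          rw [Matrix.single_apply_of_ne]
          exact fun h => hc h.1
        · intro h
          exact absurd (Finset.mem_univ _) h
      · rw [Matrix.one_apply_ne hab, Finset.sum_eq_zero]
        intro c _
        rw [Matrix.single_apply_of_ne]
        exact fun h => hab (h.1.symm.trans h.2)
    rw [e4, map_sum, Finset.sum_congr rfl (fun j _ => s5 j i), Finset.sum_const,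
      Finset.card_univ, Fintype.card_fin] at h1
    have hn : (n : ℂ) ≠ 0 := by
      have := i.pos
      exact_mod_cast this.ne'
    rw [← Nat.cast_smul_eq_nsmul ℂ] at h1
    exact (smul_eq_zero.mp h1).resolve_left hn
  apply hR0
  ext1 X
  rw [Matrix.matrix_eq_sum_single X, map_sum, LinearMap.zero_apply]
  refine Finset.sum_eq_zero fun i _ => ?_
  rw [map_sum]
  refine Finset.sum_eq_zero fun j _ => ?_
  have e5 : (Matrix.single i j (X i j) : Matrix (Fin n) (Fin n) ℂ) = X i j • Matrix.single i j 1 := by
    rw [Matrix.smul_single, smul_eq_mul, mul_one]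
  rw [e5, map_smul]
  by_cases hij : i = j
  · subst hij
    rw [s6 i, smul_zero]
  · rw [s4 i j hij, smul_zero]

end MPa8bd83
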