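import Pool.Agent.Work.MP_a8bd83_qk.Interface4

set_option autoImplicit false

namespace MPa8bd83

open Module

theorem SUN_bd (N n a c : ℕ) (h : 2 * N ≤ 4 * (a ^ 2 + (n - a) ^ 2 - 1)) (hn : n = a + c) :
    N + 2 ≤ 2 * (a ^ 2 + c ^ 2) ∨ N = 0 := by
  have h1 : n - a = c := by omega
  rw [h1] at h
  generalize a ^ 2 + c ^ 2 = s at h ⊢
  omega

theorem p_SUN (hSUM : Stmt_SUM) : Stmt_SUN := by
  intro V _ _ _ J n N ρ hJ hn hN hρ hne hfree
  have key : ∀ a : ℕ, Even a → 2 ≤ a → a < n → 2 * N ≤ 4 * (a ^ 2 + (n - a) ^ 2 - 1) := by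
    intro a h1 h2 h3
    have := hSUM V J n a ρ hJ hρ hne hfree h1 h2 h3
    rw [hN] at this
    exact this
  have hn2 : 1 ≤ n ^ 2 := Nat.one_le_pow _ _ (by omega)
  obtain ⟨m, hm⟩ : ∃ m, n = 4 * m + n % 4 := ⟨n / 4, by omega⟩
  have hr : n % 4 = 0 ∨ n % 4 = 1 ∨ n % 4 = 2 ∨ n % 4 = 3 := by omega
  rcases hr with hr | hr | hr | hr
  · left
    rw [hr] at hm
    have h1 := SUN_bd N n (2 * m) (2 * m) (key (2 * m) (even_two_mul m) (by omega) (by omega))
      (by omega)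
    have h2 : n ^ 2 = 2 * ((2 * m) ^ 2 + (2 * m) ^ 2) := by
      rw [hm]
      ring
    omega
  · left
    rw [hr] at hm
    have h1 := SUN_bd N n (2 * m) (2 * m + 1)
      (key (2 * m) (even_two_mul m) (by omega) (by omega)) (by omega)
    have h2 : n ^ 2 + 1 = 2 * ((2 * m) ^ 2 + (2 * m + 1) ^ 2) := by
      rw [hm]
      ring
    omega
  · right
    refine ⟨hr, ?_⟩
    rw [hr] at hm
    have h1 := SUN_bd N n (2 * m) (2 * m + 2)
      (key (2 * m) (even_two_mul m) (by omega) (by omega)) (by omega)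
    have h2 : n ^ 2 + 4 = 2 * ((2 * m) ^ 2 + (2 * m + 2) ^ 2) := by
      rw [hm]
      ring
    omega
  · left
    rw [hr] at hm
    have h1 := SUN_bd N n (2 * m + 2) (2 * m + 1)
      (key (2 * m + 2) ⟨m + 1, by ring⟩ (by omega) (by omega)) (by omega)
    have h2 : n ^ 2 + 1 = 2 * ((2 * m + 2) ^ 2 + (2 * m + 1) ^ 2) := by
      rw [hm]
      ring
    omega

end MPa8bd83
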