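import Pool.Agent.Work.MP_a8bd83_qk.Interface9

/-!
# Block SUS: the Lie algebra su(n) is simple
-/

set_option autoImplicit false

namespace MPa8bd83

open Module

/-- complex matrices -/
abbrev SUS_M (n : ℕ) : Type := Matrix (Fin n) (Fin n) ℂ

/-- `c E_ab - conj c E_ba` -/
noncomputable def SUS_B (n : ℕ) (a b : Fin n) (c : ℂ) : SUS_M n :=
  Matrix.single a b c - Matrix.single b a (star c)

/-- `i (E_aa - E_bb)` -/
noncomputable def SUS_H (n : ℕ) (a b : Fin n) : SUS_M n :=
  Matrix.single a a Complex.I - Matrix.single b b Complex.I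

theorem SUS_starI : star Complex.I = -Complex.I := Complex.conj_I

theorem SUS_memB {n : ℕ} {a b : Fin n} (hab : a ≠ b) (c : ℂ) : SUS_B n a b c ∈ su n := by
  refine ⟨?_, ?_⟩
  · unfold SUS_B
    rw [Matrix.conjTranspose_sub, Matrix.conjTranspose_single, Matrix.conjTranspose_single,
      star_star, neg_sub]
  · unfold SUS_B
    rw [Matrix.trace_sub, Matrix.trace_single_eq_of_ne _ _ _ hab,
      Matrix.trace_single_eq_of_ne _ _ _ hab.symm, sub_zero]

theorem SUS_memH {n : ℕ} (a b : Fin n) : SUS_H n a b ∈ su n := by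
  refine ⟨?_, ?_⟩
  · unfold SUS_H
    rw [Matrix.conjTranspose_sub, Matrix.conjTranspose_single, Matrix.conjTranspose_single,
      SUS_starI, ← Matrix.single_neg, ← Matrix.single_neg]
    abel
  · unfold SUS_H
    rw [Matrix.trace_sub, Matrix.trace_single_eq_same, Matrix.trace_single_eq_same, sub_self]

theorem SUS_c1 {n : ℕ} {p q r : Fin n} (hpq : p ≠ q) (hrp : r ≠ p) (hrq : r ≠ q)
    (c d : ℂ) :
    SUS_B n p q c * SUS_B n q r d - SUS_B n q r d * SUS_B n p q c = SUS_B n p r (c * d) := by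
  unfold SUS_B
  simp only [sub_mul, mul_sub, Matrix.single_mul_single_same,
    Matrix.single_mul_single_of_ne _ _ _ _ hpq, Matrix.single_mul_single_of_ne _ _ _ _ hpq.symm,
    Matrix.single_mul_single_of_ne _ _ _ _ hrp, Matrix.single_mul_single_of_ne _ _ _ _ hrp.symm,
    Matrix.single_mul_single_of_ne _ _ _ _ hrq, Matrix.single_mul_single_of_ne _ _ _ _ hrq.symm,
    star_mul]
  abel

theorem SUS_c2 {n : ℕ} {a b : Fin n} (hab : a ≠ b) :
    SUS_B n a b 1 * SUS_B n a b Complex.I - SUS_B n a b Complex.I * SUS_B n a b 1 =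
      (2 : ℝ) • SUS_H n a b := by
  unfold SUS_B SUS_H
  rw [SUS_starI, star_one]
  simp only [sub_mul, mul_sub, Matrix.single_mul_single_same,
    Matrix.single_mul_single_of_ne _ _ _ _ hab, Matrix.single_mul_single_of_ne _ _ _ _ hab.symm,
    one_mul, mul_one, two_smul]
  rw [← Matrix.single_neg, ← Matrix.single_neg]
  abel

theorem SUS_c3 {n : ℕ} {a b : Fin n} (hab : a ≠ b) :
    SUS_H n a b * SUS_B n a b 1 - SUS_B n a b 1 * SUS_H n a b =
      (2 : ℝ) • SUS_B n a b Complex.I := by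
  unfold SUS_B SUS_H
  rw [SUS_starI, star_one]
  simp only [sub_mul, mul_sub, Matrix.single_mul_single_same,
    Matrix.single_mul_single_of_ne _ _ _ _ hab, Matrix.single_mul_single_of_ne _ _ _ _ hab.symm,
    one_mul, mul_one, two_smul]
  rw [← Matrix.single_neg]
  abel

theorem SUS_add {n : ℕ} (a b : Fin n) (c d : ℂ) :
    SUS_B n a b (c + d) = SUS_B n a b c + SUS_B n a b d := by
  unfold SUS_B
  rw [star_add, Matrix.single_add, Matrix.single_add]
  abel

theorem SUS_smul {n : ℕ} (a b : Fin n) (t : ℝ) (c : ℂ) :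
    SUS_B n a b (t • c) = t • SUS_B n a b c := by
  unfold SUS_B
  rw [star_smul, star_trivial, smul_sub, Matrix.smul_single, Matrix.smul_single]

theorem SUS_swap {n : ℕ} (a b : Fin n) (c : ℂ) :
    SUS_B n b a c = -SUS_B n a b (star c) := by
  unfold SUS_B
  rw [star_star, neg_sub]

theorem SUS_cx (c : ℂ) : c = c.re • (1 : ℂ) + c.im • Complex.I := by
  apply Complex.ext <;> simp

section

variable {n : ℕ} (K : Submodule ℝ (SUS_M n))

/-- an ideal of su(n) -/
def SUS_Id : Prop := ∀ X ∈ K, ∀ Y ∈ su n, Y * X - X * Y ∈ K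

theorem SUS_half (X : SUS_M n) (h : (2 : ℝ) • X ∈ K) : X ∈ K := by
  have h1 := K.smul_mem (1 / 2 : ℝ) h
  rw [smul_smul] at h1
  norm_num at h1
  exact h1

theorem SUS_l0 (hK : SUS_Id K) {a b : Fin n} (hab : a ≠ b) (h : SUS_B n a b 1 ∈ K) :
    SUS_H n a b ∈ K := by
  apply SUS_half
  rw [← SUS_c2 hab, ← neg_sub]
  exact K.neg_mem (hK _ h _ (SUS_memB hab _))

theorem SUS_l1 (hK : SUS_Id K) {a b : Fin n} (hab : a ≠ b) (h : SUS_B n a b 1 ∈ K)
    (c : ℂ) : SUS_B n a b c ∈ K := by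
  have h2 : SUS_B n a b Complex.I ∈ K := by
    apply SUS_half
    rw [← SUS_c3 hab]
    exact hK _ h _ (SUS_memH a b)
  rw [SUS_cx c, SUS_add, SUS_smul, SUS_smul]
  exact K.add_mem (K.smul_mem _ h) (K.smul_mem _ h2)

theorem SUS_l2 {a b : Fin n} (h : ∀ c, SUS_B n a b c ∈ K) (c : ℂ) :
    SUS_B n b a c ∈ K := by
  rw [SUS_swap]
  exact K.neg_mem (h _)

theorem SUS_l3 (hK : SUS_Id K) {p q r : Fin n} (hpq : p ≠ q) (hrp : r ≠ p)
    (h : ∀ c, SUS_B n p q c ∈ K) (c : ℂ) : SUS_B n p r c ∈ K := by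
  by_cases hrq : r = q
  · rw [hrq]
    exact h c
  · have h1 := hK _ (h c) _ (SUS_memB (fun e => hrq e.symm) 1 : SUS_B n q r 1 ∈ su n)
    have h2 := SUS_c1 hpq hrp hrq c 1
    rw [mul_one] at h2
    rw [← h2, ← neg_sub]
    exact K.neg_mem h1

theorem SUS_l5 (hK : SUS_Id K) {p q : Fin n} (hpq : p ≠ q) (h : SUS_B n p q 1 ∈ K)
    (X : SUS_M n) (hX : X ∈ su n) : X ∈ K := by
  have h0 : ∀ c, SUS_B n p q c ∈ K := SUS_l1 K hK hpq h
  have h1 : ∀ r, r ≠ p → ∀ c, SUS_B n p r c ∈ K := fun r hr => SUS_l3 K hK hpq hr h0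
  have h2 : ∀ a b, a ≠ b → ∀ c, SUS_B n a b c ∈ K := by
    intro a b hab
    by_cases ha : a = p
    · rw [ha]
      exact h1 b (fun hb => hab (ha.trans hb.symm))
    · exact SUS_l3 K hK ha (fun hb => hab hb.symm) (SUS_l2 K (h1 a ha))
  have h3 : ∀ a, SUS_H n a p ∈ K := by
    intro a
    by_cases ha : a = p
    · rw [ha]
      unfold SUS_H
      rw [sub_self]
      exact K.zero_mem
    · exact SUS_l0 K hK ha (h2 a p ha 1)
  obtain ⟨hX1, hX2⟩ := hX
  have hdiag : ∀ a, X a a = (X a a).im • Complex.I := by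
    intro a
    have e : star (X a a) = -X a a := by
      have e1 := congrFun (congrFun hX1 a) a
      rw [Matrix.conjTranspose_apply, Matrix.neg_apply] at e1
      exact e1
    have e2 : (X a a).re = 0 := by
      have e3 := congrArg Complex.re e
      simp at e3
      linarith
    apply Complex.ext <;> simp [e2]
  have htr : ∑ a, (X a a).im = 0 := by
    have e := congrArg Complex.im hX2
    simpa [Matrix.trace] using e
  have h4 : ∑ a, Matrix.single a a (X a a) = ∑ a, (X a a).im • SUS_H n a p := by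
    have e : ∀ a, (X a a).im • SUS_H n a p =
        Matrix.single a a (X a a) - (X a a).im • Matrix.single p p Complex.I := by
      intro a
      unfold SUS_H
      rw [smul_sub, Matrix.smul_single, ← hdiag a]
    rw [Finset.sum_congr rfl (fun a _ => e a), Finset.sum_sub_distrib, ← Finset.sum_smul, htr,
      zero_smul, sub_zero]
  have h5 : (2 : ℝ) • X = ∑ a, ∑ b, SUS_B n a b (X a b) := by
    have h6 : ∑ a, ∑ b, SUS_B n a b (X a b) = X - X.conjTranspose := by
      unfold SUS_B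
      simp only [Finset.sum_sub_distrib]
      congr 1
      · exact (Matrix.matrix_eq_sum_single X).symm
      · rw [Finset.sum_comm]
        exact (Matrix.matrix_eq_sum_single X.conjTranspose).symm
    rw [h6, hX1, sub_neg_eq_add, ← two_smul ℝ X]
  have h7 : ∀ a, SUS_B n a a (X a a) = (2 : ℝ) • Matrix.single a a (X a a) := by
    intro a
    have e : star (X a a) = -X a a := by
      have e1 := congrFun (congrFun hX1 a) a
      rw [Matrix.conjTranspose_apply, Matrix.neg_apply] at e1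
      exact e1
    unfold SUS_B
    rw [e, ← Matrix.single_neg, sub_neg_eq_add, two_smul]
  apply SUS_half
  have h8 : ∑ a, ∑ b, SUS_B n a b (X a b) =
      ∑ a, ∑ b ∈ Finset.univ.erase a, SUS_B n a b (X a b) +
        (2 : ℝ) • ∑ a, (X a a).im • SUS_H n a p := by
    rw [← h4, Finset.smul_sum, ← Finset.sum_add_distrib]
    refine Finset.sum_congr rfl fun a _ => ?_
    rw [← h7 a, Finset.sum_erase_add _ _ (Finset.mem_univ a)]
  rw [h5, h8]
  refine K.add_mem (K.sum_mem fun a _ => K.sum_mem fun b hb => h2 a b ?_ _)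
    (K.smul_mem _ (K.sum_mem fun a _ => K.smul_mem _ (h3 a)))
  exact fun e => (Finset.mem_erase.1 hb).1 e.symm

end

theorem p_SUS : Stmt_SUS := by
  intro V _ _ _ J n ρ hρ hne p q X hpq hX h0
  let K : Submodule ℝ (SUS_M n) := (LinearMap.ker ρ).map (su n).subtype
  have hcl : ∀ X ∈ su n, ∀ Y ∈ su n, X * Y - Y * X ∈ su n := by
    intro X hX Y hY
    obtain ⟨h1, -⟩ := hX
    obtain ⟨h2, -⟩ := hY
    refine ⟨?_, ?_⟩
    · rw [Matrix.conjTranspose_sub, Matrix.conjTranspose_mul, Matrix.conjTranspose_mul, h1, h2,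
        neg_mul_neg, neg_mul_neg, neg_sub]
    · rw [Matrix.trace_sub, Matrix.trace_mul_comm, sub_self]
  have hKid : SUS_Id K := by
    rintro X ⟨X', hX', rfl⟩ Y hY
    have h1 : ρ X' = 0 := LinearMap.mem_ker.1 hX'
    refine ⟨⟨Y * (X' : SUS_M n) - (X' : SUS_M n) * Y, hcl _ hY _ X'.2⟩, ?_, rfl⟩
    refine LinearMap.mem_ker.2 ?_
    rw [hρ.lie ⟨Y, hY⟩ X' _ rfl, h1, mul_zero, zero_mul, sub_zero]
  have hin : SUS_B n p q 1 ∈ K := by
    refine ⟨X, LinearMap.mem_ker.2 h0, ?_⟩
    show (X : SUS_M n) = _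
    rw [hX]
    unfold SUS_B
    rw [star_one]
  apply hne
  ext1 Z
  obtain ⟨X', hX', hXX⟩ := SUS_l5 K hKid hpq hin (Z : SUS_M n) Z.2
  have h2 : X' = Z := Subtype.ext hXX
  rw [← h2]
  exact LinearMap.mem_ker.1 hX'

end MPa8bd83
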