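import Pool.Agent.Work.MP_a8bd83_qk.Interface

/-! Block SZC (helper28): zero criterion for `sl_2`. -/

set_option autoImplicit false

namespace MPa8bd83

theorem SZC : Stmt_SZC := by
  intro V _ _ _ _ J k η E hJ hD x h1 h2 h3 h4 h5
  obtain ⟨-, -, -, -, -, -, -, -, hk⟩ := hD
  intro ξ hξ
  obtain ⟨a, b, c, rfl⟩ := hk ξ hξ
  have h6 : inner ℂ x ((ContinuousLinearMap.adjoint E) x) = (0 : ℂ) := by
    rw [ContinuousLinearMap.adjoint_inner_right, ← inner_conj_symm, h3, map_zero]
  have e : (a • η + b • E + c • ContinuousLinearMap.adjoint E) x =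
      (a : ℂ) • η x + b • E x + c • (ContinuousLinearMap.adjoint E) x := by
    simp
  constructor
  · rw [e, inner_add_right, inner_add_right, inner_smul_right, inner_smul_right, inner_smul_right,
      h1, h3, h6]
    simp
  · rw [e, inner_add_right, inner_add_right, inner_smul_right, inner_smul_right, inner_smul_right,
      h2, h4, h5]
    simp

end MPa8bd83
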