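import Pool.Agent.Work.MP_a8bd83_qk.Interface2

set_option autoImplicit false

/-! # Block TOT: the total dimension in coordinates (helper3) -/

namespace MPa8bd83

open Module

theorem p_TOT (hCRD : Stmt_CRD) : Stmt_TOT := by
  intro V _ _ _ J k t hF α β τ σ hP
  classical
  obtain ⟨-, -, h3, -⟩ := hCRD V J k t hF α β τ σ hP
  choose! X Y hXY using h3
  have hdim := hF.dim hF.wfin.toFinset fun w hw => hF.wfin.mem_toFinset.2 hw
  refine ⟨hF.wfin.toFinset.image fun w => (X w, Y w), ?_⟩
  rw [Finset.sum_image, hdim]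
  · refine Finset.sum_congr rfl fun w hw => ?_
    have hw' : IsWt t w := hF.wfin.mem_toFinset.1 hw
    show finrank ℂ (Wt t w) = finrank ℂ (Wt t (pt α β (X w) (Y w)))
    rw [← hXY w hw']
  · intro w hw w' hw' h
    have h1 : IsWt t w := hF.wfin.mem_toFinset.1 hw
    have h2 : IsWt t w' := hF.wfin.mem_toFinset.1 hw'
    have h4 := Prod.mk.inj h
    rw [hXY w h1, hXY w' h2, h4.1, h4.2]

end MPa8bd83
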