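import Pool.Agent.Work.MP_a8bd83_qk.Interface

/-!
MP_a8bd83_gt, block U1W (typed by helper4).
-/

namespace MPa8bd83

open Module

theorem U1W : Stmt_U1W := by
  intro V _ _ _ J k η hJ hU hfree hEV
  obtain ⟨hηk, hsp, hη0, hk⟩ := hU
  obtain ⟨hspan, horth, hJe, hexp, hpi⟩ := hEV V J η hJ hsp
  -- elementary facts
  have hJself : ∀ e : V, inner ℂ (J e) e = 0 := by
    intro e
    have h := hJ.inner e (J e)
    rw [hJ.sq, inner_neg_right] at h
    have h2 : (2 : ℂ) * inner ℂ (J e) e = 0 := by linear_combination -h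
    rcases mul_eq_zero.mp h2 with h3 | h3
    · norm_num at h3
    · exact h3
  have hJself' : ∀ e : V, inner ℂ e (J e) = 0 := by
    intro e
    rw [← inner_conj_symm, hJself e, map_zero]
  have hJ0 : ∀ e : V, e ≠ 0 → J e ≠ 0 := by
    intro e he h
    have h1 := hJ.sq e
    rw [h] at h1
    have h2 : J (0 : V) = 0 := by
      have := hJ.smul 0 (0 : V)
      simpa using this
    rw [h2] at h1
    exact he (neg_eq_zero.mp h1.symm)
  have hMZ : ∀ x : V, inner ℂ x (η x) = 0 → inner ℂ (J x) (η x) = 0 → MomentZero J k x := by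
    intro x h1 h2 ξ hξ
    obtain ⟨a, rfl⟩ := hk ξ hξ
    have h3 : (a • η) x = (a : ℂ) • η x := by
      simp
    rw [h3, inner_smul_right, inner_smul_right, h1, h2]
    simp
  have hno_pi : ∀ c : ℝ, c = 1 → ∀ n : ℤ, c ≠ n * Real.pi := by
    intro c hc n h
    rw [hc] at h
    have hp := Real.pi_gt_three
    rcases lt_trichotomy n 0 with hn | hn | hn
    · have : (n : ℝ) ≤ -1 := by exact_mod_cast Int.le_sub_one_of_lt hn
      nlinarith
    · rw [hn] at h
      norm_num at h
    · have : (1 : ℝ) ≤ n := by exact_mod_cast hn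
      nlinarith
  -- zero is not an eigenvalue
  have hnz : ∀ e : V, e ≠ 0 → η e ≠ 0 := by
    intro e he h0
    have hz : MomentZero J k e := by
      apply hMZ
      · rw [h0, inner_zero_right]
      · rw [h0, inner_zero_right]
    have hall : ∀ s : ℝ, NormedSpace.exp (s • η) = 1 ∨ NormedSpace.exp (s • η) = -1 := by
      intro s
      apply hfree e he hz (s • η) (k.smul_mem s hηk)
      have h1 := hexp 0 s e (by rw [h0]; simp)
      rw [h1]
      exact Submodule.smul_mem _ _ (Submodule.subset_span (by simp))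
    have hall0 : ∀ (a : ℝ) (v : V), η v = ((a : ℂ) * Complex.I) • v → η v = 0 := by
      intro a v hv
      by_cases hv0 : v = 0
      · rw [hv0, map_zero]
      by_cases ha : a = 0
      · rw [hv, ha]
        simp
      exfalso
      obtain ⟨n, hn⟩ := hpi (1 / a) (hall _) a v hv0 hv
      exact hno_pi (1 / a * a) (by field_simp) n hn
    apply hη0
    ext x
    have hx := hspan x
    induction hx using Submodule.span_induction with
    | mem y hy =>
      obtain ⟨a, ha⟩ := hy
      simpa using hall0 a y ha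
    | zero => simp
    | add y z _ _ hy hz' => simp only [map_add, hy, hz']
    | smul c y _ hy => simp only [map_smul, hy]
  have hne0 : ∀ (a : ℝ) (v : V), v ≠ 0 → η v = ((a : ℂ) * Complex.I) • v → a ≠ 0 := by
    intro a v hv h ha
    apply hnz v hv
    rw [h, ha]
    simp
  -- two positive eigenvalues are equal
  have hkey : ∀ (a b : ℝ) (e f : V), 0 < a → 0 < b → e ≠ 0 → f ≠ 0 →
      η e = ((a : ℂ) * Complex.I) • e → η f = ((b : ℂ) * Complex.I) • f → a = b := by
    intro a b e f ha hb he hf hηe hηf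
    by_contra hab
    have hJf := hJe b f hηf
    have heJf : inner ℂ e (J f) = 0 := horth a (-b) e (J f) (by linarith) hηe hJf
    have hJfe : inner ℂ (J f) e = 0 := by rw [← inner_conj_symm, heJf, map_zero]
    have hfe : inner ℂ f e = 0 := horth b a f e (Ne.symm hab) hηf hηe
    have hJeJf : inner ℂ (J e) (J f) = 0 := by rw [hJ.inner, hfe]
    have hJfJf : inner ℂ (J f) (J f) = inner ℂ f f := hJ.inner f f
    obtain ⟨α, hα⟩ : ∃ α : ℝ, α = Real.sqrt b * ‖f‖ := ⟨_, rfl⟩
    obtain ⟨β, hβ⟩ : ∃ β : ℝ, β = Real.sqrt a * ‖e‖ := ⟨_, rfl⟩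
    have hα2 : α ^ 2 = b * ‖f‖ ^ 2 := by rw [hα, mul_pow, Real.sq_sqrt hb.le]
    have hβ2 : β ^ 2 = a * ‖e‖ ^ 2 := by rw [hβ, mul_pow, Real.sq_sqrt ha.le]
    have hαpos : 0 < α := by
      rw [hα]
      exact mul_pos (Real.sqrt_pos.mpr hb) (norm_pos_iff.mpr hf)
    have hee : inner ℂ e e = ((‖e‖ ^ 2 : ℝ) : ℂ) := by
      rw [inner_self_eq_norm_sq_to_K]
      push_cast
      rfl
    have hff : inner ℂ f f = ((‖f‖ ^ 2 : ℝ) : ℂ) := by
      rw [inner_self_eq_norm_sq_to_K]
      push_cast
      rfl
    obtain ⟨x, hx⟩ : ∃ x : V, x = (α : ℂ) • e + (β : ℂ) • J f := ⟨_, rfl⟩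
    have hJx : J x = (α : ℂ) • J e - (β : ℂ) • f := by
      rw [hx, hJ.add, hJ.smul, hJ.smul, hJ.sq, Complex.conj_ofReal, Complex.conj_ofReal,
        smul_neg, sub_eq_add_neg]
    have hηx : η x = ((α : ℂ) * ((a : ℂ) * Complex.I)) • e
        + ((β : ℂ) * (((-b : ℝ) : ℂ) * Complex.I)) • J f := by
      rw [hx, map_add, map_smul, map_smul, hηe, hJf, smul_smul, smul_smul]
    have hx0 : x ≠ 0 := by
      intro h
      have h1 : inner ℂ e x = 0 := by rw [h, inner_zero_right]
      rw [hx, inner_add_right, inner_smul_right, inner_smul_right, heJf, hee, mul_zero,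
        add_zero] at h1
      rcases mul_eq_zero.mp h1 with h2 | h2
      · exact hαpos.ne' (by exact_mod_cast h2)
      · have h3 : (‖e‖ ^ 2 : ℝ) = 0 := by exact_mod_cast h2
        exact he (norm_eq_zero.mp (pow_eq_zero_iff (two_ne_zero) |>.mp h3))
    have hz : MomentZero J k x := by
      apply hMZ
      · rw [hηx]
        conv_lhs => rw [hx]
        simp only [inner_add_left, inner_add_right, inner_smul_left, inner_smul_right,
          Complex.conj_ofReal, heJf, hJfe, hJfJf, hee, hff]
        have h1 : (α : ℂ) ^ 2 = (b : ℂ) * (‖f‖ : ℂ) ^ 2 := by exact_mod_cast hα2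
        have h2 : (β : ℂ) ^ 2 = (a : ℂ) * (‖e‖ : ℂ) ^ 2 := by exact_mod_cast hβ2
        push_cast
        linear_combination ((a : ℂ) * Complex.I * (‖e‖ : ℂ) ^ 2) * h1
          - ((b : ℂ) * Complex.I * (‖f‖ : ℂ) ^ 2) * h2
      · rw [hηx, hJx]
        simp only [inner_sub_left, inner_add_right, inner_smul_left, inner_smul_right,
          Complex.conj_ofReal, hJself, hJeJf, hfe, hJself']
        ring
    obtain ⟨s, hs⟩ : ∃ s : ℝ, s = 2 * Real.pi / (a + b) := ⟨_, rfl⟩
    have hsab : s * a + s * b = 2 * Real.pi := by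
      rw [hs]
      field_simp
    have hexpx : NormedSpace.exp (s • η) x
        = Complex.exp (((s * a : ℝ) : ℂ) * Complex.I) • x := by
      have h1 := hexp a s e hηe
      have h2 := hexp (-b) s (J f) hJf
      have h3 : Complex.exp (((s * (-b) : ℝ) : ℂ) * Complex.I)
          = Complex.exp (((s * a : ℝ) : ℂ) * Complex.I) := by
        have h4 : ((s * a : ℝ) : ℂ) * Complex.I
            = ((s * (-b) : ℝ) : ℂ) * Complex.I + 2 * (Real.pi : ℂ) * Complex.I := by
          have h5 : ((s * a : ℝ) : ℂ) = ((s * (-b) : ℝ) : ℂ) + 2 * (Real.pi : ℂ) := by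
            have h6 : s * a = s * (-b) + 2 * Real.pi := by linarith
            exact_mod_cast h6
          rw [h5]
          ring
        rw [h4, Complex.exp_add, Complex.exp_two_pi_mul_I, mul_one]
      rw [hx, map_add, map_smul, map_smul, h1, h2, h3, smul_add, smul_comm,
        smul_comm (β : ℂ)]
    have hpm := hfree x hx0 hz (s • η) (k.smul_mem s hηk) (by
      rw [hexpx]
      exact Submodule.smul_mem _ _ (Submodule.subset_span (by simp)))
    obtain ⟨n, hn⟩ := hpi s hpm a e he hηe
    have hab0 : 0 < a + b := by linarith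
    have hpp := Real.pi_pos
    have h7 : 2 * a = n * (a + b) := by
      have h8 : s * (a + b) = 2 * Real.pi := by linarith
      have h9 : Real.pi * (2 * a) = Real.pi * (n * (a + b)) := by
        calc Real.pi * (2 * a) = (s * (a + b)) * a := by rw [h8]; ring
          _ = (s * a) * (a + b) := by ring
          _ = _ := by rw [hn]; ring
      exact mul_left_cancel₀ hpp.ne' h9
    have hn0 : 0 < n := by
      by_contra hcon
      have : (n : ℝ) ≤ 0 := by exact_mod_cast not_lt.mp hcon
      nlinarith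
    have hn2 : n < 2 := by
      by_contra hcon
      have : (2 : ℝ) ≤ n := by exact_mod_cast not_lt.mp hcon
      nlinarith
    have hn1 : n = 1 := by omega
    rw [hn1] at h7
    apply hab
    push_cast at h7
    linarith
  -- existence of an eigenvector
  obtain ⟨a, v, hv, hav⟩ : ∃ (a : ℝ) (v : V), v ≠ 0 ∧ η v = ((a : ℂ) * Complex.I) • v := by
    by_contra hcon
    push Not at hcon
    apply hη0
    ext x
    have hx := hspan x
    induction hx using Submodule.span_induction with
    | mem y hy =>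
      obtain ⟨a, ha⟩ := hy
      by_cases hy0 : y = 0
      · rw [hy0, map_zero, map_zero]
      · exact absurd ha (hcon a y hy0)
    | zero => simp
    | add y z _ _ hy hz' => simp only [map_add, hy, hz']
    | smul c y _ hy => simp only [map_smul, hy]
  obtain ⟨a', v', ha', hv', hav'⟩ : ∃ (a' : ℝ) (v' : V), 0 < a' ∧ v' ≠ 0 ∧
      η v' = ((a' : ℂ) * Complex.I) • v' := by
    rcases lt_or_gt_of_ne (hne0 a v hv hav) with h | h
    · exact ⟨-a, J v, by linarith, hJ0 v hv, hJe a v hav⟩
    · exact ⟨a, v, h, hv, hav⟩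
  refine ⟨a', ha', fun b w hw hbw => ?_⟩
  rcases lt_or_gt_of_ne (hne0 b w hw hbw) with h | h
  · right
    have := hkey (-b) a' (J w) v' (by linarith) ha' (hJ0 w hw) hv' (hJe b w hbw) hav'
    linarith
  · left
    exact hkey b a' w v' h ha' hw hv' hbw hav'

end MPa8bd83
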