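/-
MP_a8bd83_gt, block USC: number of usable weights.
-/
import Pool.Agent.Work.MP_a8bd83_qk.Interface

namespace MPa8bd83

open Module

theorem USC : Stmt_USC := by
  classical
  intro V _ _ _ _ J k t hJ hk ht _ _ hRSY hGRE hCOC h p hh hp S hS
  by_contra hcon
  rw [not_le] at hcon
  have hneg : ∀ α : Dual ℝ t, IsRoot k t α → IsRoot k t (-α) :=
    (hRSY V J k t hJ hk ht.le).2.2.2.2
  obtain ⟨T, hTS, hTc, hT⟩ := hGRE (Dual ℝ t) (fun w => w h)
    (fun w w' => IsRoot k t (w - w') ∨ IsRoot k t (w' - w) ∨ IsRoot k t (w + w')) p
    (by
      intro x y hxy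
      rcases hxy with h1 | h1 | h1
      · exact Or.inr (Or.inl h1)
      · exact Or.inl h1
      · right
        right
        rw [add_comm]
        exact h1)
    (finrank ℝ t) S
    (by
      intro w hw T hTS hT
      have hwpos : 0 < w h := (hS w hw).1
      have hroot : ∀ y ∈ T, ¬ IsRoot k t (y - w) → IsRoot k t (w + y) := by
        intro y hy hn
        rcases (hT y hy).2.1 with h1 | h1 | h1
        · exfalso
          apply hn
          have h2 := hneg _ h1
          rwa [neg_sub] at h2
        · exact absurd h1 hn
        · exact h1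
      have hinj : Set.InjOn (fun y : Dual ℝ t => if IsRoot k t (y - w) then w - y else w + y)
          (T : Set (Dual ℝ t)) := by
        intro y hy y' hy' hyy
        have hy1 : 0 < y h := (hS y (hTS hy)).1
        have hy2 : 0 < y' h := (hS y' (hTS hy')).1
        simp only at hyy
        split_ifs at hyy with h1 h2 h2
        · exact sub_right_injective hyy
        · exfalso
          have h3 := congrArg (fun φ : Dual ℝ t => φ h) hyy
          simp only [LinearMap.sub_apply, LinearMap.add_apply] at h3
          linarith
        · exfalso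
          have h3 := congrArg (fun φ : Dual ℝ t => φ h) hyy
          simp only [LinearMap.sub_apply, LinearMap.add_apply] at h3
          linarith
        · exact add_right_injective w hyy
      rw [← Finset.card_image_of_injOn hinj]
      apply hp
      intro α hα
      rw [Finset.mem_image] at hα
      obtain ⟨y, hy, rfl⟩ := hα
      have hy1 : 0 < y h := (hS y (hTS hy)).1
      split_ifs with h1
      · have h2 := hneg _ h1
        rw [neg_sub] at h2
        refine ⟨h2, ?_⟩
        have h3 : y h ≤ w h := (hT y hy).2.2
        have h4 := hh _ h2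
        rw [LinearMap.sub_apply] at h4 ⊢
        exact lt_of_le_of_ne (by linarith) (Ne.symm h4)
      · refine ⟨hroot y hy h1, ?_⟩
        rw [LinearMap.add_apply]
        linarith)
    (by rw [mul_comm]; exact hcon)
  have hchoice : ∀ w : T, ∃ e ∈ Wt t (w : Dual ℝ t), ‖e‖ = 1 ∧
      ∀ X ∈ Rt k t (-((w : Dual ℝ t) + (w : Dual ℝ t))), inner ℂ (J e) (X e) = 0 :=
    fun w => (hS w (hTS w.2)).2
  choose e he1 he2 he3 using hchoice
  have hzero : ∀ α : Dual ℝ t, α ≠ 0 → ¬ IsRoot k t α → ∀ X ∈ Rt k t α, X = 0 := by
    intro α hα hn X hX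
    by_contra hX0
    apply hn
    refine ⟨hα, ?_⟩
    intro hb
    rw [hb, Submodule.mem_bot] at hX
    exact hX0 hX
  have hA : Admissible J k t (fun i : T => (i : Dual ℝ t)) e := by
    refine ⟨he1, he2, ?_, ?_⟩
    · intro i j hij X hX
      have hne : (i : Dual ℝ t) ≠ j := fun hc => hij (Subtype.ext hc)
      have h1 : X = 0 := hzero _ (sub_ne_zero.mpr hne)
        (fun hr => hT i i.2 j j.2 hne (Or.inl hr)) X hX
      rw [h1]
      simp
    · intro i j X hX
      by_cases hij : i = j
      · subst hij
        exact he3 i X hX
      · have hne : (i : Dual ℝ t) ≠ j := fun hc => hij (Subtype.ext hc)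
        have hi1 : 0 < (i : Dual ℝ t) h := (hS i (hTS i.2)).1
        have hj1 : 0 < (j : Dual ℝ t) h := (hS j (hTS j.2)).1
        have h1 : X = 0 := by
          refine hzero _ ?_ ?_ X hX
          · intro hc
            have h2 := congrArg (fun φ : Dual ℝ t => φ h) hc
            simp only [LinearMap.neg_apply, LinearMap.add_apply, LinearMap.zero_apply] at h2
            linarith
          · intro hr
            have h2 := hneg _ hr
            rw [neg_neg] at h2
            exact hT i i.2 j j.2 hne (Or.inr (Or.inr h2))
        rw [h1]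
        simp
  have hfin := hCOC T (fun i : T => (i : Dual ℝ t)) e hA
  rw [Fintype.card_coe, hTc] at hfin
  omega

end MPa8bd83
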