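import Pool.Agent.Work.MP_a8bd83_qk.Interface

namespace MPa8bd83

open Module

theorem USE : Stmt_USE := by
  intro V _ _ _ _ J k t hJ hk hM sRTZ sRSY sHEI sONE sISP w hw hwt h
  obtain ⟨hadj, hadjR, hsym, hJX, hneg⟩ := sRSY V J k t hJ hk hM.le
  have hww : w + w ≠ 0 := by
    intro h
    apply hw
    have h2 : (2 : ℝ) • w = 0 := by rw [two_smul]; exact h
    exact (smul_eq_zero.1 h2).resolve_left two_ne_zero
  have hnww : -(w + w) ≠ 0 := neg_ne_zero.2 hww
  by_cases hroot : IsRoot k t (w + w)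
  · have h2 : 2 ≤ finrank ℂ (Wt t w) := h.resolve_left (fun h => h hroot)
    obtain ⟨X0, hX0, hspan⟩ : ∃ X0 ∈ Rt k t (-(w + w)), ∀ X ∈ Rt k t (-(w + w)),
        ∃ c : ℂ, X = c • X0 := by
      by_cases hb : Rt k t (-(w + w)) = ⊥
      · refine ⟨0, zero_mem _, fun X hX => ⟨0, ?_⟩⟩
        rw [hb, Submodule.mem_bot] at hX
        rw [hX, smul_zero]
      · obtain ⟨E, hE, hE0⟩ := Submodule.exists_mem_ne_zero_of_ne_bot hb
        exact ⟨E, hE, fun X hX => sONE V J k t hJ hk hM sRTZ sRSY sHEI _ E X hnww hE hE0 hX⟩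
    have hX0k : X0 ∈ kC k := hX0.1
    obtain ⟨h1, -, -⟩ := sISP V (fun u v => inner ℂ (J u) (X0 v)) (fun u v => hsym X0 hX0k u v)
      (fun u v v' => by rw [map_add, inner_add_right]) (fun c u v => by
        rw [map_smul, inner_smul_right])
    obtain ⟨u, hu, hu1, huu⟩ := h1 (Wt t w) h2
    refine ⟨u, hu, hu1, ?_⟩
    intro X hX
    obtain ⟨c, rfl⟩ := hspan X hX
    rw [_root_.smul_apply, inner_smul_right, huu, mul_zero]
  · have hb : Rt k t (-(w + w)) = ⊥ := by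
      by_contra h
      have h1 := hneg _ ⟨hnww, h⟩
      rw [neg_neg] at h1
      exact hroot h1
    obtain ⟨v, hv, hv0⟩ := Submodule.exists_mem_ne_zero_of_ne_bot hwt
    have hn : (‖v‖ : ℂ) ≠ 0 := by
      simpa using hv0
    refine ⟨((‖v‖ : ℂ)⁻¹) • v, Submodule.smul_mem _ _ hv, ?_, ?_⟩
    · rw [norm_smul, norm_inv, Complex.norm_real, norm_norm]
      exact inv_mul_cancel₀ (norm_ne_zero_iff.2 hv0)
    · intro X hX
      rw [hb, Submodule.mem_bot] at hX
      rw [hX]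
      simp

end MPa8bd83
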