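import Pool.Agent.Work.MP_a8bd83_qk.Interface

/-! Block VZE (helper69): `0` is not a weight. -/

set_option autoImplicit false

namespace MPa8bd83

open Module

theorem VZE_kill {V : Type} [NormedAddCommGroup V] [InnerProductSpace ℂ V]
    (t : Submodule ℝ (V →L[ℂ] V)) (e : V) (he : e ∈ Wt t (0 : Dual ℝ t)) :
    ∀ X ∈ kC t, X e = 0 := by
  intro X hX
  refine Submodule.span_induction (p := fun X _ => X e = 0) ?_ ?_ ?_ ?_ hX
  · intro ξ hξ
    have := he ⟨ξ, hξ⟩
    simpa using this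
  · simp
  · intro A B _ _ hA hB
    rw [_root_.add_apply, hA, hB, add_zero]
  · intro c A _ hA
    rw [_root_.smul_apply, hA, smul_zero]

theorem VZE : Stmt_VZE := by
  intro V _ _ _ J k t hJ hL hM hF hWTD hWTO hRTD hRTZ hEXP hLIN hr w hw h0
  subst h0
  have htsp : ∀ ξ ∈ t, IsSp J ξ := fun ξ hξ => hL.sp ξ (hM.le hξ)
  obtain ⟨o1, o2, -, o4⟩ := hWTO V J k t hJ htsp
  obtain ⟨z1, -, -⟩ := hRTZ V J k t hJ hL hM
  have hdec := hRTD V J k t hJ hL hM hWTD
  obtain ⟨e, he, hne⟩ := (Submodule.ne_bot_iff _).1 hw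
  have hJe : J e ∈ Wt t (0 : Dual ℝ t) := by
    have := o2 0 e he
    rwa [neg_zero] at this
  have hall : ∀ X ∈ kC k, inner ℂ e (X e) = 0 ∧ inner ℂ (J e) (X e) = 0 := by
    intro X hX
    rw [hdec] at hX
    refine Submodule.iSup_induction (fun α => Rt k t α)
      (motive := fun X => inner ℂ e (X e) = 0 ∧ inner ℂ (J e) (X e) = 0) hX ?_ ?_ ?_
    · intro α X hXα
      by_cases hα : α = 0
      · subst hα
        rw [z1] at hXα
        have := VZE_kill t e he X hXα
        rw [this]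
        exact ⟨inner_zero_right _, inner_zero_right _⟩
      · have h1 := o4 0 α X hXα e he
        rw [zero_add] at h1
        exact ⟨o1 0 α (Ne.symm hα) e he _ h1, o1 0 α (Ne.symm hα) _ hJe _ h1⟩
    · exact ⟨by simp, by simp⟩
    · rintro A B ⟨a1, a2⟩ ⟨b1, b2⟩
      rw [_root_.add_apply, inner_add_right, inner_add_right, a1, a2, b1, b2]
      exact ⟨by simp, by simp⟩
  have hmz : MomentZero J k e := fun ξ hξ => hall ξ (Submodule.subset_span hξ)
  have hzero : ∀ η : t, η = 0 := by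
    intro η
    refine hLIN V J k t hJ hL hM hF hWTD hEXP e hne hmz η ?_
    intro s
    exact ⟨_, (hEXP V t).1 (s • η) 0 e he⟩
  have : Subsingleton t := ⟨fun a b => by rw [hzero a, hzero b]⟩
  have h0 : finrank ℝ t = 0 := finrank_zero_of_subsingleton
  omega

end MPa8bd83
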