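/-
MP_a8bd83_gt, part 6, block WT1 (helper2): joint eigenspaces.
-/
import Pool.Agent.Work.MP_a8bd83_qk.Interface6

set_option autoImplicit false

namespace MPa8bd83

open Module

theorem WT1_sum {V : Type} [AddCommGroup V] [Module ℂ V] [FiniteDimensional ℂ V] {ι : Type}
    (N : ι → Submodule ℂ V) (hN : iSupIndep N) (T : Finset ι) :
    finrank ℂ (T.sup N : Submodule ℂ V) = ∑ w ∈ T, finrank ℂ (N w) := by
  classical
  induction T using Finset.induction_on with
  | empty => simp
  | insert a T ha ih =>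
    rw [Finset.sup_insert, Finset.sum_insert ha, ← ih]
    have hd : Disjoint (N a) (T.sup N) := by
      have h1 := hN a
      refine h1.mono_right ?_
      refine Finset.sup_le fun b hb => ?_
      have hba : b ≠ a := fun h => ha (h ▸ hb)
      exact le_iSup₂_of_le b hba le_rfl
    have h2 := Submodule.finrank_sup_add_finrank_inf_eq (N a) (T.sup N)
    rw [hd.eq_bot] at h2
    simpa using h2

/-- the symmetric operators -/
noncomputable def WT1_T {V : Type} [NormedAddCommGroup V] [InnerProductSpace ℂ V] {n : ℕ}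
    (H : Fin n → (V →L[ℂ] V)) (l : Fin n) : V →ₗ[ℂ] V := (-Complex.I) • (H l : V →ₗ[ℂ] V)

theorem WT1_T_apply {V : Type} [NormedAddCommGroup V] [InnerProductSpace ℂ V] {n : ℕ}
    (H : Fin n → (V →L[ℂ] V)) (l : Fin n) (v : V) : WT1_T H l v = (-Complex.I) • H l v := rfl

theorem WT1_symm {V : Type} [NormedAddCommGroup V] [InnerProductSpace ℂ V] {n : ℕ} (J : V → V)
    (H : Fin n → (V →L[ℂ] V)) (hH : TorSys J H) (l : Fin n) : (WT1_T H l).IsSymmetric := by
  intro x y
  rw [WT1_T_apply, WT1_T_apply, inner_smul_left, inner_smul_right, (hH.sp l).skew x y]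
  simp

theorem WT1_eig {V : Type} [NormedAddCommGroup V] [InnerProductSpace ℂ V] {n : ℕ}
    (H : Fin n → (V →L[ℂ] V)) (l : Fin n) (c : ℂ) (v : V) :
    WT1_T H l v = c • v ↔ H l v = (c * Complex.I) • v := by
  rw [WT1_T_apply]
  constructor
  · intro h
    have h1 := congrArg (fun w => Complex.I • w) h
    simp only [smul_smul] at h1
    have h2 : Complex.I * -Complex.I = 1 := by
      rw [mul_neg, Complex.I_mul_I, neg_neg]
    rw [h2, one_smul] at h1
    rw [h1, mul_comm]
  · intro h
    rw [h, smul_smul]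
    congr 1
    linear_combination (-c) * Complex.I_mul_I

theorem WT1_Vw {V : Type} [NormedAddCommGroup V] [InnerProductSpace ℂ V] {n : ℕ}
    (H : Fin n → (V →L[ℂ] V)) (w : Fin n → ℤ) :
    Vw H w = ⨅ l, End.eigenspace (WT1_T H l) (w l : ℂ) := by
  ext v
  rw [Submodule.mem_iInf]
  simp only [Module.End.mem_eigenspace_iff, WT1_eig]
  rfl

theorem p_WT1 (hE : Stmt_EV1) : Stmt_WT1 := by
  intro V _ _ _ J n H hJ hH
  classical
  have hc : Pairwise (Function.onFun Commute (WT1_T H)) := by
    intro l l' _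
    show WT1_T H l * WT1_T H l' = WT1_T H l' * WT1_T H l
    ext v
    have h1 := congrArg (fun A : V →L[ℂ] V => A v) (hH.comm l l')
    have h2 : H l (H l' v) = H l' (H l v) := h1
    show WT1_T H l (WT1_T H l' v) = WT1_T H l' (WT1_T H l v)
    simp only [WT1_T_apply, map_smul, h2]
  have hint := LinearMap.IsSymmetric.directSum_isInternal_of_pairwise_commute (WT1_symm J H hH) hc
  set N : (Fin n → ℂ) → Submodule ℂ V := fun χ => ⨅ j, End.eigenspace (WT1_T H j) (χ j) with hNdef
  have hind : iSupIndep N := hint.submodule_iSupIndep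
  have hVN : ∀ w : Fin n → ℤ, Vw H w = N (fun l => (w l : ℂ)) := WT1_Vw H
  have hinj : Function.Injective (fun (w : Fin n → ℤ) => fun l => ((w l : ℤ) : ℂ)) := by
    intro w w' h
    funext l
    exact Int.cast_injective (congrFun h l)
  have hVind : iSupIndep (Vw H) := by
    have h1 := hind.comp hinj
    have h2 : (N ∘ fun (w : Fin n → ℤ) => fun l => ((w l : ℤ) : ℂ)) = Vw H := by
      funext w
      exact (hVN w).symm
    rw [h2] at h1
    exact h1
  -- integrality
  have hZ : ∀ χ : Fin n → ℂ, N χ ≠ ⊥ → ∃ w : Fin n → ℤ, χ = fun l => (w l : ℂ) := by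
    intro χ hχ
    obtain ⟨v, hv, hv0⟩ := Submodule.exists_mem_ne_zero_of_ne_bot hχ
    have hv' : ∀ l, WT1_T H l v = χ l • v := by
      intro l
      rw [hNdef, Submodule.mem_iInf] at hv
      exact Module.End.mem_eigenspace_iff.1 (hv l)
    have hl : ∀ l, ∃ m : ℤ, χ l = m := by
      intro l
      have h1 : Module.End.HasEigenvalue (WT1_T H l) (χ l) :=
        Module.End.hasEigenvalue_of_hasEigenvector ⟨Module.End.mem_eigenspace_iff.2 (hv' l), hv0⟩
      have h2 := (WT1_symm J H hH l).conj_eigenvalue_eq_self h1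
      have h3 : ((χ l).re : ℂ) = χ l := by
        rw [Complex.conj_eq_iff_re] at h2
        exact h2
      have h4 : H l v = (((χ l).re : ℂ) * Complex.I) • v := by
        rw [h3]
        exact (WT1_eig H l (χ l) v).1 (hv' l)
      obtain ⟨-, -, -, e4, -⟩ := hE V J (H l) hJ (hH.sp l)
      have h5 := e4 (χ l).re (2 * Real.pi) v h4
      rw [hH.per l, ContinuousLinearMap.one_apply] at h5
      have h6 : Complex.exp (((2 * Real.pi * (χ l).re : ℝ) : ℂ) * Complex.I) = 1 := by
        have h7 : (Complex.exp (((2 * Real.pi * (χ l).re : ℝ) : ℂ) * Complex.I) - 1) • v = 0 := by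
          rw [sub_smul, one_smul, ← h5, sub_self]
        rcases smul_eq_zero.1 h7 with h8 | h8
        · exact sub_eq_zero.1 h8
        · exact absurd h8 hv0
      obtain ⟨m, hm⟩ := Complex.exp_eq_one_iff.1 h6
      refine ⟨m, ?_⟩
      rw [← h3]
      have hpi : (2 * (Real.pi : ℂ) * Complex.I) ≠ 0 := by
        refine mul_ne_zero (mul_ne_zero two_ne_zero ?_) Complex.I_ne_zero
        exact_mod_cast Real.pi_ne_zero
      apply mul_right_cancel₀ hpi
      rw [← hm]
      push_cast
      ring
    choose w hw using hl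
    exact ⟨w, funext hw⟩
  refine ⟨?_, ?_⟩
  · have hfin : {w | Vw H w ≠ ⊥}.Finite := Submodule.finite_ne_bot_of_iSupIndep hVind
    refine ⟨hfin.toFinset, fun w hw => hfin.mem_toFinset.2 hw, ?_⟩
    rw [← WT1_sum (Vw H) hVind]
    have htop : (hfin.toFinset.sup (Vw H) : Submodule ℂ V) = ⊤ := by
      rw [eq_top_iff, ← hint.submodule_iSup_eq_top]
      refine iSup_le fun χ => ?_
      by_cases h0 : N χ = ⊥
      · show N χ ≤ _
        rw [h0]
        exact bot_le
      · obtain ⟨w, rfl⟩ := hZ χ h0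
        show N _ ≤ _
        rw [← hVN w] at h0 ⊢
        exact Finset.le_sup (f := Vw H) (hfin.mem_toFinset.2 h0)
    rw [htop, finrank_top]
  · intro Q T hT
    rw [← WT1_sum (Vw H) hVind]
    exact Submodule.finrank_mono (Finset.sup_le hT)

end MPa8bd83
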