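import Pool.Agent.Work.MP_a8bd83_qk.Interface6

/-! Block WT2 (MP_a8bd83_gt, helper90): the root operator is injective on weight spaces. -/

set_option autoImplicit false

namespace MPa8bd83

open Module

theorem WT2_real {V : Type} [NormedAddCommGroup V] [InnerProductSpace ℂ V] (r : ℝ) (T : V →L[ℂ] V)
    (v : V) : (r • T) v = (r : ℂ) • T v := by
  rw [Complex.coe_smul]
  rfl

theorem p_WT2 : Stmt_WT2 := by
  intro V _ _ _ J n H α c w P Q hJ hR hcw
  have hP : ∀ l v, H l (P v) = P (H l v) + ((α l : ℝ) : ℂ) • Q v := by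
    intro l v
    have h := congrArg (fun T : V →L[ℂ] V => T v) (hR.hP l)
    have h1 : H l (P v) - P (H l v) = (((α l : ℤ) : ℝ) • Q) v := h
    rw [WT2_real] at h1
    rw [← h1]
    abel
  have hQ : ∀ l v, H l (Q v) = Q (H l v) - ((α l : ℝ) : ℂ) • P v := by
    intro l v
    have h := congrArg (fun T : V →L[ℂ] V => T v) (hR.hQ l)
    have h1 : H l (Q v) - Q (H l v) = -((((α l : ℤ) : ℝ) • P) v) := h
    rw [WT2_real] at h1
    rw [sub_eq_add_neg, ← h1]
    abel
  have hmap : ∀ v ∈ Vw H w, (((P + Complex.I • Q : V →L[ℂ] V) : V →ₗ[ℂ] V) v) ∈ Vw H (w - α) := by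
    intro v hv l
    have hv' : H l v = ((w l : ℂ) * Complex.I) • v := hv l
    change H l (P v + Complex.I • Q v) =
      (((w - α) l : ℂ) * Complex.I) • (P v + Complex.I • Q v)
    rw [map_add, map_smul, hP, hQ, hv', map_smul, map_smul]
    simp only [Pi.sub_apply, Int.cast_sub, smul_add, smul_sub, smul_smul, Complex.ofReal_intCast]
    have e1 : Complex.I * (α l : ℂ) = (α l : ℂ) * Complex.I := mul_comm _ _
    have e2 : ((w l : ℂ) - (α l : ℂ)) * Complex.I * Complex.I =
        Complex.I * ((w l : ℂ) * Complex.I) + (α l : ℂ) := by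
      have := Complex.I_mul_I
      linear_combination ((α l : ℂ) * (-1)) * this
    rw [e1, e2, sub_mul, sub_smul, add_smul]
    abel
  have hinj : ∀ v ∈ Vw H w, P v + Complex.I • Q v = 0 → v = 0 := by
    intro v hv h0
    have hPv : P v = -(Complex.I • Q v) := eq_neg_of_add_eq_zero_left h0
    have h1 : P (Q v) - Q (P v) = ((2 : ℝ) • ∑ l, ((c l : ℤ) : ℝ) • H l) v := by
      have h := congrArg (fun T : V →L[ℂ] V => T v) hR.pq
      exact h
    have h2 : ((2 : ℝ) • ∑ l, ((c l : ℤ) : ℝ) • H l) v =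
        (2 * Complex.I * ((∑ l, c l * w l : ℤ) : ℂ)) • v := by
      rw [WT2_real]
      have h3 : (∑ l, ((c l : ℤ) : ℝ) • H l) v = ∑ l, (((c l : ℤ) : ℝ) • H l) v := by
        rw [ContinuousLinearMap.sum_apply]
      rw [h3]
      have h4 : ∀ l, (((c l : ℤ) : ℝ) • H l) v = ((c l : ℂ) * ((w l : ℂ) * Complex.I)) • v := by
        intro l
        have hv' : H l v = ((w l : ℂ) * Complex.I) • v := hv l
        rw [WT2_real, hv', smul_smul, Complex.ofReal_intCast]
      simp only [h4]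
      rw [← Finset.sum_smul, smul_smul]
      congr 1
      push_cast
      rw [Finset.mul_sum, Finset.mul_sum]
      refine Finset.sum_congr rfl (fun l _ => ?_)
      ring
    have h5 : inner ℂ v (P (Q v) - Q (P v)) =
        -inner ℂ (P v) (Q v) + inner ℂ (Q v) (P v) := by
      rw [inner_sub_right]
      have a1 := hR.spP.skew v (Q v)
      have a2 := hR.spQ.skew v (P v)
      rw [a1, a2]
      ring
    rw [h1, h2, inner_smul_right, hPv, inner_neg_left, inner_neg_right, inner_smul_left,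
      inner_smul_right, inner_self_eq_norm_sq_to_K, inner_self_eq_norm_sq_to_K,
      Complex.conj_I] at h5
    have h6 : ((∑ l, c l * w l : ℤ) : ℝ) * ‖v‖ ^ 2 = -‖Q v‖ ^ 2 := by
      have h7 : (2 * Complex.I) * ((((∑ l, c l * w l : ℤ) : ℝ) * ‖v‖ ^ 2 : ℝ) : ℂ) =
          (2 * Complex.I) * ((-‖Q v‖ ^ 2 : ℝ) : ℂ) := by
        have h8 : (2 * Complex.I) * ((((∑ l, c l * w l : ℤ) : ℝ) * ‖v‖ ^ 2 : ℝ) : ℂ) =
            2 * Complex.I * ((∑ l, c l * w l : ℤ) : ℂ) * (‖v‖ : ℂ) ^ 2 := by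
          push_cast
          ring
        rw [h8]
        refine h5.trans ?_
        push_cast
        ring_nf
        rfl
      have h9 : (2 * Complex.I : ℂ) ≠ 0 := mul_ne_zero two_ne_zero Complex.I_ne_zero
      exact_mod_cast mul_left_cancel₀ h9 h7
    have h10 : (1 : ℝ) ≤ ((∑ l, c l * w l : ℤ) : ℝ) := by exact_mod_cast hcw
    have h11 : ‖v‖ ^ 2 ≤ 0 := by nlinarith [sq_nonneg ‖v‖, sq_nonneg ‖Q v‖]
    have h12 : ‖v‖ = 0 := by
      have := le_antisymm h11 (sq_nonneg _)
      exact pow_eq_zero_iff (two_ne_zero) |>.1 this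
    exact norm_eq_zero.1 h12
  refine LinearMap.finrank_le_finrank_of_injective
    (f := ((P + Complex.I • Q : V →L[ℂ] V) : V →ₗ[ℂ] V).restrict hmap) ?_
  rw [injective_iff_map_eq_zero]
  rintro ⟨v, hv⟩ h
  have h1 := congrArg Subtype.val h
  have h2 : P v + Complex.I • Q v = 0 := h1
  exact Subtype.ext (hinj v hv h2)

end MPa8bd83
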