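import Pool.Agent.Work.MP_a8bd83_qk.Interface6

/-! # Block WT3: the reflection (helper46) -/

set_option autoImplicit false

namespace MPa8bd83

open Module

section WT3sec

variable {V : Type} [NormedAddCommGroup V] [InnerProductSpace ℂ V] [FiniteDimensional ℂ V]

theorem WT3_smul (r : ℝ) (T : V →L[ℂ] V) : r • T = (r : ℂ) • T := by
  ext x
  rfl

theorem WT3_inv (X : V →L[ℂ] V) : NormedSpace.exp (-X) * NormedSpace.exp X = 1 := by
  have : CompleteSpace V := FiniteDimensional.complete ℂ V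
  letI : NormedAlgebra ℚ (V →L[ℂ] V) := NormedAlgebra.restrictScalars ℚ ℂ (V →L[ℂ] V)
  rw [← NormedSpace.exp_add_of_commute (Commute.neg_left (Commute.refl X)), neg_add_cancel,
    NormedSpace.exp_zero]

theorem WT3_comm (A X : V →L[ℂ] V) (h : X * A = A * X) :
    X * NormedSpace.exp A = NormedSpace.exp A * X := by
  have : CompleteSpace V := FiniteDimensional.complete ℂ V
  letI : NormedAlgebra ℚ (V →L[ℂ] V) := NormedAlgebra.restrictScalars ℚ ℂ (V →L[ℂ] V)
  have hs : Commute X A := h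
  exact hs.exp_right

theorem WT3_br {n : ℕ} (H : Fin n → (V →L[ℂ] V)) (c α : Fin n → ℤ) (P Q : V →L[ℂ] V)
    (hP : ∀ l, H l * P - P * H l = ((α l : ℝ) : ℂ) • Q) (pair : ∑ l, α l * c l = 2) :
    (∑ l, ((c l : ℝ) : ℂ) • H l) * P - P * (∑ l, ((c l : ℝ) : ℂ) • H l) = (2 : ℂ) • Q := by
  rw [Finset.sum_mul, Finset.mul_sum, ← Finset.sum_sub_distrib]
  have h1 : ∀ l, ((c l : ℝ) : ℂ) • H l * P - P * (((c l : ℝ) : ℂ) • H l) =
      ((α l * c l : ℤ) : ℂ) • Q := by
    intro l
    rw [smul_mul_assoc, mul_smul_comm, ← smul_sub, hP l, smul_smul]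
    congr 1
    push_cast
    ring
  simp_rw [h1]
  rw [← Finset.sum_smul, ← Int.cast_sum, pair]
  norm_num

end WT3sec

theorem p_WT3 (hSE2 : Stmt_SE2) : Stmt_WT3 := by
  intro V _ _ _ J n H α c w P Q _ hR
  set D : V →L[ℂ] V := ∑ l, ((c l : ℝ) : ℂ) • H l with hD
  have hP : ∀ l, H l * P - P * H l = ((α l : ℝ) : ℂ) • Q := fun l => by
    rw [hR.hP l, WT3_smul]
  have hQ : ∀ l, H l * Q - Q * H l = ((α l : ℝ) : ℂ) • (-P) := fun l => by
    rw [hR.hQ l, WT3_smul, smul_neg]
  have hPQ : P * Q - Q * P = (2 : ℂ) • D := by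
    rw [hR.pq, WT3_smul, hD]
    congr 1
  have hDP : D * P - P * D = (2 : ℂ) • Q := WT3_br H c α P Q hP hR.pair
  have hDQ : D * Q - Q * D = (2 : ℂ) • (-P) := WT3_br H c α Q (-P) hQ hR.pair
  set A : V →L[ℂ] V := (1 / 2 : ℂ) • P with hA
  have hAD : A * D - D * A = -Q := by
    rw [hA, smul_mul_assoc, mul_smul_comm, ← smul_sub, ← neg_sub (D * P) (P * D), hDP, smul_neg,
      smul_smul]
    norm_num
  have hAA : A * (A * D - D * A) - (A * D - D * A) * A = -D := by
    rw [hAD, hA, smul_mul_assoc, mul_smul_comm, ← smul_sub, mul_neg, neg_mul, sub_neg_eq_add,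
      neg_add_eq_sub, ← neg_sub (P * Q) (Q * P), hPQ, smul_neg, smul_smul]
    norm_num
  have hg := hSE2 V A D hAA
  set g : V →L[ℂ] V := NormedSpace.exp (Real.pi • A) with hgdef
  have hinj : Function.Injective g := by
    intro x y hxy
    have h1 := WT3_inv (Real.pi • A)
    have h2 : ∀ z, NormedSpace.exp (-(Real.pi • A)) (g z) = z := fun z => by
      have := congrArg (fun T : V →L[ℂ] V => T z) h1
      exact this
    rw [← h2 x, ← h2 y, hxy]
  -- the parts commuting with `g`
  have hX : ∀ l, (H l - ((α l : ℂ) / 2) • D) * g = g * (H l - ((α l : ℂ) / 2) • D) := by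
    intro l
    apply WT3_comm
    have h1 : (H l - ((α l : ℂ) / 2) • D) * P - P * (H l - ((α l : ℂ) / 2) • D) = 0 := by
      have e : (H l - ((α l : ℂ) / 2) • D) * P - P * (H l - ((α l : ℂ) / 2) • D) =
          (H l * P - P * H l) - ((α l : ℂ) / 2) • (D * P - P * D) := by
        rw [sub_mul, mul_sub, smul_mul_assoc, mul_smul_comm, smul_sub]
        abel
      rw [e, hP l, hDP, smul_smul]
      have e2 : ((α l : ℝ) : ℂ) = (α l : ℂ) / 2 * 2 := by
        push_cast
        ring
      rw [e2, sub_self]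
    rw [WT3_smul, hA, smul_smul, mul_smul_comm, smul_mul_assoc, sub_eq_zero.1 h1]
  set d : ℤ := ∑ l', c l' * w l' with hd
  have hmap : ∀ v ∈ Vw H w, g v ∈ Vw H (fun l => w l - d * α l) := by
    intro v hv l
    have hv' : ∀ l, H l v = ((w l : ℂ) * Complex.I) • v := hv
    have hDv : D v = ((d : ℂ) * Complex.I) • v := by
      rw [hD, sum_apply]
      have h1 : ∀ l, (((c l : ℝ) : ℂ) • H l) v = ((c l * w l : ℤ) : ℂ) • (Complex.I • v) := by
        intro l
        rw [smul_apply, hv' l, smul_smul, smul_smul]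
        congr 1
        push_cast
        ring
      simp_rw [h1]
      rw [← Finset.sum_smul, ← Int.cast_sum, smul_smul]
    have hDg : D (g v) = -(g (D v)) := by
      have := congrArg (fun T : V →L[ℂ] V => T v) hg
      have h2 : g (D v) = -(D (g v)) := this
      rw [h2, neg_neg]
    have hXg := congrArg (fun T : V →L[ℂ] V => T v) (hX l)
    have h3 : H l (g v) - ((α l : ℂ) / 2) • D (g v) = g (H l v - ((α l : ℂ) / 2) • D v) := hXg
    have h4 : H l (g v) = g (H l v - ((α l : ℂ) / 2) • D v) + ((α l : ℂ) / 2) • D (g v) := by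
      rw [← h3]
      abel
    rw [h4, hDg, hDv, hv' l, map_sub, map_smul, map_smul, map_smul, smul_neg, smul_smul,
      ← sub_smul, ← sub_eq_add_neg, ← sub_smul]
    congr 1
    push_cast
    ring
  have hf : Function.Injective (LinearMap.restrict (g : V →ₗ[ℂ] V) hmap) := by
    intro x y hxy
    apply Subtype.ext
    apply hinj
    exact congrArg Subtype.val hxy
  exact LinearMap.finrank_le_finrank_of_injective hf

end MPa8bd83
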