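import Pool.Agent.Work.MP_a8bd83_qk.Interface6

/-! MP_a8bd83_gt, block WT4: zero is not a weight. -/

set_option autoImplicit false

namespace MPa8bd83

open Module

theorem WT4_key {V : Type} [NormedAddCommGroup V] [InnerProductSpace ℂ V] {J : V → V}
    {H R S : V →L[ℂ] V} (hH : IsSp J H) (hJ : IsQuatStr J) {x : V} (hx : H x = 0) {a : ℝ}
    (ha : a ≠ 0) (h : H * R - R * H = a • S) :
    inner ℂ x (S x) = 0 ∧ inner ℂ (J x) (S x) = 0 := by
  have h1 : a • S x = H (R x) := by
    have h0 : (H * R - R * H) x = (a • S) x := by rw [h]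
    have h0' : H (R x) - R (H x) = a • S x := h0
    rw [hx, map_zero, sub_zero] at h0'
    exact h0'.symm
  have h2 : S x = (a⁻¹ : ℂ) • H (R x) := by
    rw [← h1, ← Complex.coe_smul, smul_smul]
    rw [inv_mul_cancel₀ (by exact_mod_cast ha), one_smul]
  have hJ0 : J 0 = 0 := by
    have := hJ.add 0 0
    rw [add_zero] at this
    exact left_eq_add.1 this
  have h3 : inner ℂ x (H (R x)) = 0 := by
    have := hH.skew x (R x)
    rw [hx, inner_zero_left] at this
    exact (neg_eq_zero.1 this.symm)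
  have h4 : inner ℂ (J x) (H (R x)) = 0 := by
    have := hH.skew (J x) (R x)
    rw [hH.comm, hx, hJ0, inner_zero_left] at this
    exact (neg_eq_zero.1 this.symm)
  rw [h2, inner_smul_right, inner_smul_right, h3, h4]
  simp

theorem p_WT4 (hEV1 : Stmt_EV1) (hSPS : Stmt_SPS) (hSPG : Stmt_SPG) : Stmt_WT4 := by
  intro V _ _ _ J n ρ hJ hρ hne hn hfree
  rw [eq_bot_iff]
  intro x hx
  rw [Submodule.mem_bot]
  by_contra hx0
  have hx1 : ∀ l, ρ (hq n l) x = 0 := by
    intro l
    have := hx l
    simpa using this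
  -- the subspace of the elements for which `x` is a zero
  let U : Submodule ℝ (spn n) :=
    { carrier := {X | inner ℂ x (ρ X x) = 0 ∧ inner ℂ (J x) (ρ X x) = 0}
      add_mem' := by
        rintro X Y ⟨h1, h2⟩ ⟨h3, h4⟩
        refine ⟨?_, ?_⟩
        · rw [map_add, add_apply, inner_add_right, h1, h3, add_zero]
        · rw [map_add, add_apply, inner_add_right, h2, h4, add_zero]
      zero_mem' := by
        refine ⟨?_, ?_⟩
        · rw [map_zero, zero_apply, inner_zero_right]
        · rw [map_zero, zero_apply, inner_zero_right]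
      smul_mem' := by
        rintro c X ⟨h1, h2⟩
        refine ⟨?_, ?_⟩
        · rw [map_smul, smul_apply, ← Complex.coe_smul, inner_smul_right, h1,
            mul_zero]
        · rw [map_smul, smul_apply, ← Complex.coe_smul, inner_smul_right, h2,
            mul_zero] }
  have hU : U = ⊤ := by
    refine hSPG n U (fun l => ?_) (fun α c P Q hT => ?_)
    · refine ⟨?_, ?_⟩
      · rw [hx1 l, inner_zero_right]
      · rw [hx1 l, inner_zero_right]
    · have hex : ∃ l, α l ≠ 0 := by
        by_contra hcon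
        push Not at hcon
        have hp := hT.pair
        rw [Finset.sum_eq_zero (fun l _ => by rw [hcon l, zero_mul])] at hp
        omega
      obtain ⟨l, hl⟩ := hex
      have hlr : (α l : ℝ) ≠ 0 := by exact_mod_cast hl
      have e1 : ρ (hq n l) * ρ P - ρ P * ρ (hq n l) = (α l : ℝ) • ρ Q := by
        rw [← map_smul]
        refine (hρ.lie (hq n l) P ((α l : ℝ) • Q) ?_).symm
        rw [hT.hP l]
        rfl
      have e2 : ρ (hq n l) * ρ Q - ρ Q * ρ (hq n l) = (-(α l : ℝ)) • ρ P := by
        rw [← map_smul]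
        refine (hρ.lie (hq n l) Q ((-(α l : ℝ)) • P) ?_).symm
        rw [hT.hQ l, ← neg_smul]
        rfl
      exact ⟨WT4_key (hρ.sp _) hJ (hx1 l) (neg_ne_zero.2 hlr) e2,
        WT4_key (hρ.sp _) hJ (hx1 l) hlr e1⟩
  have hmz : MomentZero J (LinearMap.range ρ) x := by
    rintro ξ ⟨X, rfl⟩
    have : X ∈ U := by rw [hU]; trivial
    exact this
  -- the first element of the torus acts trivially
  have h0n : 0 < n := by omega
  have h1n : 1 < n := by omega
  have hSP := (hSPS V J n ρ hρ hne ⟨0, h0n⟩ ⟨1, h1n⟩ (by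
    intro h
    have := congrArg Fin.val h
    simp at this)).2
  apply hSP
  obtain ⟨hspan, -, -, hexp, hint⟩ := hEV1 V J (ρ (hq n ⟨0, h0n⟩)) hJ (hρ.sp _)
  have hfix : ∀ s : ℝ, NormedSpace.exp (s • ρ (hq n ⟨0, h0n⟩)) x = x := by
    intro s
    have h1 : ρ (hq n ⟨0, h0n⟩) x = (((0 : ℝ) : ℂ) * Complex.I) • x := by
      rw [hx1]; simp
    rw [hexp 0 s x h1]
    simp
  have hpm : ∀ s : ℝ, NormedSpace.exp (s • ρ (hq n ⟨0, h0n⟩)) = 1 ∨
      NormedSpace.exp (s • ρ (hq n ⟨0, h0n⟩)) = -1 := by
    intro s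
    refine hfree x hx0 hmz _ ?_ ?_
    · exact ⟨s • hq n ⟨0, h0n⟩, map_smul _ _ _⟩
    · rw [hfix s]
      exact Submodule.subset_span (by simp)
  have hval : ∀ (a : ℝ) (v : V), ρ (hq n ⟨0, h0n⟩) v = ((a : ℂ) * Complex.I) • v →
      ρ (hq n ⟨0, h0n⟩) v = 0 := by
    intro a v hv
    by_cases hv0 : v = 0
    · rw [hv0, map_zero]
    · have ha : a = 0 := by
        by_contra ha
        obtain ⟨m, hm⟩ := hint (Real.pi / (2 * a)) (hpm _) a v hv0 hv
        have hpi := Real.pi_pos
        have h2 : (1 : ℝ) / 2 = m := by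
          field_simp at hm
          have : (1 : ℝ) = 2 * m := by
            linarith
          linarith
        have h3 : (1 : ℤ) = 2 * m := by
          have : (1 : ℝ) = 2 * (m : ℝ) := by linarith
          exact_mod_cast this
        omega
      rw [hv, ha]
      simp
  ext v
  rw [zero_apply]
  have hv := hspan v
  refine Submodule.span_induction (p := fun w _ => ρ (hq n ⟨0, h0n⟩) w = 0) ?_ ?_ ?_ ?_ hv
  · rintro w ⟨a, ha⟩
    exact hval a w ha
  · exact map_zero _
  · intro u w _ _ hu hw
    rw [map_add, hu, hw, add_zero]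
  · intro c w _ hw
    rw [map_smul, hw, smul_zero]

end MPa8bd83
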