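import Pool.Agent.Work.MP_a8bd83_qk.Interface6

set_option autoImplicit false

namespace MPa8bd83

open Module

theorem WT5_sp {V : Type} [NormedAddCommGroup V] [InnerProductSpace ℂ V]
    (J : V → V) (hJ : IsQuatStr J) {n : ℕ} (H : Fin n → (V →L[ℂ] V)) (hsp : ∀ l, IsSp J (H l))
    (I : Finset (Fin n)) : IsSp J (∑ l ∈ I, H l) := by
  constructor
  · intro x y
    rw [ContinuousLinearMap.sum_apply, ContinuousLinearMap.sum_apply, sum_inner, inner_sum,
      ← Finset.sum_neg_distrib]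
    exact Finset.sum_congr rfl (fun l _ => (hsp l).skew x y)
  · intro x
    rw [ContinuousLinearMap.sum_apply, ContinuousLinearMap.sum_apply]
    have h1 : J (∑ l ∈ I, H l x) = ∑ l ∈ I, J (H l x) :=
      map_sum (AddMonoidHom.mk' J hJ.add) (fun l => H l x) I
    rw [h1]
    exact Finset.sum_congr rfl (fun l _ => (hsp l).comm x)

theorem WT5_ev {V : Type} [NormedAddCommGroup V] [InnerProductSpace ℂ V] {n : ℕ}
    (H : Fin n → (V →L[ℂ] V)) (I : Finset (Fin n)) (w : Fin n → ℤ) (v : V) (hv : v ∈ Vw H w) :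
    (∑ l ∈ I, H l) v = ((((∑ l ∈ I, w l : ℤ) : ℝ) : ℂ) * Complex.I) • v := by
  rw [ContinuousLinearMap.sum_apply]
  have h1 : ∀ l ∈ I, H l v = ((w l : ℂ) * Complex.I) • v := fun l _ => hv l
  rw [Finset.sum_congr rfl h1, ← Finset.sum_smul, ← Finset.sum_mul]
  push_cast
  rfl

theorem p_WT5 (hEV1 : Stmt_EV1) : Stmt_WT5 := by
  intro V _ _ _ J n H I w hJ hH
  have hη : IsSp J (∑ l ∈ I, H l) := WT5_sp J hJ H hH.sp I
  obtain ⟨-, -, -, h4, -⟩ := hEV1 V J (∑ l ∈ I, H l) hJ hη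
  have key : ∀ v ∈ Vw H w, NormedSpace.exp (Real.pi • ∑ l ∈ I, H l) v =
      Complex.exp (((Real.pi * ((∑ l ∈ I, w l : ℤ) : ℝ) : ℝ) : ℂ) * Complex.I) • v :=
    fun v hv => h4 _ Real.pi v (WT5_ev H I w v hv)
  constructor
  · rintro ⟨k, hk⟩ v hv
    change NormedSpace.exp (Real.pi • ∑ l ∈ I, H l) v = (1 : ℂ) • v
    rw [key v hv, hk]
    congr 1
    rw [Complex.exp_eq_one_iff]
    refine ⟨k, ?_⟩
    push_cast
    ring
  · intro ho v hv
    change NormedSpace.exp (Real.pi • ∑ l ∈ I, H l) v = (-1 : ℂ) • v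
    rw [Int.not_even_iff_odd] at ho
    obtain ⟨k, hk⟩ := ho
    rw [key v hv, hk]
    congr 1
    have h5 : (((Real.pi * ((2 * k + 1 : ℤ) : ℝ) : ℝ) : ℂ) * Complex.I) =
        k * (2 * Real.pi * Complex.I) + Real.pi * Complex.I := by
      push_cast
      ring
    rw [h5, Complex.exp_add, Complex.exp_pi_mul_I]
    have h6 : Complex.exp ((k : ℂ) * (2 * Real.pi * Complex.I)) = 1 :=
      Complex.exp_eq_one_iff.mpr ⟨k, rfl⟩
    rw [h6, one_mul]

end MPa8bd83
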