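/-
MP_a8bd83_gt, block WTD (helper86): weight decomposition of V under a commuting real space of
skew-adjoint operators.
-/
import Pool.Agent.Work.MP_a8bd83_qk.Interface

set_option autoImplicit false

namespace MPa8bd83

open Module

section WTD

variable {V : Type} [NormedAddCommGroup V] [InnerProductSpace ℂ V]

/-- Weight spaces of different weights are orthogonal. -/
theorem WTD_orth (t : Submodule ℝ (V →L[ℂ] V))
    (hsk : ∀ ξ ∈ t, ∀ x y : V, inner ℂ (ξ x) y = - inner ℂ x (ξ y))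
    (w w' : Dual ℝ t) (hne : w ≠ w') (u v : V) (hu : u ∈ Wt t w) (hv : v ∈ Wt t w') :
    inner ℂ u v = 0 := by
  obtain ⟨ξ, hξ⟩ : ∃ ξ : t, w ξ ≠ w' ξ := by
    by_contra hcon
    push Not at hcon
    exact hne (LinearMap.ext hcon)
  have h1 : (ξ : V →L[ℂ] V) u = ((w ξ : ℂ) * Complex.I) • u := hu ξ
  have h2 : (ξ : V →L[ℂ] V) v = ((w' ξ : ℂ) * Complex.I) • v := hv ξ
  have h3 := hsk (ξ : V →L[ℂ] V) ξ.2 u v
  rw [h1, h2, inner_smul_left, inner_smul_right] at h3
  have h4 : (starRingEnd ℂ) ((w ξ : ℂ) * Complex.I) = - ((w ξ : ℂ) * Complex.I) := by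
    rw [map_mul, Complex.conj_I, Complex.conj_ofReal]
    ring
  rw [h4] at h3
  have h5 : ((w ξ : ℂ) - (w' ξ : ℂ)) * Complex.I * inner ℂ u v = 0 := by
    linear_combination -h3
  rcases mul_eq_zero.mp h5 with h6 | h6
  · rcases mul_eq_zero.mp h6 with h7 | h7
    · exfalso
      apply hξ
      have h8 : (w ξ : ℂ) = (w' ξ : ℂ) := sub_eq_zero.mp h7
      exact_mod_cast h8
    · exact absurd h7 Complex.I_ne_zero
  · exact h6

theorem WTD_family (t : Submodule ℝ (V →L[ℂ] V))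
    (hsk : ∀ ξ ∈ t, ∀ x y : V, inner ℂ (ξ x) y = - inner ℂ x (ξ y)) :
    OrthogonalFamily ℂ (fun w : Dual ℝ t => Wt t w) (fun w => (Wt t w).subtypeₗᵢ) := by
  intro w w' hne u v
  exact WTD_orth t hsk w w' hne u v u.2 v.2

/-- A joint eigenspace is contained in the sum of the weight spaces. -/
theorem WTD_le (t : Submodule ℝ (V →L[ℂ] V))
    (hsk : ∀ ξ ∈ t, ∀ x y : V, inner ℂ (ξ x) y = - inner ℂ x (ξ y))
    (χ : t → ℂ) (v : V)
    (hv : ∀ ξ : t, (-Complex.I) • ((ξ : V →L[ℂ] V) v) = χ ξ • v) :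
    v ∈ ⨆ w, Wt t w := by
  rcases eq_or_ne v 0 with h0 | h0
  · rw [h0]
    exact zero_mem _
  have hxi : ∀ ξ : t, (ξ : V →L[ℂ] V) v = (χ ξ * Complex.I) • v := by
    intro ξ
    have h1 := congrArg (fun z => Complex.I • z) (hv ξ)
    simp only [smul_smul] at h1
    have h2 : Complex.I * -Complex.I = 1 := by
      rw [mul_neg, Complex.I_mul_I, neg_neg]
    rw [h2, one_smul] at h1
    rw [h1, mul_comm]
  have hreal : ∀ ξ : t, ((χ ξ).re : ℂ) = χ ξ := by
    intro ξ
    have h3 := hsk (ξ : V →L[ℂ] V) ξ.2 v v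
    rw [hxi ξ, inner_smul_left, inner_smul_right] at h3
    have h4 : (starRingEnd ℂ) (χ ξ * Complex.I) = - ((starRingEnd ℂ) (χ ξ) * Complex.I) := by
      rw [map_mul, Complex.conj_I]
      ring
    rw [h4] at h3
    have h5 : ((starRingEnd ℂ) (χ ξ) - χ ξ) * Complex.I * inner ℂ v v = 0 := by
      linear_combination -h3
    have h6 : inner ℂ v v ≠ 0 := inner_self_ne_zero.mpr h0
    have h7 : (starRingEnd ℂ) (χ ξ) = χ ξ := by
      rcases mul_eq_zero.mp h5 with h8 | h8
      · rcases mul_eq_zero.mp h8 with h9 | h9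
        · exact sub_eq_zero.mp h9
        · exact absurd h9 Complex.I_ne_zero
      · exact absurd h8 h6
    exact Complex.conj_eq_iff_re.mp h7
  have hadd : ∀ ξ η : t, χ (ξ + η) = χ ξ + χ η := by
    intro ξ η
    have h1 : ((ξ + η : t) : V →L[ℂ] V) v = (ξ : V →L[ℂ] V) v + (η : V →L[ℂ] V) v := by
      rw [Submodule.coe_add, ContinuousLinearMap.add_apply]
    rw [hxi, hxi, hxi, ← add_smul] at h1
    have h2 := smul_left_injective ℂ h0 h1
    have h3 : (χ (ξ + η) - (χ ξ + χ η)) * Complex.I = 0 := by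
      have h2' : χ (ξ + η) * Complex.I = χ ξ * Complex.I + χ η * Complex.I := h2
      linear_combination h2'
    rcases mul_eq_zero.mp h3 with h4 | h4
    · exact sub_eq_zero.mp h4
    · exact absurd h4 Complex.I_ne_zero
  have hsmul : ∀ (r : ℝ) (ξ : t), χ (r • ξ) = (r : ℂ) * χ ξ := by
    intro r ξ
    have h1 : ((r • ξ : t) : V →L[ℂ] V) v = (r : ℂ) • ((ξ : V →L[ℂ] V) v) := by
      rw [Submodule.coe_smul, ContinuousLinearMap.smul_apply]
      exact (Complex.coe_smul r _).symm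
    rw [hxi, hxi, smul_smul] at h1
    have h2 := smul_left_injective ℂ h0 h1
    have h3 : (χ (r • ξ) - (r : ℂ) * χ ξ) * Complex.I = 0 := by
      have h2' : χ (r • ξ) * Complex.I = (r : ℂ) * (χ ξ * Complex.I) := h2
      linear_combination h2'
    rcases mul_eq_zero.mp h3 with h4 | h4
    · exact sub_eq_zero.mp h4
    · exact absurd h4 Complex.I_ne_zero
  let w : Dual ℝ t :=
    { toFun := fun ξ => (χ ξ).re
      map_add' := fun ξ η => by rw [hadd, Complex.add_re]
      map_smul' := fun r ξ => by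
        rw [hsmul, Complex.re_ofReal_mul]
        rfl }
  refine Submodule.mem_iSup_of_mem w ?_
  intro ξ
  change (ξ : V →L[ℂ] V) v = (((χ ξ).re : ℂ) * Complex.I) • v
  rw [hreal]
  exact hxi ξ

theorem WTD_top [FiniteDimensional ℂ V] (t : Submodule ℝ (V →L[ℂ] V))
    (hsk : ∀ ξ ∈ t, ∀ x y : V, inner ℂ (ξ x) y = - inner ℂ x (ξ y))
    (hc : ∀ ξ ∈ t, ∀ η ∈ t, ξ * η = η * ξ) :
    ⨆ w, Wt t w = ⊤ := by
  let T : t → (V →ₗ[ℂ] V) := fun ξ => (-Complex.I) • ((ξ : V →L[ℂ] V) : V →ₗ[ℂ] V)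
  have hT : ∀ ξ, (T ξ).IsSymmetric := by
    intro ξ x y
    change inner ℂ ((-Complex.I) • ((ξ : V →L[ℂ] V) x)) y
      = inner ℂ x ((-Complex.I) • ((ξ : V →L[ℂ] V) y))
    rw [inner_smul_left, inner_smul_right, hsk _ ξ.2, map_neg, Complex.conj_I]
    ring
  have hcom : Pairwise (Function.onFun Commute T) := by
    intro ξ η _
    change T ξ * T η = T η * T ξ
    ext x
    have h1 := congrArg (fun F : V →L[ℂ] V => F x) (hc _ ξ.2 _ η.2)
    have h1' : (ξ : V →L[ℂ] V) ((η : V →L[ℂ] V) x) = (η : V →L[ℂ] V) ((ξ : V →L[ℂ] V) x) := h1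
    change (-Complex.I) • ((ξ : V →L[ℂ] V) ((-Complex.I) • ((η : V →L[ℂ] V) x)))
      = (-Complex.I) • ((η : V →L[ℂ] V) ((-Complex.I) • ((ξ : V →L[ℂ] V) x)))
    rw [map_smul, map_smul, h1']
  have key := LinearMap.IsSymmetric.iSup_iInf_eq_top_of_commute hT hcom
  rw [eq_top_iff, ← key]
  refine iSup_le fun χ => ?_
  intro v hv
  refine WTD_le t hsk χ v ?_
  intro ξ
  have h1 := (Submodule.mem_iInf _).mp hv ξ
  exact Module.End.mem_eigenspace_iff.mp h1

end WTD

theorem WTD : Stmt_WTD := by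
  intro V _ _ _ t hsk hc
  have htop := WTD_top t hsk hc
  have hind : iSupIndep (fun w : Dual ℝ t => Wt t w) := (WTD_family t hsk).independent
  refine ⟨htop, ?_, ?_⟩
  · exact WellFoundedGT.finite_ne_bot_of_iSupIndep hind
  · intro s hs
    classical
    have hind' : iSupIndep (fun w : s => Wt t (w : Dual ℝ t)) :=
      hind.comp Subtype.val_injective
    have htop' : ⨆ w : s, Wt t (w : Dual ℝ t) = ⊤ := by
      rw [eq_top_iff, ← htop]
      refine iSup_le fun w => ?_
      by_cases hw : w ∈ s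
      · exact le_iSup (fun w : s => Wt t (w : Dual ℝ t)) ⟨w, hw⟩
      · have h0 : Wt t w = ⊥ := by
          by_contra hne
          exact hw (hs w hne)
        rw [h0]
        exact bot_le
    have hint : DirectSum.IsInternal (fun w : s => Wt t (w : Dual ℝ t)) :=
      DirectSum.isInternal_submodule_of_iSupIndep_of_iSup_eq_top hind' htop'
    have he := LinearEquiv.finrank_eq
      (LinearEquiv.ofBijective (DirectSum.coeLinearMap fun w : s => Wt t (w : Dual ℝ t)) hint)
    rw [← he, Module.finrank_directSum]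
    exact Finset.sum_coe_sort s (fun w => finrank ℂ (Wt t w))

end MPa8bd83
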