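import Pool.Agent.Work.MP_a8bd83_qk.Interface

/-!
# Block WTO: elementary facts on weight spaces
-/

namespace MPa8bd83

open Module

theorem WTO_neg {V : Type} [NormedAddCommGroup V] [InnerProductSpace ℂ V] {J : V → V}
    (hJ : IsQuatStr J) (x : V) : J (-x) = -J x := by
  have h := hJ.smul (-1) x
  rw [neg_one_smul, map_neg, map_one, neg_one_smul] at h
  exact h

theorem WTO_J {V : Type} [NormedAddCommGroup V] [InnerProductSpace ℂ V] {J : V → V}
    {t : Submodule ℝ (V →L[ℂ] V)} (hJ : IsQuatStr J) (ht : ∀ ξ ∈ t, IsSp J ξ) (w : Dual ℝ t)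
    (v : V) (hv : v ∈ Wt t w) : J v ∈ Wt t (-w) := by
  intro ξ
  have h1 := (ht ξ ξ.2).comm v
  rw [h1, hv ξ, hJ.smul]
  congr 1
  rw [map_mul, Complex.conj_ofReal, Complex.conj_I, LinearMap.neg_apply, Complex.ofReal_neg]
  ring

theorem WTO : Stmt_WTO := by
  intro V _ _ _ J k t hJ ht
  refine ⟨?_, fun w v hv => WTO_J hJ ht w v hv, ?_, ?_⟩
  · intro w w' hw u hu v hv
    obtain ⟨ξ, hξ⟩ : ∃ ξ, w ξ ≠ w' ξ := by
      by_contra hcon
      push Not at hcon
      exact hw (LinearMap.ext hcon)
    have h1 := (ht ξ ξ.2).skew u v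
    rw [hu ξ, hv ξ, inner_smul_left, inner_smul_right, map_mul, Complex.conj_ofReal,
      Complex.conj_I] at h1
    have h2 : (((w ξ : ℂ) - (w' ξ : ℂ)) * Complex.I) * inner ℂ u v = 0 := by
      linear_combination -h1
    rcases mul_eq_zero.1 h2 with h3 | h3
    · exfalso
      rcases mul_eq_zero.1 h3 with h4 | h4
      · apply hξ
        have h5 := sub_eq_zero.1 h4
        exact_mod_cast h5
      · exact Complex.I_ne_zero h4
    · exact h3
  · intro w
    let j : Wt t w ≃+ Wt t (-w) :=
      { toFun := fun v => ⟨J v, WTO_J hJ ht w v v.2⟩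
        invFun := fun v => ⟨-J v, by
          have h := WTO_J hJ ht (-w) v v.2
          rw [neg_neg] at h
          exact (Wt t w).neg_mem h⟩
        left_inv := fun v => by
          apply Subtype.ext
          simp only
          rw [hJ.sq, neg_neg]
        right_inv := fun v => by
          apply Subtype.ext
          simp only
          rw [WTO_neg hJ, hJ.sq, neg_neg]
        map_add' := fun u v => by
          apply Subtype.ext
          simp only [Submodule.coe_add]
          exact hJ.add u v }
    have h := rank_eq_of_equiv_equiv (starRingEnd ℂ) j (star_involutive.bijective) (fun c m => by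
      apply Subtype.ext
      change J ((c • m : Wt t w) : V) = starRingEnd ℂ c • J m
      rw [Submodule.coe_smul, hJ.smul])
    rw [finrank, finrank, h]
  · intro w α X hX v hv ξ
    have h1 := congrArg (fun T : V →L[ℂ] V => T v) (hX.2 ξ)
    have h2 : (ξ : V →L[ℂ] V) (X v) - X ((ξ : V →L[ℂ] V) v) = ((α ξ : ℂ) * Complex.I) • X v := h1
    rw [hv ξ, map_smul, sub_eq_iff_eq_add] at h2
    rw [h2, ← add_smul, LinearMap.add_apply, Complex.ofReal_add]
    congr 1
    ring

end MPa8bd83
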