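import Pool.Agent.Work.MP_a8bd83_qk.Interface9

set_option autoImplicit false

namespace MPa8bd83

open Module

theorem WTZ_star_qi : star qi = -qi := by
  apply Quaternion.ext <;> simp [qi]

theorem WTZ_star_qj : star qj = -qj := by
  apply Quaternion.ext <;> simp [qj]

theorem WTZ_star_qk : star qk = -qk := by
  apply Quaternion.ext <;> simp [qk]

theorem WTZ_single_neg {n : ℕ} (i j : Fin n) (q : Quaternion ℝ) :
    (Matrix.single i j (-q) : HM n) = -Matrix.single i j q := by
  refine Matrix.ext fun a b => ?_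
  rw [Matrix.neg_apply, Matrix.single_apply, Matrix.single_apply]
  split_ifs
  · rfl
  · rw [neg_zero]

theorem WTZ_mem0 {n : ℕ} (i : Fin n) (q : Quaternion ℝ) (hq : star q = -q) :
    (Matrix.single i i q : HM n) ∈ spn n := by
  change (Matrix.single i i q : HM n).conjTranspose = -Matrix.single i i q
  rw [Matrix.conjTranspose_single, hq, WTZ_single_neg]

theorem WTZ_mem1 {n : ℕ} (i j : Fin n) (q : Quaternion ℝ) (hq : star q = -q) :
    (Matrix.single i j q + Matrix.single j i q : HM n) ∈ spn n := by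
  change (Matrix.single i j q + Matrix.single j i q : HM n).conjTranspose =
    -(Matrix.single i j q + Matrix.single j i q)
  rw [Matrix.conjTranspose_add, Matrix.conjTranspose_single, Matrix.conjTranspose_single, hq,
    WTZ_single_neg, WTZ_single_neg, neg_add]
  exact add_comm _ _

theorem WTZ_mem2 {n : ℕ} (i j : Fin n) :
    (Matrix.single i j 1 - Matrix.single j i 1 : HM n) ∈ spn n := by
  change (Matrix.single i j 1 - Matrix.single j i 1 : HM n).conjTranspose =
    -(Matrix.single i j 1 - Matrix.single j i 1)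
  rw [Matrix.conjTranspose_sub, Matrix.conjTranspose_single, Matrix.conjTranspose_single,
    star_one, neg_sub]

/-- The commutator of single matrices with the same index. -/
theorem WTZ_brk {n : ℕ} (l : Fin n) (a b c : Quaternion ℝ) (h : a * b - b * a = (2 : ℝ) • c) :
    (Matrix.single l l a : HM n) * Matrix.single l l b -
      Matrix.single l l b * Matrix.single l l a = (2 : ℝ) • Matrix.single l l c := by
  rw [Matrix.single_mul_single_same, Matrix.single_mul_single_same]
  refine Matrix.ext fun x y => ?_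
  rw [Matrix.sub_apply, Matrix.smul_apply, Matrix.single_apply, Matrix.single_apply,
    Matrix.single_apply]
  split_ifs
  · exact h
  · simp

theorem WTZ_ij : qi * qj - qj * qi = (2 : ℝ) • qk := by
  apply Quaternion.ext <;> simp [qi, qj, qk] <;> norm_num

theorem WTZ_jk : qj * qk - qk * qj = (2 : ℝ) • qi := by
  apply Quaternion.ext <;> simp [qi, qj, qk] <;> norm_num

theorem WTZ_ki : qk * qi - qi * qk = (2 : ℝ) • qj := by
  apply Quaternion.ext <;> simp [qi, qj, qk] <;> norm_num

theorem WTZ_hq {n : ℕ} (l : Fin n) : (hq n l : HM n) = Matrix.single l l qi := rfl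

theorem WTZ_tor (hQUT : Stmt_QUT) {V : Type} [NormedAddCommGroup V] [InnerProductSpace ℂ V]
    [FiniteDimensional ℂ V] (J : V → V) (n : ℕ) (ρ : spn n →ₗ[ℝ] (V →L[ℂ] V))
    (hJ : IsQuatStr J) (hρ : IsLRep J (spn n) ρ) : TorSys J (fun l => ρ (hq n l)) := by
  constructor
  · intro l
    exact hρ.sp _
  · intro l l'
    have h1 : ((0 : spn n) : HM n) = (hq n l : HM n) * (hq n l' : HM n) -
        (hq n l' : HM n) * (hq n l : HM n) := by
      rw [WTZ_hq, WTZ_hq]
      by_cases h : l = l'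
      · subst h
        rw [sub_self]
        rfl
      · rw [Matrix.single_mul_single_of_ne _ _ _ _ h, Matrix.single_mul_single_of_ne _ _ _ _ (Ne.symm h),
          sub_self]
        rfl
    have h2 := hρ.lie _ _ _ h1
    rw [map_zero] at h2
    exact (sub_eq_zero.mp h2.symm)
  · intro l
    refine hQUT V J (ρ (hq n l)) (ρ ⟨Matrix.single l l qj, WTZ_mem0 l qj WTZ_star_qj⟩)
      (ρ ⟨Matrix.single l l qk, WTZ_mem0 l qk WTZ_star_qk⟩) hJ (hρ.sp _) ?_
    constructor
    · rw [← map_smul]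
      refine (hρ.lie _ _ _ ?_).symm
      exact (WTZ_brk l qi qj qk WTZ_ij).symm
    · rw [← map_smul]
      refine (hρ.lie _ _ _ ?_).symm
      exact (WTZ_brk l qj qk qi WTZ_jk).symm
    · rw [← map_smul]
      refine (hρ.lie _ _ _ ?_).symm
      exact (WTZ_brk l qk qi qj WTZ_ki).symm

theorem WTZ_rt {V : Type} [NormedAddCommGroup V] [InnerProductSpace ℂ V]
    (J : V → V) (n : ℕ) (ρ : spn n →ₗ[ℝ] (V →L[ℂ] V))
    (hρ : IsLRep J (spn n) ρ) (α c : Fin n → ℤ) (P Q : spn n) (h : SpTrip n α c P Q) :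
    RtTrip J (fun l => ρ (hq n l)) α c (ρ P) (ρ Q) := by
  constructor
  · exact hρ.sp _
  · exact hρ.sp _
  · intro l
    rw [← map_smul]
    exact (hρ.lie _ _ _ (h.hP l).symm).symm
  · intro l
    rw [← map_smul, ← map_neg]
    exact (hρ.lie _ _ _ (h.hQ l).symm).symm
  · have h1 : ((2 : ℝ) • ∑ l, (c l : ℝ) • ρ (hq n l)) =
        ρ ((2 : ℝ) • ∑ l, (c l : ℝ) • hq n l) := by
      rw [map_smul, map_sum]
      simp only [map_smul]
    change ρ P * ρ Q - ρ Q * ρ P = (2 : ℝ) • ∑ l, (c l : ℝ) • ρ (hq n l)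
    rw [h1]
    refine (hρ.lie _ _ _ ?_).symm
    rw [h.pq, Submodule.coe_smul, Submodule.coe_sum]
    rfl
  · exact h.pair

theorem WTZ_sum1 {n : ℕ} (i : Fin n) (a : ℤ) (w : Fin n → ℤ) :
    ∑ l, (Pi.single i a : Fin n → ℤ) l * w l = a * w i := by
  rw [Finset.sum_eq_single i]
  · rw [Pi.single_eq_same]
  · intro b _ hb
    rw [Pi.single_eq_of_ne hb, zero_mul]
  · intro h
    exact absurd (Finset.mem_univ i) h

theorem p_WTZ (hQUT : Stmt_QUT) (hSPB : Stmt_SPB) (hWT1 : Stmt_WT1) (hWT2 : Stmt_WT2)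
    (hWT3 : Stmt_WT3) (hWT5 : Stmt_WT5) (hSPT : Stmt_SPT) (hWT4 : Stmt_WT4) (hSPZ : Stmt_SPZ) :
    Stmt_WTZ := by
  intro V _ _ _ J n ρ hJ hρ hρ0 hn hF
  have hT := WTZ_tor hQUT J n ρ hJ hρ
  obtain ⟨⟨S, hS1, hS2⟩, hS3⟩ := hWT1 V J n (fun l => ρ (hq n l)) hJ hT
  have hsgn1 : ∀ (w : Fin n → ℤ) (i : Fin n), (fun l => w l -
      (∑ l', (Pi.single i 1 : Fin n → ℤ) l' * w l') * (Pi.single i 2 : Fin n → ℤ) l) =
      Function.update w i (-(w i)) := by
    intro w i
    funext l
    rw [WTZ_sum1]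
    by_cases h : l = i
    · subst h
      rw [Pi.single_eq_same, Function.update_self]
      ring
    · rw [Pi.single_eq_of_ne h, Function.update_of_ne h]
      ring
  have t2 : ∀ i : Fin n, ∃ P Q : spn n, SpTrip n (Pi.single i 2) (Pi.single i 1) P Q :=
    fun i => ⟨⟨_, WTZ_mem0 i qj WTZ_star_qj⟩, ⟨_, WTZ_mem0 i qk WTZ_star_qk⟩,
      (hSPT n).1 i _ _ rfl rfl⟩
  have tp : ∀ i j : Fin n, i ≠ j → ∃ P Q : spn n,
      SpTrip n (Pi.single i 1 + Pi.single j 1) (Pi.single i 1 + Pi.single j 1) P Q :=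
    fun i j hij => ⟨⟨_, WTZ_mem1 i j qj WTZ_star_qj⟩, ⟨_, WTZ_mem1 i j qk WTZ_star_qk⟩,
      (hSPT n).2.1 i j hij _ _ rfl rfl⟩
  have tm : ∀ i j : Fin n, i ≠ j → ∃ P Q : spn n,
      SpTrip n (Pi.single i 1 - Pi.single j 1) (Pi.single i 1 - Pi.single j 1) P Q :=
    fun i j hij => ⟨⟨_, WTZ_mem2 i j⟩, ⟨_, WTZ_mem1 i j qi WTZ_star_qi⟩,
      (hSPT n).2.2 i j hij _ _ rfl rfl⟩
  have hz : ∀ l : Fin n, ∑ w ∈ S with w l = 0, finrank ℂ (Vw (fun l => ρ (hq n l)) w) ≤
      2 * (3 * (n - 1) + 4 * (n - 1).choose 2) := by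
    intro l
    refine le_trans (hS3 (LinearMap.ker (ρ (hq n l) : V →ₗ[ℂ] V)) _ ?_)
      (hSPZ V J n ρ hJ hρ hρ0 hn hF l (LinearMap.ker (ρ (hq n l) : V →ₗ[ℂ] V)) ?_)
    · intro w hw
      rw [Finset.mem_filter] at hw
      intro v hv
      have h1 : ρ (hq n l) v = ((w l : ℂ) * Complex.I) • v := hv l
      rw [hw.2, Int.cast_zero, zero_mul, zero_smul] at h1
      exact h1
    · intro x
      exact Iff.rfl
  refine ⟨fun w => finrank ℂ (Vw (fun l => ρ (hq n l)) w), S, ?_, ?_, hz, hS2⟩
  · constructor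
    · change finrank ℂ (Vw (fun l => ρ (hq n l)) 0) = 0
      rw [hWT4 V J n ρ hJ hρ hρ0 hn hF, finrank_bot]
    · intro w i
      obtain ⟨P, Q, hPQ⟩ := t2 i
      have hR := WTZ_rt J n ρ hρ _ _ P Q hPQ
      have a1 := hWT3 V J n (fun l => ρ (hq n l)) _ _ w _ _ hJ hR
      have a2 := hWT3 V J n (fun l => ρ (hq n l)) _ _ (Function.update w i (-(w i))) _ _ hJ hR
      rw [hsgn1] at a1 a2
      rw [Function.update_self, neg_neg, Function.update_idem, Function.update_eq_self] at a2
      exact le_antisymm a2 a1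
    · intro w i j
      by_cases hij : i = j
      · subst hij
        rw [Equiv.swap_self]
        rfl
      · have hsw : ∀ w : Fin n → ℤ, (fun l => w l -
            (∑ l', (Pi.single i 1 - Pi.single j 1 : Fin n → ℤ) l' * w l') *
              (Pi.single i 1 - Pi.single j 1 : Fin n → ℤ) l) = w ∘ Equiv.swap i j := by
          intro w
          funext l
          have h1 : ∑ l', (Pi.single i 1 - Pi.single j 1 : Fin n → ℤ) l' * w l' = w i - w j := by
            have h2 : ∀ l' : Fin n, (Pi.single i 1 - Pi.single j 1 : Fin n → ℤ) l' * w l' =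
                (Pi.single i 1 : Fin n → ℤ) l' * w l' - (Pi.single j 1 : Fin n → ℤ) l' * w l' := by
              intro l'
              rw [Pi.sub_apply]
              ring
            rw [Finset.sum_congr rfl (fun l' _ => h2 l'), Finset.sum_sub_distrib, WTZ_sum1, WTZ_sum1]
            ring
          rw [h1, Pi.sub_apply, Function.comp_apply]
          by_cases hi : l = i
          · subst hi
            rw [Pi.single_eq_same, Pi.single_eq_of_ne hij, Equiv.swap_apply_left]
            ring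
          · by_cases hj : l = j
            · subst hj
              rw [Pi.single_eq_same, Pi.single_eq_of_ne hi, Equiv.swap_apply_right]
              ring
            · rw [Pi.single_eq_of_ne hi, Pi.single_eq_of_ne hj,
                Equiv.swap_apply_of_ne_of_ne hi hj]
              ring
        obtain ⟨P, Q, hPQ⟩ := tm i j hij
        have hR := WTZ_rt J n ρ hρ _ _ P Q hPQ
        have a1 := hWT3 V J n (fun l => ρ (hq n l)) _ _ w _ _ hJ hR
        have a2 := hWT3 V J n (fun l => ρ (hq n l)) _ _ (w ∘ Equiv.swap i j) _ _ hJ hR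
        rw [hsw] at a1 a2
        have h3 : (w ∘ Equiv.swap i j) ∘ Equiv.swap i j = w := by
          funext l
          simp
        rw [h3] at a2
        exact le_antisymm a2 a1
    · intro w i hw
      obtain ⟨P, Q, hPQ⟩ := t2 i
      have hR := WTZ_rt J n ρ hρ _ _ P Q hPQ
      refine hWT2 V J n (fun l => ρ (hq n l)) _ _ w _ _ hJ hR ?_
      rw [WTZ_sum1]
      linarith
    · intro w i j hij hw
      obtain ⟨P, Q, hPQ⟩ := tp i j hij
      have hR := WTZ_rt J n ρ hρ _ _ P Q hPQ
      refine hWT2 V J n (fun l => ρ (hq n l)) _ _ w _ _ hJ hR ?_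
      have h2 : ∀ l' : Fin n, (Pi.single i 1 + Pi.single j 1 : Fin n → ℤ) l' * w l' =
          (Pi.single i 1 : Fin n → ℤ) l' * w l' + (Pi.single j 1 : Fin n → ℤ) l' * w l' := by
        intro l'
        rw [Pi.add_apply]
        ring
      rw [Finset.sum_congr rfl (fun l' _ => h2 l'), Finset.sum_add_distrib, WTZ_sum1, WTZ_sum1]
      linarith
    · intro w i j hij hw
      obtain ⟨P, Q, hPQ⟩ := tm i j hij
      have hR := WTZ_rt J n ρ hρ _ _ P Q hPQ
      refine hWT2 V J n (fun l => ρ (hq n l)) _ _ w _ _ hJ hR ?_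
      have h2 : ∀ l' : Fin n, (Pi.single i 1 - Pi.single j 1 : Fin n → ℤ) l' * w l' =
          (Pi.single i 1 : Fin n → ℤ) l' * w l' - (Pi.single j 1 : Fin n → ℤ) l' * w l' := by
        intro l'
        rw [Pi.sub_apply]
        ring
      rw [Finset.sum_congr rfl (fun l' _ => h2 l'), Finset.sum_sub_distrib, WTZ_sum1, WTZ_sum1]
      linarith
  · constructor
    · intro w hw
      refine hS1 w ?_
      intro h
      apply hw
      change finrank ℂ (Vw (fun l => ρ (hq n l)) w) = 0
      rw [h, finrank_bot]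
    · intro I hI hI2
      refine le_trans (hS3 (IN2_Q (NormedSpace.exp (Real.pi • ∑ l ∈ I, ρ (hq n l))) 1) _ ?_) ?_
      · intro w hw
        rw [Finset.mem_filter] at hw
        exact (hWT5 V J n (fun l => ρ (hq n l)) I w hJ hT).1 hw.2
      · have h1 := (hSPB V J n ρ hJ hρ hρ0 hF I hI hI2).1 1 (Or.inl rfl)
        rw [map_sum] at h1
        exact h1
    · intro I hI hI2
      refine le_trans (hS3 (IN2_Q (NormedSpace.exp (Real.pi • ∑ l ∈ I, ρ (hq n l))) (-1)) _ ?_) ?_
      · intro w hw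
        rw [Finset.mem_filter] at hw
        exact (hWT5 V J n (fun l => ρ (hq n l)) I w hJ hT).2 hw.2
      · have h1 := (hSPB V J n ρ hJ hρ hρ0 hF I hI hI2).1 (-1) (Or.inr rfl)
        rw [map_sum] at h1
        exact h1

end MPa8bd83
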