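/-
MP_a8bd83_gt: block ZER (helper2).
-/
import Pool.Agent.Work.MP_a8bd83_qk.Interface

namespace MPa8bd83

open Module

theorem ZER : Stmt_ZER := by
  intro V _ _ _ J k t hJ hk ht hWTD hWTO hRTD hRTZ ι _ w e c hA hc hsum
  classical
  have hsp : ∀ ξ ∈ t, IsSp J ξ := fun ξ hξ => hk.sp ξ (ht.le hξ)
  obtain ⟨horth, hJW, -, hshift⟩ := hWTO V J k t hJ hsp
  have hroot := hRTD V J k t hJ hk ht hWTD
  obtain ⟨hzero, -, -⟩ := hRTZ V J k t hJ hk ht
  set s : ι → ℂ := fun i => ((Real.sqrt (c i) : ℝ) : ℂ) with hs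
  have hsc : ∀ i, (starRingEnd ℂ) (s i) = s i := fun i => Complex.conj_ofReal _
  have hss : ∀ i, s i * s i = (c i : ℂ) := by
    intro i
    rw [hs]
    show ((Real.sqrt (c i) : ℝ) : ℂ) * ((Real.sqrt (c i) : ℝ) : ℂ) = (c i : ℂ)
    rw [← Complex.ofReal_mul, Real.mul_self_sqrt (hc i).le]
  let Jh : V →+ V := AddMonoidHom.mk' J hJ.add
  have hJx : J (∑ i, s i • e i) = ∑ i, s i • J (e i) := by
    have h1 : Jh (∑ i, s i • e i) = ∑ i, Jh (s i • e i) := map_sum Jh _ _
    refine h1.trans (Finset.sum_congr rfl fun i _ => ?_)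
    show J (s i • e i) = s i • J (e i)
    rw [hJ.smul, hsc]
  have hXx : ∀ X : V →L[ℂ] V, X (∑ i, s i • e i) = ∑ i, s i • X (e i) := by
    intro X
    rw [map_sum]
    exact Finset.sum_congr rfl fun i _ => map_smul X _ _
  -- expansions
  have hexp1 : ∀ X : V →L[ℂ] V, inner ℂ (∑ i, s i • e i) (X (∑ i, s i • e i)) =
      ∑ i, ∑ j, s i * (s j * inner ℂ (e i) (X (e j))) := by
    intro X
    rw [hXx, sum_inner]
    refine Finset.sum_congr rfl fun i _ => ?_
    rw [inner_sum]
    refine Finset.sum_congr rfl fun j _ => ?_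
    rw [inner_smul_left, inner_smul_right, hsc]
  have hexp2 : ∀ X : V →L[ℂ] V, inner ℂ (J (∑ i, s i • e i)) (X (∑ i, s i • e i)) =
      ∑ i, ∑ j, s i * (s j * inner ℂ (J (e i)) (X (e j))) := by
    intro X
    rw [hJx, hXx, sum_inner]
    refine Finset.sum_congr rfl fun i _ => ?_
    rw [inner_sum]
    refine Finset.sum_congr rfl fun j _ => ?_
    rw [inner_smul_left, inner_smul_right, hsc]
  -- second component
  have hB : ∀ α : Dual ℝ t, ∀ X ∈ Rt k t α,
      inner ℂ (J (∑ i, s i • e i)) (X (∑ i, s i • e i)) = 0 := by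
    intro α X hX
    rw [hexp2]
    refine Finset.sum_eq_zero fun i _ => Finset.sum_eq_zero fun j _ => ?_
    have h0 : inner ℂ (J (e i)) (X (e j)) = 0 := by
      by_cases h : -(w i) = w j + α
      · have hα : α = -(w i + w j) := by
          have : α = -(w i) - w j := by rw [h]; abel
          rw [this]; abel
        subst hα
        exact hA.sum i j X hX
      · exact horth _ _ h _ (hJW _ _ (hA.mem i)) _ (hshift _ _ X hX _ (hA.mem j))
    rw [h0, mul_zero, mul_zero]
  -- off diagonal terms of the first component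
  have hoff : ∀ α : Dual ℝ t, ∀ X ∈ Rt k t α, ∀ i j, i ≠ j → inner ℂ (e i) (X (e j)) = 0 := by
    intro α X hX i j hij
    by_cases h : w i = w j + α
    · have hα : α = w i - w j := by rw [h]; abel
      subst hα
      exact hA.diff i j hij X hX
    · exact horth _ _ h _ (hA.mem i) _ (hshift _ _ X hX _ (hA.mem j))
  have hdiag : ∀ α : Dual ℝ t, ∀ X ∈ Rt k t α,
      inner ℂ (∑ i, s i • e i) (X (∑ i, s i • e i)) =
        ∑ i, (c i : ℂ) * inner ℂ (e i) (X (e i)) := by
    intro α X hX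
    rw [hexp1]
    refine Finset.sum_congr rfl fun i _ => ?_
    rw [Finset.sum_eq_single i]
    · rw [← mul_assoc, hss]
    · intro j _ hj
      rw [hoff α X hX i j (Ne.symm hj), mul_zero, mul_zero]
    · intro h
      exact absurd (Finset.mem_univ _) h
  have hdiag0 : ∀ X ∈ kC t, ∑ i, (c i : ℂ) * inner ℂ (e i) (X (e i)) = 0 := by
    intro X hX
    unfold kC at hX
    induction hX using Submodule.span_induction with
    | mem ξ hξ =>
      have h1 : ∀ i, inner ℂ (e i) (ξ (e i)) = ((w i ⟨ξ, hξ⟩ : ℝ) : ℂ) * Complex.I := by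
        intro i
        have h2 : ξ (e i) = ((w i ⟨ξ, hξ⟩ : ℂ) * Complex.I) • e i := hA.mem i ⟨ξ, hξ⟩
        rw [h2, inner_smul_right, inner_self_eq_norm_sq_to_K, hA.norm i]
        simp
      have h3 : ∑ i, (c i : ℂ) * inner ℂ (e i) (ξ (e i)) =
          ((∑ i, c i * w i ⟨ξ, hξ⟩ : ℝ) : ℂ) * Complex.I := by
        rw [Complex.ofReal_sum, Finset.sum_mul]
        refine Finset.sum_congr rfl fun i _ => ?_
        rw [h1 i, Complex.ofReal_mul, mul_assoc]
      have h4 : ∑ i, c i * w i ⟨ξ, hξ⟩ = 0 := by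
        have h5 := congrArg (fun f : Dual ℝ t => f ⟨ξ, hξ⟩) hsum
        simpa [LinearMap.sum_apply] using h5
      rw [h3, h4]
      simp
    | zero => simp
    | add X Y _ _ hX hY =>
      have h1 : ∑ i, (c i : ℂ) * inner ℂ (e i) ((X + Y) (e i)) =
          ∑ i, (c i : ℂ) * inner ℂ (e i) (X (e i)) + ∑ i, (c i : ℂ) * inner ℂ (e i) (Y (e i)) := by
        rw [← Finset.sum_add_distrib]
        refine Finset.sum_congr rfl fun i _ => ?_
        rw [ContinuousLinearMap.add_apply, inner_add_right, mul_add]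
      rw [h1, hX, hY, add_zero]
    | smul a X _ hX =>
      have h1 : ∑ i, (c i : ℂ) * inner ℂ (e i) ((a • X) (e i)) =
          a * ∑ i, (c i : ℂ) * inner ℂ (e i) (X (e i)) := by
        rw [Finset.mul_sum]
        refine Finset.sum_congr rfl fun i _ => ?_
        rw [ContinuousLinearMap.smul_apply, inner_smul_right]
        ring
      rw [h1, hX, mul_zero]
  have hAA : ∀ α : Dual ℝ t, ∀ X ∈ Rt k t α,
      inner ℂ (∑ i, s i • e i) (X (∑ i, s i • e i)) = 0 := by
    intro α X hX
    rw [hdiag α X hX]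
    by_cases hα : α = 0
    · subst hα
      rw [hzero] at hX
      exact hdiag0 X hX
    · refine Finset.sum_eq_zero fun i _ => ?_
      have h1 : w i ≠ w i + α := by
        intro h
        apply hα
        have h2 : w i + α = w i + 0 := by rw [← h, add_zero]
        exact add_left_cancel h2
      rw [horth _ _ h1 _ (hA.mem i) _ (hshift _ _ X hX _ (hA.mem i)), mul_zero]
  intro ξ hξ
  have hmem : ξ ∈ ⨆ α, Rt k t α := by
    rw [← hroot]
    exact Submodule.subset_span hξ
  show inner ℂ (∑ i, s i • e i) (ξ (∑ i, s i • e i)) = 0 ∧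
    inner ℂ (J (∑ i, s i • e i)) (ξ (∑ i, s i • e i)) = 0
  clear hξ
  induction hmem using Submodule.iSup_induction' with
  | mem α X hX => exact ⟨hAA α X hX, hB α X hX⟩
  | zero => simp
  | add X Y _ _ hX hY =>
    rw [ContinuousLinearMap.add_apply, inner_add_right, inner_add_right, hX.1, hX.2, hY.1, hY.2]
    simp

end MPa8bd83
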