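import Pool.Agent.Work.MP_a8bd83_qk.Final3
import Pool.Agent.Work.MP_a8bd83_qk.Interface7

/-!
All classical simple groups (assembly by helper77).
-/

set_option autoImplicit false

namespace MPa8bd83

open Module

section
variable {V : Type} [NormedAddCommGroup V] [InnerProductSpace ℂ V] [FiniteDimensional ℂ V]
  {J : V → V} {k : Submodule ℝ (V →L[ℂ] V)}

/-- An isomorphism `g ≃ k` is a representation with range `k`. -/
theorem IsoL.rep {A : Type} [Ring A] [Algebra ℝ A] {g : Submodule ℝ A} (hi : IsoL k g)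
    (hk : IsLieSub J k) (hg : 1 ≤ finrank ℝ g) :
    ∃ ρ : g →ₗ[ℝ] (V →L[ℂ] V), IsLRep J g ρ ∧ ρ ≠ 0 ∧ LinearMap.range ρ = k ∧
      finrank ℝ g = finrank ℝ k := by
  obtain ⟨e, he⟩ := hi
  refine ⟨k.subtype ∘ₗ e.toLinearMap, ⟨fun X Y Z h => he X Y Z h, fun X => hk.sp _ (e X).2⟩, ?_,
    ?_, e.finrank_eq⟩
  · intro h0
    have : ∀ X : g, X = 0 := by
      intro X
      have h1 : ((k.subtype ∘ₗ e.toLinearMap) X : V →L[ℂ] V) = 0 := by rw [h0]; rfl
      have h2 : (e X : V →L[ℂ] V) = 0 := h1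
      have h3 : e X = 0 := Subtype.ext h2
      exact (LinearEquiv.map_eq_zero_iff e).1 h3
    have hs : Subsingleton g := ⟨fun a b => by rw [this a, this b]⟩
    have := Module.finrank_zero_of_subsingleton (R := ℝ) (M := g)
    omega
  · rw [LinearMap.range_comp]
    have : LinearMap.range e.toLinearMap = ⊤ := LinearEquiv.range e
    rw [this, Submodule.map_top, Submodule.range_subtype]

/-- **The classical simple groups.** -/
theorem main_classical (f_SPI : Stmt_SPI) (f_SPF : Stmt_SPF) (p_DMU : Stmt_DMU)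
    (p_DMO : Stmt_DMO) (p_DMS : Stmt_DMS) (p_RS1 : Stmt_RS1)
    (hJ : IsQuatStr J) (hk : IsLieSub J k) (hf : FreeOnZeros J k) (N : ℕ)
    (hN : finrank ℂ V = 2 * N) (hc : ClassicalSimple k) (h : finrank ℝ k < N) :
    ActsByScalars N J k ∨ (Exc k ∧ N ≤ finrank ℝ k + 5) := by
  have : CompleteSpace V := FiniteDimensional.complete ℂ V
  obtain ⟨n, ⟨hn, hi⟩ | ⟨hn, hi⟩ | ⟨hn, hi⟩⟩ := hc
  · -- su(n)
    have hd := p_DMU n (by omega)
    have h4 : 4 ≤ n ^ 2 := by nlinarith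
    obtain ⟨ρ, hρ, hρ0, hρk, hfr⟩ := hi.rep hk (by omega)
    rcases Nat.lt_or_ge n 3 with hn3 | hn3
    · have hn2 : n = 2 := by omega
      subst hn2
      rcases Nat.lt_or_ge N 5 with hN5 | hN5
      · right
        exact ⟨⟨2, Or.inl ⟨rfl, hi⟩⟩, by omega⟩
      · left
        obtain ⟨t, ht⟩ := MXA V k
        exact core_rank_le_one coreStmts hJ hk ht hf N hN
          (p_RS1 V k t hi ht.le ht.comm) (Or.inl hN5)
    · have hs := f_SUN V J n N ρ hJ hn3 hN ⟨hρ.lie, hρ.sp⟩ hρ0 (by rw [hρk]; exact hf)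
      rcases hs with hs | ⟨hs1, hs2⟩
      · omega
      · right
        exact ⟨⟨n, Or.inl ⟨hs1, hi⟩⟩, by omega⟩
  · -- so(n)
    have hd := p_DMO n
    have h4 : 1 ≤ n.choose 2 := Nat.choose_pos (by omega)
    obtain ⟨ρ, hρ, hρ0, hρk, hfr⟩ := hi.rep hk (by omega)
    rcases f_SPI V J n N ρ hJ hn hN hρ hρ0 (by rw [hρk]; exact hf) with hs | ⟨hs1, hs2⟩
    · omega
    · right
      refine ⟨⟨n, Or.inr (Or.inl ⟨hs1, hi⟩)⟩, ?_⟩
      subst hs1
      have : (12 : ℕ).choose 2 = 66 := by decide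
      omega
  · -- sp(n)
    have hd := p_DMS n
    have h4 : 1 ≤ n * (2 * n + 1) := Nat.mul_pos (by omega) (by omega)
    obtain ⟨ρ, hρ, hρ0, hρk, hfr⟩ := hi.rep hk (by omega)
    rcases f_SPF V J n N ρ hJ hn hN hρ hρ0 (by rw [hρk]; exact hf) with hs | ⟨hs1, hs2⟩
    · omega
    · right
      exact ⟨⟨n, Or.inr (Or.inr ⟨hs1, hi⟩)⟩, by omega⟩

end

end MPa8bd83
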