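/-
MP_a8bd83_gt, assembly of the core blocks (helper41).
-/
import Pool.Agent.Work.MP_a8bd83_qk.Interface

namespace MPa8bd83

open Module

/-- All core statements. -/
structure CoreStmts : Prop where
  mxa : Stmt_MXA
  wtd : Stmt_WTD
  wto : Stmt_WTO
  rtd : Stmt_RTD
  rtz : Stmt_RTZ
  rtf : Stmt_RTF
  rsy : Stmt_RSY
  hei : Stmt_HEI
  one : Stmt_ONE
  zer : Stmt_ZER
  exp : Stmt_EXP
  lin : Stmt_LIN
  bar : Stmt_BAR
  flp : Stmt_FLP
  coc : Stmt_COC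
  vze : Stmt_VZE
  prz : Stmt_PRZ
  isp : Stmt_ISP
  hlf : Stmt_HLF
  use : Stmt_USE
  gre : Stmt_GRE
  gen : Stmt_GEN
  usc : Stmt_USC
  rk1 : Stmt_RK1
  ev1 : Stmt_EV1
  u1w : Stmt_U1W
  slz : Stmt_SLZ
  szc : Stmt_SZC
  su2w : Stmt_SU2W
  qbs : Stmt_QBS
  nr1 : Stmt_NR1
  nr2 : Stmt_NR2
  jqs : Stmt_JQS

section
variable {V : Type} [NormedAddCommGroup V] [InnerProductSpace ℂ V] [FiniteDimensional ℂ V]
  [CompleteSpace V] {J : V → V} {k t : Submodule ℝ (V →L[ℂ] V)}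

/-- Weights are nonzero (rank ≥ 1). -/
theorem core_wt_ne (C : CoreStmts) (hJ : IsQuatStr J) (hk : IsLieSub J k) (ht : MaxAb k t)
    (hf : FreeOnZeros J k) (hr : 1 ≤ finrank ℝ t) : ∀ w : Dual ℝ t, IsWt t w → w ≠ 0 :=
  C.vze V J k t hJ hk ht hf C.wtd C.wto C.rtd C.rtz C.exp C.lin hr

/-- Rank ≥ 2: an admissible family has at most r members. -/
theorem core_coc (C : CoreStmts) (hJ : IsQuatStr J) (hk : IsLieSub J k) (ht : MaxAb k t)
    (hf : FreeOnZeros J k) (hr : 2 ≤ finrank ℝ t) :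
    ∀ (ι : Type) [Fintype ι] (w : ι → Dual ℝ t) (e : ι → V),
      Admissible J k t w e → Fintype.card ι ≤ finrank ℝ t :=
  C.coc V J k t hJ hk ht hf (core_wt_ne C hJ hk ht hf (by omega)) C.wtd C.wto C.rtd C.rtz C.rsy
    C.zer C.exp C.lin C.bar C.flp hr

/-- Rank ≥ 2: multiplicities. -/
theorem core_hlf (C : CoreStmts) (hJ : IsQuatStr J) (hk : IsLieSub J k) (ht : MaxAb k t)
    (hf : FreeOnZeros J k) (hr : 2 ≤ finrank ℝ t) :
    ∀ w : Dual ℝ t, finrank ℂ (Wt t w) ≤ 3 ∧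
      (¬ IsRoot k t (w + w) → finrank ℂ (Wt t w) ≤ 1) :=
  C.hlf V J k t hJ hk ht hf (core_wt_ne C hJ hk ht hf (by omega)) C.wtd C.wto C.rtd C.rtz C.rsy
    C.hei C.one C.exp C.lin C.prz C.isp hr

/-- Usable weights. -/
theorem core_use (C : CoreStmts) (hJ : IsQuatStr J) (hk : IsLieSub J k) (ht : MaxAb k t) :
    ∀ w : Dual ℝ t, w ≠ 0 → IsWt t w →
      (¬ IsRoot k t (w + w) ∨ 2 ≤ finrank ℂ (Wt t w)) →
      ∃ e ∈ Wt t w, ‖e‖ = 1 ∧ ∀ X ∈ Rt k t (-(w + w)), inner ℂ (J e) (X e) = 0 :=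
  C.use V J k t hJ hk ht C.rtz C.rsy C.hei C.one C.isp

/-- Rank ≥ 2: number of usable weights. -/
theorem core_usc (C : CoreStmts) (hJ : IsQuatStr J) (hk : IsLieSub J k) (ht : MaxAb k t)
    (hf : FreeOnZeros J k) (hr : 2 ≤ finrank ℝ t) :
    ∀ (h : t) (p : ℕ), (∀ α : Dual ℝ t, IsRoot k t α → α h ≠ 0) →
      (∀ s : Finset (Dual ℝ t), (∀ α ∈ s, IsRoot k t α ∧ 0 < α h) → s.card ≤ p) →
      ∀ S : Finset (Dual ℝ t), (∀ w ∈ S, 0 < w h ∧ ∃ e ∈ Wt t w, ‖e‖ = 1 ∧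
        ∀ X ∈ Rt k t (-(w + w)), inner ℂ (J e) (X e) = 0) →
      S.card ≤ finrank ℝ t * (p + 1) :=
  C.usc V J k t hJ hk ht hf (core_wt_ne C hJ hk ht hf (by omega)) C.rsy C.gre
    (core_coc C hJ hk ht hf hr)

/-- Rank zero. -/
theorem core_rank_zero (C : CoreStmts) (hJ : IsQuatStr J) (ht : MaxAb k t) (N : ℕ)
    (hN : finrank ℂ V = 2 * N) (hr : finrank ℝ t = 0) : ActsByScalars N J k := by
  have ht0 : t = ⊥ := Submodule.finrank_eq_zero.mp hr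
  have hk0 : ∀ ξ ∈ k, ξ = 0 := by
    intro ξ hξ
    have : ξ ∈ t := ht.max ξ hξ (by
      intro τ hτ
      rw [ht0, Submodule.mem_bot] at hτ
      rw [hτ, zero_mul, mul_zero])
    rw [ht0, Submodule.mem_bot] at this
    exact this
  obtain ⟨e, he⟩ := C.qbs N V J hJ hN
  refine ⟨e, he, fun _ => 0, fun _ => 0, ?_⟩
  intro ξ hξ n
  rw [hk0 ξ hξ]
  simp

/-- In `SU2Data` the algebra has dimension at least two. -/
theorem SU2Data.two_le {η E : V →L[ℂ] V} (h : SU2Data J k η E) : ¬ finrank ℝ k ≤ 1 := by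
  intro hd
  obtain ⟨hη, -, hE, hE0, hc, -⟩ := h
  obtain ⟨τ, hτ⟩ := finrank_le_one_iff.mp hd
  have hk : ∀ ξ ∈ k, ∃ c : ℂ, ξ = c • (τ : V →L[ℂ] V) := by
    intro ξ hξ
    obtain ⟨c, hc⟩ := hτ ⟨ξ, hξ⟩
    refine ⟨(c : ℂ), ?_⟩
    have := congrArg Subtype.val hc
    simp only [Submodule.coe_smul] at this
    rw [← this]
    ext v
    simp
  have hkC : ∀ X ∈ kC k, ∃ c : ℂ, X = c • (τ : V →L[ℂ] V) := by
    intro X hX
    have : kC k ≤ Submodule.span ℂ {(τ : V →L[ℂ] V)} := by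
      refine Submodule.span_le.mpr ?_
      intro ξ hξ
      obtain ⟨c, hc⟩ := hk ξ hξ
      rw [hc]
      exact Submodule.smul_mem _ _ (Submodule.mem_span_singleton_self _)
    obtain ⟨c, hc⟩ := Submodule.mem_span_singleton.mp (this hX)
    exact ⟨c, hc.symm⟩
  obtain ⟨a, ha⟩ := hk η hη
  obtain ⟨b, hb⟩ := hkC E hE
  have h0 : η * E - E * η = 0 := by
    rw [ha, hb]
    simp only [smul_mul_assoc, mul_smul_comm]
    rw [smul_comm, sub_self]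
  rw [h0] at hc
  have h2 : (2 * Complex.I) ≠ 0 := by simp
  have : E = 0 := by
    rcases smul_eq_zero.mp hc.symm with h | h
    · exact absurd h h2
    · exact h
  exact hE0 this

/-- Rank one. -/
theorem core_rank_one (C : CoreStmts) (hJ : IsQuatStr J) (hk : IsLieSub J k) (ht : MaxAb k t)
    (hf : FreeOnZeros J k) (N : ℕ) (hN : finrank ℂ V = 2 * N) (hr : finrank ℝ t = 1)
    (h5 : 5 ≤ N ∨ finrank ℝ k ≤ 1) : ActsByScalars N J k := by
  rcases C.rk1 V J k t hJ hk ht C.wtd C.rtd C.rtz C.rtf C.rsy C.hei C.one hr with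
    ⟨η, hη⟩ | ⟨η, E, hE⟩
  · obtain ⟨a, ha, hab⟩ := C.u1w V J k η hJ hη hf C.ev1
    exact C.nr1 V J k η N a hJ hη hN ha C.ev1 hab
  · rcases h5 with h5 | h5
    · have := C.su2w V J k η E N hJ hE hf hN h5 C.ev1 C.slz C.szc C.isp
      exact C.nr2 V J k η E N hJ hE hN C.ev1 C.slz this
    · exact absurd h5 hE.two_le

/-- R01: rank at most one. -/
theorem core_rank_le_one (C : CoreStmts) (hJ : IsQuatStr J) (hk : IsLieSub J k)
    (ht : MaxAb k t) (hf : FreeOnZeros J k) (N : ℕ) (hN : finrank ℂ V = 2 * N)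
    (hr : finrank ℝ t ≤ 1) (h5 : 5 ≤ N ∨ finrank ℝ k ≤ 1) : ActsByScalars N J k := by
  rcases Nat.lt_or_ge (finrank ℝ t) 1 with h | h
  · exact core_rank_zero C hJ ht N hN (by omega)
  · exact core_rank_one C hJ hk ht hf N hN (by omega) h5

end

end MPa8bd83
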