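/-
MP_a8bd83_gt, core, citable form for rank ≥ 2 (helper41; form asked for by helper77).
-/
import Pool.Agent.Work.MP_a8bd83_qk.Core

namespace MPa8bd83

open Module

section
variable {V : Type} [NormedAddCommGroup V] [InnerProductSpace ℂ V] [FiniteDimensional ℂ V]
  [CompleteSpace V] {J : V → V} {k t : Submodule ℝ (V →L[ℂ] V)}

/-- A subfamily of an admissible family is admissible. -/
theorem Admissible.comp {ι κ : Type} {w : ι → Dual ℝ t} {e : ι → V}
    (h : Admissible J k t w e) (f : κ → ι) (hf : Function.Injective f) :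
    Admissible J k t (w ∘ f) (e ∘ f) where
  mem := fun i => h.mem (f i)
  norm := fun i => h.norm (f i)
  diff := fun i j hij X hX => h.diff (f i) (f j) (fun e => hij (hf e)) X hX
  sum := fun i j X hX => h.sum (f i) (f j) X hX

/-- NOZ.  In rank ≥ 2 the weights of an admissible family do not have 0 in their convex hull. -/
theorem core_noz (C : CoreStmts) (hJ : IsQuatStr J) (hk : IsLieSub J k) (ht : MaxAb k t)
    (hf : FreeOnZeros J k) (hr : 2 ≤ finrank ℝ t) {ι : Type} (w : ι → Dual ℝ t) (e : ι → V)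
    (hA : Admissible J k t w e) : (0 : Dual ℝ t) ∉ convexHull ℝ (Set.range w) := by
  intro h0
  obtain ⟨κ, hκ, z, c, hz, hai, hc, hc1, hcz⟩ := eq_pos_convex_span_of_mem_convexHull h0
  have hz' : ∀ i, ∃ j, w j = z i := fun i => hz (Set.mem_range_self i)
  choose f hfz using hz'
  have hwf : w ∘ f = z := funext hfz
  have hzi : Function.Injective z := hai.injective
  have hfi : Function.Injective f := by
    intro a b hab
    apply hzi
    rw [← hfz a, ← hfz b, hab]
  have hB : Admissible J k t z (e ∘ f) := by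
    have := hA.comp f hfi
    rwa [hwf] at this
  have hne : ∀ i, (e ∘ f) i ≠ 0 := by
    intro i hi
    have := hB.norm i
    rw [hi, norm_zero] at this
    exact zero_ne_one this
  have hwto := C.wto V J k t hJ (fun ξ hξ => hk.sp ξ (ht.le hξ))
  have hxne : ∑ i, ((Real.sqrt (c i) : ℝ) : ℂ) • (e ∘ f) i ≠ 0 := by
    intro hx
    haveI : Nonempty κ := by
      by_contra hcon
      rw [not_nonempty_iff] at hcon
      rw [Fintype.sum_empty] at hc1
      exact zero_ne_one hc1
    obtain ⟨i0⟩ := (inferInstance : Nonempty κ)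
    have h1 : inner ℂ ((e ∘ f) i0) (∑ i, ((Real.sqrt (c i) : ℝ) : ℂ) • (e ∘ f) i)
        = ((Real.sqrt (c i0) : ℝ) : ℂ) := by
      rw [inner_sum, Finset.sum_eq_single i0]
      · rw [inner_smul_right, inner_self_eq_norm_sq_to_K, hB.norm i0]
        simp
      · intro j _ hj
        rw [inner_smul_right, hwto.1 (z i0) (z j) (fun h => hj (hzi h).symm) _ (hB.mem i0) _
          (hB.mem j), mul_zero]
      · intro h
        exact absurd (Finset.mem_univ _) h
    rw [hx, inner_zero_right] at h1
    have h2 : Real.sqrt (c i0) = 0 := by exact_mod_cast h1.symm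
    exact (Real.sqrt_pos.mpr (hc i0)).ne' h2
  have hzero := C.zer V J k t hJ hk ht C.wtd C.wto C.rtd C.rtz κ z (e ∘ f) c hB hc hcz
  have hcard : Fintype.card κ ≤ finrank ℝ t + 1 := by
    have h1 := hai.card_le_finrank_succ
    have h2 : finrank ℝ (vectorSpan ℝ (Set.range z)) ≤ finrank ℝ (Dual ℝ t) :=
      Submodule.finrank_le _
    rw [Subspace.dual_finrank_eq] at h2
    omega
  obtain ⟨h3, h4⟩ := C.bar V J k t hJ hk ht hf C.wtd C.exp C.lin κ z (e ∘ f) c hB.mem hne hc hc1
    hcz (by omega) hcard hxne hzero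
  have h5 : ∑ _i : κ, (1 / 2 : ℝ) ≤ ∑ i, c i := Finset.sum_le_sum (fun i _ => h4 i)
  rw [hc1, Finset.sum_const, Finset.card_univ, h3, nsmul_eq_mul] at h5
  have h6 : (3 : ℝ) ≤ ((finrank ℝ t + 1 : ℕ) : ℝ) := by
    exact_mod_cast (by omega : 3 ≤ finrank ℝ t + 1)
  linarith

/-- In rank ≥ 2 the weights of an admissible family are linearly independent. -/
theorem core_indep (C : CoreStmts) (hJ : IsQuatStr J) (hk : IsLieSub J k) (ht : MaxAb k t)
    (hf : FreeOnZeros J k) (hr : 2 ≤ finrank ℝ t) {ι : Type} (w : ι → Dual ℝ t) (e : ι → V)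
    (hA : Admissible J k t w e) : LinearIndependent ℝ w := by
  classical
  by_contra hli
  rw [linearIndependent_iff'] at hli
  push Not at hli
  obtain ⟨s, g, hg, i0, hi0, hgi0⟩ := hli
  -- flip the signs
  have hFlip := C.flp V J k t hJ hk ht C.wto C.rsy ι w e (fun i => decide (0 ≤ g i)) hA
  refine core_noz C hJ hk ht hf hr _ _ hFlip ?_
  set w' : ι → Dual ℝ t := fun i => if (decide (0 ≤ g i)) = true then w i else - w i with hw'
  have hgw : ∀ i, |g i| • w' i = g i • w i := by
    intro i
    simp only [hw', decide_eq_true_eq]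
    split_ifs with h
    · rw [abs_of_nonneg h]
    · rw [abs_of_neg (not_le.mp h), smul_neg, neg_smul, neg_neg]
  have hsum : ∑ i ∈ s, |g i| • w' i = 0 := by
    rw [Finset.sum_congr rfl (fun i _ => hgw i), hg]
  have hpos : 0 < ∑ i ∈ s, |g i| :=
    Finset.sum_pos' (fun i _ => abs_nonneg _) ⟨i0, hi0, abs_pos.mpr hgi0⟩
  have hmem := Finset.centerMass_mem_convexHull s (w := fun i => |g i|) (z := w')
    (s := Set.range w') (fun i _ => abs_nonneg _) hpos (fun i _ => Set.mem_range_self i)
  rw [Finset.centerMass, hsum, smul_zero] at hmem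
  exact hmem

end

end MPa8bd83
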