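import Pool.Agent.Work.MP_a8bd83_qk.Skel3
import Pool.Agent.Work.MP_a8bd83_qk.B_BAR
import Pool.Agent.Work.MP_a8bd83_qk.B_COC
import Pool.Agent.Work.MP_a8bd83_qk.B_EV1
import Pool.Agent.Work.MP_a8bd83_qk.B_EXP
import Pool.Agent.Work.MP_a8bd83_qk.B_FLP
import Pool.Agent.Work.MP_a8bd83_qk.B_GEN
import Pool.Agent.Work.MP_a8bd83_qk.B_GRE
import Pool.Agent.Work.MP_a8bd83_qk.B_HEI
import Pool.Agent.Work.MP_a8bd83_qk.B_HLF
import Pool.Agent.Work.MP_a8bd83_qk.B_ISP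
import Pool.Agent.Work.MP_a8bd83_qk.B_JQS
import Pool.Agent.Work.MP_a8bd83_qk.B_LIN
import Pool.Agent.Work.MP_a8bd83_qk.B_MXA
import Pool.Agent.Work.MP_a8bd83_qk.B_NR1
import Pool.Agent.Work.MP_a8bd83_qk.B_NR2
import Pool.Agent.Work.MP_a8bd83_qk.B_ONE
import Pool.Agent.Work.MP_a8bd83_qk.B_PRZ
import Pool.Agent.Work.MP_a8bd83_qk.B_QBS
import Pool.Agent.Work.MP_a8bd83_qk.B_RED
import Pool.Agent.Work.MP_a8bd83_qk.B_RK1
import Pool.Agent.Work.MP_a8bd83_qk.B_RSY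
import Pool.Agent.Work.MP_a8bd83_qk.B_RTD
import Pool.Agent.Work.MP_a8bd83_qk.B_RTF
import Pool.Agent.Work.MP_a8bd83_qk.B_RTZ
import Pool.Agent.Work.MP_a8bd83_qk.B_SLZ
import Pool.Agent.Work.MP_a8bd83_qk.B_SU2W
import Pool.Agent.Work.MP_a8bd83_qk.B_SZC
import Pool.Agent.Work.MP_a8bd83_qk.B_U1W
import Pool.Agent.Work.MP_a8bd83_qk.B_USC
import Pool.Agent.Work.MP_a8bd83_qk.B_USE
import Pool.Agent.Work.MP_a8bd83_qk.B_VZE
import Pool.Agent.Work.MP_a8bd83_qk.B_WTD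
import Pool.Agent.Work.MP_a8bd83_qk.B_WTO
import Pool.Agent.Work.MP_a8bd83_qk.B_ZER
import Pool.Agent.Work.MP_a8bd83_qk.B_LID
import Pool.Agent.Work.MP_a8bd83_qk.B_SL2
import Pool.Agent.Work.MP_a8bd83_qk.B_COR
import Pool.Agent.Work.MP_a8bd83_qk.B_FRM
import Pool.Agent.Work.MP_a8bd83_qk.B_STV
import Pool.Agent.Work.MP_a8bd83_qk.B_STA
import Pool.Agent.Work.MP_a8bd83_qk.B_RDM
import Pool.Agent.Work.MP_a8bd83_qk.B_HAL
import Pool.Agent.Work.MP_a8bd83_qk.B_HRN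
import Pool.Agent.Work.MP_a8bd83_qk.B_CN1
import Pool.Agent.Work.MP_a8bd83_qk.B_CNT
import Pool.Agent.Work.MP_a8bd83_qk.B_PAI
import Pool.Agent.Work.MP_a8bd83_qk.B_CRD
import Pool.Agent.Work.MP_a8bd83_qk.B_STX
import Pool.Agent.Work.MP_a8bd83_qk.B_RS2
import Pool.Agent.Work.MP_a8bd83_qk.B_PIC
import Pool.Agent.Work.MP_a8bd83_qk.B_TOT
import Pool.Agent.Work.MP_a8bd83_qk.B_SIG
import Pool.Agent.Work.MP_a8bd83_qk.B_SPC
import Pool.Agent.Work.MP_a8bd83_qk.B_CMA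
import Pool.Agent.Work.MP_a8bd83_qk.B_CMB
import Pool.Agent.Work.MP_a8bd83_qk.B_CMC
import Pool.Agent.Work.MP_a8bd83_qk.B_R2F
import Pool.Agent.Work.MP_a8bd83_qk.B_FAC

/-!
The main theorem: smooth quaternionic Kaehler quotients of quaternionic projective spaces
(assembly by helper77; the theorem is by helper41 and helper77).
-/

set_option autoImplicit false

namespace MPa8bd83

open Module

theorem coreStmts : CoreStmts where
  mxa := MXA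
  wtd := WTD
  wto := WTO
  rtd := RTD
  rtz := RTZ
  rtf := RTF
  rsy := RSY
  hei := HEI
  one := ONE
  zer := ZER
  exp := EXP
  lin := LIN
  bar := BAR
  flp := FLP
  coc := COC
  vze := VZE
  prz := PRZ
  isp := ISP
  hlf := HLF
  use := USE
  gre := GRE
  gen := GEN
  usc := USC
  rk1 := RK1
  ev1 := EV1
  u1w := U1W
  slz := SLZ
  szc := SZC
  su2w := SU2W
  qbs := QBS
  nr1 := NR1
  nr2 := NR2
  jqs := JQS

theorem f_STV : Stmt_STV := p_STV p_SL2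
theorem f_STA : Stmt_STA := p_STA p_SL2
theorem f_RDM : Stmt_RDM := p_RDM RTZ RTF RSY HEI ONE RED
theorem f_HAL : Stmt_HAL := p_HAL p_FRM f_STV f_RDM
theorem f_HRN : Stmt_HRN := p_HRN p_COR f_HAL
theorem f_CN1 : Stmt_CN1 := p_CN1 GEN
theorem f_CNT : Stmt_CNT := p_CNT f_HRN f_CN1
theorem f_PAI : Stmt_PAI := p_PAI p_COR f_HAL f_HRN f_CN1
theorem f_CRD : Stmt_CRD := p_CRD f_STV f_STA
theorem f_STX : Stmt_STX := p_STX f_STV f_CRD
theorem f_RS2 : Stmt_RS2 := p_RS2 p_COR p_FRM f_STV f_STA f_RDM f_CRD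
theorem f_PIC : Stmt_PIC := p_PIC f_CRD f_STX
theorem f_TOT : Stmt_TOT := p_TOT f_CRD
theorem f_SIG : Stmt_SIG := p_SIG f_CRD f_STX
theorem f_SPC : Stmt_SPC := p_SPC f_CRD ISP
theorem f_CMB : Stmt_CMB := p_CMB p_CMA
theorem f_R2F : Stmt_R2F := p_R2F f_PAI f_CRD f_RS2 f_PIC f_TOT f_SIG f_SPC f_CMB p_CMC

/-- The main theorem on an arbitrary quaternionic Hermitian vector space. -/
theorem main (V : Type) [NormedAddCommGroup V] [InnerProductSpace ℂ V] [FiniteDimensional ℂ V]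
    (J : V → V) (k t : Submodule ℝ (V →L[ℂ] V)) (hJ : IsQuatStr J) (hk : IsLieSub J k)
    (ht : MaxAb k t) (hf : FreeOnZeros J k) (N : ℕ) (hN : finrank ℂ V = 2 * N)
    (h : (finrank ℝ t ≤ 2 ∧ finrank ℝ k + 3 ≤ N) ∨
      (3 ≤ finrank ℝ t ∧ finrank ℝ t * (finrank ℝ k - finrank ℝ t + 2)
        + min (4 * finrank ℝ t) (2 * (finrank ℝ k - finrank ℝ t)) < 2 * N)) :
    ActsByScalars N J k :=
  main_of coreStmts p_LID p_FAC f_CNT f_R2F V J k t hJ hk ht hf N hN h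

end MPa8bd83
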