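import Pool.Agent.Work.MP_a8bd83_qk.B_CNA
import Pool.Agent.Work.MP_a8bd83_qk.B_CNB

/-!
The linear bound in the form `N ≤ d + r + h`, `h` = the number of roots all of whose values on coroots
are even (helper77; the proof is that of the blocks CNA (helper4), CNB (helper88), CN3 (helper3)).
-/

set_option autoImplicit false

namespace MPa8bd83

open Module

/-- Some root has an odd value: `finrank V ≤ 2 (d + r + h)`. -/
theorem lin_odd (hCOR : Stmt_COR) (hSTV : Stmt_STV) (hSTA : Stmt_STA)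
    (hAVG : Stmt_AVG) (hINV : Stmt_INV) (hODD : Stmt_ODD)
    (V : Type) [NormedAddCommGroup V] [InnerProductSpace ℂ V] [FiniteDimensional ℂ V]
    (J : V → V) (k t : Submodule ℝ (V →L[ℂ] V)) (hF : Fac J k t) (hfree : FreeOnZeros J k)
    (hex : ∃ α : Dual ℝ t, IsRoot k t α ∧ ¬ AllEven k t α) (h : Finset (Dual ℝ t))
    (hh : ∀ α : Dual ℝ t, AllEven k t α → α ∈ h) :
    finrank ℂ V ≤ 2 * (finrank ℝ k + finrank ℝ t + h.card) := by
  classical
  obtain ⟨α₀, hα₀, hα₀'⟩ := hex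
  let Φ : Finset (Dual ℝ t) := hF.rfin.toFinset
  have hΦ : ∀ α, α ∈ Φ ↔ IsRoot k t α := fun α => by
    simp only [Φ, Set.Finite.mem_toFinset, Set.mem_setOf_eq]
  have hc : ∀ β : Φ, ∃ (τ : t), ∃ E F : V →L[ℂ] V, Cor k t (β : Dual ℝ t) τ E F := fun β =>
    hCOR V J k t hF _ ((hΦ β).1 β.2)
  choose τ E F hC using hc
  have hM : ∀ (α β : Φ), ∃ n : ℤ, (α : Dual ℝ t) (τ β) = (n : ℝ) := by
    intro α β
    obtain ⟨n, hn, -⟩ := hSTA V J k t hF _ _ _ _ (hC β) (α : Dual ℝ t) ((hΦ α).1 α.2).2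
    exact ⟨n, hn⟩
  choose M hMn using hM
  obtain ⟨f, hf⟩ := hAVG Φ M
  set lam : t := ∑ β : Φ, (if f β then τ β else 0) with hlam
  have hval : ∀ (w : Dual ℝ t) (g : Φ → ℤ), (∀ β, w (τ β) = (g β : ℝ)) →
      w (Real.pi • lam) = ((∑ β, (if f β then g β else 0) : ℤ) : ℝ) * Real.pi := by
    intro w g hg
    rw [map_smul, smul_eq_mul, mul_comm, hlam, map_sum, Int.cast_sum]
    congr 1
    refine Finset.sum_congr rfl fun β _ => ?_
    split_ifs
    · exact hg β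
    · simp
  have hwt : ∀ w : Dual ℝ t, IsWt t w → ∃ n : ℤ, w (Real.pi • lam) = n * Real.pi := by
    intro w hw
    have h1 : ∀ β : Φ, ∃ n : ℤ, w (τ β) = (n : ℝ) := fun β => by
      obtain ⟨n, hn, -⟩ := hSTV V J k t hF _ _ _ _ (hC β) w hw
      exact ⟨n, hn⟩
    choose g hg using h1
    exact ⟨_, hval w g hg⟩
  -- the even roots at `lam`
  set P : Finset Φ := Finset.univ.filter (fun a => Even (∑ b, (if f b then M a b else 0)))
    with hP
  set Q : Finset Φ := Finset.univ.filter (fun a => ∀ b, Even (M a b)) with hQ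
  have hPc : (P.map (Function.Embedding.subtype _)).card = P.card := Finset.card_map _
  have hQc : (Q.map (Function.Embedding.subtype _)).card = Q.card := Finset.card_map _
  have hQe : ∀ a : Φ, (∀ b, Even (M a b)) → AllEven k t (a : Dual ℝ t) := by
    intro a ha
    refine ⟨(hΦ a).1 a.2, fun β τ' E' F' hC' => ?_⟩
    have hβ := CNA_root hC'
    have hβ' := (hΦ β).2 hβ
    have := CNA_uniq hF (hC ⟨β, hβ'⟩) hC'
    obtain ⟨m, hm⟩ := ha ⟨β, hβ'⟩
    refine ⟨m, ?_⟩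
    rw [this, hMn, hm]
    push_cast
    ring
  have hQ2 : Q.card ≤ h.card := by
    rw [← hQc]
    refine Finset.card_le_card fun α hα => ?_
    obtain ⟨a, ha, rfl⟩ := Finset.mem_map.1 hα
    exact hh _ (hQe a (Finset.mem_filter.1 ha).2)
  have hQlt : Q.card < Fintype.card Φ := by
    rw [← Finset.card_univ]
    refine Finset.card_lt_card (Finset.ssubset_univ_iff.2 fun h => hα₀' ?_)
    have h1 : (⟨α₀, (hΦ α₀).2 hα₀⟩ : Φ) ∈ Q := by rw [h]; exact Finset.mem_univ _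
    exact hQe _ (Finset.mem_filter.1 h1).2
  have hcardΦ : Fintype.card Φ = Φ.card := Fintype.card_coe Φ
  have hΦc : finrank ℝ t + Φ.card ≤ finrank ℝ k := hF.rcard Φ fun α hα => (hΦ α).1 hα
  have hPlt : P.card < Fintype.card Φ := by omega
  have hodd : ∃ a : Φ, a ∉ P := by
    by_contra hcon
    push Not at hcon
    have : P = Finset.univ := Finset.eq_univ_iff_forall.2 hcon
    rw [this, Finset.card_univ] at hPlt
    exact lt_irrefl _ hPlt
  obtain ⟨a, ha⟩ := hodd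
  have ha' : Odd (∑ b, (if f b then M a b else 0)) := by
    rw [← Int.not_even_iff_odd]
    intro h
    exact ha (Finset.mem_filter.2 ⟨Finset.mem_univ _, h⟩)
  obtain ⟨n, hn⟩ := ha'
  have hO := hODD V J k t hF (Real.pi • lam) (a : Dual ℝ t) n ((hΦ a).1 a.2) (by
    rw [hval a (M a) (hMn a), hn]
    push_cast
    ring)
  have hI := hINV V J k t hF hfree (Real.pi • lam) hwt hO.1 hO.2
    (P.map (Function.Embedding.subtype _)) (by
      rintro α hα ⟨n, hn⟩
      have hα' := (hΦ α).2 hα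
      refine Finset.mem_map.2 ⟨⟨α, hα'⟩, Finset.mem_filter.2 ⟨Finset.mem_univ _, ?_⟩, rfl⟩
      have h1 := hval α (M ⟨α, hα'⟩) (hMn ⟨α, hα'⟩)
      rw [hn] at h1
      have h2 := mul_right_cancel₀ Real.pi_ne_zero h1
      refine ⟨n, ?_⟩
      have h3 : ((2 * n : ℤ) : ℝ) = ((∑ β, (if f β then M ⟨α, hα'⟩ β else 0) : ℤ) : ℝ) := by
        rw [← h2]
        push_cast
        ring
      have h4 := Int.cast_injective h3
      rw [← h4]
      ring)
  rw [hPc] at hI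
  omega

/-- All values even, two roots: `finrank V ≤ 4 (r + |Φ|)`. -/
theorem lin_even (hEXP : Stmt_EXP) (hCOR : Stmt_COR) (hSTV : Stmt_STV) (hEVN : Stmt_EVN)
    (hINV : Stmt_INV) (hODD : Stmt_ODD)
    (V : Type) [NormedAddCommGroup V] [InnerProductSpace ℂ V] [FiniteDimensional ℂ V]
    (J : V → V) (k t : Submodule ℝ (V →L[ℂ] V)) (hF : Fac J k t) (hfree : FreeOnZeros J k)
    (hall : ∀ α : Dual ℝ t, IsRoot k t α → AllEven k t α)
    (α β : Dual ℝ t) (hα : IsRoot k t α) (hβ : IsRoot k t β) (hne : α ≠ β) (hne' : α ≠ -β)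
    (h : Finset (Dual ℝ t)) (hh : ∀ α : Dual ℝ t, AllEven k t α → α ∈ h) :
    finrank ℂ V ≤ 2 * (finrank ℝ k + finrank ℝ t + h.card) := by
  obtain ⟨τ, E, F, hτ⟩ := hCOR V J k t hF α hα
  obtain ⟨σ, E', F', hσ⟩ := hCOR V J k t hF β hβ
  obtain ⟨hασ, hβτ⟩ := hEVN V J k t hF α β τ σ E F E' F' hτ hσ
    ((hall α hα).2 β σ E' F' hσ) ((hall β hβ).2 α τ E F hτ) hne hne'
  set Φ := hF.rfin.toFinset with hΦ
  have mΦ : ∀ γ, γ ∈ Φ ↔ IsRoot k t γ := fun γ => by rw [hΦ, Set.Finite.mem_toFinset]; rfl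
  have hc1 : Φ.card ≤ h.card :=
    Finset.card_le_card fun γ hγ => hh γ (hall γ ((mΦ γ).1 hγ))
  have hc2 : finrank ℝ t + Φ.card ≤ finrank ℝ k := hF.rcard Φ fun γ hγ => (mΦ γ).1 hγ
  have key : ∃ ξ : t, (∀ w : Dual ℝ t, IsWt t w → ∃ n : ℤ, w ξ = n * Real.pi) ∧
      NormedSpace.exp (ξ : V →L[ℂ] V) ≠ 1 ∧ NormedSpace.exp (ξ : V →L[ℂ] V) ≠ -1 := by
    have hint : ∀ (γ : Dual ℝ t) (ρ : t) (A B : V →L[ℂ] V), Cor k t γ ρ A B →
        ∀ w : Dual ℝ t, IsWt t w → ∃ n : ℤ, w ρ = (n : ℝ) := by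
      intro γ ρ A B hc w hw
      obtain ⟨n, hn, -⟩ := hSTV V J k t hF γ ρ A B hc w hw
      exact ⟨n, hn⟩
    -- the case of one coroot
    have hone : ∀ (γ : Dual ℝ t) (ρ : t) (A B : V →L[ℂ] V), IsRoot k t γ → Cor k t γ ρ A B →
        NormedSpace.exp ((Real.pi • ρ : t) : V →L[ℂ] V) ≠ -1 →
        ∃ ξ : t, (∀ w : Dual ℝ t, IsWt t w → ∃ n : ℤ, w ξ = n * Real.pi) ∧
          NormedSpace.exp (ξ : V →L[ℂ] V) ≠ 1 ∧ NormedSpace.exp (ξ : V →L[ℂ] V) ≠ -1 := by
      intro γ ρ A B hγ hc hm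
      by_cases h1 : NormedSpace.exp ((Real.pi • ρ : t) : V →L[ℂ] V) = 1
      · refine ⟨(Real.pi / 2) • ρ, ?_, ?_⟩
        · intro w hw
          obtain ⟨n, hn⟩ := hint γ ρ A B hc w hw
          obtain ⟨m, hm⟩ := CNB_even hEXP t ρ h1 w hw n hn
          refine ⟨m, ?_⟩
          rw [map_smul, hn, hm, smul_eq_mul]
          push_cast
          ring
        · refine hODD V J k t hF ((Real.pi / 2) • ρ) γ 0 hγ ?_
          rw [map_smul, hc.two, smul_eq_mul]
          push_cast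
          ring
      · refine ⟨Real.pi • ρ, ?_, h1, hm⟩
        intro w hw
        obtain ⟨n, hn⟩ := hint γ ρ A B hc w hw
        refine ⟨n, ?_⟩
        rw [map_smul, hn, smul_eq_mul, mul_comm]
    by_cases hτ1 : NormedSpace.exp ((Real.pi • τ : t) : V →L[ℂ] V) = -1
    · by_cases hσ1 : NormedSpace.exp ((Real.pi • σ : t) : V →L[ℂ] V) = -1
      · refine ⟨(Real.pi / 2) • (τ + σ), ?_, ?_⟩
        · intro w hw
          obtain ⟨n, hn⟩ := hint α τ E F hτ w hw
          obtain ⟨n', hn'⟩ := hint β σ E' F' hσ w hw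
          have ho := CNB_odd hEXP t τ hτ1 w hw n hn
          have ho' := CNB_odd hEXP t σ hσ1 w hw n' hn'
          obtain ⟨m, hm⟩ := ho.add_odd ho'
          refine ⟨m, ?_⟩
          have h2 : ((n : ℝ) + n') = (m : ℝ) + m := by exact_mod_cast hm
          rw [map_smul, map_add, hn, hn', h2, smul_eq_mul]
          ring
        · refine hODD V J k t hF ((Real.pi / 2) • (τ + σ)) α 0 hα ?_
          rw [map_smul, map_add, hτ.two, hασ, smul_eq_mul]
          push_cast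
          ring
      · exact hone β σ E' F' hβ hσ hσ1
    · exact hone α τ E F hα hτ hτ1
  obtain ⟨ξ, h1, h2, h3⟩ := key
  have h4 := hINV V J k t hF hfree ξ h1 h2 h3 Φ fun γ hγ _ => (mΦ γ).2 hγ
  omega

/-- The linear bound. -/
theorem lin_all (hEXP : Stmt_EXP) (hCOR : Stmt_COR) (hSTV : Stmt_STV) (hSTA : Stmt_STA)
    (hEVN : Stmt_EVN) (hAVG : Stmt_AVG) (hINV : Stmt_INV) (hODD : Stmt_ODD)
    (hHRN : Stmt_HRN) (hCN1 : Stmt_CN1)
    (V : Type) [NormedAddCommGroup V] [InnerProductSpace ℂ V] [FiniteDimensional ℂ V]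
    (J : V → V) (k t : Submodule ℝ (V →L[ℂ] V)) (hF : Fre J k t) (hfree : FreeOnZeros J k)
    (h : Finset (Dual ℝ t)) (hh : ∀ α : Dual ℝ t, AllEven k t α → α ∈ h) :
    finrank ℂ V ≤ 2 * (finrank ℝ k + finrank ℝ t + h.card) := by
  classical
  by_cases hA : ∃ α : Dual ℝ t, IsRoot k t α ∧ ¬ AllEven k t α
  · exact lin_odd hCOR hSTV hSTA hAVG hINV hODD V J k t hF.fac hfree hA h hh
  have hA' : ∀ α : Dual ℝ t, IsRoot k t α → AllEven k t α := fun α hα =>
    by_contra fun h => hA ⟨α, hα, h⟩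
  by_cases hB : ∃ α β : Dual ℝ t, IsRoot k t α ∧ IsRoot k t β ∧ α ≠ β ∧ α ≠ -β
  · obtain ⟨α, β, h1, h2, h3, h4⟩ := hB
    exact lin_even hEXP hCOR hSTV hEVN hINV hODD V J k t hF.fac hfree hA' α β h1 h2 h3 h4 h hh
  obtain ⟨a, b, c, H, s, hs, hN, ha, hH, hH1, hH2⟩ := hCN1 V J k t hF
  obtain ⟨h1, h2⟩ := hHRN V J k t hF.fac H s hH1 hH2 hs
  have h3 := hF.fac.rcard s (fun α hα => (hs α).1 hα)
  have hrk := hF.rk
  have hsh : s.card ≤ h.card := Finset.card_le_card fun α hα => hh α (hA' α ((hs α).1 hα))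
  have hcard : s.card ≤ 2 := by
    rcases s.eq_empty_or_nonempty with h0 | ⟨α, hα⟩
    · rw [h0, Finset.card_empty]
      exact Nat.zero_le _
    · have hsub : s ⊆ {α, -α} := by
        intro β hβ
        rw [Finset.mem_insert, Finset.mem_singleton]
        by_contra hcon
        push Not at hcon
        exact hB ⟨β, α, (hs β).1 hβ, (hs α).1 hα, hcon.1, hcon.2⟩
      exact (Finset.card_le_card hsub).trans Finset.card_le_two
  have h5 : finrank ℝ t * (s.card + 2) ≤ 2 * finrank ℝ t + 2 * finrank ℝ t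
      ∧ (s.card ≤ 0 → finrank ℝ t * (s.card + 2) ≤ 2 * finrank ℝ t)
      ∧ (s.card ≤ 1 → finrank ℝ t * (s.card + 2) ≤ 3 * finrank ℝ t) := by
    refine ⟨?_, ?_, ?_⟩
    · have := Nat.mul_le_mul_left (finrank ℝ t) (show s.card + 2 ≤ 4 by omega)
      omega
    · intro h
      have := Nat.mul_le_mul_left (finrank ℝ t) (show s.card + 2 ≤ 2 by omega)
      omega
    · intro h
      have := Nat.mul_le_mul_left (finrank ℝ t) (show s.card + 2 ≤ 3 by omega)
      omega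
  obtain ⟨h6, h7, h8⟩ := h5
  omega

end MPa8bd83
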