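import Pool.Agent.Work.MP_a8bd83_qk.Final
import Pool.Agent.Work.MP_a8bd83_qk.Linear
import Pool.Agent.Work.MP_a8bd83_qk.B_MIN
import Pool.Agent.Work.MP_a8bd83_qk.B_RES
import Pool.Agent.Work.MP_a8bd83_qk.B_RKE
import Pool.Agent.Work.MP_a8bd83_qk.B_ODD
import Pool.Agent.Work.MP_a8bd83_qk.B_INV
import Pool.Agent.Work.MP_a8bd83_qk.B_EVN
import Pool.Agent.Work.MP_a8bd83_qk.B_EVH
import Pool.Agent.Work.MP_a8bd83_qk.B_AVG

/-!
The linear bound for all groups (assembly by helper77).
-/

set_option autoImplicit false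

namespace MPa8bd83

open Module

theorem f_RES : Stmt_RES := p_RES p_MIN
theorem f_RKE : Stmt_RKE := p_RKE RTZ
theorem f_ODD : Stmt_ODD := p_ODD EXP
theorem f_INV : Stmt_INV := p_INV RTD WTD EXP f_RES f_RKE
theorem f_EVN : Stmt_EVN := p_EVN p_FRM
theorem f_EVH : Stmt_EVH := p_EVH p_COR GEN f_EVN

section
variable {V : Type} [NormedAddCommGroup V] [InnerProductSpace ℂ V] [FiniteDimensional ℂ V]
  {J : V → V} {k t : Submodule ℝ (V →L[ℂ] V)}

theorem fac_of (hJ : IsQuatStr J) (hk : IsLieSub J k) (ht : MaxAb k t) : Fac J k t :=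
  p_FAC WTD WTO RTZ RTF RSY HEI ONE V J k t hJ hk ht

theorem fre_of (hJ : IsQuatStr J) (hk : IsLieSub J k) (ht : MaxAb k t) (hf : FreeOnZeros J k)
    (hr : 2 ≤ finrank ℝ t) : Fre J k t :=
  mk_fre WTD WTO RTD RTZ RTF RSY HEI ONE ZER EXP LIN BAR FLP VZE PRZ ISP HLF USE GRE USC p_LID
    p_FAC V J k t hJ hk ht hf hr

/-- Without roots the algebra is abelian. -/
theorem le_of_no_root (hJ : IsQuatStr J) (hk : IsLieSub J k) (ht : MaxAb k t)
    (h : ∀ α : Dual ℝ t, ¬ IsRoot k t α) : k ≤ t := by
  have h1 : kC k = ⨆ α, Rt k t α := RTD V J k t hJ hk ht WTD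
  have h2 : (⨆ α, Rt k t α) ≤ Rt k t 0 := by
    refine iSup_le fun α => ?_
    by_cases hα : α = 0
    · rw [hα]
    · have : Rt k t α = ⊥ := by
        by_contra hb
        exact h α ⟨hα, hb⟩
      rw [this]
      exact bot_le
  intro η hη
  have h3 : η ∈ Rt k t 0 := h2 (h1 ▸ Submodule.subset_span hη)
  refine ht.max η hη fun ξ hξ => ?_
  have h4 := h3.2 ⟨ξ, hξ⟩
  simp only [LinearMap.zero_apply, Complex.ofReal_zero, zero_mul, zero_smul] at h4
  exact sub_eq_zero.1 h4

/-- The linear bound: a group that acts freely (modulo `±1`) on the zeros of the moment map and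
has `N > d + r + h` acts by scalars. -/
theorem main_linear (hJ : IsQuatStr J) (hk : IsLieSub J k)
    (ht : MaxAb k t) (hf : FreeOnZeros J k) (N : ℕ) (hN : finrank ℂ V = 2 * N)
    (h : Finset (Dual ℝ t)) (hh : ∀ α : Dual ℝ t, AllEven k t α → α ∈ h)
    (hb : finrank ℝ k + finrank ℝ t + min h.card (2 * finrank ℝ t) < N) :
    ActsByScalars N J k := by
  classical
  have : CompleteSpace V := FiniteDimensional.complete ℂ V
  have hF := fac_of hJ hk ht
  rcases Nat.lt_or_ge (finrank ℝ t) 2 with hr | hr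
  · refine core_rank_le_one coreStmts hJ hk ht hf N hN (by omega) ?_
    by_cases hex : ∃ α : Dual ℝ t, IsRoot k t α
    · obtain ⟨α, hα⟩ := hex
      left
      have hne : α ≠ -α := by
        intro he
        apply hα.1
        have h2 : (2 : ℝ) • α = 0 := by
          rw [two_smul]
          nth_rewrite 2 [he]
          exact add_neg_cancel α
        exact (smul_eq_zero.1 h2).resolve_left two_ne_zero
      have h3 := hF.rcard {α, -α} (by
        intro β hβ
        rw [Finset.mem_insert, Finset.mem_singleton] at hβ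
        rcases hβ with rfl | rfl
        · exact hα
        · exact hF.rneg _ hα)
      rw [Finset.card_pair hne] at h3
      have h4 : 1 ≤ finrank ℝ t := by
        rcases Nat.eq_zero_or_pos (finrank ℝ t) with h0 | h0
        · exfalso
          apply hα.1
          have : Subsingleton t := Module.finrank_zero_iff.1 h0
          ext x
          rw [Subsingleton.elim x 0, map_zero, map_zero]
        · exact h0
      omega
    · right
      have h5 := le_of_no_root hJ hk ht (fun α hα => hex ⟨α, hα⟩)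
      have h6 : finrank ℝ k ≤ finrank ℝ t := Submodule.finrank_mono h5
      omega
  · exfalso
    have hFr := fre_of hJ hk ht hf hr
    have h1 := lin_all EXP p_COR f_STV f_STA f_EVN p_AVG f_INV f_ODD f_HRN f_CN1 V J k t hFr hf
      h hh
    -- the exact set of the all-even roots
    let A : Finset (Dual ℝ t) := hF.rfin.toFinset.filter (fun α => AllEven k t α)
    have hA : ∀ α : Dual ℝ t, AllEven k t α → α ∈ A := fun α hα => by
      refine Finset.mem_filter.2 ⟨?_, hα⟩
      rw [Set.Finite.mem_toFinset]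
      exact hα.1
    have h2 := lin_all EXP p_COR f_STV f_STA f_EVN p_AVG f_INV f_ODD f_HRN f_CN1 V J k t hFr hf
      A hA
    have h3 : A.card ≤ 2 * finrank ℝ t := f_EVH V J k t hF A fun α hα =>
      (Finset.mem_filter.1 hα).2
    omega

end

end MPa8bd83
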