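import Pool.Agent.Work.MP_a8bd83_qk.Final2
import Pool.Agent.Work.MP_a8bd83_qk.B_JXP
import Pool.Agent.Work.MP_a8bd83_qk.B_IN2
import Pool.Agent.Work.MP_a8bd83_qk.B_INT
import Pool.Agent.Work.MP_a8bd83_qk.B_SEC
import Pool.Agent.Work.MP_a8bd83_qk.B_EXT
import Pool.Agent.Work.MP_a8bd83_qk.B_SUG
import Pool.Agent.Work.MP_a8bd83_qk.B_SUI
import Pool.Agent.Work.MP_a8bd83_qk.B_SUD
import Pool.Agent.Work.MP_a8bd83_qk.B_SUM
import Pool.Agent.Work.MP_a8bd83_qk.B_SUN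

/-!
All representations of `SU(n)`, `n ≥ 3` (assembly by helper77).
-/

set_option autoImplicit false

namespace MPa8bd83

open Module

theorem f_IN2 : Stmt_IN2 := p_IN2 f_RES p_JXP
theorem f_INT : Stmt_INT := p_INT EV1 p_SL2
theorem f_SUG : Stmt_SUG := p_SUG f_INT p_SEC
theorem f_SUM : Stmt_SUM := p_SUM f_IN2 p_EXT f_SUG p_SUI p_SUD
theorem f_SUN : Stmt_SUN := p_SUN f_SUM

end MPa8bd83
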