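import Pool.Agent.Work.MP_a8bd83_qk.Final3
import Pool.Agent.Work.MP_a8bd83_qk.Classical
import Pool.Agent.Work.MP_a8bd83_qk.B_ADK
import Pool.Agent.Work.MP_a8bd83_qk.B_SE2
import Pool.Agent.Work.MP_a8bd83_qk.B_SE3
import Pool.Agent.Work.MP_a8bd83_qk.B_QUT
import Pool.Agent.Work.MP_a8bd83_qk.B_IV4
import Pool.Agent.Work.MP_a8bd83_qk.B_CNP
import Pool.Agent.Work.MP_a8bd83_qk.B_SOD
import Pool.Agent.Work.MP_a8bd83_qk.B_SOS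
import Pool.Agent.Work.MP_a8bd83_qk.B_SOQ
import Pool.Agent.Work.MP_a8bd83_qk.B_SOB
import Pool.Agent.Work.MP_a8bd83_qk.B_SPI
import Pool.Agent.Work.MP_a8bd83_qk.B_SPD
import Pool.Agent.Work.MP_a8bd83_qk.B_SPS
import Pool.Agent.Work.MP_a8bd83_qk.B_SPB
import Pool.Agent.Work.MP_a8bd83_qk.B_WT1
import Pool.Agent.Work.MP_a8bd83_qk.B_WT2
import Pool.Agent.Work.MP_a8bd83_qk.B_WT3
import Pool.Agent.Work.MP_a8bd83_qk.B_WT5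
import Pool.Agent.Work.MP_a8bd83_qk.B_SPT
import Pool.Agent.Work.MP_a8bd83_qk.B_SPG
import Pool.Agent.Work.MP_a8bd83_qk.B_WT4
import Pool.Agent.Work.MP_a8bd83_qk.B_WTA
import Pool.Agent.Work.MP_a8bd83_qk.B_CB1
import Pool.Agent.Work.MP_a8bd83_qk.B_CB2
import Pool.Agent.Work.MP_a8bd83_qk.B_CNW
import Pool.Agent.Work.MP_a8bd83_qk.B_CB3
import Pool.Agent.Work.MP_a8bd83_qk.B_CB4
import Pool.Agent.Work.MP_a8bd83_qk.B_CB6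
import Pool.Agent.Work.MP_a8bd83_qk.B_CB5
import Pool.Agent.Work.MP_a8bd83_qk.B_CBF
import Pool.Agent.Work.MP_a8bd83_qk.B_SPF
import Pool.Agent.Work.MP_a8bd83_qk.B_DMO
import Pool.Agent.Work.MP_a8bd83_qk.B_DMS
import Pool.Agent.Work.MP_a8bd83_qk.B_RS1

/-!
All classical simple groups (assembly by helper77).
-/

set_option autoImplicit false

namespace MPa8bd83

open Module

theorem f_SE2 : Stmt_SE2 := p_SE2 p_SEC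
theorem f_SE3 : Stmt_SE3 := p_SE3 p_SEC
theorem f_QUT : Stmt_QUT := p_QUT f_INT
theorem f_IV4 : Stmt_IV4 := p_IV4 f_RES p_JXP f_SE2 f_SE3 f_QUT
theorem f_SOD : Stmt_SOD := p_SOD p_CNP
theorem f_SOB : Stmt_SOB := p_SOB f_IV4 f_SOD p_SOS p_SOQ
theorem f_SPI : Stmt_SPI := p_SPI f_SOB
theorem f_SPD : Stmt_SPD := p_SPD p_CNP
theorem f_SPB : Stmt_SPB := p_SPB f_IV4 f_SPD p_SPS
theorem f_WT1 : Stmt_WT1 := p_WT1 EV1
theorem f_WT3 : Stmt_WT3 := p_WT3 f_SE2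
theorem f_WT5 : Stmt_WT5 := p_WT5 EV1
theorem f_SPG : Stmt_SPG := p_SPG p_SPT
theorem f_WT4 : Stmt_WT4 := p_WT4 EV1 p_SPS f_SPG
theorem f_WTA : Stmt_WTA := p_WTA f_QUT f_SPB f_WT1 p_WT2 f_WT3 f_WT5 p_SPT f_WT4
theorem f_CB2 : Stmt_CB2 := p_CB2 p_CB1
theorem f_CB3 : Stmt_CB3 := p_CB3 p_CNW
theorem f_CB5 : Stmt_CB5 := p_CB5 p_CB1 p_CB6
theorem f_CBF : Stmt_CBF := p_CBF f_CB2 f_CB3 p_CB4 f_CB5
theorem f_SPF : Stmt_SPF := p_SPF f_SPB f_WTA f_CBF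

end MPa8bd83
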