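import Pool.Agent.Work.MP_a8bd83_qk.Final4
import Pool.Agent.Work.MP_a8bd83_qk.B_DMU

/-!
All classical simple groups (assembly by helper77).
-/

set_option autoImplicit false

namespace MPa8bd83

open Module

/-- The real Lie algebra `k` of operators is isomorphic to the real Lie algebra `g` of matrices. -/
def LieIso {V A : Type} [NormedAddCommGroup V] [InnerProductSpace ℂ V] [Ring A] [Module ℝ A]
    (k : Submodule ℝ (V →L[ℂ] V)) (g : Set A) : Prop :=
  ∃ f : A → (V →L[ℂ] V), Set.BijOn f g k ∧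
    (∀ X ∈ g, ∀ Y ∈ g, f (X + Y) = f X + f Y ∧ f (X * Y - Y * X) = f X * f Y - f Y * f X) ∧
    ∀ X ∈ g, ∀ c : ℝ, f (c • X) = c • f X

/-- `k` is isomorphic to `su(n)`, the skew-Hermitian complex matrices of trace zero. -/
def IsSu {V : Type} [NormedAddCommGroup V] [InnerProductSpace ℂ V] (n : ℕ)
    (k : Submodule ℝ (V →L[ℂ] V)) : Prop :=
  LieIso k {X : Matrix (Fin n) (Fin n) ℂ | X.conjTranspose = -X ∧ X.trace = 0}

/-- `k` is isomorphic to `so(n)`, the skew-symmetric real matrices. -/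
def IsSo {V : Type} [NormedAddCommGroup V] [InnerProductSpace ℂ V] (n : ℕ)
    (k : Submodule ℝ (V →L[ℂ] V)) : Prop :=
  LieIso k {X : Matrix (Fin n) (Fin n) ℝ | X.transpose = -X}

/-- `k` is isomorphic to `sp(n)`, the skew-Hermitian quaternionic matrices. -/
def IsSpn {V : Type} [NormedAddCommGroup V] [InnerProductSpace ℂ V] (n : ℕ)
    (k : Submodule ℝ (V →L[ℂ] V)) : Prop :=
  LieIso k {X : Matrix (Fin n) (Fin n) (Quaternion ℝ) | X.conjTranspose = -X}

section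
variable {V : Type} [NormedAddCommGroup V] [InnerProductSpace ℂ V]
  {k : Submodule ℝ (V →L[ℂ] V)}

theorem LieIso.toL {A : Type} [Ring A] [Algebra ℝ A] {g : Submodule ℝ A}
    (h : LieIso k (g : Set A)) : IsoL k g := by
  obtain ⟨f, hb, ha, hs⟩ := h
  let φ : g →ₗ[ℝ] k :=
    { toFun := fun X => ⟨f X, hb.mapsTo X.2⟩
      map_add' := fun X Y => Subtype.ext (ha X X.2 Y Y.2).1
      map_smul' := fun c X => Subtype.ext (hs X X.2 c) }
  have hφ : Function.Bijective φ := by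
    refine ⟨fun X Y hXY => ?_, fun y => ?_⟩
    · exact Subtype.ext (hb.injOn X.2 Y.2 (congrArg Subtype.val hXY))
    · obtain ⟨x, hx, hxy⟩ := hb.surjOn y.2
      exact ⟨⟨x, hx⟩, Subtype.ext hxy⟩
  refine ⟨LinearEquiv.ofBijective φ hφ, fun X Y Z hZ => ?_⟩
  have h1 := (ha X X.2 Y Y.2).2
  rw [← hZ] at h1
  exact h1

theorem IsSu.toL {n : ℕ} (h : IsSu n k) : IsoL k (su n) := LieIso.toL (g := su n) h
theorem IsSo.toL {n : ℕ} (h : IsSo n k) : IsoL k (so n) := LieIso.toL (g := so n) h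
theorem IsSpn.toL {n : ℕ} (h : IsSpn n k) : IsoL k (spn n) := LieIso.toL (g := spn n) h

end

/-- **The classical simple groups.** -/
theorem main_classical' {V : Type} [NormedAddCommGroup V] [InnerProductSpace ℂ V]
    [FiniteDimensional ℂ V] {J : V → V} {k : Submodule ℝ (V →L[ℂ] V)}
    (hJ : IsQuatStr J) (hk : IsLieSub J k) (hf : FreeOnZeros J k) (N : ℕ)
    (hN : finrank ℂ V = 2 * N) (n : ℕ)
    (hc : (2 ≤ n ∧ IsSu n k) ∨ (7 ≤ n ∧ IsSo n k) ∨ (2 ≤ n ∧ IsSpn n k))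
    (h : finrank ℝ k < N) :
    ActsByScalars N J k ∨ (N ≤ finrank ℝ k + 5 ∧
      ((n % 4 = 2 ∧ IsSu n k) ∨ (n = 12 ∧ IsSo n k) ∨ (n ≤ 4 ∧ IsSpn n k))) := by
  have : CompleteSpace V := FiniteDimensional.complete ℂ V
  rcases hc with ⟨hn, hi'⟩ | ⟨hn, hi'⟩ | ⟨hn, hi'⟩
  · -- su(n)
    have hi := hi'.toL
    have hd := p_DMU n (by omega)
    have h4 : 4 ≤ n ^ 2 := by nlinarith
    obtain ⟨ρ, hρ, hρ0, hρk, hfr⟩ := hi.rep hk (by omega)
    rcases Nat.lt_or_ge n 3 with hn3 | hn3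
    · have hn2 : n = 2 := by omega
      subst hn2
      rcases Nat.lt_or_ge N 5 with hN5 | hN5
      · right
        exact ⟨by omega, Or.inl ⟨rfl, hi'⟩⟩
      · left
        obtain ⟨t, ht⟩ := MXA V k
        exact core_rank_le_one coreStmts hJ hk ht hf N hN
          (p_RS1 V k t hi ht.le ht.comm) (Or.inl hN5)
    · have hs := f_SUN V J n N ρ hJ hn3 hN ⟨hρ.lie, hρ.sp⟩ hρ0 (by rw [hρk]; exact hf)
      rcases hs with hs | ⟨hs1, hs2⟩
      · omega
      · right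
        exact ⟨by omega, Or.inl ⟨hs1, hi'⟩⟩
  · -- so(n)
    have hi := hi'.toL
    have hd := p_DMO n
    have h4 : 1 ≤ n.choose 2 := Nat.choose_pos (by omega)
    obtain ⟨ρ, hρ, hρ0, hρk, hfr⟩ := hi.rep hk (by omega)
    rcases f_SPI V J n N ρ hJ hn hN hρ hρ0 (by rw [hρk]; exact hf) with hs | ⟨hs1, hs2⟩
    · omega
    · right
      refine ⟨?_, Or.inr (Or.inl ⟨hs1, hi'⟩)⟩
      subst hs1
      have : (12 : ℕ).choose 2 = 66 := by decide
      omega
  · -- sp(n)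
    have hi := hi'.toL
    have hd := p_DMS n
    have h4 : 1 ≤ n * (2 * n + 1) := Nat.mul_pos (by omega) (by omega)
    obtain ⟨ρ, hρ, hρ0, hρk, hfr⟩ := hi.rep hk (by omega)
    rcases f_SPF V J n N ρ hJ hn hN hρ hρ0 (by rw [hρk]; exact hf) with hs | ⟨hs1, hs2⟩
    · omega
    · right
      exact ⟨by omega, Or.inr (Or.inr ⟨hs1, hi'⟩)⟩

end MPa8bd83
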