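import Pool.Agent.Work.MP_a8bd83_qk.Final4
import Pool.Agent.Work.MP_a8bd83_qk.B_FPD
import Pool.Agent.Work.MP_a8bd83_qk.B_FPI

/-!
The fixed point inequality (assembly by helper77).
-/

set_option autoImplicit false

namespace MPa8bd83

open Module

theorem f_FPI : Stmt_FPI := p_FPI f_RES p_JXP (p_FPD p_ADK)

theorem main_fpi {V : Type} [NormedAddCommGroup V] [InnerProductSpace ℂ V] [FiniteDimensional ℂ V]
    {J : V → V} (hJ : IsQuatStr J) {k : Submodule ℝ (V →L[ℂ] V)} (hk : IsLieSub J k)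
    (hf : FreeOnZeros J k) (g : V →L[ℂ] V) (hg : ∃ ξ ∈ k, g = NormedSpace.exp ξ) (h1 : g ≠ 1)
    (h2 : g ≠ -1) (E : Submodule ℂ V)
    (hE : (∀ x, x ∈ E ↔ g x = x) ∨ (∀ x, x ∈ E ↔ g x = -x)) :
    finrank ℂ E ≤ 2 * finrank ℝ ((Cz k g).map (rst E)) := by
  obtain ⟨ξ, hξ, rfl⟩ := hg
  rcases hE with hE | hE
  · refine f_FPI V J k hJ hk hf ξ hξ h1 h2 1 (Or.inl rfl) E ?_
    ext x
    rw [hE, Module.End.mem_eigenspace_iff, one_smul]
    rfl
  · refine f_FPI V J k hJ hk hf ξ hξ h1 h2 (-1) (Or.inr rfl) E ?_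
    ext x
    rw [hE, Module.End.mem_eigenspace_iff, neg_one_smul]
    rfl

end MPa8bd83
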