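import Pool.Agent.Work.MP_a8bd83_qk.Final5
import Pool.Agent.Work.MP_a8bd83_qk.Interface9

/-!
The classical simple groups without exceptions (assembly by helper77).
-/

set_option autoImplicit false

namespace MPa8bd83

open Module

/-- **The classical simple groups**, dimension at least eight. -/
theorem simple_of (hSP8 : Stmt_SP8) (hSU8 : Stmt_SU8)
    {V : Type} [NormedAddCommGroup V] [InnerProductSpace ℂ V]
    [FiniteDimensional ℂ V] {J : V → V} {k : Submodule ℝ (V →L[ℂ] V)}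
    (hJ : IsQuatStr J) (hk : IsLieSub J k) (hf : FreeOnZeros J k) (N : ℕ)
    (hN : finrank ℂ V = 2 * N) (n : ℕ)
    (hc : (2 ≤ n ∧ IsSu n k) ∨ (7 ≤ n ∧ IsSo n k) ∨ (2 ≤ n ∧ IsSpn n k))
    (h : finrank ℝ k + 3 ≤ N) : ActsByScalars N J k := by
  have : CompleteSpace V := FiniteDimensional.complete ℂ V
  rcases hc with ⟨hn, hi'⟩ | ⟨hn, hi'⟩ | ⟨hn, hi'⟩
  · -- su(n)
    have hi := hi'.toL
    have hd := p_DMU n (by omega)
    have h4 : 4 ≤ n ^ 2 := by nlinarith
    obtain ⟨ρ, hρ, hρ0, hρk, hfr⟩ := hi.rep hk (by omega)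
    rcases Nat.lt_or_ge n 3 with hn3 | hn3
    · have hn2 : n = 2 := by omega
      subst hn2
      obtain ⟨t, ht⟩ := MXA V k
      exact core_rank_le_one coreStmts hJ hk ht hf N hN
        (p_RS1 V k t hi ht.le ht.comm) (Or.inl (by omega))
    · exfalso
      have hs := f_SUN V J n N ρ hJ hn3 hN ⟨hρ.lie, hρ.sp⟩ hρ0 (by rw [hρk]; exact hf)
      rcases hs with hs | ⟨hs1, hs2⟩
      · omega
      · have := hSU8 V J n N ρ hJ hs1 (by omega) hN hρ hρ0 (by rw [hρk]; exact hf)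
        omega
  · -- so(n)
    exfalso
    have hi := hi'.toL
    have hd := p_DMO n
    have h4 : 1 ≤ n.choose 2 := Nat.choose_pos (by omega)
    obtain ⟨ρ, hρ, hρ0, hρk, hfr⟩ := hi.rep hk (by omega)
    rcases f_SPI V J n N ρ hJ hn hN hρ hρ0 (by rw [hρk]; exact hf) with hs | ⟨hs1, hs2⟩
    · omega
    · subst hs1
      have : (12 : ℕ).choose 2 = 66 := by decide
      omega
  · -- sp(n)
    exfalso
    have hi := hi'.toL
    have hd := p_DMS n
    have h4 : 1 ≤ n * (2 * n + 1) := Nat.mul_pos (by omega) (by omega)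
    obtain ⟨ρ, hρ, hρ0, hρk, hfr⟩ := hi.rep hk (by omega)
    have := hSP8 V J n N ρ hJ hn hN hρ hρ0 (by rw [hρk]; exact hf)
    omega

end MPa8bd83
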