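import Pool.Agent.Work.MP_a8bd83_qk.Final6
import Pool.Agent.Work.MP_a8bd83_qk.Simple
import Pool.Agent.Work.MP_a8bd83_qk.B_CB7
import Pool.Agent.Work.MP_a8bd83_qk.B_CB8
import Pool.Agent.Work.MP_a8bd83_qk.B_SPY
import Pool.Agent.Work.MP_a8bd83_qk.B_SPZ
import Pool.Agent.Work.MP_a8bd83_qk.B_WTZ
import Pool.Agent.Work.MP_a8bd83_qk.B_SP8
import Pool.Agent.Work.MP_a8bd83_qk.B_SUS
import Pool.Agent.Work.MP_a8bd83_qk.B_SUB
import Pool.Agent.Work.MP_a8bd83_qk.B_EVD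
import Pool.Agent.Work.MP_a8bd83_qk.B_EVG
import Pool.Agent.Work.MP_a8bd83_qk.B_SU8

/-!
The classical simple groups without exceptions (assembly by helper77).
-/

set_option autoImplicit false

namespace MPa8bd83

open Module

theorem f_CB7 : Stmt_CB7 := p_CB7 p_CB1
theorem f_CB8 : Stmt_CB8 := p_CB8 p_CB1 f_CB2 p_CB6
theorem f_SPZ : Stmt_SPZ := p_SPZ EV1 p_SEC f_QUT p_SPS f_FPI p_SPY
theorem f_WTZ : Stmt_WTZ := p_WTZ f_QUT f_SPB f_WT1 p_WT2 f_WT3 f_WT5 p_SPT f_WT4 f_SPZ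
theorem f_SP8 : Stmt_SP8 := p_SP8 f_SPB f_WTZ f_CBF f_CB7 f_CB8
theorem f_SUB : Stmt_SUB := p_SUB f_IV4 p_SUD p_SUS
theorem f_EVG : Stmt_EVG := p_EVG f_SE2 f_QUT p_EVD
theorem f_SU8 : Stmt_SU8 := p_SU8 f_SUB f_EVG

/-- **The classical simple groups**, dimension at least eight. -/
theorem main_simple {V : Type} [NormedAddCommGroup V] [InnerProductSpace ℂ V]
    [FiniteDimensional ℂ V] {J : V → V} {k : Submodule ℝ (V →L[ℂ] V)}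
    (hJ : IsQuatStr J) (hk : IsLieSub J k) (hf : FreeOnZeros J k) (N : ℕ)
    (hN : finrank ℂ V = 2 * N) (n : ℕ)
    (hc : (2 ≤ n ∧ IsSu n k) ∨ (7 ≤ n ∧ IsSo n k) ∨ (2 ≤ n ∧ IsSpn n k))
    (h : finrank ℝ k + 3 ≤ N) : ActsByScalars N J k :=
  simple_of f_SP8 f_SU8 hJ hk hf N hN n hc h

end MPa8bd83
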