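import Pool.Agent.Work.MP_a8bd83_qk.Final2

/-!
The condition `every root takes an odd value on some coroot`, in terms of operators (helper77).
-/

set_option autoImplicit false

namespace MPa8bd83

open Module

/-- `τ` is a coroot of `(k, t)`: `τ ∈ t`, and there is an eigenvector `E ∈ k + i k` of `t` with
`[τ, E] = 2 i E`, `[E, E*] = - i τ` (`F` is the adjoint of `E`). -/
def IsCoroot {V : Type} [NormedAddCommGroup V] [InnerProductSpace ℂ V]
    (k t : Submodule ℝ (V →L[ℂ] V)) (τ : V →L[ℂ] V) : Prop :=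
  τ ∈ t ∧ ∃ E F : V →L[ℂ] V, E ∈ Submodule.span ℂ (k : Set (V →L[ℂ] V)) ∧
    (∀ ξ ∈ t, ∃ a : ℝ, ξ * E - E * ξ = ((a : ℂ) * Complex.I) • E) ∧
    (∀ x y, inner ℂ (E x) y = inner ℂ x (F y)) ∧ τ * E - E * τ = (2 * Complex.I) • E ∧
    E * F - F * E = -(Complex.I • τ)

/-- Every root takes an odd value on some coroot: for every eigenvector `E ∈ k + i k` of `t` that does
not commute with `t` there are a coroot `τ` and an integer `m` with `[τ, E] = (2 m + 1) i E`. -/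
def OddRoots {V : Type} [NormedAddCommGroup V] [InnerProductSpace ℂ V]
    (k t : Submodule ℝ (V →L[ℂ] V)) : Prop :=
  ∀ E ∈ Submodule.span ℂ (k : Set (V →L[ℂ] V)),
    (∀ ξ ∈ t, ∃ a : ℝ, ξ * E - E * ξ = ((a : ℂ) * Complex.I) • E) →
    (∃ ξ ∈ t, ξ * E ≠ E * ξ) →
    ∃ τ, IsCoroot k t τ ∧ ∃ m : ℤ, τ * E - E * τ = ((2 * m + 1) * Complex.I) • E

theorem smul_I_inj {V : Type} [NormedAddCommGroup V] [InnerProductSpace ℂ V]
    {E : V →L[ℂ] V} (hE : E ≠ 0) {a b : ℝ}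
    (h : ((a : ℂ) * Complex.I) • E = ((b : ℂ) * Complex.I) • E) : a = b := by
  have h1 : (((a : ℂ) * Complex.I) - ((b : ℂ) * Complex.I)) • E = 0 := by
    rw [sub_smul, h, sub_self]
  rcases smul_eq_zero.1 h1 with h2 | h2
  · rw [← sub_mul] at h2
    rcases mul_eq_zero.1 h2 with h3 | h3
    · exact_mod_cast sub_eq_zero.1 h3
    · exact absurd h3 Complex.I_ne_zero
  · exact absurd h2 hE

/-- An eigenvector of `t` has a linear eigenvalue. -/
theorem exists_dual {V : Type} [NormedAddCommGroup V] [InnerProductSpace ℂ V]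
    {k t : Submodule ℝ (V →L[ℂ] V)} {E : V →L[ℂ] V}
    (hk : E ∈ Submodule.span ℂ (k : Set (V →L[ℂ] V))) (hE : E ≠ 0)
    (h : ∀ ξ ∈ t, ∃ a : ℝ, ξ * E - E * ξ = ((a : ℂ) * Complex.I) • E) :
    ∃ α : Dual ℝ t, E ∈ Rt k t α := by
  choose a ha using h
  refine ⟨{ toFun := fun ξ => a ξ.1 ξ.2, map_add' := ?_, map_smul' := ?_ }, hk, fun ξ => ?_⟩
  · intro x y
    apply smul_I_inj hE
    rw [← ha (x + y).1 (x + y).2, Complex.ofReal_add, add_mul, add_smul, ← ha x.1 x.2,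
      ← ha y.1 y.2, Submodule.coe_add, add_mul, mul_add]
    abel
  · intro c x
    apply smul_I_inj hE
    rw [← ha (c • x).1 (c • x).2, RingHom.id_apply, smul_eq_mul, Complex.ofReal_mul, mul_assoc,
      mul_smul, ← ha x.1 x.2, Submodule.coe_smul, smul_mul_assoc, mul_smul_comm, ← smul_sub]
    ext v
    simp
  · exact ha ξ.1 ξ.2

theorem not_allEven {V : Type} [NormedAddCommGroup V] [InnerProductSpace ℂ V]
    {J : V → V} {k t : Submodule ℝ (V →L[ℂ] V)} (hF : Fac J k t) (h : OddRoots k t) (α : Dual ℝ t) : ¬ AllEven k t α := by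
  rintro ⟨⟨hα0, hα⟩, hev⟩
  obtain ⟨E, hE, hE0⟩ := Submodule.exists_mem_ne_zero_of_ne_bot hα
  have h1 : ∃ ξ ∈ t, ξ * E ≠ E * ξ := by
    by_contra hcon
    push Not at hcon
    apply hα0
    ext x
    have h2 := hE.2 x
    rw [hcon x.1 x.2, sub_self] at h2
    have h3 : (((0 : ℝ) : ℂ) * Complex.I) • E = ((α x : ℂ) * Complex.I) • E := by
      rw [← h2]
      simp
    rw [LinearMap.zero_apply]
    exact (smul_I_inj hE0 h3).symm
  obtain ⟨τ, ⟨hτ, E', F', hE'k, hE't, hadj, h2, hbr⟩, m, hm⟩ := h E hE.1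
    (fun ξ hξ => ⟨α ⟨ξ, hξ⟩, hE.2 ⟨ξ, hξ⟩⟩) h1
  have hval : α ⟨τ, hτ⟩ = 2 * m + 1 := by
    apply smul_I_inj hE0
    rw [← hE.2 ⟨τ, hτ⟩]
    push_cast
    exact hm
  have hE'0 : E' ≠ 0 := by
    intro h0
    rw [h0, zero_mul, mul_zero, sub_zero] at hbr
    have h3 : Complex.I • τ = 0 := by
      rw [← neg_eq_zero]
      exact hbr.symm
    have h4 : τ = 0 := (smul_eq_zero.1 h3).resolve_left Complex.I_ne_zero
    have h5 : (⟨τ, hτ⟩ : t) = 0 := Subtype.ext h4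
    rw [h5, map_zero] at hval
    have h6 : (2 * m + 1 : ℤ) = 0 := by exact_mod_cast hval.symm
    omega
  obtain ⟨β, hβ⟩ := exists_dual hE'k hE'0 hE't
  obtain ⟨X', hX', hX'adj, -⟩ := hF.adj β E' hβ
  have hX'F : X' = F' := by
    ext y
    apply ext_inner_left ℂ
    intro x
    rw [← hX'adj x y, hadj x y]
  have hβτ : β ⟨τ, hτ⟩ = 2 := by
    apply smul_I_inj hE'0
    rw [← hβ.2 ⟨τ, hτ⟩]
    exact h2
  obtain ⟨n, hn⟩ := hev β ⟨τ, hτ⟩ E' F' ⟨hβ, hX'F ▸ hX', hadj, hbr, hβτ⟩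
  rw [hval] at hn
  have h7 : (2 * m + 1 : ℤ) = 2 * n := by exact_mod_cast hn
  omega

/-- The linear bound, final form. -/
theorem main_linear' {V : Type} [NormedAddCommGroup V] [InnerProductSpace ℂ V]
    [FiniteDimensional ℂ V] {J : V → V} {k t : Submodule ℝ (V →L[ℂ] V)} (hJ : IsQuatStr J)
    (hk : IsLieSub J k) (ht : MaxAb k t) (hf : FreeOnZeros J k) (N : ℕ)
    (hN : finrank ℂ V = 2 * N)
    (h : finrank ℝ k + 3 * finrank ℝ t < N ∨
      (finrank ℝ k + finrank ℝ t < N ∧ OddRoots k t)) : ActsByScalars N J k := by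
  classical
  have hF := fac_of hJ hk ht
  rcases h with h | ⟨h, ho⟩
  · refine main_linear hJ hk ht hf N hN (hF.rfin.toFinset) (fun α hα => ?_) ?_
    · rw [Set.Finite.mem_toFinset]
      exact hα.1
    · have := min_le_right (hF.rfin.toFinset).card (2 * finrank ℝ t)
      omega
  · refine main_linear hJ hk ht hf N hN ∅ (fun α hα => ?_) ?_
    · exact absurd hα (not_allEven hF ho α)
    · rw [Finset.card_empty]
      omega

end MPa8bd83
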