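import Pool.Agent.Work.MP_a8bd83_qk.Interface2

/-!
Assembly of part 2 from the statements (helper77).
-/

set_option autoImplicit false

namespace MPa8bd83

open Module

/-- The facts for a free action, from the core. -/
theorem mk_fre (hWTD : Stmt_WTD) (hWTO : Stmt_WTO) (hRTD : Stmt_RTD) (hRTZ : Stmt_RTZ)
    (hRTF : Stmt_RTF) (hRSY : Stmt_RSY) (hHEI : Stmt_HEI) (hONE : Stmt_ONE) (hZER : Stmt_ZER)
    (hEXP : Stmt_EXP) (hLIN : Stmt_LIN) (hBAR : Stmt_BAR) (hFLP : Stmt_FLP) (hVZE : Stmt_VZE)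
    (hPRZ : Stmt_PRZ) (hISP : Stmt_ISP) (hHLF : Stmt_HLF) (hUSE : Stmt_USE) (hGRE : Stmt_GRE)
    (hUSC : Stmt_USC) (hLID : Stmt_LID) (hFAC : Stmt_FAC)
    (V : Type) [NormedAddCommGroup V] [InnerProductSpace ℂ V] [FiniteDimensional ℂ V]
    (J : V → V) (k t : Submodule ℝ (V →L[ℂ] V)) (hJ : IsQuatStr J) (hk : IsLieSub J k)
    (ht : MaxAb k t) (hf : FreeOnZeros J k) (hr : 2 ≤ finrank ℝ t) : Fre J k t := by
  haveI : CompleteSpace V := FiniteDimensional.complete ℂ V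
  have hv : ∀ w : Dual ℝ t, IsWt t w → w ≠ 0 :=
    hVZE V J k t hJ hk ht hf hWTD hWTO hRTD hRTZ hEXP hLIN (by omega)
  have hlid : ∀ (ι : Type) [Fintype ι] (w : ι → Dual ℝ t) (e : ι → V),
      Admissible J k t w e → LinearIndependent ℝ w :=
    hLID V J k t hJ hk ht hf hv hWTD hWTO hRTD hRTZ hRSY hZER hEXP hLIN hBAR hFLP hr
  refine
    { fac := hFAC hWTD hWTO hRTZ hRTF hRSY hHEI hONE V J k t hJ hk ht
      rk := hr
      vze := hv
      lid := hlid
      hlf := hHLF V J k t hJ hk ht hf hv hWTD hWTO hRTD hRTZ hRSY hHEI hONE hEXP hLIN hPRZ hISP hr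
      use := ?_
      usc := ?_ }
  · intro w hw h
    exact hUSE V J k t hJ hk ht hRTZ hRSY hHEI hONE hISP w (hv w hw) hw h
  · intro h p h1 h2 S hS
    refine hUSC V J k t hJ hk ht hf hv hRSY hGRE ?_ h p h1 h2 S hS
    intro ι _ w e ha
    have h3 := (hlid ι w e ha).fintype_card_le_finrank
    rwa [Subspace.dual_finrank_eq] at h3

end MPa8bd83
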