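import Pool.Agent.Work.MP_a8bd83_qk.Skel2
import Pool.Agent.Work.MP_a8bd83_qk.Core

/-!
The main theorem from the statements of the two parts (helper77).
-/

set_option autoImplicit false

namespace MPa8bd83

open Module

/-- The main theorem on an arbitrary quaternionic Hermitian vector space. -/
theorem main_of (C : CoreStmts) (hLID : Stmt_LID) (hFAC : Stmt_FAC) (hCNT : Stmt_CNT)
    (hR2F : Stmt_R2F)
    (V : Type) [NormedAddCommGroup V] [InnerProductSpace ℂ V] [FiniteDimensional ℂ V]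
    (J : V → V) (k t : Submodule ℝ (V →L[ℂ] V)) (hJ : IsQuatStr J) (hk : IsLieSub J k)
    (ht : MaxAb k t) (hf : FreeOnZeros J k) (N : ℕ) (hN : finrank ℂ V = 2 * N)
    (h : (finrank ℝ t ≤ 2 ∧ finrank ℝ k + 3 ≤ N) ∨
      (3 ≤ finrank ℝ t ∧ finrank ℝ t * (finrank ℝ k - finrank ℝ t + 2)
        + min (4 * finrank ℝ t) (2 * (finrank ℝ k - finrank ℝ t)) < 2 * N)) :
    ActsByScalars N J k := by
  have : CompleteSpace V := FiniteDimensional.complete ℂ V
  rcases Nat.lt_or_ge (finrank ℝ t) 2 with hr | hr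
  · rcases h with ⟨-, h⟩ | ⟨h, -⟩
    · exact core_rank_le_one C hJ hk ht hf N hN (by omega) (by omega)
    · omega
  · have hF : Fre J k t := mk_fre C.wtd C.wto C.rtd C.rtz C.rtf C.rsy C.hei C.one C.zer C.exp
      C.lin C.bar C.flp C.vze C.prz C.isp C.hlf C.use C.gre C.usc hLID hFAC V J k t hJ hk ht hf hr
    rcases h with ⟨h2, h⟩ | ⟨-, h⟩
    · exact (hR2F V J k t hF (by omega) (by omega)).elim
    · have := hCNT V J k t hF
      omega

end MPa8bd83
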